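import Pool.Agent.Helper90.MT.StS

/-!
Project MT, part S: the modified function `Ytil`, common lemmas and `StTil1`.
-/

namespace Pool.Agent.Helper90.MT

open Finset

set_option linter.unusedSectionVars false

section Til
variable {α ι : Type} [Fintype α] [DecidableEq α] [Fintype ι] [DecidableEq ι]

theorem til_offD_none {D : Finset ι} {e : α → Option ι} {i : α} (h : e i = none) :
    offD D e i = none := by
  simp only [offD, h]

theorem til_offD_mem {D : Finset ι} {e : α → Option ι} {i : α} {h : ι} (he : e i = some h)
    (hD : h ∈ D) : offD D e i = none := by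
  simp only [offD, he, if_pos hD]

theorem til_offD_not {D : Finset ι} {e : α → Option ι} {i : α} {h : ι} (he : e i = some h)
    (hD : h ∉ D) : offD D e i = some h := by
  simp only [offD, he, if_neg hD]

theorem til_offD_avd (D : Finset ι) (e : α → Option ι) : Avd D (offD D e) := by
  intro i h hD
  rcases he : e i with _ | h'
  · rw [til_offD_none he]; exact fun h => by simp at h
  · by_cases h' ∈ D
    · rw [til_offD_mem he (by assumption)]; exact fun h => by simp at h
    · rename_i hn
      rw [til_offD_not he hn]
      intro hh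
      rw [Option.some.injEq] at hh
      exact hn (hh ▸ hD)

theorem til_over_iff (D : Finset ι) (a e : α → Option ι) (ha : Avd D a) :
    (∀ i, (a i ≠ none → e i = a i) ∧ (a i = none → ∀ h, e i = some h → h ∈ D)) ↔
      offD D e = a := by
  constructor
  · intro H
    funext i
    rcases hai : a i with _ | h
    · rcases he : e i with _ | h'
      · exact til_offD_none he
      · exact til_offD_mem he ((H i).2 hai h' he)
    · have h1 := (H i).1 (by rw [hai]; simp)
      rw [hai] at h1
      apply til_offD_not h1
      intro hD
      exact ha i h hD hai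
  · rintro rfl i
    rcases he : e i with _ | h
    · rw [til_offD_none he]
      simp
    · by_cases hD : h ∈ D
      · rw [til_offD_mem he hD]
        refine ⟨fun h => absurd rfl h, fun _ h' hh => ?_⟩
        rw [Option.some.injEq] at hh
        exact hh ▸ hD
      · rw [til_offD_not he hD]
        simp

open Classical in
/-- weight of an extension -/
noncomputable def til_w (pr : α → ℕ) (a e : α → Option ι) : ℝ :=
  ∏ i, if a i = none ∧ e i ≠ none then 1 / (pr i : ℝ) else 1

theorem til_w_nonneg (pr : α → ℕ) (a e : α → Option ι) : 0 ≤ til_w pr a e := by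
  classical
  unfold til_w
  apply prod_nonneg
  intro i _
  split_ifs
  · positivity
  · norm_num

open Classical in
theorem til_VV (pr : α → ℕ) (D : Finset ι) (Y : (α → Option ι) → ℝ) (a : α → Option ι)
    (ha : Avd D a) :
    VV pr D Y a = ∑ e ∈ univ.filter (fun e => offD D e = a), til_w pr a e * Y e := by
  unfold VV
  rw [sum_filter]
  refine sum_congr rfl fun e _ => ?_
  by_cases h : offD D e = a
  · rw [if_pos h, if_pos ((til_over_iff D a e ha).2 h)]
    rfl
  · rw [if_neg h, if_neg (fun h' => h ((til_over_iff D a e ha).1 h'))]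

theorem til_szA_cast (pr : α → ℕ) (c : α → Option ι) :
    (szA pr c : ℝ) = ∏ i, if c i = none then 1 else (pr i : ℝ) := by
  unfold szA
  push_cast
  refine prod_congr rfl fun i _ => ?_
  split_ifs <;> simp

open Classical in
theorem til_HH (pr : α → ℕ) (D : Finset ι) (R' : ℝ) (a : α → Option ι) (ha : Avd D a) :
    HH pr D R' a = ∑ e ∈ univ.filter (fun e => offD D e = a),
      if ∀ h ∈ D, (prt pr e h : ℝ) ≤ R' then til_w pr a e else 0 := by
  unfold HH
  simp_rw [ite_and]
  rw [← sum_filter]
  refine sum_bij' (fun c _ i => if a i = none then c i else a i)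
    (fun e _ i => if a i = none then e i else none) ?_ ?_ ?_ ?_ ?_
  · intro c hc
    rw [mem_filter] at hc ⊢
    refine ⟨mem_univ _, ?_⟩
    rw [← til_over_iff D a _ ha]
    intro i
    refine ⟨fun h => by simp only [if_neg h], fun h h' hh => ?_⟩
    simp only [if_pos h] at hh
    obtain ⟨_, h'', hD, h3⟩ := hc.2 i (by rw [hh]; simp)
    rw [hh, Option.some.injEq] at h3
    exact h3 ▸ hD
  · intro e he
    rw [mem_filter, ← til_over_iff D a _ ha] at he
    rw [mem_filter]
    refine ⟨mem_univ _, ?_⟩
    intro i hi
    by_cases hai : a i = none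
    · simp only [if_pos hai] at hi ⊢
      refine ⟨hai, ?_⟩
      rcases hei : e i with _ | h
      · exact absurd hei hi
      · exact ⟨h, (he.2 i).2 hai h hei, rfl⟩
    · simp only [if_neg hai] at hi
      exact absurd rfl hi
  · intro c hc
    rw [mem_filter] at hc
    funext i
    by_cases hai : a i = none
    · simp only [if_pos hai]
    · simp only [if_neg hai]
      by_contra hne
      exact hai (hc.2 i (fun h => hne h.symm)).1
  · intro e he
    rw [mem_filter, ← til_over_iff D a _ ha] at he
    funext i
    by_cases hai : a i = none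
    · simp only [if_pos hai]
    · simp only [if_neg hai]
      exact ((he.2 i).1 hai).symm
  · intro c hc
    rw [mem_filter] at hc
    have hprt : ∀ h ∈ D, prt pr (fun i => if a i = none then c i else a i) h = prt pr c h := by
      intro h hD
      unfold prt
      refine prod_congr rfl fun i _ => ?_
      by_cases hai : a i = none
      · simp only [if_pos hai]
      · simp only [if_neg hai]
        have h1 : a i ≠ some h := ha i h hD
        have h2 : c i ≠ some h := by
          intro h3
          exact hai (hc.2 i (by rw [h3]; simp)).1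
        rw [if_neg h1, if_neg h2]
    have hw : til_w pr a (fun i => if a i = none then c i else a i) = 1 / (szA pr c : ℝ) := by
      rw [til_szA_cast, one_div, ← prod_inv_distrib]
      unfold til_w
      refine prod_congr rfl fun i _ => ?_
      by_cases hci : c i = none
      · rw [if_pos hci, if_neg, inv_one]
        rintro ⟨h1, h2⟩
        simp only [if_pos h1] at h2
        exact h2 hci
      · have h1 := (hc.2 i hci).1
        rw [if_neg hci, if_pos, one_div]
        refine ⟨h1, ?_⟩
        simp only [if_pos h1]
        exact hci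
    rw [hw]
    congr 1
    apply propext
    constructor
    · intro H h hD
      rw [hprt h hD]; exact H h hD
    · intro H h hD
      have := H h hD
      rw [hprt h hD] at this; exact this

theorem til_HH_ge (pr : α → ℕ) (D : Finset ι) (R' : ℝ) (a : α → Option ι) (hR : 1 ≤ R') :
    1 ≤ HH pr D R' a := by
  classical
  unfold HH
  have h0 : ∀ c ∈ (univ : Finset (α → Option ι)), (0 : ℝ) ≤
      if (∀ i, c i ≠ none → a i = none ∧ ∃ h ∈ D, c i = some h) ∧
    (∀ h ∈ D, (prt pr c h : ℝ) ≤ R') then 1 / (szA pr c : ℝ) else 0 := by
    intro c _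
    split_ifs
    · positivity
    · exact le_rfl
  refine le_trans ?_ (single_le_sum h0 (mem_univ (fun _ => none)))
  rw [if_pos]
  · simp [szA]
  · refine ⟨fun i h => absurd rfl h, fun h _ => ?_⟩
    simpa [prt] using hR

open Classical in
theorem til_VV_Ytil (pr : α → ℕ) (D : Finset ι) (R' : ℝ) (Y : (α → Option ι) → ℝ)
    (a : α → Option ι) (hR : 1 ≤ R') (ha : Avd D a) :
    VV pr D (Ytil pr D R' Y) a = VV pr D Y a := by
  have hH := til_HH_ge pr D R' a hR
  have hH0 : HH pr D R' a ≠ 0 := by positivity
  rw [til_VV pr D _ a ha]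
  have : ∀ e ∈ univ.filter (fun e => offD D e = a), til_w pr a e * Ytil pr D R' Y e =
      (if ∀ h ∈ D, (prt pr e h : ℝ) ≤ R' then til_w pr a e else 0) *
        (VV pr D Y a / HH pr D R' a) := by
    intro e he
    rw [mem_filter] at he
    unfold Ytil
    rw [he.2]
    split_ifs <;> simp
  rw [sum_congr rfl this, ← sum_mul, ← til_HH pr D R' a ha]
  field_simp

open Classical in
theorem til_sum (D : Finset ι) (F : (α → Option ι) → ℝ) :
    ∑ e, F e = ∑ a ∈ univ.filter (fun a : α → Option ι => Avd D a),
      ∑ e ∈ univ.filter (fun e => offD D e = a), F e := by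
  rw [sum_fiberwise_of_maps_to]
  intro e _
  rw [mem_filter]
  exact ⟨mem_univ _, til_offD_avd D e⟩

theorem til_TT (p : ℕ) (D : Finset ι) (b a e : Option ι) (hb : ∀ h ∈ D, b ≠ some h)
    (h1 : a ≠ none → e = a) (h2 : a = none → ∀ h, e = some h → h ∈ D) :
    TT p b e = TT p b a * (if a = none ∧ e ≠ none then 1 / (p : ℝ) else 1) := by
  rcases a with _ | h
  · rcases e with _ | h'
    · simp
    · have hD := h2 rfl h' rfl
      rcases b with _ | h''
      · simp [TT]
      · have : h'' ≠ h' := fun hh => hb h' hD (by rw [hh])
        simp [TT, this]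
  · have := h1 (by simp)
    rw [this]
    simp

open Classical in
theorem til_lam (pr : α → ℕ) (D : Finset ι) (Y : (α → Option ι) → ℝ) (b : α → Option ι)
    (hb : Avd D b) :
    lam pr Y b = ∑ a ∈ univ.filter (fun a : α → Option ι => Avd D a),
      (∏ i, TT (pr i) (b i) (a i)) * VV pr D Y a := by
  unfold lam
  rw [til_sum D]
  refine sum_congr rfl fun a ha => ?_
  rw [mem_filter] at ha
  rw [til_VV pr D Y a ha.2, mul_sum]
  refine sum_congr rfl fun e he => ?_
  rw [mem_filter, ← til_over_iff D a e ha.2] at he
  rw [← mul_assoc]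
  congr 1
  unfold til_w
  rw [← prod_mul_distrib]
  refine prod_congr rfl fun i _ => ?_
  rw [til_TT (pr i) D (b i) (a i) (e i) (hb i) (he.2 i).1 (he.2 i).2]

end Til

theorem til1 : StTil1 := by
  intro α ι _ _ _ _ pr D R' Y b _ hR hb
  classical
  rw [til_lam pr D _ b hb, til_lam pr D _ b hb]
  refine sum_congr rfl fun a ha => ?_
  rw [mem_filter] at ha
  rw [til_VV_Ytil pr D R' Y a hR ha.2]

end Pool.Agent.Helper90.MT
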