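import Pool.Agent.Helper90.MT.StA

/-!
MT module A0 (helper3): the principal character away from `s = 1`.
-/

namespace Pool.Agent.Helper90.MT

open Finset Complex

namespace A0

/-- derivative bound for `u ↦ u ^ (-s)` on `[n, n+1]` -/
theorem cpow_sub_le {n : ℕ} (hn : 1 ≤ n) {s : ℂ} (h1 : 1 < s.re) {u : ℝ} (hu : (n : ℝ) ≤ u)
    (hu1 : u ≤ n + 1) :
    ‖((u : ℂ) ^ (-s) - (n : ℂ) ^ (-s))‖ ≤ ‖s‖ * (1 / (n : ℝ) ^ 2) := by
  have hn0 : (0 : ℝ) < n := by exact_mod_cast hn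
  have hder : ∀ x ∈ Set.Icc (n : ℝ) (n + 1), HasDerivWithinAt (fun x : ℝ => ((x : ℂ) ^ (-s)))
      ((-s) * (x : ℂ) ^ (-s - 1)) (Set.Icc (n : ℝ) (n + 1)) x := by
    intro x hx
    have hx0 : (0 : ℝ) < x := lt_of_lt_of_le hn0 hx.1
    have hs0 : -s ≠ 0 := by
      intro h
      have : s.re = 0 := by rw [neg_eq_zero] at h; rw [h]; simp
      linarith
    have h2 := hasDerivAt_ofReal_cpow_const hx0.ne' (r := -s) hs0
    exact h2.hasDerivWithinAt
  have hbound : ∀ x ∈ Set.Icc (n : ℝ) (n + 1), ‖(-s) * (x : ℂ) ^ (-s - 1)‖ ≤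
      ‖s‖ * (1 / (n : ℝ) ^ 2) := by
    intro x hx
    have hx0 : (0 : ℝ) < x := lt_of_lt_of_le hn0 hx.1
    rw [norm_mul, norm_neg, Complex.norm_cpow_eq_rpow_re_of_pos hx0]
    refine mul_le_mul_of_nonneg_left ?_ (norm_nonneg s)
    have hre : (-s - 1).re = -(s.re + 1) := by simp; ring
    rw [hre, Real.rpow_neg hx0.le, ← one_div]
    have hx1 : (1 : ℝ) ≤ x := le_trans (by exact_mod_cast hn) hx.1
    have : (n : ℝ) ^ 2 ≤ x ^ (s.re + 1) := by
      calc (n : ℝ) ^ 2 ≤ x ^ 2 := by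
            exact pow_le_pow_left₀ hn0.le hx.1 2
        _ = x ^ ((2 : ℕ) : ℝ) := (Real.rpow_natCast x 2).symm
        _ ≤ x ^ (s.re + 1) := Real.rpow_le_rpow_of_exponent_le hx1 (by push_cast; linarith)
    exact one_div_le_one_div_of_le (by positivity) this
  have hmem : (n : ℝ) ∈ Set.Icc (n : ℝ) (n + 1) := ⟨le_rfl, by linarith⟩
  have := (convex_Icc (n : ℝ) (n + 1)).norm_image_sub_le_of_norm_hasDerivWithin_le hder hbound hmem
    (⟨hu, hu1⟩ : u ∈ Set.Icc (n : ℝ) (n + 1))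
  refine le_trans (by simpa using this) ?_
  have hK : 0 ≤ ‖s‖ * (1 / (n : ℝ) ^ 2) := by positivity
  have hnn : ‖u - (n : ℝ)‖ ≤ 1 := by
    rw [Real.norm_eq_abs, abs_of_nonneg (by linarith)]; linarith
  have := mul_le_mul_of_nonneg_left hnn hK
  simpa using this

/-- comparison of a term with the primitive -/
theorem term_le {n : ℕ} (hn : 1 ≤ n) {s : ℂ} (h1 : 1 < s.re) :
    ‖(n : ℂ) ^ (-s) - (((n + 1 : ℕ) : ℂ) ^ (1 - s) - (n : ℂ) ^ (1 - s)) / (1 - s)‖ ≤
      ‖s‖ * (1 / (n : ℝ) ^ 2) := by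
  have hn0 : (0 : ℝ) < n := by exact_mod_cast hn
  have hs1 : (1 - s) ≠ 0 := by
    intro h
    have : (1 - s).re = 0 := by rw [h]; simp
    simp at this
    linarith
  have hder : ∀ x ∈ Set.Icc (n : ℝ) (n + 1), HasDerivWithinAt
      (fun x : ℝ => ((x : ℂ) ^ (1 - s)) / (1 - s) - (x : ℂ) * (n : ℂ) ^ (-s))
      ((x : ℂ) ^ (-s) - (n : ℂ) ^ (-s)) (Set.Icc (n : ℝ) (n + 1)) x := by
    intro x hx
    have hx0 : (0 : ℝ) < x := lt_of_lt_of_le hn0 hx.1
    have h := (hasDerivAt_ofReal_cpow_const hx0.ne' (r := 1 - s) hs1).div_const (1 - s)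
    rw [show (1 - s - 1 : ℂ) = -s by ring, mul_div_cancel_left₀ _ hs1] at h
    have h4 : HasDerivAt (fun x : ℝ => (x : ℂ) * (n : ℂ) ^ (-s)) (1 * (n : ℂ) ^ (-s)) x :=
      (Complex.ofRealCLM.hasDerivAt (x := x)).mul_const _
    rw [one_mul] at h4
    exact (h.sub h4).hasDerivWithinAt
  have hmem : (n : ℝ) ∈ Set.Icc (n : ℝ) (n + 1) := ⟨le_rfl, by linarith⟩
  have hmem1 : ((n : ℝ) + 1) ∈ Set.Icc (n : ℝ) (n + 1) := ⟨by linarith, le_rfl⟩
  have := (convex_Icc (n : ℝ) (n + 1)).norm_image_sub_le_of_norm_hasDerivWithin_le hder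
    (fun x hx => cpow_sub_le hn h1 hx.1 hx.2) hmem hmem1
  have e : ((((n : ℝ) + 1 : ℝ) : ℂ) ^ (1 - s)) / (1 - s) - (((n : ℝ) + 1 : ℝ) : ℂ) * (n : ℂ) ^ (-s)
      - ((((n : ℝ) : ℂ) ^ (1 - s)) / (1 - s) - ((n : ℝ) : ℂ) * (n : ℂ) ^ (-s)) =
      -((n : ℂ) ^ (-s) - (((n + 1 : ℕ) : ℂ) ^ (1 - s) - (n : ℂ) ^ (1 - s)) / (1 - s)) := by
    push_cast
    field_simp
    ring
  rw [e, norm_neg] at this
  refine le_trans this ?_
  simp

theorem sum_inv_sq_le {N : ℕ} (hN : 1 ≤ N) (M : ℕ) :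
    ∑ n ∈ Ico N M, 1 / (n : ℝ) ^ 2 ≤ 2 / (N : ℝ) := by
  have hN0 : (0 : ℝ) < N := by exact_mod_cast hN
  rcases le_or_gt M N with h | h
  · rw [Ico_eq_empty_of_le h]; simp; positivity
  have key : ∀ M : ℕ, N ≤ M → ∑ n ∈ Ico N M, 1 / (n : ℝ) ^ 2 ≤ 2 / (N : ℝ) - 2 / (M : ℝ) := by
    intro M hM
    induction M, hM using Nat.le_induction with
    | base => simp
    | succ M hM ih =>
      rw [Finset.sum_Ico_succ_top hM]
      have hM0 : (0 : ℝ) < M := lt_of_lt_of_le hN0 (by exact_mod_cast hM)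
      have hM1 : (1 : ℝ) ≤ M := by exact_mod_cast le_trans hN hM
      have : 1 / (M : ℝ) ^ 2 ≤ 2 / M - 2 / ((M + 1 : ℕ) : ℝ) := by
        push_cast
        rw [div_sub_div _ _ hM0.ne' (by positivity), div_le_div_iff₀ (by positivity) (by positivity)]
        nlinarith
      linarith
  have h2 := key M h.le
  have : 0 ≤ 2 / (M : ℝ) := by positivity
  linarith

/-- the tail of the zeta sum -/
theorem zeta_tail {N M : ℕ} (hN : 1 ≤ N) (hM : N ≤ M) {s : ℂ} (h1 : 1 < s.re) (ht : s.im ≠ 0) :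
    ‖∑ n ∈ Ico N M, (n : ℂ) ^ (-s)‖ ≤ 2 / |s.im| + 2 * ‖s‖ / N := by
  have hN0 : (0 : ℝ) < N := by exact_mod_cast hN
  have hs1 : |s.im| ≤ ‖1 - s‖ := by
    have := Complex.abs_im_le_norm (1 - s)
    simpa using this
  have hpos : 0 < |s.im| := abs_pos.mpr ht
  have key : ∑ n ∈ Ico N M, (n : ℂ) ^ (-s) =
      ∑ n ∈ Ico N M, ((n : ℂ) ^ (-s) - (((n + 1 : ℕ) : ℂ) ^ (1 - s) - (n : ℂ) ^ (1 - s)) / (1 - s)) +
      ((M : ℂ) ^ (1 - s) - (N : ℂ) ^ (1 - s)) / (1 - s) := by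
    rw [Finset.sum_sub_distrib, ← Finset.sum_div, Finset.sum_Ico_sub (fun n : ℕ => (n : ℂ) ^ (1 - s)) hM]
    ring
  rw [key]
  refine le_trans (norm_add_le _ _) ?_
  have hA : ‖∑ n ∈ Ico N M, ((n : ℂ) ^ (-s) - (((n + 1 : ℕ) : ℂ) ^ (1 - s) - (n : ℂ) ^ (1 - s)) /
      (1 - s))‖ ≤ 2 * ‖s‖ / N := by
    refine le_trans (norm_sum_le _ _) ?_
    refine le_trans (Finset.sum_le_sum (fun n hn => term_le (le_trans hN (mem_Ico.1 hn).1) h1)) ?_
    rw [← Finset.mul_sum]
    have := mul_le_mul_of_nonneg_left (sum_inv_sq_le hN M) (norm_nonneg s)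
    refine le_trans this (le_of_eq ?_)
    ring
  have hle1 : ∀ k : ℕ, 1 ≤ k → ‖(k : ℂ) ^ (1 - s)‖ ≤ 1 := by
    intro k hk
    rw [Complex.norm_natCast_cpow_of_pos (by omega)]
    apply Real.rpow_le_one_of_one_le_of_nonpos (by exact_mod_cast hk)
    simp; linarith
  have hB : ‖((M : ℂ) ^ (1 - s) - (N : ℂ) ^ (1 - s)) / (1 - s)‖ ≤ 2 / |s.im| := by
    rw [norm_div]
    have h2 : ‖(M : ℂ) ^ (1 - s) - (N : ℂ) ^ (1 - s)‖ ≤ 2 := by
      refine le_trans (norm_sub_le _ _) ?_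
      have := hle1 M (le_trans hN hM)
      have := hle1 N hN
      linarith
    exact div_le_div₀ (by norm_num) h2 hpos hs1
  linarith

/-- summation by parts for bounded partial sums -/
theorem parts_le {a : ℕ → ℂ} {B : ℝ} (hB : 0 ≤ B) {N M : ℕ} (hN : 1 ≤ N) (hM : N ≤ M)
    (ha : ∀ k, ‖∑ n ∈ range k, a n‖ ≤ B) {s : ℂ} (h1 : 1 < s.re) :
    ‖∑ n ∈ Ico N M, a n * (n : ℂ) ^ (-s)‖ ≤ 4 * B / N + 4 * B * ‖s‖ / N := by
  have hN0 : (0 : ℝ) < N := by exact_mod_cast hN
  have hS : ∀ k, N ≤ k → ‖∑ n ∈ Ico N k, a n‖ ≤ 2 * B := by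
    intro k hk
    rw [Finset.sum_Ico_eq_sub _ hk]
    refine le_trans (norm_sub_le _ _) ?_
    have := ha k
    have := ha N
    linarith
  have key : ∀ M, N ≤ M → ∑ n ∈ Ico N M, a n * (n : ℂ) ^ (-s) =
      (∑ n ∈ Ico N M, a n) * (M : ℂ) ^ (-s) -
      ∑ n ∈ Ico N M, (∑ k ∈ Ico N (n + 1), a k) * (((n + 1 : ℕ) : ℂ) ^ (-s) - (n : ℂ) ^ (-s)) := by
    intro M hM
    induction M, hM using Nat.le_induction with
    | base => simp
    | succ M hM ih =>
      rw [Finset.sum_Ico_succ_top hM, Finset.sum_Ico_succ_top hM, Finset.sum_Ico_succ_top hM, ih,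
        Finset.sum_Ico_succ_top hM]
      ring
  rw [key M hM]
  refine le_trans (norm_sub_le _ _) ?_
  have hA : ‖(∑ n ∈ Ico N M, a n) * (M : ℂ) ^ (-s)‖ ≤ 4 * B / N := by
    rw [norm_mul]
    have h2 : ‖(M : ℂ) ^ (-s)‖ ≤ 1 / N := by
      rw [Complex.norm_natCast_cpow_of_pos (by omega)]
      have hM0 : (0 : ℝ) < M := lt_of_lt_of_le hN0 (by exact_mod_cast hM)
      have hM1 : (1 : ℝ) ≤ M := by exact_mod_cast le_trans hN hM
      rw [Complex.neg_re, Real.rpow_neg hM0.le, ← one_div]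
      apply one_div_le_one_div_of_le hN0
      calc (N : ℝ) ≤ M := by exact_mod_cast hM
        _ = (M : ℝ) ^ (1 : ℝ) := (Real.rpow_one _).symm
        _ ≤ (M : ℝ) ^ s.re := Real.rpow_le_rpow_of_exponent_le hM1 h1.le
    calc ‖∑ n ∈ Ico N M, a n‖ * ‖(M : ℂ) ^ (-s)‖ ≤ (2 * B) * (1 / N) :=
          mul_le_mul (hS M hM) h2 (norm_nonneg _) (by positivity)
      _ = 2 * B / N := by ring
      _ ≤ 4 * B / N := by gcongr; linarith
  have hC : ‖∑ n ∈ Ico N M, (∑ k ∈ Ico N (n + 1), a k) *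
      (((n + 1 : ℕ) : ℂ) ^ (-s) - (n : ℂ) ^ (-s))‖ ≤ 4 * B * ‖s‖ / N := by
    refine le_trans (norm_sum_le _ _) ?_
    have : ∀ n ∈ Ico N M, ‖(∑ k ∈ Ico N (n + 1), a k) *
        (((n + 1 : ℕ) : ℂ) ^ (-s) - (n : ℂ) ^ (-s))‖ ≤ 2 * B * ‖s‖ * (1 / (n : ℝ) ^ 2) := by
      intro n hn
      have hn' := mem_Ico.1 hn
      rw [norm_mul]
      have h2 := cpow_sub_le (le_trans hN hn'.1) h1 (u := ((n + 1 : ℕ) : ℝ)) (by push_cast; linarith)
        (by push_cast; linarith)
      have h3 : ‖(((n + 1 : ℕ) : ℂ) ^ (-s) - (n : ℂ) ^ (-s))‖ ≤ ‖s‖ * (1 / (n : ℝ) ^ 2) := by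
        simpa using h2
      calc _ ≤ (2 * B) * (‖s‖ * (1 / (n : ℝ) ^ 2)) :=
            mul_le_mul (hS _ (by omega)) h3 (norm_nonneg _) (by positivity)
        _ = _ := by ring
    refine le_trans (Finset.sum_le_sum this) ?_
    rw [← Finset.mul_sum]
    have := mul_le_mul_of_nonneg_left (sum_inv_sq_le hN M) (show 0 ≤ 2 * B * ‖s‖ by positivity)
    refine le_trans this (le_of_eq ?_)
    ring
  linarith

open Classical in
/-- the coprimality indicator minus its mean -/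
noncomputable def cf (q n : ℕ) : ℂ := (if n.Coprime q then 1 else 0) - (q.totient : ℂ) / q

theorem cf_norm_le (q n : ℕ) (hq : 0 < q) : ‖cf q n‖ ≤ 1 := by
  unfold cf
  have h0 : (0 : ℝ) < q := by exact_mod_cast hq
  have h1 : (q.totient : ℝ) / q ≤ 1 := by
    rw [div_le_one h0]; exact_mod_cast Nat.totient_le q
  have h2 : (0 : ℝ) ≤ (q.totient : ℝ) / q := by positivity
  split_ifs
  · rw [show (1 : ℂ) - (q.totient : ℂ) / q = ((1 - (q.totient : ℝ) / q : ℝ) : ℂ) by push_cast; ring,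
      Complex.norm_real, Real.norm_eq_abs, abs_of_nonneg (by linarith)]
    linarith
  · rw [show (0 : ℂ) - (q.totient : ℂ) / q = ((-((q.totient : ℝ) / q) : ℝ) : ℂ) by push_cast; ring,
      Complex.norm_real, Real.norm_eq_abs, abs_neg, abs_of_nonneg h2]
    exact h1

theorem cf_period (q : ℕ) (hq : 0 < q) (k : ℕ) : ∑ n ∈ Ico k (k + q), cf q n = 0 := by
  unfold cf
  rw [Finset.sum_sub_distrib, Finset.sum_ite, Finset.sum_const_zero, add_zero, Finset.sum_const,
    Finset.sum_const, Nat.card_Ico]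
  have h := Nat.filter_coprime_Ico_eq_totient q k
  have h2 : ((Ico k (k + q)).filter (fun n => n.Coprime q)).card = q.totient := by
    rw [← h]
    congr 1
    apply Finset.filter_congr
    intro x _
    exact Nat.coprime_comm
  rw [h2]
  have h0 : (q : ℂ) ≠ 0 := by exact_mod_cast hq.ne'
  simp
  field_simp
  ring

theorem cf_sum_le (q : ℕ) (hq : 0 < q) (k : ℕ) : ‖∑ n ∈ range k, cf q n‖ ≤ q := by
  have hper : Function.Periodic (fun k => ∑ n ∈ range k, cf q n) q := by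
    intro k
    show ∑ n ∈ range (k + q), cf q n = ∑ n ∈ range k, cf q n
    rw [← Finset.sum_range_add_sum_Ico _ (Nat.le_add_right k q), cf_period q hq, add_zero]
  have : ∑ n ∈ range (k % q), cf q n = ∑ n ∈ range k, cf q n := hper.map_mod_nat k
  rw [← this]
  refine le_trans (norm_sum_le _ _) ?_
  refine le_trans (Finset.sum_le_sum (fun n _ => cf_norm_le q n hq)) ?_
  simp
  exact (Nat.mod_lt k hq).le

end A0

open A0 in
theorem a0 : StA0 := by
  refine ⟨30, by norm_num, ?_⟩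
  intro q hq0 σ t hσ hσ2 ht
  have hq : 0 < q := Nat.pos_of_ne_zero hq0.out
  set s : ℂ := σ + t * I with hs
  have hre : s.re = σ := by simp [hs]
  have him : s.im = t := by simp [hs]
  have h1 : 1 < s.re := by rw [hre]; exact hσ
  have hnorm : ‖s‖ ≤ 2 + |t| := by
    refine le_trans (Complex.norm_le_abs_re_add_abs_im s) ?_
    rw [hre, him, abs_of_pos (by linarith)]
    linarith
  set Y : ℝ := q * (|t| + 3) with hY
  have hq1 : (1 : ℝ) ≤ q := by exact_mod_cast hq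
  have habs : 0 ≤ |t| := abs_nonneg t
  have hY3 : 3 ≤ Y := by rw [hY]; nlinarith
  set N : ℕ := ⌈Y⌉₊ with hN
  have hNY : Y ≤ N := Nat.le_ceil Y
  have hNY2 : (N : ℝ) ≤ Y + 1 := (Nat.ceil_lt_add_one (by linarith)).le
  have hN3 : 3 ≤ N := by
    have : (3 : ℝ) ≤ N := le_trans hY3 hNY
    exact_mod_cast this
  have hN1 : 1 ≤ N := by omega
  have hN0 : (0 : ℝ) < N := by exact_mod_cast hN1
  have hlog : 1 ≤ Real.log Y := by
    rw [Real.le_log_iff_exp_le (by linarith)]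
    have := Real.exp_one_lt_d9
    linarith
  have hcoef : ∀ n, Lk (1 : DirichletCharacter ℂ q) 0 n = if n.Coprime q then 1 else 0 := by
    intro n
    unfold Lk
    rw [pow_zero, mul_one]
    split_ifs with h
    · exact MulChar.one_apply ((ZMod.isUnit_iff_coprime n q).2 h)
    · apply MulChar.map_nonunit
      rw [ZMod.isUnit_iff_coprime]
      exact h
  have hterm : ∀ n, LSeries.term (Lk (1 : DirichletCharacter ℂ q) 0) s n =
      if n = 0 then 0 else (if n.Coprime q then 1 else 0) * (n : ℂ) ^ (-s) := by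
    intro n
    rw [LSeries.term_def]
    split_ifs with h h2
    · rfl
    · rw [hcoef, if_pos h2, Complex.cpow_neg, one_div, one_mul]
    · rw [hcoef, if_neg h2]; simp
  -- summability
  have hsum : LSeriesSummable (Lk (1 : DirichletCharacter ℂ q) 0) s := by
    apply LSeriesSummable_of_bounded_of_one_lt_re (m := 1) _ h1
    intro n _
    rw [hcoef]
    split_ifs <;> simp
  have htend := hsum.hasSum.tendsto_sum_nat
  -- bound for the partial sums
  have hmain : ∀ M, N ≤ M → ‖∑ n ∈ range M, LSeries.term (Lk (1 : DirichletCharacter ℂ q) 0) s n‖ ≤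
      30 * (Real.log Y + 1 / |t|) := by
    intro M hM
    rw [← Finset.sum_range_add_sum_Ico _ hM]
    refine le_trans (norm_add_le _ _) ?_
    -- head
    have hhead : ‖∑ n ∈ range N, LSeries.term (Lk (1 : DirichletCharacter ℂ q) 0) s n‖ ≤
        3 * Real.log Y := by
      refine le_trans (norm_sum_le _ _) ?_
      have h2 : ∀ n ∈ range N, ‖LSeries.term (Lk (1 : DirichletCharacter ℂ q) 0) s n‖ ≤
          (fun n : ℕ => ((n : ℝ))⁻¹) n := by
        intro n _
        rw [hterm]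
        split_ifs with h h2
        · simp [h]
        · rw [one_mul, Complex.norm_natCast_cpow_of_pos (Nat.pos_of_ne_zero h)]
          have hn0 : (0 : ℝ) < n := by exact_mod_cast Nat.pos_of_ne_zero h
          have hn1 : (1 : ℝ) ≤ n := by exact_mod_cast Nat.one_le_iff_ne_zero.2 h
          rw [Complex.neg_re, Real.rpow_neg hn0.le]
          apply inv_anti₀ hn0
          calc (n : ℝ) = (n : ℝ) ^ (1 : ℝ) := (Real.rpow_one _).symm
            _ ≤ (n : ℝ) ^ s.re := Real.rpow_le_rpow_of_exponent_le hn1 h1.le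
        · simp
      refine le_trans (Finset.sum_le_sum h2) ?_
      have h3 : ∑ n ∈ range N, (fun n : ℕ => ((n : ℝ))⁻¹) n ≤ 1 + Real.log N := by
        have hh := harmonic_le_one_add_log N
        refine le_trans ?_ hh
        have gen : ∀ k : ℕ, ∑ n ∈ range k, ((n : ℝ))⁻¹ ≤ ((harmonic k : ℚ) : ℝ) := by
          intro k
          induction k with
          | zero => simp
          | succ k ih =>
            rw [Finset.sum_range_succ, harmonic_succ]
            push_cast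
            have : ((k : ℝ))⁻¹ ≤ ((harmonic k : ℚ) : ℝ) - ∑ n ∈ range k, ((n : ℝ))⁻¹ + ((k : ℝ) + 1)⁻¹ := by
              have e : ∀ k : ℕ, ((harmonic k : ℚ) : ℝ) - ∑ n ∈ range k, ((n : ℝ))⁻¹ = ((k : ℝ))⁻¹ := by
                intro k
                induction k with
                | zero => simp
                | succ k ih =>
                  rw [Finset.sum_range_succ, harmonic_succ]
                  push_cast
                  linarith
              rw [e k]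
              have : (0 : ℝ) ≤ ((k : ℝ) + 1)⁻¹ := by positivity
              linarith
            linarith
        exact gen N
      refine le_trans h3 ?_
      have h4 : Real.log N ≤ Real.log Y + 1 := by
        have : (N : ℝ) ≤ Y * 2 := by linarith
        have h5 := Real.log_le_log hN0 this
        rw [Real.log_mul (by linarith) (by norm_num)] at h5
        have := Real.log_two_lt_d9
        linarith
      linarith
    -- tail
    have htail : ‖∑ n ∈ Ico N M, LSeries.term (Lk (1 : DirichletCharacter ℂ q) 0) s n‖ ≤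
        24 + 2 / |t| := by
      have hsplit : ∑ n ∈ Ico N M, LSeries.term (Lk (1 : DirichletCharacter ℂ q) 0) s n =
          ∑ n ∈ Ico N M, cf q n * (n : ℂ) ^ (-s) +
            ((q.totient : ℂ) / q) * ∑ n ∈ Ico N M, (n : ℂ) ^ (-s) := by
        rw [Finset.mul_sum, ← Finset.sum_add_distrib]
        apply Finset.sum_congr rfl
        intro n hn
        have hn0 : n ≠ 0 := by have := (mem_Ico.1 hn).1; omega
        rw [hterm, if_neg hn0]
        unfold cf
        ring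
      rw [hsplit]
      refine le_trans (norm_add_le _ _) ?_
      have hA := parts_le (a := cf q) (B := q) (by positivity) hN1 hM (cf_sum_le q hq) h1
      have hB := zeta_tail hN1 hM h1 (by rw [him]; exact ht)
      rw [him] at hB
      have hr : ‖((q.totient : ℂ) / q)‖ ≤ 1 := by
        rw [norm_div, Complex.norm_natCast, Complex.norm_natCast, div_le_one (by linarith)]
        exact_mod_cast Nat.totient_le q
      have hB2 : ‖((q.totient : ℂ) / q) * ∑ n ∈ Ico N M, (n : ℂ) ^ (-s)‖ ≤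
          2 / |t| + 2 * ‖s‖ / N := by
        rw [norm_mul]
        calc _ ≤ 1 * ‖∑ n ∈ Ico N M, (n : ℂ) ^ (-s)‖ :=
              mul_le_mul_of_nonneg_right hr (norm_nonneg _)
          _ ≤ _ := by rw [one_mul]; exact hB
      have hsN : ‖s‖ * q ≤ N := by
        calc ‖s‖ * q ≤ (2 + |t|) * q := by gcongr
          _ ≤ Y := by rw [hY]; nlinarith
          _ ≤ N := hNY
      have e1 : 4 * (q : ℝ) / N ≤ 4 := by
        rw [div_le_iff₀ hN0]
        have : (q : ℝ) ≤ Y := by rw [hY]; nlinarith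
        linarith
      have e2 : 4 * (q : ℝ) * ‖s‖ / N ≤ 4 := by
        rw [div_le_iff₀ hN0]
        nlinarith
      have e3 : 2 * ‖s‖ / N ≤ 2 := by
        rw [div_le_iff₀ hN0]
        have : ‖s‖ ≤ ‖s‖ * q := le_mul_of_one_le_right (norm_nonneg s) hq1
        nlinarith
      linarith
    have hpos : 0 < 1 / |t| := one_div_pos.2 (abs_pos.2 ht)
    have e4 : 2 / |t| = 2 * (1 / |t|) := by ring
    rw [e4] at htail
    nlinarith
  have := le_of_tendsto htend.norm (Filter.eventually_atTop.2 ⟨N, hmain⟩)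
  exact this

end Pool.Agent.Helper90.MT
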