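import Pool.Agent.Helper90.MT.A0

/-!
Project MT, part A, module A1: upper bounds for `L(s, χ)` and its derivatives.
-/

namespace Pool.Agent.Helper90.MT

open Finset Complex

namespace A1

lemma logpow (j : ℕ) {Y u : ℝ} (hY0 : 0 < Y) (hY : 1 ≤ Real.log Y) (hYu : Y ≤ u) :
    Real.log u ^ j ≤ (2 * (j : ℝ) + 3) ^ j * Real.log Y ^ j * √(u / Y) := by
  set x : ℝ := u / Y with hx
  have hx1 : 1 ≤ x := by rw [hx, le_div_iff₀ hY0]; linarith
  have hx0 : 0 < x := by linarith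
  have hu : u = Y * x := by rw [hx]; field_simp
  have hlx : 0 ≤ Real.log x := Real.log_nonneg hx1
  have hlu : Real.log u = Real.log Y + Real.log x := by
    rw [hu, Real.log_mul hY0.ne' hx0.ne']
  set ε : ℝ := 1 / (2 * ((j : ℝ) + 1)) with hε
  have hε0 : 0 < ε := by positivity
  have h1 := Real.log_le_rpow_div hx0.le hε0
  have h2 : (1 : ℝ) ≤ x ^ ε := Real.one_le_rpow hx1 hε0.le
  have h3 : x ^ ε / ε = 2 * ((j : ℝ) + 1) * x ^ ε := by
    rw [hε]; field_simp
  have h4 : 1 + Real.log x ≤ (2 * (j : ℝ) + 3) * x ^ ε := by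
    rw [h3] at h1
    linarith
  have h5 : Real.log u ≤ Real.log Y * ((2 * (j : ℝ) + 3) * x ^ ε) := by
    rw [hlu]
    calc Real.log Y + Real.log x ≤ Real.log Y * (1 + Real.log x) := by nlinarith
      _ ≤ _ := mul_le_mul_of_nonneg_left h4 (by linarith)
  have h6 : 0 ≤ Real.log u := by rw [hlu]; linarith
  calc Real.log u ^ j ≤ (Real.log Y * ((2 * (j : ℝ) + 3) * x ^ ε)) ^ j :=
        pow_le_pow_left₀ h6 h5 j
    _ = (2 * (j : ℝ) + 3) ^ j * Real.log Y ^ j * (x ^ ε) ^ j := by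
        rw [mul_pow, mul_pow]; ring
    _ ≤ (2 * (j : ℝ) + 3) ^ j * Real.log Y ^ j * √x := by
        apply mul_le_mul_of_nonneg_left _ (by positivity)
        rw [Real.sqrt_eq_rpow, ← Real.rpow_natCast, ← Real.rpow_mul hx0.le]
        apply Real.rpow_le_rpow_of_exponent_le hx1
        rw [hε, one_div, inv_mul_eq_div, div_le_iff₀ (by positivity)]
        linarith

lemma sum_le (N M : ℕ) (hN : 1 ≤ N) (hNM : N ≤ M) :
    ∑ n ∈ Ioc N M, 1 / ((n : ℝ) * √n) ≤ 2 / √(N : ℝ) - 2 / √(M : ℝ) := by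
  induction M, hNM using Nat.le_induction with
  | base => simp
  | succ M hM ih =>
    rw [Finset.sum_Ioc_succ_top (by omega)]
    have hM0 : (0 : ℝ) < M := by exact_mod_cast (by omega : 0 < M)
    set a := √(M : ℝ) with ha
    set b := √((M + 1 : ℕ) : ℝ) with hb
    have ha0 : 0 < a := Real.sqrt_pos.2 hM0
    have hb0 : 0 < b := Real.sqrt_pos.2 (by push_cast; linarith)
    have hab : a ≤ b := Real.sqrt_le_sqrt (by push_cast; linarith)
    have ha2 : a * a = M := Real.mul_self_sqrt hM0.le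
    have hb2 : b * b = ((M + 1 : ℕ) : ℝ) := Real.mul_self_sqrt (by positivity)
    have hb2' : b * b = a * a + 1 := by rw [hb2, ha2]; push_cast; ring
    rw [← hb2]
    have key : 1 / (b * b * b) ≤ 2 / a - 2 / b := by
      rw [div_sub_div _ _ ha0.ne' hb0.ne', div_le_div_iff₀ (by positivity) (by positivity)]
      have h1 : (b - a) * (b + a) = 1 := by nlinarith
      have h2 : 1 * (a * b) ≤ 2 * (b - a) * (b * b * b) := by
        have h3 : 0 ≤ b - a := by linarith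
        have h4 : 1 ≤ 2 * b * (b - a) := by nlinarith
        have h5 : a * b ≤ b * b := by nlinarith
        nlinarith [mul_le_mul h4 h5 (by positivity) (by positivity)]
      linarith
    linarith

/-- the smooth factor -/
noncomputable def f (j : ℕ) (s : ℂ) (n : ℕ) : ℂ := ((Real.log n ^ j : ℝ) : ℂ) * (n : ℂ) ^ (-s)

lemma norm_cpow {n : ℕ} (hn : 1 ≤ n) {s : ℂ} (hs : 1 < s.re) :
    ‖(n : ℂ) ^ (-s)‖ ≤ 1 / (n : ℝ) := by
  have hn0 : (0 : ℝ) < n := by exact_mod_cast hn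
  have hn1 : (1 : ℝ) ≤ n := by exact_mod_cast hn
  rw [Complex.norm_natCast_cpow_of_pos (by omega), Complex.neg_re, Real.rpow_neg hn0.le, one_div]
  apply inv_anti₀ hn0
  calc (n : ℝ) = (n : ℝ) ^ (1 : ℝ) := (Real.rpow_one _).symm
    _ ≤ _ := Real.rpow_le_rpow_of_exponent_le hn1 hs.le

lemma norm_f {j : ℕ} {n : ℕ} (hn : 1 ≤ n) {s : ℂ} (hs : 1 < s.re) :
    ‖f j s n‖ ≤ Real.log n ^ j / n := by
  unfold f
  rw [norm_mul, Complex.norm_real, Real.norm_of_nonneg (pow_nonneg (Real.log_natCast_nonneg n) j)]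
  calc Real.log n ^ j * ‖(n : ℂ) ^ (-s)‖ ≤ Real.log n ^ j * (1 / n) :=
        mul_le_mul_of_nonneg_left (norm_cpow hn hs) (pow_nonneg (Real.log_natCast_nonneg n) j)
    _ = _ := by ring

lemma pow_sub_le (j : ℕ) {a b : ℝ} (ha : 0 ≤ a) (hab : a ≤ b) (hb : 1 ≤ b) :
    b ^ j - a ^ j ≤ j * b ^ j * (b - a) := by
  induction j with
  | zero => simp
  | succ j ih =>
    have h0 : 0 ≤ b - a := by linarith
    have h1 : a ^ j ≤ b ^ j := pow_le_pow_left₀ ha hab j
    have h2 : 0 ≤ b ^ j := by positivity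
    have h3 : b ^ j ≤ b ^ j * b := by nlinarith
    have h4 : b ^ (j + 1) - a ^ (j + 1) = (b ^ j - a ^ j) * b + a ^ j * (b - a) := by ring
    have h5 : (b ^ j - a ^ j) * b ≤ j * b ^ j * (b - a) * b :=
      mul_le_mul_of_nonneg_right ih (by linarith)
    have h6 : a ^ j * (b - a) ≤ (b ^ j * b) * (b - a) :=
      mul_le_mul_of_nonneg_right (h1.trans h3) h0
    rw [h4]
    push_cast
    calc _ ≤ j * b ^ j * (b - a) * b + (b ^ j * b) * (b - a) := add_le_add h5 h6
      _ = _ := by ring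

lemma diff_f (j : ℕ) {n : ℕ} (hn : 3 ≤ n) {s : ℂ} (hs : 1 < s.re) :
    ‖f j s (n + 1) - f j s n‖ ≤ (j + ‖s‖) * (Real.log ((n + 1 : ℕ) : ℝ) ^ j / (n : ℝ) ^ 2) := by
  have hn0 : (0 : ℝ) < n := by exact_mod_cast (by omega : 0 < n)
  have hn3 : (3 : ℝ) ≤ n := by exact_mod_cast hn
  have hl0 : 0 ≤ Real.log (n : ℝ) := Real.log_natCast_nonneg n
  have hle : Real.log (n : ℝ) ≤ Real.log ((n + 1 : ℕ) : ℝ) :=
    Real.log_le_log hn0 (by push_cast; linarith)
  have hl1 : 1 ≤ Real.log ((n + 1 : ℕ) : ℝ) := by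
    rw [Real.le_log_iff_exp_le (by positivity)]
    have := Real.exp_one_lt_d9
    push_cast
    linarith
  have hd : Real.log ((n + 1 : ℕ) : ℝ) - Real.log (n : ℝ) ≤ 1 / n := by
    rw [← Real.log_div (by positivity) hn0.ne']
    have h1 := Real.log_le_sub_one_of_pos (x := ((n + 1 : ℕ) : ℝ) / n) (by positivity)
    have h2 : ((n + 1 : ℕ) : ℝ) / n - 1 = 1 / n := by
      push_cast
      field_simp
      ring
    linarith
  have h1 := pow_sub_le j hl0 hle hl1
  have h2 := A0.cpow_sub_le (n := n) (by omega) hs (u := ((n + 1 : ℕ) : ℝ))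
    (by push_cast; linarith) (by push_cast; linarith)
  have e : f j s (n + 1) - f j s n =
      ((Real.log ((n + 1 : ℕ) : ℝ) ^ j - Real.log (n : ℝ) ^ j : ℝ) : ℂ) *
        ((n + 1 : ℕ) : ℂ) ^ (-s) +
      ((Real.log (n : ℝ) ^ j : ℝ) : ℂ) *
        ((((n + 1 : ℕ) : ℝ) : ℂ) ^ (-s) - (n : ℂ) ^ (-s)) := by
    unfold f
    push_cast
    ring
  rw [e]
  have hpow : Real.log (n : ℝ) ^ j ≤ Real.log ((n + 1 : ℕ) : ℝ) ^ j := pow_le_pow_left₀ hl0 hle j
  set P : ℝ := Real.log ((n + 1 : ℕ) : ℝ) ^ j with hP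
  have hP0 : 0 ≤ P := by positivity
  have h3 : ‖((P - Real.log (n : ℝ) ^ j : ℝ) : ℂ) * ((n + 1 : ℕ) : ℂ) ^ (-s)‖ ≤
      j * (P / (n : ℝ) ^ 2) := by
    rw [norm_mul, Complex.norm_real, Real.norm_of_nonneg (by linarith)]
    have h4 := norm_cpow (n := n + 1) (by omega) hs
    have h5 : 1 / (((n + 1 : ℕ) : ℕ) : ℝ) ≤ 1 / n :=
      one_div_le_one_div_of_le hn0 (by push_cast; linarith)
    calc (P - Real.log (n : ℝ) ^ j) * ‖((n + 1 : ℕ) : ℂ) ^ (-s)‖
        ≤ (j * P * (1 / n)) * (1 / n) := by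
          apply mul_le_mul _ (h4.trans h5) (norm_nonneg _) (by positivity)
          refine h1.trans ?_
          exact mul_le_mul_of_nonneg_left hd (by positivity)
      _ = _ := by field_simp
  have h6 : ‖((Real.log (n : ℝ) ^ j : ℝ) : ℂ) *
      ((((n + 1 : ℕ) : ℝ) : ℂ) ^ (-s) - (n : ℂ) ^ (-s))‖ ≤ ‖s‖ * (P / (n : ℝ) ^ 2) := by
    rw [norm_mul, Complex.norm_real, Real.norm_of_nonneg (pow_nonneg hl0 j)]
    calc Real.log (n : ℝ) ^ j * ‖(((n + 1 : ℕ) : ℝ) : ℂ) ^ (-s) - (n : ℂ) ^ (-s)‖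
        ≤ P * (‖s‖ * (1 / (n : ℝ) ^ 2)) :=
          mul_le_mul hpow h2 (norm_nonneg _) hP0
      _ = _ := by ring
  calc _ ≤ _ := norm_add_le _ _
    _ ≤ j * (P / (n : ℝ) ^ 2) + ‖s‖ * (P / (n : ℝ) ^ 2) := add_le_add h3 h6
    _ = _ := by ring

lemma abel (c g : ℕ → ℂ) (N M : ℕ) (hNM : N ≤ M) :
    ∑ n ∈ Ioc N M, c n * g n = (∑ k ∈ Ioc 0 M, c k) * g (M + 1) -
      (∑ k ∈ Ioc 0 N, c k) * g (N + 1) -
      ∑ n ∈ Ioc N M, (∑ k ∈ Ioc 0 n, c k) * (g (n + 1) - g n) := by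
  induction M, hNM using Nat.le_induction with
  | base => simp
  | succ M hM ih =>
    have hA : ∑ k ∈ Ioc 0 (M + 1), c k = ∑ k ∈ Ioc 0 M, c k + c (M + 1) :=
      Finset.sum_Ioc_succ_top (by omega) _
    have hB : ∑ n ∈ Ioc N (M + 1), (∑ k ∈ Ioc 0 n, c k) * (g (n + 1) - g n) =
        ∑ n ∈ Ioc N M, (∑ k ∈ Ioc 0 n, c k) * (g (n + 1) - g n) +
        (∑ k ∈ Ioc 0 (M + 1), c k) * (g (M + 1 + 1) - g (M + 1)) :=
      Finset.sum_Ioc_succ_top (by omega) _
    rw [Finset.sum_Ioc_succ_top (by omega), ih, hB, hA]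
    ring

end A1

open A1 in
theorem a1 : StA1 := by
  intro j
  set K : ℝ := (2 * (j : ℝ) + 3) ^ j with hK
  have hK0 : 0 < K := by positivity
  refine ⟨2 + 2 * K + 8 * K * (j + 1), by positivity, ?_⟩
  intro q _ χ σ t hχ hσ1 hσ2
  set s : ℂ := σ + t * I with hs
  have hsre : s.re = σ := by simp [hs]
  have hs1 : 1 < s.re := by rw [hsre]; exact hσ1
  have hq1 : (1 : ℝ) ≤ q := by
    have : 1 ≤ q := Nat.one_le_iff_ne_zero.2 (NeZero.ne q)
    exact_mod_cast this
  set Y : ℝ := q * (|t| + 3) with hY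
  have ht := abs_nonneg t
  have hY3 : 3 ≤ Y := by
    rw [hY]
    nlinarith
  have hY0 : 0 < Y := by linarith
  have hqY : (q : ℝ) ≤ Y := by rw [hY]; nlinarith
  have hl1 : 1 ≤ Real.log Y := by
    rw [Real.le_log_iff_exp_le hY0]
    have := Real.exp_one_lt_d9
    linarith
  have hsn : ‖s‖ ≤ 2 + |t| := by
    calc ‖s‖ ≤ ‖(σ : ℂ)‖ + ‖(t : ℂ) * I‖ := norm_add_le _ _
      _ = |σ| + |t| := by rw [norm_mul, Complex.norm_I, mul_one, Complex.norm_real,
          Complex.norm_real, Real.norm_eq_abs, Real.norm_eq_abs]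
      _ ≤ 2 + |t| := by rw [abs_of_pos (by linarith)]; linarith
  have hqs : (q : ℝ) * (j + ‖s‖) ≤ (j + 1) * Y := by
    rw [hY]
    have h1 : (j : ℝ) + ‖s‖ ≤ (j + 1) * (|t| + 3) := by
      have : (0 : ℝ) ≤ j := Nat.cast_nonneg j
      nlinarith
    calc (q : ℝ) * (j + ‖s‖) ≤ q * ((j + 1) * (|t| + 3)) :=
          mul_le_mul_of_nonneg_left h1 (by linarith)
      _ = _ := by ring
  set L : ℝ := Real.log Y with hL
  set N : ℕ := ⌊Y⌋₊ with hN
  have hN3 : 3 ≤ N := Nat.le_floor (by exact_mod_cast hY3)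
  have hNY : (N : ℝ) ≤ Y := Nat.floor_le hY0.le
  have hYN : Y < N + 1 := Nat.lt_floor_add_one Y
  -- bound for a single large value
  have hbd : ∀ n : ℕ, N < n → (q : ℝ) * ‖f j s n‖ ≤ K * L ^ j := by
    intro n hn
    have hn1 : 1 ≤ n := by omega
    have hnY : Y ≤ n := by
      have : (N : ℝ) + 1 ≤ n := by exact_mod_cast hn
      linarith
    have hn0 : (0 : ℝ) < n := by linarith
    have h1 := norm_f (j := j) hn1 hs1
    have h2 := logpow j hY0 hl1 hnY
    have h3 : √((n : ℝ) / Y) ≤ n / Y := by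
      rw [Real.sqrt_le_left (by positivity)]
      have : 1 ≤ (n : ℝ) / Y := by rw [le_div_iff₀ hY0]; linarith
      nlinarith
    have h4 : ‖f j s n‖ ≤ K * L ^ j / Y := by
      refine h1.trans ?_
      rw [div_le_div_iff₀ hn0 hY0]
      calc Real.log n ^ j * Y ≤ (K * L ^ j * √((n : ℝ) / Y)) * Y :=
            mul_le_mul_of_nonneg_right h2 hY0.le
        _ ≤ (K * L ^ j * (n / Y)) * Y := by
            apply mul_le_mul_of_nonneg_right _ hY0.le
            exact mul_le_mul_of_nonneg_left h3 (by positivity)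
        _ = K * L ^ j * n := by field_simp
    calc (q : ℝ) * ‖f j s n‖ ≤ Y * (K * L ^ j / Y) :=
          mul_le_mul hqY h4 (norm_nonneg _) hY0.le
      _ = K * L ^ j := by field_simp
  -- differences
  have hdiff : ∀ M : ℕ, N ≤ M → ∑ n ∈ Ioc N M, (q : ℝ) * ‖f j s (n + 1) - f j s n‖ ≤
      8 * K * (j + 1) * L ^ j := by
    intro M hM
    have h1 : ∀ n ∈ Ioc N M, (q : ℝ) * ‖f j s (n + 1) - f j s n‖ ≤
        (j + 1) * Y * (2 * K * L ^ j / √Y) * (1 / ((n : ℝ) * √n)) := by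
      intro n hn
      rw [mem_Ioc] at hn
      have hn3 : 3 ≤ n := by omega
      have hnY : Y ≤ n := by
        have : (N : ℝ) + 1 ≤ n := by exact_mod_cast hn.1
        linarith
      have hn0 : (0 : ℝ) < n := by linarith
      have h2 := diff_f j hn3 hs1
      have h3 := logpow j hY0 hl1 (u := ((n + 1 : ℕ) : ℝ)) (by push_cast; linarith)
      have h4 : √(((n + 1 : ℕ) : ℝ) / Y) ≤ 2 * √n / √Y := by
        rw [Real.sqrt_div (by positivity)]
        apply div_le_div_of_nonneg_right _ (Real.sqrt_nonneg _)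
        rw [Real.sqrt_le_left (by positivity), mul_pow, Real.sq_sqrt hn0.le]
        push_cast
        linarith
      have h5 : Real.log ((n + 1 : ℕ) : ℝ) ^ j / (n : ℝ) ^ 2 ≤
          (2 * K * L ^ j / √Y) * (1 / ((n : ℝ) * √n)) := by
        have hsn : √(n : ℝ) * √n = n := Real.mul_self_sqrt hn0.le
        have hsn0 : 0 < √(n : ℝ) := Real.sqrt_pos.2 hn0
        have hsY0 : 0 < √Y := Real.sqrt_pos.2 hY0
        calc Real.log ((n + 1 : ℕ) : ℝ) ^ j / (n : ℝ) ^ 2
            ≤ (K * L ^ j * (2 * √n / √Y)) / (n : ℝ) ^ 2 := by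
              apply div_le_div_of_nonneg_right _ (by positivity)
              exact h3.trans (mul_le_mul_of_nonneg_left h4 (by positivity))
          _ = _ := by
              have hn2 : (n : ℝ) ^ 2 = n * (√(n : ℝ) * √n) := by rw [hsn]; ring
              rw [hn2]
              field_simp
      calc (q : ℝ) * ‖f j s (n + 1) - f j s n‖
          ≤ q * ((j + ‖s‖) * (Real.log ((n + 1 : ℕ) : ℝ) ^ j / (n : ℝ) ^ 2)) :=
            mul_le_mul_of_nonneg_left h2 (by linarith)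
        _ = (q * (j + ‖s‖)) * (Real.log ((n + 1 : ℕ) : ℝ) ^ j / (n : ℝ) ^ 2) := by ring
        _ ≤ ((j + 1) * Y) * ((2 * K * L ^ j / √Y) * (1 / ((n : ℝ) * √n))) := by
            apply mul_le_mul hqs h5 _ (by positivity)
            exact div_nonneg (pow_nonneg (Real.log_natCast_nonneg _) _) (by positivity)
        _ = _ := by ring
    have h6 : ∑ n ∈ Ioc N M, 1 / ((n : ℝ) * √n) ≤ 4 / √Y := by
      have h7 := sum_le N M (by omega) hM
      have h8 : 0 ≤ 2 / √(M : ℝ) := by positivity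
      have h9 : 2 / √(N : ℝ) ≤ 4 / √Y := by
        have hN0 : (0 : ℝ) < N := by exact_mod_cast (by omega : 0 < N)
        rw [div_le_div_iff₀ (Real.sqrt_pos.2 hN0) (Real.sqrt_pos.2 hY0)]
        have h10 : √Y ≤ 2 * √(N : ℝ) := by
          rw [Real.sqrt_le_left (by positivity), mul_pow, Real.sq_sqrt hN0.le]
          have : (3 : ℝ) ≤ N := by exact_mod_cast hN3
          linarith
        linarith
      linarith
    calc _ ≤ ∑ n ∈ Ioc N M, (j + 1) * Y * (2 * K * L ^ j / √Y) * (1 / ((n : ℝ) * √n)) :=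
          Finset.sum_le_sum h1
      _ = (j + 1) * Y * (2 * K * L ^ j / √Y) * ∑ n ∈ Ioc N M, 1 / ((n : ℝ) * √n) := by
          rw [Finset.mul_sum]
      _ ≤ (j + 1) * Y * (2 * K * L ^ j / √Y) * (4 / √Y) :=
          mul_le_mul_of_nonneg_left h6 (by positivity)
      _ = 8 * K * (j + 1) * L ^ j * (Y / (√Y * √Y)) := by
          field_simp
          ring
      _ = 8 * K * (j + 1) * L ^ j := by
          rw [Real.mul_self_sqrt hY0.le, div_self hY0.ne', mul_one]
  -- tail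
  have htail : ∀ M : ℕ, N ≤ M → ‖∑ n ∈ Ioc N M, χ (n : ZMod q) * f j s n‖ ≤
      (2 * K + 8 * K * (j + 1)) * L ^ j := by
    intro M hM
    rw [abel (fun n => χ (n : ZMod q)) (f j s) N M hM]
    have hA := Pool.Agent.Helper2.norm_sum_char_le χ hχ
    have h1 : ‖(∑ k ∈ Ioc 0 M, χ (k : ZMod q)) * f j s (M + 1)‖ ≤ K * L ^ j := by
      rw [norm_mul]
      exact (mul_le_mul_of_nonneg_right (hA M) (norm_nonneg _)).trans (hbd (M + 1) (by omega))
    have h2 : ‖(∑ k ∈ Ioc 0 N, χ (k : ZMod q)) * f j s (N + 1)‖ ≤ K * L ^ j := by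
      rw [norm_mul]
      exact (mul_le_mul_of_nonneg_right (hA N) (norm_nonneg _)).trans (hbd (N + 1) (by omega))
    have h3 : ‖∑ n ∈ Ioc N M, (∑ k ∈ Ioc 0 n, χ (k : ZMod q)) * (f j s (n + 1) - f j s n)‖ ≤
        8 * K * (j + 1) * L ^ j := by
      refine (norm_sum_le _ _).trans (le_trans ?_ (hdiff M hM))
      refine Finset.sum_le_sum fun n _ => ?_
      rw [norm_mul]
      exact mul_le_mul_of_nonneg_right (hA n) (norm_nonneg _)
    calc _ ≤ ‖(∑ k ∈ Ioc 0 M, χ (k : ZMod q)) * f j s (M + 1)‖ +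
          ‖(∑ k ∈ Ioc 0 N, χ (k : ZMod q)) * f j s (N + 1)‖ +
          ‖∑ n ∈ Ioc N M, (∑ k ∈ Ioc 0 n, χ (k : ZMod q)) * (f j s (n + 1) - f j s n)‖ := by
          refine (norm_sub_le _ _).trans ?_
          gcongr
          exact norm_sub_le _ _
      _ ≤ K * L ^ j + K * L ^ j + 8 * K * (j + 1) * L ^ j := by gcongr
      _ = _ := by ring
  -- head
  have hhead : ‖∑ n ∈ Ioc 0 N, χ (n : ZMod q) * f j s n‖ ≤ 2 * L ^ (j + 1) := by
    have h1 : ∀ n ∈ Ioc 0 N, ‖χ (n : ZMod q) * f j s n‖ ≤ L ^ j * (1 / (n : ℝ)) := by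
      intro n hn
      rw [mem_Ioc] at hn
      have hn0 : (0 : ℝ) < n := by exact_mod_cast hn.1
      rw [norm_mul]
      have h2 := norm_f (j := j) (n := n) (by omega) hs1
      have h3 : Real.log (n : ℝ) ^ j ≤ L ^ j := by
        apply pow_le_pow_left₀ (Real.log_natCast_nonneg n)
        apply Real.log_le_log hn0
        have : (n : ℝ) ≤ N := by exact_mod_cast hn.2
        linarith
      calc ‖χ (n : ZMod q)‖ * ‖f j s n‖ ≤ 1 * ‖f j s n‖ :=
            mul_le_mul_of_nonneg_right (χ.norm_le_one _) (norm_nonneg _)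
        _ ≤ Real.log n ^ j / n := by rw [one_mul]; exact h2
        _ ≤ L ^ j / n := div_le_div_of_nonneg_right h3 hn0.le
        _ = _ := by ring
    have h4 := Pool.Agent.Helper2.harmonic_sum_le N
    have h5 : Real.log (N : ℝ) ≤ L := by
      apply Real.log_le_log _ hNY
      exact_mod_cast (by omega : 0 < N)
    calc _ ≤ ∑ n ∈ Ioc 0 N, ‖χ (n : ZMod q) * f j s n‖ := norm_sum_le _ _
      _ ≤ ∑ n ∈ Ioc 0 N, L ^ j * (1 / (n : ℝ)) := Finset.sum_le_sum h1
      _ = L ^ j * ∑ n ∈ Ioc 0 N, (1 : ℝ) / n := by rw [Finset.mul_sum]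
      _ ≤ L ^ j * (2 * L) := by
          apply mul_le_mul_of_nonneg_left _ (by positivity)
          linarith
      _ = 2 * L ^ (j + 1) := by ring
  have hfin : ∀ M : ℕ, N ≤ M → ‖∑ n ∈ Ioc 0 M, χ (n : ZMod q) * f j s n‖ ≤
      (2 + 2 * K + 8 * K * (j + 1)) * L ^ (j + 1) := by
    intro M hM
    rw [← Finset.sum_Ioc_consecutive _ (Nat.zero_le N) hM]
    have h1 : L ^ j ≤ L ^ (j + 1) := pow_le_pow_right₀ hl1 (by omega)
    calc _ ≤ 2 * L ^ (j + 1) + (2 * K + 8 * K * (j + 1)) * L ^ j :=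
          (norm_add_le _ _).trans (add_le_add hhead (htail M hM))
      _ ≤ 2 * L ^ (j + 1) + (2 * K + 8 * K * (j + 1)) * L ^ (j + 1) := by
          have := mul_le_mul_of_nonneg_left h1
            (by positivity : 0 ≤ 2 * K + 8 * K * ((j : ℝ) + 1))
          linarith
      _ = _ := by ring
  -- the series
  have hterm : ∀ n : ℕ, LSeries.term (Lk χ j) s n =
      if n = 0 then 0 else χ (n : ZMod q) * f j s n := by
    intro n
    rw [LSeries.term_def]
    split_ifs with h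
    · rfl
    · unfold Lk f
      rw [Complex.cpow_neg]
      push_cast
      ring
  by_cases hsum : Summable (LSeries.term (Lk χ j) s)
  · have h1 := hsum.hasSum.tendsto_sum_nat
    have h2 := h1.norm
    refine le_of_tendsto h2 ?_
    filter_upwards [Filter.eventually_ge_atTop (N + 1)] with M hM
    obtain ⟨M', rfl⟩ : ∃ M', M = M' + 1 := ⟨M - 1, by omega⟩
    have h3 : ∑ n ∈ range (M' + 1), LSeries.term (Lk χ j) s n =
        ∑ n ∈ Ioc 0 M', χ (n : ZMod q) * f j s n := by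
      rw [Finset.sum_range_succ', hterm 0, if_pos rfl, add_zero]
      refine Finset.sum_bij' (fun n _ => n + 1) (fun n _ => n - 1) ?_ ?_ ?_ ?_ ?_
      · intro n hn; rw [mem_range] at hn; rw [mem_Ioc]; omega
      · intro n hn; rw [mem_Ioc] at hn; rw [mem_range]; omega
      · intro n _; simp
      · intro n hn
        rw [mem_Ioc] at hn
        exact Nat.sub_add_cancel hn.1
      · intro n _
        rw [hterm, if_neg (by omega)]
    rw [h3]
    exact hfin M' (by omega)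
  · unfold LSeries
    rw [tsum_eq_zero_of_not_summable hsum, norm_zero]
    positivity

end Pool.Agent.Helper90.MT
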