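import Pool.Agent.Helper52.MTC

/-!
Project MT, module A7: repulsion of exceptional characters.
-/

namespace Pool.Agent.Helper90.MT

open Finset Complex
open Pool.Agent.Helper52.MTC
open Pool.Agent.Helper2 (chFun prFun)

theorem a7_real {q : ℕ} (χ : DirichletCharacter ℂ q) (h : χ ^ 2 = 1) (a : ZMod q) :
    ∃ α : ℝ, (α = 0 ∨ α = 1 ∨ α = -1) ∧ χ a = (α : ℂ) := by
  by_cases ha : IsUnit a
  · have h1 : χ a ^ 2 = 1 := by
      rw [← MulChar.pow_apply' χ two_ne_zero, h, MulChar.one_apply ha]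
    rcases sq_eq_one_iff.1 h1 with h2 | h2
    · exact ⟨1, Or.inr (Or.inl rfl), by simpa using h2⟩
    · exact ⟨-1, Or.inr (Or.inr rfl), by simpa using h2⟩
  · exact ⟨0, Or.inl rfl, by simpa using MulChar.map_nonunit χ ha⟩

theorem a7_factor (x α β : ℝ) (hx : 0 < x) (hx1 : x < 1) (hα : α = 0 ∨ α = 1 ∨ α = -1)
    (hβ : β = 0 ∨ β = 1 ∨ β = -1) :
    |(1 - x) * (1 - α * x) * (1 - β * x) * (1 - α * β * x)| ≤ 1 ∧
      (1 - x) * (1 - α * x) * (1 - β * x) * (1 - α * β * x) ≠ 0 := by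
  have h2 : x ^ 2 < 1 := by nlinarith
  have h3 : 0 < 1 - x := by linarith
  have h4 : 0 < 1 - x ^ 2 := by linarith
  have h5 : 0 < x ^ 2 := by positivity
  have key : ∀ z : ℝ, 0 < z → z ≤ 1 → |z| ≤ 1 ∧ z ≠ 0 := fun z hz hz1 =>
    ⟨by rwa [abs_of_pos hz], hz.ne'⟩
  rcases hα with rfl | rfl | rfl <;> rcases hβ with rfl | rfl | rfl
  · apply key <;> nlinarith
  · have e : (1 - x) * (1 - 0 * x) * (1 - 1 * x) * (1 - 0 * 1 * x) = (1 - x) ^ 2 := by ring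
    rw [e]
    exact key _ (by positivity) (pow_le_one₀ h3.le (by linarith))
  · have e : (1 - x) * (1 - 0 * x) * (1 - -1 * x) * (1 - 0 * -1 * x) = 1 - x ^ 2 := by ring
    rw [e]
    exact key _ h4 (by linarith)
  · have e : (1 - x) * (1 - 1 * x) * (1 - 0 * x) * (1 - 1 * 0 * x) = (1 - x) ^ 2 := by ring
    rw [e]
    exact key _ (by positivity) (pow_le_one₀ h3.le (by linarith))
  · have e : (1 - x) * (1 - 1 * x) * (1 - 1 * x) * (1 - 1 * 1 * x) = (1 - x) ^ 4 := by ring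
    rw [e]
    exact key _ (by positivity) (pow_le_one₀ h3.le (by linarith))
  · have e : (1 - x) * (1 - 1 * x) * (1 - -1 * x) * (1 - 1 * -1 * x) = (1 - x ^ 2) ^ 2 := by ring
    rw [e]
    exact key _ (by positivity) (pow_le_one₀ h4.le (by linarith))
  · have e : (1 - x) * (1 - -1 * x) * (1 - 0 * x) * (1 - -1 * 0 * x) = 1 - x ^ 2 := by ring
    rw [e]
    exact key _ h4 (by linarith)
  · have e : (1 - x) * (1 - -1 * x) * (1 - 1 * x) * (1 - -1 * 1 * x) = (1 - x ^ 2) ^ 2 := by ring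
    rw [e]
    exact key _ (by positivity) (pow_le_one₀ h4.le (by linarith))
  · have e : (1 - x) * (1 - -1 * x) * (1 - -1 * x) * (1 - -1 * -1 * x) = (1 - x ^ 2) ^ 2 := by ring
    rw [e]
    exact key _ (by positivity) (pow_le_one₀ h4.le (by linarith))

theorem one_le_of_hasProd {ι : Type*} {g : ι → ℝ} {P : ℝ} (h : HasProd g P) (hg : ∀ i, 1 ≤ g i) :
    1 ≤ P := by
  refine ge_of_tendsto' (f := fun s : Finset ι => ∏ b ∈ s, g b) (by simpa [HasProd] using h) ?_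
  intro s
  exact Finset.prod_induction g (fun x => 1 ≤ x)
    (fun a b ha hb => one_le_mul_of_one_le_of_one_le ha hb) le_rfl (fun i _ => hg i)

/-- positivity of `ζ(s) L(s, χ₁) L(s, χ₂) L(s, χ₁ χ₂)` -/
theorem a7_prod {q r m : ℕ} (χ : DirichletCharacter ℂ q) (ψ : DirichletCharacter ℂ r)
    (ω : DirichletCharacter ℂ m) (hχ : χ ^ 2 = 1) (hψ : ψ ^ 2 = 1)
    (hω : ∀ n : ℕ, ω (n : ZMod m) = χ (n : ZMod q) * ψ (n : ZMod r)) (s : ℝ) (hs : 1 < s) :
    1 ≤ ‖LSeries (Lk (1 : DirichletCharacter ℂ 1) 0) (s : ℂ)‖ * ‖LSeries (Lk χ 0) (s : ℂ)‖ *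
      ‖LSeries (Lk ψ 0) (s : ℂ)‖ * ‖LSeries (Lk ω 0) (s : ℂ)‖ := by
  have hs' : 1 < ((s : ℝ) : ℂ).re := by simpa using hs
  have h0 := DirichletCharacter.LSeries_eulerProduct_hasProd (1 : DirichletCharacter ℂ 1) hs'
  have h1 := DirichletCharacter.LSeries_eulerProduct_hasProd χ hs'
  have h2 := DirichletCharacter.LSeries_eulerProduct_hasProd ψ hs'
  have h3 := DirichletCharacter.LSeries_eulerProduct_hasProd ω hs'
  have h := (((h0.mul h1).mul h2).mul h3).norm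
  simp only [Lk_zero, ← norm_mul]
  refine one_le_of_hasProd h ?_
  intro p
  have hp0 : (0 : ℝ) < (p : ℕ) := by exact_mod_cast p.prop.pos
  have hp1 : (1 : ℝ) < (p : ℕ) := by exact_mod_cast p.prop.one_lt
  obtain ⟨α, hα, eα⟩ := a7_real χ hχ ((p : ℕ) : ZMod q)
  obtain ⟨β, hβ, eβ⟩ := a7_real ψ hψ ((p : ℕ) : ZMod r)
  set x : ℝ := ((p : ℕ) : ℝ) ^ (-s) with hx
  have hx0 : 0 < x := Real.rpow_pos_of_pos hp0 _
  have hx1 : x < 1 := Real.rpow_lt_one_of_one_lt_of_neg hp1 (by linarith)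
  have ex : ((p : ℕ) : ℂ) ^ (-(s : ℂ)) = (x : ℂ) := by
    rw [hx, Complex.ofReal_cpow hp0.le]
    simp
  have e1 : (1 : DirichletCharacter ℂ 1) (((p : ℕ) : ZMod 1)) = 1 :=
    MulChar.one_apply (isUnit_of_subsingleton _)
  rw [hω, eα, eβ, e1, ex, ← mul_inv, ← mul_inv, ← mul_inv, norm_inv]
  obtain ⟨f1, f2⟩ := a7_factor x α β hx0 hx1 hα hβ
  have e2 : (1 - 1 * (x : ℂ)) * (1 - (α : ℂ) * x) * (1 - (β : ℂ) * x) *
      (1 - (α : ℂ) * (β : ℂ) * x) =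
      (((1 - x) * (1 - α * x) * (1 - β * x) * (1 - α * β * x) : ℝ) : ℂ) := by
    push_cast
    ring
  rw [e2, Complex.norm_real, Real.norm_eq_abs]
  exact (one_le_inv₀ (abs_pos.2 f2)).2 f1

theorem prFun_of_primitive {q : ℕ} [NeZero q] (χ : DirichletCharacter ℂ q) (h : χ.IsPrimitive) :
    prFun χ = chFun χ := by
  funext n
  by_cases hn : n.Coprime q
  · exact Pool.Agent.Helper2.prFun_eq_chFun χ n hn
  · have h1 : chFun χ n = 0 := (Pool.Agent.Helper2.chFun_eq_zero_iff χ n).2 hn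
    have h2 : prFun χ n = 0 := by
      refine (Pool.Agent.Helper2.chFun_eq_zero_iff χ.primitiveCharacter n).2 ?_
      have h3 : χ.conductor = q := h
      rwa [h3]
    rw [h1, h2]

theorem a7_ne {q r : ℕ} [NeZero q] [NeZero r] (χ : DirichletCharacter ℂ q)
    (ψ : DirichletCharacter ℂ r) (hχ : χ.IsPrimitive) (hψ : ψ.IsPrimitive) (hψ2 : ψ ^ 2 = 1)
    (h : DirichletCharacter.changeLevel (Dvd.intro r rfl : q ∣ q * r) χ *
      DirichletCharacter.changeLevel (Dvd.intro_left q rfl : r ∣ q * r) ψ = 1) :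
    chFun χ = chFun ψ := by
  set X := DirichletCharacter.changeLevel (Dvd.intro r rfl : q ∣ q * r) χ with hX
  set Y := DirichletCharacter.changeLevel (Dvd.intro_left q rfl : r ∣ q * r) ψ with hY
  have : NeZero (q * r) := ⟨Nat.mul_ne_zero (NeZero.ne q) (NeZero.ne r)⟩
  have hY2 : Y * Y = 1 := by rw [← sq, hY, ← map_pow, hψ2, map_one]
  have hXY : X = Y := by
    calc X = X * (Y * Y) := by rw [hY2, mul_one]
      _ = (X * Y) * Y := by rw [mul_assoc]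
      _ = Y := by rw [h, one_mul]
  rw [← prFun_of_primitive χ hχ, ← prFun_of_primitive ψ hψ]
  funext n
  have e3 := DirichletCharacter.primitiveCharacter_changeLevel_apply
    (Dvd.intro r rfl : q ∣ q * r) χ (n : ℤ)
  have e4 := DirichletCharacter.primitiveCharacter_changeLevel_apply
    (Dvd.intro_left q rfl : r ∣ q * r) ψ (n : ℤ)
  rw [← hX, hXY, hY, e4] at e3
  have : χ.primitiveCharacter ((n : ℤ) : ZMod χ.conductor) =
    ψ.primitiveCharacter ((n : ℤ) : ZMod ψ.conductor) := e3.symm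
  simpa [prFun, chFun] using this

theorem a7_mul {q r : ℕ} [NeZero q] [NeZero r] (χ : DirichletCharacter ℂ q)
    (ψ : DirichletCharacter ℂ r) (n : ℕ) :
    (DirichletCharacter.changeLevel (Dvd.intro r rfl : q ∣ q * r) χ *
      DirichletCharacter.changeLevel (Dvd.intro_left q rfl : r ∣ q * r) ψ) (n : ZMod (q * r)) =
      χ (n : ZMod q) * ψ (n : ZMod r) := by
  by_cases hn : n.Coprime (q * r)
  · have e1 := Pool.Agent.Helper2.chFun_changeLevel χ (Dvd.intro r rfl : q ∣ q * r) n hn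
    have e2 := Pool.Agent.Helper2.chFun_changeLevel ψ (Dvd.intro_left q rfl : r ∣ q * r) n hn
    rw [MulChar.mul_apply]
    exact congrArg₂ (· * ·) e1 e2
  · have hnu : ¬ IsUnit (n : ZMod (q * r)) := fun h => hn ((ZMod.isUnit_iff_coprime n (q * r)).1 h)
    rw [MulChar.map_nonunit _ hnu]
    by_cases hq : n.Coprime q
    · have hr : ¬ n.Coprime r := fun h => hn (Nat.Coprime.mul_right hq h)
      have : ψ (n : ZMod r) = 0 := (Pool.Agent.Helper2.chFun_eq_zero_iff ψ n).2 hr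
      rw [this, mul_zero]
    · have : χ (n : ZMod q) = 0 := (Pool.Agent.Helper2.chFun_eq_zero_iff χ n).2 hq
      rw [this, zero_mul]

theorem a7 (h1 : StA1) : StA7 := by
  obtain ⟨C0, hC0, H0⟩ := h1 0
  obtain ⟨C1, hC1, H1⟩ := h1 1
  set K0 := max 1 C0 with hK0
  set K1 := max 1 C1 with hK1
  have k0 : 1 ≤ K0 := le_max_left _ _
  have k1 : 1 ≤ K1 := le_max_left _ _
  have c0 : C0 ≤ K0 := le_max_right _ _
  have c1 : C1 ≤ K1 := le_max_right _ _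
  have p0 : 0 < K0 := by linarith
  have p1 : 0 < K1 := by linarith
  set c' : ℝ := 1 / (300 * K1 ^ 2 * K0) with hc'
  have hc'0 : 0 < c' := by positivity
  have hK : 1 ≤ K1 ^ 2 * K0 := one_le_mul_of_one_le_of_one_le (one_le_pow₀ k1) k0
  have hc'1 : c' ≤ 1 := by
    rw [hc', div_le_one (by positivity)]
    nlinarith
  refine ⟨c' / 2, by positivity, 3, ?_⟩
  intro Q hQ q₁ q₂ _ _ χ₁ χ₂ hq₁ hq₂ hp₁ hp₂ hn₁ hn₂ hr₁ hr₂ hex₁ hex₂
  by_contra hne
  have hQ3 : (3 : ℝ) ≤ Q := by exact_mod_cast hQ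
  have hlog3 : (1 : ℝ) ≤ Real.log 3 := by
    rw [Real.le_log_iff_exp_le (by norm_num)]
    linarith [Real.exp_one_lt_d9]
  set ℓ := Real.log Q with hℓ
  have hℓ3 : Real.log 3 ≤ ℓ := Real.log_le_log (by norm_num) hQ3
  have hℓ1 : 1 ≤ ℓ := hlog3.trans hℓ3
  have hℓ0 : 0 < ℓ := by linarith
  set d : ℝ := c' / ℓ ^ 5 with hd
  have hd0 : 0 < d := by positivity
  have hd1 : d ≤ 1 := by
    rw [hd, div_le_one (by positivity)]
    exact hc'1.trans (one_le_pow₀ hℓ1)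
  -- bound for each of the two characters
  have each : ∀ (q : ℕ) [NeZero q] (χ : DirichletCharacter ℂ q), q ≤ Q → χ ≠ 1 →
      (∃ σ : ℝ, 1 < σ ∧ σ ≤ 2 ∧ ‖LSeries (Lk χ 0) (σ : ℂ)‖ < c' / 2 / ℓ ^ 5) →
      ‖LSeries (Lk χ 0) ((1 + d : ℝ) : ℂ)‖ ≤ 5 * K1 * ℓ ^ 2 * d := by
    intro q hq χ hqQ hχ hex
    obtain ⟨σ, hσ, hσ2, hs⟩ := hex
    have g1 := le_norm_Lk_zero χ (σ : ℂ) (by simpa using hσ) (by simpa using hσ2)
    rw [ofReal_re] at g1
    have g2 : c' / 2 / ℓ ^ 5 = d / 2 := by rw [hd]; ring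
    rw [g2] at hs
    have g3 : σ - 1 < d := by linarith
    have hq0 : (1 : ℝ) ≤ q := by exact_mod_cast Nat.one_le_iff_ne_zero.2 (NeZero.ne q)
    have hqQ' : (q : ℝ) ≤ Q := by exact_mod_cast hqQ
    have g4 : Real.log (q * (|0| + 3)) ≤ 2 * ℓ := by
      rw [abs_zero, zero_add, Real.log_mul (by positivity) (by norm_num)]
      have := Real.log_le_log (by linarith) hqQ'
      linarith
    have g5 : 0 ≤ Real.log (q * (|0| + 3)) := Real.log_nonneg (by simp; linarith)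
    have g6 : ∀ u : ℝ, 1 < u → u ≤ 2 →
        ‖LSeries (Lk χ 1) (u + (0 : ℝ) * I)‖ ≤ 4 * K1 * ℓ ^ 2 := by
      intro u hu hu2
      refine (H1 q χ u 0 hχ hu hu2).trans ?_
      have h2 := pow_le_pow_left₀ g5 g4 2
      calc C1 * Real.log (q * (|0| + 3)) ^ (1 + 1) ≤ K1 * (2 * ℓ) ^ 2 :=
            mul_le_mul c1 h2 (by positivity) p1.le
        _ = 4 * K1 * ℓ ^ 2 := by ring
    have g7 := lip_sigma χ 0 _ g6 σ (1 + d) hσ hσ2 (by linarith) (by linarith)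
    simp only [ofReal_zero, zero_mul, add_zero] at g7
    have g8 : |1 + d - σ| ≤ d := by
      rw [abs_le]
      constructor <;> linarith
    have g9 : 4 * K1 * ℓ ^ 2 * |1 + d - σ| ≤ 4 * K1 * ℓ ^ 2 * d := by gcongr
    have g10 := norm_sub_norm_le (LSeries (Lk χ 0) ((1 + d : ℝ) : ℂ)) (LSeries (Lk χ 0) (σ : ℂ))
    have g11 : d ≤ K1 * ℓ ^ 2 * d := by
      have : 1 ≤ K1 * ℓ ^ 2 := one_le_mul_of_one_le_of_one_le k1 (one_le_pow₀ hℓ1)
      nlinarith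
    linarith
  have b1 := each q₁ χ₁ hq₁ hn₁ hex₁
  have b2 := each q₂ χ₂ hq₂ hn₂ hex₂
  have : NeZero (q₁ * q₂) := ⟨Nat.mul_ne_zero (NeZero.ne q₁) (NeZero.ne q₂)⟩
  set ω := DirichletCharacter.changeLevel (Dvd.intro q₂ rfl : q₁ ∣ q₁ * q₂) χ₁ *
      DirichletCharacter.changeLevel (Dvd.intro_left q₁ rfl : q₂ ∣ q₁ * q₂) χ₂ with hω
  have hω1 : ω ≠ 1 := fun h => hne (a7_ne χ₁ χ₂ hp₁ hp₂ hr₂ h)
  have b3 : ‖LSeries (Lk ω 0) ((1 + d : ℝ) : ℂ)‖ ≤ 3 * K0 * ℓ := by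
    have h2 := H0 (q₁ * q₂) ω (1 + d) 0 hω1 (by linarith) (by linarith)
    simp only [ofReal_zero, zero_mul, add_zero, abs_zero, zero_add, pow_one] at h2
    refine h2.trans ?_
    have hq₁0 : (1 : ℝ) ≤ q₁ := by exact_mod_cast Nat.one_le_iff_ne_zero.2 (NeZero.ne q₁)
    have hq₂0 : (1 : ℝ) ≤ q₂ := by exact_mod_cast Nat.one_le_iff_ne_zero.2 (NeZero.ne q₂)
    have hq₁' : (q₁ : ℝ) ≤ Q := by exact_mod_cast hq₁
    have hq₂' : (q₂ : ℝ) ≤ Q := by exact_mod_cast hq₂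
    have h3 : Real.log (((q₁ * q₂ : ℕ) : ℝ) * 3) ≤ 3 * ℓ := by
      push_cast
      rw [Real.log_mul (by positivity) (by norm_num), Real.log_mul (by positivity) (by positivity)]
      have e1 := Real.log_le_log (by linarith) hq₁'
      have e2 := Real.log_le_log (by linarith) hq₂'
      linarith
    have h4 : 0 ≤ Real.log (((q₁ * q₂ : ℕ) : ℝ) * 3) := by
      apply Real.log_nonneg
      push_cast
      nlinarith
    calc C0 * Real.log (((q₁ * q₂ : ℕ) : ℝ) * 3) ≤ K0 * (3 * ℓ) :=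
          mul_le_mul c0 h3 h4 p0.le
      _ = 3 * K0 * ℓ := by ring
  have b0 : ‖LSeries (Lk (1 : DirichletCharacter ℂ 1) 0) ((1 + d : ℝ) : ℂ)‖ ≤ 2 / d := by
    have := norm_Lk_zero_le (1 : DirichletCharacter ℂ 1) ((1 + d : ℝ) : ℂ)
      (by rw [ofReal_re]; linarith) (by rw [ofReal_re]; linarith)
    rw [ofReal_re] at this
    simpa using this
  have hP := a7_prod χ₁ χ₂ ω hr₁ hr₂ (a7_mul χ₁ χ₂) (1 + d) (by linarith)
  have hfin : (1 : ℝ) ≤ 2 / d * (5 * K1 * ℓ ^ 2 * d) * (5 * K1 * ℓ ^ 2 * d) * (3 * K0 * ℓ) := by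
    refine hP.trans ?_
    gcongr
  have hval : 2 / d * (5 * K1 * ℓ ^ 2 * d) * (5 * K1 * ℓ ^ 2 * d) * (3 * K0 * ℓ) = 1 / 2 := by
    have : 2 / d * (5 * K1 * ℓ ^ 2 * d) * (5 * K1 * ℓ ^ 2 * d) * (3 * K0 * ℓ) =
        150 * K1 ^ 2 * K0 * ℓ ^ 5 * d := by
      field_simp
      ring
    rw [this, hd, hc']
    field_simp
    norm_num
  rw [hval] at hfin
  norm_num at hfin

end Pool.Agent.Helper90.MT
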