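import Pool.Agent.Helper52.MTC

/-!
Project MT, module A2: lower bounds for `L(s, χ)` (3-4-1 inequality).
-/

namespace Pool.Agent.Helper90.MT

open Finset Complex
open Pool.Agent.Helper52.MTC

/-- the 3-4-1 argument in abstract form -/
theorem a2_core {q : ℕ} [NeZero q] (χ : DirichletCharacter ℂ q) (t C D Y : ℝ) (hC : 1 ≤ C)
    (hD : 1 ≤ D) (hY : 1 ≤ Y)
    (H1 : ∀ u : ℝ, 1 < u → u ≤ 2 → ‖LSeries (Lk χ 1) (u + t * I)‖ ≤ C * Y ^ 2)
    (H2 : ∀ δ : ℝ, 0 < δ → δ ≤ 1 →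
      ‖LSeries (Lk (χ ^ 2) 0) (((1 + δ : ℝ) : ℂ) + ((2 * t : ℝ) : ℂ) * I)‖ ≤ D)
    (σ : ℝ) (hσ : 1 < σ) (hσ2 : σ ≤ 2) :
    1 / (128 * C ^ 3 * D * Y ^ 6) ≤ ‖LSeries (Lk χ 0) (σ + t * I)‖ := by
  have hC0 : 0 < C := by linarith
  have hD0 : 0 < D := by linarith
  have hY0 : 0 < Y := by linarith
  have key : ∀ δ : ℝ, 0 < δ → δ ≤ 1 →
      δ ^ 3 ≤ 8 * D * ‖LSeries (Lk χ 0) (((1 + δ : ℝ) : ℂ) + t * I)‖ ^ 4 := by
    intro δ hδ hδ1
    have h := DirichletCharacter.norm_LSeries_product_ge_one χ hδ t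
    rw [norm_mul, norm_mul, norm_pow, norm_pow] at h
    have e1 : (1 : ℂ) + δ = ((1 + δ : ℝ) : ℂ) := by push_cast; ring
    have e2 : (1 : ℂ) + δ + I * t = ((1 + δ : ℝ) : ℂ) + t * I := by push_cast; ring
    have e3 : (1 : ℂ) + δ + 2 * I * t = ((1 + δ : ℝ) : ℂ) + ((2 * t : ℝ) : ℂ) * I := by
      push_cast; ring
    rw [e2, e3, e1, ← Lk_zero, ← Lk_zero, ← Lk_zero] at h
    have h1 : ‖LSeries (Lk (1 : DirichletCharacter ℂ q) 0) ((1 + δ : ℝ) : ℂ)‖ ≤ 2 / δ := by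
      have := norm_Lk_zero_le (1 : DirichletCharacter ℂ q) ((1 + δ : ℝ) : ℂ)
        (by rw [ofReal_re]; linarith) (by rw [ofReal_re]; linarith)
      rw [ofReal_re] at this
      simpa using this
    have h2 := H2 δ hδ hδ1
    set A := ‖LSeries (Lk χ 0) (((1 + δ : ℝ) : ℂ) + t * I)‖ with hA
    have hA0 : 0 ≤ A := norm_nonneg _
    have h3 : (1 : ℝ) ≤ (2 / δ) ^ 3 * A ^ 4 * D := by
      refine (ge_iff_le.1 h).trans ?_
      gcongr
    rw [div_pow, div_mul_eq_mul_div, div_mul_eq_mul_div, le_div_iff₀ (by positivity)] at h3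
    linarith
  set d : ℝ := 1 / (128 * C ^ 4 * D * Y ^ 8) with hd
  have hd0 : 0 < d := by positivity
  have hd1 : d ≤ 1 := by
    rw [hd, div_le_one (by positivity)]
    have h1 : 1 ≤ C ^ 4 := one_le_pow₀ hC
    have h2 : 1 ≤ Y ^ 8 := one_le_pow₀ hY
    have h3 : 1 ≤ C ^ 4 * D := one_le_mul_of_one_le_of_one_le h1 hD
    have h4 : 1 ≤ C ^ 4 * D * Y ^ 8 := one_le_mul_of_one_le_of_one_le h3 h2
    nlinarith
  have hid : d ^ 3 = 8 * D * (2 * C * d * Y ^ 2) ^ 4 := by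
    have h5 : 128 * C ^ 4 * D * Y ^ 8 * d = 1 := by
      rw [hd]
      field_simp
    calc d ^ 3 = d ^ 3 * (128 * C ^ 4 * D * Y ^ 8 * d) := by rw [h5, mul_one]
      _ = _ := by ring
  have big : ∀ δ : ℝ, d ≤ δ → δ ≤ 1 →
      2 * C * d * Y ^ 2 ≤ ‖LSeries (Lk χ 0) (((1 + δ : ℝ) : ℂ) + t * I)‖ := by
    intro δ hδ hδ1
    have h6 := key δ (hd0.trans_le hδ) hδ1
    have h7 : d ^ 3 ≤ δ ^ 3 := pow_le_pow_left₀ hd0.le hδ 3
    have h8 : 8 * D * (2 * C * d * Y ^ 2) ^ 4 ≤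
        8 * D * ‖LSeries (Lk χ 0) (((1 + δ : ℝ) : ℂ) + t * I)‖ ^ 4 := by
      rw [← hid]
      exact h7.trans h6
    have h9 := le_of_mul_le_mul_left h8 (by positivity)
    exact le_of_pow_le_pow_left₀ (by norm_num) (norm_nonneg _) h9
  have hval : C * d * Y ^ 2 = 1 / (128 * C ^ 3 * D * Y ^ 6) := by
    rw [hd]
    field_simp
  rw [← hval]
  rcases le_or_gt d (σ - 1) with h | h
  · have h1 := big (σ - 1) h (by linarith)
    have e : (1 + (σ - 1) : ℝ) = σ := by ring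
    rw [e] at h1
    have : 0 < C * d * Y ^ 2 := by positivity
    linarith
  · have h1 := big d le_rfl hd1
    have h2 := lip_sigma χ t (C * Y ^ 2) H1 (1 + d) σ (by linarith) (by linarith) hσ hσ2
    have h3 : |σ - (1 + d)| ≤ d := by
      rw [abs_le]
      constructor <;> linarith
    have h4 : C * Y ^ 2 * |σ - (1 + d)| ≤ C * d * Y ^ 2 := by
      calc C * Y ^ 2 * |σ - (1 + d)| ≤ C * Y ^ 2 * d := by gcongr
        _ = C * d * Y ^ 2 := by ring
    have h5 := norm_sub_norm_le (LSeries (Lk χ 0) (((1 + d : ℝ) : ℂ) + t * I))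
      (LSeries (Lk χ 0) ((σ : ℂ) + t * I))
    rw [norm_sub_rev] at h5
    linarith

theorem a2 (h0 : StA0) (h1 : StA1) : StA2 := by
  obtain ⟨C0, hC0, H0⟩ := h1 0
  obtain ⟨C1, hC1, H1⟩ := h1 1
  obtain ⟨C2, hC2, H2⟩ := h0
  set K0 := max 1 C0 with hK0
  set K1 := max 1 C1 with hK1
  set K2 := max 1 C2 with hK2
  have k0 : 1 ≤ K0 := le_max_left _ _
  have k1 : 1 ≤ K1 := le_max_left _ _
  have k2 : 1 ≤ K2 := le_max_left _ _
  have c0 : C0 ≤ K0 := le_max_right _ _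
  have c1 : C1 ≤ K1 := le_max_right _ _
  have c2 : C2 ≤ K2 := le_max_right _ _
  have p0 : 0 < K0 := by linarith
  have p1 : 0 < K1 := by linarith
  have p2 : 0 < K2 := by linarith
  refine ⟨1 / (256 * K1 ^ 4 * K2 * K0), by positivity, 14, ?_⟩
  intro q hq χ y σ t hR hσ hσ2
  have hq1 : (1 : ℝ) ≤ q := by exact_mod_cast Nat.one_le_iff_ne_zero.2 (NeZero.ne q)
  have hlog3 : (1 : ℝ) ≤ Real.log 3 := by
    rw [Real.le_log_iff_exp_le (by norm_num)]
    linarith [Real.exp_one_lt_d9]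
  have hy1 : 1 ≤ y := by
    refine le_trans hlog3 (le_trans ?_ hR.big)
    exact Real.log_le_log (by norm_num) (by linarith)
  have ht0 := abs_nonneg t
  have hlt : 1 ≤ Real.log (|t| + 3) :=
    hlog3.trans (Real.log_le_log (by norm_num) (by linarith))
  set Y := y + Real.log (|t| + 3) with hY
  have hyY : y ≤ Y := by linarith
  have hY1 : 1 ≤ Y := by linarith
  have hY0 : 0 < Y := by linarith
  have hlogb : ∀ v : ℝ, 0 ≤ v → v ≤ 3 * (|t| + 3) → 1 ≤ v → Real.log (q * v) ≤ Y := by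
    intro v hv hv2 hv3
    have h1 : Real.log (q * v) ≤ Real.log (3 * q * (|t| + 3)) := by
      apply Real.log_le_log (by positivity)
      calc (q : ℝ) * v ≤ q * (3 * (|t| + 3)) := by gcongr
        _ = 3 * q * (|t| + 3) := by ring
    have h2 : Real.log (3 * q * (|t| + 3)) = Real.log (3 * q) + Real.log (|t| + 3) :=
      Real.log_mul (by positivity) (by positivity)
    linarith [hR.big]
  have hlog0 : ∀ v : ℝ, 1 ≤ v → 0 ≤ Real.log (q * v) := by
    intro v hv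
    exact Real.log_nonneg (by nlinarith)
  have B1 : ∀ s u : ℝ, |u| ≤ |t| → 1 < s → s ≤ 2 → ‖LSeries (Lk χ 1) (s + u * I)‖ ≤ K1 * Y ^ 2 := by
    intro s u hu hs hs2
    refine (H1 q χ s u hR.ne hs hs2).trans ?_
    have h2 := hlogb (|u| + 3) (by positivity) (by linarith) (by linarith [abs_nonneg u])
    have h3 := hlog0 (|u| + 3) (by linarith [abs_nonneg u])
    have h4 : Real.log (q * (|u| + 3)) ^ 2 ≤ Y ^ 2 := pow_le_pow_left₀ h3 h2 2
    exact mul_le_mul c1 h4 (by positivity) p1.le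
  have B2 : Real.log (q * (|2 * t| + 3)) ≤ Y := by
    apply hlogb
    · positivity
    · rw [abs_mul, abs_two]; linarith
    · linarith [abs_nonneg (2 * t)]
  have B20 : 0 ≤ Real.log (q * (|2 * t| + 3)) := hlog0 _ (by linarith [abs_nonneg (2 * t)])
  have hpow : ∀ a b : ℕ, a ≤ b → Y ^ a ≤ Y ^ b := fun a b hab => pow_le_pow_right₀ hY1 hab
  by_cases hχ : χ ^ 2 = 1
  · by_cases hts : 1 / (2 * K1 * Y ^ 8) ≤ |t|
    · -- second case
      have htpos : 0 < |t| := lt_of_lt_of_le (by positivity) hts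
      have ht' : (2 * t) ≠ 0 := by
        have := abs_pos.1 htpos
        simpa using this
      have hc := a2_core χ t K1 (2 * K1 * K2 * Y ^ 8) Y k1 ?_ hY1
        (fun u hu hu2 => B1 u t le_rfl hu hu2) ?_ σ hσ hσ2
      · refine le_trans ?_ hc
        rw [div_div]
        apply one_div_le_one_div_of_le (by positivity)
        have e : 128 * K1 ^ 3 * (2 * K1 * K2 * Y ^ 8) * Y ^ 6 = 256 * K1 ^ 4 * K2 * Y ^ 14 := by ring
        rw [e]
        have : 256 * K1 ^ 4 * K2 * Y ^ 14 * 1 ≤ 256 * K1 ^ 4 * K2 * Y ^ 14 * K0 := by gcongr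
        linarith
      · have h5 : 1 ≤ Y ^ 8 := one_le_pow₀ hY1
        have h6 : 1 ≤ K1 * K2 := one_le_mul_of_one_le_of_one_le k1 k2
        have h7 : 1 ≤ K1 * K2 * Y ^ 8 := one_le_mul_of_one_le_of_one_le h6 h5
        linarith
      · intro δ hδ hδ1
        rw [hχ]
        refine (H2 q (1 + δ) (2 * t) (by linarith) (by linarith) ht').trans ?_
        have h8 : 1 / |2 * t| ≤ K1 * Y ^ 8 := by
          rw [abs_mul, abs_two, div_le_iff₀ (by positivity)]
          rw [div_le_iff₀ (by positivity)] at hts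
          linarith
        have h9 : Y ≤ K1 * Y ^ 8 := by
          calc Y = 1 * Y ^ 1 := by ring
            _ ≤ K1 * Y ^ 8 := by
              apply mul_le_mul k1 (hpow 1 8 (by norm_num)) (by positivity) p1.le
        calc C2 * (Real.log (q * (|2 * t| + 3)) + 1 / |2 * t|) ≤ K2 * (K1 * Y ^ 8 + K1 * Y ^ 8) := by
              apply mul_le_mul c2 (by linarith) (by positivity) p2.le
          _ = _ := by ring
    · -- third case
      have hts' : |t| ≤ 1 / (2 * K1 * Y ^ 8) := (not_le.1 hts).le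
      have h1 := lip_t χ σ t (K1 * Y ^ 2) hσ (fun u hu => B1 σ u hu hσ hσ2)
      have h2 := hR.real hχ σ hσ hσ2
      have h3 : 1 / Y ^ 6 ≤ 1 / y ^ 6 := by
        apply one_div_le_one_div_of_le (by positivity)
        exact pow_le_pow_left₀ (by linarith) hyY 6
      have h4 : K1 * Y ^ 2 * |t| ≤ 1 / (2 * Y ^ 6) := by
        calc K1 * Y ^ 2 * |t| ≤ K1 * Y ^ 2 * (1 / (2 * K1 * Y ^ 8)) := by gcongr
          _ = 1 / (2 * Y ^ 6) := by field_simp
      have h5 := norm_sub_norm_le (LSeries (Lk χ 0) (σ : ℂ)) (LSeries (Lk χ 0) ((σ : ℂ) + t * I))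
      rw [norm_sub_rev] at h5
      have h6 : 1 / Y ^ 6 - 1 / (2 * Y ^ 6) = 1 / (2 * Y ^ 6) := by
        field_simp
        norm_num
      have h7 : 1 / (256 * K1 ^ 4 * K2 * K0) / Y ^ 14 ≤ 1 / (2 * Y ^ 6) := by
        rw [div_div]
        apply one_div_le_one_div_of_le (by positivity)
        have h8 : 1 ≤ K1 ^ 4 := one_le_pow₀ k1
        have h9 : 1 ≤ K1 ^ 4 * K2 * K0 :=
          one_le_mul_of_one_le_of_one_le (one_le_mul_of_one_le_of_one_le h8 k2) k0
        calc 2 * Y ^ 6 ≤ (256 * 1) * Y ^ 14 := by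
              apply mul_le_mul (by norm_num) (hpow 6 14 (by norm_num)) (by positivity) (by norm_num)
          _ ≤ (256 * (K1 ^ 4 * K2 * K0)) * Y ^ 14 := by gcongr
          _ = 256 * K1 ^ 4 * K2 * K0 * Y ^ 14 := by ring
      linarith
  · -- first case
    have hc := a2_core χ t K1 (K0 * Y) Y k1 (one_le_mul_of_one_le_of_one_le k0 hY1) hY1
      (fun u hu hu2 => B1 u t le_rfl hu hu2) ?_ σ hσ hσ2
    · refine le_trans ?_ hc
      rw [div_div]
      apply one_div_le_one_div_of_le (by positivity)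
      have h8 : K1 ^ 3 ≤ K1 ^ 4 := pow_le_pow_right₀ k1 (by norm_num)
      calc 128 * K1 ^ 3 * (K0 * Y) * Y ^ 6 = 128 * K1 ^ 3 * 1 * K0 * Y ^ 7 := by ring
        _ ≤ 256 * K1 ^ 4 * K2 * K0 * Y ^ 14 := by
          gcongr
          · norm_num
          · norm_num
    · intro δ hδ hδ1
      refine (H0 q (χ ^ 2) (1 + δ) (2 * t) hχ (by linarith) (by linarith)).trans ?_
      rw [zero_add, pow_one]
      exact mul_le_mul c0 B2 B20 p0.le

end Pool.Agent.Helper90.MT
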