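import Pool.Agent.Helper90.MT.StA

/-!
Project MT: divisor weights.
-/

namespace Pool.Agent.Helper90.MT

open Finset

theorem a13a_tot (q : ℕ) : q ≤ 2 ^ q.primeFactors.card * q.totient := by
  have h1 := Nat.totient_mul_prod_primeFactors q
  have h2 : ∏ p ∈ q.primeFactors, p ≤
      2 ^ q.primeFactors.card * ∏ p ∈ q.primeFactors, (p - 1) := by
    rw [← prod_const, ← prod_mul_distrib]
    refine prod_le_prod (fun _ _ => Nat.zero_le _) fun p hp => ?_
    have := (Nat.prime_of_mem_primeFactors hp).two_le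
    omega
  have h3 : 0 < ∏ p ∈ q.primeFactors, (p - 1) := by
    refine prod_pos fun p hp => ?_
    have := (Nat.prime_of_mem_primeFactors hp).two_le
    omega
  refine le_of_mul_le_mul_right ?_ h3
  rw [← h1, mul_comm (2 ^ _) (q.totient), mul_assoc]
  exact Nat.mul_le_mul_left _ h2

theorem a13a_div (m q : ℕ) (hq : q ≠ 0) : ((m : ℝ) + 1) ^ q.primeFactors.card ≤
    ∑ d ∈ q.divisors, (m : ℝ) ^ d.primeFactors.card := by
  have hpr : ∀ t ∈ q.primeFactors.powerset, ∀ p ∈ t, p.Prime := by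
    intro t ht p hp
    exact Nat.prime_of_mem_primeFactors (mem_powerset.mp ht hp)
  have hinj : Set.InjOn (fun t : Finset ℕ => ∏ p ∈ t, p)
      (q.primeFactors.powerset : Set (Finset ℕ)) := by
    intro t ht t' ht' h
    have h1 := congrArg Nat.primeFactors h
    simp only [] at h1
    rw [Nat.primeFactors_prod (hpr t ht), Nat.primeFactors_prod (hpr t' ht')] at h1
    exact h1
  calc ((m : ℝ) + 1) ^ q.primeFactors.card
      = ∑ t ∈ q.primeFactors.powerset, (m : ℝ) ^ t.card * 1 ^ (q.primeFactors.card - t.card) :=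
        (sum_pow_mul_eq_add_pow (m : ℝ) 1 q.primeFactors).symm
    _ = ∑ t ∈ q.primeFactors.powerset, (m : ℝ) ^ (∏ p ∈ t, p).primeFactors.card := by
        refine sum_congr rfl fun t ht => ?_
        rw [Nat.primeFactors_prod (hpr t ht)]
        simp
    _ = ∑ d ∈ q.primeFactors.powerset.image (fun t => ∏ p ∈ t, p),
          (m : ℝ) ^ d.primeFactors.card := by
        rw [sum_image hinj]
    _ ≤ ∑ d ∈ q.divisors, (m : ℝ) ^ d.primeFactors.card := by
        refine sum_le_sum_of_subset_of_nonneg ?_ fun _ _ _ => by positivity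
        intro d hd
        obtain ⟨t, ht, rfl⟩ := mem_image.mp hd
        rw [Nat.mem_divisors]
        refine ⟨?_, hq⟩
        exact (prod_dvd_prod_of_subset _ _ _ (mem_powerset.mp ht)).trans
          (Nat.prod_primeFactors_dvd q)

theorem a13a_conv (g : ℕ → ℝ) (hg : ∀ d, 0 ≤ g d) (Q : ℕ) :
    ∑ q ∈ Icc 1 Q, (∑ d ∈ q.divisors, g d) / q ≤
      (∑ d ∈ Icc 1 Q, g d / d) * ∑ e ∈ Icc 1 Q, 1 / (e : ℝ) := by
  have h1 : ∀ q ∈ Icc 1 Q, (∑ d ∈ q.divisors, g d) / q =
      ∑ d ∈ Icc 1 Q, if d ∣ q then g d / q else 0 := by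
    intro q hq
    rw [sum_div, ← sum_filter]
    refine sum_congr ?_ fun _ _ => rfl
    ext d
    rw [mem_Icc] at hq
    rw [Nat.mem_divisors, mem_filter, mem_Icc]
    constructor
    · rintro ⟨hd, _⟩
      exact ⟨⟨Nat.pos_of_dvd_of_pos hd hq.1, (Nat.le_of_dvd hq.1 hd).trans hq.2⟩, hd⟩
    · rintro ⟨_, hd⟩
      exact ⟨hd, by omega⟩
  rw [sum_congr rfl h1, sum_comm, sum_mul]
  refine sum_le_sum fun d hd => ?_
  rw [mem_Icc] at hd
  rw [← sum_filter]
  have hinj : Set.InjOn (fun e : ℕ => d * e) (Icc 1 Q : Set ℕ) := by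
    intro e _ e' _ h
    exact Nat.eq_of_mul_eq_mul_left hd.1 h
  calc ∑ q ∈ (Icc 1 Q).filter (fun q => d ∣ q), g d / q
      ≤ ∑ q ∈ (Icc 1 Q).image (fun e => d * e), g d / q := by
        refine sum_le_sum_of_subset_of_nonneg ?_ fun q _ _ =>
          div_nonneg (hg d) (Nat.cast_nonneg q)
        intro q hq
        rw [mem_filter, mem_Icc] at hq
        obtain ⟨⟨hq1, hq2⟩, e, rfl⟩ := hq
        refine mem_image.mpr ⟨e, ?_, rfl⟩
        rw [mem_Icc]
        have he : 0 < e := Nat.pos_of_mul_pos_left hq1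
        refine ⟨he, le_trans ?_ hq2⟩
        exact Nat.le_mul_of_pos_left e hd.1
    _ = ∑ e ∈ Icc 1 Q, g d / ((d * e : ℕ) : ℝ) := by
        rw [sum_image hinj]
    _ = g d / d * ∑ e ∈ Icc 1 Q, 1 / (e : ℝ) := by
        rw [mul_sum]
        refine sum_congr rfl fun e _ => ?_
        push_cast
        rw [div_mul_div_comm, mul_one]

theorem a13a_sum (m Q : ℕ) : ∑ q ∈ Icc 1 Q, (m : ℝ) ^ q.primeFactors.card / q ≤
    (∑ e ∈ Icc 1 Q, 1 / (e : ℝ)) ^ m := by
  induction m with
  | zero =>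
    rw [pow_zero]
    calc ∑ q ∈ Icc 1 Q, ((0 : ℕ) : ℝ) ^ q.primeFactors.card / q
        ≤ ∑ q ∈ Icc 1 Q, if q = 1 then (1 : ℝ) else 0 := by
          refine sum_le_sum fun q hq => ?_
          rw [mem_Icc] at hq
          by_cases h1 : q = 1
          · subst h1
            simp
          · rw [if_neg h1, Nat.cast_zero, zero_pow, zero_div]
            intro h
            rw [card_eq_zero, Nat.primeFactors_eq_empty] at h
            omega
      _ ≤ 1 := by
          rw [sum_ite_eq']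
          split_ifs <;> norm_num
  | succ m ih =>
    calc ∑ q ∈ Icc 1 Q, ((m + 1 : ℕ) : ℝ) ^ q.primeFactors.card / q
        ≤ ∑ q ∈ Icc 1 Q, (∑ d ∈ q.divisors, (m : ℝ) ^ d.primeFactors.card) / q := by
          refine sum_le_sum fun q hq => ?_
          rw [mem_Icc] at hq
          refine div_le_div_of_nonneg_right ?_ (Nat.cast_nonneg q)
          have := a13a_div m q (by omega)
          push_cast
          exact this
      _ ≤ (∑ d ∈ Icc 1 Q, (m : ℝ) ^ d.primeFactors.card / d) * ∑ e ∈ Icc 1 Q, 1 / (e : ℝ) :=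
          a13a_conv (fun d => (m : ℝ) ^ d.primeFactors.card) (fun d => by positivity) Q
      _ ≤ (∑ e ∈ Icc 1 Q, 1 / (e : ℝ)) ^ m * ∑ e ∈ Icc 1 Q, 1 / (e : ℝ) := by
          refine mul_le_mul_of_nonneg_right ih ?_
          exact sum_nonneg fun e _ => by positivity
      _ = (∑ e ∈ Icc 1 Q, 1 / (e : ℝ)) ^ (m + 1) := by rw [pow_succ]

theorem a13a : StA13a := by
  intro k
  refine ⟨3 ^ (2 * k), by positivity, 2 * k, ?_⟩
  intro Q hQ
  have hlog : (1 : ℝ) / 2 ≤ Real.log Q := by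
    have h1 : Real.log 2 ≤ Real.log Q := by
      refine Real.log_le_log (by norm_num) ?_
      exact_mod_cast hQ
    have := Real.log_two_gt_d9
    linarith
  have hH : ∑ e ∈ Icc 1 Q, 1 / (e : ℝ) ≤ 3 * Real.log Q := by
    have h1 := harmonic_le_one_add_log Q
    rw [harmonic_eq_sum_Icc] at h1
    push_cast at h1
    have h2 : ∑ e ∈ Icc 1 Q, 1 / (e : ℝ) = ∑ e ∈ Icc 1 Q, ((e : ℝ))⁻¹ :=
      sum_congr rfl fun e _ => one_div _
    rw [h2]
    linarith
  calc ∑ q ∈ Icc 1 Q, (k : ℝ) ^ q.primeFactors.card / (q.totient : ℝ)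
      ≤ ∑ q ∈ Icc 1 Q, ((2 * k : ℕ) : ℝ) ^ q.primeFactors.card / q := by
        refine sum_le_sum fun q hq => ?_
        rw [mem_Icc] at hq
        have hq0 : (0 : ℝ) < q := by exact_mod_cast hq.1
        have ht0 : (0 : ℝ) < q.totient := by exact_mod_cast Nat.totient_pos.mpr hq.1
        have ht : (q : ℝ) ≤ 2 ^ q.primeFactors.card * q.totient := by
          exact_mod_cast a13a_tot q
        rw [div_le_div_iff₀ ht0 hq0]
        push_cast
        rw [mul_pow]
        calc (k : ℝ) ^ q.primeFactors.card * q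
            ≤ (k : ℝ) ^ q.primeFactors.card * (2 ^ q.primeFactors.card * q.totient) :=
              mul_le_mul_of_nonneg_left ht (by positivity)
          _ = 2 ^ q.primeFactors.card * (k : ℝ) ^ q.primeFactors.card * q.totient := by ring
    _ ≤ (∑ e ∈ Icc 1 Q, 1 / (e : ℝ)) ^ (2 * k) := a13a_sum (2 * k) Q
    _ ≤ (3 * Real.log Q) ^ (2 * k) := by
        refine pow_le_pow_left₀ (sum_nonneg fun e _ => by positivity) hH _
    _ = 3 ^ (2 * k) * Real.log Q ^ (2 * k) := by rw [mul_pow]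

end Pool.Agent.Helper90.MT
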