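import Pool.Agent.Helper90.MT.StA

/-!
Project MT, part A, module A3i: the identity for `Σ χ(n) (log n)^(k+1) n^{-s}`.
-/

namespace Pool.Agent.Helper90.MT

open Finset Complex

theorem A3i_summable (k : ℕ) (s : ℂ) (hs : 1 < s.re) (f : ℕ → ℂ)
    (hf : ∀ n : ℕ, n ≠ 0 → ‖f n‖ ≤ Real.log n ^ k) : LSeriesSummable f s := by
  have hx : (1 + s.re) / 2 < s.re := by linarith
  refine LSeriesSummable_of_isBigO_rpow hx ?_
  have h1 : (fun n : ℕ => Real.log n ^ (k : ℝ)) =O[Filter.atTop]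
      fun n : ℕ => (n : ℝ) ^ ((1 + s.re) / 2 - 1) :=
    (isLittleO_log_rpow_rpow_atTop (k : ℝ) (by linarith : (0 : ℝ) < (1 + s.re) / 2 - 1)).isBigO.comp_tendsto
      tendsto_natCast_atTop_atTop
  refine Asymptotics.IsBigO.trans ?_ h1
  refine Asymptotics.IsBigO.of_bound 1 ?_
  filter_upwards [Filter.eventually_ne_atTop 0] with n hn
  rw [one_mul, Real.rpow_natCast]
  exact (hf n hn).trans (le_abs_self _)

theorem A3i_log_nonneg (n : ℕ) : 0 ≤ Real.log n := Real.log_natCast_nonneg n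

theorem A3i_Lk {q : ℕ} (χ : DirichletCharacter ℂ q) (k : ℕ) (s : ℂ) (hs : 1 < s.re) :
    LSeriesSummable (Lk χ k) s := by
  refine A3i_summable k s hs _ fun n _ => ?_
  unfold Lk
  rw [norm_mul, norm_pow, Complex.norm_real, Real.norm_of_nonneg (A3i_log_nonneg n)]
  calc ‖χ (n : ZMod q)‖ * Real.log n ^ k ≤ 1 * Real.log n ^ k :=
        mul_le_mul_of_nonneg_right (χ.norm_le_one _) (pow_nonneg (A3i_log_nonneg n) k)
    _ = _ := one_mul _

theorem A3i_Dk {q : ℕ} (χ : DirichletCharacter ℂ q) (k : ℕ) (s : ℂ) (hs : 1 < s.re) :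
    LSeriesSummable (Dk χ k) s := by
  refine A3i_summable (k + 1) s hs _ fun n _ => ?_
  unfold Dk
  rw [norm_mul, norm_mul, norm_pow, Complex.norm_real, Complex.norm_real,
    Real.norm_of_nonneg (A3i_log_nonneg n),
    Real.norm_of_nonneg ArithmeticFunction.vonMangoldt_nonneg]
  have h0 := A3i_log_nonneg n
  have h1 : ArithmeticFunction.vonMangoldt n ≤ Real.log n :=
    ArithmeticFunction.vonMangoldt_le_log
  have h2 : ‖χ (n : ZMod q)‖ ≤ 1 := χ.norm_le_one _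
  have h3 : ArithmeticFunction.vonMangoldt n * ‖χ (n : ZMod q)‖ ≤ Real.log n * 1 :=
    mul_le_mul h1 h2 (norm_nonneg _) h0
  rw [mul_one] at h3
  calc ArithmeticFunction.vonMangoldt n * ‖χ (n : ZMod q)‖ * Real.log n ^ k
      ≤ Real.log n * Real.log n ^ k := mul_le_mul_of_nonneg_right h3 (pow_nonneg h0 k)
    _ = Real.log n ^ (k + 1) := by ring

theorem A3i_coeff {q : ℕ} (χ : DirichletCharacter ℂ q) (k n : ℕ) :
    Lk χ (k + 1) n = ∑ i ∈ range (k + 1), (k.choose i : ℂ) *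
      ∑ p ∈ n.divisorsAntidiagonal, Dk χ i p.1 * Lk χ (k - i) p.2 := by
  have h1 : ∑ i ∈ range (k + 1), (k.choose i : ℂ) *
      ∑ p ∈ n.divisorsAntidiagonal, Dk χ i p.1 * Lk χ (k - i) p.2 =
      ∑ p ∈ n.divisorsAntidiagonal, ((ArithmeticFunction.vonMangoldt p.1 : ℝ) : ℂ) *
        (χ (n : ZMod q) * ((Real.log n : ℝ) : ℂ) ^ k) := by
    simp_rw [Finset.mul_sum]
    rw [Finset.sum_comm]
    refine Finset.sum_congr rfl fun p hp => ?_
    have hp1 := Nat.mem_divisorsAntidiagonal.1 hp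
    have hp2 : p.1 ≠ 0 := fun h => by rw [h, zero_mul] at hp1; exact hp1.2 hp1.1.symm
    have hp3 : p.2 ≠ 0 := fun h => by rw [h, mul_zero] at hp1; exact hp1.2 hp1.1.symm
    have hχ : χ (n : ZMod q) = χ (p.1 : ZMod q) * χ (p.2 : ZMod q) := by
      rw [← map_mul, ← Nat.cast_mul, hp1.1]
    have hlog : ((Real.log n : ℝ) : ℂ) = ((Real.log p.1 : ℝ) : ℂ) + ((Real.log p.2 : ℝ) : ℂ) := by
      rw [← Complex.ofReal_add, ← hp1.1, Nat.cast_mul, Real.log_mul (by exact_mod_cast hp2)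
        (by exact_mod_cast hp3)]
    rw [hχ, hlog, add_pow, Finset.mul_sum, Finset.mul_sum]
    refine Finset.sum_congr rfl fun i _ => ?_
    unfold Dk Lk
    ring
  rw [h1, ← Finset.sum_mul]
  have h2 : ∑ p ∈ n.divisorsAntidiagonal, ((ArithmeticFunction.vonMangoldt p.1 : ℝ) : ℂ) =
      ((Real.log n : ℝ) : ℂ) := by
    rw [Nat.sum_divisorsAntidiagonal (fun i _ => ((ArithmeticFunction.vonMangoldt i : ℝ) : ℂ)),
      ← Complex.ofReal_sum, ArithmeticFunction.vonMangoldt_sum]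
  rw [h2]
  unfold Lk
  ring

theorem a3i : StA3i := by
  intro q _ χ k s hs
  have h1 : LSeries (Lk χ (k + 1)) s =
      LSeries (∑ i ∈ range (k + 1), (k.choose i : ℂ) • (LSeries.convolution (Dk χ i) (Lk χ (k - i)))) s := by
    refine LSeries_congr (fun {n} _ => ?_) s
    rw [A3i_coeff χ k n, Finset.sum_apply]
    refine Finset.sum_congr rfl fun i _ => ?_
    rw [Pi.smul_apply, smul_eq_mul, LSeries.convolution_def]
  have hsum : ∀ i ∈ range (k + 1),
      LSeriesSummable ((k.choose i : ℂ) • (LSeries.convolution (Dk χ i) (Lk χ (k - i)))) s := fun i _ =>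
    ((A3i_Dk χ i s hs).convolution (A3i_Lk χ (k - i) s hs)).smul _
  rw [h1, LSeries_sum hsum]
  refine Finset.sum_congr rfl fun i _ => ?_
  rw [LSeries_smul, LSeries_convolution' (A3i_Dk χ i s hs) (A3i_Lk χ (k - i) s hs)]
  ring

end Pool.Agent.Helper90.MT
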