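import Pool.Agent.Helper90.MT.StA

/-!
Project MT, module A4: a Perron type bound.
-/

namespace Pool.Agent.Helper90.MT

open Finset Complex MeasureTheory Filter Topology FourierTransform Set

namespace A4

/-- the complex Laplace transform of `v ↦ v` -/
theorem integrableOn_lin_exp {σ : ℝ} (hσ : 0 < σ) :
    IntegrableOn (fun v : ℝ => v * Real.exp (-σ * v)) (Ioi 0) := by
  have h1 : IntegrableOn (fun v : ℝ => 2 / σ * Real.exp (-(σ / 2) * v)) (Ioi 0) :=
    (exp_neg_integrableOn_Ioi 0 (half_pos hσ)).const_mul _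
  refine Integrable.mono' h1 (by fun_prop) ?_
  refine (ae_restrict_iff' measurableSet_Ioi).2 (Eventually.of_forall fun v hv => ?_)
  have hv0 : (0 : ℝ) < v := hv
  rw [Real.norm_of_nonneg (by positivity)]
  have h2 : σ / 2 * v ≤ Real.exp (σ / 2 * v) := by
    have := Real.add_one_le_exp (σ / 2 * v)
    linarith
  have h3 : Real.exp (-σ * v) = Real.exp (-(σ / 2) * v) * Real.exp (-(σ / 2) * v) := by
    rw [← Real.exp_add]
    congr 1
    ring
  have h4 : v * Real.exp (-(σ / 2) * v) ≤ 2 / σ := by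
    have h5 : Real.exp (σ / 2 * v) * Real.exp (-(σ / 2) * v) = 1 := by
      rw [← Real.exp_add, show σ / 2 * v + -(σ / 2) * v = 0 by ring, Real.exp_zero]
    have h6 : v = 2 / σ * (σ / 2 * v) := by field_simp
    calc v * Real.exp (-(σ / 2) * v) = 2 / σ * (σ / 2 * v * Real.exp (-(σ / 2) * v)) := by
          rw [← mul_assoc, ← h6]
      _ ≤ 2 / σ * (Real.exp (σ / 2 * v) * Real.exp (-(σ / 2) * v)) :=
          mul_le_mul_of_nonneg_left (mul_le_mul_of_nonneg_right h2 (Real.exp_pos _).le)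
            (by positivity)
      _ = 2 / σ := by rw [h5, mul_one]
  rw [h3, ← mul_assoc]
  exact mul_le_mul_of_nonneg_right h4 (Real.exp_pos _).le

theorem norm_exp_neg (c : ℂ) (v : ℝ) : ‖cexp (-(c * v))‖ = Real.exp (-c.re * v) := by
  rw [Complex.norm_exp]
  congr 1
  simp

theorem integral_lin_exp {c : ℂ} (hc : 0 < c.re) :
    ∫ v in Ioi (0 : ℝ), (v : ℂ) * cexp (-(c * v)) = 1 / c ^ 2 := by
  have hc0 : c ≠ 0 := by
    intro h
    rw [h] at hc
    simp at hc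
  have hint : IntegrableOn (fun v : ℝ => (v : ℂ) * cexp (-(c * v))) (Ioi 0) := by
    refine Integrable.mono (integrableOn_lin_exp hc) (by fun_prop) ?_
    refine Eventually.of_forall fun v => ?_
    rw [norm_mul, norm_mul, norm_exp_neg, Complex.norm_real, Real.norm_of_nonneg (Real.exp_pos _).le]
  have hderiv : ∀ v ∈ Ioi (0 : ℝ), HasDerivAt
      (fun v : ℝ => -(((v : ℂ) / c + 1 / c ^ 2) * cexp (-(c * v)))) ((v : ℂ) * cexp (-(c * v))) v := by
    intro v _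
    have h0 : HasDerivAt (fun v : ℝ => (v : ℂ)) 1 v := Complex.ofRealCLM.hasDerivAt
    have h1 : HasDerivAt (fun v : ℝ => cexp (-(c * v))) (cexp (-(c * v)) * -(c * 1)) v :=
      ((h0.const_mul c).neg).cexp
    have h2 : HasDerivAt (fun v : ℝ => (v : ℂ) / c + 1 / c ^ 2) (1 / c) v :=
      (h0.div_const c).add_const _
    have h3 := (h2.mul h1).neg
    refine h3.congr_deriv ?_
    field_simp
    ring
  have hlim : Tendsto (fun v : ℝ => -(((v : ℂ) / c + 1 / c ^ 2) * cexp (-(c * v)))) atTop (𝓝 0) := by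
    rw [← neg_zero]
    refine Tendsto.neg ?_
    rw [tendsto_zero_iff_norm_tendsto_zero]
    have h1 : Tendsto (fun v : ℝ => ‖c‖⁻¹ * (v ^ (1 : ℝ) * Real.exp (-c.re * v)) +
        ‖(1 / c ^ 2)‖ * (v ^ (0 : ℝ) * Real.exp (-c.re * v))) atTop (𝓝 (‖c‖⁻¹ * 0 + ‖(1 / c ^ 2)‖ * 0)) :=
      ((tendsto_rpow_mul_exp_neg_mul_atTop_nhds_zero 1 c.re hc).const_mul _).add
        ((tendsto_rpow_mul_exp_neg_mul_atTop_nhds_zero 0 c.re hc).const_mul _)
    rw [mul_zero, mul_zero, add_zero] at h1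
    refine squeeze_zero' (Eventually.of_forall fun v => norm_nonneg _) ?_ h1
    filter_upwards [eventually_ge_atTop (0 : ℝ)] with v hv
    rw [norm_mul, norm_exp_neg, Real.rpow_one, Real.rpow_zero, one_mul]
    calc ‖(v : ℂ) / c + 1 / c ^ 2‖ * Real.exp (-c.re * v)
        ≤ (‖(v : ℂ) / c‖ + ‖(1 / c ^ 2)‖) * Real.exp (-c.re * v) :=
          mul_le_mul_of_nonneg_right (norm_add_le _ _) (Real.exp_pos _).le
      _ = _ := by
          rw [norm_div, Complex.norm_real, Real.norm_of_nonneg hv]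
          ring
  have h := integral_Ioi_of_hasDerivAt_of_tendsto (f := fun v : ℝ =>
    -(((v : ℂ) / c + 1 / c ^ 2) * cexp (-(c * v)))) (by fun_prop) hderiv hint hlim
  rw [h]
  simp

/-- The kernel. -/
noncomputable def gk (σ v : ℝ) : ℂ := ((max v 0 * Real.exp (-σ * v) : ℝ) : ℂ)

theorem continuous_gk (σ : ℝ) : Continuous (gk σ) := by
  unfold gk
  fun_prop

theorem gk_eq (σ : ℝ) : gk σ = (Ioi (0 : ℝ)).indicator
    (fun v : ℝ => ((v * Real.exp (-σ * v) : ℝ) : ℂ)) := by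
  funext v
  by_cases hv : v ∈ Ioi (0 : ℝ)
  · rw [indicator_of_mem hv, gk, max_eq_left (le_of_lt hv)]
  · rw [indicator_of_notMem hv, gk, max_eq_right (not_lt.1 hv), zero_mul, ofReal_zero]

theorem integrable_gk {σ : ℝ} (hσ : 0 < σ) : Integrable (gk σ) := by
  rw [gk_eq, integrable_indicator_iff measurableSet_Ioi]
  exact (integrableOn_lin_exp hσ).ofReal

theorem fourier_gk {σ : ℝ} (hσ : 0 < σ) (ξ : ℝ) :
    𝓕 (gk σ) ξ = 1 / ((σ : ℂ) + (2 * Real.pi * ξ : ℝ) * I) ^ 2 := by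
  have hre : ((σ : ℂ) + (2 * Real.pi * ξ : ℝ) * I).re = σ := by simp
  rw [Real.fourier_real_eq_integral_exp_smul, ← integral_lin_exp (c := (σ : ℂ) +
    (2 * Real.pi * ξ : ℝ) * I) (by rw [hre]; exact hσ), gk_eq, ← integral_indicator measurableSet_Ioi]
  congr 1
  funext v
  by_cases hv : v ∈ Ioi (0 : ℝ)
  · rw [indicator_of_mem hv, indicator_of_mem hv, smul_eq_mul, ofReal_mul v, ofReal_exp,
      mul_left_comm, ← Complex.exp_add]
    congr 2
    push_cast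
    ring
  · rw [indicator_of_notMem hv, indicator_of_notMem hv, smul_zero]

theorem normSq_s (σ ξ : ℝ) : ‖((σ : ℂ) + (ξ : ℝ) * I) ^ 2‖ = σ ^ 2 + ξ ^ 2 := by
  rw [norm_pow, ← Complex.normSq_eq_norm_sq, Complex.normSq_apply]
  simp
  ring

theorem s_ne {σ : ℝ} (hσ : 1 < σ) (ξ : ℝ) : (σ : ℂ) + (ξ : ℝ) * I ≠ 0 := by
  intro h
  have := congrArg Complex.re h
  simp at this
  linarith

theorem inv_le {σ : ℝ} (hσ : 1 < σ) (ξ : ℝ) :
    ‖1 / ((σ : ℂ) + (2 * Real.pi * ξ : ℝ) * I) ^ 2‖ ≤ (1 + ξ ^ 2)⁻¹ := by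
  rw [norm_div, norm_one, normSq_s, one_div]
  refine inv_anti₀ (by positivity) ?_
  have h1 : (1 : ℝ) ≤ σ ^ 2 := one_le_pow₀ hσ.le
  have h2 : 1 ≤ (2 * Real.pi) ^ 2 := one_le_pow₀ (by linarith [Real.pi_gt_three])
  rw [mul_pow]
  nlinarith [sq_nonneg ξ]

theorem continuous_inv {σ : ℝ} (hσ : 1 < σ) :
    Continuous (fun ξ : ℝ => 1 / ((σ : ℂ) + (2 * Real.pi * ξ : ℝ) * I) ^ 2) := by
  refine Continuous.div continuous_const (by fun_prop) fun ξ => ?_
  exact pow_ne_zero _ (s_ne hσ _)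

theorem integrable_inv {σ : ℝ} (hσ : 1 < σ) :
    Integrable (fun ξ : ℝ => 1 / ((σ : ℂ) + (2 * Real.pi * ξ : ℝ) * I) ^ 2) := by
  refine Integrable.mono' integrable_inv_one_add_sq (continuous_inv hσ).aestronglyMeasurable ?_
  exact Eventually.of_forall fun ξ => inv_le hσ ξ

/-- Perron's formula. -/
theorem perron {σ : ℝ} (hσ : 1 < σ) (u : ℝ) : ((max u 0 : ℝ) : ℂ) =
    ∫ ξ : ℝ, cexp (u * ((σ : ℂ) + (2 * Real.pi * ξ : ℝ) * I)) *
      (1 / ((σ : ℂ) + (2 * Real.pi * ξ : ℝ) * I) ^ 2) := by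
  have hF : 𝓕 (gk σ) = fun ξ : ℝ => 1 / ((σ : ℂ) + (2 * Real.pi * ξ : ℝ) * I) ^ 2 :=
    funext fun ξ => fourier_gk (by linarith) ξ
  have h1 := congrFun (Continuous.fourierInv_fourier_eq (continuous_gk σ) (integrable_gk (by linarith))
    (by rw [hF]; exact integrable_inv hσ)) u
  rw [Real.fourierInv_eq', hF] at h1
  have h2 : ((max u 0 : ℝ) : ℂ) = cexp (u * σ) * gk σ u := by
    unfold gk
    rw [ofReal_mul, mul_left_comm, ofReal_exp, ← Complex.exp_add]
    have : (u : ℂ) * σ + ((-σ * u : ℝ) : ℂ) = 0 := by push_cast; ring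
    rw [this, Complex.exp_zero, mul_one]
  rw [h2, ← h1, ← integral_const_mul]
  congr 1
  funext ξ
  rw [smul_eq_mul, ← mul_assoc, ← Complex.exp_add, RCLike.inner_apply, conj_trivial]
  congr 2
  push_cast
  ring

/-- The weight. -/
theorem weight (m : ℕ) : ∃ K : ℝ, 0 < K ∧ ∀ ξ : ℝ,
    (1 + Real.log (|2 * Real.pi * ξ| + 3)) ^ m * (1 + ξ ^ 2)⁻¹ ≤ K * (1 + ‖ξ‖) ^ (-(3 / 2 : ℝ)) := by
  set ε : ℝ := 1 / (2 * (m + 1)) with hε
  have hε0 : 0 < ε := by positivity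
  refine ⟨2 * (1 + 7 / ε) ^ m, by positivity, fun ξ => ?_⟩
  set r : ℝ := 1 + ‖ξ‖ with hr
  have hr1 : 1 ≤ r := by rw [hr]; linarith [norm_nonneg ξ]
  have hr0 : 0 < r := by linarith
  have hpi := Real.pi_lt_d2
  have hz : |2 * Real.pi * ξ| + 3 ≤ 7 * r := by
    rw [abs_mul, abs_of_pos (by positivity), hr, Real.norm_eq_abs]
    nlinarith [abs_nonneg ξ]
  have hlog0 : 0 ≤ Real.log (|2 * Real.pi * ξ| + 3) :=
    Real.log_nonneg (by linarith [abs_nonneg (2 * Real.pi * ξ)])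
  have hε1 : ε ≤ 1 := by
    rw [hε, div_le_one (by positivity)]
    have : (0 : ℝ) ≤ m := Nat.cast_nonneg m
    linarith
  have hlog : 1 + Real.log (|2 * Real.pi * ξ| + 3) ≤ (1 + 7 / ε) * r ^ ε := by
    have h1 : Real.log (|2 * Real.pi * ξ| + 3) ≤ Real.log (7 * r) :=
      Real.log_le_log (by positivity) hz
    have h2 : Real.log (7 * r) ≤ (7 * r) ^ ε / ε := Real.log_le_rpow_div (by positivity) hε0
    have h3 : (7 * r) ^ ε = 7 ^ ε * r ^ ε := Real.mul_rpow (by norm_num) hr0.le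
    have h4 : (7 : ℝ) ^ ε ≤ 7 := by
      calc (7 : ℝ) ^ ε ≤ 7 ^ (1 : ℝ) := Real.rpow_le_rpow_of_exponent_le (by norm_num) hε1
        _ = 7 := Real.rpow_one _
    have h5 : 1 ≤ r ^ ε := Real.one_le_rpow hr1 hε0.le
    calc 1 + Real.log (|2 * Real.pi * ξ| + 3) ≤ r ^ ε + 7 * r ^ ε / ε := by
          refine add_le_add h5 (h1.trans (h2.trans ?_))
          rw [h3]
          gcongr
      _ = (1 + 7 / ε) * r ^ ε := by ring
  have hpow : (1 + Real.log (|2 * Real.pi * ξ| + 3)) ^ m ≤ (1 + 7 / ε) ^ m * r ^ (1 / 2 : ℝ) := by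
    calc (1 + Real.log (|2 * Real.pi * ξ| + 3)) ^ m ≤ ((1 + 7 / ε) * r ^ ε) ^ m :=
          pow_le_pow_left₀ (by linarith) hlog m
      _ = (1 + 7 / ε) ^ m * r ^ (ε * m) := by
          rw [mul_pow, Real.rpow_mul hr0.le, Real.rpow_natCast]
      _ ≤ (1 + 7 / ε) ^ m * r ^ (1 / 2 : ℝ) := by
          refine mul_le_mul_of_nonneg_left ?_ (by positivity)
          refine Real.rpow_le_rpow_of_exponent_le hr1 ?_
          rw [hε, one_div_mul_eq_div, div_le_div_iff₀ (by positivity) (by norm_num)]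
          have : (0 : ℝ) ≤ m := Nat.cast_nonneg m
          linarith
  have hsq : (1 + ξ ^ 2)⁻¹ ≤ 2 * r ^ (-(2 : ℝ)) := by
    rw [Real.rpow_neg hr0.le, ← div_eq_mul_inv, inv_eq_one_div, div_le_div_iff₀ (by positivity)
      (by positivity), show (2 : ℝ) = ((2 : ℕ) : ℝ) by norm_num, Real.rpow_natCast, hr,
      Real.norm_eq_abs]
    push_cast
    nlinarith [sq_nonneg (1 - |ξ|), sq_abs ξ]
  calc (1 + Real.log (|2 * Real.pi * ξ| + 3)) ^ m * (1 + ξ ^ 2)⁻¹
      ≤ ((1 + 7 / ε) ^ m * r ^ (1 / 2 : ℝ)) * (2 * r ^ (-(2 : ℝ))) :=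
        mul_le_mul hpow hsq (by positivity) (by positivity)
    _ = 2 * (1 + 7 / ε) ^ m * r ^ (-(3 / 2 : ℝ)) := by
        have : r ^ (-(3 / 2 : ℝ)) = r ^ (1 / 2 : ℝ) * r ^ (-(2 : ℝ)) := by
          rw [← Real.rpow_add hr0]
          norm_num
        rw [this]
        ring

end A4

open A4 in
/-- A4: Perron bound -/
theorem a4 : StA4 := by
  intro m
  obtain ⟨K, hK0, hK⟩ := weight m
  have hint : Integrable (fun ξ : ℝ => (1 + ‖ξ‖) ^ (-(3 / 2 : ℝ))) :=
    integrable_one_add_norm (by norm_num [Module.finrank_self])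
  set J : ℝ := ∫ ξ : ℝ, (1 + ‖ξ‖) ^ (-(3 / 2 : ℝ)) with hJ
  have hJ0 : 0 ≤ J := integral_nonneg fun ξ => by positivity
  refine ⟨K * J + 1, by positivity, ?_⟩
  intro f σ x y B hσ1 hσ2 hx hy hB hf hL
  have hx0 : 0 < x := by linarith
  set s : ℝ → ℂ := fun ξ => (σ : ℂ) + (2 * Real.pi * ξ : ℝ) * I with hs
  have hsre : ∀ ξ, (s ξ).re = σ := fun ξ => by simp [hs]
  have hscont : Continuous s := by rw [hs]; fun_prop
  have hs0 : ∀ ξ, s ξ ≠ 0 := fun ξ => s_ne hσ1 _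
  set F : ℕ → ℝ → ℂ := fun n ξ =>
    cexp ((Real.log x : ℝ) * s ξ) * LSeries.term f (s ξ) n * (1 / (s ξ) ^ 2) with hF
  have hexp : ∀ ξ, ‖cexp ((Real.log x : ℝ) * s ξ)‖ = x ^ σ := by
    intro ξ
    rw [Complex.norm_exp, Real.rpow_def_of_pos hx0]
    congr 1
    rw [re_ofReal_mul, hsre]
  have hterm : ∀ n ξ, ‖LSeries.term f (s ξ) n‖ = ‖LSeries.term f (σ : ℂ) n‖ := by
    intro n ξ
    rw [LSeries.norm_term_eq, LSeries.norm_term_eq, hsre, ofReal_re]
  have hnorm : ∀ n ξ, ‖F n ξ‖ = x ^ σ * ‖LSeries.term f (σ : ℂ) n‖ * ‖1 / (s ξ) ^ 2‖ := by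
    intro n ξ
    rw [hF, norm_mul, norm_mul, hexp, hterm]
  have hFform : ∀ n, n ≠ 0 → F n = fun ξ => f n * (cexp ((Real.log (x / n) : ℝ) * s ξ) *
      (1 / (s ξ) ^ 2)) := by
    intro n hn
    funext ξ
    have hn0 : (n : ℂ) ≠ 0 := Nat.cast_ne_zero.2 hn
    have hn1 : (n : ℝ) ≠ 0 := Nat.cast_ne_zero.2 hn
    rw [hF]
    simp only
    rw [LSeries.term_of_ne_zero hn, Real.log_div hx0.ne' hn1, ofReal_sub, sub_mul, Complex.exp_sub,
      cpow_def_of_ne_zero hn0, Complex.ofReal_log (Nat.cast_nonneg n), ofReal_natCast]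
    ring
  have hFint : ∀ n, Integrable (F n) := by
    intro n
    by_cases hn : n = 0
    · have : F n = fun _ => 0 := by
        funext ξ
        rw [hF, hn]
        simp
      rw [this]
      exact integrable_zero _ _ _
    · have hb : Integrable (fun ξ : ℝ => x ^ σ * ‖LSeries.term f (σ : ℂ) n‖ * ‖1 / (s ξ) ^ 2‖) :=
        (integrable_inv hσ1).norm.const_mul _
      refine Integrable.mono' hb ?_ (Eventually.of_forall fun ξ => (hnorm n ξ).le)
      rw [hFform n hn]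
      refine Continuous.aestronglyMeasurable ?_
      refine continuous_const.mul (Continuous.mul (by fun_prop) ?_)
      exact continuous_inv hσ1
  have hFval : ∀ n, ∫ ξ, F n ξ = f n * ((Real.posLog (x / n) : ℝ) : ℂ) := by
    intro n
    by_cases hn : n = 0
    · have h0 : F n = fun _ => 0 := by
        funext ξ
        rw [hF, hn]
        simp
      rw [h0, integral_zero, hn]
      simp
    · rw [hFform n hn, integral_const_mul, ← perron hσ1, max_comm]
      rfl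
  have hFsum : Summable fun n => ∫ ξ, ‖F n ξ‖ := by
    have h1 : (fun n => ∫ ξ, ‖F n ξ‖) = fun n => ‖LSeries.term f (σ : ℂ) n‖ *
        (x ^ σ * ∫ ξ, ‖1 / (s ξ) ^ 2‖) := by
      funext n
      simp only [hnorm]
      rw [integral_const_mul]
      ring
    rw [h1]
    exact hf.norm.mul_right _
  have hmain := hasSum_integral_of_summable_integral_norm hFint hFsum
  have hG : ∀ ξ, ∑' n, F n ξ = cexp ((Real.log x : ℝ) * s ξ) * LSeries f (s ξ) * (1 / (s ξ) ^ 2) := by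
    intro ξ
    rw [hF]
    simp only
    rw [tsum_mul_right, tsum_mul_left]
    rfl
  have hsum : ∑ n ∈ Ioc 0 ⌊x⌋₊, f n * ((Real.posLog (x / n) : ℝ) : ℂ) =
      ∫ ξ, cexp ((Real.log x : ℝ) * s ξ) * LSeries f (s ξ) * (1 / (s ξ) ^ 2) := by
    have h1 := hmain.tsum_eq
    simp only [hG, hFval] at h1
    rw [← h1]
    refine (tsum_eq_sum fun n hn => ?_).symm
    rw [Finset.mem_Ioc, not_and_or, not_lt, not_le] at hn
    rcases hn with hn | hn
    · have : n = 0 := by omega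
      rw [this]
      simp
    · have h2 : x < n := (Nat.floor_lt hx0.le).1 hn
      have h3 : Real.posLog (x / n) = 0 := by
        rw [Real.posLog_eq_zero_iff, abs_of_nonneg (by positivity), div_le_one (by linarith)]
        exact h2.le
      rw [h3]
      simp
  rw [hsum]
  have hb : Integrable (fun ξ : ℝ => x ^ σ * B * y ^ m * (K * (1 + ‖ξ‖) ^ (-(3 / 2 : ℝ)))) :=
    (hint.const_mul K).const_mul _
  refine (norm_integral_le_of_norm_le hb (Eventually.of_forall fun ξ => ?_)).trans ?_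
  · rw [norm_mul, norm_mul, hexp]
    have hlog0 : 0 ≤ Real.log (|2 * Real.pi * ξ| + 3) :=
      Real.log_nonneg (by linarith [abs_nonneg (2 * Real.pi * ξ)])
    have h1 : ‖LSeries f (s ξ)‖ ≤ B * (y + Real.log (|2 * Real.pi * ξ| + 3)) ^ m := hL _
    have h2 : (y + Real.log (|2 * Real.pi * ξ| + 3)) ^ m ≤
        y ^ m * (1 + Real.log (|2 * Real.pi * ξ| + 3)) ^ m := by
      rw [← mul_pow]
      refine pow_le_pow_left₀ (by linarith) ?_ m
      nlinarith
    have h3 : ‖1 / (s ξ) ^ 2‖ ≤ (1 + ξ ^ 2)⁻¹ := inv_le hσ1 ξ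
    calc x ^ σ * ‖LSeries f (s ξ)‖ * ‖1 / (s ξ) ^ 2‖
        ≤ x ^ σ * (B * (y ^ m * (1 + Real.log (|2 * Real.pi * ξ| + 3)) ^ m)) * (1 + ξ ^ 2)⁻¹ := by
          refine mul_le_mul (mul_le_mul_of_nonneg_left (h1.trans
            (mul_le_mul_of_nonneg_left h2 hB)) (by positivity)) h3 (norm_nonneg _) (by positivity)
      _ = x ^ σ * B * y ^ m * ((1 + Real.log (|2 * Real.pi * ξ| + 3)) ^ m * (1 + ξ ^ 2)⁻¹) := by ring
      _ ≤ x ^ σ * B * y ^ m * (K * (1 + ‖ξ‖) ^ (-(3 / 2 : ℝ))) :=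
          mul_le_mul_of_nonneg_left (hK ξ) (by positivity)
  · rw [integral_const_mul, integral_const_mul, ← hJ]
    have : 0 ≤ B * x ^ σ * y ^ m := by positivity
    nlinarith

end Pool.Agent.Helper90.MT
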