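import Pool.Agent.Helper90.MT.StA

namespace Pool.Agent.Helper90.MT

open Finset Complex

namespace A5

/-- second derivative of `v ↦ v^(-k) (L - v)` -/
noncomputable def F (k : ℕ) (L v : ℝ) : ℝ :=
  k * (k + 1) * (v ^ (k + 2))⁻¹ * (L - v) + 2 * k * (v ^ (k + 1))⁻¹

theorem F_nonneg (k : ℕ) {L v : ℝ} (h0 : 0 < v) (h1 : v ≤ L) : 0 ≤ F k L v := by
  have : 0 ≤ L - v := by linarith
  unfold F
  positivity

theorem contF (k : ℕ) (L : ℝ) {s : Set ℝ} (hs : ∀ v ∈ s, 0 < v) : ContinuousOn (F k L) s := by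
  unfold F
  have h1 : ∀ m : ℕ, ContinuousOn (fun v : ℝ => (v ^ m)⁻¹) s := by
    intro m
    apply ContinuousOn.inv₀ (by fun_prop)
    intro v hv
    exact pow_ne_zero _ (hs v hv).ne'
  have h2 := h1 (k + 2)
  have h3 := h1 (k + 1)
  fun_prop

/-- Taylor formula with integral remainder -/
theorem taylor (k : ℕ) {L u : ℝ} (h0 : 0 < u) (h1 : u ≤ L) :
    ∫ v in u..L, (v - u) * F k L v = (u ^ k)⁻¹ * (L - u) - (L ^ k)⁻¹ * (L - u) := by
  have hpos : ∀ v ∈ Set.uIcc u L, 0 < v := by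
    intro v hv
    rw [Set.uIcc_of_le h1] at hv
    exact lt_of_lt_of_le h0 hv.1
  have hd : ∀ v ∈ Set.uIcc u L, HasDerivAt
      (fun v : ℝ => (v - u) * (-(k : ℝ) * (v ^ (k + 1))⁻¹ * (L - v) - (v ^ k)⁻¹)
        - (v ^ k)⁻¹ * (L - v)) ((v - u) * F k L v) v := by
    intro v hv
    have hv0 := hpos v hv
    have hi : ∀ m : ℕ, HasDerivAt (fun v : ℝ => (v ^ m)⁻¹) (-(m : ℝ) * (v ^ (m + 1))⁻¹) v := by
      intro m
      have h := (hasDerivAt_pow m v).inv (pow_ne_zero _ hv0.ne')
      refine HasDerivAt.congr_deriv (f := fun v : ℝ => (v ^ m)⁻¹) h ?_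
      have hv1 : v ≠ 0 := hv0.ne'
      rcases m with _ | m
      · simp
      · simp only [Nat.add_sub_cancel]
        field_simp
        ring
    have e1 := hi k
    have e2 := hi (k + 1)
    have e3 : HasDerivAt (fun v : ℝ => L - v) (-1) v := by
      simpa using (hasDerivAt_id v).const_sub L
    have e4 : HasDerivAt (fun v : ℝ => v - u) 1 v := by
      simpa using (hasDerivAt_id v).sub_const u
    have e5 := ((e4.mul ((((e2.const_mul (-(k : ℝ))).mul e3)).sub e1))).sub (e1.mul e3)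
    refine HasDerivAt.congr_deriv e5 ?_
    unfold F
    have hv1 : v ≠ 0 := hv0.ne'
    simp only [Pi.mul_apply, Pi.sub_apply]
    field_simp
    push_cast
    ring
  rw [intervalIntegral.integral_eq_sub_of_hasDerivAt hd]
  · ring
  · apply ContinuousOn.intervalIntegrable
    exact (by fun_prop : ContinuousOn (fun v : ℝ => v - u) _).mul (contF k L hpos)

/-- size of `F` -/
theorem exists_bound (k : ℕ) : ∃ C : ℝ, 0 < C ∧ ∀ L v : ℝ, Real.log 2 ≤ v → v ≤ L →
    F k L v ≤ C * (L ^ k)⁻¹ * Real.exp (3 / 4 * (L - v)) := by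
  refine ⟨16 * ((k : ℝ) + 1) ^ 2 * (4 * (k : ℝ) + 4) ^ k, by positivity, ?_⟩
  intro L v h2 hL
  have hlog : (1 / 2 : ℝ) < Real.log 2 := by linarith [Real.log_two_gt_d9]
  have hv : 0 < v := by linarith
  have hL0 : 0 < L := by linarith
  obtain ⟨d, hd⟩ : ∃ d, d = L - v := ⟨_, rfl⟩
  have hd0 : 0 ≤ d := by linarith
  have hvi : v⁻¹ ≤ 2 := by
    rw [inv_le_comm₀ hv (by norm_num)]
    linarith
  have hk0 : (0 : ℝ) ≤ k := by positivity
  -- comparison of the powers
  have h3 : L / v ≤ (4 * k + 4) * Real.exp (d / (2 * k + 2)) := by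
    have e1 : L / v = 1 + d * v⁻¹ := by
      rw [hd]; field_simp; ring
    have e2 : 1 + d * v⁻¹ ≤ 1 + d * 2 := by nlinarith
    have e3 : d / (2 * k + 2) + 1 ≤ Real.exp (d / (2 * k + 2)) := Real.add_one_le_exp _
    have e4 : (4 * k + 4) * (d / (2 * k + 2) + 1) = 2 * d + (4 * k + 4) := by
      field_simp
      ring
    have e5 : (4 * k + 4) * (d / (2 * k + 2) + 1) ≤
        (4 * k + 4) * Real.exp (d / (2 * k + 2)) := by gcongr
    linarith
  have h4 : (L / v) ^ k ≤ (4 * k + 4) ^ k * Real.exp (d / 2) := by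
    calc (L / v) ^ k ≤ ((4 * k + 4) * Real.exp (d / (2 * k + 2))) ^ k := by gcongr
      _ = (4 * k + 4) ^ k * Real.exp (k * (d / (2 * k + 2))) := by
        rw [mul_pow, ← Real.exp_nat_mul]
      _ ≤ (4 * k + 4) ^ k * Real.exp (d / 2) := by
        gcongr
        rw [← mul_div_assoc, div_le_div_iff₀ (by positivity) (by norm_num)]
        nlinarith
  have h5 : (v ^ k)⁻¹ ≤ (4 * k + 4) ^ k * Real.exp (d / 2) * (L ^ k)⁻¹ := by
    have : (v ^ k)⁻¹ = (L / v) ^ k * (L ^ k)⁻¹ := by
      rw [div_pow]; field_simp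
    rw [this]
    gcongr
  have h6 : d + 1 ≤ 4 * Real.exp (d / 4) := by
    have := Real.add_one_le_exp (d / 4)
    linarith
  have h7 : F k L v ≤ (v ^ k)⁻¹ * (4 * (k + 1) ^ 2 * (d + 1)) := by
    have e1 : F k L v = (v ^ k)⁻¹ * (k * (k + 1) * (v⁻¹ * v⁻¹) * d + 2 * k * v⁻¹) := by
      unfold F
      rw [← hd]
      have : v ≠ 0 := hv.ne'
      field_simp
      ring
    rw [e1]
    have e2 : v⁻¹ * v⁻¹ ≤ 4 := by nlinarith [inv_pos.mpr hv]
    have e3 : (k : ℝ) * (k + 1) * (v⁻¹ * v⁻¹) * d ≤ k * (k + 1) * 4 * d := by gcongr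
    have e4 : 2 * (k : ℝ) * v⁻¹ ≤ 2 * k * 2 := by gcongr
    have e5 : (k : ℝ) * (k + 1) * (v⁻¹ * v⁻¹) * d + 2 * k * v⁻¹ ≤ 4 * (k + 1) ^ 2 * (d + 1) := by
      nlinarith [mul_nonneg hk0 hd0]
    have : 0 ≤ (v ^ k)⁻¹ := by positivity
    gcongr
  calc F k L v ≤ (v ^ k)⁻¹ * (4 * (k + 1) ^ 2 * (d + 1)) := h7
    _ ≤ ((4 * k + 4) ^ k * Real.exp (d / 2) * (L ^ k)⁻¹) *
        (4 * (k + 1) ^ 2 * (4 * Real.exp (d / 4))) := by gcongr
    _ = 16 * ((k : ℝ) + 1) ^ 2 * (4 * (k : ℝ) + 4) ^ k * (L ^ k)⁻¹ *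
        (Real.exp (d / 2) * Real.exp (d / 4)) := by ring
    _ = 16 * ((k : ℝ) + 1) ^ 2 * (4 * (k : ℝ) + 4) ^ k * (L ^ k)⁻¹ *
        Real.exp (3 / 4 * (L - v)) := by
      rw [← Real.exp_add, hd]; ring_nf

/-- `log⁺ (e^v / n)` -/
theorem posLog_exp {n : ℕ} (hn : 1 ≤ n) (v : ℝ) :
    Real.posLog (Real.exp v / n) = max 0 (v - Real.log n) := by
  have : (n : ℝ) ≠ 0 := by positivity
  rw [Real.posLog, Real.log_div (Real.exp_pos v).ne' this, Real.log_exp]

/-- formula for one term -/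
theorem term (k : ℕ) {N n : ℕ} (h2 : 2 ≤ n) (hN : n ≤ N) :
    ∫ v in (Real.log 2)..(Real.log N), Real.posLog (Real.exp v / n) * F k (Real.log N) v =
      ((Real.log n) ^ k)⁻¹ * Real.posLog ((N : ℝ) / n)
        - ((Real.log N) ^ k)⁻¹ * Real.posLog ((N : ℝ) / n) := by
  have h2' : (2 : ℝ) ≤ n := by exact_mod_cast h2
  have hN' : (n : ℝ) ≤ N := by exact_mod_cast hN
  have hl2 : 0 < Real.log 2 := Real.log_pos (by norm_num)
  have hln : Real.log 2 ≤ Real.log n := Real.log_le_log (by norm_num) h2'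
  have hlN : Real.log n ≤ Real.log N := Real.log_le_log (by linarith) hN'
  have hpos1 : ∀ v ∈ Set.uIcc (Real.log 2) (Real.log n), 0 < v := by
    intro v hv
    rw [Set.uIcc_of_le hln] at hv
    exact lt_of_lt_of_le hl2 hv.1
  have hpos2 : ∀ v ∈ Set.uIcc (Real.log n) (Real.log N), 0 < v := by
    intro v hv
    rw [Set.uIcc_of_le hlN] at hv
    exact lt_of_lt_of_le (lt_of_lt_of_le hl2 hln) hv.1
  have hc : Continuous (fun v : ℝ => Real.posLog (Real.exp v / n)) := by
    have : (fun v : ℝ => Real.posLog (Real.exp v / n)) = fun v => max 0 (v - Real.log n) := by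
      funext v
      exact posLog_exp (by omega) v
    rw [this]
    fun_prop
  rw [← intervalIntegral.integral_add_adjacent_intervals (b := Real.log n)]
  · have e1 : ∫ v in (Real.log 2)..(Real.log n),
        Real.posLog (Real.exp v / n) * F k (Real.log N) v = 0 := by
      rw [intervalIntegral.integral_congr (g := fun _ => (0 : ℝ))]
      · simp
      · intro v hv
        rw [Set.uIcc_of_le hln] at hv
        simp only
        rw [posLog_exp (by omega), max_eq_left (by linarith [hv.2]), zero_mul]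
    have e2 : ∫ v in (Real.log n)..(Real.log N),
        Real.posLog (Real.exp v / n) * F k (Real.log N) v =
        ∫ v in (Real.log n)..(Real.log N), (v - Real.log n) * F k (Real.log N) v := by
      apply intervalIntegral.integral_congr
      intro v hv
      rw [Set.uIcc_of_le hlN] at hv
      simp only
      rw [posLog_exp (by omega), max_eq_right (by linarith [hv.1])]
    rw [e1, e2, taylor k (by linarith) hlN, zero_add]
    have e3 : Real.posLog ((N : ℝ) / n) = Real.log N - Real.log n := by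
      rw [Real.posLog, Real.log_div (by linarith) (by linarith), max_eq_right (by linarith)]
    rw [e3]
  · exact (hc.continuousOn.mul (contF k _ hpos1)).intervalIntegrable
  · exact (hc.continuousOn.mul (contF k _ hpos2)).intervalIntegrable

end A5

open A5 in
theorem a5 : StA5 := by
  intro k
  obtain ⟨C, hC, hF⟩ := exists_bound k
  refine ⟨1 + 4 * C, by positivity, ?_⟩
  intro a B ha hB N hN
  obtain ⟨L, hL⟩ : ∃ L, L = Real.log N := ⟨_, rfl⟩
  have hN' : (2 : ℝ) ≤ N := by exact_mod_cast hN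
  have hN1 : (1 : ℝ) ≤ N := by linarith
  have hl2 : 0 < Real.log 2 := Real.log_pos (by norm_num)
  have h2L : Real.log 2 ≤ L := by rw [hL]; exact Real.log_le_log (by norm_num) hN'
  have hL0 : 0 < L := by linarith
  have hB0 : 0 ≤ B := by
    have := (norm_nonneg _).trans (hB 1 le_rfl)
    linarith
  obtain ⟨c, hc⟩ : ∃ c : ℕ → ℂ, c = fun n => a n * ((Real.log n : ℝ) : ℂ) ^ k := ⟨_, rfl⟩
  have hc' : ∀ n, a n * ((Real.log n : ℝ) : ℂ) ^ k = c n := by intro n; rw [hc]
  simp only [hc'] at hB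
  -- the integrand
  have hterm : ∀ n ∈ Ioc 0 N, a n * ((Real.posLog ((N : ℝ) / n) : ℝ) : ℂ) =
      (((L ^ k)⁻¹ : ℝ) : ℂ) * (c n * ((Real.posLog ((N : ℝ) / n) : ℝ) : ℂ)) +
      ∫ v in (Real.log 2)..L,
        c n * (((Real.posLog (Real.exp v / n) * F k L v : ℝ)) : ℂ) := by
    intro n hn
    rw [mem_Ioc] at hn
    rw [intervalIntegral.integral_const_mul, intervalIntegral.integral_ofReal]
    rcases Nat.lt_or_ge n 2 with h | h
    · have h1 : n = 1 := by omega
      have h0 : c n = 0 := by rw [hc, h1]; simp [ha]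
      rw [h0, h1, ha]
      simp
    · rw [hL, term k h hn.2]
      have hn2 : (2 : ℝ) ≤ n := by exact_mod_cast h
      have hln : 0 < Real.log n := Real.log_pos (by linarith)
      have hln' : ((Real.log n : ℝ) : ℂ) ^ k ≠ 0 := by
        exact_mod_cast pow_ne_zero _ hln.ne'
      rw [hc]
      simp only [Complex.ofReal_sub, Complex.ofReal_mul, Complex.ofReal_inv, Complex.ofReal_pow]
      generalize ((Real.log n : ℝ) : ℂ) = z at hln' ⊢
      field_simp
      ring
  rw [sum_congr rfl hterm, sum_add_distrib, ← mul_sum]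
  have hpos : ∀ v ∈ Set.uIcc (Real.log 2) L, 0 < v := by
    intro v hv
    rw [Set.uIcc_of_le h2L] at hv
    exact lt_of_lt_of_le hl2 hv.1
  have hcont : ∀ n : ℕ, 1 ≤ n → ContinuousOn
      (fun v : ℝ => c n * (((Real.posLog (Real.exp v / n) * F k L v : ℝ)) : ℂ))
      (Set.uIcc (Real.log 2) L) := by
    intro n hn
    have h1 : Continuous (fun v : ℝ => Real.posLog (Real.exp v / n)) := by
      have : (fun v : ℝ => Real.posLog (Real.exp v / n)) = fun v => max 0 (v - Real.log n) := by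
        funext v
        exact posLog_exp hn v
      rw [this]
      fun_prop
    apply ContinuousOn.mul continuousOn_const
    exact Complex.continuous_ofReal.comp_continuousOn (h1.continuousOn.mul (contF k _ hpos))
  rw [← intervalIntegral.integral_finsetSum
    (fun n hn => (hcont n (mem_Ioc.mp hn).1).intervalIntegrable)]
  -- identify the sum inside
  have hsum : ∀ v : ℝ, v ≤ L → Real.log 2 ≤ v →
      ‖∑ n ∈ Ioc 0 N, c n * (((Real.posLog (Real.exp v / n) * F k L v : ℝ)) : ℂ)‖ ≤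
        B * Real.exp v * F k L v := by
    intro v hv hv2
    have hFn : 0 ≤ F k L v := F_nonneg k (by linarith) hv
    have e1 : ∑ n ∈ Ioc 0 N, c n * (((Real.posLog (Real.exp v / n) * F k L v : ℝ)) : ℂ) =
        (∑ n ∈ Ioc 0 ⌊Real.exp v⌋₊, c n * ((Real.posLog (Real.exp v / n) : ℝ) : ℂ)) *
          ((F k L v : ℝ) : ℂ) := by
      rw [sum_mul]
      have hle : ⌊Real.exp v⌋₊ ≤ N := by
        apply Nat.floor_le_of_le
        calc Real.exp v ≤ Real.exp L := Real.exp_le_exp.mpr hv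
          _ = N := by rw [hL, Real.exp_log (by linarith)]
      symm
      apply sum_subset_zero_on_sdiff
      · exact Ioc_subset_Ioc_right hle
      · intro n hn
        rw [mem_sdiff, mem_Ioc, mem_Ioc] at hn
        have hn1 : 1 ≤ n := by omega
        have hn2 : ⌊Real.exp v⌋₊ < n := by omega
        have hn3 : Real.exp v < n := (Nat.floor_lt (Real.exp_pos v).le).mp hn2
        have hn4 : Real.posLog (Real.exp v / n) = 0 := by
          rw [Real.posLog_eq_zero_iff, abs_of_nonneg (by positivity),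
            div_le_one (by positivity)]
          exact hn3.le
        rw [hn4]
        simp
      · intro n _
        push_cast
        ring
    rw [e1, norm_mul, Complex.norm_real, Real.norm_of_nonneg hFn]
    exact mul_le_mul_of_nonneg_right (hB _ (Real.one_le_exp (by linarith))) hFn
  have hint : ‖∫ v in (Real.log 2)..L,
      ∑ n ∈ Ioc 0 N, c n * (((Real.posLog (Real.exp v / n) * F k L v : ℝ)) : ℂ)‖ ≤
      4 * C * B * N * (L ^ k)⁻¹ := by
    have h1 : ∀ᵐ v : ℝ, v ∈ Set.Ioc (Real.log 2) L →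
        ‖∑ n ∈ Ioc 0 N, c n * (((Real.posLog (Real.exp v / n) * F k L v : ℝ)) : ℂ)‖ ≤
        B * C * (L ^ k)⁻¹ * Real.exp (3 / 4 * L) * Real.exp (1 / 4 * v) := by
      refine Filter.Eventually.of_forall ?_
      intro v hv
      refine (hsum v hv.2 hv.1.le).trans ?_
      calc B * Real.exp v * F k L v
          ≤ B * Real.exp v * (C * (L ^ k)⁻¹ * Real.exp (3 / 4 * (L - v))) := by
            gcongr
            exact hF L v hv.1.le hv.2
        _ = B * C * (L ^ k)⁻¹ * (Real.exp v * Real.exp (3 / 4 * (L - v))) := by ring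
        _ = B * C * (L ^ k)⁻¹ * (Real.exp (3 / 4 * L) * Real.exp (1 / 4 * v)) := by
          rw [← Real.exp_add, ← Real.exp_add]; ring_nf
        _ = _ := by ring
    refine (intervalIntegral.norm_integral_le_of_norm_le h2L h1 ?_).trans ?_
    · apply Continuous.intervalIntegrable
      fun_prop
    · rw [intervalIntegral.integral_const_mul, intervalIntegral.integral_comp_mul_left
        (fun x => Real.exp x) (by norm_num), integral_exp]
      have e1 : Real.exp (3 / 4 * L) * Real.exp (1 / 4 * L) = N := by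
        rw [← Real.exp_add]
        have : 3 / 4 * L + 1 / 4 * L = L := by ring
        rw [this, hL, Real.exp_log (by linarith)]
      have e2 : 0 ≤ Real.exp (1 / 4 * Real.log 2) := (Real.exp_pos _).le
      have e3 : 0 ≤ B * C * (L ^ k)⁻¹ * Real.exp (3 / 4 * L) := by positivity
      have e4 : B * C * (L ^ k)⁻¹ * Real.exp (3 / 4 * L) *
          ((1 / 4 : ℝ)⁻¹ • (Real.exp (1 / 4 * L) - Real.exp (1 / 4 * Real.log 2))) =
          4 * C * B * (Real.exp (3 / 4 * L) * Real.exp (1 / 4 * L)) * (L ^ k)⁻¹ -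
          4 * (B * C * (L ^ k)⁻¹ * Real.exp (3 / 4 * L)) * Real.exp (1 / 4 * Real.log 2) := by
        rw [smul_eq_mul]
        ring
      rw [e4, e1]
      have := mul_nonneg e3 e2
      linarith
  have hmain := hB N hN1
  rw [Nat.floor_natCast] at hmain
  calc _ ≤ ‖(((L ^ k)⁻¹ : ℝ) : ℂ) *
        ∑ n ∈ Ioc 0 N, c n * ((Real.posLog ((N : ℝ) / n) : ℝ) : ℂ)‖ +
        ‖∫ v in (Real.log 2)..L,
          ∑ n ∈ Ioc 0 N, c n * (((Real.posLog (Real.exp v / n) * F k L v : ℝ)) : ℂ)‖ :=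
        norm_add_le _ _
    _ ≤ (L ^ k)⁻¹ * (B * N) + 4 * C * B * N * (L ^ k)⁻¹ := by
        rw [norm_mul, Complex.norm_real, Real.norm_of_nonneg (by positivity)]
        gcongr
    _ = (1 + 4 * C) * B * N / Real.log N ^ k := by
        rw [← hL]; ring

end Pool.Agent.Helper90.MT
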