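import Pool.Agent.Helper90.MT.StA

/-!
Project MT, module A6: Siegel-Walfisz type bound for regular characters, from A3, A4, A5.
-/

namespace Pool.Agent.Helper90.MT

open Finset Complex
open Pool.Agent.Helper2 (smoothSum chFun)

theorem Rg.one_le {q : ℕ} [NeZero q] {χ : DirichletCharacter ℂ q} {y : ℝ} (h : Rg χ y) :
    1 ≤ y := by
  refine le_trans ?_ h.big
  have hq : (1 : ℝ) ≤ q := by exact_mod_cast Nat.one_le_iff_ne_zero.2 (NeZero.ne q)
  rw [Real.le_log_iff_exp_le (by positivity)]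
  have := Real.exp_one_lt_d9
  linarith

theorem lseriesSummable_Dk {q : ℕ} (χ : DirichletCharacter ℂ q) (k : ℕ) (σ : ℝ) (hσ : 1 < σ) :
    LSeriesSummable (Dk χ k) (σ : ℂ) := by
  set ε : ℝ := (σ - 1) / 2 / (k + 1) with hε
  have hk : (0 : ℝ) < k + 1 := by positivity
  have hε0 : 0 < ε := by
    have : 0 < σ - 1 := by linarith
    positivity
  have hεk : ε * (k + 1) = (1 + σ) / 2 - 1 := by
    rw [hε]; field_simp; ring
  refine LSeriesSummable_of_le_const_mul_rpow (x := (1 + σ) / 2) ?_ ⟨1 / ε ^ (k + 1), ?_⟩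
  · simp; linarith
  · intro n hn
    have hn1 : (1 : ℝ) ≤ n := by exact_mod_cast Nat.one_le_iff_ne_zero.2 hn
    have hlog0 : 0 ≤ Real.log n := Real.log_nonneg hn1
    have h1 : ‖Dk χ k n‖ ≤ Real.log n ^ (k + 1) := by
      unfold Dk
      rw [norm_mul, norm_mul, norm_pow, Complex.norm_real, Complex.norm_real, Real.norm_eq_abs,
        Real.norm_eq_abs, abs_of_nonneg ArithmeticFunction.vonMangoldt_nonneg,
        abs_of_nonneg hlog0, pow_succ']
      have h2 : ArithmeticFunction.vonMangoldt n * ‖χ (n : ZMod q)‖ ≤ Real.log n * 1 :=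
        mul_le_mul ArithmeticFunction.vonMangoldt_le_log (χ.norm_le_one _) (norm_nonneg _) hlog0
      rw [mul_one] at h2
      exact mul_le_mul_of_nonneg_right h2 (pow_nonneg hlog0 _)
    have h3 : Real.log n ≤ (n : ℝ) ^ ε / ε := Real.log_le_rpow_div (by positivity) hε0
    calc ‖Dk χ k n‖ ≤ Real.log n ^ (k + 1) := h1
      _ ≤ ((n : ℝ) ^ ε / ε) ^ (k + 1) := pow_le_pow_left₀ hlog0 h3 _
      _ = 1 / ε ^ (k + 1) * (n : ℝ) ^ ((1 + σ) / 2 - 1) := by
        rw [div_pow, ← hεk]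
        have : ((n : ℝ) ^ ε) ^ (k + 1) = (n : ℝ) ^ (ε * (k + 1)) := by
          rw [Real.rpow_mul (by positivity), ← Real.rpow_natCast]
          push_cast
          rfl
        rw [this]
        ring

/-- Module A6. -/
theorem a6 (h3 : StA3) (h4 : StA4) (h5 : StA5) : StA6 := by
  intro k
  obtain ⟨C3, hC3, m, H3⟩ := h3 k
  obtain ⟨C4, hC4, H4⟩ := h4 m
  obtain ⟨C5, hC5, H5⟩ := h5 k
  refine ⟨C5 * (C4 * C3 * Real.exp 1), by positivity, m, ?_⟩
  intro q _ χ y hR N hN
  have hy : 1 ≤ y := hR.one_le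
  have key : ∀ x : ℝ, 1 ≤ x → ‖∑ n ∈ Ioc 0 ⌊x⌋₊,
      (((ArithmeticFunction.vonMangoldt n : ℝ) : ℂ) * χ (n : ZMod q)) * ((Real.log n : ℝ) : ℂ) ^ k *
      ((Real.posLog (x / n) : ℝ) : ℂ)‖ ≤ (C4 * C3 * Real.exp 1 * y ^ m) * x := by
    intro x hx
    have main : ∀ σ : ℝ, 1 < σ → σ ≤ 2 → x ^ σ ≤ Real.exp 1 * x → ‖∑ n ∈ Ioc 0 ⌊x⌋₊,
      (((ArithmeticFunction.vonMangoldt n : ℝ) : ℂ) * χ (n : ZMod q)) * ((Real.log n : ℝ) : ℂ) ^ k *
      ((Real.posLog (x / n) : ℝ) : ℂ)‖ ≤ (C4 * C3 * Real.exp 1 * y ^ m) * x := by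
      intro σ h1 h2 hxσ
      have := H4 (Dk χ k) σ x y C3 h1 h2 hx hy hC3.le (lseriesSummable_Dk χ k σ h1)
        (fun t => H3 q χ y σ t hR h1 h2)
      unfold Dk at this
      refine this.trans ?_
      calc C4 * C3 * x ^ σ * y ^ m ≤ C4 * C3 * (Real.exp 1 * x) * y ^ m := by gcongr
        _ = _ := by ring
    rcases le_or_gt (Real.exp 1) x with he | he
    · have hlog : 1 ≤ Real.log x := by
        rw [Real.le_log_iff_exp_le (by linarith)]; exact he
      have hpos : 0 < Real.log x := by linarith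
      refine main (1 + 1 / Real.log x) ?_ ?_ ?_
      · have : 0 < 1 / Real.log x := by positivity
        linarith
      · have : 1 / Real.log x ≤ 1 := by
          rw [div_le_one hpos]; exact hlog
        linarith
      · rw [Real.rpow_add (by linarith), Real.rpow_one]
        have : x ^ (1 / Real.log x) = Real.exp 1 := by
          rw [Real.rpow_def_of_pos (by linarith)]
          congr 1
          field_simp
        rw [this, mul_comm]
    · refine main 2 (by norm_num) le_rfl ?_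
      rw [Real.rpow_two, pow_two]
      exact mul_le_mul_of_nonneg_right he.le (by linarith)
  have := H5 (fun n => ((ArithmeticFunction.vonMangoldt n : ℝ) : ℂ) * χ (n : ZMod q))
    (C4 * C3 * Real.exp 1 * y ^ m) (by simp) key N (by omega)
  have e : smoothSum N (chFun χ) = ∑ n ∈ Ioc 0 N,
      (((ArithmeticFunction.vonMangoldt n : ℝ) : ℂ) * χ (n : ZMod q)) *
        ((Real.posLog ((N : ℝ) / n) : ℝ) : ℂ) := by
    unfold smoothSum chFun
    refine sum_congr rfl fun n _ => ?_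
    ring
  rw [e]
  refine this.trans (le_of_eq ?_)
  ring

end Pool.Agent.Helper90.MT
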