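import Pool.Agent.Helper90.MT.StA

/-!
Project MT, part A, module A10: large conductors.
-/

namespace Pool.Agent.Helper90.MT

open Finset
open scoped ComplexConjugate
open Pool.Agent.Helper2 (smoothSum chFun prFun charFns allFns allFns_eq card_allFns_le
  chFun_eq_zero_iff prFun_eq_chFun norm_chFun_le chFun_mul norm_sum_char_le
  norm_sum_prFun_conj_le mean_value chFun_changeLevel)

namespace A10

lemma prod_le (S : Finset ℕ) : (∀ p ∈ S, 2 ≤ p) → ∏ p ∈ S, p ≤ (#S + 1) * ∏ p ∈ S, (p - 1) := by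
  induction S using Finset.induction_on_max with
  | empty => simp
  | insert m S hm ih =>
    intro h2
    have hmS : m ∉ S := fun h => lt_irrefl _ (hm m h)
    rw [prod_insert hmS, prod_insert hmS, card_insert_of_notMem hmS]
    have ih' := ih fun p hp => h2 p (mem_insert_of_mem hp)
    have hm2 : 2 ≤ m := h2 m (mem_insert_self _ _)
    have hcard : #S + 2 ≤ m := by
      have : S ⊆ Ico 2 m := by
        intro p hp
        rw [mem_Ico]
        exact ⟨h2 p (mem_insert_of_mem hp), hm p hp⟩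
      have := card_le_card this
      rw [Nat.card_Ico] at this
      omega
    obtain ⟨k, rfl⟩ : ∃ k, m = k + 1 := ⟨m - 1, by omega⟩
    rw [Nat.add_sub_cancel]
    have h3 : (k + 1) * (#S + 1) ≤ (#S + 1 + 1) * k := by nlinarith
    calc (k + 1) * ∏ p ∈ S, p ≤ (k + 1) * ((#S + 1) * ∏ p ∈ S, (p - 1)) :=
          Nat.mul_le_mul_left _ ih'
      _ = ((k + 1) * (#S + 1)) * ∏ p ∈ S, (p - 1) := by ring
      _ ≤ ((#S + 1 + 1) * k) * ∏ p ∈ S, (p - 1) := Nat.mul_le_mul_right _ h3
      _ = _ := by ring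

lemma tot (r : ℕ) : r ≤ (#r.primeFactors + 1) * r.totient := by
  have h1 := Nat.totient_mul_prod_primeFactors r
  have h2 := prod_le r.primeFactors fun p hp => (Nat.prime_of_mem_primeFactors hp).two_le
  have h3 : 0 < ∏ p ∈ r.primeFactors, (p - 1) := by
    apply Finset.prod_pos
    intro p hp
    have := (Nat.prime_of_mem_primeFactors hp).two_le
    omega
  have h4 : r * ∏ p ∈ r.primeFactors, (p - 1) ≤
      ((#r.primeFactors + 1) * r.totient) * ∏ p ∈ r.primeFactors, (p - 1) := by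
    rw [← h1]
    calc r.totient * ∏ p ∈ r.primeFactors, p ≤
          r.totient * ((#r.primeFactors + 1) * ∏ p ∈ r.primeFactors, (p - 1)) :=
          Nat.mul_le_mul_left _ h2
      _ = _ := by ring
  exact Nat.le_of_mul_le_mul_right h4 h3

lemma two_pow_le (r : ℕ) (hr : r ≠ 0) : 2 ^ #r.primeFactors ≤ r := by
  calc 2 ^ #r.primeFactors = ∏ p ∈ r.primeFactors, 2 := by rw [prod_const]
    _ ≤ ∏ p ∈ r.primeFactors, p :=
        Finset.prod_le_prod (fun _ _ => Nat.zero_le _)
          fun p hp => (Nat.prime_of_mem_primeFactors hp).two_le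
    _ ≤ r := Nat.le_of_dvd (Nat.pos_of_ne_zero hr) (Nat.prod_primeFactors_dvd r)

lemma prFun_eq {q : ℕ} (χ : DirichletCharacter ℂ q) (hχ : χ.IsPrimitive) :
    prFun χ = chFun χ := by
  funext n
  by_cases h : n.Coprime q
  · exact prFun_eq_chFun χ n h
  · rw [(chFun_eq_zero_iff χ n).2 h]
    have hc : χ.conductor = q := hχ
    exact (chFun_eq_zero_iff χ.primitiveCharacter n).2 (by rw [hc]; exact h)

lemma level_eq {q r : ℕ} [NeZero q] [NeZero r] (χ : DirichletCharacter ℂ q)
    (ψ : DirichletCharacter ℂ r) (hχ : χ.IsPrimitive) (hψ : ψ.IsPrimitive)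
    (h : chFun χ = chFun ψ) : q = r := by
  have key : ∀ {q r : ℕ} [NeZero q] [NeZero r] (χ : DirichletCharacter ℂ q)
      (ψ : DirichletCharacter ℂ r), χ.IsPrimitive → chFun χ = chFun ψ → q ∣ r := by
    intro q r _ _ χ ψ hχ h
    have : NeZero (q * r) := ⟨Nat.mul_ne_zero (NeZero.ne q) (NeZero.ne r)⟩
    have h1 : χ.changeLevel (q.dvd_mul_right r) = ψ.changeLevel (r.dvd_mul_left q) := by
      apply MulChar.ext
      intro a
      have hc : (a : ZMod (q * r)).val.Coprime (q * r) := ZMod.val_coe_unit_coprime a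
      have e1 := chFun_changeLevel χ (q.dvd_mul_right r) _ hc
      have e2 := chFun_changeLevel ψ (r.dvd_mul_left q) _ hc
      rw [h, ← e2] at e1
      simpa [chFun] using e1
    have h2 := DirichletCharacter.factorsThrough_gcd χ ψ h1
    have h3 : χ.conductor ≤ q.gcd r := Nat.sInf_le h2
    have h4 : χ.conductor = q := hχ
    rw [h4] at h3
    have h5 : 0 < q := Nat.pos_of_ne_zero (NeZero.ne q)
    have h6 : q.gcd r = q := le_antisymm (Nat.le_of_dvd h5 (Nat.gcd_dvd_left q r)) h3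
    rw [← h6]
    exact Nat.gcd_dvd_right q r
  exact Nat.dvd_antisymm (key χ ψ hχ h) (key ψ χ hψ h.symm)

lemma mem_primFns {r : ℕ} {g : ℕ → ℂ} (hg : g ∈ primFns r) :
    ∃ _ : NeZero r, ∃ χ : DirichletCharacter ℂ r, χ.IsPrimitive ∧ χ ≠ 1 ∧ chFun χ = g := by
  classical
  unfold primFns at hg
  split_ifs at hg with h
  · simp at hg
  · have : NeZero r := ⟨h⟩
    rw [mem_image] at hg
    obtain ⟨χ, hχ, rfl⟩ := hg
    rw [mem_filter] at hχ
    exact ⟨this, χ, hχ.2.1, hχ.2.2, rfl⟩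

end A10

open A10 in
theorem a10 : StA10 := by
  classical
  refine ⟨1000, by norm_num, ?_⟩
  intro N F D hD hFN hN
  have hNr : (3 : ℝ) ≤ N := by exact_mod_cast hN
  have hlog1 : 1 ≤ Real.log N := by
    rw [Real.le_log_iff_exp_le (by linarith)]
    have := Real.exp_one_lt_d9
    linarith
  have hDr : (1 : ℝ) ≤ D := by exact_mod_cast hD
  rcases Nat.lt_or_ge F 1 with hF0 | hF1
  · have : F = 0 := by omega
    subst this
    have : Ioc D 0 = ∅ := Finset.Ioc_eq_empty (by omega)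
    rw [this, sum_empty]
    positivity
  set s : Finset (ℕ → ℂ) := (Ioc D F).biUnion primFns with hs
  have hmem : ∀ g ∈ s, ∃ r, ∃ _ : NeZero r, r ≤ F ∧ ∃ χ : DirichletCharacter ℂ r,
      χ.IsPrimitive ∧ χ ≠ 1 ∧ chFun χ = g := by
    intro g hg
    rw [hs, mem_biUnion] at hg
    obtain ⟨r, hr, hg⟩ := hg
    obtain ⟨h1, χ, h2, h3, h4⟩ := mem_primFns hg
    exact ⟨r, h1, (mem_Ioc.1 hr).2, χ, h2, h3, h4⟩
  have hcard : #s ≤ F ^ 2 := by
    have hsub : s ⊆ (Ioc 0 F).biUnion allFns := by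
      intro g hg
      obtain ⟨r, hr0, hr, χ, _, _, rfl⟩ := hmem g hg
      rw [mem_biUnion]
      refine ⟨r, ?_, ?_⟩
      · rw [mem_Ioc]
        exact ⟨Nat.pos_of_ne_zero (NeZero.ne r), hr⟩
      · rw [allFns_eq, mem_image]
        exact ⟨χ, mem_univ _, rfl⟩
    calc #s ≤ #((Ioc 0 F).biUnion allFns) := card_le_card hsub
      _ ≤ ∑ f ∈ Ioc 0 F, #(allFns f) := card_biUnion_le
      _ ≤ ∑ f ∈ Ioc 0 F, F := Finset.sum_le_sum fun f hf =>
          (card_allFns_le f).trans (mem_Ioc.1 hf).2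
      _ = F ^ 2 := by rw [Finset.sum_const, Nat.card_Ioc, smul_eq_mul, Nat.sub_zero, sq]
  have hMV : ∑ g ∈ s, ‖smoothSum N g‖ ≤ 6 * N * (1 + Real.log N) ^ 4 := by
    refine mean_value s (fun g => g) F N hF1 hFN hcard ?_ ?_ ?_ ?_
    · intro g hg n
      obtain ⟨r, _, _, χ, _, _, rfl⟩ := hmem g hg
      exact norm_chFun_le _ n
    · intro g hg m n
      obtain ⟨r, _, _, χ, _, _, rfl⟩ := hmem g hg
      exact chFun_mul _ m n
    · intro g hg k
      obtain ⟨r, _, hr, χ, _, hχ, rfl⟩ := hmem g hg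
      refine (norm_sum_char_le χ hχ k).trans ?_
      exact_mod_cast hr
    · intro g hg h hh hne M
      obtain ⟨d, _, hd, χ, hχ, _, rfl⟩ := hmem g hg
      obtain ⟨e, _, he, ψ, hψ, _, rfl⟩ := hmem h hh
      rw [← prFun_eq χ hχ, ← prFun_eq ψ hψ] at hne ⊢
      refine (norm_sum_prFun_conj_le χ ψ hne M).trans ?_
      have h1 : (d : ℝ) ≤ F := by exact_mod_cast hd
      have h2 : (e : ℝ) ≤ F := by exact_mod_cast he
      rw [sq]
      exact mul_le_mul h1 h2 (Nat.cast_nonneg _) (Nat.cast_nonneg _)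
  have hunion : ∑ g ∈ s, ‖smoothSum N g‖ =
      ∑ r ∈ Ioc D F, ∑ g ∈ primFns r, ‖smoothSum N g‖ := by
    rw [hs, Finset.sum_biUnion]
    intro r hr r' hr' hne
    rw [Function.onFun, Finset.disjoint_left]
    intro g hg hg'
    obtain ⟨_, χ, h1, _, h2⟩ := mem_primFns hg
    obtain ⟨_, ψ, h3, _, h4⟩ := mem_primFns hg'
    exact hne (level_eq χ ψ h1 h3 (h2.trans h4.symm))
  have hlogF : Real.log F ≤ Real.log N / 12 := by
    have h1 : (F : ℝ) ^ 12 ≤ N := by exact_mod_cast hFN
    have h2 : (0 : ℝ) < F := by exact_mod_cast hF1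
    have h3 := Real.log_le_log (by positivity) h1
    rw [Real.log_pow] at h3
    push_cast at h3
    linarith
  have hone : ∀ r ∈ Ioc D F, 1 / (r.totient : ℝ) ≤ (1 + Real.log N) / D := by
    intro r hr
    rw [mem_Ioc] at hr
    have hr0 : 0 < r := by omega
    have hφ : (0 : ℝ) < r.totient := by exact_mod_cast Nat.totient_pos.2 hr0
    have h1 : (r : ℝ) ≤ (#r.primeFactors + 1) * r.totient := by exact_mod_cast tot r
    have h2 : (2 : ℝ) ^ #r.primeFactors ≤ r := by exact_mod_cast two_pow_le r hr0.ne'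
    have h3 : (#r.primeFactors : ℝ) * Real.log 2 ≤ Real.log F := by
      rw [← Real.log_pow]
      apply Real.log_le_log (by positivity)
      refine h2.trans ?_
      exact_mod_cast hr.2
    have h4 : (#r.primeFactors : ℝ) ≤ Real.log N := by
      have hl2 := Real.log_two_gt_d9
      have h5 : (#r.primeFactors : ℝ) * 0.5 ≤ (#r.primeFactors : ℝ) * Real.log 2 :=
        mul_le_mul_of_nonneg_left (by linarith) (Nat.cast_nonneg _)
      linarith
    have h5 : (D : ℝ) ≤ r := by exact_mod_cast hr.1.le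
    rw [div_le_div_iff₀ hφ (by linarith)]
    have h6 : ((#r.primeFactors : ℝ) + 1) * r.totient ≤ (1 + Real.log N) * r.totient :=
      mul_le_mul_of_nonneg_right (by linarith) hφ.le
    linarith
  have hfin : ∑ r ∈ Ioc D F, 1 / (r.totient : ℝ) * ∑ g ∈ primFns r, ‖smoothSum N g‖ ≤
      (1 + Real.log N) / D * (6 * N * (1 + Real.log N) ^ 4) := by
    calc _ ≤ ∑ r ∈ Ioc D F, (1 + Real.log N) / D * ∑ g ∈ primFns r, ‖smoothSum N g‖ := by
          refine Finset.sum_le_sum fun r hr => ?_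
          exact mul_le_mul_of_nonneg_right (hone r hr)
            (Finset.sum_nonneg fun _ _ => norm_nonneg _)
      _ = (1 + Real.log N) / D * ∑ g ∈ s, ‖smoothSum N g‖ := by
          rw [hunion, Finset.mul_sum]
      _ ≤ _ := mul_le_mul_of_nonneg_left hMV (by positivity)
  refine hfin.trans ?_
  have e : (1 + Real.log N) / D * (6 * N * (1 + Real.log N) ^ 4) =
      6 * N * (1 + Real.log N) ^ 5 / D := by ring
  rw [e]
  apply div_le_div_of_nonneg_right _ (by linarith)
  have h7 : (1 + Real.log N) ^ 5 ≤ (2 * Real.log N) ^ 5 :=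
    pow_le_pow_left₀ (by linarith) (by linarith) 5
  have h8 : Real.log N ^ 5 ≤ Real.log N ^ 6 := pow_le_pow_right₀ hlog1 (by norm_num)
  calc 6 * N * (1 + Real.log N) ^ 5 ≤ 6 * N * (2 * Real.log N) ^ 5 :=
        mul_le_mul_of_nonneg_left h7 (by positivity)
    _ = 192 * N * Real.log N ^ 5 := by ring
    _ ≤ 192 * N * Real.log N ^ 6 := mul_le_mul_of_nonneg_left h8 (by positivity)
    _ ≤ 1000 * N * Real.log N ^ 6 := by
        apply mul_le_mul_of_nonneg_right _ (by positivity)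
        linarith

end Pool.Agent.Helper90.MT
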