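import Pool.Agent.Helper90.MT.StS

/-!
Project MT, part S12: squarefree numbers prime to `W` (`StSW`).
-/

namespace Pool.Agent.Helper90.MT

open Finset

/-- number of integers up to `n` prime to `W` -/
noncomputable def swc (W n : ℕ) : ℝ := ∑ m ∈ Icc 1 n, if m.Coprime W then (1 : ℝ) else 0

/-- harmonic sum over the integers prime to `W` -/
noncomputable def swT (W n : ℕ) : ℝ := ∑ m ∈ Icc 1 n, if m.Coprime W then 1 / (m : ℝ) else 0

noncomputable def swH (n : ℕ) : ℝ := ∑ m ∈ Icc 1 n, 1 / (m : ℝ)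

theorem swc_add (W n : ℕ) : swc W (n + W) = swc W n + W.totient := by
  have h1 : (W.totient : ℝ) = ∑ m ∈ Ico (n + 1) (n + 1 + W), if m.Coprime W then (1 : ℝ) else 0 := by
    rw [← Nat.filter_coprime_Ico_eq_totient W (n + 1), Finset.sum_boole]
    congr 2
    ext m
    simp [Nat.coprime_comm]
  rw [h1, swc, swc]
  have e1 : ∀ k : ℕ, Icc 1 k = Ico 1 (k + 1) := by
    intro k; ext x; simp
  rw [e1, e1, show n + W + 1 = n + 1 + W by omega]
  exact (Finset.sum_Ico_consecutive _ (by omega) (by omega)).symm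

theorem swc_bound (W : ℕ) (hW : 0 < W) (n : ℕ) :
    |swc W n - (W.totient : ℝ) / W * n| ≤ W := by
  induction n using Nat.strong_induction_on with
  | _ n ih =>
    have hW' : (0 : ℝ) < W := by exact_mod_cast hW
    rcases lt_or_ge n W with h | h
    · have h1 : 0 ≤ swc W n := by
        unfold swc
        exact Finset.sum_nonneg fun _ _ => by split_ifs <;> norm_num
      have h2 : swc W n ≤ n := by
        unfold swc
        calc _ ≤ ∑ m ∈ Icc 1 n, (1 : ℝ) :=
              Finset.sum_le_sum fun _ _ => by split_ifs <;> norm_num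
          _ = n := by simp
      have h3 : (W.totient : ℝ) / W ≤ 1 := by
        rw [div_le_one hW']
        exact_mod_cast Nat.totient_le W
      have h4 : 0 ≤ (W.totient : ℝ) / W := by positivity
      have h5 : (n : ℝ) ≤ W := by exact_mod_cast h.le
      have h6 : (0 : ℝ) ≤ n := by positivity
      have h7 : (W.totient : ℝ) / W * n ≤ n := by nlinarith
      have h8 : 0 ≤ (W.totient : ℝ) / W * n := by positivity
      rw [abs_le]
      constructor <;> linarith
    · obtain ⟨k, rfl⟩ : ∃ k, n = k + W := ⟨n - W, by omega⟩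
      have h1 := ih k (by omega)
      have h2 : swc W (k + W) - (W.totient : ℝ) / W * ((k + W : ℕ) : ℝ) =
          swc W k - (W.totient : ℝ) / W * k := by
        rw [swc_add]
        push_cast
        field_simp
        ring
      rw [h2]
      exact h1

theorem swT_bound (W : ℕ) (hW : 0 < W) (n : ℕ) :
    |(swT W (n + 1) - (W.totient : ℝ) / W * swH (n + 1)) -
      (swc W (n + 1) - (W.totient : ℝ) / W * ((n + 1 : ℕ) : ℝ)) / ((n + 1 : ℕ) : ℝ)| ≤
      W * (1 - 1 / ((n + 1 : ℕ) : ℝ)) := by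
  induction n with
  | zero =>
    simp [swT, swH, swc, -Finset.sum_boole]
  | succ n ih =>
    have e1 : swT W (n + 1 + 1) = swT W (n + 1) +
        (if (n + 1 + 1).Coprime W then 1 / (((n + 1 + 1 : ℕ)) : ℝ) else 0) := by
      unfold swT
      rw [Finset.sum_Icc_succ_top (by omega)]
    have e2 : swH (n + 1 + 1) = swH (n + 1) + 1 / (((n + 1 + 1 : ℕ)) : ℝ) := by
      unfold swH
      rw [Finset.sum_Icc_succ_top (by omega)]
    have e3 : swc W (n + 1 + 1) = swc W (n + 1) +
        (if (n + 1 + 1).Coprime W then (1 : ℝ) else 0) := by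
      unfold swc
      rw [Finset.sum_Icc_succ_top (by omega)]
    have hA := swc_bound W hW (n + 1)
    set k : ℝ := (W.totient : ℝ) / W with hk
    set A : ℝ := swc W (n + 1) - k * ((n + 1 : ℕ) : ℝ) with hAdef
    set u : ℝ := ((n + 1 : ℕ) : ℝ) with hu
    have hu0 : 0 < u := by rw [hu]; positivity
    have hv : (((n + 1 + 1 : ℕ)) : ℝ) = u + 1 := by rw [hu]; push_cast; ring
    rw [e1, e2, e3, hv]
    have key : (swT W (n + 1) + (if (n + 1 + 1).Coprime W then 1 / (u + 1) else 0) -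
        k * (swH (n + 1) + 1 / (u + 1))) -
        (swc W (n + 1) + (if (n + 1 + 1).Coprime W then (1 : ℝ) else 0) - k * (u + 1)) / (u + 1)
        = ((swT W (n + 1) - k * swH (n + 1)) - A / u) + A * (1 / u - 1 / (u + 1)) := by
      rw [hAdef]
      split_ifs <;> field_simp <;> ring
    rw [key]
    have h1 : 0 ≤ 1 / u - 1 / (u + 1) := by
      rw [sub_nonneg]
      exact one_div_le_one_div_of_le hu0 (by linarith)
    calc _ ≤ |(swT W (n + 1) - k * swH (n + 1)) - A / u| + |A * (1 / u - 1 / (u + 1))| :=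
          abs_add_le _ _
      _ ≤ W * (1 - 1 / u) + W * (1 / u - 1 / (u + 1)) := by
          rw [abs_mul, abs_of_nonneg h1]
          exact add_le_add ih (mul_le_mul_of_nonneg_right hA h1)
      _ = W * (1 - 1 / (u + 1)) := by ring

theorem swH_bound (n : ℕ) (hn : 1 ≤ n) : |swH n - Real.log n| ≤ 1 := by
  have h1 : swH n = (harmonic n : ℝ) := by
    rw [harmonic_eq_sum_Icc]
    simp [swH]
  have h2 := harmonic_le_one_add_log n
  have h3 := log_add_one_le_harmonic n
  have h4 : Real.log n ≤ Real.log ((n + 1 : ℕ) : ℝ) := by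
    apply Real.log_le_log (by exact_mod_cast hn)
    push_cast
    linarith
  rw [h1, abs_le]
  constructor <;> linarith

theorem swT_log (W : ℕ) (hW : 0 < W) (n : ℕ) (hn : 1 ≤ n) :
    |swT W n - (W.totient : ℝ) / W * Real.log n| ≤ 2 * W + 1 := by
  obtain ⟨k, rfl⟩ : ∃ k, n = k + 1 := ⟨n - 1, by omega⟩
  have h1 := swT_bound W hW k
  have h2 := swc_bound W hW (k + 1)
  have h3 := swH_bound (k + 1) (by omega)
  set c : ℝ := (W.totient : ℝ) / W with hc
  set u : ℝ := ((k + 1 : ℕ) : ℝ) with hu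
  have hu1 : 1 ≤ u := by rw [hu]; exact_mod_cast hn
  have hW' : (0 : ℝ) < W := by exact_mod_cast hW
  have hc1 : c ≤ 1 := by
    rw [hc, div_le_one hW']
    exact_mod_cast Nat.totient_le W
  have hc0 : 0 ≤ c := by rw [hc]; positivity
  have h4 : |(swc W (k + 1) - c * u) / u| ≤ W := by
    rw [abs_div, abs_of_pos (by linarith : (0 : ℝ) < u), div_le_iff₀ (by linarith)]
    nlinarith
  have h5 : |c * (swH (k + 1) - Real.log u)| ≤ 1 := by
    rw [abs_mul, abs_of_nonneg hc0]
    nlinarith [abs_nonneg (swH (k + 1) - Real.log u)]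
  have h6 : (W : ℝ) * (1 - 1 / u) ≤ W := by
    have : 0 ≤ 1 / u := by positivity
    nlinarith
  have e : swT W (k + 1) - c * Real.log u = ((swT W (k + 1) - c * swH (k + 1)) -
      (swc W (k + 1) - c * u) / u) + (swc W (k + 1) - c * u) / u +
      c * (swH (k + 1) - Real.log u) := by ring
  rw [e]
  calc _ ≤ |((swT W (k + 1) - c * swH (k + 1)) - (swc W (k + 1) - c * u) / u)| +
        |(swc W (k + 1) - c * u) / u| + |c * (swH (k + 1) - Real.log u)| := abs_add_three _ _ _
    _ ≤ _ := by linarith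

/-- squarefree part of the harmonic sum -/
noncomputable def swS (W n : ℕ) : ℝ :=
  ∑ d ∈ Icc 1 n, if Squarefree d ∧ d.Coprime W then 1 / (d : ℝ) else 0

/-- weights of the square factors -/
noncomputable def swg (W e : ℕ) : ℝ := if e.Coprime W then 1 / (e : ℝ) ^ 2 else 0

theorem sq_dvd_of_sqfree (d e e' : ℕ) (hd : Squarefree d) (he : e ≠ 0) (he' : e' ≠ 0)
    (h : e' ^ 2 ∣ d * e ^ 2) : e' ∣ e := by
  rw [← Nat.factorization_le_iff_dvd he' he]
  intro p
  have h1 := (Nat.factorization_le_iff_dvd (pow_ne_zero 2 he')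
    (mul_ne_zero hd.ne_zero (pow_ne_zero 2 he))).2 h p
  rw [Nat.factorization_mul hd.ne_zero (pow_ne_zero 2 he), Nat.factorization_pow,
    Nat.factorization_pow] at h1
  simp only [Finsupp.add_apply, Finsupp.smul_apply, smul_eq_mul] at h1
  have h2 := hd.natFactorization_le_one p
  omega

theorem sq_unique (d d' e e' : ℕ) (hd : Squarefree d) (hd' : Squarefree d') (he : e ≠ 0)
    (he' : e' ≠ 0) (h : d * e ^ 2 = d' * e' ^ 2) : d = d' ∧ e = e' := by
  have h1 : e' ∣ e := sq_dvd_of_sqfree d e e' hd he he' ⟨d', by rw [h]; ring⟩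
  have h2 : e ∣ e' := sq_dvd_of_sqfree d' e' e hd' he' he ⟨d, by rw [← h]; ring⟩
  have h3 := Nat.dvd_antisymm h2 h1
  subst h3
  exact ⟨Nat.eq_of_mul_eq_mul_right (by positivity) h, rfl⟩

/-- unique decomposition `m = d e^2` -/
theorem swT_decomp (W n : ℕ) :
    swT W n = ∑ e ∈ Icc 1 n, swg W e * swS W (n / e ^ 2) := by
  classical
  have h1 : ∀ e ∈ Icc 1 n, swg W e * swS W (n / e ^ 2) =
      ∑ d ∈ Icc 1 (n / e ^ 2), (if e.Coprime W ∧ Squarefree d ∧ d.Coprime W then
        1 / ((d * e ^ 2 : ℕ) : ℝ) else 0) := by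
    intro e he
    unfold swS swg
    rw [Finset.mul_sum]
    apply Finset.sum_congr rfl
    intro d _
    by_cases h1 : e.Coprime W
    · by_cases h2 : Squarefree d ∧ d.Coprime W
      · rw [if_pos h1, if_pos h2, if_pos ⟨h1, h2⟩]
        push_cast
        rw [one_div_mul_one_div_rev]
      · rw [if_neg h2, mul_zero, if_neg (fun h => h2 h.2)]
    · rw [if_neg h1, zero_mul, if_neg (fun h => h1 h.1)]
  rw [Finset.sum_congr rfl h1, Finset.sum_sigma']
  unfold swT
  rw [← Finset.sum_filter, ← Finset.sum_filter]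
  symm
  refine Finset.sum_bij (fun x _ => x.2 * x.1 ^ 2) ?_ ?_ ?_ ?_
  · rintro ⟨e, d⟩ hx
    simp only [Finset.mem_filter, Finset.mem_sigma, Finset.mem_Icc] at hx ⊢
    obtain ⟨⟨⟨he1, he2⟩, hd1, hd2⟩, h3, h4, h5⟩ := hx
    refine ⟨⟨Nat.mul_pos hd1 (by positivity), ?_⟩, ?_⟩
    · exact (Nat.mul_le_mul_right _ hd2).trans (Nat.div_mul_le_self _ _)
    · exact Nat.Coprime.mul_left h5 (Nat.Coprime.pow_left 2 h3)
  · rintro ⟨e, d⟩ hx ⟨e', d'⟩ hx' h
    simp only [Finset.mem_filter, Finset.mem_sigma, Finset.mem_Icc] at hx hx' h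
    obtain ⟨h1, h2⟩ := sq_unique d d' e e' hx.2.2.1 hx'.2.2.1 (by omega) (by omega) h
    subst h1 h2
    rfl
  · intro m hm
    rw [Finset.mem_filter, Finset.mem_Icc] at hm
    obtain ⟨d, e, h, hd⟩ := Nat.sq_mul_squarefree m
    have hm0 : m ≠ 0 := by omega
    have he0 : e ≠ 0 := by
      rintro rfl
      rw [zero_pow (by norm_num), zero_mul] at h
      exact hm0 h.symm
    have hd0 : d ≠ 0 := hd.ne_zero
    have hm' : d * e ^ 2 = m := by rw [← h]; ring
    have hcop : (d * e ^ 2).Coprime W := by rw [hm']; exact hm.2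
    refine ⟨⟨e, d⟩, ?_, hm'⟩
    simp only [Finset.mem_filter, Finset.mem_sigma, Finset.mem_Icc]
    refine ⟨⟨⟨by omega, ?_⟩, by omega, ?_⟩, ?_, hd, ?_⟩
    · calc e ≤ e ^ 2 := Nat.le_self_pow (by norm_num) e
        _ ≤ d * e ^ 2 := Nat.le_mul_of_pos_left _ (by omega)
        _ ≤ n := by rw [hm']; exact hm.1.2
    · rw [Nat.le_div_iff_mul_le (by positivity), hm']
      exact hm.1.2
    · exact (Nat.Coprime.coprime_mul_left hcop).coprime_dvd_left (dvd_pow_self e (by norm_num))
    · exact Nat.Coprime.coprime_mul_right hcop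
  · rintro ⟨e, d⟩ _
    rfl

theorem swg_nonneg (W e : ℕ) : 0 ≤ swg W e := by
  unfold swg
  split_ifs <;> positivity

theorem swg_le (W e : ℕ) : swg W e ≤ 1 / (e : ℝ) ^ 2 := by
  unfold swg
  split_ifs
  · exact le_rfl
  · positivity

theorem swg_zero (W : ℕ) : swg W 0 = 0 := by
  unfold swg
  split_ifs <;> simp

theorem swg_one (W : ℕ) : swg W 1 = 1 := by
  unfold swg
  rw [if_pos (Nat.coprime_one_left W)]
  norm_num

theorem swg_summable (W : ℕ) : Summable (swg W) :=
  Summable.of_nonneg_of_le (swg_nonneg W) (swg_le W) (Real.summable_one_div_nat_pow.2 (by norm_num))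

theorem sum_sq_le (n : ℕ) : ∑ e ∈ Icc 2 (n + 1), 1 / (e : ℝ) ^ 2 ≤
    2 / 3 - 1 / ((n : ℝ) + 3 / 2) := by
  induction n with
  | zero => norm_num
  | succ n ih =>
    rw [Finset.sum_Icc_succ_top (by omega)]
    have h1 : 1 / (((n + 1 + 1 : ℕ)) : ℝ) ^ 2 ≤ 1 / ((n : ℝ) + 3 / 2) - 1 / ((n : ℝ) + 5 / 2) := by
      rw [div_sub_div _ _ (by positivity) (by positivity), div_le_div_iff₀ (by positivity)
        (by positivity)]
      push_cast
      nlinarith [(Nat.cast_nonneg n : (0 : ℝ) ≤ n)]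
    have h2 : ((n + 1 : ℕ) : ℝ) + 3 / 2 = (n : ℝ) + 5 / 2 := by push_cast; ring
    rw [h2]
    linarith

theorem swg_tsum_le (W : ℕ) : ∑' e, swg W e ≤ 5 / 3 := by
  apply Real.tsum_le_of_sum_range_le (swg_nonneg W)
  intro n
  have h1 : ∑ i ∈ range n, swg W i ≤ ∑ i ∈ range (n + 2), swg W i :=
    Finset.sum_le_sum_of_subset_of_nonneg (Finset.range_mono (by omega))
      fun _ _ _ => swg_nonneg W _
  have h2 : ∑ i ∈ range (n + 2), swg W i = swg W 0 + swg W 1 + ∑ e ∈ Icc 2 (n + 1), swg W e := by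
    have : range (n + 2) = insert 0 (insert 1 (Icc 2 (n + 1))) := by
      ext x
      simp
      omega
    rw [this, Finset.sum_insert (by simp), Finset.sum_insert (by simp)]
    ring
  have h3 : ∑ e ∈ Icc 2 (n + 1), swg W e ≤ ∑ e ∈ Icc 2 (n + 1), 1 / (e : ℝ) ^ 2 :=
    Finset.sum_le_sum fun _ _ => swg_le W _
  have h4 := sum_sq_le n
  have h5 : 0 ≤ 1 / ((n : ℝ) + 3 / 2) := by positivity
  rw [swg_zero, swg_one] at h2
  linarith

theorem one_le_swg_tsum (W : ℕ) : 1 ≤ ∑' e, swg W e := by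
  rw [← swg_one W]
  exact (swg_summable W).le_tsum 1 fun _ _ => swg_nonneg W _

/-- `log n - log (n / e ^ 2)` (with `log 0 = 0`) -/
noncomputable def swh (n e : ℕ) : ℝ := Real.log n - Real.log ((n / e ^ 2 : ℕ) : ℝ)

theorem swh_nonneg (n e : ℕ) (hn : 1 ≤ n) : 0 ≤ swh n e := by
  unfold swh
  rcases Nat.eq_zero_or_pos (n / e ^ 2) with h | h
  · rw [h]
    simp
    exact Real.log_natCast_nonneg n
  · rw [sub_nonneg]
    apply Real.log_le_log (by exact_mod_cast h)
    exact_mod_cast Nat.div_le_self _ _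

theorem swh_le (n e : ℕ) (hn : 1 ≤ n) (he : 1 ≤ e) :
    swh n e ≤ 2 * Real.log e + Real.log 2 := by
  unfold swh
  have hn' : (0 : ℝ) < n := by exact_mod_cast hn
  have he' : (0 : ℝ) < e := by exact_mod_cast he
  have hlog2 : 0 ≤ Real.log 2 := Real.log_nonneg (by norm_num)
  rcases Nat.eq_zero_or_pos (n / e ^ 2) with h | h
  · rw [h]
    have h1 : n < e ^ 2 := by
      by_contra hne
      have := Nat.div_pos (not_lt.1 hne) (by positivity)
      omega
    have h2 : Real.log n ≤ Real.log ((e : ℝ) ^ 2) := by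
      apply Real.log_le_log hn'
      exact_mod_cast h1.le
    rw [Real.log_pow] at h2
    push_cast at h2 ⊢
    rw [Real.log_zero]
    linarith
  · set q := n / e ^ 2 with hq
    have hq' : (0 : ℝ) < q := by exact_mod_cast h
    have h1 : n < (q + 1) * e ^ 2 := by
      have := Nat.lt_div_mul_add (a := n) (b := e ^ 2) (by positivity)
      rw [← hq] at this
      linarith
    have h2 : n ≤ 2 * q * e ^ 2 := by
      have : (q + 1) * e ^ 2 ≤ 2 * q * e ^ 2 := Nat.mul_le_mul_right _ (by omega)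
      omega
    have h3 : Real.log n ≤ Real.log (2 * (q : ℝ) * (e : ℝ) ^ 2) := by
      apply Real.log_le_log hn'
      exact_mod_cast h2
    rw [Real.log_mul (by positivity) (by positivity), Real.log_mul (by norm_num) (by positivity),
      Real.log_pow] at h3
    push_cast at h3
    linarith

theorem swgl_summable (W : ℕ) :
    Summable (fun e : ℕ => swg W e * (2 * Real.log e + Real.log 2)) := by
  have h0 : Summable (fun e : ℕ => 5 * (1 / (e : ℝ) ^ (3 / 2 : ℝ))) :=
    (Real.summable_one_div_nat_rpow.2 (by norm_num)).mul_left 5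
  have hlog2 : 0 ≤ Real.log 2 := Real.log_nonneg (by norm_num)
  refine Summable.of_nonneg_of_le (fun e => ?_) (fun e => ?_) h0
  · have := Real.log_natCast_nonneg e
    exact mul_nonneg (swg_nonneg W e) (by linarith)
  · rcases Nat.eq_zero_or_pos e with h | h
    · subst h
      rw [swg_zero, zero_mul]
      positivity
    · have he : (0 : ℝ) < e := by exact_mod_cast h
      have he1 : (1 : ℝ) ≤ e := by exact_mod_cast h
      have h1 : Real.log e ≤ (e : ℝ) ^ (1 / 2 : ℝ) / (1 / 2) :=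
        Real.log_le_rpow_div he.le (by norm_num)
      have h2 : Real.log 2 ≤ 1 := by
        have := Real.log_two_lt_d9
        linarith
      have h3 : 1 ≤ (e : ℝ) ^ (1 / 2 : ℝ) := Real.one_le_rpow he1 (by norm_num)
      have h4 : 2 * Real.log e + Real.log 2 ≤ 5 * (e : ℝ) ^ (1 / 2 : ℝ) := by linarith
      have h5 : 0 ≤ 2 * Real.log e + Real.log 2 := by
        have := Real.log_natCast_nonneg e
        linarith
      calc swg W e * (2 * Real.log e + Real.log 2)
          ≤ 1 / (e : ℝ) ^ 2 * (5 * (e : ℝ) ^ (1 / 2 : ℝ)) :=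
            mul_le_mul (swg_le W e) h4 h5 (by positivity)
        _ = 5 * (1 / (e : ℝ) ^ (3 / 2 : ℝ)) := by
            have h6 : (e : ℝ) ^ 2 = (e : ℝ) ^ (1 / 2 : ℝ) * (e : ℝ) ^ (3 / 2 : ℝ) := by
              rw [← Real.rpow_add he, ← Real.rpow_natCast]
              norm_num
            rw [h6]
            have h7 : (e : ℝ) ^ (1 / 2 : ℝ) ≠ 0 := by positivity
            have h8 : (e : ℝ) ^ (3 / 2 : ℝ) ≠ 0 := by positivity
            field_simp

theorem swgh_summable (W n : ℕ) (hn : 1 ≤ n) : Summable (fun e : ℕ => swg W e * swh n e) := by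
  refine Summable.of_nonneg_of_le (fun e => mul_nonneg (swg_nonneg W e) (swh_nonneg n e hn))
    (fun e => ?_) (swgl_summable W)
  rcases Nat.eq_zero_or_pos e with h | h
  · subst h
    rw [swg_zero, zero_mul, zero_mul]
  · exact mul_le_mul_of_nonneg_left (swh_le n e hn h) (swg_nonneg W e)

theorem swgh_tsum_le (W n : ℕ) (hn : 1 ≤ n) : ∑' e, swg W e * swh n e ≤
    ∑' e : ℕ, swg W e * (2 * Real.log e + Real.log 2) := by
  refine (swgh_summable W n hn).tsum_le_tsum (fun e => ?_) (swgl_summable W)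
  rcases Nat.eq_zero_or_pos e with h | h
  · subst h
    rw [swg_zero, zero_mul, zero_mul]
  · exact mul_le_mul_of_nonneg_left (swh_le n e hn h) (swg_nonneg W e)

theorem sw_main (W n : ℕ) (hn : 1 ≤ n) (c : ℝ) :
    ∑ e ∈ Icc 1 n, swg W e * (swS W (n / e ^ 2) - c * Real.log ((n / e ^ 2 : ℕ) : ℝ)) =
      swT W n - c * (∑' e, swg W e) * Real.log n + c * ∑' e, swg W e * swh n e := by
  have h1 : ∑ e ∈ Icc 1 n, swg W e * Real.log ((n / e ^ 2 : ℕ) : ℝ) =
      ∑' e, swg W e * Real.log ((n / e ^ 2 : ℕ) : ℝ) := by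
    symm
    apply tsum_eq_sum
    intro e he
    rw [Finset.mem_Icc, not_and_or] at he
    rcases he with h | h
    · obtain rfl : e = 0 := by omega
      rw [swg_zero, zero_mul]
    · have : n / e ^ 2 = 0 := by
        apply Nat.div_eq_of_lt
        calc n < e := by omega
          _ ≤ e ^ 2 := Nat.le_self_pow (by norm_num) e
      rw [this]
      simp
  have h2 : ∑' e, swg W e * Real.log ((n / e ^ 2 : ℕ) : ℝ) =
      (∑' e, swg W e) * Real.log n - ∑' e, swg W e * swh n e := by
    rw [← tsum_mul_right, ← Summable.tsum_sub ((swg_summable W).mul_right _)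
      (swgh_summable W n hn)]
    apply tsum_congr
    intro e
    unfold swh
    ring
  calc _ = ∑ e ∈ Icc 1 n, swg W e * swS W (n / e ^ 2) -
        c * ∑ e ∈ Icc 1 n, swg W e * Real.log ((n / e ^ 2 : ℕ) : ℝ) := by
        rw [Finset.mul_sum, ← Finset.sum_sub_distrib]
        apply Finset.sum_congr rfl
        intro e _
        ring
    _ = _ := by
        rw [← swT_decomp, h1, h2]
        ring

theorem sw_bound (W : ℕ) (hW : 0 < W) : ∃ C : ℝ, 0 ≤ C ∧ ∀ n : ℕ, 1 ≤ n →
    |swS W n - ((W.totient : ℝ) / W / ∑' e, swg W e) * Real.log n| ≤ C := by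
  set Z : ℝ := ∑' e, swg W e with hZ
  have hZ1 : 1 ≤ Z := one_le_swg_tsum W
  set k : ℝ := (W.totient : ℝ) / W with hk
  have hk0 : 0 ≤ k := by rw [hk]; positivity
  set c : ℝ := k / Z with hc
  have hc0 : 0 ≤ c := by rw [hc]; positivity
  have hcZ : c * Z = k := by rw [hc]; field_simp
  set K : ℝ := ∑' e : ℕ, swg W e * (2 * Real.log e + Real.log 2) with hK
  have hlog2 : 0 ≤ Real.log 2 := Real.log_nonneg (by norm_num)
  have hK0 : 0 ≤ K := by
    rw [hK]
    apply tsum_nonneg
    intro e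
    have := Real.log_natCast_nonneg e
    exact mul_nonneg (swg_nonneg W e) (by linarith)
  set C₁ : ℝ := 2 * W + 1 + c * K with hC₁
  have hC₁0 : 0 ≤ C₁ := by rw [hC₁]; positivity
  have hmain : ∀ n : ℕ, 1 ≤ n →
      |∑ e ∈ Icc 1 n, swg W e * (swS W (n / e ^ 2) - c * Real.log ((n / e ^ 2 : ℕ) : ℝ))| ≤ C₁ := by
    intro n hn
    rw [sw_main W n hn c, ← hZ, hcZ]
    have h1 := swT_log W hW n hn
    rw [← hk] at h1
    have h2 := swgh_tsum_le W n hn
    have h3 : 0 ≤ ∑' e, swg W e * swh n e :=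
      tsum_nonneg fun e => mul_nonneg (swg_nonneg W e) (swh_nonneg n e hn)
    have h4 : |c * ∑' e, swg W e * swh n e| ≤ c * K := by
      rw [abs_of_nonneg (mul_nonneg hc0 h3)]
      exact mul_le_mul_of_nonneg_left h2 hc0
    calc _ ≤ |swT W n - k * Real.log n| + |c * ∑' e, swg W e * swh n e| := abs_add_le _ _
      _ ≤ _ := by rw [hC₁]; linarith
  refine ⟨3 * C₁, by positivity, ?_⟩
  intro n
  induction n using Nat.strong_induction_on with
  | _ n ih =>
    intro hn
    have h1 := hmain n hn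
    have h2 : ∑ e ∈ Icc 1 n, swg W e * (swS W (n / e ^ 2) - c * Real.log ((n / e ^ 2 : ℕ) : ℝ)) =
        (swS W n - c * Real.log n) +
        ∑ e ∈ Icc 2 n, swg W e * (swS W (n / e ^ 2) - c * Real.log ((n / e ^ 2 : ℕ) : ℝ)) := by
      have : Icc 1 n = insert 1 (Icc 2 n) := by
        ext x
        simp
        omega
      rw [this, Finset.sum_insert (by simp), swg_one, one_mul]
      simp
    have h3 : |∑ e ∈ Icc 2 n, swg W e *
        (swS W (n / e ^ 2) - c * Real.log ((n / e ^ 2 : ℕ) : ℝ))| ≤ 2 * C₁ := by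
      calc _ ≤ ∑ e ∈ Icc 2 n, |swg W e *
            (swS W (n / e ^ 2) - c * Real.log ((n / e ^ 2 : ℕ) : ℝ))| :=
            Finset.abs_sum_le_sum_abs _ _
        _ ≤ ∑ e ∈ Icc 2 n, 1 / (e : ℝ) ^ 2 * (3 * C₁) := by
            apply Finset.sum_le_sum
            intro e he
            rw [Finset.mem_Icc] at he
            rw [abs_mul, abs_of_nonneg (swg_nonneg W e)]
            apply mul_le_mul (swg_le W e) _ (abs_nonneg _) (by positivity)
            rcases Nat.eq_zero_or_pos (n / e ^ 2) with h | h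
            · rw [h]
              simp [swS]
              positivity
            · apply ih _ _ h
              apply Nat.div_lt_self (by omega)
              nlinarith
        _ = (∑ e ∈ Icc 2 n, 1 / (e : ℝ) ^ 2) * (3 * C₁) := by rw [Finset.sum_mul]
        _ ≤ 2 / 3 * (3 * C₁) := by
            apply mul_le_mul_of_nonneg_right _ (by positivity)
            obtain ⟨m, rfl⟩ : ∃ m, n = m + 1 := ⟨n - 1, by omega⟩
            have := sum_sq_le m
            have h5 : 0 ≤ 1 / ((m : ℝ) + 3 / 2) := by positivity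
            linarith
        _ = 2 * C₁ := by ring
    rw [h2] at h1
    have h4 := abs_sub_abs_le_abs_sub (swS W n - c * Real.log n)
      (-∑ e ∈ Icc 2 n, swg W e * (swS W (n / e ^ 2) - c * Real.log ((n / e ^ 2 : ℕ) : ℝ)))
    rw [sub_neg_eq_add, abs_neg] at h4
    linarith

theorem sW : StSW := by
  classical
  intro W hW
  obtain ⟨C, hC0, hC⟩ := sw_bound W hW
  set Z : ℝ := ∑' e, swg W e with hZ
  have hZ1 : 1 ≤ Z := one_le_swg_tsum W
  have hZ2 : Z ≤ 5 / 3 := swg_tsum_le W
  set c : ℝ := (W.totient : ℝ) / W / Z with hc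
  have hW' : (0 : ℝ) < W := by exact_mod_cast hW
  have hφ : (0 : ℝ) < W.totient := by exact_mod_cast Nat.totient_pos.2 hW
  have hc0 : 0 < c := by rw [hc]; positivity
  refine ⟨c, C + c * Real.log 2, hc0, ?_, ?_⟩
  · rw [hc, div_div, div_le_div_iff_of_pos_left hφ (by positivity) (by positivity)]
    nlinarith
  · intro z hz
    have hn : 1 ≤ ⌊z⌋₊ := (Nat.one_le_floor_iff z).2 hz
    have h1 : SW W z = swS W ⌊z⌋₊ := by
      unfold SW swS
      rw [Finset.sum_filter]
    have h2 := hC _ hn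
    have hn' : (0 : ℝ) < (⌊z⌋₊ : ℝ) := by exact_mod_cast hn
    have h3 : Real.log (⌊z⌋₊ : ℝ) ≤ Real.log z :=
      Real.log_le_log hn' (Nat.floor_le (by linarith))
    have h4 : Real.log z ≤ Real.log (⌊z⌋₊ : ℝ) + Real.log 2 := by
      rw [← Real.log_mul (by positivity) (by norm_num)]
      apply Real.log_le_log (by linarith)
      have h5 := Nat.lt_floor_add_one z
      have h6 : (1 : ℝ) ≤ (⌊z⌋₊ : ℝ) := by exact_mod_cast hn
      linarith
    rw [h1]
    have h5 : swS W ⌊z⌋₊ - c * Real.log z = (swS W ⌊z⌋₊ - c * Real.log (⌊z⌋₊ : ℝ)) -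
        c * (Real.log z - Real.log (⌊z⌋₊ : ℝ)) := by ring
    rw [h5]
    have h6 : |c * (Real.log z - Real.log (⌊z⌋₊ : ℝ))| ≤ c * Real.log 2 := by
      rw [abs_of_nonneg (mul_nonneg hc0.le (by linarith))]
      exact mul_le_mul_of_nonneg_left (by linarith) hc0.le
    calc _ ≤ |swS W ⌊z⌋₊ - c * Real.log (⌊z⌋₊ : ℝ)| +
          |c * (Real.log z - Real.log (⌊z⌋₊ : ℝ))| := abs_sub _ _
      _ ≤ _ := add_le_add h2 h6

end Pool.Agent.Helper90.MT
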