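import Pool.Agent.Helper90.MT.Def
import Pool.Agent.Helper2.AverageFamily

/-!
Project MT, part A (level of distribution on a subsequence): definitions and statements.
-/

namespace Pool.Agent.Helper90.MT

open Finset Complex
open Pool.Agent.Helper2 (smoothSum chFun prFun charFns)

/-- coefficients `χ(n) (log n)^k` -/
noncomputable def Lk {q : ℕ} (χ : DirichletCharacter ℂ q) (k n : ℕ) : ℂ :=
  χ (n : ZMod q) * ((Real.log n : ℝ) : ℂ) ^ k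

/-- coefficients `Λ(n) χ(n) (log n)^k` -/
noncomputable def Dk {q : ℕ} (χ : DirichletCharacter ℂ q) (k n : ℕ) : ℂ :=
  ((ArithmeticFunction.vonMangoldt n : ℝ) : ℂ) * χ (n : ZMod q) * ((Real.log n : ℝ) : ℂ) ^ k

/-- regularity of `χ` with parameter `y` (only a condition on the size of `y` unless `χ` is
real) -/
structure Rg {q : ℕ} (χ : DirichletCharacter ℂ q) (y : ℝ) : Prop where
  ne : χ ≠ 1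
  big : Real.log (3 * q) ≤ y
  real : χ ^ 2 = 1 → ∀ σ : ℝ, 1 < σ → σ ≤ 2 → 1 / y ^ 6 ≤ ‖LSeries (Lk χ 0) (σ : ℂ)‖

/-- A0: the principal character away from `s = 1` -/
def StA0 : Prop := ∃ C : ℝ, 0 < C ∧ ∀ (q : ℕ) [NeZero q] (σ t : ℝ), 1 < σ → σ ≤ 2 → t ≠ 0 →
  ‖LSeries (Lk (1 : DirichletCharacter ℂ q) 0) (σ + t * I)‖ ≤
    C * (Real.log (q * (|t| + 3)) + 1 / |t|)

/-- A1: upper bounds for `L` and its derivatives -/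
def StA1 : Prop := ∀ j : ℕ, ∃ C : ℝ, 0 < C ∧ ∀ (q : ℕ) [NeZero q] (χ : DirichletCharacter ℂ q)
  (σ t : ℝ), χ ≠ 1 → 1 < σ → σ ≤ 2 →
  ‖LSeries (Lk χ j) (σ + t * I)‖ ≤ C * Real.log (q * (|t| + 3)) ^ (j + 1)

/-- A2: lower bounds for `L` -/
def StA2 : Prop := ∃ c : ℝ, 0 < c ∧ ∃ m : ℕ, ∀ (q : ℕ) [NeZero q] (χ : DirichletCharacter ℂ q)
  (y σ t : ℝ), Rg χ y → 1 < σ → σ ≤ 2 →
  c / (y + Real.log (|t| + 3)) ^ m ≤ ‖LSeries (Lk χ 0) (σ + t * I)‖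

/-- A3, identity -/
def StA3i : Prop := ∀ (q : ℕ) [NeZero q] (χ : DirichletCharacter ℂ q) (k : ℕ) (s : ℂ), 1 < s.re →
  LSeries (Lk χ (k + 1)) s = ∑ i ∈ range (k + 1),
    (k.choose i : ℂ) * LSeries (Dk χ i) s * LSeries (Lk χ (k - i)) s

/-- A3: bounds for `Σ Λ(n) χ(n) (log n)^k n^{-s}` -/
def StA3 : Prop := ∀ k : ℕ, ∃ C : ℝ, 0 < C ∧ ∃ m : ℕ, ∀ (q : ℕ) [NeZero q]
  (χ : DirichletCharacter ℂ q) (y σ t : ℝ), Rg χ y → 1 < σ → σ ≤ 2 →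
  ‖LSeries (Dk χ k) (σ + t * I)‖ ≤ C * (y + Real.log (|t| + 3)) ^ m

/-- A4: Perron bound -/
def StA4 : Prop := ∀ m : ℕ, ∃ C : ℝ, 0 < C ∧ ∀ (f : ℕ → ℂ) (σ x y B : ℝ), 1 < σ → σ ≤ 2 →
  1 ≤ x → 1 ≤ y → 0 ≤ B → LSeriesSummable f (σ : ℂ) →
  (∀ t : ℝ, ‖LSeries f (σ + t * I)‖ ≤ B * (y + Real.log (|t| + 3)) ^ m) →
  ‖∑ n ∈ Ioc 0 ⌊x⌋₊, f n * ((Real.posLog (x / n) : ℝ) : ℂ)‖ ≤ C * B * x ^ σ * y ^ m

/-- A5: removing the powers of the logarithm -/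
def StA5 : Prop := ∀ k : ℕ, ∃ C : ℝ, 0 < C ∧ ∀ (a : ℕ → ℂ) (B : ℝ), a 1 = 0 →
  (∀ x : ℝ, 1 ≤ x → ‖∑ n ∈ Ioc 0 ⌊x⌋₊, a n * ((Real.log n : ℝ) : ℂ) ^ k *
    ((Real.posLog (x / n) : ℝ) : ℂ)‖ ≤ B * x) →
  ∀ N : ℕ, 2 ≤ N → ‖∑ n ∈ Ioc 0 N, a n * ((Real.posLog ((N : ℝ) / n) : ℝ) : ℂ)‖ ≤
    C * B * N / Real.log N ^ k

/-- A6: Siegel-Walfisz type bound for regular characters -/
def StA6 : Prop := ∀ k : ℕ, ∃ C : ℝ, 0 < C ∧ ∃ m : ℕ, ∀ (q : ℕ) [NeZero q]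
  (χ : DirichletCharacter ℂ q) (y : ℝ), Rg χ y → ∀ N : ℕ, 3 ≤ N →
  ‖smoothSum N (chFun χ)‖ ≤ C * N * y ^ m / Real.log N ^ k

/-- A7: repulsion of exceptional characters -/
def StA7 : Prop := ∃ c : ℝ, 0 < c ∧ ∃ Q₀ : ℕ, ∀ Q : ℕ, Q₀ ≤ Q → ∀ (q₁ q₂ : ℕ) [NeZero q₁]
  [NeZero q₂] (χ₁ : DirichletCharacter ℂ q₁) (χ₂ : DirichletCharacter ℂ q₂),
  q₁ ≤ Q → q₂ ≤ Q → χ₁.IsPrimitive → χ₂.IsPrimitive → χ₁ ≠ 1 → χ₂ ≠ 1 → χ₁ ^ 2 = 1 →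
  χ₂ ^ 2 = 1 →
  (∃ σ : ℝ, 1 < σ ∧ σ ≤ 2 ∧ ‖LSeries (Lk χ₁ 0) (σ : ℂ)‖ < c / Real.log Q ^ 5) →
  (∃ σ : ℝ, 1 < σ ∧ σ ≤ 2 ∧ ‖LSeries (Lk χ₂ 0) (σ : ℂ)‖ < c / Real.log Q ^ 5) →
  chFun χ₁ = chFun χ₂

/-- A8: levels without exceptional character -/
def StA8 : Prop := ∃ c : ℝ, 0 < c ∧ ∀ Q₀ : ℕ, ∃ Q ≥ Q₀, ∀ (q : ℕ) [NeZero q]
  (χ : DirichletCharacter ℂ q), q ≤ Q → χ.IsPrimitive → χ ≠ 1 → χ ^ 2 = 1 →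
  ∀ σ : ℝ, 1 < σ → σ ≤ 2 → c / Real.log Q ^ 5 ≤ ‖LSeries (Lk χ 0) (σ : ℂ)‖

/-- A9: small conductors -/
def StA9 : Prop := ∀ A B M₀ : ℕ, ∃ M ≥ M₀, ∀ N : ℕ, (N = M ∨ N = 2 * M ∨ N = 4 * M) →
  ∀ (q : ℕ) [NeZero q] (χ : DirichletCharacter ℂ q), (q : ℝ) ≤ Real.log M ^ A →
  χ.IsPrimitive → χ ≠ 1 → ‖smoothSum N (chFun χ)‖ ≤ N / Real.log N ^ B

open Classical in
/-- functions of the nonprincipal primitive characters modulo `r` -/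
noncomputable def primFns (r : ℕ) : Finset (ℕ → ℂ) :=
  if h : r = 0 then ∅ else
    have : NeZero r := ⟨h⟩
    ((univ : Finset (DirichletCharacter ℂ r)).filter (fun χ => χ.IsPrimitive ∧ χ ≠ 1)).image chFun

/-- A10: large conductors -/
def StA10 : Prop := ∃ C : ℝ, 0 < C ∧ ∀ N F D : ℕ, 1 ≤ D → F ^ 12 ≤ N → 3 ≤ N →
  ∑ r ∈ Ioc D F, 1 / (r.totient : ℝ) * ∑ g ∈ primFns r, ‖smoothSum N g‖ ≤
    C * N * Real.log N ^ 6 / D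

/-- A11: reduction to primitive characters -/
def StA11 : Prop := ∀ N Q : ℕ,
  ∑ q ∈ Icc 1 Q, 1 / (q.totient : ℝ) * ∑ g ∈ charFns q, ‖smoothSum N g‖ ≤
    (∑ q ∈ Icc 1 Q, 1 / (q.totient : ℝ)) *
      ∑ r ∈ Icc 1 Q, 1 / (r.totient : ℝ) * ∑ g ∈ primFns r, ‖smoothSum N g‖

/-- weighted von Mangoldt sum in a residue class -/
noncomputable def TN (N q a : ℕ) : ℝ :=
  ∑ n ∈ (Ioc 0 N).filter (fun n => n ≡ a [MOD q]),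
    ArithmeticFunction.vonMangoldt n * Real.posLog ((N : ℝ) / n)

/-- A12a: orthogonality -/
def StA12a : Prop := ∀ N q a : ℕ, 1 ≤ N → 1 ≤ q → a.Coprime q →
  |TN N q a - TN N 1 0 / q.totient| ≤
    1 / (q.totient : ℝ) * ∑ g ∈ charFns q, ‖smoothSum N g‖ +
      2 * (q.primeFactors.card * Real.log N ^ 2)

/-- A12b: the tent and primes -/
def StA12b : Prop := ∀ M q a : ℕ, 1 ≤ M →
  |∑ n ∈ (Ioc M (4 * M)).filter (fun n => n ≡ a [MOD q]), fp M n -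
    (TN (4 * M) q a - 2 * TN (2 * M) q a + TN M q a)| ≤ 20 * √M * Real.log (4 * M)

/-- A13a: divisor weights -/
def StA13a : Prop := ∀ k : ℕ, ∃ C : ℝ, 0 < C ∧ ∃ m : ℕ, ∀ Q : ℕ, 2 ≤ Q →
  ∑ q ∈ Icc 1 Q, (k : ℝ) ^ q.primeFactors.card / (q.totient : ℝ) ≤ C * Real.log Q ^ m

/-- A13b: trivial bound -/
def StA13b : Prop := ∀ M q a : ℕ, 2 ≤ M → 1 ≤ q → q ≤ M →
  |∑ n ∈ (Ioc M (4 * M)).filter (fun n => n ≡ a [MOD q]), fp M n - X1 M / q.totient| ≤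
    20 * M * Real.log (4 * M) / q.totient

end Pool.Agent.Helper90.MT
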