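import Pool.Agent.Helper90.MT.StS

/-! Project MT, module Lam: bounds for the sieve coefficients. -/

set_option linter.unusedSectionVars false

namespace Pool.Agent.Helper90.MT

open Finset

namespace LamAux

variable {α ι : Type} [Fintype α] [DecidableEq α] [Fintype ι] [DecidableEq ι]

theorem szA_pos (pr : α → ℕ) (hp : ∀ i, (pr i).Prime) (a : α → Option ι) : 0 < szA pr a := by
  unfold szA
  refine Finset.prod_pos fun i _ => ?_
  split_ifs
  · exact one_pos
  · exact (hp i).pos

theorem prt_pos (pr : α → ℕ) (hp : ∀ i, (pr i).Prime) (a : α → Option ι) (h : ι) :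
    0 < prt pr a h := by
  unfold prt
  refine Finset.prod_pos fun i _ => ?_
  split_ifs
  · exact (hp i).pos
  · exact one_pos

theorem dvd_prt_iff (pr : α → ℕ) (hp : ∀ i, (pr i).Prime) (hi : Function.Injective pr)
    (a : α → Option ι) (h : ι) (i : α) : pr i ∣ prt pr a h ↔ a i = some h := by
  unfold prt
  constructor
  · intro hd
    rw [Prime.dvd_finsetProd_iff (hp i).prime] at hd
    obtain ⟨j, -, hj⟩ := hd
    split_ifs at hj with hc
    · rw [Nat.prime_dvd_prime_iff_eq (hp i) (hp j)] at hj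
      rw [hi hj]; exact hc
    · exact absurd (Nat.dvd_one.1 hj) (hp i).ne_one
  · intro ha
    have : (if a i = some h then pr i else 1) ∣ ∏ j, if a j = some h then pr j else 1 :=
      Finset.dvd_prod_of_mem _ (Finset.mem_univ i)
    rwa [if_pos ha] at this

theorem prt_inj (pr : α → ℕ) (hp : ∀ i, (pr i).Prime) (hi : Function.Injective pr) :
    Function.Injective (fun a : α → Option ι => prt pr a) := by
  intro a a' h
  funext i
  have h1 : ∀ l, a i = some l ↔ a' i = some l := by
    intro l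
    rw [← dvd_prt_iff pr hp hi, ← dvd_prt_iff pr hp hi]
    have := congrFun h l
    simp only at this
    rw [this]
  rcases h2 : a i with _ | l
  · rcases h3 : a' i with _ | l
    · rfl
    · have := (h1 l).2 h3
      rw [h2] at this
      exact this
  · exact ((h1 l).1 h2).symm

theorem szA_eq (pr : α → ℕ) (a : α → Option ι) : szA pr a = ∏ h, prt pr a h := by
  unfold szA prt
  rw [Finset.prod_comm]
  refine Finset.prod_congr rfl fun i _ => ?_
  rcases h : a i with _ | l
  · simp
  · simp only [reduceCtorEq, if_false, Option.some.injEq]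
    rw [Finset.prod_ite_eq]
    simp

theorem sum_inv_le {Z : ℝ} (hZ : 1 ≤ Z) :
    ∑ d ∈ Icc 1 ⌊Z⌋₊, 1 / (d : ℝ) ≤ 1 + Real.log Z := by
  have h := harmonic_floor_le_one_add_log Z hZ
  refine le_trans (le_of_eq ?_) h
  rw [harmonic_eq_sum_Icc]
  push_cast
  refine Finset.sum_congr rfl fun d _ => ?_
  rw [one_div]

theorem sum_inv_nonneg (Z : ℝ) : 0 ≤ ∑ d ∈ Icc 1 ⌊Z⌋₊, 1 / (d : ℝ) :=
  Finset.sum_nonneg fun d _ => by positivity

open Classical in
theorem sum_szA_le (pr : α → ℕ) (hp : ∀ i, (pr i).Prime) (hi : Function.Injective pr) {Z : ℝ}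
    (hZ : 1 ≤ Z) :
    ∑ a ∈ univ.filter (fun a : α → Option ι => (szA pr a : ℝ) ≤ Z), 1 / (szA pr a : ℝ) ≤
      (1 + Real.log Z) ^ Fintype.card ι := by
  have h1 : ∀ a : α → Option ι, 1 / (szA pr a : ℝ) = ∏ h, 1 / (prt pr a h : ℝ) := by
    intro a
    rw [szA_eq]
    push_cast
    rw [Finset.prod_div_distrib, Finset.prod_const_one]
  have h2 : ∑ a ∈ univ.filter (fun a : α → Option ι => (szA pr a : ℝ) ≤ Z),
      1 / (szA pr a : ℝ) = ∑ x ∈ (univ.filter (fun a : α → Option ι =>
        (szA pr a : ℝ) ≤ Z)).image (fun a => prt pr a), ∏ h, 1 / (x h : ℝ) := by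
    rw [Finset.sum_image (fun a _ b _ hab => prt_inj pr hp hi hab)]
    exact Finset.sum_congr rfl fun a _ => h1 a
  have h3 : (univ.filter (fun a : α → Option ι => (szA pr a : ℝ) ≤ Z)).image
      (fun a => prt pr a) ⊆ Fintype.piFinset (fun _ : ι => Icc 1 ⌊Z⌋₊) := by
    intro x hx
    obtain ⟨a, ha, rfl⟩ := Finset.mem_image.1 hx
    rw [Fintype.mem_piFinset]
    intro h
    rw [Finset.mem_Icc]
    refine ⟨prt_pos pr hp a h, Nat.le_floor ?_⟩
    refine le_trans ?_ (Finset.mem_filter.1 ha).2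
    have : prt pr a h ∣ szA pr a := by
      rw [szA_eq]
      exact Finset.dvd_prod_of_mem _ (Finset.mem_univ h)
    exact_mod_cast Nat.le_of_dvd (szA_pos pr hp a) this
  rw [h2]
  refine (Finset.sum_le_sum_of_subset_of_nonneg h3 fun x _ _ =>
    Finset.prod_nonneg fun h _ => by positivity).trans ?_
  rw [← Finset.prod_univ_sum (fun _ : ι => Icc 1 ⌊Z⌋₊) (fun _ d => 1 / (d : ℝ)),
    Finset.prod_const, Finset.card_univ]
  exact pow_le_pow_left₀ (sum_inv_nonneg Z) (sum_inv_le hZ) _

/-- absolute values of the local matrices -/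
noncomputable def TA (p : ℕ) (o o' : Option ι) : ℝ := |TT p o o'|

theorem TA_ext {p : ℕ} {o o' : Option ι} (h : TA p o o' ≠ 0) (ho : o ≠ none) : o' = o := by
  rcases o with _ | l
  · exact absurd rfl ho
  · rcases o' with _ | l'
    · simp [TA, TT] at h
    · by_cases hl : l = l'
      · rw [hl]
      · simp [TA, TT, hl] at h

theorem TA_nonneg (p : ℕ) (o o' : Option ι) : 0 ≤ TA p o o' := abs_nonneg _

theorem sum_TA (p : ℕ) (hp : p.Prime) (o' : Option ι) :
    ∑ o, TA p o o' ≤ if o' = none then 1 else 2 := by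
  have hp1 : (1 : ℝ) ≤ p := by exact_mod_cast hp.one_lt.le
  rcases o' with _ | l
  · rw [Fintype.sum_option]
    simp [TA, TT]
  · rw [Fintype.sum_option]
    simp only [reduceCtorEq, if_false]
    have h1 : ∑ x, TA p (some x) (some l) = 1 := by
      rw [Finset.sum_eq_single l]
      · simp [TA, TT]
      · intro x _ hx
        simp [TA, TT, hx]
      · simp
    rw [h1]
    have h2 : TA p none (some l) ≤ 1 := by
      simp only [TA, TT]
      rw [abs_of_nonneg (by positivity), div_le_one (by linarith)]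
      exact hp1
    linarith

theorem abs_lam_le (pr : α → ℕ) (Y : (α → Option ι) → ℝ) (hY : ∀ a, 0 ≤ Y a)
    (b : α → Option ι) : |lam pr Y b| ≤ ∑ a, (∏ i, TA (pr i) (b i) (a i)) * Y a := by
  unfold lam
  refine (Finset.abs_sum_le_sum_abs _ _).trans (le_of_eq ?_)
  refine Finset.sum_congr rfl fun a _ => ?_
  rw [abs_mul, Finset.abs_prod, abs_of_nonneg (hY a)]
  rfl

theorem prod_TA_ne {pr : α → ℕ} {b a : α → Option ι}
    (h : ∏ i, TA (pr i) (b i) (a i) ≠ 0) (i : α) (hb : b i ≠ none) : a i = b i :=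
  TA_ext (Finset.prod_ne_zero_iff.1 h i (Finset.mem_univ i)) hb

/-- the part of `a` outside of `b` -/
def off (b a : α → Option ι) : α → Option ι := fun i => if b i = none then a i else none

theorem prod_TA_eq {pr : α → ℕ} {b a : α → Option ι}
    (h : ∏ i, TA (pr i) (b i) (a i) ≠ 0) :
    ∏ i, TA (pr i) (b i) (a i) = 1 / (szA pr (off b a) : ℝ) := by
  unfold szA
  push_cast
  rw [one_div, ← Finset.prod_inv_distrib]
  refine Finset.prod_congr rfl fun i _ => ?_
  by_cases hb : b i = none
  · rcases ha : a i with _ | l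
    · simp [TA, TT, hb, off, ha]
    · simp only [TA, TT, hb, off, ha, if_true, reduceCtorEq, if_false, one_div]
      rw [abs_of_nonneg (by positivity)]
  · have ha := prod_TA_ne h i hb
    rcases hb' : b i with _ | l
    · exact absurd hb' hb
    · rw [hb'] at ha
      simp [TA, TT, off, hb', ha]

theorem szA_off_le (pr : α → ℕ) (hp : ∀ i, (pr i).Prime) (b a : α → Option ι) :
    szA pr (off b a) ≤ szA pr a := by
  unfold szA
  refine Finset.prod_le_prod' fun i _ => ?_
  by_cases hb : b i = none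
  · simp [off, hb]
  · simp only [off, hb, if_false, if_true]
    split_ifs
    · exact le_rfl
    · exact (hp i).one_lt.le

theorem szA_le_of_ext (pr : α → ℕ) (hp : ∀ i, (pr i).Prime) {b a : α → Option ι}
    (h : ∀ i, b i ≠ none → a i = b i) : szA pr b ≤ szA pr a := by
  unfold szA
  refine Finset.prod_le_prod' fun i _ => ?_
  by_cases hb : b i = none
  · simp only [hb, if_true]
    split_ifs
    · exact le_rfl
    · exact (hp i).one_lt.le
  · simp [h i hb]

open Classical in
theorem lam_le (pr : α → ℕ) (Y : (α → Option ι) → ℝ) {B Z : ℝ} (hp : ∀ i, (pr i).Prime)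
    (hi : Function.Injective pr) (hZ : 1 ≤ Z) (hY : ∀ a, 0 ≤ Y a) (hB : ∀ a, Y a ≤ B)
    (hs : ∀ a, Y a ≠ 0 → (szA pr a : ℝ) ≤ Z) (b : α → Option ι) :
    |lam pr Y b| ≤ B * (1 + Real.log Z) ^ Fintype.card ι := by
  have hB0 : 0 ≤ B := (hY (fun _ => none)).trans (hB _)
  refine (abs_lam_le pr Y hY b).trans ?_
  have h1 : ∑ a, (∏ i, TA (pr i) (b i) (a i)) * Y a =
      ∑ a ∈ univ.filter (fun a : α → Option ι => (∏ i, TA (pr i) (b i) (a i)) ≠ 0 ∧ Y a ≠ 0),
        (∏ i, TA (pr i) (b i) (a i)) * Y a := by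
    rw [Finset.sum_filter]
    refine Finset.sum_congr rfl fun a _ => ?_
    split_ifs with hc
    · rfl
    · by_contra hne
      exact hc ⟨left_ne_zero_of_mul hne, right_ne_zero_of_mul hne⟩
  rw [h1]
  have h2 : ∑ a ∈ univ.filter (fun a : α → Option ι => (∏ i, TA (pr i) (b i) (a i)) ≠ 0 ∧
      Y a ≠ 0), (∏ i, TA (pr i) (b i) (a i)) * Y a ≤
      ∑ a ∈ univ.filter (fun a : α → Option ι => (∏ i, TA (pr i) (b i) (a i)) ≠ 0 ∧ Y a ≠ 0),
        B * (1 / (szA pr (off b a) : ℝ)) := by
    refine Finset.sum_le_sum fun a ha => ?_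
    rw [Finset.mem_filter] at ha
    rw [prod_TA_eq ha.2.1, mul_comm]
    exact mul_le_mul_of_nonneg_right (hB a) (by positivity)
  refine h2.trans ?_
  rw [← Finset.mul_sum]
  refine mul_le_mul_of_nonneg_left ?_ hB0
  refine le_trans ?_ (sum_szA_le pr hp hi hZ)
  have h3 : Set.InjOn (off b) (univ.filter (fun a : α → Option ι =>
      (∏ i, TA (pr i) (b i) (a i)) ≠ 0 ∧ Y a ≠ 0) : Finset (α → Option ι)) := by
    intro a ha a' ha' h
    rw [Finset.mem_coe, Finset.mem_filter] at ha ha'
    funext i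
    by_cases hb : b i = none
    · have := congrFun h i
      simpa [off, hb] using this
    · rw [prod_TA_ne ha.2.1 i hb, prod_TA_ne ha'.2.1 i hb]
  rw [← Finset.sum_image (f := fun a : α → Option ι => 1 / (szA pr a : ℝ)) h3]
  refine Finset.sum_le_sum_of_subset_of_nonneg ?_ fun x _ _ => by positivity
  intro x hx
  obtain ⟨a, ha, rfl⟩ := Finset.mem_image.1 hx
  rw [Finset.mem_filter] at ha ⊢
  refine ⟨Finset.mem_univ _, le_trans ?_ (hs a ha.2.2)⟩
  exact_mod_cast szA_off_le pr hp b a

theorem lam_ne (pr : α → ℕ) (Y : (α → Option ι) → ℝ) {Z : ℝ} (hp : ∀ i, (pr i).Prime)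
    (hs : ∀ a, Y a ≠ 0 → (szA pr a : ℝ) ≤ Z) (b : α → Option ι) (hb : lam pr Y b ≠ 0) :
    (szA pr b : ℝ) ≤ Z := by
  unfold lam at hb
  obtain ⟨a, -, ha⟩ := Finset.exists_ne_zero_of_sum_ne_zero hb
  have h1 : ∏ i, TA (pr i) (b i) (a i) ≠ 0 := by
    have := left_ne_zero_of_mul ha
    unfold TA
    rw [← Finset.abs_prod]
    exact abs_ne_zero.2 this
  refine le_trans ?_ (hs a (right_ne_zero_of_mul ha))
  exact_mod_cast szA_le_of_ext pr hp (prod_TA_ne h1)

/-- the projection -/
def pj (a : α → Option (ι × Bool)) : α → Option ι := fun i => (a i).map Prod.fst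

theorem szA_pj (pr : α → ℕ) (a : α → Option (ι × Bool)) : szA pr (pj a) = szA pr a := by
  unfold szA pj
  refine Finset.prod_congr rfl fun i _ => ?_
  rcases a i with _ | l <;> simp

theorem card_pj (a : α → Option ι) :
    (∏ i, (if a i = none then (1 : ℝ) else 2)) =
      #(univ.filter (fun a' : α → Option (ι × Bool) => pj a' = a)) := by
  have h1 : univ.filter (fun a' : α → Option (ι × Bool) => pj a' = a) =
      Fintype.piFinset (fun i => univ.filter (fun o : Option (ι × Bool) =>
        o.map Prod.fst = a i)) := by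
    ext a'
    simp only [Finset.mem_filter, Finset.mem_univ, true_and, Fintype.mem_piFinset]
    constructor
    · rintro rfl i
      rfl
    · intro h
      funext i
      exact h i
  rw [h1, Fintype.card_piFinset]
  push_cast
  refine Finset.prod_congr rfl fun i _ => ?_
  rcases h : a i with _ | l
  · have : univ.filter (fun o : Option (ι × Bool) => o.map Prod.fst = none) = {none} := by
      ext o
      rcases o with _ | o <;> simp
    rw [this]
    simp
  · have : univ.filter (fun o : Option (ι × Bool) => o.map Prod.fst = some l) =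
        {some (l, true), some (l, false)} := by
      ext o
      rcases o with _ | ⟨o, c⟩
      · simp
      · cases c <;> simp
    rw [this, Finset.card_pair (by simp)]
    simp

open Classical in
theorem sum_lam_le (pr : α → ℕ) (Y : (α → Option ι) → ℝ) {B Z : ℝ} (hp : ∀ i, (pr i).Prime)
    (hi : Function.Injective pr) (hZ : 1 ≤ Z) (hY : ∀ a, 0 ≤ Y a) (hB : ∀ a, Y a ≤ B)
    (hs : ∀ a, Y a ≠ 0 → (szA pr a : ℝ) ≤ Z) :
    ∑ b, |lam pr Y b| ≤ B * Z * (1 + Real.log Z) ^ (2 * Fintype.card ι) := by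
  have hB0 : 0 ≤ B := (hY (fun _ => none)).trans (hB _)
  have h1 : ∑ b, |lam pr Y b| ≤ ∑ b : α → Option ι, ∑ a : α → Option ι,
      (∏ i, TA (pr i) (b i) (a i)) * Y a :=
    Finset.sum_le_sum fun b _ => abs_lam_le pr Y hY b
  refine h1.trans ?_
  rw [Finset.sum_comm]
  have h2 : ∀ a : α → Option ι, ∑ b : α → Option ι, (∏ i, TA (pr i) (b i) (a i)) * Y a ≤
      (∏ i, (if a i = none then (1 : ℝ) else 2)) * Y a := by
    intro a
    rw [← Finset.sum_mul]
    refine mul_le_mul_of_nonneg_right ?_ (hY a)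
    have h3 : ∑ b : α → Option ι, ∏ i, TA (pr i) (b i) (a i) =
        ∏ i, ∑ o, TA (pr i) o (a i) := by
      rw [Finset.prod_univ_sum, Fintype.piFinset_univ]
    rw [h3]
    exact Finset.prod_le_prod (fun i _ => Finset.sum_nonneg fun o _ => TA_nonneg _ _ _)
      fun i _ => sum_TA (pr i) (hp i) (a i)
  refine (Finset.sum_le_sum fun a _ => h2 a).trans ?_
  have h4 : ∀ a : α → Option ι, (∏ i, (if a i = none then (1 : ℝ) else 2)) * Y a ≤
      if (szA pr a : ℝ) ≤ Z then
        B * Z * ((∏ i, (if a i = none then (1 : ℝ) else 2)) * (1 / (szA pr a : ℝ))) else 0 := by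
    intro a
    have hc0 : 0 ≤ (∏ i, (if a i = none then (1 : ℝ) else 2)) :=
      Finset.prod_nonneg fun i _ => by split_ifs <;> norm_num
    by_cases hY0 : Y a = 0
    · rw [hY0, mul_zero]
      split_ifs
      · positivity
      · exact le_rfl
    · have hsa := hs a hY0
      rw [if_pos hsa]
      have hpos : (0 : ℝ) < szA pr a := by exact_mod_cast szA_pos pr hp a
      have h5 : Y a ≤ B * Z * (1 / (szA pr a : ℝ)) := by
        have h6 : 1 ≤ Z * (1 / (szA pr a : ℝ)) := by
          rw [mul_one_div, le_div_iff₀ hpos]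
          linarith
        calc Y a ≤ B * 1 := by rw [mul_one]; exact hB a
          _ ≤ B * (Z * (1 / (szA pr a : ℝ))) := mul_le_mul_of_nonneg_left h6 hB0
          _ = _ := by ring
      calc _ ≤ (∏ i, (if a i = none then (1 : ℝ) else 2)) * (B * Z * (1 / (szA pr a : ℝ))) :=
            mul_le_mul_of_nonneg_left h5 hc0
        _ = _ := by ring
  refine (Finset.sum_le_sum fun a _ => h4 a).trans ?_
  rw [← Finset.sum_filter, ← Finset.mul_sum]
  refine mul_le_mul_of_nonneg_left ?_ (by positivity)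
  have h7 := sum_szA_le (ι := ι × Bool) pr hp hi hZ
  rw [Fintype.card_prod, Fintype.card_bool, mul_comm (Fintype.card ι) 2] at h7
  refine le_trans (le_of_eq ?_) h7
  have hmaps : ∀ a' ∈ univ.filter (fun a : α → Option (ι × Bool) => (szA pr a : ℝ) ≤ Z),
      pj a' ∈ univ.filter (fun a : α → Option ι => (szA pr a : ℝ) ≤ Z) := by
    intro a' ha'
    rw [Finset.mem_filter] at ha' ⊢
    rw [szA_pj]
    exact ⟨Finset.mem_univ _, ha'.2⟩
  rw [← Finset.sum_fiberwise_of_maps_to hmaps]
  refine Finset.sum_congr rfl fun a ha => ?_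
  have hsa := (Finset.mem_filter.1 ha).2
  have h8 : (univ.filter (fun a : α → Option (ι × Bool) => (szA pr a : ℝ) ≤ Z)).filter
      (fun a' => pj a' = a) = univ.filter (fun a' : α → Option (ι × Bool) => pj a' = a) := by
    ext a'
    simp only [Finset.mem_filter, Finset.mem_univ, true_and]
    constructor
    · exact fun h => h.2
    · intro h
      refine ⟨?_, h⟩
      rw [← szA_pj, h]
      exact hsa
  rw [h8, card_pj]
  rw [Finset.sum_congr rfl (g := fun _ => 1 / (szA pr a : ℝ))]
  · rw [Finset.sum_const, nsmul_eq_mul]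
  · intro a' ha'
    rw [← szA_pj, (Finset.mem_filter.1 ha').2]

end LamAux

theorem lam_bd : StLam := by
  intro α ι _ _ _ _ pr Y B Z hp hi hZ hY hB hs
  exact ⟨fun b => LamAux.lam_le pr Y hp hi hZ hY hB hs b,
    fun b hb => LamAux.lam_ne pr Y hp hs b hb, LamAux.sum_lam_le pr Y hp hi hZ hY hB hs⟩

end Pool.Agent.Helper90.MT
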