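import Pool.Agent.Helper90.MT.StA

/-!
Project MT (MP_3ec731_nt), module A-A13b: trivial bound for the discrepancy.
-/

namespace Pool.Agent.Helper90.MT

open Finset

namespace A13b

theorem tent_lo {M n : ℕ} (hM : 1 ≤ M) (h1 : M < n) (h2 : n ≤ 2 * M) :
    tent M n = Real.log n - Real.log M := by
  have hM0 : (0 : ℝ) < M := by exact_mod_cast hM
  have hn0 : (0 : ℝ) < n := by exact_mod_cast (by omega : 0 < n)
  have hn1 : (M : ℝ) < n := by exact_mod_cast h1
  have hn2 : (n : ℝ) ≤ 2 * M := by exact_mod_cast h2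
  unfold tent
  rw [Real.posLog_eq_log (x := 4 * (M : ℝ) / n), Real.posLog_eq_log (x := 2 * (M : ℝ) / n),
    (Real.posLog_eq_zero_iff ((M : ℝ) / n)).2, Real.log_div (by positivity) hn0.ne',
    Real.log_div (by positivity) hn0.ne', Real.log_mul (by norm_num) hM0.ne',
    Real.log_mul (by norm_num) hM0.ne', show (4 : ℝ) = 2 ^ 2 by norm_num, Real.log_pow]
  · push_cast
    ring
  · rw [abs_of_nonneg (by positivity), div_le_one hn0]
    exact hn1.le
  · rw [abs_of_nonneg (by positivity), le_div_iff₀ hn0]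
    linarith
  · rw [abs_of_nonneg (by positivity), le_div_iff₀ hn0]
    linarith

theorem tent_hi {M n : ℕ} (hM : 1 ≤ M) (h1 : 2 * M < n) (h2 : n ≤ 4 * M) :
    tent M n = Real.log (4 * M) - Real.log n := by
  have hM0 : (0 : ℝ) < M := by exact_mod_cast hM
  have hn0 : (0 : ℝ) < n := by exact_mod_cast (by omega : 0 < n)
  have hn1 : 2 * (M : ℝ) < n := by exact_mod_cast h1
  have hn2 : (n : ℝ) ≤ 4 * M := by exact_mod_cast h2
  unfold tent
  rw [Real.posLog_eq_log (x := 4 * (M : ℝ) / n), (Real.posLog_eq_zero_iff (2 * (M : ℝ) / n)).2,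
    (Real.posLog_eq_zero_iff ((M : ℝ) / n)).2, Real.log_div (by positivity) hn0.ne']
  · ring
  · rw [abs_of_nonneg (by positivity), div_le_one hn0]
    linarith
  · rw [abs_of_nonneg (by positivity), div_le_one hn0]
    linarith
  · rw [abs_of_nonneg (by positivity), le_div_iff₀ hn0]
    linarith

theorem log_two_le : Real.log 2 ≤ 1 := by
  have := Real.log_two_lt_d9
  linarith

theorem tent_mem {M n : ℕ} (hM : 1 ≤ M) (h1 : M < n) (h2 : n ≤ 4 * M) :
    0 ≤ tent M n ∧ tent M n ≤ 1 := by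
  have hM0 : (0 : ℝ) < M := by exact_mod_cast hM
  have hn0 : (0 : ℝ) < n := by exact_mod_cast (by omega : 0 < n)
  rcases le_or_gt n (2 * M) with h | h
  · rw [tent_lo hM h1 h]
    have hn1 : (M : ℝ) ≤ n := by exact_mod_cast h1.le
    have hn2 : (n : ℝ) ≤ 2 * M := by exact_mod_cast h
    have e1 := Real.log_le_log hM0 hn1
    have e2 := Real.log_le_log hn0 hn2
    rw [Real.log_mul (by norm_num) hM0.ne'] at e2
    have := log_two_le
    constructor <;> linarith
  · rw [tent_hi hM h h2]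
    have hn1 : 2 * (M : ℝ) ≤ n := by exact_mod_cast h.le
    have hn2 : (n : ℝ) ≤ 4 * M := by exact_mod_cast h2
    have e1 := Real.log_le_log (by positivity) hn1
    have e2 := Real.log_le_log hn0 hn2
    have e3 : Real.log (4 * M) = Real.log 2 + Real.log (2 * M) := by
      rw [← Real.log_mul (by norm_num) (by positivity)]
      congr 1
      ring
    have := log_two_le
    constructor <;> linarith

theorem fp_mem {M n : ℕ} (hM : 1 ≤ M) (h1 : M < n) (h2 : n ≤ 4 * M) :
    0 ≤ fp M n ∧ fp M n ≤ Real.log (4 * M) := by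
  obtain ⟨h3, h4⟩ := tent_mem hM h1 h2
  have hn0 : (0 : ℝ) < n := by exact_mod_cast (by omega : 0 < n)
  have hn1 : (1 : ℝ) ≤ n := by exact_mod_cast (by omega : 1 ≤ n)
  have hn2 : (n : ℝ) ≤ 4 * M := by exact_mod_cast h2
  have h5 : 0 ≤ Real.log n := Real.log_nonneg hn1
  have h6 : Real.log n ≤ Real.log (4 * M) := Real.log_le_log hn0 hn2
  unfold fp
  split_ifs
  · refine ⟨mul_nonneg h5 h3, ?_⟩
    calc Real.log n * tent M n ≤ Real.log n * 1 := mul_le_mul_of_nonneg_left h4 h5
      _ ≤ _ := by rw [mul_one]; exact h6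
  · exact ⟨le_rfl, h5.trans h6⟩

theorem card_le (M q a : ℕ) (hM : 1 ≤ M) (hq : 1 ≤ q) (hqM : q ≤ M) :
    (((Ioc M (4 * M)).filter (fun n => n ≡ a [MOD q])).card : ℝ) ≤ 4 * M / q := by
  have hq0 : (0 : ℝ) < q := by exact_mod_cast hq
  have h := Nat.Ioc_filter_modEq_card (a := M) (b := 4 * M) (r := q) hq a
  have hq0' : (0 : ℚ) < q := by exact_mod_cast hq
  have hkey : ((((Ioc M (4 * M)).filter (fun n => n ≡ a [MOD q])).card : ℤ) : ℚ) ≤ 4 * M / q := by
    rw [h]
    rw [Int.cast_max]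
    apply max_le
    · have e1 : ((⌊(((4 * M : ℕ) : ℚ) - a) / q⌋ : ℤ) : ℚ) ≤ (((4 * M : ℕ) : ℚ) - a) / q :=
        Int.floor_le _
      have e2 : (((M : ℕ) : ℚ) - a) / q < (⌊(((M : ℕ) : ℚ) - a) / q⌋ : ℤ) + 1 :=
        Int.lt_floor_add_one _
      have e3 : (1 : ℚ) ≤ M / q := by
        rw [le_div_iff₀ hq0']
        rw [one_mul]
        exact_mod_cast hqM
      push_cast at e1 e2 ⊢
      have e4 : (4 * (M : ℚ) - a) / q - ((M : ℚ) - a) / q = 3 * (M / q) := by
        field_simp
        ring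
      have e5 : 4 * (M : ℚ) / q = 4 * (M / q) := by ring
      rw [e5]
      linarith
    · push_cast
      positivity
  have h2 : (((((Ioc M (4 * M)).filter (fun n => n ≡ a [MOD q])).card : ℤ) : ℚ) : ℝ) ≤
      ((4 * M / q : ℚ) : ℝ) := by exact_mod_cast hkey
  push_cast at h2
  exact h2

end A13b

open A13b in
theorem a13b : StA13b := by
  intro M q a hM hq hqM
  have hM1 : 1 ≤ M := by omega
  have hM0 : (0 : ℝ) < M := by exact_mod_cast hM1
  have hφ : 0 < q.totient := Nat.totient_pos.2 hq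
  have hφ0 : (0 : ℝ) < q.totient := by exact_mod_cast hφ
  have hq0 : (0 : ℝ) < q := by exact_mod_cast hq
  have hφq : (q.totient : ℝ) ≤ q := by exact_mod_cast Nat.totient_le q
  have hL : 0 ≤ Real.log (4 * M) := by
    apply Real.log_nonneg
    have : (1 : ℝ) ≤ M := by exact_mod_cast hM1
    linarith
  set S := ∑ n ∈ (Ioc M (4 * M)).filter (fun n => n ≡ a [MOD q]), fp M n with hS
  have h1 : 0 ≤ S := Finset.sum_nonneg fun n hn => by
    rw [mem_filter, mem_Ioc] at hn
    exact (fp_mem hM1 hn.1.1 hn.1.2).1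
  have h2 : S ≤ 4 * M * Real.log (4 * M) / q.totient := by
    calc S ≤ ∑ n ∈ (Ioc M (4 * M)).filter (fun n => n ≡ a [MOD q]), Real.log (4 * M) :=
          Finset.sum_le_sum fun n hn => by
            rw [mem_filter, mem_Ioc] at hn
            exact (fp_mem hM1 hn.1.1 hn.1.2).2
      _ = ((Ioc M (4 * M)).filter (fun n => n ≡ a [MOD q])).card * Real.log (4 * M) := by
          rw [Finset.sum_const, nsmul_eq_mul]
      _ ≤ (4 * M / q) * Real.log (4 * M) :=
          mul_le_mul_of_nonneg_right (card_le M q a hM1 hq hqM) hL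
      _ ≤ (4 * M / q.totient) * Real.log (4 * M) := by
          apply mul_le_mul_of_nonneg_right _ hL
          exact div_le_div_of_nonneg_left (by positivity) hφ0 hφq
      _ = _ := by ring
  have h3 : 0 ≤ X1 M := Finset.sum_nonneg fun n hn => by
    rw [mem_Ioc] at hn
    exact (fp_mem hM1 hn.1 hn.2).1
  have h4 : X1 M ≤ 3 * M * Real.log (4 * M) := by
    calc X1 M ≤ ∑ n ∈ Ioc M (4 * M), Real.log (4 * M) := Finset.sum_le_sum fun n hn => by
            rw [mem_Ioc] at hn
            exact (fp_mem hM1 hn.1 hn.2).2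
      _ = 3 * M * Real.log (4 * M) := by
          rw [Finset.sum_const, nsmul_eq_mul, Nat.card_Ioc, show 4 * M - M = 3 * M by omega]
          push_cast
          ring
  have h5 : X1 M / q.totient ≤ 3 * M * Real.log (4 * M) / q.totient :=
    div_le_div_of_nonneg_right h4 hφ0.le
  have h6 : 0 ≤ X1 M / q.totient := div_nonneg h3 hφ0.le
  have h7 : 0 ≤ M * Real.log (4 * M) / q.totient := by positivity
  have e1 : 4 * M * Real.log (4 * M) / q.totient = 4 * (M * Real.log (4 * M) / q.totient) := by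
    ring
  have e2 : 3 * M * Real.log (4 * M) / q.totient = 3 * (M * Real.log (4 * M) / q.totient) := by
    ring
  have e3 : 20 * M * Real.log (4 * M) / q.totient = 20 * (M * Real.log (4 * M) / q.totient) := by
    ring
  rw [e1] at h2
  rw [e2] at h5
  rw [e3, abs_le]
  constructor <;> linarith

end Pool.Agent.Helper90.MT
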