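import Pool.Agent.Helper90.MT.StS

/-!
Project MT: counting integers.
-/

namespace Pool.Agent.Helper90.MT

open Finset

theorem cntD_iff {p h n : ℕ} (hp : 0 < p) : p ∣ n + h ↔ n ≡ (p - 1) * h [MOD p] := by
  have h1 : (p - 1) * h + h ≡ 0 [MOD p] := by
    have : (p - 1) * h + h = p * h := by
      obtain ⟨q, rfl⟩ : ∃ q, p = q + 1 := ⟨p - 1, by omega⟩
      simp only [Nat.add_sub_cancel]
      ring
    rw [this]
    exact (Nat.modEq_zero_iff_dvd).2 (dvd_mul_right _ _)
  rw [← Nat.modEq_zero_iff_dvd]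
  constructor
  · intro h2
    exact Nat.ModEq.add_right_cancel' h (h2.trans h1.symm)
  · intro h2
    exact (Nat.ModEq.add_right h h2).trans h1

theorem cntD_crt {α ι : Type} [Fintype α] [DecidableEq α] [Fintype ι] [DecidableEq ι]
    {pr : α → ℕ} {sh : ι → ℕ} {K W v : ℕ} (hOk : Ok pr sh K W v) (b b' : α → Option ι)
    (hc : ∀ i h h', b i = some h → b' i = some h' → h = h') :
    ∃ c, ∀ n, (n ≡ v [MOD W] ∧ mat pr sh b n ∧ mat pr sh b' n) ↔
      n ≡ c [MOD W * szU pr b b'] := by
  have key : ∀ s : Finset α, ∃ c, ∀ n, (n ≡ v [MOD W] ∧ ∀ i ∈ s,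
      (∀ h, b i = some h → pr i ∣ n + sh h) ∧ (∀ h, b' i = some h → pr i ∣ n + sh h)) ↔
      n ≡ c [MOD W * ∏ i ∈ s, if b i = none ∧ b' i = none then 1 else pr i] := by
    intro s
    induction s using Finset.induction_on with
    | empty => exact ⟨v, fun n => by simp⟩
    | insert i s hi ih =>
      obtain ⟨c, hc1⟩ := ih
      by_cases h0 : b i = none ∧ b' i = none
      · refine ⟨c, fun n => ?_⟩
        rw [prod_insert hi, if_pos h0, one_mul, ← hc1 n]
        simp only [mem_insert, forall_eq_or_imp, h0.1, h0.2]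
        simp
      · obtain ⟨h, hh⟩ : ∃ h, ∀ n, ((∀ h, b i = some h → pr i ∣ n + sh h) ∧
            (∀ h, b' i = some h → pr i ∣ n + sh h)) ↔ pr i ∣ n + sh h := by
          rcases hb : b i with _ | h
          · rcases hb' : b' i with _ | h'
            · exact absurd ⟨hb, hb'⟩ h0
            · exact ⟨h', fun n => ⟨fun h1 => h1.2 h' rfl, fun h1 => ⟨by simp, by
                intro h2 h3
                rw [← Option.some_injective _ h3]
                exact h1⟩⟩⟩
          · refine ⟨h, fun n => ⟨fun h1 => h1.1 h rfl, fun h1 => ⟨by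
              intro h2 h3
              rw [← Option.some_injective _ h3]
              exact h1, fun h2 h3 => ?_⟩⟩⟩
            rw [← hc i h h2 hb h3]
            exact h1
        have hco : (W * ∏ j ∈ s, if b j = none ∧ b' j = none then 1 else pr j).Coprime (pr i) := by
          refine Nat.Coprime.mul_left (hOk.cop i).symm ?_
          refine Nat.Coprime.prod_left fun j hj => ?_
          split_ifs
          · exact Nat.coprime_one_left _
          · refine (Nat.coprime_primes (hOk.prime j) (hOk.prime i)).2 fun he => ?_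
            exact hi (hOk.inj he ▸ hj)
        obtain ⟨c', hc2, hc3⟩ := Nat.chineseRemainder hco c ((pr i - 1) * sh h)
        refine ⟨c', fun n => ?_⟩
        rw [prod_insert hi, if_neg h0, mul_comm (pr i), ← mul_assoc,
          ← Nat.modEq_and_modEq_iff_modEq_mul hco]
        simp only [mem_insert, forall_eq_or_imp]
        rw [hh n, cntD_iff (hOk.prime i).pos]
        constructor
        · rintro ⟨h1, h2, h3⟩
          exact ⟨((hc1 n).1 ⟨h1, h3⟩).trans hc2.symm, h2.trans hc3.symm⟩
        · rintro ⟨h1, h2⟩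
          have h4 := (hc1 n).2 (h1.trans hc2)
          exact ⟨h4.1, h2.trans hc3, h4.2⟩
  obtain ⟨c, h⟩ := key univ
  refine ⟨c, fun n => ?_⟩
  rw [szU, ← h n]
  unfold mat
  constructor
  · rintro ⟨h1, h2, h3⟩
    exact ⟨h1, fun i _ => ⟨h2 i, h3 i⟩⟩
  · rintro ⟨h1, h2⟩
    exact ⟨h1, fun i => (h2 i (mem_univ i)).1, fun i => (h2 i (mem_univ i)).2⟩

theorem cntD_empty {α ι : Type} [Fintype α] [DecidableEq α] [Fintype ι] [DecidableEq ι]
    {pr : α → ℕ} {sh : ι → ℕ} {K W v : ℕ} (hOk : Ok pr sh K W v) {b b' : α → Option ι}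
    {i : α} {h h' : ι} (hb : b i = some h) (hb' : b' i = some h') (hne : h ≠ h') (n : ℕ) :
    ¬ (mat pr sh b n ∧ mat pr sh b' n) := by
  rintro ⟨h1, h2⟩
  have h3 := (Nat.modEq_zero_iff_dvd).2 (h1 i h hb)
  have h4 := (Nat.modEq_zero_iff_dvd).2 (h2 i h' hb')
  exact hOk.dist i h h' hne (Nat.ModEq.add_left_cancel' n (h3.trans h4.symm))

open Classical in
theorem cntD : StCntD := by
  intro α ι _ _ _ _ pr sh K W v b b' N η X V hOk hV hE
  by_cases hcon : ∃ i h h', b i = some h ∧ b' i = some h' ∧ h ≠ h'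
  · obtain ⟨i, h, h', hb, hb', hne⟩ := hcon
    rw [filter_false_of_mem fun n _ hn => cntD_empty hOk hb hb' hne n hn.2, sum_empty,
      prod_eq_zero (mem_univ i) (by rw [hb, hb']; exact if_neg hne), mul_zero, sub_zero,
      abs_zero]
    exact hV
  · push Not at hcon
    obtain ⟨c, hc⟩ := cntD_crt hOk b b' fun i h h' h1 h2 => hcon i h h' h1 h2
    have h1 : N.filter (fun n => n ≡ v [MOD W] ∧ mat pr sh b n ∧ mat pr sh b' n) =
        N.filter (fun n => n ≡ c [MOD W * szU pr b b']) :=
      filter_congr fun n _ => hc n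
    have hsz : 0 < szU pr b b' := by
      refine prod_pos fun i _ => ?_
      split_ifs
      · exact one_pos
      · exact (hOk.prime i).pos
    have h2 : X / W * ∏ i, MD (pr i) (b i) (b' i) = X / ((W * szU pr b b' : ℕ) : ℝ) := by
      have h3 : ∏ i, MD (pr i) (b i) (b' i) = 1 / ((szU pr b b' : ℕ) : ℝ) := by
        rw [szU, Nat.cast_prod, one_div, ← prod_inv_distrib]
        refine prod_congr rfl fun i _ => ?_
        rcases hb : b i with _ | h
        · rcases hb' : b' i with _ | h'
          · simp [MD]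
          · simp [MD]
        · rcases hb' : b' i with _ | h'
          · simp [MD]
          · have := hcon i h h' hb hb'
            simp [MD, this]
      rw [h3, Nat.cast_mul, div_mul_div_comm, mul_one]
    rw [h1, h2]
    exact hE _ c (Nat.mul_pos hOk.W0 hsz)

end Pool.Agent.Helper90.MT
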