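import Pool.Agent.Helper90.MT.StS

/-!
Project MT: local form of the integers.
-/

namespace Pool.Agent.Helper90.MT

open Finset

theorem formD_swap {κ : Type} [Fintype κ] (M T : κ → κ → ℝ) (v : κ → ℝ) :
    ∑ o, ∑ o', (∑ x, ∑ y, M x y * T x o * T y o') * v o * v o' =
      ∑ x, ∑ y, M x y * (∑ o, T x o * v o) * (∑ o, T y o * v o) := by
  have h1 : ∀ x y, M x y * (∑ o, T x o * v o) * (∑ o, T y o * v o) =
      ∑ o, ∑ o', M x y * T x o * T y o' * v o * v o' := by
    intro x y
    rw [mul_assoc, sum_mul_sum, mul_sum]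
    refine sum_congr rfl fun o _ => ?_
    rw [mul_sum]
    exact sum_congr rfl fun o' _ => by ring
  simp only [h1, sum_mul]
  calc ∑ o, ∑ o', ∑ x, ∑ y, M x y * T x o * T y o' * v o * v o'
      = ∑ o, ∑ x, ∑ o', ∑ y, M x y * T x o * T y o' * v o * v o' :=
        sum_congr rfl fun o _ => sum_comm
    _ = ∑ x, ∑ o, ∑ o', ∑ y, M x y * T x o * T y o' * v o * v o' := sum_comm
    _ = ∑ x, ∑ o, ∑ y, ∑ o', M x y * T x o * T y o' * v o * v o' :=
        sum_congr rfl fun x _ => sum_congr rfl fun o _ => sum_comm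
    _ = ∑ x, ∑ y, ∑ o, ∑ o', M x y * T x o * T y o' * v o * v o' :=
        sum_congr rfl fun x _ => sum_comm

theorem formD_MD {ι : Type} [Fintype ι] [DecidableEq ι] (p : ℕ) (L : Option ι → ℝ) :
    ∑ x, ∑ y, MD p x y * L x * L y = L none ^ 2 + 2 * (1 / (p : ℝ)) * L none * ∑ h, L (some h) +
      (1 / (p : ℝ)) * ∑ h, L (some h) ^ 2 := by
  have h2 : ∀ h : ι, ∑ h', MD p (some h) (some h') * L (some h) * L (some h') =
      (1 / (p : ℝ)) * L (some h) ^ 2 := by
    intro h
    simp only [MD, ite_mul, zero_mul]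
    rw [sum_ite_eq]
    simp only [mem_univ, if_true]
    ring
  have h3 : ∑ h : ι, MD p none (some h) * L none * L (some h) =
      (1 / (p : ℝ)) * L none * ∑ h, L (some h) := by
    rw [mul_sum]
    rfl
  have h4 : ∑ h : ι, MD p (some h) none * L (some h) * L none =
      (1 / (p : ℝ)) * L none * ∑ h, L (some h) := by
    rw [mul_sum]
    refine sum_congr rfl fun h _ => ?_
    change 1 / (p : ℝ) * L (some h) * L none = _
    ring
  have h5 : MD p (none : Option ι) none * L none * L none = (L none) ^ 2 := by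
    change 1 * L none * L none = _
    ring
  simp only [Fintype.sum_option, sum_add_distrib]
  rw [h3, h4, h5, sum_congr rfl fun h _ => h2 h, ← mul_sum]
  ring

theorem formD : StFormD := by
  intro ι _ _ p v hp hK
  have hp' : (0 : ℝ) < p := by exact_mod_cast hp
  have key : ∑ o, ∑ o', (∑ x, ∑ y, MD p x y * TT p x o * TT p y o') * v o * v o' =
      v none ^ 2 + (1 / (p : ℝ)) * ∑ h, v (some h) ^ 2 -
        (1 / (p : ℝ)) ^ 2 * (∑ h, v (some h)) ^ 2 := by
    rw [formD_swap, formD_MD p (fun x => ∑ o, TT p x o * v o)]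
    have h0 : ∑ o, TT p none o * v o = v none + (1 / (p : ℝ)) * ∑ h, v (some h) := by
      rw [Fintype.sum_option, mul_sum]
      simp only [TT, one_mul]
    have h1 : ∀ h : ι, ∑ o, TT p (some h) o * v o = -v (some h) := by
      intro h
      rw [Fintype.sum_option]
      simp only [TT, zero_mul, zero_add, ite_mul, neg_mul, one_mul]
      rw [sum_ite_eq]
      simp
    simp only [h0, h1]
    rw [sum_neg_distrib]
    simp only [neg_sq]
    ring
  rw [key]
  have hcs : (∑ h, v (some h)) ^ 2 ≤ (p : ℝ) * ∑ h, v (some h) ^ 2 := by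
    have h1 := sq_sum_le_card_mul_sum_sq (s := (univ : Finset ι)) (f := fun h => v (some h))
    have h2 : ((univ : Finset ι).card : ℝ) ≤ p := by
      rw [card_univ]
      exact_mod_cast hK
    exact h1.trans (mul_le_mul_of_nonneg_right h2 (sum_nonneg fun _ _ => sq_nonneg _))
  have h3 : (1 / (p : ℝ)) ^ 2 * (∑ h, v (some h)) ^ 2 ≤ (1 / (p : ℝ)) * ∑ h, v (some h) ^ 2 := by
    calc (1 / (p : ℝ)) ^ 2 * (∑ h, v (some h)) ^ 2 ≤
        (1 / (p : ℝ)) ^ 2 * ((p : ℝ) * ∑ h, v (some h) ^ 2) :=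
          mul_le_mul_of_nonneg_left hcs (by positivity)
      _ = (1 / (p : ℝ)) * ∑ h, v (some h) ^ 2 := by
        field_simp
  have h4 : 0 ≤ (1 / (p : ℝ)) ^ 2 * (∑ h, v (some h)) ^ 2 := by positivity
  constructor
  · nlinarith [sq_nonneg (v none)]
  · linarith

end Pool.Agent.Helper90.MT
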