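import Pool.Agent.Helper90.MT.StS

/-!
Project MT, module S-Hlow: lower bound of the normalising sum.
-/

namespace Pool.Agent.Helper90.MT

open Finset

namespace Hlw

theorem sum_le_inj {A B : Type*} [DecidableEq B] (s : Finset A) (t : Finset B) (e : A → B)
    (f : A → ℝ) (g : B → ℝ) (he : ∀ a ∈ s, e a ∈ t)
    (inj : ∀ a ∈ s, ∀ a' ∈ s, e a = e a' → a = a') (g0 : ∀ b ∈ t, 0 ≤ g b)
    (h : ∀ a ∈ s, f a ≤ g (e a)) : ∑ a ∈ s, f a ≤ ∑ b ∈ t, g b := by
  calc ∑ a ∈ s, f a ≤ ∑ a ∈ s, g (e a) := sum_le_sum h
    _ = ∑ b ∈ s.image e, g b := by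
        rw [sum_image]
        intro a ha a' ha' hh
        exact inj a ha a' ha' hh
    _ ≤ ∑ b ∈ t, g b := by
        apply sum_le_sum_of_subset_of_nonneg
        · intro b hb
          obtain ⟨a, ha, rfl⟩ := mem_image.1 hb
          exact he a ha
        · intro b hb _
          exact g0 b hb

variable {α : Type} [Fintype α] [DecidableEq α]

open Classical in
noncomputable def ff (pr : α → ℕ) (R' : ℝ) (S : Finset α) : ℝ :=
  if ((∏ i ∈ S, pr i : ℕ) : ℝ) ≤ R' then 1 / ((∏ i ∈ S, pr i : ℕ) : ℝ) else 0

theorem ff_nonneg (pr : α → ℕ) (R' : ℝ) (S : Finset α) : 0 ≤ ff pr R' S := by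
  unfold ff
  split_ifs <;> positivity

theorem prod_pos' (pr : α → ℕ) (hp : ∀ i, (pr i).Prime) (S : Finset α) : 0 < ∏ i ∈ S, pr i :=
  prod_pos (fun i _ => (hp i).pos)

/-- removing a part of the product -/
theorem ff_split (pr : α → ℕ) (hp : ∀ i, (pr i).Prime) (R' : ℝ) (S1 S2 S : Finset α)
    (hd : Disjoint S1 S2) (hS : S = S1 ∪ S2) :
    ff pr R' S ≤ (∏ i ∈ S1, 1 / (pr i : ℝ)) * ff pr R' S2 := by
  have h1 : ∏ i ∈ S, pr i = (∏ i ∈ S1, pr i) * ∏ i ∈ S2, pr i := by
    rw [hS, prod_union hd]
  have hp1 := prod_pos' pr hp S1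
  have hp2 := prod_pos' pr hp S2
  unfold ff
  by_cases hR : ((∏ i ∈ S, pr i : ℕ) : ℝ) ≤ R'
  · have hR2 : ((∏ i ∈ S2, pr i : ℕ) : ℝ) ≤ R' := by
      refine le_trans ?_ hR
      rw [h1]
      exact_mod_cast Nat.le_mul_of_pos_left _ hp1
    rw [if_pos hR, if_pos hR2, h1]
    rw [prod_div_distrib, prod_const_one]
    push_cast
    rw [one_div_mul_one_div]
  · rw [if_neg hR]
    have := ff_nonneg pr R' S2
    unfold ff at this
    exact mul_nonneg (prod_nonneg fun i _ => by positivity) this

theorem Sp_le (pr : α → ℕ) (R' : ℝ) :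
    ∑ d ∈ (DD pr).filter (fun d : ℕ => (d : ℝ) ≤ R'), 1 / (d : ℝ) ≤
      ∑ S ∈ (univ : Finset α).powerset, ff pr R' S := by
  classical
  rw [sum_filter]
  unfold DD
  have := Finset.sum_image_le_of_nonneg (s := (univ : Finset α).powerset)
    (g := fun s => ∏ i ∈ s, pr i)
    (f := fun d : ℕ => if (d : ℝ) ≤ R' then 1 / (d : ℝ) else 0) (by
      intro u _
      split_ifs <;> positivity)
  refine le_trans this (le_of_eq ?_)
  apply sum_congr rfl
  intro S _
  rfl

theorem T_le (pr : α → ℕ) (hp : ∀ i, (pr i).Prime) (R' : ℝ) (U : Finset α) :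
    ∑ S ∈ (univ : Finset α).powerset, ff pr R' S ≤
      (∏ i ∈ Uᶜ, (1 + 1 / (pr i : ℝ))) * ∑ S ∈ U.powerset, ff pr R' S := by
  classical
  rw [prod_one_add, sum_mul_sum, ← sum_product']
  apply sum_le_inj _ _ (fun S => (S \ U, S ∩ U))
  · intro S _
    simp only [mem_product, mem_powerset]
    refine ⟨?_, inter_subset_right⟩
    intro i hi
    rw [mem_compl]
    exact (mem_sdiff.1 hi).2
  · intro S _ S' _ h
    simp only [Prod.mk.injEq] at h
    rw [← sdiff_union_inter S U, ← sdiff_union_inter S' U, h.1, h.2]
  · rintro ⟨S1, S2⟩ _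
    exact mul_nonneg (prod_nonneg fun i _ => by positivity) (ff_nonneg _ _ _)
  · intro S _
    exact ff_split pr hp R' (S \ U) (S ∩ U) S (disjoint_sdiff_inter S U)
      (sdiff_union_inter S U).symm

theorem one_le (pr : α → ℕ) (hp : ∀ i, (pr i).Prime) (R' : ℝ) (U : Finset α) (i : α)
    (_hi : i ∈ U) :
    ∑ S ∈ U.powerset.filter (fun S => i ∈ S), ff pr R' S ≤
      1 / (pr i : ℝ) * ∑ S ∈ U.powerset, ff pr R' S := by
  classical
  rw [mul_sum]
  apply sum_le_inj _ _ (fun S => S.erase i)
  · intro S hS
    rw [mem_filter, mem_powerset] at hS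
    rw [mem_powerset]
    exact (erase_subset _ _).trans hS.1
  · intro S hS S' hS' h
    rw [mem_filter] at hS hS'
    rw [← insert_erase hS.2, ← insert_erase hS'.2, h]
  · intro S _
    exact mul_nonneg (by positivity) (ff_nonneg _ _ _)
  · intro S hS
    rw [mem_filter] at hS
    have := ff_split pr hp R' {i} (S.erase i) S (by simp) (by
      rw [← insert_eq, insert_erase hS.2])
    simpa using this

theorem pairs (pr : α → ℕ) (hp : ∀ i, (pr i).Prime) (R' : ℝ) (U : Finset α) :
    (1 - ∑ i, 1 / (pr i : ℝ) ^ 2) * (∑ S ∈ U.powerset, ff pr R' S) ^ 2 ≤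
      ∑ x ∈ (U.powerset ×ˢ U.powerset).filter (fun x => Disjoint x.1 x.2),
        ff pr R' x.1 * ff pr R' x.2 := by
  classical
  set T := ∑ S ∈ U.powerset, ff pr R' S with hT
  have hT0 : 0 ≤ T := sum_nonneg fun S _ => ff_nonneg _ _ _
  have h1 : ∑ x ∈ (U.powerset ×ˢ U.powerset), ff pr R' x.1 * ff pr R' x.2 -
      ∑ i ∈ U, ∑ x ∈ (U.powerset ×ˢ U.powerset).filter (fun x => i ∈ x.1 ∧ i ∈ x.2),
        ff pr R' x.1 * ff pr R' x.2 ≤
      ∑ x ∈ (U.powerset ×ˢ U.powerset).filter (fun x => Disjoint x.1 x.2),
        ff pr R' x.1 * ff pr R' x.2 := by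
    rw [sum_filter]
    simp_rw [sum_filter]
    rw [sum_comm, ← sum_sub_distrib]
    apply sum_le_sum
    rintro ⟨S1, S2⟩ hx
    simp only [mem_product, mem_powerset] at hx
    have hn : 0 ≤ ff pr R' S1 * ff pr R' S2 := mul_nonneg (ff_nonneg _ _ _) (ff_nonneg _ _ _)
    have hs0 : ∀ i ∈ U, 0 ≤ (if i ∈ S1 ∧ i ∈ S2 then ff pr R' S1 * ff pr R' S2 else 0) := by
      intro i _
      split_ifs
      · exact hn
      · exact le_rfl
    by_cases hd : Disjoint S1 S2
    · simp only [hd, if_true]
      have := sum_nonneg hs0
      linarith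
    · simp only [hd, if_false]
      rw [not_disjoint_iff] at hd
      obtain ⟨i, hi1, hi2⟩ := hd
      have := single_le_sum hs0 (hx.1 hi1)
      simp only [hi1, hi2, and_self, if_true] at this
      linarith
  have h2 : ∑ x ∈ (U.powerset ×ˢ U.powerset), ff pr R' x.1 * ff pr R' x.2 = T ^ 2 := by
    rw [sum_product, sq, hT, sum_mul_sum]
  have h3 : ∀ i ∈ U, ∑ x ∈ (U.powerset ×ˢ U.powerset).filter (fun x => i ∈ x.1 ∧ i ∈ x.2),
        ff pr R' x.1 * ff pr R' x.2 ≤ 1 / (pr i : ℝ) ^ 2 * T ^ 2 := by
    intro i hi
    have e1 : (U.powerset ×ˢ U.powerset).filter (fun x => i ∈ x.1 ∧ i ∈ x.2) =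
        (U.powerset.filter (fun S => i ∈ S)) ×ˢ (U.powerset.filter (fun S => i ∈ S)) := by
      ext ⟨S1, S2⟩
      simp only [mem_filter, mem_product]
      tauto
    rw [e1, sum_product]
    rw [← sum_mul_sum]
    have h4 := one_le pr hp R' U i hi
    have h5 : 0 ≤ ∑ S ∈ U.powerset.filter (fun S => i ∈ S), ff pr R' S :=
      sum_nonneg fun S _ => ff_nonneg _ _ _
    calc _ ≤ (1 / (pr i : ℝ) * T) * (1 / (pr i : ℝ) * T) := mul_le_mul h4 h4 h5 (by positivity)
      _ = 1 / (pr i : ℝ) ^ 2 * T ^ 2 := by ring
  have h6 : ∑ i ∈ U, ∑ x ∈ (U.powerset ×ˢ U.powerset).filter (fun x => i ∈ x.1 ∧ i ∈ x.2),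
        ff pr R' x.1 * ff pr R' x.2 ≤ (∑ i, 1 / (pr i : ℝ) ^ 2) * T ^ 2 := by
    refine le_trans (sum_le_sum h3) ?_
    rw [sum_mul]
    apply sum_le_sum_of_subset_of_nonneg (subset_univ U)
    intro i _ _
    positivity
  rw [h2] at h1
  nlinarith [h1, h6]

end Hlw

open Hlw in
theorem hlow : StHlow := by
  intro α ι _ _ _ _ pr D R' a hp _hinj hD hR
  classical
  set U := univ.filter (fun i => a i = none) with hU
  set T := ∑ S ∈ U.powerset, ff pr R' S with hT
  set S' := ∑ d ∈ (DD pr).filter (fun d : ℕ => (d : ℝ) ≤ R'), 1 / (d : ℝ) with hS'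
  set Pc := ∏ i ∈ Uᶜ, (1 + 1 / (pr i : ℝ)) with hPc
  set Q := ∑ i, 1 / (pr i : ℝ) ^ 2 with hQ
  have hQ0 : 0 ≤ Q := sum_nonneg fun i _ => by positivity
  have hT0 : 0 ≤ T := sum_nonneg fun S _ => ff_nonneg _ _ _
  have hS0 : 0 ≤ S' := sum_nonneg fun d _ => by positivity
  have hPc0 : 0 ≤ Pc := prod_nonneg fun i _ => by positivity
  have hSP : S' ≤ Pc * T := (Sp_le pr R').trans (T_le pr hp R' U)
  have hprod : ∏ i, (if a i = none then (1 : ℝ) else (1 + 1 / (pr i : ℝ)) ^ #D) = Pc ^ #D := by
    rw [hPc, ← prod_pow]
    rw [prod_ite, prod_const_one, one_mul]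
    apply prod_congr
    · ext i
      simp [hU]
    · intro i _
      rfl
  have hterm : ∀ c : α → Option ι, (0 : ℝ) ≤
      if (∀ i, c i ≠ none → a i = none ∧ ∃ h ∈ D, c i = some h) ∧
        (∀ h ∈ D, (prt pr c h : ℝ) ≤ R') then 1 / (szA pr c : ℝ) else 0 := by
    intro c
    split_ifs <;> positivity
  have hHH0 : 0 ≤ HH pr D R' a := by
    unfold HH
    exact sum_nonneg fun c _ => by
      have := hterm c
      convert this
  rw [hprod]
  rcases le_or_gt (1 - Q) 0 with hneg | hpos
  · have h1 : (1 - Q) * S' ^ #D ≤ 0 := mul_nonpos_of_nonpos_of_nonneg hneg (by positivity)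
    have h2 : 0 ≤ HH pr D R' a * Pc ^ #D := by positivity
    linarith
  · suffices hmain : (1 - Q) * T ^ #D ≤ HH pr D R' a by
      calc (1 - Q) * S' ^ #D ≤ (1 - Q) * (Pc * T) ^ #D := by
            apply mul_le_mul_of_nonneg_left _ hpos.le
            exact pow_le_pow_left₀ hS0 hSP _
        _ = ((1 - Q) * T ^ #D) * Pc ^ #D := by rw [mul_pow]; ring
        _ ≤ HH pr D R' a * Pc ^ #D := mul_le_mul_of_nonneg_right hmain (by positivity)
    have hcase : #D = 0 ∨ #D = 1 ∨ #D = 2 := by omega
    rcases hcase with h0 | h1 | h2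
    · rw [h0, pow_zero, mul_one]
      rw [card_eq_zero] at h0
      have : (1 : ℝ) ≤ HH pr D R' a := by
        unfold HH
        have hs := single_le_sum (s := (univ : Finset (α → Option ι)))
          (f := fun c : α → Option ι =>
            if (∀ i, c i ≠ none → a i = none ∧ ∃ h ∈ D, c i = some h) ∧
            (∀ h ∈ D, (prt pr c h : ℝ) ≤ R') then 1 / (szA pr c : ℝ) else 0)
          (fun c _ => hterm c) (mem_univ (fun _ : α => (none : Option ι)))
        refine le_trans (le_of_eq ?_) hs
        simp [h0, szA]
      linarith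
    · rw [h1, pow_one]
      obtain ⟨h, hh⟩ := card_eq_one.1 h1
      have : T ≤ HH pr D R' a := by
        unfold HH
        rw [hT]
        apply sum_le_inj U.powerset univ (fun S i => if i ∈ S then some h else none)
        · intro S _
          exact mem_univ _
        · intro S _ S' _ heq
          ext i
          have := congrFun heq i
          by_cases h1 : i ∈ S <;> by_cases h2 : i ∈ S' <;> simp [h1, h2] at this ⊢
        · intro c _
          have := hterm c
          convert this
        · intro S hS
          rw [mem_powerset] at hS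
          dsimp only
          have e1 : prt pr (fun i => if i ∈ S then some h else none) h = ∏ i ∈ S, pr i := by
            unfold prt
            rw [← prod_subset (subset_univ S)]
            · apply prod_congr rfl
              intro i hi
              simp [hi]
            · intro i _ hi
              simp [hi]
          have e2 : szA pr (fun i => if i ∈ S then (some h : Option ι) else none) =
              ∏ i ∈ S, pr i := by
            unfold szA
            rw [← prod_subset (subset_univ S)]
            · apply prod_congr rfl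
              intro i hi
              simp [hi]
            · intro i _ hi
              simp [hi]
          by_cases hle : ((∏ i ∈ S, pr i : ℕ) : ℝ) ≤ R'
          · rw [if_pos]
            · unfold ff
              rw [if_pos hle, e2]
            · refine ⟨?_, ?_⟩
              · intro i hi
                have hiS : i ∈ S := by
                  by_contra hc
                  simp [hc] at hi
                refine ⟨?_, h, ?_, ?_⟩
                · have := hS hiS
                  rw [hU, mem_filter] at this
                  exact this.2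
                · rw [hh]; simp
                · simp [hiS]
              · intro h' hh'
                rw [hh, mem_singleton] at hh'
                rw [hh', e1]
                exact hle
          · have : ff pr R' S = 0 := by
              unfold ff
              rw [if_neg hle]
            rw [this]
            split_ifs <;> positivity
      nlinarith
    · rw [h2]
      obtain ⟨h, h', hne, hh⟩ := card_eq_two.1 h2
      refine le_trans (pairs pr hp R' U) ?_
      unfold HH
      apply sum_le_inj _ univ
        (fun (x : Finset α × Finset α) i => if i ∈ x.1 then some h else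
          if i ∈ x.2 then some h' else none)
      · intro S _
        exact mem_univ _
      · rintro ⟨S1, S2⟩ hx ⟨S3, S4⟩ hy heq
        rw [mem_filter] at hx hy
        have hd1 : Disjoint S1 S2 := hx.2
        have hd2 : Disjoint S3 S4 := hy.2
        rw [disjoint_left] at hd1 hd2
        have hi : ∀ i, (i ∈ S1 ↔ i ∈ S3) ∧ (i ∈ S2 ↔ i ∈ S4) := by
          intro i
          have := congrFun heq i
          have ha1 := @hd1 i
          have ha2 := @hd2 i
          by_cases c1 : i ∈ S1 <;> by_cases c2 : i ∈ S2 <;> by_cases c3 : i ∈ S3 <;>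
            by_cases c4 : i ∈ S4 <;> simp_all
        rw [Prod.mk.injEq]
        exact ⟨by ext i; exact (hi i).1, by ext i; exact (hi i).2⟩
      · intro c _
        have := hterm c
        convert this
      · rintro ⟨S1, S2⟩ hx
        rw [mem_filter, mem_product, mem_powerset, mem_powerset] at hx
        obtain ⟨⟨hS1, hS2⟩, hd⟩ := hx
        dsimp only at hS1 hS2 hd ⊢
        have hd' := hd
        rw [disjoint_left] at hd'
        have e1 : prt pr (fun i => if i ∈ S1 then some h else
            if i ∈ S2 then some h' else none) h = ∏ i ∈ S1, pr i := by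
          unfold prt
          rw [← prod_subset (subset_univ S1)]
          · apply prod_congr rfl
            intro i hi
            simp [hi]
          · intro i _ hi
            by_cases h2 : i ∈ S2 <;> simp [hi, h2, hne.symm]
        have e1' : prt pr (fun i => if i ∈ S1 then some h else
            if i ∈ S2 then some h' else none) h' = ∏ i ∈ S2, pr i := by
          unfold prt
          rw [← prod_subset (subset_univ S2)]
          · apply prod_congr rfl
            intro i hi
            have : i ∉ S1 := fun hc => hd' hc hi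
            simp [hi, this]
          · intro i _ hi
            by_cases h2 : i ∈ S1 <;> simp [hi, h2, hne]
        have e2 : szA pr (fun i => if i ∈ S1 then some h else
            if i ∈ S2 then (some h' : Option ι) else none) =
            (∏ i ∈ S1, pr i) * ∏ i ∈ S2, pr i := by
          unfold szA
          rw [← prod_union hd]
          rw [← prod_subset (subset_univ (S1 ∪ S2))]
          · apply prod_congr rfl
            intro i hi
            rw [mem_union] at hi
            by_cases c1 : i ∈ S1 <;> by_cases c2 : i ∈ S2 <;> simp_all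
          · intro i _ hi
            rw [mem_union, not_or] at hi
            simp [hi.1, hi.2]
        by_cases hle : ((∏ i ∈ S1, pr i : ℕ) : ℝ) ≤ R' ∧ ((∏ i ∈ S2, pr i : ℕ) : ℝ) ≤ R'
        · rw [if_pos]
          · unfold ff
            rw [if_pos hle.1, if_pos hle.2, e2]
            push_cast
            rw [one_div_mul_one_div]
          · refine ⟨?_, ?_⟩
            · intro i hi
              by_cases c1 : i ∈ S1
              · refine ⟨?_, h, ?_, ?_⟩
                · have := hS1 c1
                  rw [hU, mem_filter] at this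
                  exact this.2
                · rw [hh]; simp
                · simp [c1]
              · by_cases c2 : i ∈ S2
                · refine ⟨?_, h', ?_, ?_⟩
                  · have := hS2 c2
                    rw [hU, mem_filter] at this
                    exact this.2
                  · rw [hh]; simp
                  · simp [c1, c2]
                · simp [c1, c2] at hi
            · intro k hk
              rw [hh, mem_insert, mem_singleton] at hk
              rcases hk with rfl | rfl
              · rw [e1]; exact hle.1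
              · rw [e1']; exact hle.2
        · have : ff pr R' S1 * ff pr R' S2 = 0 := by
            unfold ff
            rw [not_and_or] at hle
            rcases hle with hl | hl
            · rw [if_neg hl, zero_mul]
            · rw [if_neg hl, mul_zero]
          rw [this]
          split_ifs <;> positivity

end Pool.Agent.Helper90.MT
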