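import Pool.Agent.Helper90.MT.StS

/-!
Project MT, part S: the global form of the integers.
-/

namespace Pool.Agent.Helper90.MT

open Finset

theorem QD_MD_symm {ι : Type} [DecidableEq ι] (p : ℕ) (x y : Option ι) :
    MD p x y = MD p y x := by
  cases x with
  | none => cases y with
    | none => rfl
    | some h => rfl
  | some h => cases y with
    | none => rfl
    | some h' =>
      show (if h = h' then 1 / (p : ℝ) else 0) = if h' = h then 1 / (p : ℝ) else 0
      by_cases e : h = h'
      · rw [if_pos e, if_pos e.symm]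
      · rw [if_neg e, if_neg (Ne.symm e)]

/-- the diagonal comparison matrix -/
noncomputable def QD_B {ι : Type} [DecidableEq ι] (p : ℕ) (o o' : Option ι) : ℝ :=
  if o = o' then (if o = none then 1 else 1 / (p : ℝ)) else 0

theorem qD (h1 : StTensor) (h2 : StVar) (h3 : StFormD) : StQD := by
  classical
  intro α ι _ _ _ _ pr Y hpos hcard
  have e1 := h2 α (Option ι) (fun i => MD (pr i)) (fun i => TT (pr i)) Y
  have e2 : ∑ b, ∑ b', (∏ i, MD (pr i) (b i) (b' i)) * lam pr Y b * lam pr Y b' =
      ∑ a : α → Option ι, ∑ a' : α → Option ι,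
        (∏ i, ∑ o, ∑ o', MD (pr i) o o' * TT (pr i) o (a i) * TT (pr i) o' (a' i)) *
          Y a * Y a' := e1
  rw [e2]
  have hB : ∀ (p : ℕ) (v : Option ι → ℝ), ∑ o, ∑ o', QD_B p o o' * v o * v o' =
      v none ^ 2 + (1 / (p : ℝ)) * ∑ h, v (some h) ^ 2 := by
    intro p v
    have h4 : ∀ o : Option ι, ∑ o', QD_B p o o' * v o * v o' =
        (if o = none then 1 else 1 / (p : ℝ)) * v o ^ 2 := by
      intro o
      rw [Finset.sum_eq_single o]
      · unfold QD_B
        rw [if_pos rfl]
        ring
      · intro o' _ ho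
        unfold QD_B
        rw [if_neg (Ne.symm ho)]
        ring
      · intro h
        exact absurd (Finset.mem_univ _) h
    rw [Finset.sum_congr rfl fun o _ => h4 o, Fintype.sum_option, if_pos rfl, one_mul,
      Finset.mul_sum]
    congr 1
  have e3 := h1 α (Option ι)
    (fun i o o' => ∑ x, ∑ y, MD (pr i) x y * TT (pr i) x o * TT (pr i) y o')
    (fun i => QD_B (pr i))
    (by
      intro i o o'
      rw [Finset.sum_comm]
      refine Finset.sum_congr rfl fun x _ => Finset.sum_congr rfl fun y _ => ?_
      rw [QD_MD_symm (pr i) y x]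
      ring)
    (by
      intro i o o'
      unfold QD_B
      by_cases e : o = o'
      · rw [if_pos e, if_pos e.symm, e]
      · rw [if_neg e, if_neg (Ne.symm e)])
    (fun i v => (h3 ι (pr i) v (hpos i) (hcard i)).1)
    (fun i v => by
      rw [hB]
      exact (h3 ι (pr i) v (hpos i) (hcard i)).2) Y
  refine e3.trans (le_of_eq ?_)
  refine Finset.sum_congr rfl fun a _ => ?_
  rw [Finset.sum_eq_single a]
  · have h5 : ∏ i, QD_B (pr i) (a i) (a i) = (szA pr a : ℝ)⁻¹ := by
      unfold szA
      rw [Nat.cast_prod, ← Finset.prod_inv_distrib]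
      refine Finset.prod_congr rfl fun i _ => ?_
      unfold QD_B
      rw [if_pos rfl]
      split_ifs
      · simp
      · rw [one_div]
    rw [h5, div_eq_mul_inv]
    ring
  · intro b _ hb
    obtain ⟨i, hi⟩ := Function.ne_iff.1 hb
    have h6 : ∏ i, QD_B (pr i) (a i) (b i) = 0 := by
      refine Finset.prod_eq_zero (Finset.mem_univ i) ?_
      unfold QD_B
      rw [if_neg (Ne.symm hi)]
    rw [h6]
    ring
  · intro h
    exact absurd (Finset.mem_univ _) h

end Pool.Agent.Helper90.MT
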