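import Pool.Agent.Helper90.MT.StS

/-!
Project MT: the integer sum assembled.
-/

namespace Pool.Agent.Helper90.MT

open Finset

theorem s1_expand {α ι : Type} [Fintype α] [DecidableEq α] [Fintype ι] [DecidableEq ι]
    (pr : α → ℕ) (sh : ι → ℕ) (Y : (α → Option ι) → ℝ) (R : Finset ℕ) (P : ℕ → Prop)
    (η : ℕ → ℝ) [DecidablePred P]
    [∀ b b', DecidablePred (fun n => P n ∧ mat pr sh b n ∧ mat pr sh b' n)] :
    ∑ n ∈ R.filter (fun n => P n), η n * wt pr sh Y n =
      ∑ b, ∑ b', lam pr Y b * lam pr Y b' *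
        ∑ n ∈ R.filter (fun n => P n ∧ mat pr sh b n ∧ mat pr sh b' n), η n := by
  classical
  have h1 : ∀ n, η n * wt pr sh Y n = ∑ b, ∑ b', lam pr Y b * lam pr Y b' *
      (if mat pr sh b n ∧ mat pr sh b' n then η n else 0) := by
    intro n
    rw [wt, sq, sum_mul_sum, mul_sum]
    refine sum_congr rfl fun b _ => ?_
    rw [mul_sum]
    refine sum_congr rfl fun b' _ => ?_
    by_cases hb : mat pr sh b n
    · by_cases hb' : mat pr sh b' n
      · rw [if_pos hb, if_pos hb', if_pos ⟨hb, hb'⟩]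
        ring
      · rw [if_neg hb', if_neg (fun h : mat pr sh b n ∧ mat pr sh b' n => hb' h.2)]
        ring
    · rw [if_neg hb, if_neg (fun h : mat pr sh b n ∧ mat pr sh b' n => hb h.1)]
      ring
  simp only [h1]
  rw [sum_comm]
  refine sum_congr rfl fun b _ => ?_
  rw [sum_comm]
  refine sum_congr rfl fun b' _ => ?_
  rw [← mul_sum, ← sum_filter, filter_filter]
  refine congrArg _ (sum_congr ?_ fun _ _ => rfl)
  ext n
  simp only [mem_filter]

theorem s1 (h1 : StQD) (h2 : StCntD) : StS1 := by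
  classical
  intro α ι _ _ _ _ pr sh W v Y N η X V hok hX hV hE
  have hq := h1 α ι pr Y (fun i => (hok.prime i).pos)
    (fun i => by have := hok.large i; omega)
  have hc := fun b b' => h2 α ι pr sh (Fintype.card ι) W v b b' N η X V hok hV hE
  have hex := s1_expand pr sh Y N (fun n => n ≡ v [MOD W]) η
  have hle : ∀ b b' : α → Option ι, lam pr Y b * lam pr Y b' *
      ∑ n ∈ N.filter (fun n => n ≡ v [MOD W] ∧ mat pr sh b n ∧ mat pr sh b' n), η n ≤
      X / W * ((∏ i, MD (pr i) (b i) (b' i)) * lam pr Y b * lam pr Y b') +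
        V * (|lam pr Y b| * |lam pr Y b'|) := by
    intro b b'
    have h3 := hc b b'
    set S := ∑ n ∈ N.filter (fun n => n ≡ v [MOD W] ∧ mat pr sh b n ∧ mat pr sh b' n), η n with hS
    have h4 : lam pr Y b * lam pr Y b' * S =
        X / W * ((∏ i, MD (pr i) (b i) (b' i)) * lam pr Y b * lam pr Y b') +
        (lam pr Y b * lam pr Y b') * (S - X / W * ∏ i, MD (pr i) (b i) (b' i)) := by ring
    have h5 : (lam pr Y b * lam pr Y b') * (S - X / W * ∏ i, MD (pr i) (b i) (b' i)) ≤
        V * (|lam pr Y b| * |lam pr Y b'|) := by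
      refine (le_abs_self _).trans ?_
      rw [abs_mul, abs_mul, mul_comm V]
      refine mul_le_mul_of_nonneg_left ?_ (by positivity)
      rw [hS]
      convert h3 using 4
    rw [h4]
    linarith
  rw [hex]
  calc ∑ b, ∑ b', lam pr Y b * lam pr Y b' *
        ∑ n ∈ N.filter (fun n => n ≡ v [MOD W] ∧ mat pr sh b n ∧ mat pr sh b' n), η n
      ≤ ∑ b, ∑ b', (X / W * ((∏ i, MD (pr i) (b i) (b' i)) * lam pr Y b * lam pr Y b') +
        V * (|lam pr Y b| * |lam pr Y b'|)) :=
        sum_le_sum fun b _ => sum_le_sum fun b' _ => hle b b'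
    _ = X / W * (∑ b, ∑ b', (∏ i, MD (pr i) (b i) (b' i)) * lam pr Y b * lam pr Y b') +
        V * (∑ b, |lam pr Y b|) ^ 2 := by
        simp only [sum_add_distrib]
        rw [sq, sum_mul_sum]
        simp only [mul_sum]
    _ ≤ X / W * ∑ a, Y a ^ 2 / szA pr a + V * (∑ b, |lam pr Y b|) ^ 2 := by
        have : (0 : ℝ) ≤ X / W := div_nonneg hX (Nat.cast_nonneg W)
        have := mul_le_mul_of_nonneg_left hq this
        linarith

end Pool.Agent.Helper90.MT
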