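import Pool.Agent.Helper90.MT.StS

/-! # Module S-Tensor: tensor products of positive semidefinite forms -/

namespace Pool.Agent.Helper90.MT

open Finset Matrix

open scoped MatrixOrder in
private theorem gram {κ : Type} [Fintype κ] [DecidableEq κ] (A : κ → κ → ℝ)
    (hs : ∀ o o', A o o' = A o' o) (hp : ∀ v : κ → ℝ, 0 ≤ ∑ o, ∑ o', A o o' * v o * v o') :
    ∃ G : κ → κ → ℝ, ∀ o o', A o o' = ∑ k, G k o * G k o' := by
  have hA : (Matrix.of A).PosSemidef := by
    refine Matrix.PosSemidef.of_dotProduct_mulVec_nonneg ?_ fun v => ?_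
    · ext i j
      simp [Matrix.conjTranspose_apply, hs i j]
    · refine (hp v).trans (le_of_eq ?_)
      simp only [dotProduct, mulVec, Matrix.of_apply, Pi.star_apply, star_trivial]
      refine sum_congr rfl fun o _ => ?_
      rw [mul_sum]
      refine sum_congr rfl fun o' _ => ?_
      ring
  obtain ⟨B, hB⟩ := CStarAlgebra.nonneg_iff_eq_star_mul_self.mp hA.nonneg
  refine ⟨fun k o => B k o, fun o o' => ?_⟩
  have h := congrFun (congrFun hB o) o'
  rw [Matrix.mul_apply] at h
  simpa [Matrix.star_apply] using h

private theorem prod_psd {α κ : Type} [Fintype α] [DecidableEq α] [Fintype κ] [DecidableEq κ]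
    (C : α → κ → κ → ℝ) (hs : ∀ i o o', C i o o' = C i o' o)
    (hp : ∀ i (v : κ → ℝ), 0 ≤ ∑ o, ∑ o', C i o o' * v o * v o') (Y : (α → κ) → ℝ) :
    0 ≤ ∑ a, ∑ b, (∏ i, C i (a i) (b i)) * Y a * Y b := by
  choose G hG using fun i => gram (C i) (hs i) (hp i)
  have h1 : ∀ a b : α → κ, (∏ i, C i (a i) (b i)) =
      ∑ f : α → κ, (∏ i, G i (f i) (a i)) * (∏ i, G i (f i) (b i)) := by
    intro a b
    simp only [hG, ← prod_mul_distrib]
    rw [Finset.prod_univ_sum]
    simp
  have h2 : ∑ a, ∑ b, (∏ i, C i (a i) (b i)) * Y a * Y b =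
      ∑ f : α → κ, (∑ a, (∏ i, G i (f i) (a i)) * Y a) ^ 2 := by
    simp only [h1, sum_mul]
    rw [sum_congr rfl fun a _ => sum_comm (s := univ) (t := univ)]
    rw [sum_comm]
    refine sum_congr rfl fun f _ => ?_
    rw [sq, sum_mul_sum]
    refine sum_congr rfl fun a _ => sum_congr rfl fun b _ => ?_
    ring
  rw [h2]
  exact sum_nonneg fun f _ => sq_nonneg _

theorem tensor : StTensor := by
  intro α κ _ _ _ _ A B hA hB hA0 hAB Y
  have hB0 : ∀ i (v : κ → ℝ), 0 ≤ ∑ o, ∑ o', B i o o' * v o * v o' :=
    fun i v => (hA0 i v).trans (hAB i v)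
  have key : ∀ s : Finset α, ∑ a, ∑ b, (∏ i, A i (a i) (b i)) * Y a * Y b ≤
      ∑ a, ∑ b, (∏ i, (if i ∈ s then B i (a i) (b i) else A i (a i) (b i))) * Y a * Y b := by
    intro s
    induction s using Finset.induction_on with
    | empty => simp
    | insert j s hj ih =>
      refine ih.trans ?_
      have h := prod_psd (fun i o o' => if i = j then B i o o' - A i o o' else
        if i ∈ s then B i o o' else A i o o') (by
          intro i o o'
          split_ifs
          · rw [hA, hB]
          · exact hB i o o'
          · exact hA i o o') (by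
          intro i v
          by_cases h1 : i = j
          · simp only [if_pos h1, sub_mul, sum_sub_distrib]
            exact sub_nonneg.2 (hAB i v)
          · by_cases h2 : i ∈ s
            · simp only [if_neg h1, if_pos h2]
              exact hB0 i v
            · simp only [if_neg h1, if_neg h2]
              exact hA0 i v) Y
      rw [← sub_nonneg]
      refine h.trans (le_of_eq ?_)
      rw [← sum_sub_distrib]
      refine sum_congr rfl fun a _ => ?_
      rw [← sum_sub_distrib]
      refine sum_congr rfl fun b _ => ?_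
      rw [← sub_mul, ← sub_mul]
      congr 2
      rw [← mul_prod_erase univ (fun i => if i = j then B i (a i) (b i) - A i (a i) (b i) else
        if i ∈ s then B i (a i) (b i) else A i (a i) (b i)) (mem_univ j),
        ← mul_prod_erase univ (fun i => if i ∈ insert j s then B i (a i) (b i) else
          A i (a i) (b i)) (mem_univ j),
        ← mul_prod_erase univ (fun i => if i ∈ s then B i (a i) (b i) else
          A i (a i) (b i)) (mem_univ j)]
      have e1 : ∏ i ∈ univ.erase j, (if i = j then B i (a i) (b i) - A i (a i) (b i) else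
          if i ∈ s then B i (a i) (b i) else A i (a i) (b i)) =
          ∏ i ∈ univ.erase j, (if i ∈ s then B i (a i) (b i) else A i (a i) (b i)) := by
        refine prod_congr rfl fun i hi => ?_
        rw [if_neg (ne_of_mem_erase hi)]
      have e2 : ∏ i ∈ univ.erase j, (if i ∈ insert j s then B i (a i) (b i) else
          A i (a i) (b i)) =
          ∏ i ∈ univ.erase j, (if i ∈ s then B i (a i) (b i) else A i (a i) (b i)) := by
        refine prod_congr rfl fun i hi => ?_
        have h3 : i ∈ insert j s ↔ i ∈ s := by
          rw [mem_insert]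
          exact ⟨fun h => h.resolve_left (ne_of_mem_erase hi), Or.inr⟩
        simp only [h3]
      rw [e1, e2, if_pos rfl, if_pos (mem_insert_self j s), if_neg hj]
      ring
  refine (key univ).trans (le_of_eq ?_)
  simp

end Pool.Agent.Helper90.MT
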