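import Pool.Agent.Helper90.MT.StS
import Pool.Agent.Helper90.MT.Til1

/-!
Project MT, part S: `StTil2`.
-/

namespace Pool.Agent.Helper90.MT

open Finset

set_option linter.unusedSectionVars false

theorem til_inv_szA {α ι : Type} [Fintype α] [DecidableEq α] [Fintype ι] [DecidableEq ι]
    (pr : α → ℕ) (D : Finset ι) (a e : α → Option ι) (ha : Avd D a) (he : offD D e = a) :
    1 / (szA pr e : ℝ) = 1 / (szA pr a : ℝ) * til_w pr a e := by
  classical
  rw [← til_over_iff D a e ha] at he
  rw [til_szA_cast, til_szA_cast, one_div, one_div, ← prod_inv_distrib, ← prod_inv_distrib]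
  unfold til_w
  rw [← prod_mul_distrib]
  refine prod_congr rfl fun i _ => ?_
  by_cases hai : a i = none
  · by_cases hei : e i = none
    · simp [hai, hei]
    · simp [hai, hei]
  · have h1 := (he i).1 hai
    have hei : e i ≠ none := by rw [h1]; exact hai
    simp [hai, hei]

theorem til2 : StTil2 := by
  intro α ι _ _ _ _ pr D R' Y _ hR
  classical
  rw [til_sum D]
  refine sum_congr rfl fun a ha => ?_
  rw [mem_filter] at ha
  have hH := til_HH_ge pr D R' a hR
  have hH0 : HH pr D R' a ≠ 0 := by positivity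
  have : ∀ e ∈ univ.filter (fun e => offD D e = a), Ytil pr D R' Y e ^ 2 / szA pr e =
      (if ∀ h ∈ D, (prt pr e h : ℝ) ≤ R' then til_w pr a e else 0) *
        ((VV pr D Y a / HH pr D R' a) ^ 2 * (1 / (szA pr a : ℝ))) := by
    intro e he
    rw [mem_filter] at he
    rw [div_eq_mul_one_div, til_inv_szA pr D a e ha.2 he.2]
    unfold Ytil
    rw [he.2]
    split_ifs <;> simp
    ring
  rw [sum_congr rfl this, ← sum_mul, ← til_HH pr D R' a ha.2]
  by_cases hs : (szA pr a : ℝ) = 0
  · rw [hs]; simp
  · field_simp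

end Pool.Agent.Helper90.MT
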