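import Pool.Agent.Helper90.MT.StS
import Pool.Agent.Helper90.MT.Til1

/-!
Project MT, part S: `StTil3`.
-/

namespace Pool.Agent.Helper90.MT

open Finset

set_option linter.unusedSectionVars false

section Til3
variable {α ι : Type} [Fintype α] [DecidableEq α] [Fintype ι] [DecidableEq ι]

theorem til3_szA (pr : α → ℕ) (D : Finset ι) (e : α → Option ι) :
    szA pr e = szA pr (offD D e) * ∏ h ∈ D, prt pr e h := by
  unfold szA prt
  rw [prod_comm, ← prod_mul_distrib]
  refine prod_congr rfl fun i _ => ?_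
  rcases he : e i with _ | h0
  · rw [til_offD_none he]
    simp
  · by_cases hD : h0 ∈ D
    · rw [til_offD_mem he hD]
      simp [hD]
    · rw [til_offD_not he hD]
      simp [hD]

theorem til3_prt_pos (pr : α → ℕ) (hp : ∀ i, (pr i).Prime) (e : α → Option ι) (h : ι) :
    0 < prt pr e h := by
  unfold prt
  apply prod_pos
  intro i _
  split_ifs
  · exact (hp i).pos
  · exact Nat.one_pos

theorem til3_szA_pos (pr : α → ℕ) (hp : ∀ i, (pr i).Prime) (e : α → Option ι) :
    0 < szA pr e := by
  unfold szA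
  apply prod_pos
  intro i _
  split_ifs
  · exact Nat.one_pos
  · exact (hp i).pos

theorem til3_prt_le (pr : α → ℕ) (hp : ∀ i, (pr i).Prime) (e : α → Option ι) (h : ι) :
    prt pr e h ≤ szA pr e := by
  unfold prt szA
  apply prod_le_prod'
  intro i _
  by_cases h1 : e i = some h
  · simp [h1]
  · rw [if_neg h1]
    split_ifs
    · exact le_rfl
    · exact (hp i).pos

theorem til3_inj (pr : α → ℕ) (hp : ∀ i, (pr i).Prime) (hinj : Function.Injective pr)
    (c c' : α → Option ι) (i : α) (h : ι) (hc : c i = some h) (he : prt pr c h = prt pr c' h) :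
    c' i = some h := by
  have h1 : pr i ∣ prt pr c h := by
    unfold prt
    refine dvd_trans ?_ (dvd_prod_of_mem _ (mem_univ i))
    rw [if_pos hc]
  rw [he] at h1
  unfold prt at h1
  obtain ⟨j, _, hj⟩ := ((hp i).prime.dvd_finsetProd_iff _).1 h1
  by_cases hcj : c' j = some h
  · rw [if_pos hcj, Nat.prime_dvd_prime_iff_eq (hp i) (hp j)] at hj
    rw [hinj hj]; exact hcj
  · rw [if_neg hcj] at hj
    exact absurd (Nat.dvd_one.1 hj) (hp i).one_lt.ne'

theorem til3_HH_le (pr : α → ℕ) (hp : ∀ i, (pr i).Prime) (hinj : Function.Injective pr)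
    (D : Finset ι) (Z : ℝ) (hZ : 1 ≤ Z) (a : α → Option ι) :
    HH pr D Z a ≤ (1 + Real.log Z) ^ #D := by
  classical
  unfold HH
  rw [← sum_filter]
  set S := univ.filter (fun c : α → Option ι => (∀ i, c i ≠ none → a i = none ∧
    ∃ h ∈ D, c i = some h) ∧ (∀ h ∈ D, (prt pr c h : ℝ) ≤ Z)) with hS
  have hval : ∀ c ∈ S, ∀ i, c i ≠ none → ∃ h ∈ D, c i = some h := by
    intro c hc i hi
    rw [hS, mem_filter] at hc
    exact (hc.2.1 i hi).2
  have hle : ∀ c ∈ S, ∀ h ∈ D, (prt pr c h : ℝ) ≤ Z := by
    intro c hc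
    rw [hS, mem_filter] at hc
    exact hc.2.2
  let φ : (α → Option ι) → (D → ℕ) := fun c h => prt pr c h
  have hφ : Set.InjOn φ (S : Set (α → Option ι)) := by
    intro c hc c' hc' hcc
    have key : ∀ h ∈ D, prt pr c h = prt pr c' h := fun h hD => congrFun hcc ⟨h, hD⟩
    funext i
    by_cases hi : c i = none
    · by_contra hne
      have hi' : c' i ≠ none := fun h => hne (by rw [hi, h])
      obtain ⟨h, hD, hh⟩ := hval c' hc' i hi'
      have := til3_inj pr hp hinj c' c i h hh (key h hD).symm
      rw [hi] at this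
      simp at this
    · obtain ⟨h, hD, hh⟩ := hval c hc i hi
      rw [hh, til3_inj pr hp hinj c c' i h hh (key h hD)]
  have h1 : ∀ c ∈ S, 1 / (szA pr c : ℝ) = ∏ h : D, 1 / ((φ c h : ℕ) : ℝ) := by
    intro c hc
    have h2 : szA pr c = ∏ h ∈ D, prt pr c h := by
      rw [til3_szA pr D c]
      have : szA pr (offD D c) = 1 := by
        unfold szA
        apply prod_eq_one
        intro i _
        rw [if_pos]
        by_cases hi : c i = none
        · exact til_offD_none hi
        · obtain ⟨h, hD, hh⟩ := hval c hc i hi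
          exact til_offD_mem hh hD
      rw [this, one_mul]
    rw [h2]
    push_cast
    rw [one_div, ← prod_inv_distrib]
    simp only [φ]
    rw [← prod_coe_sort D (fun h => ((prt pr c h : ℕ) : ℝ)⁻¹)]
    simp
  rw [sum_congr rfl h1]
  rw [← sum_image (f := fun x : D → ℕ => ∏ h : D, 1 / ((x h : ℕ) : ℝ)) hφ]
  calc ∑ x ∈ S.image φ, ∏ h : D, 1 / ((x h : ℕ) : ℝ)
      ≤ ∑ x ∈ Fintype.piFinset (fun _ : D => Icc 1 ⌊Z⌋₊), ∏ h : D, 1 / ((x h : ℕ) : ℝ) := by
        apply sum_le_sum_of_subset_of_nonneg
        · intro x hx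
          rw [mem_image] at hx
          obtain ⟨c, hc, rfl⟩ := hx
          rw [Fintype.mem_piFinset]
          intro h
          rw [mem_Icc]
          exact ⟨til3_prt_pos pr hp c h, Nat.le_floor (hle c hc h h.2)⟩
        · intro x _ _
          apply prod_nonneg
          intro h _
          positivity
    _ = (∑ d ∈ Icc 1 ⌊Z⌋₊, 1 / (d : ℝ)) ^ #D := by
        rw [← prod_univ_sum (fun _ : D => Icc 1 ⌊Z⌋₊) (fun _ d => 1 / (d : ℝ))]
        rw [prod_const, card_univ, Fintype.card_coe]
    _ ≤ (1 + Real.log Z) ^ #D := by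
        apply pow_le_pow_left₀
        · apply sum_nonneg
          intro d _
          positivity
        · have := harmonic_floor_le_one_add_log Z hZ
          rw [harmonic_eq_sum_Icc] at this
          push_cast at this
          simpa [one_div] using this

theorem til3_VV_le (pr : α → ℕ) (hp : ∀ i, (pr i).Prime) (hinj : Function.Injective pr)
    (D : Finset ι) (Z : ℝ) (hZ : 1 ≤ Z) (Y : (α → Option ι) → ℝ) (h0 : ∀ a, 0 ≤ Y a)
    (h1 : ∀ a, Y a ≤ 1) (h2 : ∀ a, Y a ≠ 0 → (szA pr a : ℝ) ≤ Z) (a : α → Option ι)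
    (ha : Avd D a) : VV pr D Y a ≤ (1 + Real.log Z) ^ #D := by
  classical
  refine le_trans ?_ (til3_HH_le pr hp hinj D Z hZ a)
  rw [til_VV pr D Y a ha, til_HH pr D Z a ha]
  apply sum_le_sum
  intro e _
  have hw := til_w_nonneg pr a e
  by_cases hY : Y e = 0
  · rw [hY, mul_zero]
    split_ifs
    · exact hw
    · exact le_rfl
  · rw [if_pos]
    · exact mul_le_of_le_one_right hw (h1 e)
    · intro h _
      have := h2 e hY
      have h3 : (prt pr e h : ℝ) ≤ szA pr e := by exact_mod_cast til3_prt_le pr hp e h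
      exact h3.trans this

theorem til3_VV_nonneg (pr : α → ℕ) (D : Finset ι) (Y : (α → Option ι) → ℝ) (h0 : ∀ a, 0 ≤ Y a)
    (a : α → Option ι) (ha : Avd D a) : 0 ≤ VV pr D Y a := by
  classical
  rw [til_VV pr D Y a ha]
  exact sum_nonneg fun e _ => mul_nonneg (til_w_nonneg pr a e) (h0 e)

end Til3

theorem til3 : StTil3 := by
  intro α ι _ _ _ _ pr D R' Z Y hp hinj hD hR hZ h0 h1 h2
  classical
  have hlog : 0 ≤ Real.log Z := Real.log_nonneg hZ
  refine ⟨?_, ?_, ?_⟩
  · intro e
    unfold Ytil
    split_ifs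
    · have hH := til_HH_ge pr D R' (offD D e) hR
      have := til3_VV_nonneg pr D Y h0 (offD D e) (til_offD_avd D e)
      positivity
    · exact le_rfl
  · intro e
    unfold Ytil
    split_ifs
    · have hH := til_HH_ge pr D R' (offD D e) hR
      have hV := til3_VV_nonneg pr D Y h0 (offD D e) (til_offD_avd D e)
      have hV2 := til3_VV_le pr hp hinj D Z hZ Y h0 h1 h2 (offD D e) (til_offD_avd D e)
      calc VV pr D Y (offD D e) / HH pr D R' (offD D e) ≤ VV pr D Y (offD D e) :=
            div_le_self hV hH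
        _ ≤ (1 + Real.log Z) ^ #D := hV2
        _ ≤ (1 + Real.log Z) ^ 2 := pow_le_pow_right₀ (by linarith) hD
    · positivity
  · intro e he
    unfold Ytil at he
    split_ifs at he with hcond
    · have hV : VV pr D Y (offD D e) ≠ 0 := by
        intro h; rw [h] at he; simp at he
      rw [til_VV pr D Y _ (til_offD_avd D e)] at hV
      obtain ⟨e', he', hne⟩ := exists_ne_zero_of_sum_ne_zero hV
      have hY : Y e' ≠ 0 := by
        intro h; rw [h, mul_zero] at hne; exact hne rfl
      rw [mem_filter] at he'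
      have h3 := h2 e' hY
      have h4 : szA pr (offD D e) ≤ szA pr e' := by
        rw [til3_szA pr D e', he'.2]
        apply Nat.le_mul_of_pos_right
        apply prod_pos
        intro h _
        exact til3_prt_pos pr hp e' h
      have h5 : (szA pr (offD D e) : ℝ) ≤ Z := le_trans (by exact_mod_cast h4) h3
      have h6 : (szA pr e : ℝ) = szA pr (offD D e) * ∏ h ∈ D, (prt pr e h : ℝ) := by
        rw [til3_szA pr D e]; push_cast; rfl
      rw [h6]
      apply mul_le_mul h5 _ _ (by linarith)
      · calc ∏ h ∈ D, (prt pr e h : ℝ) ≤ ∏ _h ∈ D, R' := by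
              apply prod_le_prod
              · intro h _; positivity
              · exact hcond
          _ = R' ^ #D := by rw [prod_const]
          _ ≤ R' ^ 2 := pow_le_pow_right₀ hR hD
      · apply prod_nonneg
        intro h _; positivity
    · exact absurd rfl he

end Pool.Agent.Helper90.MT
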