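import Pool.Agent.Helper90.MT.StS

/-! # Module S-Var: change of variables in a product form -/

namespace Pool.Agent.Helper90.MT

open Finset

private theorem prod_sum2 {α κ : Type} [Fintype α] [DecidableEq α] [Fintype κ] [DecidableEq κ]
    (F : α → κ → κ → ℝ) : ∏ i, ∑ o, ∑ o', F i o o' =
      ∑ b : α → κ, ∑ b' : α → κ, ∏ i, F i (b i) (b' i) := by
  have h1 := Finset.prod_univ_sum (fun _ : α => (univ : Finset κ)) (fun i o => ∑ o', F i o o')
  rw [h1]
  simp only [Fintype.piFinset_univ]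
  refine sum_congr rfl fun b _ => ?_
  have h2 := Finset.prod_univ_sum (fun _ : α => (univ : Finset κ)) (fun i o' => F i (b i) o')
  rw [h2]
  simp only [Fintype.piFinset_univ]

theorem var : StVar := by
  intro α κ _ _ _ _ M T Y
  have h1 : ∀ b b' : α → κ, (∏ i, M i (b i) (b' i)) *
      (∑ a : α → κ, (∏ i, T i (b i) (a i)) * Y a) *
      (∑ a : α → κ, (∏ i, T i (b' i) (a i)) * Y a) =
      ∑ a : α → κ, ∑ a' : α → κ,
        (∏ i, M i (b i) (b' i) * T i (b i) (a i) * T i (b' i) (a' i)) * Y a * Y a' := by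
    intro b b'
    rw [mul_assoc, sum_mul_sum, mul_sum]
    refine sum_congr rfl fun a _ => ?_
    rw [mul_sum]
    refine sum_congr rfl fun a' _ => ?_
    rw [prod_mul_distrib, prod_mul_distrib]
    ring
  simp only [h1, prod_sum2, sum_mul]
  calc ∑ b : α → κ, ∑ b' : α → κ, ∑ a : α → κ, ∑ a' : α → κ,
        (∏ i, M i (b i) (b' i) * T i (b i) (a i) * T i (b' i) (a' i)) * Y a * Y a'
      = ∑ b : α → κ, ∑ a : α → κ, ∑ a' : α → κ, ∑ b' : α → κ,
        (∏ i, M i (b i) (b' i) * T i (b i) (a i) * T i (b' i) (a' i)) * Y a * Y a' := by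
        refine sum_congr rfl fun b _ => ?_
        rw [sum_comm]
        exact sum_congr rfl fun a _ => sum_comm
    _ = ∑ a : α → κ, ∑ a' : α → κ, ∑ b : α → κ, ∑ b' : α → κ,
        (∏ i, M i (b i) (b' i) * T i (b i) (a i) * T i (b' i) (a' i)) * Y a * Y a' := by
        rw [sum_comm]
        exact sum_congr rfl fun a _ => sum_comm

end Pool.Agent.Helper90.MT
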