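import Pool.Agent.Helper90.MT.StS
import Pool.Agent.Helper90.MT.CntD

/-!
Project MT: counting with a prime.
-/

namespace Pool.Agent.Helper90.MT

open Finset

theorem cntP_totient {α : Type} [DecidableEq α] {W : ℕ} {t : α → ℕ} (s : Finset α)
    (h1 : ∀ i ∈ s, (t i).Coprime W) (h2 : ∀ i ∈ s, ∀ j ∈ s, i ≠ j → (t i).Coprime (t j)) :
    (W * ∏ i ∈ s, t i).totient = W.totient * ∏ i ∈ s, (t i).totient := by
  induction s using Finset.induction_on with
  | empty => simp
  | insert i s hi ih =>
    rw [prod_insert hi, prod_insert hi, mul_left_comm, Nat.totient_mul, ih]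
    · ring
    · exact fun j hj => h1 j (mem_insert_of_mem hj)
    · exact fun j hj k hk => h2 j (mem_insert_of_mem hj) k (mem_insert_of_mem hk)
    · refine Nat.Coprime.mul_right (h1 i (mem_insert_self _ _)) ?_
      refine Nat.Coprime.prod_right fun j hj => ?_
      exact h2 i (mem_insert_self _ _) j (mem_insert_of_mem hj) fun h => hi (h ▸ hj)

open Classical in
theorem cntP : StCntP := by
  intro α ι _ _ _ _ pr sh K W v m b b' M Qm f E X hOk hE0 hf hshm hE hQ
  by_cases hcon : ∃ i h h', b i = some h ∧ b' i = some h' ∧ h ≠ h'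
  · obtain ⟨i, h, h', hb, hb', hne⟩ := hcon
    rw [filter_false_of_mem fun n _ hn => cntD_empty hOk hb hb' hne n hn.2, sum_empty,
      prod_eq_zero (mem_univ i) (by rw [hb, hb']; exact if_neg fun h => hne h.1), mul_zero,
      sub_zero, abs_zero]
    exact hE0 _
  by_cases hm : ∃ i, b i = some m ∨ b' i = some m
  · obtain ⟨i, hi⟩ := hm
    have h1 : MP m (pr i) (b i) (b' i) = 0 := by
      rcases hi with hi | hi
      · rw [hi]
        rcases b' i with _ | h
        · exact if_pos rfl
        · exact if_neg fun h => h.2 rfl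
      · rw [hi]
        rcases b i with _ | h
        · exact if_pos rfl
        · exact if_neg fun h => h.2 h.1
    have h2 : ∀ n ∈ (range (4 * M + 1)).filter
        (fun n => n ≡ v [MOD W] ∧ mat pr sh b n ∧ mat pr sh b' n), f (n + sh m) = 0 := by
      intro n hn
      by_contra hne
      obtain ⟨h3, -, h4⟩ := hf _ hne
      have h5 : pr i ∣ n + sh m := by
        rcases hi with hi | hi
        · exact (mem_filter.1 hn).2.2.1 i m hi
        · exact (mem_filter.1 hn).2.2.2 i m hi
      rcases (Nat.dvd_prime h3).1 h5 with h6 | h6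
      · exact (hOk.prime i).one_lt.ne' h6
      · exact (h4 i).ne h6
    rw [sum_eq_zero h2, prod_eq_zero (mem_univ i) h1, mul_zero, sub_zero, abs_zero]
    exact hE0 _
  push Not at hcon hm
  obtain ⟨c, hc⟩ := cntD_crt hOk b b' fun i h h' h1 h2 => hcon i h h' h1 h2
  have hcc := (hc c).2 rfl
  have hsz : 0 < szU pr b b' := by
    refine prod_pos fun i _ => ?_
    split_ifs
    · exact one_pos
    · exact (hOk.prime i).pos
  -- the class is coprime to the modulus
  have hcop : (c + sh m).Coprime (W * szU pr b b') := by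
    refine Nat.Coprime.mul_right ?_ ?_
    · have h1 := hOk.hv m
      have h2 : c + sh m ≡ v + sh m [MOD W] := Nat.ModEq.add_right _ hcc.1
      rw [Nat.Coprime, h2.gcd_eq]
      exact h1
    · refine Nat.Coprime.prod_right fun i _ => ?_
      split_ifs with h0
      · exact Nat.coprime_one_right _
      · rw [Nat.coprime_comm, Nat.Prime.coprime_iff_not_dvd (hOk.prime i)]
        intro hd
        obtain ⟨h, hh, hhm⟩ : ∃ h, pr i ∣ c + sh h ∧ h ≠ m := by
          rcases hb : b i with _ | h
          · rcases hb' : b' i with _ | h'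
            · exact absurd ⟨hb, hb'⟩ h0
            · exact ⟨h', hcc.2.2 i h' hb', fun he => (hm i).2 (he ▸ hb')⟩
          · exact ⟨h, hcc.2.1 i h hb, fun he => (hm i).1 (he ▸ hb)⟩
        have h3 := (Nat.modEq_zero_iff_dvd).2 hd
        have h4 := (Nat.modEq_zero_iff_dvd).2 hh
        exact hOk.dist i h m hhm (Nat.ModEq.add_left_cancel' c (h4.trans h3.symm))
  have h1 : ∑ n ∈ (range (4 * M + 1)).filter
      (fun n => n ≡ v [MOD W] ∧ mat pr sh b n ∧ mat pr sh b' n), f (n + sh m) =
      ∑ n ∈ (Ioc M (4 * M)).filter (fun n => n ≡ c + sh m [MOD W * szU pr b b']), f n := by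
    refine sum_bij_ne_zero (fun n _ _ => n + sh m) ?_ ?_ ?_ ?_
    · intro n hn hne
      rw [mem_filter] at hn ⊢
      exact ⟨(hf _ hne).2.1, Nat.ModEq.add_right _ ((hc n).1 hn.2)⟩
    · intro n _ _ n' _ _ h
      exact Nat.add_right_cancel h
    · intro l hl hne
      rw [mem_filter, mem_Ioc] at hl
      have h2 : l - sh m + sh m = l := by omega
      refine ⟨l - sh m, ?_, by rw [h2]; exact hne, h2⟩
      rw [mem_filter, mem_range]
      refine ⟨by omega, (hc _).2 ?_⟩
      refine Nat.ModEq.add_right_cancel' (sh m) ?_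
      rw [h2]
      exact hl.2
    · intro n _ _
      rfl
  have h2 : X / W.totient * ∏ i, MP m (pr i) (b i) (b' i) =
      X / ((W * szU pr b b').totient : ℝ) := by
    have h3 : (W * szU pr b b').totient = W.totient *
        ∏ i, (if b i = none ∧ b' i = none then 1 else pr i).totient := by
      refine cntP_totient univ ?_ ?_
      · intro i _
        split_ifs
        · exact Nat.coprime_one_left _
        · exact hOk.cop i
      · intro i _ j _ hij
        split_ifs
        · exact Nat.coprime_one_left _
        · exact Nat.coprime_one_left _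
        · exact Nat.coprime_one_right _
        · exact (Nat.coprime_primes (hOk.prime i) (hOk.prime j)).2 fun h => hij (hOk.inj h)
    have h4 : ∏ i, MP m (pr i) (b i) (b' i) =
        1 / ((∏ i, (if b i = none ∧ b' i = none then 1 else pr i).totient : ℕ) : ℝ) := by
      rw [Nat.cast_prod, one_div, ← prod_inv_distrib]
      refine prod_congr rfl fun i _ => ?_
      have h5 : ((pr i - 1 : ℕ) : ℝ) = (pr i : ℝ) - 1 := by
        rw [Nat.cast_sub (hOk.prime i).one_lt.le, Nat.cast_one]
      rcases hb : b i with _ | h
      · rcases hb' : b' i with _ | h'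
        · simp [MP]
        · have h6 : h' ≠ m := fun he => (hm i).2 (he ▸ hb')
          simp [MP, h6, Nat.totient_prime (hOk.prime i), h5]
      · have h6 : h ≠ m := fun he => (hm i).1 (he ▸ hb)
        rcases hb' : b' i with _ | h'
        · simp [MP, h6, Nat.totient_prime (hOk.prime i), h5]
        · have h7 := hcon i h h' hb hb'
          subst h7
          simp [MP, h6, Nat.totient_prime (hOk.prime i), h5]
    rw [h4, h3, Nat.cast_mul, div_mul_div_comm, mul_one]
  rw [h1, h2]
  exact hE _ _ (Nat.mul_pos hOk.W0 hsz) hQ hcop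

end Pool.Agent.Helper90.MT
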