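import Pool.Agent.Helper90.MT.Low

/-!
Project MT, module S-LossP: loss lemma for pairs.
-/

set_option autoImplicit false

namespace Pool.Agent.Helper90.MT

open Finset

namespace LowAux

section
variable {α κ : Type} [Fintype α] [DecidableEq α] [Fintype κ] [DecidableEq κ]

lemma local_pow (q : ℝ) (s : Finset κ) : (∏ k, if k ∈ s then q else 1) = q ^ #s := by
  rw [Finset.prod_ite_mem, Finset.univ_inter, Finset.prod_const]

lemma WW_update (pr : α → ℕ) (ω : α → Finset κ) (i : α) (T : Finset κ) (hT : T ⊆ ω i) :
    WW pr ω = (1 / (pr i : ℝ)) ^ #T * WW pr (Function.update ω i (ω i \ T)) := by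
  rw [WW, WW, ← Finset.mul_prod_erase univ _ (Finset.mem_univ i),
    ← Finset.mul_prod_erase univ (fun j => ∏ k, if k ∈ Function.update ω i (ω i \ T) j
      then 1 / (pr j : ℝ) else 1) (Finset.mem_univ i), ← mul_assoc]
  congr 1
  · rw [local_pow, local_pow, Function.update_self, ← pow_add]
    congr 1
    rw [Finset.card_sdiff_of_subset hT]
    have := Finset.card_le_card hT
    omega
  · refine Finset.prod_congr rfl fun j hj => ?_
    rw [Function.update_of_ne (Finset.ne_of_mem_erase hj)]

lemma xof_update_dvd (pr : α → ℕ) (ω : α → Finset κ) (i : α) (T : Finset κ) (k : κ) :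
    xof pr (Function.update ω i (ω i \ T)) k ∣ xof pr ω k := by
  rw [xof, xof]
  refine Finset.prod_dvd_prod_of_dvd _ _ fun j _ => ?_
  by_cases hj : j = i
  · subst hj
    rw [Function.update_self]
    by_cases h1 : k ∈ ω j
    · rw [if_pos h1]
      split_ifs
      · exact dvd_rfl
      · exact one_dvd _
    · rw [if_neg h1, if_neg]
      intro h2
      exact h1 (Finset.mem_sdiff.1 h2).1
  · rw [Function.update_of_ne hj]

lemma loss_gen (pr : α → ℕ) (F : (κ → ℕ) → ℝ) (i : α) (T : Finset κ) (hp : ∀ i, (pr i).Prime)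
    (hF0 : ∀ x, 0 ≤ F x) (hFA : Anti F) :
    ∑ ω : α → Finset κ, (if T ⊆ ω i then WW pr ω * F (xof pr ω) else 0) ≤
      (1 / (pr i : ℝ)) ^ #T * ∑ ω : α → Finset κ, WW pr ω * F (xof pr ω) := by
  classical
  have hpi : (0 : ℝ) < pr i := by exact_mod_cast (hp i).pos
  rw [← Finset.sum_filter]
  have h1 : ∀ ω ∈ (univ : Finset (α → Finset κ)).filter (fun ω => T ⊆ ω i),
      WW pr ω * F (xof pr ω) ≤ (1 / (pr i : ℝ)) ^ #T *
        (WW pr (Function.update ω i (ω i \ T)) * F (xof pr (Function.update ω i (ω i \ T)))) := by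
    intro ω hω
    rw [WW_update pr ω i T (Finset.mem_filter.1 hω).2, mul_assoc]
    refine mul_le_mul_of_nonneg_left ?_ (by positivity)
    refine mul_le_mul_of_nonneg_left ?_ (WW_nonneg _ _)
    exact hFA _ _ (fun k => xof_update_dvd pr ω i T k) (fun k => xof_pos pr hp ω k)
  refine (Finset.sum_le_sum h1).trans ?_
  rw [← Finset.mul_sum]
  refine mul_le_mul_of_nonneg_left ?_ (by positivity)
  rw [← Finset.sum_image (f := fun ω => WW pr ω * F (xof pr ω))
    (g := fun ω : α → Finset κ => Function.update ω i (ω i \ T))]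
  · exact Finset.sum_le_sum_of_subset_of_nonneg (Finset.subset_univ _)
      (fun ω _ _ => mul_nonneg (WW_nonneg _ _) (hF0 _))
  · intro ω hω ω' hω' h
    have hT := (Finset.mem_filter.1 hω).2
    have hT' := (Finset.mem_filter.1 hω').2
    funext j
    by_cases hj : j = i
    · subst hj
      have h2 := congrFun h j
      simp only [Function.update_self] at h2
      rw [← Finset.sdiff_union_of_subset hT, ← Finset.sdiff_union_of_subset hT', h2]
    · have h2 := congrFun h j
      simpa only [Function.update_of_ne hj] using h2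

end

end LowAux

open LowAux in
theorem lossP : StLossP := by
  intro α κ _ _ _ _ pr F i h h' hp hinj hF0 hFA hne
  classical
  rw [sum_piDD_filter pr hp hinj, sum_piDD pr hp hinj]
  have := loss_gen pr F i {h, h'} hp hF0 hFA
  rw [Finset.card_pair hne] at this
  simp only [WW_eq, dvd_xof pr hp hinj]
  rw [one_div_pow] at this
  refine le_trans (le_of_eq ?_) this
  refine Finset.sum_congr rfl fun ω _ => ?_
  simp only [Finset.insert_subset_iff, Finset.singleton_subset_iff]

end Pool.Agent.Helper90.MT
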