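import Pool.Agent.Helper90.MT.StS

set_option autoImplicit false

namespace Pool.Agent.Helper90.MT

open Finset

/-- state of the construction -/
def ModS (T : Finset ℕ) (m v W v' : ℕ) : Prop :=
  0 < W ∧ m ∣ W ∧ v' ≡ v [MOD m] ∧ ∀ h ∈ T, (v' + h).Coprime W

theorem Mod_step (T : Finset ℕ) (m v W v' p r : ℕ) (hs : ModS T m v W v') (hp : p.Prime)
    (hpW : ¬ p ∣ W) (hr : ∀ h ∈ T, ¬ p ∣ r + h) :
    ∃ v'', ModS T m v (W * p) v'' ∧ v'' ≡ v' [MOD W] ∧ v'' ≡ r [MOD p] := by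
  obtain ⟨hW, hm, hv, hT⟩ := hs
  have hco : W.Coprime p := ((hp.coprime_iff_not_dvd).2 hpW).symm
  obtain ⟨k, hk1, hk2⟩ := Nat.chineseRemainder hco v' r
  refine ⟨k, ⟨Nat.mul_pos hW hp.pos, hm.mul_right p, (hk1.of_dvd hm).trans hv, ?_⟩, hk1, hk2⟩
  intro h hh
  apply Nat.Coprime.mul_right
  · have h1 : k + h ≡ v' + h [MOD W] := hk1.add_right h
    have h2 := h1.gcd_eq
    have h3 := hT h hh
    unfold Nat.Coprime at h3 ⊢
    rw [h2]
    exact h3
  · rw [Nat.coprime_comm, hp.coprime_iff_not_dvd]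
    intro hd
    have h1 : k + h ≡ r + h [MOD p] := hk2.add_right h
    exact hr h hh ((h1.dvd_iff dvd_rfl).1 hd)

theorem Mod_A (T : Finset ℕ) (m v : ℕ) (hm : 0 < m) (hT : ∀ h ∈ T, (v + h).Coprime m)
    (hadm : ∀ p : ℕ, p.Prime → ∃ r : ℕ, ∀ h ∈ T, ¬ p ∣ r + h) (n : ℕ) :
    ∃ W v', ModS T m v W v' ∧ ∀ p : ℕ, p.Prime → p ≤ n → p ∣ W := by
  induction n with
  | zero =>
    refine ⟨m, v, ⟨hm, dvd_rfl, Nat.ModEq.refl _, hT⟩, ?_⟩
    intro p hp hp0
    have := hp.pos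
    omega
  | succ n ih =>
    obtain ⟨W, v', hs, hd⟩ := ih
    by_cases hn : (n + 1).Prime ∧ ¬ (n + 1) ∣ W
    · obtain ⟨r, hr⟩ := hadm (n + 1) hn.1
      obtain ⟨v'', h1, -, -⟩ := Mod_step T m v W v' (n + 1) r hs hn.1 hn.2 hr
      refine ⟨W * (n + 1), v'', h1, ?_⟩
      intro p hp hpn
      rcases Nat.lt_or_ge n p with h | h
      · have : p = n + 1 := by omega
        rw [this]
        exact dvd_mul_left _ _
      · exact (hd p hp h).mul_right _
    · refine ⟨W, v', hs, ?_⟩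
      intro p hp hpn
      rcases Nat.lt_or_ge n p with h | h
      · have h1 : p = n + 1 := by omega
        by_contra h2
        rw [h1] at hp h2
        exact hn ⟨hp, h2⟩
      · exact hd p hp h

theorem Mod_B (T : Finset ℕ) (m v w : ℕ) (hm : 0 < m) (hT : ∀ h ∈ T, (v + h).Coprime m)
    (hadm : ∀ p : ℕ, p.Prime → ∃ r : ℕ, ∀ h ∈ T, ¬ p ∣ r + h) (E : Finset ℕ)
    (hTE : Disjoint T E) :
    ∃ W v', ModS T m v W v' ∧ (∀ p : ℕ, p.Prime → p ≤ w → p ∣ W) ∧
      ∀ e ∈ E, ∃ q, q.Prime ∧ q ∣ W ∧ q ∣ v' + e := by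
  induction E using Finset.induction_on with
  | empty =>
    obtain ⟨W, v', h1, h2⟩ := Mod_A T m v hm hT hadm w
    exact ⟨W, v', h1, h2, by simp⟩
  | insert e E he ih =>
    rw [disjoint_insert_right] at hTE
    obtain ⟨W, v', hs, h2, h3⟩ := ih hTE.2
    obtain ⟨q, hq, hqp⟩ := Nat.exists_infinite_primes (W + e + T.sup id + 1)
    have hqW : ¬ q ∣ W := by
      intro hd
      have := Nat.le_of_dvd hs.1 hd
      omega
    have hr : ∀ h ∈ T, ¬ q ∣ e * (q - 1) + h := by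
      intro h hh hd
      have hne : h ≠ e := fun heq => hTE.1 (heq ▸ hh)
      have hle : h ≤ T.sup id := Finset.le_sup (f := id) hh
      obtain ⟨q', rfl⟩ : ∃ q', q = q' + 1 := ⟨q - 1, by omega⟩
      rw [Nat.add_sub_cancel] at hd
      rcases lt_or_gt_of_ne hne with hlt | hlt
      · have h5 : e * (q' + 1) = e * q' + h + (e - h) := by
          rw [Nat.mul_add]
          omega
        have h6 : q' + 1 ∣ e * q' + h + (e - h) := by
          rw [← h5]
          exact dvd_mul_left _ _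
        have h7 := (Nat.dvd_add_right hd).1 h6
        have := Nat.le_of_dvd (by omega) h7
        omega
      · have h5 : e * q' + h = e * (q' + 1) + (h - e) := by
          rw [Nat.mul_add]
          omega
        rw [h5] at hd
        have h7 := (Nat.dvd_add_right (dvd_mul_left (q' + 1) e)).1 hd
        have := Nat.le_of_dvd (by omega) h7
        omega
    obtain ⟨v'', g1, g2, g3⟩ := Mod_step T m v W v' q (e * (q - 1)) hs hqp hqW hr
    refine ⟨W * q, v'', g1, fun p hp hpw => (h2 p hp hpw).mul_right q, ?_⟩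
    intro e' he'
    rw [mem_insert] at he'
    rcases he' with rfl | he'
    · refine ⟨q, hqp, dvd_mul_left _ _, ?_⟩
      have h5 : v'' + e' ≡ e' * (q - 1) + e' [MOD q] := g3.add_right e'
      rw [h5.dvd_iff dvd_rfl]
      obtain ⟨q', rfl⟩ : ∃ q', q = q' + 1 := ⟨q - 1, by omega⟩
      rw [Nat.add_sub_cancel]
      exact ⟨e', by ring⟩
    · obtain ⟨q', hq'1, hq'2, hq'3⟩ := h3 e' he'
      refine ⟨q', hq'1, hq'2.mul_right q, ?_⟩
      have h5 : v'' + e' ≡ v' + e' [MOD q'] := (g2.of_dvd hq'2).add_right e'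
      exact (h5.dvd_iff dvd_rfl).2 hq'3

theorem mod : StMod := by
  intro T E m v w hm hTE hT hadm
  obtain ⟨W, v', ⟨h1, h2, h3, h4⟩, h5, h6⟩ := Mod_B T m v w hm hT hadm E hTE
  exact ⟨W, v', h1, h5, h2, h3, h4, h6⟩

end Pool.Agent.Helper90.MT
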