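import Pool.Agent.Helper90.MT.StA

/-!
Project MT, part A, module A11: reduction to primitive characters.
-/

namespace Pool.Agent.Helper90.MT

open Finset Complex
open Pool.Agent.Helper2 (smoothSum chFun prFun charFns)

open Classical in
theorem A11_primFns_eq (r : ℕ) [hr : NeZero r] : primFns r =
    ((univ : Finset (DirichletCharacter ℂ r)).filter
      (fun χ => χ.IsPrimitive ∧ χ ≠ 1)).image chFun := by
  unfold primFns
  rw [dif_neg (NeZero.ne r)]

theorem A11_sub (q : ℕ) (hq : 1 ≤ q) (g : ℕ → ℂ) (hg : g ∈ charFns q) :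
    ∃ r ∈ q.divisors, g ∈ primFns r := by
  classical
  have hq0 : NeZero q := ⟨by omega⟩
  obtain ⟨χ, hχ, rfl⟩ := Pool.Agent.Helper2.exists_of_mem_charFns hg
  have hc : NeZero χ.conductor := ⟨DirichletCharacter.conductor_ne_zero χ⟩
  refine ⟨χ.conductor, Nat.mem_divisors.2 ⟨χ.conductor_dvd_level, by omega⟩, ?_⟩
  rw [A11_primFns_eq, mem_image]
  refine ⟨χ.primitiveCharacter, mem_filter.2 ⟨mem_univ _, ?_, ?_⟩, rfl⟩
  · exact χ.primitiveCharacter_isPrimitive
  · exact Pool.Agent.Helper2.primitive_ne_one χ hχ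

theorem a11 : StA11 := by
  classical
  intro N Q
  set P : ℕ → ℝ := fun r => ∑ g ∈ primFns r, ‖smoothSum N g‖ with hP
  have hP0 : ∀ r, 0 ≤ P r := fun r => Finset.sum_nonneg fun _ _ => norm_nonneg _
  have h1 : ∀ q ∈ Icc 1 Q, 1 / (q.totient : ℝ) * ∑ g ∈ charFns q, ‖smoothSum N g‖ ≤
      ∑ x ∈ ((Icc 1 Q) ×ˢ (Icc 1 Q)).filter (fun x => x.1 * x.2 = q),
        1 / (x.2.totient : ℝ) * (1 / (x.1.totient : ℝ) * P x.1) := by
    intro q hq
    rw [mem_Icc] at hq
    have hb : ∑ g ∈ charFns q, ‖smoothSum N g‖ ≤ ∑ r ∈ q.divisors, P r := by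
      have hch : ∀ g : ℕ → ℂ, ∃ r : ℕ, g ∈ charFns q → r ∈ q.divisors ∧ g ∈ primFns r := by
        intro g
        by_cases hg : g ∈ charFns q
        · obtain ⟨r, h1, h2⟩ := A11_sub q hq.1 g hg
          exact ⟨r, fun _ => ⟨h1, h2⟩⟩
        · exact ⟨0, fun h => absurd h hg⟩
      choose ρ hρ using hch
      rw [← Finset.sum_fiberwise_of_maps_to (t := q.divisors) (g := ρ)
        (fun g hg => (hρ g hg).1)]
      refine Finset.sum_le_sum fun r _ => ?_
      refine Finset.sum_le_sum_of_subset_of_nonneg ?_ fun _ _ _ => norm_nonneg _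
      intro g hg
      rw [mem_filter] at hg
      have h := (hρ g hg.1).2
      rw [hg.2] at h
      exact h
    have hphi : (0 : ℝ) < q.totient := by
      exact_mod_cast Nat.totient_pos.2 (by omega)
    have h2 : 1 / (q.totient : ℝ) * ∑ g ∈ charFns q, ‖smoothSum N g‖ ≤
        ∑ r ∈ q.divisors, 1 / ((q / r).totient : ℝ) * (1 / (r.totient : ℝ) * P r) := by
      calc 1 / (q.totient : ℝ) * ∑ g ∈ charFns q, ‖smoothSum N g‖
          ≤ 1 / (q.totient : ℝ) * ∑ r ∈ q.divisors, P r := by gcongr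
        _ = ∑ r ∈ q.divisors, 1 / (q.totient : ℝ) * P r := by rw [Finset.mul_sum]
        _ ≤ _ := by
            refine Finset.sum_le_sum fun r hr => ?_
            rw [← mul_assoc]
            refine mul_le_mul_of_nonneg_right ?_ (hP0 r)
            have hrd := Nat.dvd_of_mem_divisors hr
            have hr0 : 0 < r := Nat.pos_of_mem_divisors hr
            have hm0 : 0 < q / r := Nat.div_pos (Nat.le_of_dvd (by omega) hrd) hr0
            have h3 := Nat.totient_super_multiplicative (q / r) r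
            rw [Nat.div_mul_cancel hrd] at h3
            have h4 : (0 : ℝ) < (q / r).totient := by exact_mod_cast Nat.totient_pos.2 hm0
            have h5 : (0 : ℝ) < r.totient := by exact_mod_cast Nat.totient_pos.2 hr0
            have h6 : ((q / r).totient : ℝ) * r.totient ≤ q.totient := by exact_mod_cast h3
            rw [one_div_mul_one_div]
            exact one_div_le_one_div_of_le (mul_pos h4 h5) h6
    refine h2.trans ?_
    have h3 : ((Icc 1 Q) ×ˢ (Icc 1 Q)).filter (fun x => x.1 * x.2 = q) =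
        q.divisorsAntidiagonal := by
      ext x
      rw [mem_filter, mem_product, mem_Icc, mem_Icc, Nat.mem_divisorsAntidiagonal]
      constructor
      · rintro ⟨_, h⟩
        exact ⟨h, by omega⟩
      · rintro ⟨h, _⟩
        have h1 : 0 < x.1 := Nat.pos_of_ne_zero fun h0 => by rw [h0, zero_mul] at h; omega
        have h2 : 0 < x.2 := Nat.pos_of_ne_zero fun h0 => by rw [h0, mul_zero] at h; omega
        have h3 : x.1 ≤ q := Nat.le_of_dvd (by omega) ⟨x.2, h.symm⟩
        have h4 : x.2 ≤ q := Nat.le_of_dvd (by omega) ⟨x.1, by rw [mul_comm]; exact h.symm⟩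
        exact ⟨⟨⟨h1, by omega⟩, h2, by omega⟩, h⟩
    rw [h3]
    exact (Nat.sum_divisorsAntidiagonal (fun r m => 1 / (m.totient : ℝ) *
      (1 / (r.totient : ℝ) * P r)) (n := q)).symm.le
  calc ∑ q ∈ Icc 1 Q, 1 / (q.totient : ℝ) * ∑ g ∈ charFns q, ‖smoothSum N g‖
      ≤ ∑ q ∈ Icc 1 Q, ∑ x ∈ ((Icc 1 Q) ×ˢ (Icc 1 Q)).filter (fun x => x.1 * x.2 = q),
        1 / (x.2.totient : ℝ) * (1 / (x.1.totient : ℝ) * P x.1) := Finset.sum_le_sum h1
    _ = ∑ x ∈ ((Icc 1 Q) ×ˢ (Icc 1 Q)).filter (fun x => x.1 * x.2 ∈ Icc 1 Q),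
        1 / (x.2.totient : ℝ) * (1 / (x.1.totient : ℝ) * P x.1) :=
        Finset.sum_fiberwise_eq_sum_filter _ _ _ _
    _ ≤ ∑ x ∈ (Icc 1 Q) ×ˢ (Icc 1 Q), 1 / (x.2.totient : ℝ) * (1 / (x.1.totient : ℝ) * P x.1) := by
        refine Finset.sum_le_sum_of_subset_of_nonneg (filter_subset _ _) fun x _ _ => ?_
        have := hP0 x.1
        positivity
    _ = (∑ q ∈ Icc 1 Q, 1 / (q.totient : ℝ)) * ∑ r ∈ Icc 1 Q, 1 / (r.totient : ℝ) * P r := by
        rw [Finset.sum_mul_sum, Finset.sum_product, Finset.sum_comm]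

end Pool.Agent.Helper90.MT
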