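import Pool.Agent.Helper90.MT.StA

/-!
Project MT, part A, module A12a: orthogonality of characters.
-/

namespace Pool.Agent.Helper90.MT

open Finset
open Pool.Agent.Helper2 (smoothSum chFun prFun charFns wt total wt_nonneg smoothSum_eq
  chFun_eq_zero_iff sum_noncoprime_wt_le norm_smoothSum_sub_le sum_charFns)

namespace A12a

lemma TN_eq (N q a : ℕ) : TN N q a = ∑ n ∈ (Ioc 0 N).filter (fun n => n ≡ a [MOD q]), wt N n := rfl

lemma TN_one (N : ℕ) : TN N 1 0 = total N := by
  rw [TN_eq]
  unfold total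
  apply Finset.sum_congr
  · apply Finset.filter_true_of_mem
    intro n _
    exact Nat.modEq_one
  · intro _ _
    rfl

lemma orth (N q a : ℕ) [NeZero q] (ha : a.Coprime q) :
    ∑ χ : DirichletCharacter ℂ q, χ ((a : ZMod q)⁻¹) * smoothSum N (chFun χ) =
      ((q.totient * TN N q a : ℝ) : ℂ) := by
  have hu : IsUnit (a : ZMod q) := (ZMod.isUnit_iff_coprime a q).2 ha
  simp only [smoothSum_eq, Finset.mul_sum]
  rw [Finset.sum_comm, TN_eq, Finset.sum_filter]
  push_cast
  rw [Finset.mul_sum]
  refine Finset.sum_congr rfl fun n _ => ?_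
  have h := DirichletCharacter.sum_char_inv_mul_char_eq ℂ hu (n : ZMod q)
  have e : ((a : ZMod q) = n) ↔ n ≡ a [MOD q] := by
    rw [ZMod.natCast_eq_natCast_iff]
    exact Nat.ModEq.comm
  calc ∑ χ : DirichletCharacter ℂ q, χ ((a : ZMod q)⁻¹) * ((wt N n : ℂ) * chFun χ n)
      = (wt N n : ℂ) * ∑ χ : DirichletCharacter ℂ q, χ ((a : ZMod q)⁻¹) * χ (n : ZMod q) := by
        rw [Finset.mul_sum]
        refine Finset.sum_congr rfl fun χ _ => ?_
        unfold chFun
        ring
    _ = _ := by
        rw [h]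
        simp only [e]
        split_ifs
        · ring
        · simp

lemma one_sub (N q : ℕ) [NeZero q] (hN : 1 ≤ N) :
    ‖smoothSum N (chFun (1 : DirichletCharacter ℂ q)) - (total N : ℂ)‖ ≤
      #q.primeFactors * Real.log N ^ 2 := by
  have h1 : smoothSum N (chFun (1 : DirichletCharacter ℂ q)) =
      ((∑ n ∈ (Ioc 0 N).filter (fun n => n.Coprime q), wt N n : ℝ) : ℂ) := by
    rw [smoothSum_eq, Finset.sum_filter]
    push_cast
    refine Finset.sum_congr rfl fun n _ => ?_
    split_ifs with h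
    · have : chFun (1 : DirichletCharacter ℂ q) n = 1 := by
        have hu : IsUnit (n : ZMod q) := (ZMod.isUnit_iff_coprime n q).2 h
        exact MulChar.one_apply hu
      rw [this, mul_one]
    · rw [(chFun_eq_zero_iff _ n).2 h, mul_zero]; simp
  have h2 : total N = ∑ n ∈ (Ioc 0 N).filter (fun n => n.Coprime q), wt N n +
      ∑ n ∈ (Ioc 0 N).filter (fun n => ¬ n.Coprime q), wt N n := by
    rw [Finset.sum_filter_add_sum_filter_not]; rfl
  have h3 := sum_noncoprime_wt_le N q (NeZero.ne q) hN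
  rw [h1, h2, ← Complex.ofReal_sub, Complex.norm_real, Real.norm_eq_abs]
  have e : (∑ n ∈ (Ioc 0 N).filter (fun n => n.Coprime q), wt N n) -
      (∑ n ∈ (Ioc 0 N).filter (fun n => n.Coprime q), wt N n +
      ∑ n ∈ (Ioc 0 N).filter (fun n => ¬ n.Coprime q), wt N n) =
      - ∑ n ∈ (Ioc 0 N).filter (fun n => ¬ n.Coprime q), wt N n := by ring
  rw [e, abs_neg, abs_of_nonneg (Finset.sum_nonneg fun _ _ => wt_nonneg _ _)]
  exact h3

end A12a

open A12a in
theorem a12a : StA12a := by
  intro N q a hN hq ha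
  classical
  have : NeZero q := ⟨by omega⟩
  set E : ℝ := #q.primeFactors * Real.log N ^ 2 with hE
  have hE0 : 0 ≤ E := by positivity
  have hφ : (1 : ℝ) ≤ q.totient := by
    have := Nat.totient_pos.2 hq
    exact_mod_cast this
  have hφ0 : (0 : ℝ) < q.totient := by linarith
  have h1 := orth N q a ha
  have hsplit : ∑ χ : DirichletCharacter ℂ q, χ ((a : ZMod q)⁻¹) * smoothSum N (chFun χ) =
      smoothSum N (chFun (1 : DirichletCharacter ℂ q)) +
      ∑ χ ∈ (univ : Finset (DirichletCharacter ℂ q)).filter (· ≠ 1),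
        χ ((a : ZMod q)⁻¹) * smoothSum N (chFun χ) := by
    rw [← Finset.sum_filter_add_sum_filter_not univ (· = (1 : DirichletCharacter ℂ q))]
    congr 1
    rw [Finset.filter_eq']
    have hu : IsUnit ((a : ZMod q)⁻¹) := by
      have hu : IsUnit (a : ZMod q) := (ZMod.isUnit_iff_coprime a q).2 ha
      obtain ⟨u, hu⟩ := hu
      rw [← hu, ZMod.inv_coe_unit]
      exact Units.isUnit _
    simp [MulChar.one_apply hu]
  rw [hsplit] at h1
  have h2 := one_sub N q hN
  have h3 : ‖∑ χ ∈ (univ : Finset (DirichletCharacter ℂ q)).filter (· ≠ 1),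
      χ ((a : ZMod q)⁻¹) * smoothSum N (chFun χ)‖ ≤
      ∑ χ ∈ (univ : Finset (DirichletCharacter ℂ q)).filter (· ≠ 1),
        (‖smoothSum N (prFun χ)‖ + E) := by
    refine (norm_sum_le _ _).trans (Finset.sum_le_sum fun χ _ => ?_)
    rw [norm_mul]
    calc ‖χ ((a : ZMod q)⁻¹)‖ * ‖smoothSum N (chFun χ)‖ ≤ 1 * ‖smoothSum N (chFun χ)‖ :=
          mul_le_mul_of_nonneg_right (χ.norm_le_one _) (norm_nonneg _)
      _ = ‖smoothSum N (chFun χ)‖ := one_mul _
      _ ≤ _ := norm_smoothSum_sub_le N χ hN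
  rw [Finset.sum_add_distrib, Finset.sum_const, nsmul_eq_mul] at h3
  have hcard : (#((univ : Finset (DirichletCharacter ℂ q)).filter (· ≠ 1)) : ℝ) + 1 ≤
      q.totient := by
    have h4 : #((univ : Finset (DirichletCharacter ℂ q)).filter (· ≠ 1)) + 1 =
        #(univ : Finset (DirichletCharacter ℂ q)) := by
      rw [Finset.filter_ne', Finset.card_erase_of_mem (mem_univ _)]
      have : 0 < #(univ : Finset (DirichletCharacter ℂ q)) := card_pos.2 ⟨1, mem_univ _⟩
      omega
    have h5 : #(univ : Finset (DirichletCharacter ℂ q)) = q.totient := by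
      rw [card_univ, ← Nat.card_eq_fintype_card]
      exact DirichletCharacter.card_eq_totient_of_hasEnoughRootsOfUnity ℂ q
    have h7 : #((univ : Finset (DirichletCharacter ℂ q)).filter (· ≠ 1)) + 1 ≤ q.totient := by
      omega
    exact_mod_cast h7
  rw [← sum_charFns q (fun g => ‖smoothSum N g‖)] at h3
  set Sg : ℝ := ∑ g ∈ charFns q, ‖smoothSum N g‖ with hSg
  have h8 : |q.totient * TN N q a - total N| ≤ E + (Sg + q.totient * E) := by
    rw [← Real.norm_eq_abs, ← Complex.norm_real]
    rw [Complex.ofReal_sub, ← h1]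
    have e : smoothSum N (chFun (1 : DirichletCharacter ℂ q)) +
        (∑ χ ∈ (univ : Finset (DirichletCharacter ℂ q)).filter (· ≠ 1),
          χ ((a : ZMod q)⁻¹) * smoothSum N (chFun χ)) - (total N : ℂ) =
        (smoothSum N (chFun (1 : DirichletCharacter ℂ q)) - (total N : ℂ)) +
        ∑ χ ∈ (univ : Finset (DirichletCharacter ℂ q)).filter (· ≠ 1),
          χ ((a : ZMod q)⁻¹) * smoothSum N (chFun χ) := by ring
    rw [e]
    refine (norm_add_le _ _).trans (add_le_add h2 (h3.trans ?_))
    have : (#((univ : Finset (DirichletCharacter ℂ q)).filter (· ≠ 1)) : ℝ) * E ≤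
        q.totient * E := mul_le_mul_of_nonneg_right (by linarith) hE0
    linarith
  have h9 : TN N q a - TN N 1 0 / q.totient = (q.totient * TN N q a - total N) / q.totient := by
    rw [TN_one]
    field_simp
  rw [h9, abs_div, abs_of_pos hφ0, div_le_iff₀ hφ0]
  have h10 : (1 / (q.totient : ℝ) * Sg + 2 * E) * q.totient = Sg + 2 * (q.totient * E) := by
    field_simp
  rw [h10]
  have h11 : E ≤ q.totient * E := by nlinarith
  linarith

end Pool.Agent.Helper90.MT
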