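import Pool.Agent.Helper90.MT.StA

/-!
Project MT: the tent and primes.
-/

namespace Pool.Agent.Helper90.MT

open Finset

theorem a12b_big (x : ℝ) (n : ℕ) (hx : 0 < x) (hn : 0 < n) (h : (n : ℝ) ≤ x) :
    Real.posLog (x / n) = Real.log x - Real.log n := by
  have hn' : (0 : ℝ) < n := by exact_mod_cast hn
  rw [Real.posLog_eq_log, Real.log_div hx.ne' hn'.ne']
  rw [abs_of_pos (div_pos hx hn')]
  exact (one_le_div hn').mpr h

theorem a12b_small (x : ℝ) (n : ℕ) (hx : 0 ≤ x) (h : x ≤ n) :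
    Real.posLog (x / n) = 0 := by
  rw [Real.posLog_eq_zero_iff]
  have h0 : (0 : ℝ) ≤ n := Nat.cast_nonneg n
  rw [abs_of_nonneg (div_nonneg hx h0)]
  exact div_le_one_of_le₀ h h0

theorem a12b_log (M : ℕ) (hM : 1 ≤ M) : Real.log (2 * (M : ℝ)) = Real.log 2 + Real.log M ∧
    Real.log (4 * (M : ℝ)) = 2 * Real.log 2 + Real.log M := by
  have hM' : (M : ℝ) ≠ 0 := by
    have : (0 : ℝ) < M := by exact_mod_cast hM
    exact this.ne'
  constructor
  · rw [Real.log_mul (by norm_num) hM']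
  · rw [Real.log_mul (by norm_num) hM']
    have : (4 : ℝ) = 2 ^ 2 := by norm_num
    rw [this, Real.log_pow]
    norm_num

theorem a12b_tent0 (M n : ℕ) (hn : 0 < n) (h : n ≤ M) : tent M n = 0 := by
  have hM : 1 ≤ M := by omega
  have h' : (n : ℝ) ≤ M := by exact_mod_cast h
  have hM' : (0 : ℝ) < M := by exact_mod_cast hM
  obtain ⟨h2, h4⟩ := a12b_log M hM
  rw [tent, a12b_big _ n (by linarith) hn (by linarith),
    a12b_big _ n (by linarith) hn (by linarith), a12b_big _ n hM' hn h', h2, h4]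
  ring

theorem a12b_tent1 (M n : ℕ) (h1 : M < n) (h : n ≤ 4 * M) : |tent M n| ≤ 1 := by
  have hM : 1 ≤ M := by omega
  have hn : 0 < n := by omega
  have h1' : (M : ℝ) ≤ n := by exact_mod_cast h1.le
  have h' : (n : ℝ) ≤ 4 * M := by exact_mod_cast h
  have hM' : (0 : ℝ) < M := by exact_mod_cast hM
  have hn' : (0 : ℝ) < n := by exact_mod_cast hn
  obtain ⟨h2, h4⟩ := a12b_log M hM
  have hl2 : Real.log 2 ≤ 1 := by
    have := Real.log_two_lt_d9
    linarith
  rw [tent, a12b_big _ n (by linarith) hn h', a12b_small (M : ℝ) n hM'.le h1', h4]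
  rcases le_total (n : ℝ) (2 * M) with h3 | h3
  · rw [a12b_big _ n (by linarith) hn h3, h2]
    have h5 : Real.log n ≤ Real.log 2 + Real.log M := by
      rw [← h2]
      exact Real.log_le_log hn' h3
    have h6 : Real.log M ≤ Real.log n := Real.log_le_log hM' h1'
    rw [abs_le]
    constructor <;> linarith
  · rw [a12b_small _ n (by linarith) h3]
    have h5 : Real.log 2 + Real.log M ≤ Real.log n := by
      rw [← h2]
      exact Real.log_le_log (by linarith) h3
    have h6 : Real.log n ≤ 2 * Real.log 2 + Real.log M := by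
      rw [← h4]
      exact Real.log_le_log hn' h'
    rw [abs_le]
    constructor <;> linarith

theorem a12b_ext (N L q a : ℕ) (h : N ≤ L) : TN N q a =
    ∑ n ∈ (Ioc 0 L).filter (fun n => n ≡ a [MOD q]),
      ArithmeticFunction.vonMangoldt n * Real.posLog ((N : ℝ) / n) := by
  rw [TN]
  refine sum_subset ?_ ?_
  · intro n hn
    rw [mem_filter, mem_Ioc] at hn ⊢
    exact ⟨⟨hn.1.1, hn.1.2.trans h⟩, hn.2⟩
  · intro n hn hn'
    rw [mem_filter, mem_Ioc] at hn hn'
    have h1 : N ≤ n := by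
      by_contra h1
      exact hn' ⟨⟨hn.1.1, by omega⟩, hn.2⟩
    rw [a12b_small (N : ℝ) n (Nat.cast_nonneg N) (by exact_mod_cast h1), mul_zero]

theorem a12b_comb (M q a : ℕ) :
    TN (4 * M) q a - 2 * TN (2 * M) q a + TN M q a =
      ∑ n ∈ (Ioc M (4 * M)).filter (fun n => n ≡ a [MOD q]),
        ArithmeticFunction.vonMangoldt n * tent M n := by
  rw [a12b_ext (4 * M) (4 * M) q a le_rfl, a12b_ext (2 * M) (4 * M) q a (by omega),
    a12b_ext M (4 * M) q a (by omega), mul_sum, ← sum_sub_distrib, ← sum_add_distrib]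
  symm
  refine (sum_subset (s₂ := (Ioc 0 (4 * M)).filter (fun n => n ≡ a [MOD q])) ?_ ?_).trans ?_
  · intro n hn
    rw [mem_filter, mem_Ioc] at hn ⊢
    exact ⟨⟨by omega, hn.1.2⟩, hn.2⟩
  · intro n hn hn'
    rw [mem_filter, mem_Ioc] at hn hn'
    have h1 : n ≤ M := by
      by_contra h1
      exact hn' ⟨⟨by omega, hn.1.2⟩, hn.2⟩
    rw [a12b_tent0 M n hn.1.1 h1, mul_zero]
  · refine sum_congr rfl fun n _ => ?_
    rw [tent]
    push_cast
    ring

theorem a12b : StA12b := by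
  intro M q a hM
  rw [a12b_comb, ← sum_sub_distrib]
  have h1 : ∀ n ∈ (Ioc M (4 * M)).filter (fun n => n ≡ a [MOD q]),
      |fp M n - ArithmeticFunction.vonMangoldt n * tent M n| ≤
        if ¬ n.Prime then ArithmeticFunction.vonMangoldt n else 0 := by
    intro n hn
    rw [mem_filter, mem_Ioc] at hn
    by_cases hp : n.Prime
    · rw [fp, if_pos hp, ArithmeticFunction.vonMangoldt_apply_prime hp, sub_self, abs_zero,
        if_neg (not_not.mpr hp)]
    · rw [fp, if_neg hp, zero_sub, abs_neg, abs_mul, if_pos hp,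
        abs_of_nonneg ArithmeticFunction.vonMangoldt_nonneg]
      exact mul_le_of_le_one_right ArithmeticFunction.vonMangoldt_nonneg
        (a12b_tent1 M n hn.1.1 hn.1.2)
  have h2 := Chebyshev.psi_sub_theta_eq_sum_not_prime ((4 * M : ℕ) : ℝ)
  rw [Nat.floor_natCast] at h2
  have h3 : (1 : ℝ) ≤ ((4 * M : ℕ) : ℝ) := by exact_mod_cast (by omega : 1 ≤ 4 * M)
  have h4 := Chebyshev.psi_sub_theta_le h3
  have h5 : ∑ n ∈ (Ioc M (4 * M)).filter (fun n => n ≡ a [MOD q]),
      (if ¬ n.Prime then ArithmeticFunction.vonMangoldt n else 0) ≤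
      ∑ n ∈ (Ioc 0 (4 * M)).filter (fun n => ¬ n.Prime), ArithmeticFunction.vonMangoldt n := by
    rw [← sum_filter]
    refine sum_le_sum_of_subset_of_nonneg ?_ fun _ _ _ => ArithmeticFunction.vonMangoldt_nonneg
    intro n hn
    rw [mem_filter, mem_filter, mem_Ioc] at hn
    rw [mem_filter, mem_Ioc]
    exact ⟨⟨by omega, hn.1.1.2⟩, hn.2⟩
  have h6 : √((4 * M : ℕ) : ℝ) = 2 * √(M : ℝ) := by
    push_cast
    rw [Real.sqrt_mul (by norm_num), show (4 : ℝ) = 2 ^ 2 by norm_num,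
      Real.sqrt_sq (by norm_num)]
  have h7 : Real.log ((4 * M : ℕ) : ℝ) = Real.log (4 * (M : ℝ)) := by
    push_cast
    rfl
  have h8 : 0 ≤ √(M : ℝ) * Real.log (4 * (M : ℝ)) := by
    refine mul_nonneg (Real.sqrt_nonneg _) ?_
    rw [← h7]
    exact Real.log_nonneg h3
  calc |∑ n ∈ (Ioc M (4 * M)).filter (fun n => n ≡ a [MOD q]),
        (fp M n - ArithmeticFunction.vonMangoldt n * tent M n)|
      ≤ ∑ n ∈ (Ioc M (4 * M)).filter (fun n => n ≡ a [MOD q]),
          |fp M n - ArithmeticFunction.vonMangoldt n * tent M n| := abs_sum_le_sum_abs _ _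
    _ ≤ _ := sum_le_sum h1
    _ ≤ _ := h5
    _ = Chebyshev.psi ((4 * M : ℕ) : ℝ) - Chebyshev.theta ((4 * M : ℕ) : ℝ) := h2.symm
    _ ≤ 2 * √((4 * M : ℕ) : ℝ) * Real.log ((4 * M : ℕ) : ℝ) := h4
    _ = 4 * (√(M : ℝ) * Real.log (4 * (M : ℝ))) := by
        rw [h6, h7]
        ring
    _ ≤ 20 * √M * Real.log (4 * M) := by
        linarith

end Pool.Agent.Helper90.MT
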