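import Pool.Agent.Helper90.MT.StA

/-! Project MT, module A8: levels without exceptional character. -/

namespace Pool.Agent.Helper90.MT

open Finset Complex
open Pool.Agent.Helper2 (smoothSum chFun prFun charFns)

namespace A8Aux

/-- `f` is the function of an exceptional character of conductor at most `Q` with bound `c` -/
def Exc (c : ℝ) (Q : ℕ) (f : ℕ → ℂ) : Prop :=
  ∃ (q : ℕ) (_ : NeZero q) (χ : DirichletCharacter ℂ q), q ≤ Q ∧ χ.IsPrimitive ∧ χ ≠ 1 ∧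
    χ ^ 2 = 1 ∧ (∃ σ : ℝ, 1 < σ ∧ σ ≤ 2 ∧ ‖LSeries (Lk χ 0) (σ : ℂ)‖ < c) ∧ chFun χ = f

theorem Exc.mono {c c' : ℝ} {Q Q' : ℕ} {f : ℕ → ℂ} (h : Exc c Q f) (hc : c ≤ c') (hQ : Q ≤ Q') :
    Exc c' Q' f := by
  obtain ⟨q, hq, χ, h1, h2, h3, h4, ⟨σ, s1, s2, s3⟩, h5⟩ := h
  exact ⟨q, hq, χ, h1.trans hQ, h2, h3, h4, ⟨σ, s1, s2, s3.trans_le hc⟩, h5⟩

theorem Lk_zero {q : ℕ} (χ : DirichletCharacter ℂ q) : Lk χ 0 = chFun χ := by
  funext n
  simp [Lk, chFun]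

/-- positive lower bound for a fixed nonprincipal character -/
theorem lower {q : ℕ} [NeZero q] (χ : DirichletCharacter ℂ q) (hχ : χ ≠ 1) :
    ∃ d : ℝ, 0 < d ∧ ∀ σ : ℝ, 1 < σ → σ ≤ 2 → d ≤ ‖LSeries (chFun χ) (σ : ℂ)‖ := by
  have hc : ContinuousOn (fun σ : ℝ => ‖χ.LFunction (σ : ℂ)‖) (Set.Icc 1 2) := by
    have h1 : Continuous χ.LFunction :=
      (DirichletCharacter.differentiable_LFunction hχ).continuous
    exact (h1.comp Complex.continuous_ofReal).norm.continuousOn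
  obtain ⟨σ₀, hσ₀, hmin⟩ := isCompact_Icc.exists_isMinOn (Set.nonempty_Icc.2 (by norm_num)) hc
  refine ⟨‖χ.LFunction (σ₀ : ℂ)‖, ?_, ?_⟩
  · rw [norm_pos_iff]
    refine DirichletCharacter.LFunction_ne_zero_of_one_le_re χ (Or.inl hχ) ?_
    simpa using hσ₀.1
  · intro σ h1 h2
    have h3 := hmin (Set.mem_Icc.2 ⟨h1.le, h2⟩)
    have h4 : χ.LFunction (σ : ℂ) = LSeries (chFun χ) (σ : ℂ) := by
      rw [DirichletCharacter.LFunction_eq_LSeries χ (by simpa using h1)]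
      rfl
    rw [← h4]
    exact h3

theorem log_ratio {Q : ℕ} (hQ : 10 ≤ Q) : Real.log (Q + 1 : ℕ) ^ 5 ≤ 2 * Real.log Q ^ 5 := by
  have hQ' : (10 : ℝ) ≤ Q := by exact_mod_cast hQ
  have h1 : 1 ≤ Real.log Q := by
    rw [Real.le_log_iff_exp_le (by linarith)]
    have := Real.exp_one_lt_d9
    linarith
  have h2 : Real.log (Q + 1 : ℕ) ≤ Real.log Q * (11 / 10) := by
    have h3 : Real.log (Q + 1 : ℕ) = Real.log Q + Real.log (1 + 1 / (Q : ℝ)) := by
      rw [← Real.log_mul (by linarith) (by positivity)]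
      congr 1
      push_cast
      field_simp
    have h4 : Real.log (1 + 1 / (Q : ℝ)) ≤ 1 / (Q : ℝ) := by
      have := Real.log_le_sub_one_of_pos (x := 1 + 1 / (Q : ℝ)) (by positivity)
      linarith
    have h5 : 1 / (Q : ℝ) ≤ 1 / 10 := by
      apply one_div_le_one_div_of_le <;> linarith
    rw [h3]
    linarith
  have h0 : 0 ≤ Real.log (Q + 1 : ℕ) := Real.log_natCast_nonneg _
  calc Real.log (Q + 1 : ℕ) ^ 5 ≤ (Real.log Q * (11 / 10)) ^ 5 := pow_le_pow_left₀ h0 h2 5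
    _ = Real.log Q ^ 5 * (11 / 10) ^ 5 := by ring
    _ ≤ Real.log Q ^ 5 * 2 := mul_le_mul_of_nonneg_left (by norm_num) (by positivity)
    _ = _ := by ring

end A8Aux

open A8Aux in
theorem a8 (h7 : StA7) : StA8 := by
  obtain ⟨c, hc, Q₀, h7⟩ := h7
  refine ⟨c / 2, by positivity, ?_⟩
  by_contra hcon
  push Not at hcon
  obtain ⟨Q₁, hQ₁⟩ := hcon
  set R := max Q₁ (max Q₀ 10) with hR
  have hex : ∀ Q, R ≤ Q → ∃ f, Exc (c / 2 / Real.log Q ^ 5) Q f := by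
    intro Q hQ
    obtain ⟨q, hq, χ, h1, h2, h3, h4, σ, h5, h6, h8⟩ := hQ₁ Q ((le_max_left _ _).trans hQ)
    exact ⟨chFun χ, q, hq, χ, h1, h2, h3, h4, ⟨σ, h5, h6, h8⟩, rfl⟩
  choose! F hF using hex
  have logpos : ∀ Q, R ≤ Q → 0 < Real.log Q := by
    intro Q hQ
    have : 10 ≤ Q := (le_max_right _ _).trans ((le_max_right _ _).trans hQ)
    exact Real.log_pos (by exact_mod_cast (by omega : 1 < Q))
  have hstep : ∀ Q, R ≤ Q → F (Q + 1) = F Q := by
    intro Q hQ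
    have h10 : 10 ≤ Q := (le_max_right _ _).trans ((le_max_right _ _).trans hQ)
    have hQ0 : Q₀ ≤ Q + 1 := ((le_max_left _ _).trans ((le_max_right _ _).trans hQ)).trans
      (Nat.le_succ Q)
    have l0 := logpos Q hQ
    have l1 := logpos (Q + 1) (hQ.trans (Nat.le_succ Q))
    have e1 : Exc (c / Real.log (Q + 1 : ℕ) ^ 5) (Q + 1) (F Q) := by
      refine (hF Q hQ).mono ?_ (Nat.le_succ Q)
      rw [div_div]
      exact div_le_div_of_nonneg_left hc.le (by positivity) (log_ratio h10)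
    have e2 : Exc (c / Real.log (Q + 1 : ℕ) ^ 5) (Q + 1) (F (Q + 1)) := by
      refine (hF (Q + 1) (hQ.trans (Nat.le_succ Q))).mono ?_ le_rfl
      exact div_le_div_of_nonneg_right (by linarith) (by positivity)
    obtain ⟨q, hq, χ, a1, a2, a3, a4, a5, a6⟩ := e1
    obtain ⟨q', hq', χ', b1, b2, b3, b4, b5, b6⟩ := e2
    rw [← a6, ← b6]
    exact h7 (Q + 1) hQ0 q' q χ' χ b1 a1 b2 a2 b3 a3 b4 a4 b5 a5
  have hconst : ∀ n, F (R + n) = F R := by
    intro n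
    induction n with
    | zero => rfl
    | succ n ih => rw [← add_assoc, hstep (R + n) (Nat.le_add_right _ _), ih]
  obtain ⟨q, hq, χ, a1, a2, a3, a4, a5, a6⟩ := hF R le_rfl
  obtain ⟨d, hd, hlow⟩ := lower χ a3
  -- choose a large level
  have htend : Filter.Tendsto (fun n : ℕ => Real.log (R + n : ℕ)) Filter.atTop Filter.atTop :=
    Real.tendsto_log_atTop.comp (tendsto_natCast_atTop_atTop.comp
      (Filter.tendsto_atTop_mono (fun n => Nat.le_add_left n R) Filter.tendsto_id))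
  obtain ⟨n, hn⟩ := (htend.eventually (Filter.eventually_ge_atTop (max 1 (c / 2 / d)))).exists
  have hn1 : 1 ≤ Real.log (R + n : ℕ) := (le_max_left _ _).trans hn
  have hn2 : c / 2 / d ≤ Real.log (R + n : ℕ) := (le_max_right _ _).trans hn
  obtain ⟨q', hq', χ', b1, b2, b3, b4, ⟨σ, s1, s2, s3⟩, b6⟩ := hF (R + n) (Nat.le_add_right _ _)
  rw [Lk_zero, b6, hconst n, ← a6] at s3
  have h9 := hlow σ s1 s2
  have h10 : Real.log (R + n : ℕ) ≤ Real.log (R + n : ℕ) ^ 5 := by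
    calc Real.log (R + n : ℕ) = Real.log (R + n : ℕ) ^ 1 := (pow_one _).symm
      _ ≤ Real.log (R + n : ℕ) ^ 5 := pow_le_pow_right₀ hn1 (by norm_num)
  have h11 : c / 2 / Real.log (R + n : ℕ) ^ 5 ≤ d := by
    rw [div_le_iff₀ (by positivity)]
    rw [div_le_iff₀ hd] at hn2
    nlinarith
  linarith

end Pool.Agent.Helper90.MT
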