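import Pool.Agent.Helper90.MT.StA

/-! Project MT, module A9: small conductors. -/

namespace Pool.Agent.Helper90.MT

open Finset Complex
open Pool.Agent.Helper2 (smoothSum chFun prFun charFns)

namespace A9Aux

/-- growth comparison -/
theorem growth (C c δ : ℝ) (m : ℕ) (hc : 0 < c) (hδ : 0 < δ) :
    ∀ᶠ x : ℝ in Filter.atTop, C * ((1 + 1 / c) * Real.log (3 * x)) ^ m + 1 ≤ x ^ δ := by
  have h1 := isLittleO_log_rpow_rpow_atTop (m : ℝ) hδ
  set K : ℝ := 2 * (|C| * ((1 + 1 / c) * 2) ^ m + 1) with hK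
  have hK0 : 0 < K := by positivity
  have h2 := h1.bound (show (0 : ℝ) < 1 / K by positivity)
  have h3 : ∀ᶠ x : ℝ in Filter.atTop, (2 : ℝ) ≤ x ^ δ :=
    (tendsto_rpow_atTop hδ).eventually (Filter.eventually_ge_atTop 2)
  filter_upwards [h2, h3, Filter.eventually_ge_atTop (3 : ℝ)] with x hx hx2 hx3
  have hl0 : 0 ≤ Real.log x := Real.log_nonneg (by linarith)
  have e1 : Real.log (3 * x) ≤ 2 * Real.log x := by
    rw [Real.log_mul (by norm_num) (by linarith)]
    have : Real.log 3 ≤ Real.log x := Real.log_le_log (by norm_num) hx3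
    linarith
  have e0 : 0 ≤ Real.log (3 * x) := Real.log_nonneg (by linarith)
  have e2 : ((1 + 1 / c) * Real.log (3 * x)) ^ m ≤ ((1 + 1 / c) * 2) ^ m * Real.log x ^ m := by
    rw [← mul_pow]
    refine pow_le_pow_left₀ (by positivity) ?_ m
    have : 0 ≤ 1 + 1 / c := by positivity
    nlinarith
  have hx0 : 0 ≤ x ^ δ := by linarith
  rw [Real.norm_of_nonneg (by positivity), Real.norm_of_nonneg hx0, Real.rpow_natCast] at hx
  have e3 : K * Real.log x ^ m ≤ x ^ δ := by
    rw [one_div, ← div_eq_inv_mul, le_div_iff₀ hK0] at hx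
    linarith
  have e4 : C * ((1 + 1 / c) * Real.log (3 * x)) ^ m ≤
      |C| * (((1 + 1 / c) * 2) ^ m * Real.log x ^ m) := by
    calc C * ((1 + 1 / c) * Real.log (3 * x)) ^ m
        ≤ |C| * ((1 + 1 / c) * Real.log (3 * x)) ^ m :=
          mul_le_mul_of_nonneg_right (le_abs_self C) (by positivity)
      _ ≤ _ := mul_le_mul_of_nonneg_left e2 (abs_nonneg C)
  have e5 : 2 * (|C| * (((1 + 1 / c) * 2) ^ m * Real.log x ^ m)) ≤ K * Real.log x ^ m := by
    have : 0 ≤ Real.log x ^ m := by positivity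
    rw [hK]
    nlinarith
  linarith

end A9Aux

open A9Aux in
theorem a9 (h6 : StA6) (h8 : StA8) : StA9 := by
  intro A B M₀
  obtain ⟨C, hC, m, h6⟩ := h6 (B + 1)
  obtain ⟨c, hc, h8⟩ := h8
  set δ : ℝ := 1 / ((A : ℝ) + 1) with hδ
  have hδ0 : 0 < δ := by positivity
  -- a large level
  have ev1 := growth C c δ m hc hδ0
  have ev2 : ∀ᶠ x : ℝ in Filter.atTop, Real.log (M₀ + 3) + 3 ≤ x ^ δ :=
    (tendsto_rpow_atTop hδ0).eventually (Filter.eventually_ge_atTop _)
  obtain ⟨X, hX⟩ := Filter.eventually_atTop.1 (ev1.and ev2)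
  obtain ⟨Q, hQ, h8⟩ := h8 (max ⌈X⌉₊ 3)
  have hQX : X ≤ (Q : ℝ) := (Nat.le_ceil X).trans (by exact_mod_cast (le_max_left _ _).trans hQ)
  have hQ3 : 3 ≤ Q := (le_max_right _ _).trans hQ
  have hQ3' : (3 : ℝ) ≤ Q := by exact_mod_cast hQ3
  obtain ⟨g1, g2⟩ := hX Q hQX
  set R : ℝ := (Q : ℝ) ^ δ with hR
  set M := ⌊Real.exp R⌋₊ with hM
  have hR3 : 3 ≤ R := by
    have : 0 ≤ Real.log ((M₀ : ℝ) + 3) := Real.log_nonneg (by
      have : (0 : ℝ) ≤ M₀ := by positivity
      linarith)
    linarith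
  have hRM : (M₀ : ℝ) + 3 ≤ Real.exp R := by
    rw [← Real.log_le_iff_le_exp (by positivity)]
    linarith
  have hMM : M₀ + 3 ≤ M := Nat.le_floor (by push_cast; exact hRM)
  have hMle : (M : ℝ) ≤ Real.exp R := Nat.floor_le (Real.exp_pos R).le
  have hM3 : 3 ≤ M := by omega
  have hM0 : (0 : ℝ) < M := by exact_mod_cast (by omega : 0 < M)
  have hlogM : Real.log M ≤ R := by
    rw [Real.log_le_iff_le_exp hM0]
    exact hMle
  have hlogM' : R - 1 ≤ Real.log M := by
    rw [Real.le_log_iff_exp_le hM0, Real.exp_sub]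
    have h1 : Real.exp R < M + 1 := Nat.lt_floor_add_one _
    have h2 : (2 : ℝ) ≤ Real.exp 1 := by
      have := Real.add_one_le_exp (1 : ℝ)
      linarith
    have h3 : Real.exp R / Real.exp 1 ≤ Real.exp R / 2 :=
      div_le_div_of_nonneg_left (Real.exp_pos R).le (by norm_num) h2
    have h4 : (1 : ℝ) ≤ M := by exact_mod_cast (by omega : 1 ≤ M)
    linarith
  have hlogM1 : 1 ≤ Real.log M := by linarith
  have hpow : Real.log M ^ A ≤ Q := by
    have h1 : Real.log M ^ A ≤ Real.log M ^ (A + 1) := pow_le_pow_right₀ hlogM1 (Nat.le_succ A)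
    have h2 : Real.log M ^ (A + 1) ≤ R ^ (A + 1) := pow_le_pow_left₀ (by linarith) hlogM _
    have h3 : R ^ (A + 1) = Q := by
      rw [hR, ← Real.rpow_natCast, ← Real.rpow_mul (by positivity)]
      have : δ * ((A + 1 : ℕ) : ℝ) = 1 := by
        rw [hδ]
        push_cast
        field_simp
      rw [this, Real.rpow_one]
    linarith
  set y : ℝ := (1 + 1 / c) * Real.log (3 * Q) with hy
  have hl3 : 1 ≤ Real.log (3 * Q) := by
    rw [Real.le_log_iff_exp_le (by positivity)]
    have := Real.exp_one_lt_d9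
    linarith
  have hy1 : Real.log (3 * Q) ≤ y := by
    have : 0 ≤ 1 / c * Real.log (3 * Q) := by positivity
    rw [hy]
    linarith
  have hyc : 1 / c ≤ y := by
    have h0 : 0 ≤ 1 / c := by positivity
    rw [hy]
    nlinarith
  refine ⟨M, by omega, ?_⟩
  intro N hN q _ χ hq hprim hne
  have hqQ : q ≤ Q := by exact_mod_cast hq.trans hpow
  have hq0 : (0 : ℝ) < q := by exact_mod_cast Nat.pos_of_ne_zero (NeZero.ne q)
  have hRg : Rg χ y := by
    refine ⟨hne, ?_, ?_⟩
    · refine le_trans (Real.log_le_log (by positivity) ?_) hy1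
      have : (q : ℝ) ≤ Q := by exact_mod_cast hqQ
      linarith
    · intro h2 σ s1 s2
      refine le_trans ?_ (h8 q χ hqQ hprim hne h2 σ s1 s2)
      have hl : 0 < Real.log Q := Real.log_pos (by linarith)
      have hly : Real.log Q ≤ y := by
        refine le_trans (Real.log_le_log (by linarith) ?_) hy1
        linarith
      rw [div_le_div_iff₀ (by positivity) (by positivity), one_mul]
      have e1 : Real.log Q ^ 5 ≤ y ^ 5 := pow_le_pow_left₀ hl.le hly 5
      have e2 : 1 ≤ c * y := by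
        rw [div_le_iff₀ hc] at hyc
        linarith
      calc Real.log Q ^ 5 ≤ y ^ 5 * 1 := by rw [mul_one]; exact e1
        _ ≤ y ^ 5 * (c * y) := mul_le_mul_of_nonneg_left e2 (by positivity)
        _ = c * y ^ 6 := by ring
  have hNM : M ≤ N := by rcases hN with rfl | rfl | rfl <;> omega
  have hN3 : 3 ≤ N := hM3.trans hNM
  have hN0 : (0 : ℝ) < N := by exact_mod_cast (by omega : 0 < N)
  have hlN : Real.log M ≤ Real.log N := Real.log_le_log hM0 (by exact_mod_cast hNM)
  have hlN0 : 0 < Real.log N := by linarith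
  refine (h6 q χ y hRg N hN3).trans ?_
  rw [div_le_div_iff₀ (by positivity) (by positivity), pow_succ]
  have e1 : C * y ^ m ≤ Real.log N := by linarith
  calc C * N * y ^ m * Real.log N ^ B = (C * y ^ m) * (N * Real.log N ^ B) := by ring
    _ ≤ Real.log N * (N * Real.log N ^ B) := mul_le_mul_of_nonneg_right e1 (by positivity)
    _ = N * (Real.log N ^ B * Real.log N) := by ring

end Pool.Agent.Helper90.MT
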