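import Pool.Agent.Helper90.MT.StA

/-!
Project MT (MP_3ec731_nt), module A-BV: Bombieri-Vinogradov on a subsequence, with divisor
weights.
-/

namespace Pool.Agent.Helper90.MT

open Finset
open Pool.Agent.Helper2 (smoothSum chFun prFun charFns)

namespace BVm

/-- contribution of the characters modulo `q` -/
noncomputable def W (N q : ℕ) : ℝ := 1 / (q.totient : ℝ) * ∑ g ∈ charFns q, ‖smoothSum N g‖

/-- contribution of the primitive characters modulo `r` -/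
noncomputable def P (N r : ℕ) : ℝ := 1 / (r.totient : ℝ) * ∑ g ∈ primFns r, ‖smoothSum N g‖

/-- the nontrivial bound for the discrepancy -/
noncomputable def Eb (M q : ℕ) : ℝ :=
  40 * (√M * Real.log (4 * M)) + (W (4 * M) q + 2 * W (2 * M) q + W M q) +
    8 * (q.primeFactors.card * Real.log (4 * M) ^ 2)

/-- the bound for the discrepancy -/
noncomputable def Ee (M q : ℕ) : ℝ := min (Eb M q) (20 * M * Real.log (4 * M) / q.totient)

theorem W_nonneg (N q : ℕ) : 0 ≤ W N q :=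
  mul_nonneg (by positivity) (Finset.sum_nonneg fun _ _ => norm_nonneg _)

theorem P_nonneg (N r : ℕ) : 0 ≤ P N r :=
  mul_nonneg (by positivity) (Finset.sum_nonneg fun _ _ => norm_nonneg _)

theorem log4_nonneg {M : ℕ} (hM : 1 ≤ M) : 0 ≤ Real.log (4 * M) := by
  apply Real.log_nonneg
  have : (1 : ℝ) ≤ M := by exact_mod_cast hM
  linarith

theorem Eb_nonneg {M : ℕ} (hM : 1 ≤ M) (q : ℕ) : 0 ≤ Eb M q := by
  have h1 := W_nonneg (4 * M) q
  have h2 := W_nonneg (2 * M) q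
  have h3 := W_nonneg M q
  have h4 := log4_nonneg hM
  unfold Eb
  positivity

theorem Ee_nonneg {M : ℕ} (hM : 1 ≤ M) (q : ℕ) : 0 ≤ Ee M q := by
  have h4 := log4_nonneg hM
  exact le_min (Eb_nonneg hM q) (by positivity)

theorem disc_le (h12a : StA12a) (h12b : StA12b) {M q a : ℕ} (hM : 1 ≤ M) (hq : 1 ≤ q)
    (ha : a.Coprime q) :
    |∑ n ∈ (Ioc M (4 * M)).filter (fun n => n ≡ a [MOD q]), fp M n - X1 M / q.totient| ≤
      Eb M q := by
  have hφ : 1 ≤ q.totient := Nat.totient_pos.2 hq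
  have hφ1 : (1 : ℝ) ≤ q.totient := by exact_mod_cast hφ
  have hφ0 : (0 : ℝ) < q.totient := by linarith
  have hM1 : (1 : ℝ) ≤ M := by exact_mod_cast hM
  have hX : X1 M = ∑ n ∈ (Ioc M (4 * M)).filter (fun n => n ≡ 0 [MOD 1]), fp M n := by
    unfold X1
    rw [Finset.filter_true_of_mem (fun n _ => Nat.modEq_one)]
  have b1 := h12b M q a hM
  have b2 := h12b M 1 0 hM
  rw [← hX] at b2
  have c4 := h12a (4 * M) q a (by omega) hq ha
  have c2 := h12a (2 * M) q a (by omega) hq ha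
  have c1 := h12a M q a hM hq ha
  push_cast at c4 c2 c1
  change _ ≤ W (4 * M) q + _ at c4
  change _ ≤ W (2 * M) q + _ at c2
  change _ ≤ W M q + _ at c1
  set S := ∑ n ∈ (Ioc M (4 * M)).filter (fun n => n ≡ a [MOD q]), fp M n
  set X := X1 M
  set t4 := TN (4 * M) q a
  set t2 := TN (2 * M) q a
  set t1 := TN M q a
  set u4 := TN (4 * M) 1 0
  set u2 := TN (2 * M) 1 0
  set u1 := TN M 1 0
  set φ : ℝ := (q.totient : ℝ)
  set L4 := Real.log (4 * M)
  have hL4 : 0 ≤ L4 := log4_nonneg hM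
  have hL2 : Real.log (2 * M) ^ 2 ≤ L4 ^ 2 :=
    pow_le_pow_left₀ (Real.log_nonneg (by linarith)) (Real.log_le_log (by linarith) (by linarith)) 2
  have hL1 : Real.log M ^ 2 ≤ L4 ^ 2 :=
    pow_le_pow_left₀ (Real.log_nonneg (by linarith)) (Real.log_le_log (by linarith) (by linarith)) 2
  set w : ℝ := (q.primeFactors.card : ℝ)
  have hw : 0 ≤ w := by positivity
  have hw2 : w * Real.log (2 * M) ^ 2 ≤ w * L4 ^ 2 := mul_le_mul_of_nonneg_left hL2 hw
  have hw1 : w * Real.log M ^ 2 ≤ w * L4 ^ 2 := mul_le_mul_of_nonneg_left hL1 hw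
  have b3 : |(X - (u4 - 2 * u2 + u1)) / φ| ≤ 20 * √M * L4 := by
    rw [abs_div, abs_of_pos hφ0]
    exact (div_le_self (abs_nonneg _) hφ1).trans b2
  have e : S - X / φ = (S - (t4 - 2 * t2 + t1)) - (X - (u4 - 2 * u2 + u1)) / φ +
      (t4 - u4 / φ) - 2 * (t2 - u2 / φ) + (t1 - u1 / φ) := by
    field_simp
    ring
  rw [e]
  unfold Eb
  change _ ≤ 40 * (√M * L4) + (W (4 * M) q + 2 * W (2 * M) q + W M q) + 8 * (w * L4 ^ 2)
  rw [abs_le] at b1 b3 c4 c2 c1 ⊢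
  constructor <;> linarith

open Classical in
theorem P_le (N r : ℕ) [NeZero r] {X : ℝ} (hX : ∀ χ : DirichletCharacter ℂ r, χ.IsPrimitive →
    χ ≠ 1 → ‖smoothSum N (chFun χ)‖ ≤ X) (hX0 : 0 ≤ X) : P N r ≤ X := by
  have hφ : 1 ≤ r.totient := Nat.totient_pos.2 (Nat.pos_of_ne_zero (NeZero.ne r))
  have hφ0 : (0 : ℝ) < r.totient := by exact_mod_cast hφ
  have h1 : ∑ g ∈ primFns r, ‖smoothSum N g‖ ≤ (primFns r).card • X := by
    apply Finset.sum_le_card_nsmul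
    intro g hg
    unfold primFns at hg
    rw [dif_neg (NeZero.ne r)] at hg
    obtain ⟨χ, hχ, rfl⟩ := Finset.mem_image.1 hg
    rw [Finset.mem_filter] at hχ
    exact hX χ hχ.2.1 hχ.2.2
  have h2 : (primFns r).card ≤ r.totient := by
    unfold primFns
    rw [dif_neg (NeZero.ne r)]
    refine card_image_le.trans ((card_filter_le _ _).trans ?_)
    rw [card_univ, ← Nat.card_eq_fintype_card,
      DirichletCharacter.card_eq_totient_of_hasEnoughRootsOfUnity ℂ r]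
  have h3 : ((primFns r).card : ℝ) ≤ r.totient := by exact_mod_cast h2
  unfold P
  rw [div_mul_eq_mul_div, one_mul, div_le_iff₀ hφ0]
  refine h1.trans ?_
  rw [nsmul_eq_mul, mul_comm]
  exact mul_le_mul_of_nonneg_left h3 hX0

theorem sumW_le (h11 : StA11) {N Q D : ℕ} {X Y Z : ℝ}
    (hX : ∀ r ∈ Icc 1 D, P N r ≤ X)
    (hY : ∑ r ∈ Ioc D Q, P N r ≤ Y) (hZ : ∑ q ∈ Icc 1 Q, 1 / (q.totient : ℝ) ≤ Z) :
    ∑ q ∈ Icc 1 Q, W N q ≤ Z * (D * X + Y) := by
  have h1 : ∑ q ∈ Icc 1 Q, W N q ≤ (∑ q ∈ Icc 1 Q, 1 / (q.totient : ℝ)) *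
      ∑ r ∈ Icc 1 Q, P N r := h11 N Q
  have h2 : ∑ r ∈ Icc 1 Q, P N r ≤ ∑ r ∈ Icc 1 D, P N r + ∑ r ∈ Ioc D Q, P N r := by
    have hs : Icc 1 Q ⊆ Icc 1 D ∪ Ioc D Q := by
      intro r hr
      rw [mem_Icc] at hr
      rw [mem_union, mem_Icc, mem_Ioc]
      omega
    have hd : Disjoint (Icc 1 D) (Ioc D Q) := by
      rw [Finset.disjoint_left]
      intro r hr hr'
      rw [mem_Icc] at hr
      rw [mem_Ioc] at hr'
      omega
    rw [← Finset.sum_union hd]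
    exact Finset.sum_le_sum_of_subset_of_nonneg hs fun r _ _ => P_nonneg N r
  have h3 : ∑ r ∈ Icc 1 D, P N r ≤ D * X := by
    have := Finset.sum_le_card_nsmul (Icc 1 D) (P N) X hX
    rw [nsmul_eq_mul, Nat.card_Icc, Nat.add_sub_cancel] at this
    exact this
  have h4 : 0 ≤ ∑ r ∈ Icc 1 Q, P N r := Finset.sum_nonneg fun r _ => P_nonneg N r
  have h5 : 0 ≤ ∑ q ∈ Icc 1 Q, 1 / (q.totient : ℝ) := Finset.sum_nonneg fun r _ => by positivity
  calc _ ≤ _ := h1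
    _ ≤ Z * ∑ r ∈ Icc 1 Q, P N r := mul_le_mul_of_nonneg_right hZ h4
    _ ≤ _ := mul_le_mul_of_nonneg_left (by linarith) (h5.trans hZ)

theorem thresh (n : ℕ) (c : ℝ) : ∃ T : ℕ, ∀ M : ℕ, T ≤ M → 2 ^ 13 ≤ M ∧ 2 ≤ Real.log M ∧
    c ≤ Real.log M ∧ 80 * Real.log M ^ n ≤ (M : ℝ) ^ (1 / 4 : ℝ) := by
  have h1 : Filter.Tendsto (fun M : ℕ => Real.log M) Filter.atTop Filter.atTop :=
    Real.tendsto_log_atTop.comp tendsto_natCast_atTop_atTop
  have h2 : ∀ᶠ x : ℝ in Filter.atTop, ‖Real.log x ^ (n : ℝ)‖ ≤ (1 / 80) * ‖x ^ (1 / 4 : ℝ)‖ :=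
    (isLittleO_log_rpow_rpow_atTop (n : ℝ) (by norm_num : (0 : ℝ) < 1 / 4)).bound (by norm_num)
  have h3 : ∀ᶠ M : ℕ in Filter.atTop, ‖Real.log M ^ (n : ℝ)‖ ≤ (1 / 80) * ‖(M : ℝ) ^ (1 / 4 : ℝ)‖ :=
    tendsto_natCast_atTop_atTop.eventually h2
  have h4 := (Filter.eventually_ge_atTop (2 ^ 13)).and
    ((h1.eventually_ge_atTop 2).and ((h1.eventually_ge_atTop c).and h3))
  obtain ⟨T, hT⟩ := Filter.eventually_atTop.1 h4
  refine ⟨T, fun M hM => ?_⟩
  obtain ⟨a1, a2, a3, a4⟩ := hT M hM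
  refine ⟨a1, a2, a3, ?_⟩
  rw [Real.rpow_natCast, Real.norm_of_nonneg (by positivity), Real.norm_of_nonneg (by positivity)]
    at a4
  linarith

theorem V_le (h11 : StA11) {C C1 L : ℝ} {m1 b A B2 M N Q D : ℕ} (hC : 0 < C) (hC1 : 0 < C1)
    (hL : 2 ≤ L) (hA : A = m1 + 6 + b) (hB2 : B2 = A + m1 + b) (hQ : 2 ≤ Q)
    (hQM : Q ^ 13 ≤ M) (hM : 3 ≤ M) (hMN : M ≤ N) (hN4 : N ≤ 4 * M) (hLN : L ≤ Real.log N)
    (hNL : Real.log N ≤ 2 * L) (hD1 : 1 ≤ D) (hDA : (D : ℝ) ≤ L ^ A) (hAD : L ^ A ≤ 2 * D)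
    (h9 : ∀ (q : ℕ) [NeZero q] (χ : DirichletCharacter ℂ q), (q : ℝ) ≤ L ^ A →
      χ.IsPrimitive → χ ≠ 1 → ‖smoothSum N (chFun χ)‖ ≤ N / Real.log N ^ B2)
    (h10 : ∀ N F D : ℕ, 1 ≤ D → F ^ 12 ≤ N → 3 ≤ N →
      ∑ r ∈ Ioc D F, 1 / (r.totient : ℝ) * ∑ g ∈ primFns r, ‖smoothSum N g‖ ≤
        C * N * Real.log N ^ 6 / D)
    (hZ : ∑ q ∈ Icc 1 Q, 1 / (q.totient : ℝ) ≤ C1 * L ^ m1) :
    ∑ q ∈ Icc 1 Q, W N q ≤ C1 * (4 + 512 * C) * (M / L ^ b) := by
  have hL0 : 0 < L := by linarith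
  have hM0 : (0 : ℝ) < M := by exact_mod_cast (by omega : 0 < M)
  have hN0 : (0 : ℝ) < N := by exact_mod_cast (by omega : 0 < N)
  have hN4' : (N : ℝ) ≤ 4 * M := by exact_mod_cast hN4
  have hD0 : (0 : ℝ) < D := by exact_mod_cast hD1
  have hX : ∀ r ∈ Icc 1 D, P N r ≤ 4 * M / L ^ B2 := by
    intro r hr
    rw [mem_Icc] at hr
    have : NeZero r := ⟨by omega⟩
    refine P_le N r (fun χ hχ hχ1 => ?_) (by positivity)
    refine (h9 r χ (le_trans (by exact_mod_cast hr.2) hDA) hχ hχ1).trans ?_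
    exact div_le_div₀ (by positivity) hN4' (by positivity) (pow_le_pow_left₀ hL0.le hLN _)
  have hQ12 : Q ^ 12 ≤ N := by
    refine le_trans (le_trans (Nat.pow_le_pow_right (by omega) (by norm_num)) hQM) hMN
  have hY : ∑ r ∈ Ioc D Q, P N r ≤ 512 * C * (M * L ^ 6 / L ^ A) := by
    refine (h10 N Q D hD1 hQ12 (by omega)).trans ?_
    have e1 : Real.log N ^ 6 ≤ (2 * L) ^ 6 := pow_le_pow_left₀ (hL0.le.trans hLN) hNL 6
    have e2 : C * N * Real.log N ^ 6 ≤ C * (4 * M) * (2 * L) ^ 6 := by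
      apply mul_le_mul _ e1 (by have := hL0.le.trans hLN; positivity) (by positivity)
      exact mul_le_mul_of_nonneg_left hN4' hC.le
    have e3 : L ^ A / 2 ≤ D := by linarith
    calc C * N * Real.log N ^ 6 / D ≤ C * (4 * M) * (2 * L) ^ 6 / (L ^ A / 2) :=
          div_le_div₀ (by positivity) e2 (by positivity) e3
      _ = 512 * C * (M * L ^ 6 / L ^ A) := by
          field_simp
          ring
  have h := sumW_le h11 hX hY hZ
  refine h.trans ?_
  have e4 : (D : ℝ) * (4 * M / L ^ B2) ≤ L ^ A * (4 * M / L ^ B2) :=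
    mul_le_mul_of_nonneg_right hDA (by positivity)
  calc C1 * L ^ m1 * (D * (4 * M / L ^ B2) + 512 * C * (M * L ^ 6 / L ^ A)) ≤
      C1 * L ^ m1 * (L ^ A * (4 * M / L ^ B2) + 512 * C * (M * L ^ 6 / L ^ A)) := by
        apply mul_le_mul_of_nonneg_left _ (by positivity)
        linarith
    _ = C1 * (4 + 512 * C) * (M / L ^ b) := by
        have e5 : L ^ B2 = L ^ A * L ^ m1 * L ^ b := by rw [hB2, pow_add, pow_add]
        have e6 : L ^ A = L ^ m1 * L ^ 6 * L ^ b := by rw [hA, pow_add, pow_add]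
        have hA0 : L ^ A ≠ 0 := by positivity
        have e7 : L ^ m1 * (L ^ A * (4 * M / L ^ B2)) = 4 * (M / L ^ b) := by
          rw [e5]
          field_simp
        have e8 : L ^ m1 * (M * L ^ 6 / L ^ A) = M / L ^ b := by
          rw [e6]
          field_simp
        calc C1 * L ^ m1 * (L ^ A * (4 * M / L ^ B2) + 512 * C * (M * L ^ 6 / L ^ A)) =
            C1 * (L ^ m1 * (L ^ A * (4 * M / L ^ B2)) +
              512 * C * (L ^ m1 * (M * L ^ 6 / L ^ A))) := by ring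
          _ = _ := by rw [e7, e8]; ring

theorem card_primeFactors_le (q : ℕ) : q.primeFactors.card ≤ q := by
  have h : q.primeFactors ⊆ Icc 1 q := by
    intro p hp
    rw [Nat.mem_primeFactors] at hp
    rw [mem_Icc]
    exact ⟨hp.1.one_lt.le, Nat.le_of_dvd (Nat.pos_of_ne_zero hp.2.2) hp.2.1⟩
  have := Finset.card_le_card h
  rwa [Nat.card_Icc, Nat.add_sub_cancel] at this

theorem sumE_le {M Q b : ℕ} {L V s : ℝ} (hM : 2 ^ 13 ≤ M) (hQM : Q ^ 13 ≤ M)
    (hL : L = Real.log M) (hL2 : 2 ≤ L) (hs : s = (M : ℝ) ^ (1 / 4 : ℝ))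
    (hsL : 80 * L ^ (b + 2) ≤ s) (h4 : ∑ q ∈ Icc 1 Q, W (4 * M) q ≤ V)
    (h2 : ∑ q ∈ Icc 1 Q, W (2 * M) q ≤ V) (h1 : ∑ q ∈ Icc 1 Q, W M q ≤ V) :
    ∑ q ∈ Icc 1 Q, Ee M q ≤ 2 * (M / L ^ b) + 4 * V := by
  have hM0 : (0 : ℝ) < M := by exact_mod_cast (by omega : 0 < M)
  have hM4 : (4 : ℝ) ≤ M := by exact_mod_cast (by omega : 4 ≤ M)
  have hL0 : 0 < L := by linarith
  have hs0 : 0 < s := by rw [hs]; positivity
  have hs4 : s ^ 4 = M := by
    rw [hs, ← Real.rpow_natCast, ← Real.rpow_mul hM0.le]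
    norm_num
  have hs2 : √(M : ℝ) = s ^ 2 := by
    rw [← hs4, show s ^ 4 = (s ^ 2) ^ 2 by ring]
    exact Real.sqrt_sq (by positivity)
  have hQs : (Q : ℝ) ≤ s := by
    have e1 : (Q : ℝ) ^ 4 ≤ s ^ 4 := by
      rw [hs4]
      have : Q ^ 4 ≤ M := by
        rcases Nat.eq_zero_or_pos Q with h | h
        · rw [h]; simp
        · exact (Nat.pow_le_pow_right h (by norm_num)).trans hQM
      exact_mod_cast this
    exact le_of_pow_le_pow_left₀ (by norm_num) hs0.le e1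
  have hL4 : Real.log (4 * M) ≤ 2 * L := by
    rw [Real.log_mul (by norm_num) hM0.ne', ← hL]
    have : Real.log 4 ≤ Real.log M := Real.log_le_log (by norm_num) hM4
    linarith
  have hL40 : 0 ≤ Real.log (4 * M) := log4_nonneg (by omega)
  have hQ0 : (0 : ℝ) ≤ Q := by positivity
  have step : ∀ q ∈ Icc 1 Q, Ee M q ≤ 80 * (s ^ 2 * L) + 32 * (Q * L ^ 2) +
      (W (4 * M) q + 2 * W (2 * M) q + W M q) := by
    intro q hq
    rw [mem_Icc] at hq
    refine (min_le_left _ _).trans ?_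
    unfold Eb
    have e1 : √(M : ℝ) * Real.log (4 * M) ≤ s ^ 2 * (2 * L) := by
      rw [hs2]
      exact mul_le_mul_of_nonneg_left hL4 (by positivity)
    have e2 : (q.primeFactors.card : ℝ) * Real.log (4 * M) ^ 2 ≤ Q * (2 * L) ^ 2 := by
      have e3 : (q.primeFactors.card : ℝ) ≤ Q := by
        exact_mod_cast (card_primeFactors_le q).trans hq.2
      exact mul_le_mul e3 (pow_le_pow_left₀ hL40 hL4 2) (by positivity) hQ0
    have e4 : (Q : ℝ) * (2 * L) ^ 2 = 4 * (Q * L ^ 2) := by ring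
    have e5 : s ^ 2 * (2 * L) = 2 * (s ^ 2 * L) := by ring
    rw [e4] at e2
    rw [e5] at e1
    linarith
  have hsum := Finset.sum_le_sum step
  rw [Finset.sum_add_distrib, Finset.sum_const, Nat.card_Icc, Nat.add_sub_cancel, nsmul_eq_mul,
    Finset.sum_add_distrib, Finset.sum_add_distrib, ← Finset.mul_sum] at hsum
  have hLb : L ^ (b + 1) ≤ L ^ (b + 2) := pow_le_pow_right₀ (by linarith) (by omega)
  have hLb0 : 0 < L ^ (b + 2) := by positivity
  have hs1 : 1 ≤ s := by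
    have : 1 ≤ L ^ (b + 2) := one_le_pow₀ (by linarith)
    linarith
  have f1 : (Q : ℝ) * (80 * (s ^ 2 * L)) ≤ M / L ^ b := by
    rw [le_div_iff₀ (by positivity)]
    calc (Q : ℝ) * (80 * (s ^ 2 * L)) * L ^ b ≤ s * (80 * (s ^ 2 * L)) * L ^ b := by
          apply mul_le_mul_of_nonneg_right _ (by positivity)
          exact mul_le_mul_of_nonneg_right hQs (by positivity)
      _ = s ^ 3 * (80 * L ^ (b + 1)) := by ring
      _ ≤ s ^ 3 * s := by
          apply mul_le_mul_of_nonneg_left _ (by positivity)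
          linarith
      _ = M := by rw [← hs4]; ring
  have f2 : (Q : ℝ) * (32 * (Q * L ^ 2)) ≤ M / L ^ b := by
    rw [le_div_iff₀ (by positivity)]
    calc (Q : ℝ) * (32 * (Q * L ^ 2)) * L ^ b ≤ s * (32 * (s * L ^ 2)) * L ^ b := by
          apply mul_le_mul_of_nonneg_right _ (by positivity)
          apply mul_le_mul hQs _ (by positivity) hs0.le
          apply mul_le_mul_of_nonneg_left _ (by norm_num)
          exact mul_le_mul_of_nonneg_right hQs (by positivity)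
      _ = s ^ 2 * (32 * L ^ (b + 2)) := by ring
      _ ≤ s ^ 2 * s := by
          apply mul_le_mul_of_nonneg_left _ (by positivity)
          linarith
      _ ≤ s ^ 2 * s * s := le_mul_of_one_le_right (by positivity) hs1
      _ = M := by rw [← hs4]; ring
  have e6 : (Q : ℝ) * (80 * (s ^ 2 * L) + 32 * (Q * L ^ 2)) =
      (Q : ℝ) * (80 * (s ^ 2 * L)) + (Q : ℝ) * (32 * (Q * L ^ 2)) := by ring
  rw [e6] at hsum
  linarith

theorem cs_le {ι : Type*} (S : Finset ι) (w E : ι → ℝ) (hE : ∀ i, 0 ≤ E i) :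
    (∑ i ∈ S, w i * E i) ^ 2 ≤ (∑ i ∈ S, w i ^ 2 * E i) * ∑ i ∈ S, E i := by
  have h := Finset.sum_mul_sq_le_sq_mul_sq S (fun i => w i * √(E i)) (fun i => √(E i))
  have e1 : ∑ i ∈ S, w i * √(E i) * √(E i) = ∑ i ∈ S, w i * E i :=
    Finset.sum_congr rfl fun i _ => by rw [mul_assoc, Real.mul_self_sqrt (hE i)]
  have e2 : ∑ i ∈ S, (w i * √(E i)) ^ 2 = ∑ i ∈ S, w i ^ 2 * E i :=
    Finset.sum_congr rfl fun i _ => by rw [mul_pow, Real.sq_sqrt (hE i)]
  have e3 : ∑ i ∈ S, √(E i) ^ 2 = ∑ i ∈ S, E i :=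
    Finset.sum_congr rfl fun i _ => Real.sq_sqrt (hE i)
  rwa [e1, e2, e3] at h

end BVm

open BVm in
theorem bv (h9 : StA9) (h10 : StA10) (h11 : StA11) (h12a : StA12a) (h12b : StA12b)
    (h13a : StA13a) (h13b : StA13b) : StBV := by
  intro k B M₀
  obtain ⟨C1, hC1, m1, h1⟩ := h13a 1
  obtain ⟨C2, hC2, m2, h2⟩ := h13a (k ^ 2)
  obtain ⟨C, hC, h10⟩ := h10
  obtain ⟨b, hb⟩ : ∃ b, b = m2 + 2 * B + 2 := ⟨_, rfl⟩
  obtain ⟨A, hA⟩ : ∃ A, A = m1 + 6 + b := ⟨_, rfl⟩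
  obtain ⟨B2, hB2⟩ : ∃ B2, B2 = A + m1 + b := ⟨_, rfl⟩
  obtain ⟨C3, hC3⟩ : ∃ C3 : ℝ, C3 = 2 + 4 * (C1 * (4 + 512 * C)) := ⟨_, rfl⟩
  have hC30 : 0 < C3 := by rw [hC3]; positivity
  obtain ⟨T, hT⟩ := thresh (b + 2) (40 * C2 * C3)
  obtain ⟨M, hM, h9⟩ := h9 A B2 (max M₀ T)
  have hM0 : M₀ ≤ M := le_trans (le_max_left _ _) hM
  obtain ⟨t1, t2, t3, t4⟩ := hT M (le_trans (le_max_right _ _) hM)
  obtain ⟨L, hL⟩ : ∃ L, L = Real.log M := ⟨_, rfl⟩
  rw [← hL] at t2 t3 t4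
  have hMr : (0 : ℝ) < M := by exact_mod_cast (by omega : 0 < M)
  have hM4 : (4 : ℝ) ≤ M := by exact_mod_cast (by omega : 4 ≤ M)
  have hL0 : 0 < L := by linarith
  refine ⟨M, hM0, Ee M, Ee_nonneg (by omega), ?_, ?_⟩
  · intro q a hq hqM ha
    exact le_min (disc_le h12a h12b (by omega) hq ha)
      (h13b M q a (by omega) hq (le_trans (Nat.le_self_pow (by norm_num) q) hqM))
  have key : ∀ Q : ℕ, 2 ≤ Q → Q ^ 13 ≤ M →
      ∑ q ∈ Icc 1 Q, (k : ℝ) ^ q.primeFactors.card * Ee M q ≤ M / Real.log M ^ B := by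
    intro Q hQ hQM
    have hQM' : Q ≤ M := le_trans (Nat.le_self_pow (by norm_num) Q) hQM
    have hQr : (Q : ℝ) ≤ M := by exact_mod_cast hQM'
    have hQ0 : (0 : ℝ) < Q := by exact_mod_cast (by omega : 0 < Q)
    have hQ1 : (1 : ℝ) ≤ Q := by exact_mod_cast (by omega : 1 ≤ Q)
    have hlQ : Real.log Q ≤ L := by rw [hL]; exact Real.log_le_log hQ0 hQr
    have hlQ0 : 0 ≤ Real.log Q := Real.log_nonneg hQ1
    have hZ : ∑ q ∈ Icc 1 Q, 1 / (q.totient : ℝ) ≤ C1 * L ^ m1 := by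
      have := h1 Q hQ
      simp only [Nat.cast_one, one_pow] at this
      exact this.trans (mul_le_mul_of_nonneg_left (pow_le_pow_left₀ hlQ0 hlQ _) hC1.le)
    have hLA : 2 ≤ L ^ A := by
      calc (2 : ℝ) ≤ L := t2
        _ = L ^ 1 := (pow_one L).symm
        _ ≤ L ^ A := pow_le_pow_right₀ (by linarith) (by omega)
    have hDA : ((⌊L ^ A⌋₊ : ℕ) : ℝ) ≤ L ^ A := Nat.floor_le (by positivity)
    have hAD' : L ^ A < (⌊L ^ A⌋₊ : ℕ) + 1 := Nat.lt_floor_add_one _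
    have hAD : L ^ A ≤ 2 * ((⌊L ^ A⌋₊ : ℕ) : ℝ) := by linarith
    have hD1 : 1 ≤ ⌊L ^ A⌋₊ := Nat.le_floor (by push_cast; linarith)
    have hV : ∀ N : ℕ, (N = M ∨ N = 2 * M ∨ N = 4 * M) →
        ∑ q ∈ Icc 1 Q, W N q ≤ C1 * (4 + 512 * C) * (M / L ^ b) := by
      intro N hN
      have hMN : M ≤ N := by omega
      have hN4 : N ≤ 4 * M := by omega
      have hNr : (M : ℝ) ≤ N := by exact_mod_cast hMN
      have hNr4 : (N : ℝ) ≤ 4 * M := by exact_mod_cast hN4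
      refine V_le h11 hC hC1 t2 hA hB2 hQ hQM (by omega) hMN hN4 ?_ ?_ hD1 hDA hAD ?_ h10 hZ
      · rw [hL]
        exact Real.log_le_log hMr hNr
      · have e1 : Real.log N ≤ Real.log (4 * M) := Real.log_le_log (by linarith) hNr4
        rw [Real.log_mul (by norm_num) hMr.ne', ← hL] at e1
        have : Real.log 4 ≤ Real.log M := Real.log_le_log (by norm_num) hM4
        linarith
      · intro q _ χ hq hχ hχ1
        rw [hL] at hq
        exact h9 N hN q χ hq hχ hχ1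
    have hE := sumE_le (b := b) t1 hQM hL t2 rfl t4 (hV _ (Or.inr (Or.inr rfl)))
      (hV _ (Or.inr (Or.inl rfl))) (hV _ (Or.inl rfl))
    have hE' : ∑ q ∈ Icc 1 Q, Ee M q ≤ C3 * (M / L ^ b) := by
      refine hE.trans (le_of_eq ?_)
      rw [hC3]
      ring
    have hM1 : 1 ≤ M := by omega
    have hK : ∑ q ∈ Icc 1 Q, ((k : ℝ) ^ q.primeFactors.card) ^ 2 * Ee M q ≤
        40 * C2 * (M * L ^ (m2 + 1)) := by
      have e1 : ∀ q ∈ Icc 1 Q, ((k : ℝ) ^ q.primeFactors.card) ^ 2 * Ee M q ≤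
          (40 * M * L) * ((((k ^ 2 : ℕ) : ℝ)) ^ q.primeFactors.card / (q.totient : ℝ)) := by
        intro q _
        have e2 : Ee M q ≤ 40 * M * L / q.totient := by
          refine (min_le_right _ _).trans ?_
          apply div_le_div_of_nonneg_right _ (by positivity)
          have e3 : Real.log (4 * M) ≤ 2 * L := by
            rw [Real.log_mul (by norm_num) hMr.ne', ← hL]
            have : Real.log 4 ≤ Real.log M := Real.log_le_log (by norm_num) hM4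
            linarith
          calc 20 * (M : ℝ) * Real.log (4 * M) ≤ 20 * M * (2 * L) :=
                mul_le_mul_of_nonneg_left e3 (by positivity)
            _ = 40 * M * L := by ring
        calc ((k : ℝ) ^ q.primeFactors.card) ^ 2 * Ee M q ≤
            ((k : ℝ) ^ q.primeFactors.card) ^ 2 * (40 * M * L / q.totient) :=
              mul_le_mul_of_nonneg_left e2 (by positivity)
          _ = _ := by
              push_cast
              rw [← pow_mul, ← pow_mul, mul_comm 2]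
              ring
      refine (Finset.sum_le_sum e1).trans ?_
      rw [← Finset.mul_sum]
      have e4 := h2 Q hQ
      have e5 : C2 * Real.log Q ^ m2 ≤ C2 * L ^ m2 :=
        mul_le_mul_of_nonneg_left (pow_le_pow_left₀ hlQ0 hlQ _) hC2.le
      calc (40 * M * L) * ∑ q ∈ Icc 1 Q, (((k ^ 2 : ℕ) : ℝ)) ^ q.primeFactors.card /
            (q.totient : ℝ) ≤ (40 * M * L) * (C2 * L ^ m2) :=
            mul_le_mul_of_nonneg_left (e4.trans e5) (by positivity)
        _ = _ := by ring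
    have hcs := cs_le (Icc 1 Q) (fun q => (k : ℝ) ^ q.primeFactors.card) (Ee M) (Ee_nonneg hM1)
    have hE0 : 0 ≤ ∑ q ∈ Icc 1 Q, Ee M q := Finset.sum_nonneg fun q _ => Ee_nonneg hM1 q
    have hfin : (∑ q ∈ Icc 1 Q, (k : ℝ) ^ q.primeFactors.card * Ee M q) ^ 2 ≤
        (M / L ^ B) ^ 2 := by
      refine hcs.trans ?_
      calc (∑ q ∈ Icc 1 Q, ((k : ℝ) ^ q.primeFactors.card) ^ 2 * Ee M q) *
            ∑ q ∈ Icc 1 Q, Ee M q ≤ (40 * C2 * (M * L ^ (m2 + 1))) * (C3 * (M / L ^ b)) :=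
            mul_le_mul hK hE' hE0 (by positivity)
        _ = (40 * C2 * C3) * (M ^ 2 * L ^ (m2 + 1) / L ^ b) := by ring
        _ ≤ L * (M ^ 2 * L ^ (m2 + 1) / L ^ b) :=
            mul_le_mul_of_nonneg_right t3 (by positivity)
        _ = (M / L ^ B) ^ 2 := by
            have e6 : L ^ b = L ^ (m2 + 1) * L * (L ^ B) ^ 2 := by
              rw [hb, ← pow_mul]
              ring
            rw [e6]
            field_simp
    rw [← hL]
    exact le_of_pow_le_pow_left₀ (by norm_num) (by positivity) hfin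
  intro Q hQM
  rcases le_or_gt 2 Q with h | h
  · exact key Q h hQM
  · refine le_trans ?_ (key 2 le_rfl t1)
    apply Finset.sum_le_sum_of_subset_of_nonneg
    · exact Finset.Icc_subset_Icc le_rfl (by omega)
    · intro q _ _
      exact mul_nonneg (by positivity) (Ee_nonneg (by omega) q)

end Pool.Agent.Helper90.MT
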