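import Pool.Agent.Helper90.MT.StS

/-!
Project MT, part S, module Cheb: Chebyshev bounds for the tent sums.
-/

namespace Pool.Agent.Helper90.MT

open Finset Filter

namespace Cheb

lemma ev : ∀ᶠ n : ℕ in atTop,
    Real.log ((n : ℝ) + 1) + 2 * √(n : ℝ) * Real.log n ≤ (1 / 100) * (n : ℝ) := by
  have h1 := (isLittleO_log_rpow_atTop (r := 1 / 2) (by norm_num)).def
    (c := 1 / 1000) (by norm_num)
  have h2 : ∀ᶠ n : ℕ in atTop, ‖Real.log (n : ℝ)‖ ≤ 1 / 1000 * ‖(n : ℝ) ^ ((1 : ℝ) / 2)‖ :=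
    tendsto_natCast_atTop_atTop.eventually h1
  have h3 : ∀ᶠ n : ℕ in atTop,
      ‖Real.log ((n : ℝ) + 1)‖ ≤ 1 / 1000 * ‖((n : ℝ) + 1) ^ ((1 : ℝ) / 2)‖ :=
    (tendsto_atTop_add_const_right atTop (1 : ℝ) tendsto_natCast_atTop_atTop).eventually h1
  filter_upwards [h2, h3, eventually_ge_atTop 1] with n h2 h3 hn
  have hn' : (1 : ℝ) ≤ n := by exact_mod_cast hn
  rw [← Real.sqrt_eq_rpow, Real.norm_of_nonneg (Real.sqrt_nonneg _)] at h2 h3
  have h4 : Real.log n ≤ 1 / 1000 * √(n : ℝ) := (le_abs_self _).trans h2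
  have h5 : Real.log ((n : ℝ) + 1) ≤ 1 / 1000 * √((n : ℝ) + 1) := (le_abs_self _).trans h3
  have h6 : √((n : ℝ) + 1) ≤ n + 1 := by
    rw [Real.sqrt_le_left (by linarith)]
    nlinarith
  have h7 : 2 * √(n : ℝ) * Real.log n ≤ 2 * √(n : ℝ) * (1 / 1000 * √(n : ℝ)) :=
    mul_le_mul_of_nonneg_left h4 (by positivity)
  have h8 : √(n : ℝ) * √(n : ℝ) = n := Real.mul_self_sqrt (by linarith)
  nlinarith

lemma tent_low {M n : ℕ} (hM : 0 < M) (h : n ≤ 2 * M) (h0 : M ≤ n) :
    tent M n = Real.log ((n : ℝ) / M) := by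
  have hM' : (0 : ℝ) < M := by exact_mod_cast hM
  have hn' : (0 : ℝ) < n := by
    have : 0 < n := by omega
    exact_mod_cast this
  have h0' : (M : ℝ) ≤ n := by exact_mod_cast h0
  have h' : (n : ℝ) ≤ 2 * M := by exact_mod_cast h
  unfold tent
  rw [Real.posLog_eq_log, Real.posLog_eq_log, Real.posLog_eq_zero_iff _ |>.2]
  · rw [Real.log_div (by positivity) hn'.ne', Real.log_div (by positivity) hn'.ne',
      Real.log_div hn'.ne' hM'.ne', Real.log_mul (by norm_num) hM'.ne',
      Real.log_mul (by norm_num) hM'.ne']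
    have : Real.log 4 = 2 * Real.log 2 := by
      rw [show (4 : ℝ) = 2 ^ 2 by norm_num, Real.log_pow]
      norm_num
    rw [this]
    ring
  · rw [abs_of_nonneg (by positivity), div_le_one hn']
    exact h0'
  · rw [abs_of_nonneg (by positivity), le_div_iff₀ hn']
    linarith
  · rw [abs_of_nonneg (by positivity), le_div_iff₀ hn']
    linarith

lemma tent_high {M n : ℕ} (hM : 0 < M) (h : n ≤ 4 * M) (h0 : 2 * M ≤ n) :
    tent M n = Real.log (4 * (M : ℝ) / n) := by
  have hM' : (0 : ℝ) < M := by exact_mod_cast hM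
  have hn' : (0 : ℝ) < n := by
    have : 0 < n := by omega
    exact_mod_cast this
  have h0' : 2 * (M : ℝ) ≤ n := by exact_mod_cast h0
  have h' : (n : ℝ) ≤ 4 * M := by exact_mod_cast h
  unfold tent
  rw [Real.posLog_eq_log, Real.posLog_eq_zero_iff (2 * (M : ℝ) / n) |>.2,
    Real.posLog_eq_zero_iff ((M : ℝ) / n) |>.2]
  · ring
  · rw [abs_of_nonneg (by positivity), div_le_one hn']
    linarith
  · rw [abs_of_nonneg (by positivity), div_le_one hn']
    exact h0'
  · rw [abs_of_nonneg (by positivity), le_div_iff₀ hn']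
    linarith

lemma tent_bd {M n : ℕ} (hn : n ∈ Ioc M (4 * M)) : 0 ≤ tent M n ∧ tent M n ≤ 1 := by
  rw [mem_Ioc] at hn
  have hM : 0 < M := by omega
  have hM' : (0 : ℝ) < M := by exact_mod_cast hM
  have hn' : (0 : ℝ) < n := by
    have : 0 < n := by omega
    exact_mod_cast this
  rcases le_total n (2 * M) with h | h
  · rw [tent_low hM h hn.1.le]
    have h0' : (M : ℝ) ≤ n := by exact_mod_cast hn.1.le
    have h' : (n : ℝ) ≤ 2 * M := by exact_mod_cast h
    constructor
    · apply Real.log_nonneg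
      rw [le_div_iff₀ hM']
      linarith
    · have h3 := Real.log_le_sub_one_of_pos (x := (n : ℝ) / M) (by positivity)
      have h4 : (n : ℝ) / M ≤ 2 := by
        rw [div_le_iff₀ hM']
        exact h'
      linarith
  · rw [tent_high hM hn.2 h]
    have h0' : 2 * (M : ℝ) ≤ n := by exact_mod_cast h
    have h' : (n : ℝ) ≤ 4 * M := by exact_mod_cast hn.2
    constructor
    · apply Real.log_nonneg
      rw [le_div_iff₀ hn']
      linarith
    · have h3 := Real.log_le_sub_one_of_pos (x := 4 * (M : ℝ) / n) (by positivity)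
      have h4 : 4 * (M : ℝ) / n ≤ 2 := by
        rw [div_le_iff₀ hn']
        linarith
      linarith

lemma tent_ge {M n : ℕ} (hn : n ∈ Ioc (6 * M / 5) (10 * M / 3)) : 1 / 6 ≤ tent M n := by
  rw [mem_Ioc] at hn
  have hM : 0 < M := by omega
  have hM' : (0 : ℝ) < M := by exact_mod_cast hM
  have hn' : (0 : ℝ) < n := by
    have : 0 < n := by omega
    exact_mod_cast this
  rcases le_total n (2 * M) with h | h
  · rw [tent_low hM h (by omega)]
    have h0' : 6 * (M : ℝ) ≤ 5 * n := by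
      have : 6 * M ≤ 5 * n := by omega
      exact_mod_cast this
    have h3 := Real.one_sub_inv_le_log_of_pos (x := (n : ℝ) / M) (by positivity)
    have h4 : ((n : ℝ) / M)⁻¹ ≤ 5 / 6 := by
      rw [inv_div, div_le_iff₀ hn']
      linarith
    linarith
  · rw [tent_high hM (by omega) h]
    have h0' : 3 * (n : ℝ) ≤ 10 * M := by
      have : 3 * n ≤ 10 * M := by omega
      exact_mod_cast this
    have h3 := Real.one_sub_inv_le_log_of_pos (x := 4 * (M : ℝ) / n) (by positivity)
    have h4 : (4 * (M : ℝ) / n)⁻¹ ≤ 5 / 6 := by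
      rw [inv_div, div_le_iff₀ (by positivity)]
      linarith
    linarith

end Cheb

open Cheb in
theorem cheb : StCheb := by
  obtain ⟨N₀, hN₀⟩ := eventually_atTop.1 ev
  refine ⟨N₀ + 100, fun M hM => ?_⟩
  have hM0 : 0 < M := by omega
  have hM' : (100 : ℝ) ≤ M := by
    have : 100 ≤ M := by omega
    exact_mod_cast this
  have hsub : Ioc (6 * M / 5) (10 * M / 3) ⊆ Ioc M (4 * M) := by
    intro n hn
    rw [mem_Ioc] at hn ⊢
    constructor <;> omega
  have hB1 : (10 * (M : ℝ) - 2) / 3 ≤ ((10 * M / 3 : ℕ) : ℝ) := by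
    rw [div_le_iff₀ (by norm_num)]
    have : 10 * M ≤ (10 * M / 3) * 3 + 2 := by omega
    have : 10 * (M : ℝ) ≤ ((10 * M / 3 : ℕ) : ℝ) * 3 + 2 := by exact_mod_cast this
    linarith
  have hA1 : ((6 * M / 5 : ℕ) : ℝ) ≤ 6 * M / 5 := by
    rw [le_div_iff₀ (by norm_num)]
    have : (6 * M / 5) * 5 ≤ 6 * M := by omega
    exact_mod_cast this
  have hAB : 6 * M / 5 ≤ 10 * M / 3 := by omega
  refine ⟨?_, ?_, ?_⟩
  · -- X1
    have h1 : ∑ n ∈ Ioc (6 * M / 5) (10 * M / 3), fp M n ≤ X1 M := by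
      apply Finset.sum_le_sum_of_subset_of_nonneg hsub
      intro n hn _
      unfold fp
      split_ifs with hp
      · apply mul_nonneg
        · exact Real.log_natCast_nonneg n
        · exact (tent_bd hn).1
      · exact le_rfl
    have h2 : (1 / 6 : ℝ) * ∑ n ∈ (Ioc (6 * M / 5) (10 * M / 3)).filter Nat.Prime,
        Real.log n ≤ ∑ n ∈ Ioc (6 * M / 5) (10 * M / 3), fp M n := by
      rw [Finset.mul_sum, Finset.sum_filter]
      apply Finset.sum_le_sum
      intro n hn
      unfold fp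
      split_ifs with hp
      · have := tent_ge hn
        have hl : 0 ≤ Real.log (n : ℝ) := Real.log_natCast_nonneg n
        nlinarith
      · exact le_rfl
    have h3 : ∑ n ∈ (Ioc (6 * M / 5) (10 * M / 3)).filter Nat.Prime, Real.log n =
        Chebyshev.theta ((10 * M / 3 : ℕ) : ℝ) - Chebyshev.theta ((6 * M / 5 : ℕ) : ℝ) := by
      unfold Chebyshev.theta
      rw [Nat.floor_natCast, Nat.floor_natCast, eq_sub_iff_add_eq]
      rw [← Finset.sum_union]
      · apply Finset.sum_congr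
        · rw [← Finset.filter_union]
          congr 1
          ext n
          simp only [mem_union, mem_Ioc]
          omega
        · intro _ _
          rfl
      · apply Finset.disjoint_filter_filter
        rw [Finset.disjoint_left]
        intro n hn hn'
        rw [mem_Ioc] at hn hn'
        omega
    have h4 := Chebyshev.theta_ge (10 * M / 3)
    have h5 := hN₀ (10 * M / 3) (by omega)
    have h6 := Chebyshev.theta_le_log4_mul_x (x := ((6 * M / 5 : ℕ) : ℝ)) (Nat.cast_nonneg _)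
    have hl2 := Real.log_two_gt_d9
    have hl2' := Real.log_two_lt_d9
    have hl4 : Real.log 4 = 2 * Real.log 2 := by
      rw [show (4 : ℝ) = 2 ^ 2 by norm_num, Real.log_pow]
      norm_num
    rw [hl4] at h6
    have h7 : 2 * Real.log 2 * ((6 * M / 5 : ℕ) : ℝ) ≤ 2 * 0.6931471808 * (6 * M / 5) := by
      apply mul_le_mul _ hA1 (Nat.cast_nonneg _) (by norm_num)
      linarith
    have h8 : ((10 * M / 3 : ℕ) : ℝ) * 0.6931471803 ≤ ((10 * M / 3 : ℕ) : ℝ) * Real.log 2 :=
      mul_le_mul_of_nonneg_left hl2.le (Nat.cast_nonneg _)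
    linarith
  · have h1 : X0 M ≤ ∑ n ∈ Ioc M (4 * M), (1 : ℝ) :=
      Finset.sum_le_sum fun n hn => (tent_bd hn).2
    rw [Finset.sum_const, Nat.card_Ioc, nsmul_eq_mul, mul_one] at h1
    have : ((4 * M - M : ℕ) : ℝ) = 3 * M := by
      have : 4 * M - M = 3 * M := by omega
      rw [this]
      push_cast
      ring
    linarith
  · have h1 : ∑ n ∈ Ioc (6 * M / 5) (10 * M / 3), tent M n ≤ X0 M := by
      apply Finset.sum_le_sum_of_subset_of_nonneg hsub
      intro n hn _
      exact (tent_bd hn).1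
    have h2 : ∑ n ∈ Ioc (6 * M / 5) (10 * M / 3), (1 / 6 : ℝ) ≤
        ∑ n ∈ Ioc (6 * M / 5) (10 * M / 3), tent M n :=
      Finset.sum_le_sum fun n hn => tent_ge hn
    rw [Finset.sum_const, Nat.card_Ioc, nsmul_eq_mul, Nat.cast_sub hAB] at h2
    linarith

end Pool.Agent.Helper90.MT
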