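import Pool.Agent.Helper90.MT.Def

/-!
Project MT (MP_3ec731_nt), module C-Core: finitely additive version of Bergelson's intersectivity
lemma.
-/

namespace Pool.Agent.Helper90.MT

open Finset

namespace Core

/-- the cylinder of level `k` of `Q` -/
def cyl (Q : Set ℕ) (k : ℕ) : Set (Set ℕ) := {T | ∀ x < k, (x ∈ T ↔ x ∈ Q)}

/-- the sets which meet the block `H` -/
def G (H : Finset ℕ) : Set (Set ℕ) := {Q | ∃ h ∈ H, h ∈ Q}

section

variable {α : Type} {ν : Set α → ℝ}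

theorem mono (h0 : ∀ S, 0 ≤ ν S) (ha : ∀ S T, Disjoint S T → ν (S ∪ T) = ν S + ν T)
    {S T : Set α} (h : S ⊆ T) : ν S ≤ ν T := by
  have h1 := ha S (T \ S) Set.disjoint_sdiff_right
  rw [Set.union_sdiff_cancel h] at h1
  rw [h1]
  linarith [h0 (T \ S)]

theorem empty (ha : ∀ S T, Disjoint S T → ν (S ∪ T) = ν S + ν T) : ν ∅ = 0 := by
  have h1 := ha ∅ ∅ (Set.disjoint_empty _)
  rw [Set.union_empty] at h1
  linarith

theorem union_le (h0 : ∀ S, 0 ≤ ν S) (ha : ∀ S T, Disjoint S T → ν (S ∪ T) = ν S + ν T)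
    (S T : Set α) : ν (S ∪ T) ≤ ν S + ν T := by
  have h1 := ha S (T \ S) Set.disjoint_sdiff_right
  rw [Set.union_sdiff_self] at h1
  rw [h1]
  linarith [mono h0 ha (Set.sdiff_subset : T \ S ⊆ T)]

theorem biUnion_le (h0 : ∀ S, 0 ≤ ν S) (ha : ∀ S T, Disjoint S T → ν (S ∪ T) = ν S + ν T)
    {κ : Type} (s : Finset κ) (A : κ → Set α) : ν (⋃ i ∈ s, A i) ≤ ∑ i ∈ s, ν (A i) := by
  classical
  induction s using Finset.induction_on with
  | empty => simp [empty ha]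
  | insert a s hs ih =>
    rw [Finset.set_biUnion_insert, Finset.sum_insert hs]
    linarith [union_le h0 ha (A a) (⋃ i ∈ s, A i)]

/-- Bonferroni's inequality. -/
theorem bonferroni (h0 : ∀ S, 0 ≤ ν S) (ha : ∀ S T, Disjoint S T → ν (S ∪ T) = ν S + ν T)
    {κ : Type} (e : ℝ) (he : 0 ≤ e) (s : Finset κ) (A : κ → Set α)
    (h : ∀ i ∈ s, ∀ j ∈ s, i ≠ j → ν (A i ∩ A j) ≤ e) :
    ∑ i ∈ s, ν (A i) - (#s : ℝ) ^ 2 * e ≤ ν (⋃ i ∈ s, A i) := by
  classical
  induction s using Finset.induction_on with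
  | empty => simp [empty ha]
  | insert a s hs ih =>
    have ih' := ih fun i hi j hj => h i (Finset.mem_insert_of_mem hi) j
      (Finset.mem_insert_of_mem hj)
    rw [Finset.set_biUnion_insert, Finset.sum_insert hs, Finset.card_insert_of_notMem hs]
    have h1 := ha (⋃ i ∈ s, A i) (A a \ ⋃ i ∈ s, A i) Set.disjoint_sdiff_right
    rw [Set.union_sdiff_self, Set.union_comm] at h1
    have h2 := ha (A a ∩ ⋃ i ∈ s, A i) (A a \ ⋃ i ∈ s, A i)
      (Set.disjoint_sdiff_right.mono_left Set.inter_subset_right)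
    rw [Set.inter_union_sdiff] at h2
    have h3 : ν (A a ∩ ⋃ i ∈ s, A i) ≤ #s * e := by
      rw [Set.inter_iUnion₂]
      refine (biUnion_le h0 ha s _).trans ?_
      rw [← nsmul_eq_mul]
      refine Finset.sum_le_card_nsmul _ _ _ fun i hi => ?_
      exact h a (Finset.mem_insert_self _ _) i (Finset.mem_insert_of_mem hi)
        (fun hai => hs (hai ▸ hi))
    push_cast
    nlinarith [he, (Nat.cast_nonneg (#s) : (0 : ℝ) ≤ (#s : ℝ))]

end

variable {ν : Set (Set ℕ) → ℝ} {H : ℕ → Finset ℕ}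

/-- the second moment pigeonhole -/
theorem pair (h0 : ∀ S, 0 ≤ ν S) (ha : ∀ S T, Disjoint S T → ν (S ∪ T) = ν S + ν T)
    (h1 : ν Set.univ = 1) (C : Set (Set ℕ)) (d : ℝ) (hd : 0 < d)
    (hI : {j | d ≤ ν (C ∩ G (H j))}.Infinite) (k0 : ℕ) :
    ∃ j ≥ k0, ∃ e > 0, {i | e ≤ ν ((C ∩ G (H j)) ∩ G (H i))}.Infinite := by
  classical
  obtain ⟨N, hN⟩ := exists_nat_ge (2 / d)
  have hNpos : (0 : ℝ) < N := lt_of_lt_of_le (by positivity) hN
  have hNd : 2 ≤ (N : ℝ) * d := by rwa [div_le_iff₀ hd] at hN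
  set e : ℝ := 1 / (2 * (N : ℝ) ^ 2) with he
  have hepos : 0 < e := by positivity
  by_contra hcon
  push Not at hcon
  have hfin : ∀ j ≥ k0, {i | e ≤ ν ((C ∩ G (H j)) ∩ G (H i))}.Finite := fun j hj =>
    hcon j hj e hepos
  have key : ∀ n : ℕ, ∃ s : Finset ℕ, #s = n ∧ (∀ i ∈ s, k0 ≤ i ∧ d ≤ ν (C ∩ G (H i))) ∧
      ∀ i ∈ s, ∀ j ∈ s, i ≠ j → ν ((C ∩ G (H i)) ∩ (C ∩ G (H j))) ≤ e := by
    intro n
    induction n with
    | zero => exact ⟨∅, by simp⟩
    | succ n ih =>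
      obtain ⟨s, hs1, hs2, hs3⟩ := ih
      have hbad : ((⋃ j ∈ s, {i | e ≤ ν ((C ∩ G (H j)) ∩ G (H i))}) ∪ ↑s ∪
          ↑(Finset.range k0) : Set ℕ).Finite := by
        refine Set.Finite.union (Set.Finite.union ?_ (Finset.finite_toSet _))
          (Finset.finite_toSet _)
        exact Set.Finite.biUnion (Finset.finite_toSet s) fun j hj => hfin j (hs2 j hj).1
      obtain ⟨i, hi, hi'⟩ := (hI.sdiff hbad).nonempty
      simp only [Set.mem_union, Set.mem_iUnion, not_or, not_exists, Finset.mem_coe,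
        Finset.mem_range, not_lt] at hi'
      obtain ⟨⟨hi1, hi2⟩, hi3⟩ := hi'
      have hpair : ∀ j ∈ s, ν ((C ∩ G (H j)) ∩ (C ∩ G (H i))) ≤ e := by
        intro j hj
        have h5 : (C ∩ G (H j)) ∩ (C ∩ G (H i)) ⊆ (C ∩ G (H j)) ∩ G (H i) :=
          Set.inter_subset_inter_right _ Set.inter_subset_right
        refine (mono h0 ha h5).trans (le_of_lt (not_le.1 fun h6 => hi1 j hj ?_))
        exact h6
      refine ⟨insert i s, ?_, ?_, ?_⟩
      · rw [Finset.card_insert_of_notMem hi2, hs1]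
      · intro j hj
        rcases Finset.mem_insert.1 hj with rfl | hj
        · exact ⟨hi3, hi⟩
        · exact hs2 j hj
      · intro a ha' b hb hab
        rcases Finset.mem_insert.1 ha' with ha1 | ha1
        · rcases Finset.mem_insert.1 hb with hb1 | hb1
          · exact absurd (ha1.trans hb1.symm) hab
          · rw [ha1, Set.inter_comm]
            exact hpair b hb1
        · rcases Finset.mem_insert.1 hb with hb1 | hb1
          · rw [hb1]
            exact hpair a ha1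
          · exact hs3 a ha1 b hb1 hab
  obtain ⟨s, hs1, hs2, hs3⟩ := key N
  have h2 := bonferroni h0 ha e hepos.le s (fun i => C ∩ G (H i)) hs3
  have h3 : ν (⋃ i ∈ s, C ∩ G (H i)) ≤ 1 := by
    rw [← h1]
    exact mono h0 ha (Set.subset_univ _)
  have h4 : (N : ℝ) * d ≤ ∑ i ∈ s, ν (C ∩ G (H i)) := by
    rw [← hs1, ← nsmul_eq_mul]
    exact Finset.card_nsmul_le_sum _ _ _ fun i hi => (hs2 i hi).2
  have h5 : (#s : ℝ) ^ 2 * e = 1 / 2 := by
    rw [hs1, he]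
    field_simp
  linarith

/-- the state of the construction -/
def Good (ν : Set (Set ℕ) → ℝ) (H : ℕ → Finset ℕ) (Q : Set ℕ) (k : ℕ) : Prop :=
  ∃ d > 0, {j | d ≤ ν (cyl Q k ∩ G (H j))}.Infinite

theorem step (h0 : ∀ S, 0 ≤ ν S) (ha : ∀ S T, Disjoint S T → ν (S ∪ T) = ν S + ν T)
    (h1 : ν Set.univ = 1) {Q : Set ℕ} {k : ℕ} (hg : Good ν H Q k) (k0 : ℕ) :
    ∃ j ≥ k0, ∃ Q' k', k0 ≤ k' ∧ cyl Q' k' ⊆ cyl Q k ∧ cyl Q' k' ⊆ G (H j) ∧
      Good ν H Q' k' := by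
  classical
  obtain ⟨d, hd, hI⟩ := hg
  obtain ⟨j, hj, e, he, hE⟩ := pair h0 ha h1 (cyl Q k) d hd hI k0
  obtain ⟨k', hk1, hk2, hk3⟩ : ∃ k', k0 ≤ k' ∧ k ≤ k' ∧ ∀ h ∈ H j, h < k' := by
    refine ⟨max (max k0 k) ((H j).sup id + 1), ?_, ?_, ?_⟩
    · exact (le_max_left _ _).trans (le_max_left _ _)
    · exact (le_max_right _ _).trans (le_max_left _ _)
    · intro h hh
      have : h ≤ (H j).sup id := Finset.le_sup (f := id) hh
      exact lt_of_lt_of_le (Nat.lt_succ_of_le this) (le_max_right _ _)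
  set S := cyl Q k ∩ G (H j) with hS
  -- finitely many cylinders of level `k'`
  have hcov : ∀ i, e ≤ ν (S ∩ G (H i)) →
      ∃ t ∈ (Finset.range k').powerset,
        e / (2 : ℝ) ^ k' ≤ ν ((S ∩ G (H i)) ∩ cyl (↑t : Set ℕ) k') := by
    intro i hi
    by_contra hcon
    push Not at hcon
    have h2 : S ∩ G (H i) ⊆ ⋃ t ∈ (Finset.range k').powerset,
        ((S ∩ G (H i)) ∩ cyl (↑t : Set ℕ) k') := by
      intro T hT
      rw [Set.mem_iUnion₂]
      refine ⟨(Finset.range k').filter (· ∈ T), ?_, hT, ?_⟩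
      · exact Finset.mem_powerset.2 (Finset.filter_subset _ _)
      · intro x hx
        simp [hx]
    have h3 := (mono h0 ha h2).trans (biUnion_le h0 ha _ _)
    have h4 : ∑ t ∈ (Finset.range k').powerset,
        ν ((S ∩ G (H i)) ∩ cyl (↑t : Set ℕ) k') <
        ∑ _t ∈ (Finset.range k').powerset, e / (2 : ℝ) ^ k' :=
      Finset.sum_lt_sum_of_nonempty ⟨∅, by simp⟩ fun t ht => hcon t ht
    rw [Finset.sum_const, Finset.card_powerset, Finset.card_range, nsmul_eq_mul] at h4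
    have h5 : ((2 ^ k' : ℕ) : ℝ) * (e / (2 : ℝ) ^ k') = e := by
      push_cast
      field_simp
    rw [h5] at h4
    linarith
  -- one cylinder occurs infinitely often
  obtain ⟨t, ht, hinf⟩ : ∃ t ∈ (Finset.range k').powerset,
      {i | e / (2 : ℝ) ^ k' ≤ ν ((S ∩ G (H i)) ∩ cyl (↑t : Set ℕ) k')}.Infinite := by
    by_contra hcon
    push Not at hcon
    refine hE ((Set.Finite.biUnion (Finset.finite_toSet (Finset.range k').powerset)
      fun t ht => hcon t ht).subset ?_)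
    intro i hi
    obtain ⟨t, ht, h6⟩ := hcov i hi
    exact Set.mem_iUnion₂.2 ⟨t, ht, h6⟩
  have hpos : 0 < e / (2 : ℝ) ^ k' := by positivity
  obtain ⟨i, hi⟩ := hinf.nonempty
  have hne : (S ∩ cyl (↑t : Set ℕ) k').Nonempty := by
    by_contra hcon
    rw [Set.not_nonempty_iff_eq_empty] at hcon
    have h7 : (S ∩ G (H i)) ∩ cyl (↑t : Set ℕ) k' ⊆ ∅ := by
      rw [← hcon]
      exact Set.inter_subset_inter_left _ Set.inter_subset_left
    have h8 := mono h0 ha h7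
    rw [empty ha] at h8
    have h9 : e / (2 : ℝ) ^ k' ≤ ν ((S ∩ G (H i)) ∩ cyl (↑t : Set ℕ) k') := hi
    linarith
  obtain ⟨T0, ⟨hT1, hT2⟩, hT3⟩ := hne
  have hsub : cyl (↑t : Set ℕ) k' ⊆ S := by
    intro T hT
    refine ⟨fun x hx => ?_, ?_⟩
    · rw [hT x (hx.trans_le hk2), ← hT3 x (hx.trans_le hk2), hT1 x hx]
    · obtain ⟨h, hh, hhT⟩ := hT2
      exact ⟨h, hh, (hT h (hk3 h hh)).2 ((hT3 h (hk3 h hh)).1 hhT)⟩
  refine ⟨j, hj, (↑t : Set ℕ), k', hk1, hsub.trans Set.inter_subset_left,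
    hsub.trans Set.inter_subset_right, e / (2 : ℝ) ^ k', hpos, hinf.mono fun i hi => ?_⟩
  refine le_trans (show e / (2 : ℝ) ^ k' ≤ _ from hi) (mono h0 ha ?_)
  rintro T ⟨⟨_, h10⟩, h11⟩
  exact ⟨h11, h10⟩

end Core

open Pool.Agent.Helper90.MT.Core in
theorem core : StCore := by
  intro ν δ H hδ h0 ha h1 hG
  have hbase : Good ν H ∅ 0 := by
    refine ⟨δ, hδ, ?_⟩
    have h2 : {j | δ ≤ ν (cyl ∅ 0 ∩ G (H j))} = Set.univ := by
      rw [Set.eq_univ_iff_forall]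
      intro j
      have h3 : cyl ∅ 0 = Set.univ := by
        rw [Set.eq_univ_iff_forall]
        intro T x hx
        exact absurd hx (Nat.not_lt_zero x)
      show δ ≤ ν (cyl ∅ 0 ∩ G (H j))
      rw [h3, Set.univ_inter]
      exact hG j
    rw [h2]
    exact Set.infinite_univ
  choose! J hJ Q' k' hk hsub hmeet hgood using
    fun (p : {p : Set ℕ × ℕ // Good ν H p.1 p.2}) (n : ℕ) =>
      step (ν := ν) (H := H) h0 ha h1 p.2 n
  let s : ℕ → {p : Set ℕ × ℕ // Good ν H p.1 p.2} := fun n =>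
    Nat.rec ⟨(∅, 0), hbase⟩ (fun n p => ⟨(Q' p (n + 1), k' p (n + 1)), hgood p (n + 1)⟩) n
  have hs : ∀ n, s (n + 1) = ⟨(Q' (s n) (n + 1), k' (s n) (n + 1)), hgood (s n) (n + 1)⟩ :=
    fun n => rfl
  have hkn : ∀ n, n ≤ (s n).1.2 := by
    intro n
    cases n with
    | zero => exact Nat.zero_le _
    | succ n =>
      rw [hs]
      exact hk (s n) (n + 1)
  have hnest1 : ∀ n, cyl (s (n + 1)).1.1 (s (n + 1)).1.2 ⊆ cyl (s n).1.1 (s n).1.2 := by
    intro n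
    rw [hs]
    exact hsub (s n) (n + 1)
  have hnest : ∀ m n, n ≤ m → cyl (s m).1.1 (s m).1.2 ⊆ cyl (s n).1.1 (s n).1.2 := by
    intro m n hnm
    induction hnm with
    | refl => exact subset_rfl
    | step _ ih => exact (hnest1 _).trans ih
  have hself : ∀ n, (s n).1.1 ∈ cyl (s n).1.1 (s n).1.2 := fun n x _ => Iff.rfl
  let Q : Set ℕ := {x | x ∈ (s (x + 1)).1.1}
  have hQ : ∀ n, Q ∈ cyl (s n).1.1 (s n).1.2 := by
    intro n x hx
    rcases le_total n (x + 1) with h | h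
    · exact hnest _ _ h (hself (x + 1)) x hx
    · exact (hnest _ _ h (hself n) x (lt_of_lt_of_le (Nat.lt_succ_self x) (hkn (x + 1)))).symm
  refine ⟨Q, fun k => ?_, ?_⟩
  · obtain ⟨d, hd, hinf⟩ := (s k).2
    obtain ⟨j, hj⟩ := hinf.nonempty
    refine lt_of_lt_of_le hd (le_trans (show d ≤ _ from hj) (mono h0 ha ?_))
    rintro T ⟨hT, _⟩ x hx
    have h5 := lt_of_lt_of_le hx (hkn k)
    rw [hT x h5, hQ k x h5]
  · rw [Set.infinite_iff_exists_gt]
    intro n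
    refine ⟨J (s n) (n + 1), ?_, lt_of_lt_of_le (Nat.lt_succ_self n) (hJ (s n) (n + 1))⟩
    have h6 := hQ (n + 1)
    rw [hs] at h6
    exact hmeet (s n) (n + 1) h6

end Pool.Agent.Helper90.MT
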