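import Pool.Agent.Helper90.MT.StS

set_option autoImplicit false

namespace Pool.Agent.Helper90.MT

open Finset

theorem DDm_sqf (W M : ℕ) (s : Finset (PP W M)) :
    Squarefree (∏ i ∈ s, (i : ℕ)) ∧ (∏ i ∈ s, (i : ℕ)).Coprime W ∧ 0 < ∏ i ∈ s, (i : ℕ) := by
  classical
  have hP : ∀ i : PP W M, (i : ℕ).Prime ∧ ¬ (i : ℕ) ∣ W := by
    intro i
    have := i.2
    unfold PP at this
    rw [mem_filter] at this
    exact ⟨this.2.1, this.2.2.2⟩
  induction s using Finset.induction_on with
  | empty => simp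
  | insert a s ha ih =>
    rw [prod_insert ha]
    have hcop : (a : ℕ).Coprime (∏ i ∈ s, (i : ℕ)) := by
      apply Nat.Coprime.prod_right
      intro i hi
      rw [Nat.coprime_primes (hP a).1 (hP i).1]
      intro h
      apply ha
      rw [Subtype.ext h]
      exact hi
    refine ⟨?_, ?_, Nat.mul_pos (hP a).1.pos ih.2.2⟩
    · rw [Nat.squarefree_mul hcop]
      exact ⟨(hP a).1.squarefree, ih.1⟩
    · exact Nat.Coprime.mul_left (((hP a).1.coprime_iff_not_dvd).2 (hP a).2) ih.2.1

theorem dD : StDD := by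
  classical
  intro W M z hW hz hzM
  unfold SW
  apply sum_congr _ (fun _ _ => rfl)
  ext d
  rw [mem_filter, mem_filter, mem_Icc]
  constructor
  · rintro ⟨hd, hdz⟩
    unfold DD at hd
    obtain ⟨s, -, rfl⟩ := mem_image.1 hd
    obtain ⟨h1, h2, h3⟩ := DDm_sqf W M s
    exact ⟨⟨h3, Nat.le_floor hdz⟩, h1, h2⟩
  · rintro ⟨⟨hd1, hdz⟩, hsq, hcop⟩
    have hdz' : (d : ℝ) ≤ z := (Nat.le_floor_iff (by linarith)).1 hdz
    refine ⟨?_, hdz'⟩
    unfold DD
    rw [mem_image]
    refine ⟨univ.filter (fun i : PP W M => (i : ℕ) ∣ d), by simp, ?_⟩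
    rw [← Nat.prod_primeFactors_of_squarefree hsq]
    apply Finset.prod_bij (fun (i : PP W M) _ => (i : ℕ))
    · intro i hi
      rw [mem_filter] at hi
      have h1 := i.2
      unfold PP at h1
      rw [mem_filter] at h1
      rw [Nat.mem_primeFactors]
      refine ⟨h1.2.1, ?_, by omega⟩
      rw [Nat.prod_primeFactors_of_squarefree hsq] at hi
      exact hi.2
    · intro i _ j _ hij
      exact Subtype.ext hij
    · intro p hp
      rw [Nat.mem_primeFactors] at hp
      have hpd : p ≤ d := Nat.le_of_dvd (by omega) hp.2.1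
      have hpz : (p : ℝ) ≤ z := le_trans (by exact_mod_cast hpd) hdz'
      have h30 : (p : ℝ) ^ 30 ≤ M := (pow_le_pow_left₀ (by positivity) hpz 30).trans hzM
      have h30' : p ^ 30 ≤ M := by exact_mod_cast h30
      have hpM : p ≤ M := (Nat.le_self_pow (by norm_num) p).trans h30'
      have hpP : p ∈ PP W M := by
        unfold PP
        rw [mem_filter, mem_range]
        refine ⟨by omega, hp.1, h30', ?_⟩
        intro hpW
        have := Nat.dvd_gcd hp.2.1 hpW
        rw [hcop] at this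
        exact hp.1.one_lt.ne' (Nat.dvd_one.1 this)
      refine ⟨⟨p, hpP⟩, ?_, rfl⟩
      rw [mem_filter]
      refine ⟨mem_univ _, ?_⟩
      rw [Nat.prod_primeFactors_of_squarefree hsq]
      exact hp.2.1
    · intro i _
      rfl

end Pool.Agent.Helper90.MT
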