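import Pool.Agent.Helper90.MT.StS

/-!
Project MT, part S: factorisation of `Full` over the groups.
-/

namespace Pool.Agent.Helper90.MT

open Finset

theorem Fac_one_mem {α : Type} [Fintype α] [DecidableEq α] (pr : α → ℕ) : 1 ∈ DD pr := by
  unfold DD
  refine mem_image.2 ⟨∅, ?_, ?_⟩
  · simp
  · simp

theorem Fac_mul {ι : Type} [Fintype ι] [DecidableEq ι] {grp : ι → ℕ} {J : ℕ} {Rb : ℕ → ℝ}
    {g : ℕ → ℕ → ℝ} (hg : OkG J Rb g) {j : ℕ} {x y : ι → ℕ} (hx : ∀ h, grp h = j → x h = 1)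
    (hy : ∀ h, grp h ≠ j → y h = 1) :
    Yg grp J Rb g (x * y) = Yg grp J Rb g x * Yg grp J Rb g y := by
  classical
  have h1 : ∀ k ∈ range J,
      (if (∏ h ∈ univ.filter (fun h => grp h = k), (((x * y) h : ℕ) : ℝ)) ≤ Rb k then (1 : ℝ) else 0) =
      (if (∏ h ∈ univ.filter (fun h => grp h = k), (x h : ℝ)) ≤ Rb k then (1 : ℝ) else 0) *
      (if (∏ h ∈ univ.filter (fun h => grp h = k), (y h : ℝ)) ≤ Rb k then (1 : ℝ) else 0) := by
    intro k _
    have hR := (hg.hRb k).le
    by_cases hk : k = j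
    · have e1 : (∏ h ∈ univ.filter (fun h => grp h = k), (x h : ℝ)) = 1 := by
        refine Finset.prod_eq_one fun h hh => ?_
        rw [hx h ((mem_filter.1 hh).2.trans hk), Nat.cast_one]
      have e2 : (∏ h ∈ univ.filter (fun h => grp h = k), (((x * y) h : ℕ) : ℝ)) =
          ∏ h ∈ univ.filter (fun h => grp h = k), (y h : ℝ) := by
        refine Finset.prod_congr rfl fun h hh => ?_
        rw [Pi.mul_apply, hx h ((mem_filter.1 hh).2.trans hk), one_mul]
      rw [e1, e2, if_pos hR, one_mul]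
    · have e1 : (∏ h ∈ univ.filter (fun h => grp h = k), (y h : ℝ)) = 1 := by
        refine Finset.prod_eq_one fun h hh => ?_
        rw [hy h (by rw [(mem_filter.1 hh).2]; exact hk), Nat.cast_one]
      have e2 : (∏ h ∈ univ.filter (fun h => grp h = k), (((x * y) h : ℕ) : ℝ)) =
          ∏ h ∈ univ.filter (fun h => grp h = k), (x h : ℝ) := by
        refine Finset.prod_congr rfl fun h hh => ?_
        rw [Pi.mul_apply, hy h (by rw [(mem_filter.1 hh).2]; exact hk), mul_one]
      rw [e1, e2, if_pos hR, mul_one]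
  have h2 : ∀ h, g (grp h) ((x * y) h) = g (grp h) (x h) * g (grp h) (y h) := by
    intro h
    by_cases hk : grp h = j
    · rw [Pi.mul_apply, hx h hk, one_mul, hg.one, one_mul]
    · rw [Pi.mul_apply, hy h hk, mul_one, hg.one, mul_one]
  unfold Yg
  rw [Finset.prod_congr rfl h1, Finset.prod_congr rfl fun h _ => h2 h,
    Finset.prod_mul_distrib, Finset.prod_mul_distrib]
  ring

theorem fac : StFac := by
  classical
  intro α ι _ _ _ _ pr grp J Rb g j D _ _ hg _ _ hD
  unfold Full TJ FG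
  rw [Finset.sum_mul_sum, ← Finset.sum_product']
  symm
  refine Finset.sum_bij' (i := fun (p : (ι → ℕ) × (ι → ℕ)) _ => p.1 * p.2)
    (j := fun (x : ι → ℕ) _ => ((fun h => if grp h = j then 1 else x h,
      fun h => if grp h = j then x h else 1) : (ι → ℕ) × (ι → ℕ))) ?_ ?_ ?_ ?_ ?_
  · rintro ⟨x, y⟩ hp
    rw [mem_product, mem_filter, mem_filter] at hp
    obtain ⟨⟨hx1, hx2⟩, hy1, hy2, hy3⟩ := hp
    simp only at hx1 hx2 hy1 hy2 hy3
    rw [mem_filter]
    unfold piDD at hx1 hy1 ⊢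
    rw [Fintype.mem_piFinset] at hx1 hy1 ⊢
    refine ⟨fun h => ?_, fun h hh => ?_⟩
    · show x h * y h ∈ DD pr
      by_cases hk : grp h = j
      · rw [hx2 h hk, one_mul]
        exact hy1 h
      · rw [hy2 h hk, mul_one]
        exact hx1 h
    · show x h * y h = 1
      rw [hx2 h (hD h hh), hy3 h hh]
  · intro x hx
    rw [mem_filter] at hx
    obtain ⟨hx1, hx2⟩ := hx
    unfold piDD at hx1
    rw [Fintype.mem_piFinset] at hx1
    rw [mem_product, mem_filter, mem_filter]
    unfold piDD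
    rw [Fintype.mem_piFinset, Fintype.mem_piFinset]
    refine ⟨⟨fun h => ?_, fun h hh => ?_⟩, fun h => ?_, fun h hh => ?_, fun h hh => ?_⟩
    · show (if grp h = j then 1 else x h) ∈ DD pr
      split_ifs
      · exact Fac_one_mem pr
      · exact hx1 h
    · show (if grp h = j then 1 else x h) = 1
      rw [if_pos hh]
    · show (if grp h = j then x h else 1) ∈ DD pr
      split_ifs
      · exact hx1 h
      · exact Fac_one_mem pr
    · show (if grp h = j then x h else 1) = 1
      rw [if_neg hh]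
    · show (if grp h = j then x h else 1) = 1
      split_ifs
      · exact hx2 h hh
      · rfl
  · rintro ⟨x, y⟩ hp
    rw [mem_product, mem_filter, mem_filter] at hp
    obtain ⟨⟨hx1, hx2⟩, hy1, hy2, hy3⟩ := hp
    simp only at hx1 hx2 hy1 hy2 hy3
    refine Prod.ext ?_ ?_
    · funext h
      show (if grp h = j then 1 else x h * y h) = x h
      split_ifs with hk
      · rw [hx2 h hk]
      · rw [hy2 h hk, mul_one]
    · funext h
      show (if grp h = j then x h * y h else 1) = y h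
      split_ifs with hk
      · rw [hx2 h hk, one_mul]
      · rw [hy2 h hk]
  · intro x _
    funext h
    show (if grp h = j then 1 else x h) * (if grp h = j then x h else 1) = x h
    split_ifs
    · rw [one_mul]
    · rw [mul_one]
  · rintro ⟨x, y⟩ hp
    rw [mem_product, mem_filter, mem_filter] at hp
    obtain ⟨⟨hx1, hx2⟩, hy1, hy2, hy3⟩ := hp
    simp only at hx1 hx2 hy1 hy2 hy3
    have hc : ∀ c ∈ (piDD ι pr).filter (fun c => ∀ h, h ∉ D → c h = 1),
        Yg grp J Rb g (x * y * c) / ∏ h, (c h : ℝ) =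
          Yg grp J Rb g x * (Yg grp J Rb g (y * c) / ∏ h, (c h : ℝ)) := by
      intro c hc
      rw [mem_filter] at hc
      rw [mul_assoc x y c, Fac_mul hg hx2, mul_div_assoc]
      intro h hh
      rw [Pi.mul_apply, hy2 h hh, hc.2 h (fun hcon => hh (hD h hcon)), mul_one]
    have h3 : ∏ h, (((x * y) h : ℕ) : ℝ) = (∏ h, (x h : ℝ)) * ∏ h, (y h : ℝ) := by
      rw [← Finset.prod_mul_distrib]
      refine Finset.prod_congr rfl fun h _ => ?_
      rw [Pi.mul_apply, Nat.cast_mul]
    show (∏ h, (x h : ℝ))⁻¹ * Yg grp J Rb g x ^ 2 * ((∏ h, (y h : ℝ))⁻¹ *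
      (∑ c ∈ (piDD ι pr).filter (fun c => ∀ h, h ∉ D → c h = 1),
        Yg grp J Rb g (y * c) / ∏ h, (c h : ℝ)) ^ 2) = (∏ h, (((x * y) h : ℕ) : ℝ))⁻¹ *
      (∑ c ∈ (piDD ι pr).filter (fun c => ∀ h, h ∉ D → c h = 1),
        Yg grp J Rb g (x * y * c) / ∏ h, (c h : ℝ)) ^ 2
    rw [Finset.sum_congr rfl hc, ← Finset.mul_sum, h3, mul_inv]
    ring

end Pool.Agent.Helper90.MT
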