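import Pool.Agent.Helper90.MT.FormD

/-!
Project MT: local form of the primes.
-/

namespace Pool.Agent.Helper90.MT

open Finset

theorem formP_sum {ι : Type} [Fintype ι] [DecidableEq ι] (m : ι) (c : ℝ) (f : ι → ℝ) :
    ∑ h, (if h = m then 0 else c) * f h = c * ∑ h ∈ univ.erase m, f h := by
  rw [mul_sum, ← add_sum_erase univ _ (mem_univ m)]
  simp only [if_true, zero_mul, zero_add]
  refine sum_congr rfl fun h hh => ?_
  rw [if_neg (ne_of_mem_erase hh)]

theorem formP_MP {ι : Type} [Fintype ι] [DecidableEq ι] (m : ι) (p : ℕ) (L : Option ι → ℝ) :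
    ∑ x, ∑ y, MP m p x y * L x * L y = L none ^ 2 +
      2 * (1 / ((p : ℝ) - 1)) * L none * ∑ h ∈ univ.erase m, L (some h) +
      (1 / ((p : ℝ) - 1)) * ∑ h ∈ univ.erase m, L (some h) ^ 2 := by
  have h2 : ∀ h : ι, ∑ h', MP m p (some h) (some h') * L (some h) * L (some h') =
      (if h = m then 0 else 1 / ((p : ℝ) - 1)) * L (some h) ^ 2 := by
    intro h
    by_cases hm : h = m
    · subst hm
      simp [MP]
    · simp only [MP, ite_mul, zero_mul]
      rw [if_neg hm, sum_eq_single h]
      · rw [if_pos ⟨rfl, hm⟩]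
        ring
      · intro b _ hb
        rw [if_neg]
        rintro ⟨h1, _⟩
        exact hb h1.symm
      · intro hh
        exact absurd (mem_univ _) hh
  have h3 : ∑ h : ι, MP m p none (some h) * L none * L (some h) =
      (1 / ((p : ℝ) - 1)) * L none * ∑ h ∈ univ.erase m, L (some h) := by
    have h1 : ∀ h : ι, MP m p none (some h) * L none * L (some h) =
        (if h = m then 0 else 1 / ((p : ℝ) - 1) * L none) * L (some h) := by
      intro h
      simp only [MP]
      by_cases hm : h = m
      · rw [if_pos hm, if_pos hm, zero_mul]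
      · rw [if_neg hm, if_neg hm]
    simp only [h1]
    exact formP_sum m _ _
  have h4 : ∑ h : ι, MP m p (some h) none * L (some h) * L none =
      (1 / ((p : ℝ) - 1)) * L none * ∑ h ∈ univ.erase m, L (some h) := by
    have h1 : ∀ h : ι, MP m p (some h) none * L (some h) * L none =
        (if h = m then 0 else 1 / ((p : ℝ) - 1) * L none) * L (some h) := by
      intro h
      simp only [MP]
      by_cases hm : h = m
      · rw [if_pos hm, if_pos hm]
        ring
      · rw [if_neg hm, if_neg hm]
        ring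
    simp only [h1]
    exact formP_sum m _ _
  have h5 : MP m p (none : Option ι) none * L none * L none = (L none) ^ 2 := by
    change 1 * L none * L none = _
    ring
  simp only [Fintype.sum_option, sum_add_distrib]
  rw [h3, h4, h5, sum_congr rfl fun h _ => h2 h, formP_sum m _ (fun h => L (some h) ^ 2)]
  ring

theorem formP : StFormP := by
  intro ι _ _ m p v hp hK
  have hp' : (1 : ℝ) < p := by exact_mod_cast hp
  have hp0 : (p : ℝ) ≠ 0 := by positivity
  have hp1 : (p : ℝ) - 1 ≠ 0 := by
    have : (0 : ℝ) < (p : ℝ) - 1 := by linarith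
    exact this.ne'
  have hR : ∑ o, ∑ o', (∑ x, ∑ y, MP m p x y * TT p x o * TT p y o') * v o * v o' =
      (v none + (1 / (p : ℝ)) * v (some m) -
        (1 / ((p : ℝ) * ((p : ℝ) - 1))) * ∑ h ∈ univ.erase m, v (some h)) ^ 2 +
        (1 / ((p : ℝ) - 1)) * ∑ h ∈ univ.erase m, v (some h) ^ 2 -
        (1 / ((p : ℝ) - 1)) ^ 2 * (∑ h ∈ univ.erase m, v (some h)) ^ 2 := by
    rw [formD_swap, formP_MP m p (fun x => ∑ o, TT p x o * v o)]
    have h0 : ∑ o, TT p none o * v o = v none + (1 / (p : ℝ)) * v (some m) +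
        (1 / (p : ℝ)) * ∑ h ∈ univ.erase m, v (some h) := by
      rw [Fintype.sum_option, ← add_sum_erase univ _ (mem_univ m), mul_sum]
      simp only [TT, one_mul]
      ring
    have h1 : ∀ h : ι, ∑ o, TT p (some h) o * v o = -v (some h) := by
      intro h
      rw [Fintype.sum_option]
      simp only [TT, zero_mul, zero_add, ite_mul, neg_mul, one_mul]
      rw [sum_ite_eq]
      simp
    simp only [h0, h1]
    rw [sum_neg_distrib]
    simp only [neg_sq]
    field_simp
    ring
  have hL : ∑ o, dP m (Fintype.card ι) p o * (∑ o', TP m p o o' * v o') ^ 2 =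
      (v none + (1 / (p : ℝ)) * v (some m) -
        (1 / ((p : ℝ) * ((p : ℝ) - 1))) * ∑ h ∈ univ.erase m, v (some h)) ^ 2 +
        (((p : ℝ) - Fintype.card ι) / ((p : ℝ) - 1) ^ 2) *
          ∑ h ∈ univ.erase m, v (some h) ^ 2 := by
    have h0 : ∑ o, TP m p none o * v o = v none + (1 / (p : ℝ)) * v (some m) -
        (1 / ((p : ℝ) * ((p : ℝ) - 1))) * ∑ h ∈ univ.erase m, v (some h) := by
      rw [Fintype.sum_option, ← add_sum_erase univ _ (mem_univ m), mul_sum]
      simp only [TP, one_mul, if_true]
      have h1 : ∑ x ∈ univ.erase m, (if x = m then 1 / (p : ℝ) else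
          -(1 / ((p : ℝ) * ((p : ℝ) - 1)))) * v (some x) =
          -∑ h ∈ univ.erase m, 1 / ((p : ℝ) * ((p : ℝ) - 1)) * v (some h) := by
        rw [← sum_neg_distrib]
        refine sum_congr rfl fun x hx => ?_
        rw [if_neg (ne_of_mem_erase hx)]
        ring
      rw [h1]
      ring
    have h1 : ∀ h : ι, dP m (Fintype.card ι) p (some h) *
        (∑ o, TP m p (some h) o * v o) ^ 2 =
        (if h = m then 0 else ((p : ℝ) - Fintype.card ι) / ((p : ℝ) - 1) ^ 2) *
          v (some h) ^ 2 := by
      intro h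
      by_cases hm : h = m
      · subst hm
        simp [dP]
      · have h2 : ∑ o, TP m p (some h) o * v o = -v (some h) := by
          rw [Fintype.sum_option]
          simp only [TP, zero_mul, zero_add]
          rw [sum_eq_single h]
          · rw [if_pos ⟨rfl, hm⟩]
            ring
          · intro b _ hb
            rw [if_neg, zero_mul]
            rintro ⟨h1, _⟩
            exact hb h1.symm
          · intro hh
            exact absurd (mem_univ _) hh
        rw [h2, neg_sq]
        rfl
    rw [Fintype.sum_option, h0, sum_congr rfl fun h _ => h1 h,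
      formP_sum m _ (fun h => v (some h) ^ 2)]
    simp only [dP, one_mul]
  rw [hL, hR]
  have hcs : (∑ h ∈ univ.erase m, v (some h)) ^ 2 ≤
      ((Fintype.card ι : ℝ) - 1) * ∑ h ∈ univ.erase m, v (some h) ^ 2 := by
    have h1 := sq_sum_le_card_mul_sum_sq (s := (univ : Finset ι).erase m)
      (f := fun h => v (some h))
    have h2 : ((((univ : Finset ι).erase m).card : ℕ) : ℝ) = (Fintype.card ι : ℝ) - 1 := by
      rw [card_erase_of_mem (mem_univ m), card_univ]
      have : 1 ≤ Fintype.card ι := Fintype.card_pos_iff.mpr ⟨m⟩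
      push_cast [Nat.cast_sub this]
      ring
    rw [h2] at h1
    exact h1
  have h5 : (1 / ((p : ℝ) - 1)) ^ 2 * (∑ h ∈ univ.erase m, v (some h)) ^ 2 ≤
      (1 / ((p : ℝ) - 1)) ^ 2 *
        (((Fintype.card ι : ℝ) - 1) * ∑ h ∈ univ.erase m, v (some h) ^ 2) :=
    mul_le_mul_of_nonneg_left hcs (by positivity)
  have h6 : (((p : ℝ) - Fintype.card ι) / ((p : ℝ) - 1) ^ 2) *
        ∑ h ∈ univ.erase m, v (some h) ^ 2 =
      (1 / ((p : ℝ) - 1)) * ∑ h ∈ univ.erase m, v (some h) ^ 2 -
      (1 / ((p : ℝ) - 1)) ^ 2 *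
        (((Fintype.card ι : ℝ) - 1) * ∑ h ∈ univ.erase m, v (some h) ^ 2) := by
    field_simp
    ring
  linarith

end Pool.Agent.Helper90.MT
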