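import Pool.Agent.Helper90.MT.StS

/-! Project MT, module GL: lower bound for the contribution of a group. -/

set_option linter.unusedSectionVars false

namespace Pool.Agent.Helper90.MT

open Finset

namespace GLAux

variable {α ι : Type} [Fintype α] [DecidableEq α] [Fintype ι] [DecidableEq ι]

theorem one_mem_DD (pr : α → ℕ) : 1 ∈ DD pr := by
  unfold DD
  exact Finset.mem_image.2 ⟨∅, by simp, by simp⟩

theorem DD_pos {pr : α → ℕ} (hp : ∀ i, (pr i).Prime) {d : ℕ} (hd : d ∈ DD pr) : 0 < d := by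
  unfold DD at hd
  obtain ⟨s, -, rfl⟩ := Finset.mem_image.1 hd
  exact Finset.prod_pos fun i _ => (hp i).pos

/-- allowed values -/
def tS (S : Finset ι) (pr : α → ℕ) (h : ι) : Finset ℕ := if h ∈ S then DD pr else {1}

theorem mem_tS {S : Finset ι} {pr : α → ℕ} {h : ι} {d : ℕ} :
    d ∈ tS S pr h ↔ d ∈ DD pr ∧ (h ∉ S → d = 1) := by
  unfold tS
  split_ifs with hS
  · simp [hS]
  · constructor
    · intro hd
      rw [Finset.mem_singleton] at hd
      subst hd
      exact ⟨one_mem_DD pr, fun _ => rfl⟩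
    · intro hd
      rw [Finset.mem_singleton]
      exact hd.2 hS

/-- sums of products over tuples -/
theorem sum_prod (S : Finset ι) (pr : α → ℕ) (φ : ℕ → ℝ) (h1 : φ 1 = 1) :
    ∑ x ∈ Fintype.piFinset (tS S pr), ∏ h, φ (x h) = (∑ d ∈ DD pr, φ d) ^ #S := by
  rw [← Finset.prod_univ_sum (tS S pr) (fun _ d => φ d)]
  rw [← Finset.prod_subset (Finset.subset_univ S)]
  · rw [Finset.prod_congr rfl (g := fun _ => ∑ d ∈ DD pr, φ d), Finset.prod_const]
    intro h hh
    rw [tS, if_pos hh]
  · intro h _ hh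
    rw [tS, if_neg hh, Finset.sum_singleton, h1]

theorem sum_prod_log (S : Finset ι) (pr : α → ℕ) (φ : ℕ → ℝ) (h1 : φ 1 = 1) {h0 : ι}
    (hh0 : h0 ∈ S) :
    ∑ x ∈ Fintype.piFinset (tS S pr), (∏ h, φ (x h)) * Real.log (x h0) =
      (∑ d ∈ DD pr, φ d * Real.log d) * (∑ d ∈ DD pr, φ d) ^ (#S - 1) := by
  have e1 : ∀ x : ι → ℕ, (∏ h, φ (x h)) * Real.log (x h0) =
      ∏ h, φ (x h) * (if h = h0 then Real.log (x h) else 1) := by
    intro x
    rw [Finset.prod_mul_distrib, Finset.prod_ite_eq']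
    simp
  rw [Finset.sum_congr rfl fun x _ => e1 x]
  rw [← Finset.prod_univ_sum (tS S pr) (fun h (d : ℕ) => φ d * (if h = h0 then Real.log d else 1))]
  rw [← Finset.prod_subset (Finset.subset_univ S)]
  · rw [← Finset.mul_prod_erase S _ hh0]
    congr 1
    · rw [tS, if_pos hh0]
      simp
    · rw [Finset.prod_congr rfl (g := fun _ => ∑ d ∈ DD pr, φ d), Finset.prod_const,
        Finset.card_erase_of_mem hh0]
      intro h hh
      rw [Finset.mem_erase] at hh
      rw [tS, if_pos hh.2]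
      simp [hh.1]
  · intro h _ hh
    have : h ≠ h0 := by rintro rfl; exact hh hh0
    rw [tS, if_neg hh, Finset.sum_singleton, h1, if_neg this, one_mul]

/-- the tuple with one entry -/
def up (m : ι) (d : ℕ) : ι → ℕ := Function.update (fun _ => 1) m d

theorem up_self (m : ι) (d : ℕ) : up m d m = d := by
  unfold up
  rw [Function.update_self]

theorem up_ne {m h : ι} (d : ℕ) (hh : h ≠ m) : up m d h = 1 := by
  unfold up
  rw [Function.update_of_ne hh]

/-- product of the entries -/
noncomputable def PX (x : ι → ℕ) : ℝ := ∏ h, (x h : ℝ)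

open Classical in
/-- the inner sum -/
noncomputable def AX (pr : α → ℕ) (g : ℕ → ℝ) (R : ℝ) (x : ι → ℕ) : ℝ :=
  ∑ d ∈ DD pr, if PX x * d ≤ R then g d / d else 0

open Classical in
theorem Yg_eq {grp : ι → ℕ} {J : ℕ} {Rb : ℕ → ℝ} {g : ℕ → ℕ → ℝ} (hG : OkG J Rb g)
    (hgrp : ∀ h, grp h < J) {m : ι} {x : ι → ℕ}
    (hx : ∀ h, ¬ (grp h = grp m ∧ h ≠ m) → x h = 1) (d : ℕ) :
    Yg grp J Rb g (x * up m d) =
      (if PX x * d ≤ Rb (grp m) then 1 else 0) * ((∏ h, g (grp m) (x h)) * g (grp m) d) := by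
  have y1 : ∀ h, h ≠ m → (x * up m d) h = x h := by
    intro h hh
    rw [Pi.mul_apply, up_ne d hh, mul_one]
  have xm : x m = 1 := hx m (fun h => h.2 rfl)
  have y2 : (x * up m d) m = d := by
    rw [Pi.mul_apply, up_self, xm, one_mul]
  have y3 : ∀ h, grp h ≠ grp m → (x * up m d) h = 1 := by
    intro h hh
    have : h ≠ m := by rintro rfl; exact hh rfl
    rw [y1 h this]
    exact hx h (fun h' => hh h'.1)
  have e1 : ∏ h ∈ univ.filter (fun h => grp h = grp m),
      (((x * up m d) h : ℕ) : ℝ) = PX x * d := by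
    rw [Finset.prod_filter, PX]
    have : ∀ h, (if grp h = grp m then (((x * up m d) h : ℕ) : ℝ) else 1) =
        (x h : ℝ) * (if h = m then (d : ℝ) else 1) := by
      intro h
      by_cases hh : h = m
      · subst hh
        rw [if_pos rfl, if_pos rfl, y2, xm]
        simp
      · rw [if_neg hh, mul_one]
        by_cases hg : grp h = grp m
        · rw [if_pos hg, y1 h hh]
        · rw [if_neg hg, hx h (fun h' => hg h'.1)]
          simp
    rw [Finset.prod_congr rfl fun h _ => this h, Finset.prod_mul_distrib, Finset.prod_ite_eq']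
    simp
  have e2 : ∏ j' ∈ range J, (if (∏ h ∈ univ.filter (fun h => grp h = j'),
      (((x * up m d) h : ℕ) : ℝ)) ≤ Rb j' then (1 : ℝ) else 0) =
      if PX x * d ≤ Rb (grp m) then 1 else 0 := by
    rw [Finset.prod_eq_single (grp m)]
    · rw [e1]
    · intro j' _ hj'
      rw [if_pos]
      rw [Finset.prod_eq_one]
      · exact (hG.hRb j').le
      · intro h hh
        rw [Finset.mem_filter] at hh
        rw [y3 h (by rw [hh.2]; exact hj')]
        simp
    · intro hh
      exact absurd (Finset.mem_range.2 (hgrp m)) hh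
  have e3 : ∏ h, g (grp h) ((x * up m d) h) =
      (∏ h, g (grp m) (x h)) * g (grp m) d := by
    have : ∀ h, g (grp h) ((x * up m d) h) =
        g (grp m) (x h) * (if h = m then g (grp m) d else 1) := by
      intro h
      by_cases hh : h = m
      · subst hh
        rw [if_pos rfl, y2, xm, hG.one, one_mul]
      · rw [if_neg hh, mul_one]
        by_cases hg : grp h = grp m
        · rw [y1 h hh, hg]
        · rw [y3 h hg, hx h (fun h' => hg h'.1), hG.one, hG.one]
    rw [Finset.prod_congr rfl fun h _ => this h, Finset.prod_mul_distrib, Finset.prod_ite_eq']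
    simp
  unfold Yg
  rw [e3]
  congr 1

open Classical in
theorem inner_eq (pr : α → ℕ) {grp : ι → ℕ} {J : ℕ} {Rb : ℕ → ℝ} {g : ℕ → ℕ → ℝ}
    (hG : OkG J Rb g) (hgrp : ∀ h, grp h < J) {m : ι} {x : ι → ℕ}
    (hx : ∀ h, ¬ (grp h = grp m ∧ h ≠ m) → x h = 1) :
    ∑ c ∈ (piDD ι pr).filter (fun c => ∀ h, h ∉ ({m} : Finset ι) → c h = 1),
      Yg grp J Rb g (x * c) / ∏ h, (c h : ℝ) =
    (∏ h, g (grp m) (x h)) * AX pr (g (grp m)) (Rb (grp m)) x := by
  have e1 : ∑ c ∈ (piDD ι pr).filter (fun c => ∀ h, h ∉ ({m} : Finset ι) → c h = 1),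
      Yg grp J Rb g (x * c) / ∏ h, (c h : ℝ) =
      ∑ d ∈ DD pr, Yg grp J Rb g (x * up m d) / d := by
    symm
    refine Finset.sum_bij (fun d _ => up m d) ?_ ?_ ?_ ?_
    · intro d hd
      rw [Finset.mem_filter]
      constructor
      · rw [piDD, Fintype.mem_piFinset]
        intro h
        by_cases hh : h = m
        · subst hh
          rw [up_self]; exact hd
        · rw [up_ne d hh]
          exact one_mem_DD pr
      · intro h hh
        rw [Finset.mem_singleton] at hh
        rw [up_ne d hh]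
    · intro d _ d' _ h
      have := congrFun h m
      rwa [up_self, up_self] at this
    · intro c hc
      rw [Finset.mem_filter, piDD, Fintype.mem_piFinset] at hc
      refine ⟨c m, hc.1 m, ?_⟩
      funext h
      by_cases hh : h = m
      · subst hh
        rw [up_self]
      · rw [up_ne _ hh, hc.2 h (by simpa using hh)]
    · intro d _
      congr 1
      have : ∀ h, ((up m d h : ℕ) : ℝ) = if h = m then (d : ℝ) else 1 := by
        intro h
        by_cases hh : h = m
        · subst hh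
          rw [up_self, if_pos rfl]
        · rw [up_ne d hh, if_neg hh]
          simp
      rw [Finset.prod_congr rfl fun h _ => this h, Finset.prod_ite_eq']
      simp
  rw [e1, AX, Finset.mul_sum]
  refine Finset.sum_congr rfl fun d _ => ?_
  rw [Yg_eq hG hgrp hx d]
  split_ifs
  · ring
  · ring

theorem AX_sq_ge {pr : α → ℕ} (hp : ∀ i, (pr i).Prime) {g : ℕ → ℝ} (hg : ∀ d, 0 ≤ g d)
    {R : ℝ} (hR : 1 < R) {x : ι → ℕ} (hx : ∀ h, 0 < x h) :
    G1 pr g ^ 2 - 2 * G1 pr g / Real.log R *
      (G1 pr g * (∑ h, Real.log (x h)) + E1 pr g) ≤ AX pr g R x ^ 2 := by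
  classical
  have hlR : 0 < Real.log R := Real.log_pos hR
  have hG0 : 0 ≤ G1 pr g := Finset.sum_nonneg fun d _ => div_nonneg (hg d) (by positivity)
  have hPX : (1 : ℝ) ≤ PX x := by
    have : (1 : ℝ) ≤ ((∏ h, x h : ℕ) : ℝ) := by
      exact_mod_cast Finset.prod_pos fun h _ => hx h
    unfold PX
    exact_mod_cast this
  have hlog : Real.log (PX x) = ∑ h, Real.log (x h) := by
    unfold PX
    rw [Real.log_prod]
    intro h _
    exact_mod_cast (hx h).ne'
  set T : ℝ := ∑ d ∈ DD pr, if PX x * d ≤ R then 0 else g d / d with hT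
  have hA : AX pr g R x = G1 pr g - T := by
    rw [AX, G1, hT, ← Finset.sum_sub_distrib]
    refine Finset.sum_congr rfl fun d _ => ?_
    split_ifs <;> ring
  have hT0 : 0 ≤ T := Finset.sum_nonneg fun d _ => by
    split_ifs
    · exact le_rfl
    · exact div_nonneg (hg d) (by positivity)
  have hT1 : T ≤ (G1 pr g * (∑ h, Real.log (x h)) + E1 pr g) / Real.log R := by
    rw [← hlog, hT, G1, E1, Finset.sum_mul, ← Finset.sum_add_distrib, Finset.sum_div]
    refine Finset.sum_le_sum fun d hd => ?_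
    have hd0 : 0 < d := DD_pos hp hd
    have hd1 : (1 : ℝ) ≤ d := by exact_mod_cast hd0
    have hgd : 0 ≤ g d / d := div_nonneg (hg d) (by positivity)
    have e : g d / d * Real.log (PX x) + g d * Real.log d / d =
        g d / d * Real.log (PX x * d) := by
      rw [Real.log_mul (by linarith) (by linarith)]
      ring
    rw [e]
    split_ifs with hc
    · exact div_nonneg (mul_nonneg hgd (Real.log_nonneg (by nlinarith))) hlR.le
    · push Not at hc
      rw [le_div_iff₀ hlR]
      exact mul_le_mul_of_nonneg_left (Real.log_le_log (by linarith) hc.le) hgd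
  rw [hA]
  have h2 : 2 * G1 pr g / Real.log R * (G1 pr g * (∑ h, Real.log (x h)) + E1 pr g) =
      2 * G1 pr g * ((G1 pr g * (∑ h, Real.log (x h)) + E1 pr g) / Real.log R) := by
    ring
  rw [h2]
  nlinarith [mul_le_mul_of_nonneg_left hT1 hG0, sq_nonneg T]

end GLAux

open GLAux in
theorem gL : StGL := by
  classical
  intro α ι _ _ _ _ pr grp J Rb g j m hp hi hG hgrp hj hm
  subst hm
  set S : Finset ι := univ.filter (fun h => grp h = grp m ∧ h ≠ m) with hS
  have memS : ∀ h, h ∈ S ↔ (grp h = grp m ∧ h ≠ m) := fun h => by simp [hS]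
  have hcard : #(univ.filter (fun h => grp h = grp m)) = #S + 1 := by
    have : univ.filter (fun h => grp h = grp m) = insert m S := by
      ext h
      simp only [Finset.mem_filter, Finset.mem_univ, true_and, Finset.mem_insert, memS]
      constructor
      · intro hh
        by_cases h1 : h = m
        · exact Or.inl h1
        · exact Or.inr ⟨hh, h1⟩
      · rintro (rfl | hh)
        · rfl
        · exact hh.1
    rw [this, Finset.card_insert_of_notMem]
    rw [memS]
    exact fun h => h.2 rfl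
  set φ : ℕ → ℝ := fun d => g (grp m) d ^ 2 / d with hφ
  have φ1 : φ 1 = 1 := by simp [hφ, hG.one]
  have φ0 : ∀ d, 0 ≤ φ d := fun d => by positivity
  have hg0 : ∀ d, 0 ≤ g (grp m) d := hG.nonneg _
  set R := Rb (grp m) with hR
  have hR1 : 1 < R := hG.hRb _
  set A1 := G1 pr (g (grp m)) with hA1
  set A2 := G2 pr (g (grp m)) with hA2
  set B1 := E1 pr (g (grp m)) with hB1
  set B2 := E2 pr (g (grp m)) with hB2
  have hA2' : A2 = ∑ d ∈ DD pr, φ d := rfl
  have hB2' : B2 = ∑ d ∈ DD pr, φ d * Real.log d := by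
    rw [hB2, E2]
    refine Finset.sum_congr rfl fun d _ => ?_
    simp only [hφ]; ring
  have hA1pos : 1 ≤ A1 := by
    have := Finset.single_le_sum (f := fun d : ℕ => g (grp m) d / (d : ℝ))
      (fun d _ => div_nonneg (hg0 d) (by positivity)) (one_mem_DD pr)
    have e : A1 = ∑ d ∈ DD pr, g (grp m) d / (d : ℝ) := rfl
    rw [e]
    simpa [hG.one] using this
  have hA2pos : 1 ≤ A2 := by
    have := Finset.single_le_sum (f := fun d : ℕ => φ d) (fun d _ => φ0 d) (one_mem_DD pr)
    rw [φ1] at this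
    exact this
  -- rewrite FG
  have hfil : (piDD ι pr).filter (fun x => (∀ h, grp h ≠ grp m → x h = 1) ∧
      ∀ h ∈ ({m} : Finset ι), x h = 1) = Fintype.piFinset (tS S pr) := by
    ext x
    rw [Finset.mem_filter, piDD, Fintype.mem_piFinset, Fintype.mem_piFinset]
    constructor
    · rintro ⟨h1, h2, h3⟩ h
      rw [mem_tS]
      refine ⟨h1 h, fun hh => ?_⟩
      rw [memS] at hh
      by_cases hgm : grp h = grp m
      · have : h = m := by
          by_contra hne
          exact hh ⟨hgm, hne⟩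
        exact h3 h (by simp [this])
      · exact h2 h hgm
    · intro hx
      have hx' : ∀ h, x h ∈ DD pr ∧ (h ∉ S → x h = 1) := fun h => mem_tS.1 (hx h)
      refine ⟨fun h => (hx' h).1, fun h hh => (hx' h).2 ?_, fun h hh => (hx' h).2 ?_⟩
      · rw [memS]
        exact fun h' => hh h'.1
      · rw [Finset.mem_singleton] at hh
        rw [memS]
        exact fun h' => h'.2 hh
  have hFG : FG pr grp (Yg grp J Rb g) (grp m) {m} =
      ∑ x ∈ Fintype.piFinset (tS S pr), (∏ h, φ (x h)) * AX pr (g (grp m)) R x ^ 2 := by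
    unfold FG
    rw [← hfil]
    refine Finset.sum_congr (by ext x; simp) fun x hx => ?_
    have hx2 : x ∈ Fintype.piFinset (tS S pr) := by
      rw [← hfil]
      simpa using hx
    rw [Fintype.mem_piFinset] at hx2
    have hx3 : ∀ h, ¬ (grp h = grp m ∧ h ≠ m) → x h = 1 := by
      intro h hh
      exact (mem_tS.1 (hx2 h)).2 (by rw [memS]; exact hh)
    rw [inner_eq pr hG hgrp hx3]
    simp only [hφ]
    rw [mul_pow, ← Finset.prod_pow, ← mul_assoc, Finset.prod_div_distrib]
    congr 1
    rw [div_eq_mul_inv, mul_comm]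
  rw [hFG, hcard]
  have hlow : ∑ x ∈ Fintype.piFinset (tS S pr), (∏ h, φ (x h)) *
      (A1 ^ 2 - 2 * A1 / Real.log R * (A1 * (∑ h, Real.log (x h)) + B1)) ≤
      ∑ x ∈ Fintype.piFinset (tS S pr), (∏ h, φ (x h)) * AX pr (g (grp m)) R x ^ 2 := by
    refine Finset.sum_le_sum fun x hx => ?_
    refine mul_le_mul_of_nonneg_left ?_ (Finset.prod_nonneg fun h _ => φ0 _)
    rw [Fintype.mem_piFinset] at hx
    exact AX_sq_ge hp hg0 hR1 fun h => DD_pos hp (mem_tS.1 (hx h)).1
  refine le_trans (le_of_eq ?_) hlow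
  have hW : ∑ x ∈ Fintype.piFinset (tS S pr), ∏ h, φ (x h) = A2 ^ #S := by
    rw [sum_prod S pr φ φ1, ← hA2']
  have hWL : ∑ x ∈ Fintype.piFinset (tS S pr), (∏ h, φ (x h)) * (∑ h, Real.log (x h)) =
      #S * (B2 * A2 ^ (#S - 1)) := by
    have h1 : ∀ x ∈ Fintype.piFinset (tS S pr), (∏ h, φ (x h)) * (∑ h, Real.log (x h)) =
        ∑ h ∈ S, (∏ h, φ (x h)) * Real.log (x h) := by
      intro x hx
      rw [Fintype.mem_piFinset] at hx
      rw [← Finset.mul_sum]
      congr 1
      symm
      refine Finset.sum_subset (Finset.subset_univ S) fun h _ hh => ?_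
      rw [(mem_tS.1 (hx h)).2 hh]
      simp
    rw [Finset.sum_congr rfl h1, Finset.sum_comm]
    rw [Finset.sum_congr rfl fun h hh => sum_prod_log S pr φ φ1 hh, Finset.sum_const,
      nsmul_eq_mul, ← hA2', ← hB2']
  have hsplit : ∑ x ∈ Fintype.piFinset (tS S pr), (∏ h, φ (x h)) *
      (A1 ^ 2 - 2 * A1 / Real.log R * (A1 * (∑ h, Real.log (x h)) + B1)) =
      (A1 ^ 2 - 2 * A1 / Real.log R * B1) * A2 ^ #S -
        2 * A1 / Real.log R * A1 * (#S * (B2 * A2 ^ (#S - 1))) := by
    rw [← hW, ← hWL, Finset.mul_sum, Finset.mul_sum, ← Finset.sum_sub_distrib]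
    refine Finset.sum_congr rfl fun x _ => ?_
    ring
  rw [hsplit, Nat.add_sub_cancel]
  have hlR : Real.log R ≠ 0 := (Real.log_pos hR1).ne'
  have hA1' : A1 ≠ 0 := by linarith
  have hA2'' : A2 ≠ 0 := by linarith
  have hpow : (#S : ℝ) * (B2 * A2 ^ (#S - 1)) = #S * (B2 / A2) * A2 ^ #S := by
    rcases Nat.eq_zero_or_pos #S with h0 | h0
    · rw [h0]; simp
    · obtain ⟨n, hn⟩ : ∃ n, #S = n + 1 := ⟨#S - 1, by omega⟩
      rw [hn, Nat.add_sub_cancel, pow_succ]
      field_simp
  rw [hpow]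
  push_cast
  field_simp
  ring

end Pool.Agent.Helper90.MT
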