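import Pool.Agent.Helper90.MT.StS

set_option autoImplicit false
set_option linter.unusedSectionVars false

namespace Pool.Agent.Helper90.MT

open Finset

section GUAux
variable {α ι : Type} [Fintype α] [DecidableEq α] [Fintype ι] [DecidableEq ι]

theorem GU_one_mem (pr : α → ℕ) : 1 ∈ DD pr := by
  unfold DD
  rw [mem_image]
  exact ⟨∅, by simp, by simp⟩

open Classical in
theorem GU_sum (pr : α → ℕ) (S : Finset ι) (φ : ℕ → ℝ) :
    ∑ x ∈ (piDD ι pr).filter (fun x => ∀ h, h ∉ S → x h = 1), ∏ h ∈ S, φ (x h) =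
      (∑ d ∈ DD pr, φ d) ^ #S := by
  have h1 : (piDD ι pr).filter (fun x => ∀ h, h ∉ S → x h = 1) =
      Fintype.piFinset (fun h => if h ∈ S then DD pr else {1}) := by
    ext x
    unfold piDD
    rw [mem_filter, Fintype.mem_piFinset, Fintype.mem_piFinset]
    constructor
    · rintro ⟨h2, h3⟩ h
      by_cases hh : h ∈ S
      · rw [if_pos hh]
        exact h2 h
      · rw [if_neg hh, mem_singleton]
        exact h3 h hh
    · intro h2
      constructor
      · intro h
        have h3 := h2 h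
        by_cases hh : h ∈ S
        · rw [if_pos hh] at h3
          exact h3
        · rw [if_neg hh, mem_singleton] at h3
          rw [h3]
          exact GU_one_mem pr
      · intro h hh
        have h3 := h2 h
        rw [if_neg hh, mem_singleton] at h3
        exact h3
  have h2 : ∀ x : ι → ℕ, ∏ h ∈ S, φ (x h) = ∏ h, (if h ∈ S then φ (x h) else 1) := by
    intro x
    rw [Finset.prod_ite_mem, univ_inter]
  rw [h1, sum_congr rfl (fun x _ => h2 x),
    ← Finset.prod_univ_sum (fun h => if h ∈ S then DD pr else {1})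
      (fun h d => if h ∈ S then φ d else 1)]
  have h3 : ∀ h : ι, (∑ d ∈ (if h ∈ S then DD pr else {1}), if h ∈ S then φ d else 1) =
      if h ∈ S then ∑ d ∈ DD pr, φ d else 1 := by
    intro h
    by_cases hh : h ∈ S
    · simp [hh]
    · simp [hh]
  rw [prod_congr rfl (fun h _ => h3 h), Finset.prod_ite_mem, univ_inter, prod_const]

end GUAux

theorem gU : StGU := by
  classical
  intro α ι _ _ _ _ pr grp J Rb g j D hp hi hg hgrp hj hD
  set A : Finset ι := univ.filter (fun h => grp h = j) with hA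
  set S : Finset ι := A \ D with hS
  have hDA : D ⊆ A := by
    intro h hh
    rw [hA, mem_filter]
    exact ⟨mem_univ _, hD h hh⟩
  have hSc : #S = #A - #D := by rw [hS, card_sdiff_of_subset hDA]
  have hx : (piDD ι pr).filter (fun x => (∀ h, grp h ≠ j → x h = 1) ∧ ∀ h ∈ D, x h = 1) =
      (piDD ι pr).filter (fun x => ∀ h, h ∉ S → x h = 1) := by
    apply filter_congr
    intro x _
    constructor
    · rintro ⟨h1, h2⟩ h hh
      rw [hS, mem_sdiff, hA, mem_filter] at hh
      by_cases h3 : grp h = j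
      · by_cases h4 : h ∈ D
        · exact h2 h h4
        · exact absurd ⟨⟨mem_univ _, h3⟩, h4⟩ hh
      · exact h1 h h3
    · intro h1
      constructor
      · intro h hh
        apply h1
        rw [hS, mem_sdiff, hA, mem_filter]
        exact fun h2 => hh h2.1.2
      · intro h hh
        apply h1
        rw [hS, mem_sdiff]
        exact fun h2 => h2.2 hh
  have hG1 : 0 ≤ G1 pr (g j) := by
    unfold G1
    exact sum_nonneg (fun d _ => div_nonneg (hg.nonneg j d) (by positivity))
  unfold FG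
  rw [hx]
  have hY : ∀ x c : ι → ℕ, (∀ h, h ∉ S → x h = 1) → (∀ h, h ∉ D → c h = 1) →
      Yg grp J Rb g (x * c) ≤ (∏ h ∈ S, g j (x h)) * ∏ h ∈ D, g j (c h) := by
    intro x c h1 h2
    have e1 : ∏ h, g (grp h) ((x * c) h) = (∏ h ∈ S, g j (x h)) * ∏ h ∈ D, g j (c h) := by
      have e2 : ∀ h : ι, g (grp h) ((x * c) h) =
          (if h ∈ S then g j (x h) else 1) * (if h ∈ D then g j (c h) else 1) := by
        intro h
        rw [Pi.mul_apply]
        by_cases hs : h ∈ S
        · have h3 : h ∉ D := (mem_sdiff.1 hs).2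
          have h4 : grp h = j := (mem_filter.1 (mem_sdiff.1 hs).1).2
          rw [if_pos hs, if_neg h3, h2 h h3, mul_one, mul_one, h4]
        · rw [if_neg hs, h1 h hs, one_mul, one_mul]
          by_cases hd : h ∈ D
          · rw [if_pos hd, hD h hd]
          · rw [if_neg hd, h2 h hd, hg.one]
      rw [prod_congr rfl (fun h _ => e2 h), prod_mul_distrib, Finset.prod_ite_mem,
        Finset.prod_ite_mem, univ_inter, univ_inter]
    unfold Yg
    rw [e1]
    have e3 : 0 ≤ (∏ h ∈ S, g j (x h)) * ∏ h ∈ D, g j (c h) :=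
      mul_nonneg (prod_nonneg (fun h _ => hg.nonneg _ _)) (prod_nonneg (fun h _ => hg.nonneg _ _))
    apply mul_le_of_le_one_left e3
    apply prod_le_one
    · intro i _
      split_ifs
      · exact zero_le_one
      · exact le_rfl
    · intro i _
      split_ifs
      · exact le_rfl
      · exact zero_le_one
  have hY0 : ∀ x, 0 ≤ Yg grp J Rb g x := by
    intro x
    unfold Yg
    apply mul_nonneg
    · apply prod_nonneg
      intro i _
      split_ifs
      · exact zero_le_one
      · exact le_rfl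
    · exact prod_nonneg (fun h _ => hg.nonneg _ _)
  have hin : ∀ x : ι → ℕ, (∀ h, h ∉ S → x h = 1) →
      ∑ c ∈ (piDD ι pr).filter (fun c => ∀ h, h ∉ D → c h = 1),
        Yg grp J Rb g (x * c) / ∏ h, (c h : ℝ) ≤ (∏ h ∈ S, g j (x h)) * G1 pr (g j) ^ #D := by
    intro x hx1
    have e1 : G1 pr (g j) ^ #D = ∑ c ∈ (piDD ι pr).filter (fun c => ∀ h, h ∉ D → c h = 1),
        ∏ h ∈ D, g j (c h) / (c h : ℝ) := by
      unfold G1
      rw [GU_sum pr D (fun d => g j d / (d : ℝ))]
    rw [e1, mul_sum]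
    apply sum_le_sum
    intro c hc
    rw [mem_filter] at hc
    have e2 : ∏ h, (c h : ℝ) = ∏ h ∈ D, (c h : ℝ) := by
      symm
      apply prod_subset (subset_univ D)
      intro h _ hh
      rw [hc.2 h hh]
      simp
    rw [e2, prod_div_distrib, ← mul_div_assoc]
    apply div_le_div_of_nonneg_right (hY x c hx1 hc.2)
    exact prod_nonneg (fun h _ => by positivity)
  have e4 : G2 pr (g j) ^ #S = ∑ x ∈ (piDD ι pr).filter (fun x => ∀ h, h ∉ S → x h = 1),
      ∏ h ∈ S, g j (x h) ^ 2 / (x h : ℝ) := by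
    unfold G2
    rw [GU_sum pr S (fun d => g j d ^ 2 / (d : ℝ))]
  rw [← hSc, e4, mul_sum]
  apply sum_le_sum
  intro x hx1
  rw [mem_filter] at hx1
  have e5 : ∏ h, (x h : ℝ) = ∏ h ∈ S, (x h : ℝ) := by
    symm
    apply prod_subset (subset_univ S)
    intro h _ hh
    rw [hx1.2 h hh]
    simp
  have e6 : 0 ≤ ∑ c ∈ (piDD ι pr).filter (fun c => ∀ h, h ∉ D → c h = 1),
        Yg grp J Rb g (x * c) / ∏ h, (c h : ℝ) :=
    sum_nonneg (fun c _ => div_nonneg (hY0 _) (prod_nonneg (fun h _ => by positivity)))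
  have e7 := pow_le_pow_left₀ e6 (hin x hx1.2) 2
  calc (∏ h, (x h : ℝ))⁻¹ * (∑ c ∈ (piDD ι pr).filter (fun c => ∀ h, h ∉ D → c h = 1),
        Yg grp J Rb g (x * c) / ∏ h, (c h : ℝ)) ^ 2 ≤
      (∏ h, (x h : ℝ))⁻¹ * ((∏ h ∈ S, g j (x h)) * G1 pr (g j) ^ #D) ^ 2 := by
        apply mul_le_mul_of_nonneg_left e7
        apply inv_nonneg.2
        exact prod_nonneg (fun h _ => by positivity)
    _ = G1 pr (g j) ^ (2 * #D) * ∏ h ∈ S, g j (x h) ^ 2 / (x h : ℝ) := by
        rw [e5, prod_div_distrib, mul_pow, ← pow_mul, mul_comm #D 2, ← prod_pow]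
        ring

end Pool.Agent.Helper90.MT
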