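import Pool.Agent.Helper90.MT.StS

/-!
Project MT, S7: the gain lemma.
-/

namespace Pool.Agent.Helper90.MT

open Finset

section
variable {α κ : Type} [Fintype α] [DecidableEq α] [Fintype κ] [DecidableEq κ]

omit [DecidableEq α] [Fintype κ] [DecidableEq κ] in
theorem gain_mem_DD {pr : α → ℕ} {d : ℕ} :
    d ∈ DD pr ↔ ∃ s : Finset α, ∏ i ∈ s, pr i = d := by
  simp [DD]

omit [DecidableEq α] [Fintype κ] [DecidableEq κ] in
theorem gain_pos {pr : α → ℕ} (hp : ∀ i, (pr i).Prime) {d : ℕ} (hd : d ∈ DD pr) : 0 < d := by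
  obtain ⟨s, rfl⟩ := gain_mem_DD.1 hd
  exact Finset.prod_pos fun i _ => (hp i).pos

omit [Fintype κ] [DecidableEq κ] in
theorem gain_div {pr : α → ℕ} (hp : ∀ i, (pr i).Prime) (hinj : Function.Injective pr) {d : ℕ}
    (hd : d ∈ DD pr) {i : α} (hi : pr i ∣ d) : d / pr i ∈ DD pr := by
  obtain ⟨s, rfl⟩ := gain_mem_DD.1 hd
  obtain ⟨j, hj, hij⟩ := (Prime.dvd_finsetProd_iff (hp i).prime _).1 hi
  have h1 : i = j := hinj ((Nat.prime_dvd_prime_iff_eq (hp i) (hp j)).1 hij)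
  subst h1
  refine gain_mem_DD.2 ⟨s.erase i, ?_⟩
  rw [← Finset.mul_prod_erase s pr hj, Nat.mul_div_cancel_left _ (hp i).pos]

/-- One step: the sum over the `x` with `pr i ∣ x l`. -/
theorem gain_step (pr : α → ℕ) (F w : (κ → ℕ) → ℝ) (i : α) (l : κ) (hp : ∀ i, (pr i).Prime)
    (hinj : Function.Injective pr) (hF : ∀ x, 0 ≤ F x) (hA : Anti F) (hw0 : ∀ x, 0 ≤ w x)
    (hw : ∀ x ∈ piDD κ pr, pr i ∣ x l → w x = w (Function.update x l (x l / pr i))) :
    ∑ x ∈ (piDD κ pr).filter (fun x => pr i ∣ x l), w x * (F x / ∏ l, (x l : ℝ)) ≤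
      1 / (pr i : ℝ) * ∑ x ∈ piDD κ pr, w x * (F x / ∏ l, (x l : ℝ)) := by
  set T := (piDD κ pr).filter (fun x => pr i ∣ x l) with hT
  set φ : (κ → ℕ) → (κ → ℕ) := fun x => Function.update x l (x l / pr i) with hφ
  have hmem : ∀ x ∈ piDD κ pr, ∀ l, x l ∈ DD pr := fun x hx l => Fintype.mem_piFinset.1 hx l
  have hTm : ∀ x ∈ T, x ∈ piDD κ pr ∧ pr i ∣ x l := fun x hx => Finset.mem_filter.1 hx
  have hφm : ∀ x ∈ T, φ x ∈ piDD κ pr := by
    intro x hx
    obtain ⟨h1, h2⟩ := hTm x hx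
    refine Fintype.mem_piFinset.2 fun l' => ?_
    by_cases hl : l' = l
    · subst hl
      rw [hφ]
      simp only [Function.update_self]
      exact gain_div hp hinj (hmem x h1 l') h2
    · rw [hφ]
      simp only
      rw [Function.update_of_ne hl]
      exact hmem x h1 l'
  have hpi : (0 : ℝ) < pr i := by exact_mod_cast (hp i).pos
  have hnn : ∀ x ∈ piDD κ pr, 0 ≤ w x * (F x / ∏ l, (x l : ℝ)) := fun x _ =>
    mul_nonneg (hw0 x) (div_nonneg (hF x) (Finset.prod_nonneg fun l _ => Nat.cast_nonneg _))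
  have hprod : ∀ x ∈ T, (∏ l, (x l : ℝ)) = pr i * ∏ l', ((φ x) l' : ℝ) := by
    intro x hx
    obtain ⟨h1, h2⟩ := hTm x hx
    rw [← Finset.mul_prod_erase univ (fun l' => (x l' : ℝ)) (Finset.mem_univ l),
      ← Finset.mul_prod_erase univ (fun l' => ((φ x) l' : ℝ)) (Finset.mem_univ l), ← mul_assoc]
    congr 1
    · rw [hφ]
      simp only [Function.update_self]
      rw [← Nat.cast_mul, Nat.mul_div_cancel' h2]
    · refine Finset.prod_congr rfl fun l' hl' => ?_
      rw [hφ]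
      simp only
      rw [Function.update_of_ne (Finset.ne_of_mem_erase hl')]
  have hinjT : Set.InjOn φ (T : Set (κ → ℕ)) := by
    intro x hx y hy hxy
    obtain ⟨-, h1⟩ := hTm x hx
    obtain ⟨-, h2⟩ := hTm y hy
    funext l'
    have h3 : φ x l' = φ y l' := congrFun hxy l'
    by_cases hl : l' = l
    · subst hl
      rw [hφ] at h3
      simp only [Function.update_self] at h3
      rw [← Nat.mul_div_cancel' h1, ← Nat.mul_div_cancel' h2, h3]
    · rw [hφ] at h3
      simp only at h3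
      rwa [Function.update_of_ne hl, Function.update_of_ne hl] at h3
  have hterm : ∀ x ∈ T, w x * (F x / ∏ l, (x l : ℝ)) ≤
      1 / (pr i : ℝ) * (w (φ x) * (F (φ x) / ∏ l', ((φ x) l' : ℝ))) := by
    intro x hx
    obtain ⟨h1, h2⟩ := hTm x hx
    have h3 : F x ≤ F (φ x) := by
      refine hA (φ x) x (fun l' => ?_) fun l' => gain_pos hp (hmem x h1 l')
      by_cases hl : l' = l
      · subst hl
        rw [hφ]
        simp only [Function.update_self]
        exact Nat.div_dvd_of_dvd h2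
      · rw [hφ]
        simp only
        rw [Function.update_of_ne hl]
    have h4 : (0 : ℝ) < ∏ l', ((φ x) l' : ℝ) := Finset.prod_pos fun l' _ => by
      exact_mod_cast gain_pos hp (hmem _ (hφm x hx) l')
    rw [hprod x hx, hw x h1 h2]
    have h5 : F x / ((pr i : ℝ) * ∏ l', ((φ x) l' : ℝ)) ≤
        1 / (pr i : ℝ) * (F (φ x) / ∏ l', ((φ x) l' : ℝ)) := by
      rw [div_mul_div_comm, one_mul]
      exact div_le_div_of_nonneg_right h3 (mul_pos hpi h4).le
    calc w (φ x) * (F x / ((pr i : ℝ) * ∏ l', ((φ x) l' : ℝ)))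
        ≤ w (φ x) * (1 / (pr i : ℝ) * (F (φ x) / ∏ l', ((φ x) l' : ℝ))) :=
          mul_le_mul_of_nonneg_left h5 (hw0 _)
      _ = _ := by ring
  calc ∑ x ∈ T, w x * (F x / ∏ l, (x l : ℝ))
      ≤ ∑ x ∈ T, 1 / (pr i : ℝ) * (w (φ x) * (F (φ x) / ∏ l', ((φ x) l' : ℝ))) :=
        Finset.sum_le_sum hterm
    _ = 1 / (pr i : ℝ) * ∑ y ∈ T.image φ, w y * (F y / ∏ l', (y l' : ℝ)) := by
        rw [Finset.sum_image hinjT, Finset.mul_sum]
    _ ≤ 1 / (pr i : ℝ) * ∑ y ∈ piDD κ pr, w y * (F y / ∏ l', (y l' : ℝ)) := by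
        refine mul_le_mul_of_nonneg_left (Finset.sum_le_sum_of_subset_of_nonneg ?_ ?_) ?_
        · intro y hy
          obtain ⟨x, hx, rfl⟩ := Finset.mem_image.1 hy
          exact hφm x hx
        · intro y hy _
          exact hnn y hy
        · positivity

/-- The weight of a set of pairs. -/
noncomputable def gw (pr : α → ℕ) (S : Finset (κ × α)) (x : κ → ℕ) : ℝ :=
  ∏ z ∈ S, if pr z.2 ∣ x z.1 then 1 + 3 / (pr z.2 : ℝ) else 1

omit [Fintype α] [DecidableEq α] [Fintype κ] [DecidableEq κ] in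
theorem gw_nonneg (pr : α → ℕ) (S : Finset (κ × α)) (x : κ → ℕ) : 0 ≤ gw pr S x := by
  refine Finset.prod_nonneg fun z _ => ?_
  split_ifs <;> positivity

omit [Fintype α] [DecidableEq α] [Fintype κ] in
theorem gw_inv {pr : α → ℕ} (hp : ∀ i, (pr i).Prime) (hinj : Function.Injective pr)
    {S : Finset (κ × α)} {l : κ} {i : α} (hS : (l, i) ∉ S) {x : κ → ℕ} (hx : pr i ∣ x l) :
    gw pr S x = gw pr S (Function.update x l (x l / pr i)) := by
  refine Finset.prod_congr rfl fun z hz => ?_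
  have h1 : pr z.2 ∣ x z.1 ↔ pr z.2 ∣ Function.update x l (x l / pr i) z.1 := by
    by_cases hl : z.1 = l
    · have hne : pr z.2 ≠ pr i := by
        intro h
        refine hS ?_
        have h2 := hinj h
        rw [← hl, ← h2]
        exact hz
      rw [hl, Function.update_self]
      constructor
      · intro h
        rw [← Nat.mul_div_cancel' hx] at h
        rcases (hp z.2).dvd_mul.1 h with h3 | h3
        · exact absurd ((Nat.prime_dvd_prime_iff_eq (hp _) (hp _)).1 h3) hne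
        · exact h3
      · intro h
        exact h.trans (Nat.div_dvd_of_dvd hx)
    · rw [Function.update_of_ne hl]
  by_cases h2 : pr z.2 ∣ x z.1
  · rw [if_pos h2, if_pos (h1.1 h2)]
  · rw [if_neg h2, if_neg fun h => h2 (h1.2 h)]

theorem gain_ind (pr : α → ℕ) (F : (κ → ℕ) → ℝ) (hp : ∀ i, (pr i).Prime)
    (hinj : Function.Injective pr) (hF : ∀ x, 0 ≤ F x) (hA : Anti F) (S : Finset (κ × α)) :
    ∑ x ∈ piDD κ pr, gw pr S x * (F x / ∏ l, (x l : ℝ)) ≤
      Real.exp (∑ z ∈ S, 3 / (pr z.2 : ℝ) ^ 2) * ∑ x ∈ piDD κ pr, F x / ∏ l, (x l : ℝ) := by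
  induction S using Finset.induction_on with
  | empty => simp [gw]
  | insert z S hz ih =>
    obtain ⟨l, i⟩ := z
    have h1 := gain_step pr F (gw pr S) i l hp hinj hF hA (gw_nonneg pr S)
      (fun x _ hx => gw_inv hp hinj hz hx)
    have h2 : ∑ x ∈ piDD κ pr, gw pr (insert (l, i) S) x * (F x / ∏ l, (x l : ℝ)) =
        ∑ x ∈ piDD κ pr, gw pr S x * (F x / ∏ l, (x l : ℝ)) + 3 / (pr i : ℝ) *
          ∑ x ∈ (piDD κ pr).filter (fun x => pr i ∣ x l),
            gw pr S x * (F x / ∏ l, (x l : ℝ)) := by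
      rw [Finset.sum_filter, Finset.mul_sum, ← Finset.sum_add_distrib]
      refine Finset.sum_congr rfl fun x _ => ?_
      rw [gw, Finset.prod_insert hz]
      show (if pr i ∣ x l then 1 + 3 / (pr i : ℝ) else 1) * gw pr S x * _ = _
      split_ifs <;> ring
    have hpi : (0 : ℝ) < pr i := by exact_mod_cast (hp i).pos
    have h3 : (0 : ℝ) ≤ 3 / pr i := by positivity
    have h4 : (0 : ℝ) ≤ ∑ x ∈ piDD κ pr, gw pr S x * (F x / ∏ l, (x l : ℝ)) :=
      Finset.sum_nonneg fun x _ => mul_nonneg (gw_nonneg pr S x)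
        (div_nonneg (hF x) (Finset.prod_nonneg fun l _ => Nat.cast_nonneg _))
    rw [h2, Finset.sum_insert hz, Real.exp_add]
    calc _ ≤ ∑ x ∈ piDD κ pr, gw pr S x * (F x / ∏ l, (x l : ℝ)) + 3 / (pr i : ℝ) *
          (1 / (pr i : ℝ) * ∑ x ∈ piDD κ pr, gw pr S x * (F x / ∏ l, (x l : ℝ))) := by
          gcongr
      _ = (3 / (pr i : ℝ) ^ 2 + 1) * ∑ x ∈ piDD κ pr, gw pr S x * (F x / ∏ l, (x l : ℝ)) := by
          field_simp
          ring
      _ ≤ Real.exp (3 / (pr i : ℝ) ^ 2) *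
          (Real.exp (∑ z ∈ S, 3 / (pr z.2 : ℝ) ^ 2) * ∑ x ∈ piDD κ pr, F x / ∏ l, (x l : ℝ)) := by
          have h5 := Real.add_one_le_exp (3 / (pr i : ℝ) ^ 2)
          exact mul_le_mul h5 ih h4 (Real.exp_pos _).le
      _ = _ := by ring

end

theorem gain : StGain := by
  intro α κ _ _ _ _ pr F hp hinj hF hA
  have h := gain_ind pr F hp hinj hF hA (univ : Finset (κ × α))
  have e1 : ∀ x : κ → ℕ, gw pr (univ : Finset (κ × α)) x =
      ∏ l, ∏ i, if pr i ∣ x l then 1 + 3 / (pr i : ℝ) else 1 := fun x => by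
    rw [gw, Fintype.prod_prod_type]
  have e2 : (∑ z : κ × α, 3 / (pr z.2 : ℝ) ^ 2 : ℝ) =
      3 * (Fintype.card κ : ℝ) * ∑ i, 1 / (pr i : ℝ) ^ 2 := by
    rw [Fintype.sum_prod_type]
    simp only [Finset.sum_const, Finset.card_univ, nsmul_eq_mul]
    rw [mul_comm (3 : ℝ), mul_assoc, Finset.mul_sum (a := (3 : ℝ))]
    congr 1
    refine Finset.sum_congr rfl fun i _ => ?_
    ring
  rw [e2] at h
  refine le_trans (le_of_eq ?_) h
  refine Finset.sum_congr rfl fun x _ => ?_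
  rw [e1]

end Pool.Agent.Helper90.MT
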