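import Pool.Agent.Helper90.MT.Def

/-! Galvin's lemma (part C3 of project MT). -/

namespace Pool.Agent.Helper90.MT

open Finset Filter

/-- `s` is bad: it fails `P`, or almost all one-point extensions are bad. -/
inductive Bad (P : Finset ℕ → Prop) (U : Ultrafilter ℕ) : Finset ℕ → Prop
  | base (s : Finset ℕ) (h : ¬ P s) : Bad P U s
  | step (s : Finset ℕ) (T : Set ℕ) (hT : T ∈ U) (h : ∀ a ∈ T, Bad P U (insert a s)) : Bad P U s

theorem galvin_mem_seg (Q : Set ℕ) (k x : ℕ) : x ∈ seg Q k ↔ x < k ∧ x ∈ Q := by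
  classical
  unfold seg
  simp

/-- diagonalisation -/
theorem galvin_diag (U : Ultrafilter ℕ) (A : Set ℕ) (hA : A ∈ U)
    (hU : ∀ n : ℕ, {m | n < m} ∈ U) (τ : Finset ℕ → Set ℕ) (hτ : ∀ s, τ s ∈ U) :
    ∃ B ⊆ A, B.Infinite ∧ ∀ (F : Finset ℕ) (b : ℕ), (F : Set ℕ) ⊆ B → b ∈ B →
      (∀ x ∈ F, x < b) → b ∈ τ F := by
  classical
  have hex : ∀ G : Finset ℕ, ∃ b, b ∈ A ∧ (∀ s ∈ G.powerset, b ∈ τ s) ∧ ∀ x ∈ G, x < b := by
    intro G
    have h1 : (⋂ s ∈ G.powerset, τ s) ∈ (U : Filter ℕ) :=
      (Filter.biInter_finset_mem G.powerset).2 fun s _ => hτ s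
    have h2 : (⋂ x ∈ G, {m | x < m}) ∈ (U : Filter ℕ) :=
      (Filter.biInter_finset_mem G).2 fun x _ => hU x
    obtain ⟨b, hb⟩ := Filter.nonempty_of_mem
      (Filter.inter_mem (Filter.inter_mem (show A ∈ (U : Filter ℕ) from hA) h1) h2)
    refine ⟨b, hb.1.1, fun s hs => ?_, fun x hx => ?_⟩
    · exact Set.mem_iInter₂.1 hb.1.2 s hs
    · exact Set.mem_iInter₂.1 hb.2 x hx
  choose β hβ1 hβ2 hβ3 using hex
  let G : ℕ → Finset ℕ := fun k => Nat.rec ∅ (fun _ g => insert (β g) g) k
  have hG1 : ∀ k, G (k + 1) = insert (β (G k)) (G k) := fun k => rfl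
  have hGm : Monotone G := monotone_nat_of_le_succ fun k => by
    rw [hG1]
    exact Finset.subset_insert _ _
  have hbm : StrictMono fun k => β (G k) := strictMono_nat_of_lt_succ fun k => by
    apply hβ3
    rw [hG1]
    exact Finset.mem_insert_self _ _
  refine ⟨Set.range fun k => β (G k), ?_, Set.infinite_range_of_injective hbm.injective, ?_⟩
  · rintro _ ⟨k, rfl⟩
    exact hβ1 _
  · rintro F _ hF ⟨k, rfl⟩ hlt
    apply hβ2
    rw [Finset.mem_powerset]
    intro x hx
    obtain ⟨j, rfl⟩ := hF hx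
    have hjk : j < k := hbm.lt_iff_lt.1 (hlt _ hx)
    apply hGm (Nat.succ_le_of_lt hjk)
    show β (G j) ∈ G (j + 1)
    rw [hG1]
    exact Finset.mem_insert_self _ _

theorem galvin_rank (P : Finset ℕ → Prop) (U : Ultrafilter ℕ) (s : Finset ℕ) (h : Bad P U s) :
    ∃ τ : Finset ℕ → Set ℕ, (∀ t, τ t ∈ U) ∧ ∀ (Q : Set ℕ) (k : ℕ), Q.Infinite → seg Q k = s →
      (∀ q ∈ Q, k ≤ q → q ∈ τ (seg Q q)) → ∃ k', ¬ P (seg Q k') := by
  classical
  induction h with
  | base s h =>
    refine ⟨fun _ => Set.univ, fun _ => Filter.univ_mem, fun Q k _ hs _ => ⟨k, ?_⟩⟩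
    rw [hs]
    exact h
  | step s T hT _ ih =>
    have ih' : ∀ a : ℕ, ∃ τ : Finset ℕ → Set ℕ, (∀ t, τ t ∈ U) ∧ (a ∈ T →
        ∀ (Q : Set ℕ) (k : ℕ), Q.Infinite → seg Q k = insert a s →
          (∀ q ∈ Q, k ≤ q → q ∈ τ (seg Q q)) → ∃ k', ¬ P (seg Q k')) := by
      intro a
      by_cases ha : a ∈ T
      · obtain ⟨τ, h1, h2⟩ := ih a ha
        exact ⟨τ, h1, fun _ => h2⟩
      · exact ⟨fun _ => Set.univ, fun _ => Filter.univ_mem, fun h => absurd h ha⟩
    choose τ' h1 h2 using ih'
    refine ⟨fun t => if h : (t \ s).Nonempty then τ' ((t \ s).min' h) t else T, ?_, ?_⟩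
    · intro t
      by_cases ht : (t \ s).Nonempty
      · simp only [dif_pos ht]
        exact h1 _ _
      · simp only [dif_neg ht]
        exact hT
    · intro Q k hQ hs hτ
      -- the next element of Q
      have hne : ∃ a, a ∈ Q ∧ k ≤ a := by
        obtain ⟨a, ha, hk⟩ := hQ.exists_gt k
        exact ⟨a, ha, hk.le⟩
      obtain ⟨a, ⟨haQ, hka⟩, hmin⟩ : ∃ a, (a ∈ Q ∧ k ≤ a) ∧ ∀ b, b ∈ Q ∧ k ≤ b → a ≤ b :=
        ⟨Nat.find hne, Nat.find_spec hne, fun b hb => Nat.find_min' hne hb⟩
      have hsa : seg Q a = s := by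
        rw [← hs]
        ext x
        rw [galvin_mem_seg, galvin_mem_seg]
        constructor
        · rintro ⟨hxa, hxQ⟩
          refine ⟨?_, hxQ⟩
          by_contra hkx
          exact absurd (hmin x ⟨hxQ, not_lt.1 hkx⟩) (not_le.2 hxa)
        · rintro ⟨hxk, hxQ⟩
          exact ⟨lt_of_lt_of_le hxk hka, hxQ⟩
      have haT : a ∈ T := by
        have := hτ a haQ hka
        rw [hsa] at this
        have hemp : ¬ (s \ s).Nonempty := by simp
        simp only [dif_neg hemp] at this
        exact this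
      have hins : seg Q (a + 1) = insert a s := by
        ext x
        rw [galvin_mem_seg, Finset.mem_insert, ← hsa, galvin_mem_seg]
        constructor
        · rintro ⟨hxa, hxQ⟩
          rcases (Nat.lt_succ_iff.1 hxa).eq_or_lt with rfl | hlt
          · exact Or.inl rfl
          · exact Or.inr ⟨hlt, hxQ⟩
        · rintro (rfl | ⟨hlt, hxQ⟩)
          · exact ⟨Nat.lt_succ_self _, haQ⟩
          · exact ⟨Nat.lt_succ_of_lt hlt, hxQ⟩
      refine h2 a haT Q (a + 1) hQ hins fun q hq haq => ?_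
      have hq1 := hτ q hq (by omega)
      have hmem : a ∈ seg Q q \ s := by
        rw [Finset.mem_sdiff, galvin_mem_seg]
        refine ⟨⟨by omega, haQ⟩, ?_⟩
        rw [← hs, galvin_mem_seg]
        omega
      have hnon : (seg Q q \ s).Nonempty := ⟨a, hmem⟩
      have hmin' : (seg Q q \ s).min' hnon = a := by
        refine le_antisymm (Finset.min'_le _ _ hmem) (Finset.le_min' _ _ _ fun x hx => ?_)
        rw [Finset.mem_sdiff, galvin_mem_seg] at hx
        apply hmin
        refine ⟨hx.1.2, ?_⟩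
        by_contra hkx
        apply hx.2
        rw [← hs, galvin_mem_seg]
        exact ⟨not_le.1 hkx, hx.1.2⟩
      simp only [dif_pos hnon, hmin'] at hq1
      exact hq1

theorem galvin : StGalvin := by
  classical
  intro P A hA hyp
  have hne : (cofinite ⊓ 𝓟 A).NeBot := hA.cofinite_inf_principal_neBot
  let U : Ultrafilter ℕ := Ultrafilter.of (cofinite ⊓ 𝓟 A)
  have hle : (U : Filter ℕ) ≤ cofinite ⊓ 𝓟 A := Ultrafilter.of_le _
  have hAU : A ∈ U := hle (Filter.mem_inf_of_right (Filter.mem_principal_self A))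
  have hU : ∀ n : ℕ, {m | n < m} ∈ U := by
    intro n
    apply hle
    apply Filter.mem_inf_of_left
    rw [Filter.mem_cofinite]
    refine (Set.finite_le_nat n).subset fun x hx => ?_
    simpa using hx
  by_cases hbad : Bad P U ∅
  · exfalso
    obtain ⟨τ, hτ1, hτ2⟩ := galvin_rank P U ∅ hbad
    obtain ⟨B, hBA, hBinf, hB⟩ := galvin_diag U A hAU hU τ hτ1
    obtain ⟨Q, hQB, hQinf, hQ⟩ := hyp B hBA hBinf
    obtain ⟨k', hk'⟩ := hτ2 Q 0 hQinf (by
      ext x
      rw [galvin_mem_seg]
      simp) (fun q hq _ => by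
        apply hB
        · intro x hx
          have hx' : x ∈ seg Q q := hx
          rw [galvin_mem_seg] at hx'
          exact hQB hx'.2
        · exact hQB hq
        · intro x hx
          rw [galvin_mem_seg] at hx
          exact hx.1)
    exact hk' (hQ k')
  · have hset : ∀ s, ¬ Bad P U s → {a | ¬ Bad P U (insert a s)} ∈ U := by
      intro s hs
      by_contra hcon
      have h2 : {a | ¬ Bad P U (insert a s)}ᶜ ∈ U := Ultrafilter.compl_mem_iff_notMem.2 hcon
      apply hs
      refine Bad.step s _ h2 fun a ha => ?_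
      by_contra h3
      exact ha h3
    obtain ⟨B, hBA, hBinf, hB⟩ := galvin_diag U A hAU hU
      (fun s => if ¬ Bad P U s then {a | ¬ Bad P U (insert a s)} else Set.univ) (fun s => by
        by_cases hs : ¬ Bad P U s
        · simp only [if_pos hs]
          exact hset s hs
        · simp only [if_neg hs]
          exact Filter.univ_mem)
    refine ⟨B, hBA, hBinf, ?_⟩
    have key : ∀ F : Finset ℕ, (F : Set ℕ) ⊆ B → ¬ Bad P U F := by
      intro F
      induction F using Finset.induction_on_max with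
      | empty => intro _; exact hbad
      | insert a s hlt ih =>
        intro hF
        have hs : ¬ Bad P U s := ih fun x hx => hF (by
          rw [Finset.coe_insert]
          exact Set.mem_insert_of_mem _ hx)
        have h3 := hB s a (fun x hx => hF (by
          rw [Finset.coe_insert]
          exact Set.mem_insert_of_mem _ hx)) (hF (by
            rw [Finset.coe_insert]
            exact Set.mem_insert _ _)) hlt
        simp only [if_pos hs] at h3
        exact h3
    intro F hF
    by_contra hP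
    exact key F hF (Bad.base F hP)

end Pool.Agent.Helper90.MT
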