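import Pool.Agent.Helper90.MT.StM

/-!
Project MT, module M-Game: the dichotomy for block sequences (Milliken-Galvin type game).
-/

namespace Pool.Agent.Helper90.MT

open Finset Filter

/-- `s` is bad: it fails `P`, or almost all one-block extensions are bad. -/
inductive GBad (P : List (Finset ℕ) → Prop) (U : Ultrafilter (Finset ℕ)) :
    List (Finset ℕ) → Prop
  | base (s : List (Finset ℕ)) (h : ¬ P s) : GBad P U s
  | step (s : List (Finset ℕ)) (T : Set (Finset ℕ)) (hT : T ∈ U)
      (h : ∀ D ∈ T, GBad P U (s ++ [D])) : GBad P U s

theorem game_rank (P : List (Finset ℕ) → Prop) (U : Ultrafilter (Finset ℕ))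
    (s : List (Finset ℕ)) (h : GBad P U s) :
    ∃ τ : List (Finset ℕ) → Set (Finset ℕ), (∀ t, τ t ∈ U) ∧ ∀ e : ℕ → Finset ℕ,
      (List.range s.length).map e = s →
      (∀ k, s.length ≤ k → e k ∈ τ ((List.range k).map e)) →
      ∃ k, ¬ P ((List.range k).map e) := by
  classical
  induction h with
  | base s h =>
    refine ⟨fun _ => Set.univ, fun _ => Filter.univ_mem, fun e hs _ => ⟨s.length, ?_⟩⟩
    rw [hs]
    exact h
  | step s T hT _ ih =>
    have ih' : ∀ D : Finset ℕ, ∃ τ : List (Finset ℕ) → Set (Finset ℕ), (∀ t, τ t ∈ U) ∧ (D ∈ T →
        ∀ e : ℕ → Finset ℕ, (List.range (s ++ [D]).length).map e = s ++ [D] →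
          (∀ k, (s ++ [D]).length ≤ k → e k ∈ τ ((List.range k).map e)) →
          ∃ k, ¬ P ((List.range k).map e)) := by
      intro D
      by_cases hD : D ∈ T
      · obtain ⟨τ, h1, h2⟩ := ih D hD
        exact ⟨τ, h1, fun _ => h2⟩
      · exact ⟨fun _ => Set.univ, fun _ => Filter.univ_mem, fun h => absurd h hD⟩
    choose τ' h1 h2 using ih'
    refine ⟨fun t => if s.length < t.length then τ' (t.getD s.length ∅) t else T, ?_, ?_⟩
    · intro t
      by_cases ht : s.length < t.length
      · simp only [if_pos ht]
        exact h1 _ _
      · simp only [if_neg ht]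
        exact hT
    · intro e hs hτ
      have hT0 : e s.length ∈ T := by
        have h3 := hτ s.length le_rfl
        have h4 : ¬ s.length < ((List.range s.length).map e).length := by simp
        simp only [if_neg h4] at h3
        exact h3
      have hlen : (s ++ [e s.length]).length = s.length + 1 := by simp
      refine h2 (e s.length) hT0 e ?_ ?_
      · rw [hlen, List.range_succ, List.map_append, hs]
        rfl
      · intro k hk
        rw [hlen] at hk
        have h3 := hτ k (by omega)
        have h4 : s.length < ((List.range k).map e).length := by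
          rw [List.length_map, List.length_range]; omega
        have h5 : ((List.range k).map e).getD s.length ∅ = e s.length := by
          rw [List.getD_eq_getElem _ _ h4]
          simp
        simp only [if_pos h4, h5] at h3
        exact h3

/-- Module M-Game. -/
theorem game (h1 : StUlt) (h2 : StBS) : StGame := by
  classical
  intro P
  obtain ⟨U, hU⟩ := h1
  by_cases hbad : GBad P U []
  · right
    obtain ⟨τ, hτ1, hτ2⟩ := game_rank P U [] hbad
    obtain ⟨D, hD, hDτ⟩ := h2 U hU τ hτ1
    refine ⟨D, hD, fun i hi => ?_⟩
    refine hτ2 (fun t => (Ico (i t) (i (t + 1))).biUnion D) (by simp) ?_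
    intro k _
    have hLE : (List.range k).map (fun t => Ico (i t) (i (t + 1))) ++ [Ico (i k) (i (k + 1))] =
        (List.range (k + 1)).map (fun t => Ico (i t) (i (t + 1))) := by
      rw [List.range_succ, List.map_append]
      rfl
    have h3 := hDτ ((List.range k).map (fun t => Ico (i t) (i (t + 1)))) (Ico (i k) (i (k + 1)))
      (by
        rw [hLE, List.pairwise_map]
        refine List.Pairwise.imp ?_ (List.pairwise_lt_range (n := k + 1))
        intro a b hab x hx y hy
        rw [Finset.mem_Ico] at hx hy
        have : i (a + 1) ≤ i b := hi.monotone hab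
        omega)
      (by
        rw [hLE]
        intro F hF
        obtain ⟨t, _, rfl⟩ := List.mem_map.1 hF
        exact Finset.nonempty_Ico.2 (hi (Nat.lt_succ_self t)))
    rw [List.map_map] at h3
    exact h3
  · left
    have hset : ∀ s, ¬ GBad P U s → {D | ¬ GBad P U (s ++ [D])} ∈ U := by
      intro s hs
      by_contra hcon
      have h2 : {D | ¬ GBad P U (s ++ [D])}ᶜ ∈ U := Ultrafilter.compl_mem_iff_notMem.2 hcon
      apply hs
      refine GBad.step s _ h2 fun D hD => ?_
      by_contra h3
      exact hD h3
    obtain ⟨D, hD, hDτ⟩ := h2 U hU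
      (fun s => if ¬ GBad P U s then {D | ¬ GBad P U (s ++ [D])} else Set.univ) (fun s => by
        by_cases hs : ¬ GBad P U s
        · simp only [if_pos hs]
          exact hset s hs
        · simp only [if_neg hs]
          exact Filter.univ_mem)
    refine ⟨D, hD, ?_⟩
    have key : ∀ L : List (Finset ℕ), L.Pairwise Blt → (∀ F ∈ L, F.Nonempty) →
        ¬ GBad P U (L.map (fun F => F.biUnion D)) := by
      intro L
      induction L using List.reverseRecOn with
      | nil => intro _ _; exact hbad
      | append_singleton L E ih =>
        intro hL hne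
        have hs : ¬ GBad P U (L.map (fun F => F.biUnion D)) :=
          ih (List.pairwise_append.1 hL).1 fun F hF => hne F (List.mem_append_left _ hF)
        have h3 := hDτ L E hL hne
        simp only [if_pos hs] at h3
        rw [List.map_append]
        exact h3
    intro L hL hne
    by_contra hP
    exact key L hL hne (GBad.base _ hP)

end Pool.Agent.Helper90.MT
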