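import Pool.Agent.Helper90.MT.StS

/-!
Project MT, module S-L0m: positivity of the parameters.
-/

namespace Pool.Agent.Helper90.MT

open Finset

namespace L0m

lemma half_sum (L : ℕ) : ∑ i ∈ range L, (1 / 2 : ℝ) ^ (i + 1) + (1 / 2 : ℝ) ^ L = 1 := by
  induction L with
  | zero => simp
  | succ n ih => rw [sum_range_succ, pow_succ (1 / 2 : ℝ) n]; linarith

lemma gs_nonneg (ρ : ℝ) (L d : ℕ) : 0 ≤ gs ρ L d := by
  unfold gs
  apply add_nonneg
  · apply sum_nonneg; intro i _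
    apply mul_nonneg (by positivity); split_ifs <;> norm_num
  · apply mul_nonneg (by positivity); split_ifs <;> norm_num

lemma gs_le_one (ρ : ℝ) (L d : ℕ) : gs ρ L d ≤ 1 := by
  rw [← half_sum L]
  unfold gs
  apply add_le_add
  · apply sum_le_sum; intro i _
    apply mul_le_of_le_one_right (by positivity); split_ifs <;> norm_num
  · apply mul_le_of_le_one_right (by positivity); split_ifs <;> norm_num

lemma gs_one (ρ : ℝ) (L : ℕ) (hρ : 0 ≤ ρ) : gs ρ L 1 = 1 := by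
  conv_rhs => rw [← half_sum L]
  unfold gs
  have h : ∀ i : ℕ, (((1 : ℕ) : ℝ) ≤ Real.exp (2 ^ i * ρ)) := by
    intro i
    push_cast
    exact Real.one_le_exp (by positivity)
  congr 1
  · apply sum_congr rfl; intro i _
    rw [if_pos (h i), mul_one]
  · rw [if_pos (h L), mul_one]

lemma gs_anti (ρ : ℝ) (L a b : ℕ) (h : a ≤ b) : gs ρ L b ≤ gs ρ L a := by
  have hab : (a : ℝ) ≤ b := by exact_mod_cast h
  have key : ∀ t : ℝ, (if (b : ℝ) ≤ t then (1 : ℝ) else 0) ≤ (if (a : ℝ) ≤ t then 1 else 0) := by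
    intro t
    split_ifs with h1 h2
    · exact le_refl _
    · exact absurd (hab.trans h1) h2
    · norm_num
    · exact le_refl _
  unfold gs
  apply add_le_add
  · apply sum_le_sum; intro i _
    exact mul_le_mul_of_nonneg_left (key _) (by positivity)
  · exact mul_le_mul_of_nonneg_left (key _) (by positivity)

lemma Rbb_gt {M : ℕ} (hM : 2 ≤ M) (j : ℕ) : 1 < Rbb M j := by
  unfold Rbb
  apply Real.one_lt_rpow
  · exact_mod_cast (by omega : 1 < M)
  · positivity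

lemma rho_nonneg {M : ℕ} (hM : 2 ≤ M) (j : ℕ) : 0 ≤ rho M j := by
  unfold rho
  apply div_nonneg (Real.log_nonneg (Rbb_gt hM j).le) (by positivity)

lemma okG {M : ℕ} (hM : 2 ≤ M) (J : ℕ) : OkG J (Rbb M) (gg M) where
  nonneg := fun _ _ => gs_nonneg _ _ _
  le_one := fun _ _ => gs_le_one _ _ _
  one := fun j => gs_one _ _ (rho_nonneg hM j)
  anti := fun _ _ _ _ h => gs_anti _ _ _ _ h
  hRb := Rbb_gt hM

lemma pp_prime (W M : ℕ) (i : PP W M) : (pp W M i).Prime := by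
  have := i.2
  unfold PP at this
  rw [mem_filter] at this
  exact this.2.1

lemma pp_ndvd (W M : ℕ) (i : PP W M) : ¬ pp W M i ∣ W := by
  have := i.2
  unfold PP at this
  rw [mem_filter] at this
  exact this.2.2.2

lemma pp_large {ι : Type} [Fintype ι] {sh grp : ι → ℕ} {J w W v : ℕ} (hf : Fix sh grp J w W v)
    (M : ℕ) (i : PP W M) : w < pp W M i := by
  by_contra h
  exact pp_ndvd W M i (hf.div _ (pp_prime W M i) (not_lt.1 h))

lemma pp_inj (W M : ℕ) : Function.Injective (pp W M) := fun _ _ h => Subtype.ext h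

lemma ok {ι : Type} [Fintype ι] {sh grp : ι → ℕ} {J w W v : ℕ}
    (hf : Fix sh grp J w W v) (M : ℕ) : Ok (pp W M) sh (Fintype.card ι) W v where
  prime := pp_prime W M
  inj := pp_inj W M
  large := by
    intro i
    have h1 := pp_large hf M i
    have h2 := hf.hw
    nlinarith
  dist := by
    intro i h h' hne hc
    have h1 := pp_large hf M i
    have h2 := hf.lt h
    have h3 := hf.lt h'
    have h4 := Nat.ModEq.eq_of_lt_of_lt hc (by omega) (by omega)
    exact hne (hf.inj h4)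
  W0 := hf.W0
  cop := fun i => (Nat.Prime.coprime_iff_not_dvd (pp_prime W M i)).2 (pp_ndvd W M i)
  hv := hf.hv

lemma prod_Rbb (M J : ℕ) (hM : 2 ≤ M) : ∏ j ∈ range J, Rbb M j ≤ (M : ℝ) ^ ((1 : ℝ) / 30) := by
  have hM' : (1 : ℝ) ≤ M := by exact_mod_cast (by omega : 1 ≤ M)
  have h : ∏ j ∈ range J, Rbb M j = (M : ℝ) ^ (∑ j ∈ range J, (1 : ℝ) / (30 * 2 ^ (j + 1))) := by
    exact (Real.rpow_sum_of_pos (by linarith) (fun j : ℕ => (1 : ℝ) / (30 * 2 ^ (j + 1)))
      (range J)).symm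
  rw [h]
  apply Real.rpow_le_rpow_of_exponent_le hM'
  have h2 : ∑ j ∈ range J, (1 : ℝ) / (30 * 2 ^ (j + 1)) =
      (1 / 30) * ∑ j ∈ range J, (1 / 2 : ℝ) ^ (j + 1) := by
    rw [mul_sum]
    apply sum_congr rfl; intro j _
    rw [one_div_pow]; field_simp
  rw [h2]
  have h3 := half_sum J
  have h4 : (0 : ℝ) < (1 / 2 : ℝ) ^ J := by positivity
  nlinarith

lemma sq_sum (w : ℕ) (hw : 0 < w) (n : ℕ) :
    ∑ k ∈ range n, 1 / ((w + 1 + k : ℕ) : ℝ) ^ 2 ≤ 1 / (w : ℝ) - 1 / ((w + n : ℕ) : ℝ) := by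
  have hw' : (0 : ℝ) < w := by exact_mod_cast hw
  induction n with
  | zero => simp
  | succ n ih =>
    rw [sum_range_succ]
    have h1 : 1 / ((w + 1 + n : ℕ) : ℝ) ^ 2 ≤ 1 / ((w + n : ℕ) : ℝ) - 1 / ((w + (n + 1) : ℕ) : ℝ) := by
      push_cast
      have hn : (0 : ℝ) ≤ n := by positivity
      have e : 1 / ((w : ℝ) + n) - 1 / (w + (n + 1)) = 1 / ((w + n) * (w + (n + 1))) := by
        field_simp; ring
      rw [e]
      apply one_div_le_one_div_of_le (by positivity)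
      nlinarith
    linarith

lemma inv_sq_le {ι : Type} [Fintype ι] {sh grp : ι → ℕ} {J w W v : ℕ}
    (hf : Fix sh grp J w W v) (M : ℕ) :
    ∑ i, 1 / (pp W M i : ℝ) ^ 2 ≤ 1 / (1000 * ((Fintype.card ι : ℝ) + 1) ^ 2) := by
  have hw0 : 0 < w := lt_of_lt_of_le (by positivity) hf.hw
  have h1 : ∑ i, 1 / (pp W M i : ℝ) ^ 2 ≤ ∑ n ∈ Ico (w + 1) (w + 1 + M), 1 / (n : ℝ) ^ 2 := by
    have e : ∑ i, 1 / (pp W M i : ℝ) ^ 2 = ∑ n ∈ PP W M, 1 / (n : ℝ) ^ 2 := by
      rw [← sum_coe_sort (PP W M) (fun n => 1 / (n : ℝ) ^ 2)]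
      rfl
    rw [e]
    apply sum_le_sum_of_subset_of_nonneg
    · intro n hn
      have h2 := pp_large hf M ⟨n, hn⟩
      have h3 : pp W M ⟨n, hn⟩ = n := rfl
      rw [h3] at h2
      unfold PP at hn
      rw [mem_filter, mem_range] at hn
      rw [mem_Ico]; omega
    · intro i _ _; positivity
  have h2 : ∑ n ∈ Ico (w + 1) (w + 1 + M), 1 / (n : ℝ) ^ 2 =
      ∑ k ∈ range M, 1 / ((w + 1 + k : ℕ) : ℝ) ^ 2 := by
    rw [sum_Ico_eq_sum_range]
    congr 2; omega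
  have h3 := sq_sum w hw0 M
  have h4 : (0 : ℝ) ≤ 1 / ((w + M : ℕ) : ℝ) := by positivity
  have h5 : 1 / (w : ℝ) ≤ 1 / (1000 * ((Fintype.card ι : ℝ) + 1) ^ 2) := by
    apply one_div_le_one_div_of_le (by positivity)
    have := hf.hw
    exact_mod_cast this
  linarith

lemma one_mem_DD {α : Type} [Fintype α] [DecidableEq α] (pr : α → ℕ) : 1 ∈ DD pr := by
  unfold DD
  rw [mem_image]
  exact ⟨∅, by simp, by simp⟩

lemma one_le_Tj {ι : Type} [Fintype ι] [DecidableEq ι] (W M : ℕ) (hM : 2 ≤ M) (grp : ι → ℕ)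
    (J j : ℕ) : 1 ≤ Tj W M grp J j := by
  classical
  unfold Tj TJ
  have hY : Yg grp J (Rbb M) (gg M) (fun _ => 1) = 1 := by
    unfold Yg
    have h1 : ∀ j, gg M j 1 = 1 := (okG hM J).one
    simp only [h1, prod_const_one, Nat.cast_one, mul_one]
    apply prod_eq_one
    intro j _
    rw [if_pos (Rbb_gt hM j).le]
  refine le_trans ?_ (single_le_sum (f := fun x : ι → ℕ => (∏ h, (x h : ℝ))⁻¹ *
    Yg grp J (Rbb M) (gg M) x ^ 2) ?_ (a := fun _ => 1) ?_)
  · dsimp only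
    rw [hY]; simp
  · intro x _; positivity
  · rw [mem_filter]
    refine ⟨?_, fun _ _ => rfl⟩
    unfold piDD
    rw [Fintype.mem_piFinset]
    intro _; exact one_mem_DD _

lemma one_le_g1 (W M : ℕ) (hM : 2 ≤ M) (j : ℕ) : 1 ≤ g1 W M j := by
  unfold g1 G1
  refine le_trans ?_ (single_le_sum (f := fun d : ℕ => gg M j d / (d : ℝ)) ?_ (one_mem_DD _))
  · rw [(okG hM 0).one]; simp
  · intro d _; exact div_nonneg ((okG hM 0).nonneg _ _) (by positivity)

lemma one_le_g2 (W M : ℕ) (hM : 2 ≤ M) (j : ℕ) : 1 ≤ g2 W M j := by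
  unfold g2 G2
  refine le_trans ?_ (single_le_sum (f := fun d : ℕ => gg M j d ^ 2 / (d : ℝ)) ?_ (one_mem_DD _))
  · rw [(okG hM 0).one]; simp
  · intro d _; positivity

end L0m

open L0m in
theorem l0 : StL0 := by
  intro ι _ _ sh grp J w W v hf
  refine ⟨2, fun M hM => ⟨okG hM J, ok hf M, prod_Rbb M J hM, inv_sq_le hf M,
    one_le_Tj W M hM grp J, one_le_g1 W M hM, one_le_g2 W M hM⟩⟩

end Pool.Agent.Helper90.MT
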