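import Pool.Agent.Helper90.MT.StS

/-!
Project MT, module S-L1m: upper bounds with primes at the positions `D`.
-/

namespace Pool.Agent.Helper90.MT

open Finset

namespace L1m

theorem asym (W n : ℕ) (hW : 0 < W) : ∃ M₁ : ℕ, ∀ M : ℕ, M₁ ≤ M →
    3 * (M : ℝ) ^ ((1 : ℝ) / 5) * (1 + Real.log M) ^ n ≤
      (11 / 1000) * ((M : ℝ) / 10 / W) / Real.log M ^ 2 := by
  have hW' : (0 : ℝ) < W := by exact_mod_cast hW
  have h1 : (fun x : ℝ => Real.log x ^ ((n + 2 : ℕ) : ℝ)) =o[Filter.atTop]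
      fun x : ℝ => x ^ ((4 : ℝ) / 5) :=
    isLittleO_log_rpow_rpow_atTop _ (by norm_num)
  have hc : (0 : ℝ) < (11 / 1000) / 10 / W / 3 / 2 ^ n := by positivity
  have h2 := h1.bound hc
  have h3 : ∀ᶠ M : ℕ in Filter.atTop, ‖Real.log (M : ℝ) ^ ((n + 2 : ℕ) : ℝ)‖ ≤
      (11 / 1000) / 10 / W / 3 / 2 ^ n * ‖(M : ℝ) ^ ((4 : ℝ) / 5)‖ :=
    tendsto_natCast_atTop_atTop.eventually h2
  have h4 : ∀ᶠ M : ℕ in Filter.atTop, (3 : ℕ) ≤ M := Filter.eventually_ge_atTop 3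
  obtain ⟨M₁, hM₁⟩ := Filter.eventually_atTop.1 (h3.and h4)
  refine ⟨M₁, fun M hM => ?_⟩
  obtain ⟨h5, h6⟩ := hM₁ M hM
  have hM3 : (3 : ℝ) ≤ M := by exact_mod_cast h6
  have hM0 : (0 : ℝ) < M := by linarith
  have hlog : 1 ≤ Real.log M := by
    rw [Real.le_log_iff_exp_le hM0]
    have := Real.exp_one_lt_d9
    linarith
  rw [Real.rpow_natCast, Real.norm_of_nonneg (by positivity),
    Real.norm_of_nonneg (by positivity)] at h5
  rw [le_div_iff₀ (by positivity)]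
  have h7 : (1 + Real.log M) ^ n ≤ 2 ^ n * Real.log M ^ n := by
    rw [← mul_pow]
    exact pow_le_pow_left₀ (by positivity) (by linarith) n
  have h8 : (M : ℝ) = (M : ℝ) ^ ((1 : ℝ) / 5) * (M : ℝ) ^ ((4 : ℝ) / 5) := by
    rw [← Real.rpow_add hM0]
    norm_num
  have h9 : (0 : ℝ) ≤ (M : ℝ) ^ ((1 : ℝ) / 5) := by positivity
  calc 3 * (M : ℝ) ^ ((1 : ℝ) / 5) * (1 + Real.log M) ^ n * Real.log M ^ 2
      ≤ 3 * (M : ℝ) ^ ((1 : ℝ) / 5) * (2 ^ n * Real.log M ^ n) * Real.log M ^ 2 := by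
        gcongr
    _ = 3 * (M : ℝ) ^ ((1 : ℝ) / 5) * 2 ^ n * Real.log M ^ (n + 2) := by ring
    _ ≤ 3 * (M : ℝ) ^ ((1 : ℝ) / 5) * 2 ^ n * ((11 / 1000) / 10 / W / 3 / 2 ^ n *
        (M : ℝ) ^ ((4 : ℝ) / 5)) := by
        gcongr
    _ = (11 / 1000) * (((M : ℝ) ^ ((1 : ℝ) / 5) * (M : ℝ) ^ ((4 : ℝ) / 5)) / 10 / W) := by
        field_simp
    _ = (11 / 1000) * ((M : ℝ) / 10 / W) := by rw [← h8]

end L1m

open L1m in
theorem l1 (h0 : StL0) (h1 : StYg) (h2 : StS9) (h3 : StFac) (h4 : StGU) (h5 : StTent)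
    (h6 : StCheb) (h7 : StL3) (h8 : StDD) : StL1 := by
  classical
  intro ι _ _ sh grp J w W v hF
  obtain ⟨Ma, hMa⟩ := h0 ι sh grp J w W v hF
  obtain ⟨Mb, hMb⟩ := h6
  obtain ⟨Mc, hMc⟩ := h7 W 0 hF.W0
  obtain ⟨Md, hMd⟩ := asym W (4 * Fintype.card ι + 4) hF.W0
  refine ⟨Ma + Mb + Mc + Md + 3, fun M hM j hj D hD hD2 => ?_⟩
  obtain ⟨hOkG, hOk, hRb, hsum, hTj, hg1, hg2⟩ := hMa M (by omega)
  obtain ⟨hX1, hX0u, hX0⟩ := hMb M (by omega)
  obtain ⟨hSplow, hSpup, -, -⟩ := hMc M (by omega)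
  have hasym := hMd M (by omega)
  obtain ⟨ht0, ht1, htout, htlip, htEq⟩ := h5 M (by omega)
  obtain ⟨hY0, hY1, hYa, hYs⟩ := h1 ι grp J (Rbb M) (gg M) hOkG hF.hgrp
  have hM3 : (3 : ℝ) ≤ M := by
    have : (3 : ℕ) ≤ M := by omega
    exact_mod_cast this
  have hM0 : (0 : ℝ) < M := by linarith
  have hW0 : (0 : ℝ) < W := by exact_mod_cast hF.W0
  have hlog : 1 ≤ Real.log M := by
    rw [Real.le_log_iff_exp_le hM0]
    have := Real.exp_one_lt_d9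
    linarith
  have hX0p : 0 < X0 M := by
    refine lt_of_lt_of_le ?_ hX0
    positivity
  have hSp : 0 < Sp W M := by
    refine lt_of_lt_of_le ?_ hSplow
    have : (0 : ℝ) < (W.totient : ℝ) := by
      exact_mod_cast Nat.totient_pos.2 hF.W0
    positivity
  set Z : ℝ := (M : ℝ) ^ ((1 : ℝ) / 30) with hZ
  have hZ1 : 1 ≤ Z := Real.one_le_rpow (by linarith) (by norm_num)
  set K := Fintype.card ι with hK
  set Q := ∑ i, 1 / (pp W M i : ℝ) ^ 2 with hQ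
  have hQ0 : 0 ≤ Q := sum_nonneg fun i _ => by positivity
  have hK0 : (0 : ℝ) ≤ K := Nat.cast_nonneg K
  have hQ8 : Q ≤ 1 / 8 := by
    refine hsum.trans ?_
    rw [div_le_div_iff₀ (by positivity) (by norm_num)]
    nlinarith
  have hS9 := h2 (PP W M) ι (pp W M) sh W v D (Yg grp J (Rbb M) (gg M)) (Ioc M (4 * M)) (tent M)
    (X0 M) 3 Z Z hOk hD2 hX0p.le (by norm_num) htEq ht0 hY0 hY1 hYa hZ1 hZ1
    (fun x _ hx => (hYs x hx).trans hRb) hQ8
  -- the normalising sum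
  have hZ30 : Z ^ 30 ≤ (M : ℝ) := by
    rw [hZ, ← Real.rpow_natCast, ← Real.rpow_mul hM0.le]
    norm_num
  have hSW : ∑ d ∈ (DD (pp W M)).filter (fun d : ℕ => (d : ℝ) ≤ Z), 1 / (d : ℝ) = Sp W M := by
    have := h8 W M Z hF.W0 hZ1 hZ30
    rw [Sp]
    convert this
  -- the factorisation
  have hFull : Full (pp W M) (Yg grp J (Rbb M) (gg M)) D ≤
      Tj W M grp J j * (g1 W M j ^ (2 * #D) * g2 W M j ^ (KK j - #D)) := by
    rw [h3 (PP W M) ι (pp W M) grp J (Rbb M) (gg M) j D hOk.prime hOk.inj hOkG hF.hgrp hj hD]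
    have hgu := h4 (PP W M) ι (pp W M) grp J (Rbb M) (gg M) j D hOk.prime hOk.inj hOkG hF.hgrp
      hj hD
    have hcard : #(univ.filter (fun h => grp h = j)) = KK j := by
      have := hF.card j hj
      convert this
    rw [hcard] at hgu
    apply mul_le_mul_of_nonneg_left hgu
    have := hTj j
    unfold Tj at this
    linarith
  have hB0 : 0 ≤ Tj W M grp J j * (g1 W M j ^ (2 * #D) * g2 W M j ^ (KK j - #D)) := by
    have a1 := hTj j
    have a2 := hg1 j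
    have a3 := hg2 j
    positivity
  have hB1 : 1 ≤ Tj W M grp J j * (g1 W M j ^ (2 * #D) * g2 W M j ^ (KK j - #D)) := by
    have a1 := hTj j
    have a2 : 1 ≤ g1 W M j ^ (2 * #D) := one_le_pow₀ (hg1 j)
    have a3 : 1 ≤ g2 W M j ^ (KK j - #D) := one_le_pow₀ (hg2 j)
    have a4 := one_le_mul_of_one_le_of_one_le a2 a3
    exact one_le_mul_of_one_le_of_one_le a1 a4
  set F := Tj W M grp J j * (g1 W M j ^ (2 * #D) * g2 W M j ^ (KK j - #D)) with hFdef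
  -- the exponential factor
  have hexp : Real.exp ((3 * (K : ℝ) + 8) * Q) ≤ 1009 / 1000 := by
    have e1 : (3 * (K : ℝ) + 8) * Q ≤ 8 / 1000 := by
      calc (3 * (K : ℝ) + 8) * Q ≤ (3 * (K : ℝ) + 8) * (1 / (1000 * ((K : ℝ) + 1) ^ 2)) := by
            gcongr
        _ ≤ 8 / 1000 := by
            rw [mul_one_div, div_le_div_iff₀ (by positivity) (by norm_num)]
            nlinarith
    calc Real.exp ((3 * (K : ℝ) + 8) * Q) ≤ Real.exp (8 / 1000) := Real.exp_le_exp.2 e1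
      _ ≤ 1 / (1 - 8 / 1000) := Real.exp_bound_div_one_sub_of_interval (by norm_num) (by norm_num)
      _ ≤ 1009 / 1000 := by norm_num
  -- the error term
  have hZZ : Z * Z ^ 2 = (M : ℝ) ^ ((1 : ℝ) / 10) := by
    have : Z * Z ^ 2 = Z ^ 3 := by ring
    rw [this, hZ, ← Real.rpow_natCast, ← Real.rpow_mul hM0.le]
    norm_num
  have herr : 3 * ((Z * Z ^ 2) * (1 + Real.log (Z * Z ^ 2)) ^ (2 * K + 2)) ^ 2 ≤
      (11 / 1000) * ((X0 M) / W) * (Sp W M ^ #D)⁻¹ * F := by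
    rw [hZZ, Real.log_rpow hM0]
    have e1 : 3 * ((M : ℝ) ^ ((1 : ℝ) / 10) * (1 + 1 / 10 * Real.log M) ^ (2 * K + 2)) ^ 2 ≤
        3 * (M : ℝ) ^ ((1 : ℝ) / 5) * (1 + Real.log M) ^ (4 * K + 4) := by
      have a1 : ((M : ℝ) ^ ((1 : ℝ) / 10)) ^ 2 = (M : ℝ) ^ ((1 : ℝ) / 5) := by
        rw [← Real.rpow_natCast, ← Real.rpow_mul hM0.le]
        norm_num
      have a2 : (1 + 1 / 10 * Real.log M) ^ (4 * K + 4) ≤ (1 + Real.log M) ^ (4 * K + 4) := by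
        apply pow_le_pow_left₀ (by positivity)
        linarith
      calc 3 * ((M : ℝ) ^ ((1 : ℝ) / 10) * (1 + 1 / 10 * Real.log M) ^ (2 * K + 2)) ^ 2 =
          3 * ((M : ℝ) ^ ((1 : ℝ) / 10)) ^ 2 * (1 + 1 / 10 * Real.log M) ^ (4 * K + 4) := by
            ring
        _ ≤ 3 * (M : ℝ) ^ ((1 : ℝ) / 5) * (1 + Real.log M) ^ (4 * K + 4) := by
            rw [a1]
            gcongr
    refine e1.trans (hasym.trans ?_)
    have b1 : (Real.log M ^ 2)⁻¹ ≤ (Sp W M ^ #D)⁻¹ := by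
      apply inv_anti₀ (by positivity)
      calc Sp W M ^ #D ≤ Real.log M ^ #D := pow_le_pow_left₀ hSp.le hSpup _
        _ ≤ Real.log M ^ 2 := pow_le_pow_right₀ hlog hD2
    have b2 : (M : ℝ) / 10 / W ≤ X0 M / W := by
      apply div_le_div_of_nonneg_right _ hW0.le
      linarith
    have b3 : (0 : ℝ) ≤ (Sp W M ^ #D)⁻¹ := by positivity
    rw [div_eq_mul_inv]
    calc 11 / 1000 * ((M : ℝ) / 10 / W) * (Real.log M ^ 2)⁻¹ ≤
        11 / 1000 * (X0 M / W) * (Sp W M ^ #D)⁻¹ := by gcongr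
      _ = 11 / 1000 * (X0 M / W) * (Sp W M ^ #D)⁻¹ * 1 := by ring
      _ ≤ 11 / 1000 * (X0 M / W) * (Sp W M ^ #D)⁻¹ * F := by gcongr
  -- comparison of the sums
  have hcomp : ∑ n ∈ (Ioc M (4 * M)).filter
        (fun n => n ≡ v [MOD W] ∧ ∀ h ∈ D, (n + sh h).Prime), tent M n * WT W M sh grp J n ≤
      ∑ n ∈ (Ioc M (4 * M)).filter (fun n => n ≡ v [MOD W] ∧ ∀ h ∈ D, ∀ i,
        ¬ pp W M i ∣ n + sh h),
        tent M n * wt (pp W M) sh (fun a => Yg grp J (Rbb M) (gg M) (prt (pp W M) a)) n := by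
    apply sum_le_sum_of_subset_of_nonneg
    · intro n hn
      rw [mem_filter] at hn ⊢
      refine ⟨hn.1, hn.2.1, fun h hh i hdvd => ?_⟩
      have hpr := hn.2.2 h hh
      have hpi := hOk.prime i
      have heq : pp W M i = n + sh h := (Nat.prime_dvd_prime_iff_eq hpi hpr).1 hdvd
      have hle : pp W M i ≤ M := by
        have := i.2
        unfold PP at this
        rw [mem_filter, mem_range] at this
        have h3 := this.1
        show (i : ℕ) ≤ M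
        omega
      have := (mem_Ioc.1 hn.1).1
      omega
    · intro n _ _
      exact mul_nonneg (ht0 n) (by first | (unfold WT wt; positivity) | (unfold wt; positivity))
  refine hcomp.trans ?_
  have hS9' : ∑ n ∈ (Ioc M (4 * M)).filter (fun n => n ≡ v [MOD W] ∧ ∀ h ∈ D, ∀ i,
        ¬ pp W M i ∣ n + sh h),
        tent M n * wt (pp W M) sh (fun a => Yg grp J (Rbb M) (gg M) (prt (pp W M) a)) n ≤
      X0 M / W * (Real.exp ((3 * (K : ℝ) + 8) * Q) * (Sp W M ^ #D)⁻¹ *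
        Full (pp W M) (Yg grp J (Rbb M) (gg M)) D) +
      3 * ((Z * Z ^ 2) * (1 + Real.log (Z * Z ^ 2)) ^ (2 * K + 2)) ^ 2 := by
    rw [← hSW]
    convert hS9 using 2
  refine hS9'.trans ?_
  have hmain : X0 M / W * (Real.exp ((3 * (K : ℝ) + 8) * Q) * (Sp W M ^ #D)⁻¹ *
        Full (pp W M) (Yg grp J (Rbb M) (gg M)) D) ≤
      (1009 / 1000) * (X0 M / W) * (Sp W M ^ #D)⁻¹ * F := by
    have c1 : (0 : ℝ) ≤ X0 M / W := by positivity
    have c2 : (0 : ℝ) ≤ (Sp W M ^ #D)⁻¹ := by positivity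
    calc X0 M / W * (Real.exp ((3 * (K : ℝ) + 8) * Q) * (Sp W M ^ #D)⁻¹ *
        Full (pp W M) (Yg grp J (Rbb M) (gg M)) D) ≤
        X0 M / W * (Real.exp ((3 * (K : ℝ) + 8) * Q) * (Sp W M ^ #D)⁻¹ * F) := by
          gcongr
      _ ≤ X0 M / W * (1009 / 1000 * (Sp W M ^ #D)⁻¹ * F) := by
          gcongr
      _ = (1009 / 1000) * (X0 M / W) * (Sp W M ^ #D)⁻¹ * F := by ring
  have hgoal : (102 / 100) * (X0 M / W) * ((Sp W M) ^ #D)⁻¹ * Tj W M grp J j *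
      g1 W M j ^ (2 * #D) * g2 W M j ^ (KK j - #D) =
      (1009 / 1000) * (X0 M / W) * (Sp W M ^ #D)⁻¹ * F +
        (11 / 1000) * ((X0 M) / W) * (Sp W M ^ #D)⁻¹ * F := by
    rw [hFdef]
    ring
  rw [hgoal]
  exact add_le_add hmain herr

end Pool.Agent.Helper90.MT
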