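import Pool.Agent.Helper90.MT.StS

/-!
Project MT (MP_3ec731_nt), module S-L2m: the lower bound with one prime.
-/

namespace Pool.Agent.Helper90.MT

open Finset

section Gen
variable {α ι : Type} [Fintype α] [DecidableEq α] [Fintype ι] [DecidableEq ι]

theorem L2m_szU (pr : α → ℕ) (h0 : ∀ i, 0 < pr i) (b b' : α → Option ι) :
    szU pr b b' ≤ szA pr b * szA pr b' := by
  unfold szU szA
  rw [← prod_mul_distrib]
  apply prod_le_prod' 
  intro i _
  have := h0 i
  by_cases h1 : b i = none <;> by_cases h2 : b' i = none <;> (simp [h1, h2]; try nlinarith)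

theorem L2m_prt_pos (pr : α → ℕ) (h0 : ∀ i, 0 < pr i) (c : α → Option ι) (h : ι) :
    0 < prt pr c h := by
  unfold prt
  apply prod_pos
  intro i _
  split_ifs
  · exact h0 i
  · exact one_pos

theorem L2m_mono (pr : α → ℕ) (h0 : ∀ i, 0 < pr i) (Yn : (ι → ℕ) → ℝ) (hA : Anti Yn)
    (c c' : α → Option ι) (h : ∀ i, c i ≠ none → c' i = c i) :
    Yn (prt pr c') ≤ Yn (prt pr c) := by
  apply hA
  · intro l
    unfold prt
    apply prod_dvd_prod_of_dvd
    intro i _
    by_cases h1 : c i = some l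
    · have h2 : c' i = some l := by
        rw [h i (by rw [h1]; simp), h1]
      rw [if_pos h1, if_pos h2]
    · rw [if_neg h1]
      exact one_dvd _
  · intro l
    exact L2m_prt_pos pr h0 c' l

theorem L2m_VV_nonneg (pr : α → ℕ) (D : Finset ι) (Y : (α → Option ι) → ℝ) (hY : ∀ c, 0 ≤ Y c)
    (a : α → Option ι) : 0 ≤ VV pr D Y a := by
  unfold VV
  apply sum_nonneg
  intro c _
  split_ifs
  · apply mul_nonneg _ (hY c)
    apply prod_nonneg
    intro i _
    split_ifs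
    · positivity
    · exact zero_le_one
  · exact le_rfl

theorem L2m_prod (pr : α → ℕ) (K : ℕ) (h2 : ∀ i, 2 ≤ pr i)
    (hs : ∑ i, 1 / (pr i : ℝ) ^ 2 ≤ 1 / (1000 * ((K : ℝ) + 1) ^ 2)) :
    ∏ i, (1 + (K : ℝ) / ((pr i : ℝ) * ((pr i : ℝ) - 1))) ≤ 1001 / 1000 := by
  have h3 : ∀ i, 1 + (K : ℝ) / ((pr i : ℝ) * ((pr i : ℝ) - 1)) ≤
      Real.exp (2 * K * (1 / (pr i : ℝ) ^ 2)) := by
    intro i
    have hp : (2 : ℝ) ≤ pr i := by exact_mod_cast h2 i
    have h4 : (K : ℝ) / ((pr i : ℝ) * ((pr i : ℝ) - 1)) ≤ 2 * K * (1 / (pr i : ℝ) ^ 2) := by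
      have h5 : 2 * (K : ℝ) * (1 / (pr i : ℝ) ^ 2) = K / ((pr i : ℝ) ^ 2 / 2) := by
        field_simp
      rw [h5]
      apply div_le_div_of_nonneg_left (Nat.cast_nonneg K) (by positivity)
      nlinarith
    have := Real.add_one_le_exp (2 * (K : ℝ) * (1 / (pr i : ℝ) ^ 2))
    linarith
  calc ∏ i, (1 + (K : ℝ) / ((pr i : ℝ) * ((pr i : ℝ) - 1)))
      ≤ ∏ i, Real.exp (2 * K * (1 / (pr i : ℝ) ^ 2)) := by
        apply prod_le_prod
        · intro i _
          have hp : (2 : ℝ) ≤ pr i := by exact_mod_cast h2 i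
          have : 0 ≤ (K : ℝ) / ((pr i : ℝ) * ((pr i : ℝ) - 1)) :=
            div_nonneg (Nat.cast_nonneg K) (mul_nonneg (by linarith) (by linarith))
          linarith
        · intro i _
          exact h3 i
    _ = Real.exp (2 * K * ∑ i, 1 / (pr i : ℝ) ^ 2) := by
        rw [← Real.exp_sum, mul_sum]
    _ ≤ Real.exp (1 / 2000) := by
        apply Real.exp_le_exp.2
        have hK : (0 : ℝ) ≤ K := Nat.cast_nonneg K
        calc 2 * (K : ℝ) * ∑ i, 1 / (pr i : ℝ) ^ 2
            ≤ 2 * K * (1 / (1000 * ((K : ℝ) + 1) ^ 2)) :=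
              mul_le_mul_of_nonneg_left hs (by positivity)
          _ ≤ 1 / 2000 := by
              rw [mul_one_div, div_le_div_iff₀ (by positivity) (by norm_num)]
              nlinarith [sq_nonneg ((K : ℝ) - 1)]
    _ ≤ 1001 / 1000 := by
        have h1 := Real.one_sub_le_exp_neg (1 / 2000)
        rw [Real.exp_neg] at h1
        have h2 : 0 < Real.exp (1 / 2000) := Real.exp_pos _
        have h3 : (1 - 1 / 2000) * Real.exp (1 / 2000) ≤ 1 := by
          calc (1 - 1 / 2000) * Real.exp (1 / 2000)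
              ≤ (Real.exp (1 / 2000))⁻¹ * Real.exp (1 / 2000) :=
                mul_le_mul_of_nonneg_right h1 h2.le
            _ = 1 := inv_mul_cancel₀ h2.ne'
        nlinarith

theorem L2m_dP_nonneg (m : ι) (K p : ℕ) (h : K ≤ p) (o : Option ι) : 0 ≤ dP m K p o := by
  cases o with
  | none => exact zero_le_one
  | some l =>
    simp only [dP]
    split_ifs
    · exact le_rfl
    · apply div_nonneg _ (sq_nonneg _)
      have : (K : ℝ) ≤ p := by exact_mod_cast h
      linarith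

/-- the main term -/
theorem L2m_main (h3 : StZ) (h4 : StLow) (pr : α → ℕ) (m : ι) (Yn : (ι → ℕ) → ℝ)
    (hp : ∀ i, (pr i).Prime) (hinj : Function.Injective pr)
    (hl : ∀ i, 2 * Fintype.card ι < pr i) (hY : ∀ x, 0 ≤ Yn x) (hA : Anti Yn)
    (hs : ∑ i, 1 / (pr i : ℝ) ^ 2 ≤ 1 / (1000 * ((Fintype.card ι : ℝ) + 1) ^ 2)) :
    (99 / 100) * Full pr Yn {m} ≤
      ∑ a, (∏ i, dP m (Fintype.card ι) (pr i) (a i)) *
        zz pr m (fun a => Yn (prt pr a)) a ^ 2 := by
  have hF : 0 ≤ Full pr Yn {m} := by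
    unfold Full
    apply sum_nonneg
    intro x _
    apply mul_nonneg _ (sq_nonneg _)
    rw [inv_nonneg]
    exact prod_nonneg (fun h _ => Nat.cast_nonneg _)
  have hlow := h4 α ι pr m Yn hp hinj hl hY hA
  have h1 : (998 / 1000) * Full pr Yn {m} ≤
      ∑ a, (∏ i, dP m (Fintype.card ι) (pr i) (a i)) *
        VV pr {m} (fun a => Yn (prt pr a)) a ^ 2 := by
    refine le_trans (mul_le_mul_of_nonneg_right ?_ hF) hlow
    have : 2 * ((Fintype.card ι : ℝ) + 1) ^ 2 * ∑ i, 1 / (pr i : ℝ) ^ 2 ≤ 2 / 1000 := by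
      calc 2 * ((Fintype.card ι : ℝ) + 1) ^ 2 * ∑ i, 1 / (pr i : ℝ) ^ 2
          ≤ 2 * ((Fintype.card ι : ℝ) + 1) ^ 2 *
            (1 / (1000 * ((Fintype.card ι : ℝ) + 1) ^ 2)) :=
            mul_le_mul_of_nonneg_left hs (by positivity)
        _ = 2 / 1000 := by
            field_simp
    linarith
  have hd : ∀ a : α → Option ι, 0 ≤ ∏ i, dP m (Fintype.card ι) (pr i) (a i) := by
    intro a
    apply prod_nonneg
    intro i _
    exact L2m_dP_nonneg m _ _ (by have := hl i; omega) _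
  have h2 : (998 / 1000) * ∑ a, (∏ i, dP m (Fintype.card ι) (pr i) (a i)) *
        VV pr {m} (fun a => Yn (prt pr a)) a ^ 2 ≤
      ∑ a, (∏ i, dP m (Fintype.card ι) (pr i) (a i)) *
        zz pr m (fun a => Yn (prt pr a)) a ^ 2 := by
    rw [mul_sum]
    apply sum_le_sum
    intro a _
    by_cases ha : ∀ i, a i ≠ some m
    · have hz := h3 α ι pr m (fun a => Yn (prt pr a)) a (fun i => (hp i).one_lt)
        (fun c => hY _) (fun c c' h => L2m_mono pr (fun i => (hp i).pos) Yn hA c c' h) ha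
      have hprod := L2m_prod pr (Fintype.card ι) (fun i => (hp i).two_le) hs
      have hV := L2m_VV_nonneg pr {m} (fun a => Yn (prt pr a)) (fun c => hY _) a
      have h5 : (999 / 1000) * VV pr {m} (fun a => Yn (prt pr a)) a ≤
          |zz pr m (fun a => Yn (prt pr a)) a| := by
        refine le_trans (mul_le_mul_of_nonneg_right ?_ hV) hz
        linarith
      have h6 : (998 / 1000) * VV pr {m} (fun a => Yn (prt pr a)) a ^ 2 ≤
          zz pr m (fun a => Yn (prt pr a)) a ^ 2 := by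
        rw [← sq_abs (zz pr m (fun a => Yn (prt pr a)) a)]
        have h7 : 0 ≤ (999 / 1000) * VV pr {m} (fun a => Yn (prt pr a)) a := by positivity
        have h8 := pow_le_pow_left₀ h7 h5 2
        nlinarith [sq_nonneg (VV pr {m} (fun a => Yn (prt pr a)) a)]
      calc (998 / 1000) * ((∏ i, dP m (Fintype.card ι) (pr i) (a i)) *
            VV pr {m} (fun a => Yn (prt pr a)) a ^ 2)
          = (∏ i, dP m (Fintype.card ι) (pr i) (a i)) *
            ((998 / 1000) * VV pr {m} (fun a => Yn (prt pr a)) a ^ 2) := by ring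
        _ ≤ _ := mul_le_mul_of_nonneg_left h6 (hd a)
    · push Not at ha
      obtain ⟨i, hi⟩ := ha
      have : ∏ i, dP m (Fintype.card ι) (pr i) (a i) = 0 := by
        apply prod_eq_zero (mem_univ i)
        rw [hi]
        simp [dP]
      rw [this]
      simp
  nlinarith

theorem L2m_wt (pr : α → ℕ) (sh : ι → ℕ) (Y : (α → Option ι) → ℝ) (n : ℕ) :
    wt pr sh Y n ≤ (∑ b, |lam pr Y b|) ^ 2 := by
  classical
  unfold wt
  rw [← sq_abs]
  apply pow_le_pow_left₀ (abs_nonneg _)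
  refine le_trans (abs_sum_le_sum_abs _ _) ?_
  apply sum_le_sum
  intro b _
  split_ifs
  · exact le_rfl
  · simp

theorem L2m_wt_nonneg (pr : α → ℕ) (sh : ι → ℕ) (Y : (α → Option ι) → ℝ) (n : ℕ) :
    0 ≤ wt pr sh Y n := sq_nonneg _

end Gen

open Classical in
/-- passing from the prime `n + h` to `n` -/
theorem L2m_conv (h10 : StTent) (M h W v : ℕ) (hM : 0 < M) (hh : h ≤ M) (w : ℕ → ℝ) (B : ℝ)
    (hB : 0 ≤ B) (hw0 : ∀ n, 0 ≤ w n) (hwB : ∀ n, w n ≤ B) :
    ∑ n ∈ (range (4 * M + 1)).filter (fun n => n ≡ v [MOD W]), fp M (n + h) * w n ≤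
      ∑ n ∈ (Ioc M (4 * M)).filter (fun n => n ≡ v [MOD W] ∧ (n + h).Prime),
        tent M n * Real.log (n + h : ℕ) * w n + 5 * h * Real.log (5 * M) * B := by
  obtain ⟨t0, t1, t2, t3, -⟩ := h10 M hM
  have hMr : (0 : ℝ) < M := by exact_mod_cast hM
  have hpt : ∀ n ∈ (range (4 * M + 1)).filter (fun n => n ≡ v [MOD W]),
      fp M (n + h) * w n ≤
        (if n ∈ Ioc M (4 * M) ∧ (n + h).Prime then tent M n * Real.log (n + h : ℕ) * w n else 0) +
          (h / M) * Real.log (5 * M) * B := by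
    intro n hn
    have hn1 : n ≤ 4 * M := by
      have := mem_range.1 (mem_filter.1 hn).1
      omega
    unfold fp
    by_cases hp : (n + h).Prime
    · rw [if_pos hp]
      have hlog0 : 0 ≤ Real.log ((n + h : ℕ) : ℝ) := Real.log_natCast_nonneg _
      have hlog1 : Real.log ((n + h : ℕ) : ℝ) ≤ Real.log (5 * M) := by
        apply Real.log_le_log
        · exact_mod_cast hp.pos
        · have : n + h ≤ 5 * M := by omega
          exact_mod_cast this
      have h1 : tent M (n + h) ≤ tent M n + h / M := by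
        have := (abs_le.1 (t3 n h)).2
        linarith
      have h2 : Real.log ((n + h : ℕ) : ℝ) * tent M (n + h) * w n ≤
          Real.log ((n + h : ℕ) : ℝ) * (tent M n + h / M) * w n :=
        mul_le_mul_of_nonneg_right (mul_le_mul_of_nonneg_left h1 hlog0) (hw0 n)
      have h3 : Real.log ((n + h : ℕ) : ℝ) * (h / M) * w n ≤
          (h / M) * Real.log (5 * M) * B := by
        have h4 : 0 ≤ (h : ℝ) / M := by positivity
        calc Real.log ((n + h : ℕ) : ℝ) * (h / M) * w n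
            = (h / M) * (Real.log ((n + h : ℕ) : ℝ) * w n) := by ring
          _ ≤ (h / M) * (Real.log (5 * M) * B) := by
              apply mul_le_mul_of_nonneg_left _ h4
              exact mul_le_mul hlog1 (hwB n) (hw0 n) (le_trans hlog0 hlog1)
          _ = _ := by ring
      by_cases hI : n ∈ Ioc M (4 * M)
      · rw [if_pos ⟨hI, hp⟩]
        nlinarith
      · rw [if_neg (fun h => hI h.1)]
        rw [t2 n hI] at h2
        simp only [zero_add] at h2 ⊢
        linarith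
    · rw [if_neg hp, if_neg (fun h => hp h.2), zero_mul, zero_add]
      have h5 : 0 ≤ Real.log (5 * (M : ℝ)) := by
        apply Real.log_nonneg
        have : (1 : ℝ) ≤ M := by exact_mod_cast hM
        linarith
      positivity
  refine le_trans (sum_le_sum hpt) ?_
  rw [sum_add_distrib]
  have hs1 : ∑ n ∈ (range (4 * M + 1)).filter (fun n => n ≡ v [MOD W]),
      (if n ∈ Ioc M (4 * M) ∧ (n + h).Prime then tent M n * Real.log (n + h : ℕ) * w n else 0) =
      ∑ n ∈ (Ioc M (4 * M)).filter (fun n => n ≡ v [MOD W] ∧ (n + h).Prime),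
        tent M n * Real.log (n + h : ℕ) * w n := by
    rw [← sum_filter, filter_filter]
    apply sum_congr _ (fun _ _ => rfl)
    ext n
    simp only [mem_filter, mem_range, mem_Ioc]
    constructor
    · rintro ⟨-, h1, h2, h3⟩
      exact ⟨h2, h1, h3⟩
    · rintro ⟨h1, h2, h3⟩
      exact ⟨by omega, h2, h1, h3⟩
  have h5 : 0 ≤ Real.log (5 * (M : ℝ)) := by
    apply Real.log_nonneg
    have : (1 : ℝ) ≤ M := by exact_mod_cast hM
    linarith
  have hs2 : ∑ n ∈ (range (4 * M + 1)).filter (fun n => n ≡ v [MOD W]),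
      ((h : ℝ) / M) * Real.log (5 * M) * B ≤ 5 * h * Real.log (5 * M) * B := by
    rw [sum_const, nsmul_eq_mul]
    have hc : ((#((range (4 * M + 1)).filter (fun n => n ≡ v [MOD W])) : ℕ) : ℝ) ≤ 5 * M := by
      have h6 : #((range (4 * M + 1)).filter (fun n => n ≡ v [MOD W])) ≤ 4 * M + 1 := by
        simpa using card_filter_le (range (4 * M + 1)) (fun n => n ≡ v [MOD W])
      have h7 : #((range (4 * M + 1)).filter (fun n => n ≡ v [MOD W])) ≤ 5 * M := by omega
      exact_mod_cast h7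
    calc ((#((range (4 * M + 1)).filter (fun n => n ≡ v [MOD W])) : ℕ) : ℝ) *
          (((h : ℝ) / M) * Real.log (5 * M) * B)
        ≤ (5 * M) * (((h : ℝ) / M) * Real.log (5 * M) * B) :=
          mul_le_mul_of_nonneg_right hc (by positivity)
      _ = _ := by field_simp
  rw [hs1]
  linarith

theorem L2m_poly (n : ℕ) (hn : 0 < n) (t : ℝ) (ht : 0 ≤ t) :
    (1 + t) ^ n ≤ (15 * n : ℝ) ^ n * Real.exp (t / 15) := by
  have hn' : (0 : ℝ) < n := by exact_mod_cast hn
  have hn1 : (1 : ℝ) ≤ n := by exact_mod_cast hn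
  have h1 : 1 + t ≤ (15 * n) * Real.exp (t / (15 * n)) := by
    have h2 := Real.add_one_le_exp (t / (15 * n))
    have h3 : (15 * (n : ℝ)) * (t / (15 * n) + 1) = t + 15 * n := by
      field_simp
    nlinarith [mul_le_mul_of_nonneg_left h2 (by positivity : (0 : ℝ) ≤ 15 * n)]
  calc (1 + t) ^ n ≤ ((15 * n) * Real.exp (t / (15 * n))) ^ n :=
        pow_le_pow_left₀ (by linarith) h1 n
    _ = (15 * n : ℝ) ^ n * Real.exp (t / 15) := by
        rw [mul_pow, ← Real.exp_nat_mul]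
        congr 2
        field_simp

theorem L2m_ev (y c : ℝ) (hy : 0 < y) : ∃ M₁ : ℕ, ∀ M ≥ M₁, c ≤ (M : ℝ) ^ y := by
  have h := (tendsto_rpow_atTop hy).comp tendsto_natCast_atTop_atTop
  exact Filter.eventually_atTop.1 (h.eventually_ge_atTop c)

theorem L2m_evlog (c : ℝ) : ∃ M₁ : ℕ, ∀ M ≥ M₁, c ≤ Real.log M := by
  have h := Real.tendsto_log_atTop.comp tendsto_natCast_atTop_atTop
  exact Filter.eventually_atTop.1 (h.eventually_ge_atTop c)

theorem L2m_asym (W w K : ℕ) (h11 : StCheb) : ∃ M₁ : ℕ, ∀ M ≥ M₁,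
    0 < M ∧ w ≤ M ∧
    (W : ℝ) * ((M : ℝ) ^ ((1 : ℝ) / 30)) ^ 2 ≤ (⌊(M : ℝ) ^ ((1 : ℝ) / 13)⌋₊ : ℝ) ∧
    1 + Real.log M / 30 ≤ Real.log M ∧ 0 < Real.log M ∧
    (M : ℝ) / Real.log M ^ 10 * W.totient ≤ M / 1000 ∧
    5 * w * Real.log (5 * M) * ((M : ℝ) ^ ((1 : ℝ) / 30) * (1 + Real.log M) ^ (2 * K)) ^ 2 *
      W.totient ≤ M / 1000 ∧ (9 / 100 : ℝ) * M ≤ X1 M := by
  obtain ⟨a1, ha1⟩ := L2m_ev (2 / 195) (W + 1) (by norm_num)
  obtain ⟨a2, ha2⟩ := L2m_evlog (2 + 1000 * W.totient)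
  obtain ⟨a3, ha3⟩ := L2m_ev (13 / 15)
    (10000 * w * (15 * (4 * K + 1 : ℕ) : ℝ) ^ (4 * K + 1) * W.totient) (by norm_num)
  obtain ⟨a4, ha4⟩ := h11
  refine ⟨max (max a1 a2) (max (max a3 a4) (w + 1)), ?_⟩
  intro M hM
  have hM1 : a1 ≤ M := le_trans (le_max_left _ _) (le_trans (le_max_left _ _) hM)
  have hM2 : a2 ≤ M := le_trans (le_max_right _ _) (le_trans (le_max_left _ _) hM)
  have hM3 : a3 ≤ M := le_trans (le_trans (le_max_left _ _) (le_max_left _ _))
    (le_trans (le_max_right _ _) hM)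
  have hM4 : a4 ≤ M := le_trans (le_trans (le_max_right _ _) (le_max_left _ _))
    (le_trans (le_max_right _ _) hM)
  have hM5 : w + 1 ≤ M := le_trans (le_max_right _ _) (le_trans (le_max_right _ _) hM)
  have b1 := ha1 M hM1
  have b2 := ha2 M hM2
  have b3 := ha3 M hM3
  have hMpos : 0 < M := by omega
  have hMr : (1 : ℝ) ≤ M := by exact_mod_cast hMpos
  have hM0 : (0 : ℝ) < M := by linarith
  have hφ : (0 : ℝ) ≤ W.totient := Nat.cast_nonneg _
  have hlog : 2 ≤ Real.log M := by linarith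
  refine ⟨hMpos, by omega, ?_, by linarith, by linarith, ?_, ?_, (ha4 M hM4).1⟩
  · have e1 : ((M : ℝ) ^ ((1 : ℝ) / 30)) ^ 2 = (M : ℝ) ^ ((1 : ℝ) / 15) := by
      rw [← Real.rpow_natCast, ← Real.rpow_mul hM0.le]
      norm_num
    have e2 : (M : ℝ) ^ ((1 : ℝ) / 13) = (M : ℝ) ^ ((1 : ℝ) / 15) * (M : ℝ) ^ ((2 : ℝ) / 195) := by
      rw [← Real.rpow_add hM0]
      norm_num
    have e3 : (1 : ℝ) ≤ (M : ℝ) ^ ((1 : ℝ) / 15) := Real.one_le_rpow hMr (by norm_num)
    have e4 := Nat.lt_floor_add_one ((M : ℝ) ^ ((1 : ℝ) / 13))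
    rw [e1]
    have e5 : (M : ℝ) ^ ((1 : ℝ) / 15) * ((W : ℝ) + 1) ≤ (M : ℝ) ^ ((1 : ℝ) / 13) := by
      rw [e2]
      exact mul_le_mul_of_nonneg_left b1 (by linarith)
    nlinarith
  · have hl1 : Real.log M ≤ Real.log M ^ 10 := by
      calc Real.log M = Real.log M ^ 1 := (pow_one _).symm
        _ ≤ Real.log M ^ 10 := pow_le_pow_right₀ (by linarith) (by norm_num)
    have hl2 : 1000 * (W.totient : ℝ) ≤ Real.log M ^ 10 := by linarith
    have hl3 : 0 < Real.log M ^ 10 := by positivity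
    rw [div_mul_eq_mul_div, div_le_div_iff₀ hl3 (by norm_num)]
    nlinarith
  · have hlog5 : Real.log (5 * M) ≤ 2 * (1 + Real.log M) := by
      rw [Real.log_mul (by norm_num) hM0.ne']
      have h5 : Real.log 5 ≤ 4 := by
        have := Real.log_le_sub_one_of_pos (show (0 : ℝ) < 5 by norm_num)
        linarith
      linarith
    have hp := L2m_poly (4 * K + 1) (by omega) (Real.log M) (by linarith)
    have e1 : Real.exp (Real.log M / 15) = (M : ℝ) ^ ((1 : ℝ) / 15) := by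
      rw [Real.rpow_def_of_pos hM0]
      congr 1
      ring
    rw [e1] at hp
    have e2 : ((M : ℝ) ^ ((1 : ℝ) / 30) * (1 + Real.log M) ^ (2 * K)) ^ 2 =
        (M : ℝ) ^ ((1 : ℝ) / 15) * (1 + Real.log M) ^ (4 * K) := by
      rw [mul_pow, ← Real.rpow_natCast, ← Real.rpow_mul hM0.le, ← pow_mul]
      norm_num
      left
      congr 1
      ring
    have e3 : (M : ℝ) = (M : ℝ) ^ ((1 : ℝ) / 15) * (M : ℝ) ^ ((1 : ℝ) / 15) *
        (M : ℝ) ^ ((13 : ℝ) / 15) := by
      rw [← Real.rpow_add hM0, ← Real.rpow_add hM0]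
      norm_num
    have hz : 0 ≤ (M : ℝ) ^ ((1 : ℝ) / 15) := by positivity
    rw [e2]
    calc 5 * (w : ℝ) * Real.log (5 * M) * ((M : ℝ) ^ ((1 : ℝ) / 15) * (1 + Real.log M) ^ (4 * K)) *
          W.totient
        ≤ 5 * w * (2 * (1 + Real.log M)) *
          ((M : ℝ) ^ ((1 : ℝ) / 15) * (1 + Real.log M) ^ (4 * K)) * W.totient := by
          have : 0 ≤ (M : ℝ) ^ ((1 : ℝ) / 15) * (1 + Real.log M) ^ (4 * K) := by positivity
          gcongr
      _ = 10 * w * W.totient * (M : ℝ) ^ ((1 : ℝ) / 15) * (1 + Real.log M) ^ (4 * K + 1) := by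
          rw [pow_succ]; ring
      _ ≤ 10 * w * W.totient * (M : ℝ) ^ ((1 : ℝ) / 15) *
          ((15 * (4 * K + 1 : ℕ) : ℝ) ^ (4 * K + 1) * (M : ℝ) ^ ((1 : ℝ) / 15)) := by
          gcongr
      _ = ((M : ℝ) ^ ((1 : ℝ) / 15) * (M : ℝ) ^ ((1 : ℝ) / 15)) *
          (10000 * w * (15 * (4 * K + 1 : ℕ) : ℝ) ^ (4 * K + 1) * W.totient) / 1000 := by ring
      _ ≤ ((M : ℝ) ^ ((1 : ℝ) / 15) * (M : ℝ) ^ ((1 : ℝ) / 15)) *
          (M : ℝ) ^ ((13 : ℝ) / 15) / 1000 := by
          gcongr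
      _ = M / 1000 := by rw [← e3]

theorem l2 (h0 : StL0) (h1 : StYg) (h2 : StS2) (h3 : StZ) (h4 : StLow) (h5 : StFac) (h6 : StGL)
    (h7 : StL3) (h8 : StLam) (h9 : StPairs) (h10 : StTent) (h11 : StCheb) : StL2 := by
  classical
  intro ι _ _ sh grp J w W v hFix
  obtain ⟨m0, hm0⟩ := h0 ι sh grp J w W v hFix
  have h7' : ∀ j, ∃ M₁ : ℕ, ∀ M ≥ M₁,
      E1 (pp W M) (gg M j) / G1 (pp W M) (gg M j) +
      ((KK j : ℝ) - 1) * (E2 (pp W M) (gg M j) / G2 (pp W M) (gg M j)) ≤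
      (195 / 1000) * Real.log (Rbb M j) := by
    intro j
    obtain ⟨M₁, hM₁⟩ := h7 W j hFix.W0
    exact ⟨M₁, fun M hM => (hM₁ M hM).2.2.2⟩
  choose m1 hm1 using h7'
  obtain ⟨m2, hm2⟩ := L2m_asym W w (Fintype.card ι) h11
  refine ⟨max m0 (max ((range J).sup m1) m2), ?_⟩
  intro M hM E hE hBV hBVs h
  have hMa : m0 ≤ M := le_trans (le_max_left _ _) hM
  have hMb : (range J).sup m1 ≤ M :=
    le_trans (le_max_left _ _) (le_trans (le_max_right _ _) hM)
  have hMc : m2 ≤ M := le_trans (le_max_right _ _) (le_trans (le_max_right _ _) hM)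
  obtain ⟨hG, hOk, hRb, hsq, hT, hg1, hg2⟩ := hm0 M hMa
  obtain ⟨c1, c2, c3, c4, c5, c6, c7, c8⟩ := hm2 M hMc
  have hj : grp h < J := hFix.hgrp h
  have hmk := hm1 (grp h) M (le_trans (le_sup (f := m1) (mem_range.2 hj)) hMb)
  obtain ⟨y1, y2, y3, y4⟩ := h1 ι grp J (Rbb M) (gg M) hG hFix.hgrp
  obtain ⟨t0, t1, t2, t3, -⟩ := h10 M c1
  have hM0 : (0 : ℝ) < M := by exact_mod_cast c1
  have hM1 : (1 : ℝ) ≤ M := by exact_mod_cast c1
  set Z : ℝ := (M : ℝ) ^ ((1 : ℝ) / 30) with hZdef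
  have hZ1 : 1 ≤ Z := Real.one_le_rpow hM1 (by norm_num)
  have hlogZ : Real.log Z = Real.log M / 30 := by
    rw [hZdef, Real.log_rpow hM0]; ring
  set Yn : (ι → ℕ) → ℝ := Yg grp J (Rbb M) (gg M) with hYn
  set Y : (PP W M → Option ι) → ℝ := fun a => Yn (prt (pp W M) a) with hYdef
  have hinj := hOk.inj
  have hprime := hOk.prime
  -- size of the assignments
  have hszprt : ∀ a : PP W M → Option ι,
      (szA (pp W M) a : ℝ) = ∏ l, (prt (pp W M) a l : ℝ) := by
    intro a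
    have : szA (pp W M) a = ∏ l, prt (pp W M) a l := by
      unfold szA prt
      rw [prod_comm]
      apply prod_congr rfl
      intro i _
      rcases ha : a i with _ | l
      · simp
      · simp [Option.some.injEq]
    rw [this]
    push_cast
    rfl
  have hYZ : ∀ a, Y a ≠ 0 → (szA (pp W M) a : ℝ) ≤ Z := by
    intro a ha
    rw [hszprt]
    exact le_trans (y4 _ ha) hRb
  obtain ⟨l1, l2', l3⟩ := h8 (PP W M) ι (pp W M) Y 1 Z hprime hinj hZ1 (fun a => y1 _)
    (fun a => y2 _) hYZ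
  set Q : ℕ := ⌊(M : ℝ) ^ ((1 : ℝ) / 13)⌋₊ with hQdef
  have hQ13 : Q ^ 13 ≤ M := by
    have e1 : (Q : ℝ) ≤ (M : ℝ) ^ ((1 : ℝ) / 13) := Nat.floor_le (by positivity)
    have e2 : (Q : ℝ) ^ 13 ≤ ((M : ℝ) ^ ((1 : ℝ) / 13)) ^ 13 :=
      pow_le_pow_left₀ (Nat.cast_nonneg _) e1 13
    rw [← Real.rpow_natCast ((M : ℝ) ^ ((1 : ℝ) / 13)), ← Real.rpow_mul hM0.le] at e2
    norm_num at e2
    exact_mod_cast e2
  have hWQ : ∀ b b', lam (pp W M) Y b ≠ 0 → lam (pp W M) Y b' ≠ 0 →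
      W * szU (pp W M) b b' ≤ Q := by
    intro b b' hb hb'
    have e1 := L2m_szU (pp W M) (fun i => (hprime i).pos) b b'
    have e2 := l2' b hb
    have e3 := l2' b' hb'
    have e4 : ((W * szU (pp W M) b b' : ℕ) : ℝ) ≤ (Q : ℝ) := by
      have e5 : ((szU (pp W M) b b' : ℕ) : ℝ) ≤ Z * Z := by
        calc ((szU (pp W M) b b' : ℕ) : ℝ)
            ≤ ((szA (pp W M) b * szA (pp W M) b' : ℕ) : ℝ) := by exact_mod_cast e1
          _ = (szA (pp W M) b : ℝ) * (szA (pp W M) b' : ℝ) := by push_cast; ring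
          _ ≤ Z * Z := mul_le_mul e2 e3 (Nat.cast_nonneg _) (by linarith)
      calc ((W * szU (pp W M) b b' : ℕ) : ℝ) = (W : ℝ) * (szU (pp W M) b b' : ℝ) := by
            push_cast; ring
        _ ≤ W * (Z * Z) := mul_le_mul_of_nonneg_left e5 (Nat.cast_nonneg _)
        _ = W * Z ^ 2 := by ring
        _ ≤ Q := c3
    exact_mod_cast e4
  have hX1 : 0 ≤ X1 M := le_trans (by positivity) c8
  have hφ : (0 : ℝ) < W.totient := by exact_mod_cast Nat.totient_pos.2 hFix.W0
  -- the sieve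
  have hS2 := h2 (PP W M) ι (pp W M) sh W v h Y M Q (fp M) E (X1 M) hOk hX1 hE
    (by
      intro n hn
      unfold fp at hn
      split_ifs at hn with hp
      · have ht : n ∈ Ioc M (4 * M) := by
          by_contra hc
          rw [t2 n hc] at hn
          simp at hn
        refine ⟨hp, ht, ?_⟩
        intro i
        have h5 := (mem_filter.1 i.2).1
        have h6 := mem_range.1 h5
        have h7 := (mem_Ioc.1 ht).1
        change (i : ℕ) < n
        omega
      · exact absurd rfl hn)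
    (le_trans (hFix.lt h).le c2)
    (by
      intro q a hq1 hqQ hcop
      exact hBV q a hq1 (le_trans (Nat.pow_le_pow_left hqQ 13) hQ13) hcop)
    hWQ
  -- main term
  have hmain := L2m_main h3 h4 (pp W M) h Yn hprime hinj hOk.large y1 y3 hsq
  have hfac := h5 (PP W M) ι (pp W M) grp J (Rbb M) (gg M) (grp h) {h} hprime hinj hG
    hFix.hgrp hj (by intro l hl; rw [mem_singleton.1 hl])
  have hgl := h6 (PP W M) ι (pp W M) grp J (Rbb M) (gg M) (grp h) h hprime hinj hG
    hFix.hgrp hj rfl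
  rw [hFix.card (grp h) hj] at hgl
  have hlogR : 0 < Real.log (Rbb M (grp h)) := Real.log_pos (hG.hRb _)
  set P : ℝ := g1 W M (grp h) ^ 2 * g2 W M (grp h) ^ (KK (grp h) - 1) with hPdef
  have hP1 : 1 ≤ P := by
    have e1 : 1 ≤ g1 W M (grp h) ^ 2 := one_le_pow₀ (hg1 _)
    have e2 : 1 ≤ g2 W M (grp h) ^ (KK (grp h) - 1) := one_le_pow₀ (hg2 _)
    calc (1 : ℝ) = 1 * 1 := by ring
      _ ≤ P := mul_le_mul e1 e2 (by norm_num) (by linarith)
  have hFG : (61 / 100) * P ≤ FG (pp W M) grp Yn (grp h) {h} := by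
    refine le_trans ?_ hgl
    have e1 : (2 * (E1 (pp W M) (gg M (grp h)) / G1 (pp W M) (gg M (grp h)) +
        ((KK (grp h) : ℝ) - 1) * (E2 (pp W M) (gg M (grp h)) / G2 (pp W M) (gg M (grp h))))) /
        Real.log (Rbb M (grp h)) ≤ 39 / 100 := by
      rw [div_le_iff₀ hlogR]
      linarith
    calc (61 / 100) * P = P * (61 / 100) := by ring
      _ ≤ P * (1 - (2 * (E1 (pp W M) (gg M (grp h)) / G1 (pp W M) (gg M (grp h)) +
        ((KK (grp h) : ℝ) - 1) * (E2 (pp W M) (gg M (grp h)) / G2 (pp W M) (gg M (grp h))))) /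
        Real.log (Rbb M (grp h))) := by
          apply mul_le_mul_of_nonneg_left _ (by linarith)
          linarith
      _ = _ := rfl
  set T : ℝ := Tj W M grp J (grp h) with hTdef
  have hT1 : 1 ≤ T := hT _
  have hFull : (61 / 100) * (T * P) ≤ Full (pp W M) Yn {h} := by
    rw [hfac]
    calc (61 / 100) * (T * P) = T * ((61 / 100) * P) := by ring
      _ ≤ T * FG (pp W M) grp Yn (grp h) {h} := mul_le_mul_of_nonneg_left hFG (by linarith)
      _ = _ := rfl
  have hTP : 1 ≤ T * P := by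
    calc (1 : ℝ) = 1 * 1 := by ring
      _ ≤ T * P := mul_le_mul hT1 hP1 (by norm_num) (by linarith)
  set X : ℝ := X1 M / W.totient with hXdef
  have hX0 : 0 ≤ X := div_nonneg hX1 hφ.le
  have hXM : (9 / 100) * (M : ℝ) / W.totient ≤ X := div_le_div_of_nonneg_right c8 hφ.le
  -- error of the distribution
  have hpairs := h9 (PP W M) ι (pp W M) (lam (pp W M) Y)
    (1 * (1 + Real.log Z) ^ Fintype.card ι) Z W Q E hprime hinj hFix.W0 l1 l2' c3 hE
  have hlogM0 : 0 < Real.log M := c5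
  have herr1 : ∑ b, ∑ b', |lam (pp W M) Y b| * |lam (pp W M) Y b'| *
      E (W * szU (pp W M) b b') ≤ (M : ℝ) / Real.log M ^ 10 := by
    refine le_trans hpairs ?_
    have e1 := hBVs Q hQ13
    have e2 : (1 * (1 + Real.log Z) ^ Fintype.card ι) ^ 2 ≤
        Real.log M ^ (2 * Fintype.card ι) := by
      rw [one_mul, ← pow_mul, mul_comm (Fintype.card ι) 2, hlogZ]
      exact pow_le_pow_left₀ (by positivity) c4 _
    calc (1 * (1 + Real.log Z) ^ Fintype.card ι) ^ 2 *
          ∑ q ∈ Icc 1 Q, (((Fintype.card ι + 1) ^ 2 : ℕ) : ℝ) ^ q.primeFactors.card * E q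
        ≤ Real.log M ^ (2 * Fintype.card ι) * (M / Real.log M ^ (2 * Fintype.card ι + 10)) := by
          apply mul_le_mul e2 e1 _ (by positivity)
          apply sum_nonneg
          intro q _
          exact mul_nonneg (by positivity) (hE q)
      _ = (M : ℝ) / Real.log M ^ 10 := by
          rw [pow_add]
          field_simp
  have herr1' : (M : ℝ) / Real.log M ^ 10 ≤ (12 / 1000) * X := by
    have e1 : (M : ℝ) / Real.log M ^ 10 ≤ M / 1000 / W.totient := by
      rw [le_div_iff₀ hφ]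
      exact c6
    have e2 : (M : ℝ) / 1000 / W.totient = (1 / 90) * ((9 / 100) * (M : ℝ) / W.totient) := by
      ring
    rw [e2] at e1
    linarith
  -- conversion
  have hwB : ∀ n, wt (pp W M) sh Y n ≤
      (Z * (1 + Real.log M) ^ (2 * Fintype.card ι)) ^ 2 := by
    intro n
    refine le_trans (L2m_wt (pp W M) sh Y n) ?_
    apply pow_le_pow_left₀ (sum_nonneg (fun _ _ => abs_nonneg _))
    refine le_trans l3 ?_
    rw [one_mul, hlogZ]
    apply mul_le_mul_of_nonneg_left _ (by linarith)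
    apply pow_le_pow_left₀ (by positivity)
    linarith
  have hconv := L2m_conv h10 M (sh h) W v c1 (le_trans (hFix.lt h).le c2)
    (wt (pp W M) sh Y) ((Z * (1 + Real.log M) ^ (2 * Fintype.card ι)) ^ 2) (by positivity)
    (L2m_wt_nonneg (pp W M) sh Y) hwB
  have herr2 : 5 * (sh h : ℝ) * Real.log (5 * M) *
      (Z * (1 + Real.log M) ^ (2 * Fintype.card ι)) ^ 2 ≤ (12 / 1000) * X := by
    have e0 : (sh h : ℝ) ≤ w := by exact_mod_cast (hFix.lt h).le
    have e5 : 0 ≤ Real.log (5 * (M : ℝ)) := Real.log_nonneg (by linarith)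
    have e1 : 5 * (sh h : ℝ) * Real.log (5 * M) *
        (Z * (1 + Real.log M) ^ (2 * Fintype.card ι)) ^ 2 ≤
        5 * w * Real.log (5 * M) *
        (Z * (1 + Real.log M) ^ (2 * Fintype.card ι)) ^ 2 := by
      gcongr
    have e2 : 5 * w * Real.log (5 * M) *
        (Z * (1 + Real.log M) ^ (2 * Fintype.card ι)) ^ 2 ≤ M / 1000 / W.totient := by
      rw [le_div_iff₀ hφ]
      exact c7
    have e3 : (M : ℝ) / 1000 / W.totient = (1 / 90) * ((9 / 100) * (M : ℝ) / W.totient) := by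
      ring
    rw [e3] at e2
    linarith
  -- conclusion
  have hgoal : ∑ n ∈ (Ioc M (4 * M)).filter (fun n => n ≡ v [MOD W] ∧ (n + sh h).Prime),
      tent M n * Real.log (n + sh h : ℕ) * WT W M sh grp J n =
      ∑ n ∈ (Ioc M (4 * M)).filter (fun n => n ≡ v [MOD W] ∧ (n + sh h).Prime),
      tent M n * Real.log (n + sh h : ℕ) * wt (pp W M) sh Y n := rfl
  have hmain' : X * ((6039 / 10000) * (T * P)) ≤
      X * ∑ a, (∏ i, dP h (Fintype.card ι) (pp W M i) (a i)) * zz (pp W M) h Y a ^ 2 := by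
    apply mul_le_mul_of_nonneg_left _ hX0
    refine le_trans ?_ hmain
    linarith
  have hXTP : X ≤ X * (T * P) := le_mul_of_one_le_right hX0 hTP
  have hfin : (55 / 100) * X * T * g1 W M (grp h) ^ 2 * g2 W M (grp h) ^ (KK (grp h) - 1) =
      (55 / 100) * (X * (T * P)) := by
    rw [hPdef]; ring
  have hlhs : (55 / 100) * (X1 M / W.totient) * Tj W M grp J (grp h) * g1 W M (grp h) ^ 2 *
      g2 W M (grp h) ^ (KK (grp h) - 1) = (55 / 100) * (X * (T * P)) := hfin
  have hcast : ∀ n : ℕ, Real.log ((n : ℝ) + (sh h : ℝ)) = Real.log ((n + sh h : ℕ) : ℝ) := by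
    intro n; push_cast; rfl
  have hgoal2 : (55 / 100) * (X * (T * P)) ≤
      ∑ n ∈ (Ioc M (4 * M)).filter (fun n => n ≡ v [MOD W] ∧ (n + sh h).Prime),
      tent M n * Real.log (n + sh h : ℕ) * WT W M sh grp J n := by
    rw [hgoal]
    linarith
  rw [hlhs]
  refine le_trans hgoal2 (le_of_eq ?_)
  apply sum_congr _ (fun _ _ => rfl)
  ext n
  simp only [mem_filter]

end Pool.Agent.Helper90.MT
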