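import Pool.Agent.Helper90.MT.StS

/-!
Project MT, part S, module L3m: numerics of the final choice.
-/

namespace Pool.Agent.Helper90.MT

open Finset

namespace L3m

lemma SW_le (W : ℕ) (z : ℝ) (hz : 1 ≤ z) : SW W z ≤ 1 + Real.log z := by
  have hn : 1 ≤ ⌊z⌋₊ := Nat.le_floor (by simpa using hz)
  have h1 : SW W z ≤ ∑ d ∈ Icc 1 ⌊z⌋₊, 1 / (d : ℝ) := by
    unfold SW
    apply Finset.sum_le_sum_of_subset_of_nonneg (Finset.filter_subset _ _)
    intro i _ _
    positivity
  have h2 : ∑ d ∈ Icc 1 ⌊z⌋₊, 1 / (d : ℝ) = ((harmonic ⌊z⌋₊ : ℚ) : ℝ) := by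
    rw [harmonic_eq_sum_Icc]
    push_cast
    apply Finset.sum_congr rfl
    intro i _
    rw [one_div]
  have h3 := harmonic_le_one_add_log ⌊z⌋₊
  have h4 : Real.log (⌊z⌋₊ : ℝ) ≤ Real.log z := by
    apply Real.log_le_log
    · exact_mod_cast hn
    · exact Nat.floor_le (by linarith)
  linarith

lemma key (x : ℝ) (hx : 0 ≤ x) : (158 / 100 : ℝ) * (105 / 100) * (x / 150 * 16 * (1 + x)) ≤
    (95 / 100 * (1 + x / 2)) ^ 2 := by nlinarith

end L3m

open L3m in
theorem l3 (h1 : StSW) (h2 : StNum) : StL3 := by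
  intro W j hW
  obtain ⟨c, C, hc, hcW, hC⟩ := h1 W hW
  have hC0 : 0 ≤ C := by
    have := hC 1 le_rfl
    exact (abs_nonneg _).trans this
  -- parameters
  set L : ℕ := LL j with hL
  set T : ℝ := 30 * 2 ^ (j + 1) * 16 * (2 : ℝ) ^ L * (1 + L) with hT
  have hTpos : 0 < T := by positivity
  -- largeness: log M ≥ B
  set B : ℝ := 2 + 1000 * C / c + 20 * C * T / c with hB
  obtain ⟨M₁, hM₁⟩ : ∃ M₁ : ℕ, Real.exp B ≤ M₁ := exists_nat_ge _
  refine ⟨M₁, fun M hM => ?_⟩
  have hMpos : (0 : ℝ) < M := by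
    have : (M₁ : ℝ) ≤ M := by exact_mod_cast hM
    have := Real.exp_pos B
    linarith
  have hlog : B ≤ Real.log M := by
    rw [Real.le_log_iff_exp_le hMpos]
    have : (M₁ : ℝ) ≤ M := by exact_mod_cast hM
    linarith
  set l : ℝ := Real.log M with hl
  have hB1 : 0 ≤ 1000 * C / c := by positivity
  have hB2 : 0 ≤ 20 * C * T / c := by positivity
  have hl2 : 2 ≤ l := by linarith
  have hlC : 1000 * C ≤ c * l := by
    have : 1000 * C / c ≤ l := by linarith
    rw [div_le_iff₀ hc] at this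
    linarith
  have hlT : 20 * C * T ≤ c * l := by
    have : 20 * C * T / c ≤ l := by linarith
    rw [div_le_iff₀ hc] at this
    linarith
  have hM1 : (1 : ℝ) ≤ M := by
    by_contra h
    have h := not_le.1 h
    have : l ≤ 0 := by
      rw [hl]
      exact Real.log_nonpos hMpos.le h.le
    linarith
  -- Sp
  have hz1 : (1 : ℝ) ≤ (M : ℝ) ^ ((1 : ℝ) / 30) := Real.one_le_rpow hM1 (by norm_num)
  have hlz : Real.log ((M : ℝ) ^ ((1 : ℝ) / 30)) = l / 30 := by
    rw [Real.log_rpow hMpos]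
    ring
  have hSp := hC _ hz1
  rw [hlz] at hSp
  have hSp' : |Sp W M - c * (l / 30)| ≤ C := hSp
  rw [abs_le] at hSp'
  obtain ⟨hSpl, hSpu⟩ := hSp'
  have hSple : Sp W M ≤ 1 + l / 30 := by
    have := SW_le W _ hz1
    rw [hlz] at this
    exact this
  -- Rbb and rho
  have hlR : Real.log (Rbb M j) = l / (30 * 2 ^ (j + 1)) := by
    unfold Rbb
    rw [Real.log_rpow hMpos]
    rw [one_div, inv_mul_eq_div]
  have hKK : ((KK j : ℕ) : ℝ) = (2 : ℝ) ^ L := by
    unfold KK
    push_cast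
    rfl
  have hrho : rho M j = l / T := by
    unfold rho
    rw [hlR, hKK, hT]
    rw [div_div]
    congr 1
    ring
  have hrpos : 0 < rho M j := by
    rw [hrho]
    positivity
  have hrhoT : rho M j * T = l := by
    rw [hrho]
    field_simp
  have hCr : 20 * C ≤ c * rho M j := by
    rw [hrho, ← mul_div_assoc, le_div_iff₀ hTpos]
    exact hlT
  have h2L : (0 : ℝ) < 2 ^ L := by positivity
  have h2j : (1 : ℝ) ≤ 2 ^ (j + 1) := one_le_pow₀ (by norm_num)
  have hL0 : (0 : ℝ) ≤ (L : ℝ) := Nat.cast_nonneg _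
  have hexp : Real.exp (2 ^ L * rho M j) ^ 30 ≤ M := by
    rw [← Real.exp_nat_mul, ← Real.le_log_iff_exp_le hMpos]
    have h3 : ((30 : ℕ) : ℝ) * (2 ^ L * rho M j) * (2 ^ (j + 1) * 16 * (1 + L)) = l := by
      rw [← hrhoT, hT]
      push_cast
      ring
    have h4 : (1 : ℝ) ≤ 2 ^ (j + 1) * 16 * (1 + L) := by nlinarith
    have h5 : (0 : ℝ) ≤ ((30 : ℕ) : ℝ) * (2 ^ L * rho M j) := by positivity
    calc ((30 : ℕ) : ℝ) * (2 ^ L * rho M j)
        = ((30 : ℕ) : ℝ) * (2 ^ L * rho M j) * 1 := by ring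
      _ ≤ ((30 : ℕ) : ℝ) * (2 ^ L * rho M j) * (2 ^ (j + 1) * 16 * (1 + L)) :=
          mul_le_mul_of_nonneg_left h4 h5
      _ = l := h3
  obtain ⟨hG1, hG2u, hG2l, hE⟩ := h2 W M c C (rho M j) L hW hc hrpos hC hCr hexp
  have e1 : G1 (pp W M) (gs (rho M j) L) = g1 W M j := rfl
  have e2 : G2 (pp W M) (gs (rho M j) L) = g2 W M j := rfl
  rw [e1] at hG1
  rw [e2] at hG2u hG2l
  refine ⟨?_, ?_, ?_, ?_⟩
  · have h3 : (W.totient : ℝ) / (2 * W) * (l / 32) ≤ c * (l / 32) :=
      mul_le_mul_of_nonneg_right hcW (by positivity)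
    have h4 : c * (l / 32) ≤ c * (l / 30) - C := by
      have e : c * (l / 30) - c * (l / 32) = c * l / 480 := by ring
      linarith
    linarith
  · linarith
  · -- main
    have e : c * (l / 30) = c * l / 30 := by ring
    have hSp2 : Sp W M ≤ (105 / 100) * (c * (l / 30)) := by
      rw [e]
      rw [e] at hSpu
      linarith
    have hSp0 : 0 ≤ Sp W M := by
      have : C ≤ c * (l / 30) := by rw [e]; linarith
      linarith
    have hcr : 0 < c * rho M j := by positivity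
    have hLj : (2 : ℝ) ^ (j + 1) = L / 150 := by
      rw [hL]
      unfold LL
      push_cast
      rw [pow_succ]
      ring
    have hl30 : c * (l / 30) = (c * rho M j) * (2 ^ L * (L / 150 * 16 * (1 + L))) := by
      rw [← hLj, ← hrhoT, hT]
      ring
    have hA : g2 W M j * Sp W M ≤ ((158 / 100) * c * rho M j) * ((105 / 100) * (c * (l / 30))) := by
      apply mul_le_mul hG2u hSp2 hSp0
      positivity
    have hg1 : 0 ≤ (95 / 100) * c * rho M j * (1 + L / 2) := by positivity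
    have hB' : ((95 / 100) * c * rho M j * (1 + L / 2)) ^ 2 ≤ g1 W M j ^ 2 :=
      pow_le_pow_left₀ hg1 hG1 2
    rw [hKK]
    have hC' : (2 : ℝ) ^ L * ((95 / 100) * c * rho M j * (1 + L / 2)) ^ 2 ≤
        2 ^ L * g1 W M j ^ 2 := mul_le_mul_of_nonneg_left hB' h2L.le
    refine hA.trans (le_trans ?_ hC')
    rw [hl30]
    have hkey : (158 / 100 : ℝ) * (105 / 100) * (L / 150 * 16 * (1 + L)) ≤
        (95 / 100 * (1 + L / 2)) ^ 2 := key _ hL0
    have hmul : 0 ≤ (c * rho M j) ^ 2 * 2 ^ L := by positivity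
    have := mul_le_mul_of_nonneg_left hkey hmul
    calc _ = (c * rho M j) ^ 2 * 2 ^ L *
          (158 / 100 * (105 / 100) * (↑L / 150 * 16 * (1 + ↑L))) := by ring
      _ ≤ _ := this
      _ = _ := by ring
  · have e3 : E1 (pp W M) (gs (rho M j) L) = E1 (pp W M) (gg M j) := rfl
    have e4 : E2 (pp W M) (gs (rho M j) L) = E2 (pp W M) (gg M j) := rfl
    have e5 : G1 (pp W M) (gs (rho M j) L) = G1 (pp W M) (gg M j) := rfl
    have e6 : G2 (pp W M) (gs (rho M j) L) = G2 (pp W M) (gg M j) := rfl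
    rw [e3, e4, e5, e6] at hE
    rw [hKK]
    refine hE.trans ?_
    have h3 : 31 / 10 * rho M j * 2 ^ L * (1 + L) = (31 / 160) * Real.log (Rbb M j) := by
      rw [hlR]
      have : l = rho M j * T := hrhoT.symm
      rw [this, hT]
      field_simp
      ring
    rw [h3]
    have h4 : 0 ≤ Real.log (Rbb M j) := by
      rw [hlR]
      positivity
    linarith

end Pool.Agent.Helper90.MT
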