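import Pool.Agent.Helper90.MT.StS

/-!
Project MT, module S-Loc: the local theorem from the bounds L0 - L3 (second moment method).
-/

set_option autoImplicit false

namespace Pool.Agent.Helper90.MT

open Finset

open Classical in
/-- filtered sum -/
noncomputable def Loc_SF (s : Finset ℕ) (p : ℕ → Prop) (f : ℕ → ℝ) : ℝ :=
  ∑ n ∈ s, if p n then f n else 0

lemma Loc_SF_and (t : Finset ℕ) (p q : ℕ → Prop) [DecidablePred p]
    [DecidablePred fun n => p n ∧ q n] (f : ℕ → ℝ) :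
    ∑ n ∈ t.filter (fun n => p n ∧ q n), f n = Loc_SF (t.filter p) q f := by
  unfold Loc_SF
  rw [Finset.sum_filter, Finset.sum_filter]
  refine Finset.sum_congr rfl fun n _ => ?_
  by_cases h : p n
  · by_cases h' : q n
    · rw [if_pos ⟨h, h'⟩, if_pos h, if_pos h']
    · rw [if_neg (fun hh => h' hh.2), if_pos h, if_neg h']
  · rw [if_neg (fun hh => h hh.1), if_neg h]

lemma Loc_SF_le (s : Finset ℕ) (p : ℕ → Prop) (f : ℕ → ℝ) (hf : ∀ n ∈ s, 0 ≤ f n) :
    Loc_SF s p f ≤ ∑ n ∈ s, f n := by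
  unfold Loc_SF
  refine Finset.sum_le_sum fun n hn => ?_
  by_cases h : p n
  · rw [if_pos h]
  · rw [if_neg h]; exact hf n hn

lemma Loc_SF_mono (s : Finset ℕ) (p : ℕ → Prop) (f g : ℕ → ℝ) (hf : ∀ n ∈ s, p n → f n ≤ g n) :
    Loc_SF s p f ≤ Loc_SF s p g := by
  unfold Loc_SF
  refine Finset.sum_le_sum fun n hn => ?_
  by_cases h : p n
  · rw [if_pos h, if_pos h]; exact hf n hn h
  · rw [if_neg h, if_neg h]

lemma Loc_SF_smul (s : Finset ℕ) (p : ℕ → Prop) (f : ℕ → ℝ) (c : ℝ) :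
    Loc_SF s p (fun n => f n * c) = Loc_SF s p f * c := by
  unfold Loc_SF
  rw [Finset.sum_mul]
  refine Finset.sum_congr rfl fun n _ => ?_
  by_cases h : p n
  · rw [if_pos h, if_pos h]
  · rw [if_neg h, if_neg h, zero_mul]

lemma Loc_SF_congr (s : Finset ℕ) (p q : ℕ → Prop) (f g : ℕ → ℝ) (h : ∀ n ∈ s, (p n ↔ q n))
    (h' : ∀ n ∈ s, f n = g n) :
    Loc_SF s p f = Loc_SF s q g := by
  unfold Loc_SF
  refine Finset.sum_congr rfl fun n hn => ?_
  by_cases hp : p n
  · rw [if_pos hp, if_pos ((h n hn).1 hp), h' n hn]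
  · rw [if_neg hp, if_neg (fun hq => hp ((h n hn).2 hq))]

open Classical in
lemma Loc_SF_and' (s : Finset ℕ) (P Q : ℕ → Prop) (f : ℕ → ℝ) :
    Loc_SF s (fun n => P n ∧ Q n) f =
      ∑ n ∈ s, if P n then (if Q n then f n else 0) else 0 := by
  unfold Loc_SF
  refine Finset.sum_congr rfl fun n _ => ?_
  by_cases hp : P n <;> by_cases hp' : Q n <;> simp [hp, hp']

open Classical in
/-- the second moment inequality -/
lemma Loc_second {ι : Type} (G : Finset ι) (s : Finset ℕ) (a : ℕ → ℝ) (lg : ι → ℕ → ℝ)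
    (pr : ι → ℕ → Prop) (l A0 d1 d2 : ℝ)
    (ha : ∀ n ∈ s, 0 ≤ a n) (hl : 0 ≤ l)
    (hlg0 : ∀ h ∈ G, ∀ n ∈ s, pr h n → 0 ≤ lg h n) (hlg : ∀ h ∈ G, ∀ n ∈ s, pr h n → lg h n ≤ l)
    (hA0 : 0 ≤ A0) (hA : ∀ h ∈ G, A0 ≤ Loc_SF s (pr h) (fun n => a n * lg h n))
    (hP : ∀ h ∈ G, ∀ h' ∈ G, Loc_SF s (fun n => pr h n ∧ pr h' n) a ≤
      d2 + if h = h' then d1 else 0) :
    ((#G : ℝ) * A0) ^ 2 ≤ Loc_SF s (fun n => ∃ h ∈ G, pr h n) a *
      (l ^ 2 * ((#G : ℝ) ^ 2 * d2 + (#G : ℝ) * d1)) := by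
  set N : ℕ → ℝ := fun n => ∑ h ∈ G, if pr h n then lg h n else 0 with hN
  set c : ℕ → ℝ := fun n => ∑ h ∈ G, if pr h n then (1 : ℝ) else 0 with hc
  have hN0 : ∀ n ∈ s, 0 ≤ N n := by
    intro n hn
    refine Finset.sum_nonneg fun h hh => ?_
    by_cases hp : pr h n
    · rw [if_pos hp]; exact hlg0 h hh n hn hp
    · rw [if_neg hp]
  have hNc : ∀ n ∈ s, N n ≤ l * c n := by
    intro n hn
    rw [hN, hc]
    simp only
    rw [Finset.mul_sum]
    refine Finset.sum_le_sum fun h hh => ?_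
    by_cases hp : pr h n
    · rw [if_pos hp, if_pos hp, mul_one]; exact hlg h hh n hn hp
    · rw [if_neg hp, if_neg hp, mul_zero]
  have h1 : (#G : ℝ) * A0 ≤ ∑ n ∈ s, a n * N n := by
    have e1 : ∑ n ∈ s, a n * N n = ∑ h ∈ G, Loc_SF s (pr h) (fun n => a n * lg h n) := by
      unfold Loc_SF
      rw [Finset.sum_comm]
      refine Finset.sum_congr rfl fun n _ => ?_
      rw [hN]
      simp only
      rw [Finset.mul_sum]
      refine Finset.sum_congr rfl fun h _ => ?_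
      by_cases hp : pr h n
      · rw [if_pos hp, if_pos hp]
      · rw [if_neg hp, if_neg hp, mul_zero]
    rw [e1, ← nsmul_eq_mul]
    exact Finset.card_nsmul_le_sum _ _ _ hA
  have h2 : (∑ n ∈ s, a n * N n) ^ 2 ≤ Loc_SF s (fun n => ∃ h ∈ G, pr h n) a *
      ∑ n ∈ s, a n * N n ^ 2 := by
    unfold Loc_SF
    apply Finset.sum_sq_le_sum_mul_sum_of_sq_eq_mul
    · intro n hn
      by_cases hp : ∃ h ∈ G, pr h n
      · rw [if_pos hp]; exact ha n hn
      · rw [if_neg hp]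
    · intro n hn
      exact mul_nonneg (ha n hn) (sq_nonneg _)
    · intro n hn
      by_cases hp : ∃ h ∈ G, pr h n
      · rw [if_pos hp]; ring
      · rw [if_neg hp]
        have : N n = 0 := by
          rw [hN]
          refine Finset.sum_eq_zero fun h hh => ?_
          rw [if_neg (fun hh' => hp ⟨h, hh, hh'⟩)]
        rw [this]
        ring
  have h3 : ∑ n ∈ s, a n * N n ^ 2 ≤ l ^ 2 * ((#G : ℝ) ^ 2 * d2 + (#G : ℝ) * d1) := by
    have e1 : ∑ n ∈ s, a n * N n ^ 2 ≤ ∑ n ∈ s, l ^ 2 * (a n * c n ^ 2) := by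
      refine Finset.sum_le_sum fun n hn => ?_
      have := pow_le_pow_left₀ (hN0 n hn) (hNc n hn) 2
      have := mul_le_mul_of_nonneg_left this (ha n hn)
      calc a n * N n ^ 2 ≤ a n * (l * c n) ^ 2 := this
        _ = l ^ 2 * (a n * c n ^ 2) := by ring
    have e2 : ∀ n, c n ^ 2 = ∑ h ∈ G, ∑ h' ∈ G,
        if pr h n then (if pr h' n then (1 : ℝ) else 0) else 0 := by
      intro n
      rw [sq, hc]
      simp only
      rw [Finset.sum_mul_sum]
      refine Finset.sum_congr rfl fun h _ => Finset.sum_congr rfl fun h' _ => ?_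
      by_cases hp : pr h n <;> by_cases hp' : pr h' n <;> simp [hp, hp']
    have e3 : ∑ n ∈ s, a n * c n ^ 2 =
        ∑ h ∈ G, ∑ h' ∈ G, Loc_SF s (fun n => pr h n ∧ pr h' n) a := by
      have : ∀ h ∈ G, ∑ h' ∈ G, Loc_SF s (fun n => pr h n ∧ pr h' n) a =
          ∑ n ∈ s, ∑ h' ∈ G, (if pr h n then (if pr h' n then a n else 0) else 0) := by
        intro h _
        rw [Finset.sum_comm]
        exact Finset.sum_congr rfl fun h' _ => Loc_SF_and' s _ _ a
      rw [Finset.sum_congr rfl this, Finset.sum_comm]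
      refine Finset.sum_congr rfl fun n _ => ?_
      rw [e2, Finset.mul_sum]
      refine Finset.sum_congr rfl fun h _ => ?_
      rw [Finset.mul_sum]
      refine Finset.sum_congr rfl fun h' _ => ?_
      by_cases hp : pr h n <;> by_cases hp' : pr h' n <;> simp [hp, hp']
    have e4 : ∑ h ∈ G, ∑ h' ∈ G, Loc_SF s (fun n => pr h n ∧ pr h' n) a ≤
        ∑ h ∈ G, ∑ h' ∈ G, (d2 + if h = h' then d1 else 0) :=
      Finset.sum_le_sum fun h hh => Finset.sum_le_sum fun h' hh' => hP h hh h' hh'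
    have e5 : ∑ h ∈ G, ∑ h' ∈ G, (d2 + if h = h' then d1 else 0) =
        (#G : ℝ) ^ 2 * d2 + (#G : ℝ) * d1 := by
      have : ∀ h ∈ G, ∑ h' ∈ G, (d2 + if h = h' then d1 else 0) = (#G : ℝ) * d2 + d1 := by
        intro h hh
        rw [Finset.sum_add_distrib, Finset.sum_const, nsmul_eq_mul, Finset.sum_ite_eq, if_pos hh]
      rw [Finset.sum_congr rfl this, Finset.sum_const, nsmul_eq_mul]
      ring
    rw [← Finset.mul_sum, e3] at e1
    refine e1.trans ?_
    rw [← e5]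
    exact mul_le_mul_of_nonneg_left e4 (sq_nonneg _)
  have hS0 : 0 ≤ Loc_SF s (fun n => ∃ h ∈ G, pr h n) a := by
    unfold Loc_SF
    refine Finset.sum_nonneg fun n hn => ?_
    by_cases hp : ∃ h ∈ G, pr h n
    · rw [if_pos hp]; exact ha n hn
    · rw [if_neg hp]
  have hGA : 0 ≤ (#G : ℝ) * A0 := mul_nonneg (Nat.cast_nonneg _) hA0
  calc ((#G : ℝ) * A0) ^ 2 ≤ (∑ n ∈ s, a n * N n) ^ 2 := pow_le_pow_left₀ hGA h1 2
    _ ≤ _ := h2
    _ ≤ _ := mul_le_mul_of_nonneg_left h3 hS0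

/-- the final inequality -/
lemma Loc_final {B S T g h X x Sp l L m φ w : ℝ} {K : ℕ} (hK : 2 ≤ K)
    (hB : 0 ≤ B) (hT : 1 ≤ T) (hg : 1 ≤ g) (hh : 1 ≤ h) (hSp : 0 < Sp)
    (hm : 0 < m) (hφ : 0 < φ) (hw : 0 < w) (hL : 0 < L) (hl0 : 0 < l)
    (h1 : ((K : ℝ) * ((55 / 100) * (X / φ) * T * g ^ 2 * h ^ (K - 1))) ^ 2 ≤
      B * (l ^ 2 * ((K : ℝ) ^ 2 * ((102 / 100) * (x / w) * (Sp ^ 2)⁻¹ * T * g ^ 4 * h ^ (K - 2)) +
        (K : ℝ) * ((102 / 100) * (x / w) * (Sp ^ 1)⁻¹ * T * g ^ 2 * h ^ (K - 1)))))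
    (h2 : h * Sp ≤ K * g ^ 2)
    (h3 : S ≤ (102 / 100) * (x / w) * T * h ^ K)
    (hX : (9 / 100) * m ≤ X) (hx : x ≤ 3 * m) (hx0 : 0 < x)
    (hS : (φ / (2 * w)) * (L / 32) ≤ Sp) (hl : l ≤ (101 / 100) * L) :
    (1 / 10 ^ 9) * S ≤ B := by
  have hh0 : 0 < h := by linarith
  have hg0 : 0 < g := by linarith
  have hT0 : 0 < T := by linarith
  have hX0 : 0 < X := lt_of_lt_of_le (by positivity) hX
  have hKr : (0 : ℝ) < K := by
    have : 0 < K := by omega
    exact_mod_cast this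
  obtain ⟨k, rfl⟩ : ∃ k, K = k + 2 := ⟨K - 2, by omega⟩
  have ek1 : k + 2 - 1 = k + 1 := by omega
  have ek2 : k + 2 - 2 = k := by omega
  rw [ek1, ek2] at h1
  set Kr : ℝ := ((k + 2 : ℕ) : ℝ) with hKr'
  -- bound the second moment
  have h4 : Kr * ((102 / 100) * (x / w) * (Sp ^ 1)⁻¹ * T * g ^ 2 * h ^ (k + 1)) ≤
      Kr ^ 2 * ((102 / 100) * (x / w) * (Sp ^ 2)⁻¹ * T * g ^ 4 * h ^ k) := by
    have e1 : Kr * ((102 / 100) * (x / w) * (Sp ^ 1)⁻¹ * T * g ^ 2 * h ^ (k + 1)) =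
        (Kr * ((102 / 100) * (x / w) * (Sp ^ 2)⁻¹ * T * g ^ 2 * h ^ k)) * (h * Sp) := by
      field_simp
      try ring
    have e2 : Kr ^ 2 * ((102 / 100) * (x / w) * (Sp ^ 2)⁻¹ * T * g ^ 4 * h ^ k) =
        (Kr * ((102 / 100) * (x / w) * (Sp ^ 2)⁻¹ * T * g ^ 2 * h ^ k)) * (Kr * g ^ 2) := by
      ring
    rw [e1, e2]
    exact mul_le_mul_of_nonneg_left h2 (by positivity)
  have h5 : (Kr * ((55 / 100) * (X / φ) * T * g ^ 2 * h ^ (k + 1))) ^ 2 ≤
      B * (l ^ 2 * (2 * (Kr ^ 2 * ((102 / 100) * (x / w) * (Sp ^ 2)⁻¹ * T * g ^ 4 * h ^ k)))) := by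
    refine h1.trans (mul_le_mul_of_nonneg_left (mul_le_mul_of_nonneg_left ?_ (sq_nonneg _)) hB)
    linarith
  -- cancel common factors
  have h6 : (3025 / 10000) * (X / φ) ^ 2 * T * h ^ (k + 2) * Sp ^ 2 ≤
      B * (l ^ 2 * ((204 / 100) * (x / w))) := by
    have hc : 0 < Kr ^ 2 * T * g ^ 4 * h ^ k * (Sp ^ 2)⁻¹ := by positivity
    refine le_of_mul_le_mul_right ?_ hc
    calc (3025 / 10000) * (X / φ) ^ 2 * T * h ^ (k + 2) * Sp ^ 2 *
          (Kr ^ 2 * T * g ^ 4 * h ^ k * (Sp ^ 2)⁻¹) =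
        (Kr * ((55 / 100) * (X / φ) * T * g ^ 2 * h ^ (k + 1))) ^ 2 := by
          field_simp
          ring
      _ ≤ _ := h5
      _ = _ := by ring
  -- the constants
  have h7 : (x / w) * l ≤ 2200 * ((X / φ) * Sp) := by
    have e1 : (x / w) * l ≤ (3 * m / w) * ((101 / 100) * L) := by
      gcongr
    have e2 : ((9 / 100) * m / φ) * ((φ / (2 * w)) * (L / 32)) ≤ (X / φ) * Sp := by
      gcongr
    have e3 : ((9 / 100) * m / φ) * ((φ / (2 * w)) * (L / 32)) = (9 / 6400) * (m * L / w) := by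
      field_simp
      ring
    have e4 : (3 * m / w) * ((101 / 100) * L) = (303 / 100) * (m * L / w) := by ring
    have e5 : 0 < m * L / w := by positivity
    rw [e3] at e2
    rw [e4] at e1
    linarith
  have h8 : ((x / w) * l) ^ 2 ≤ (2200 * ((X / φ) * Sp)) ^ 2 :=
    pow_le_pow_left₀ (by positivity) h7 2
  have h9 : (1 / 10 ^ 9) * ((102 / 100) * (x / w) * T * h ^ (k + 2)) * (l ^ 2 * ((204 / 100) * (x / w)))
      ≤ (3025 / 10000) * (X / φ) ^ 2 * T * h ^ (k + 2) * Sp ^ 2 := by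
    have e1 : (1 / 10 ^ 9) * ((102 / 100) * (x / w) * T * h ^ (k + 2)) *
        (l ^ 2 * ((204 / 100) * (x / w))) =
        ((20808 / 10000) / 10 ^ 9 * (T * h ^ (k + 2))) * ((x / w) * l) ^ 2 := by ring
    have e2 : (3025 / 10000) * (X / φ) ^ 2 * T * h ^ (k + 2) * Sp ^ 2 =
        ((3025 / 10000) / 2200 ^ 2 * (T * h ^ (k + 2))) * (2200 * ((X / φ) * Sp)) ^ 2 := by ring
    rw [e1, e2]
    have hTh : 0 < T * h ^ (k + 2) := by positivity
    refine mul_le_mul ?_ h8 (sq_nonneg _) (by positivity)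
    refine mul_le_mul_of_nonneg_right ?_ hTh.le
    norm_num
  have h10 : (1 / 10 ^ 9) * ((102 / 100) * (x / w) * T * h ^ (k + 2)) ≤ B := by
    have hc : 0 < l ^ 2 * ((204 / 100) * (x / w)) := by positivity
    exact le_of_mul_le_mul_right (h9.trans h6) hc
  refine le_trans ?_ h10
  exact mul_le_mul_of_nonneg_left h3 (by norm_num)

/-- module S-Loc -/
theorem loc (h0 : StL0) (h1 : StL1) (h2 : StL2) (h3 : StL3) (h4 : StTent) (h5 : StCheb) :
    StLoc := by
  classical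
  intro ι _ _ sh grp J w W v hF hJ
  obtain ⟨M0, hM0⟩ := h0 ι sh grp J w W v hF
  obtain ⟨M1, hM1⟩ := h1 ι sh grp J w W v hF
  obtain ⟨M2, hM2⟩ := h2 ι sh grp J w W v hF
  choose M3 hM3 using fun j => h3 W j hF.W0
  obtain ⟨M5, hM5⟩ := h5
  refine ⟨M0 + M1 + M2 + (∑ j ∈ range J, M3 j) + M5 + w + ⌈Real.exp (21 * W + 400)⌉₊, ?_⟩
  intro M hM E hE hE1 hE2
  have hM3' : ∀ j < J, M3 j ≤ M := by
    intro j hj
    have : M3 j ≤ ∑ j ∈ range J, M3 j :=
      Finset.single_le_sum (f := M3) (fun i _ => Nat.zero_le _) (Finset.mem_range.2 hj)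
    omega
  obtain ⟨-, -, -, -, hT, hg1, hg2⟩ := hM0 M (by omega)
  have hL1 := hM1 M (by omega)
  have hL2 := hM2 M (by omega) E hE hE1 hE2
  obtain ⟨hX1, hX0, hX0'⟩ := hM5 M (by omega)
  have hMw : w ≤ M := by omega
  have hWr : (0 : ℝ) < W := by exact_mod_cast hF.W0
  have hφ : (0 : ℝ) < (W.totient : ℝ) := by
    exact_mod_cast Nat.totient_pos.2 hF.W0
  have hφW : (W.totient : ℝ) ≤ W := by exact_mod_cast Nat.totient_le W
  have hMexp : Real.exp (21 * W + 400) ≤ M := by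
    have h6 : ⌈Real.exp (21 * W + 400)⌉₊ ≤ M := by omega
    exact (Nat.le_ceil _).trans (by exact_mod_cast h6)
  have hMr : (0 : ℝ) < M := lt_of_lt_of_le (Real.exp_pos _) hMexp
  have hM1' : 0 < M := by exact_mod_cast hMr
  set L := Real.log M with hL
  have hLbig : 21 * (W : ℝ) + 400 ≤ L := by
    rw [hL, Real.le_log_iff_exp_le hMr]; exact hMexp
  have hL0 : 0 < L := by linarith
  set l := Real.log (5 * M) with hl
  have hlL : l ≤ (101 / 100) * L := by
    rw [hl, Real.log_mul (by norm_num) hMr.ne']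
    have := Real.log_le_sub_one_of_pos (show (0 : ℝ) < 5 by norm_num)
    have h7 : (0 : ℝ) ≤ W := hWr.le
    linarith
  have hl0 : 0 < l := by
    rw [hl]
    apply Real.log_pos
    have : (1 : ℝ) ≤ M := by exact_mod_cast hM1'
    linarith
  obtain ⟨ht0, -, -, -, -⟩ := h4 M hM1'
  set s := (Ioc M (4 * M)).filter (fun n => n ≡ v [MOD W]) with hs
  set a : ℕ → ℝ := fun n => tent M n * WT W M sh grp J n with ha
  have ha0 : ∀ n, 0 ≤ a n := by
    intro n
    refine mul_nonneg (ht0 n) ?_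
    unfold WT wt
    exact sq_nonneg _
  have hsI : ∀ n ∈ s, n ∈ Ioc M (4 * M) := fun n hn => (Finset.mem_filter.1 hn).1
  have hlg0 : ∀ h : ι, ∀ n ∈ s, 0 ≤ Real.log (n + sh h : ℕ) := by
    intro h n hn
    apply Real.log_nonneg
    have := (Finset.mem_Ioc.1 (hsI n hn)).1
    exact_mod_cast (by omega : 1 ≤ n + sh h)
  have hlg : ∀ h : ι, ∀ n ∈ s, Real.log (n + sh h : ℕ) ≤ l := by
    intro h n hn
    have h6 := Finset.mem_Ioc.1 (hsI n hn)
    have h7 := hF.lt h
    rw [hl]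
    apply Real.log_le_log
    · exact_mod_cast (by omega : 0 < n + sh h)
    · exact_mod_cast (by omega : n + sh h ≤ 5 * M)
  -- the lower bound for one prime
  have hlow : ∀ h : ι, (55 / 100) * (X1 M / W.totient) * Tj W M grp J (grp h) *
      g1 W M (grp h) ^ 2 * g2 W M (grp h) ^ (KK (grp h) - 1) ≤
      Loc_SF s (fun n => (n + sh h).Prime) (fun n => a n * Real.log (n + sh h : ℕ)) := by
    intro h
    have h6 := hL2 h
    rw [Loc_SF_and] at h6
    refine h6.trans (le_of_eq ?_)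
    refine Loc_SF_congr _ _ _ _ _ (fun n _ => Iff.rfl) (fun n _ => ?_)
    rw [ha]
    simp only
    ring
  constructor
  · -- total mass
    have hne : 0 < #(univ.filter (fun h : ι => grp h = 0)) := by
      rw [hF.card 0 hJ]; unfold KK; positivity
    obtain ⟨h, hh⟩ := Finset.card_pos.1 hne
    have h6 := hlow h
    have h7 : Loc_SF s (fun n => (n + sh h).Prime) (fun n => a n * Real.log (n + sh h : ℕ)) ≤
        (∑ n ∈ s, a n) * l := by
      calc _ ≤ Loc_SF s (fun n => (n + sh h).Prime) (fun n => a n * l) :=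
            Loc_SF_mono _ _ _ _ fun n hn _ => mul_le_mul_of_nonneg_left (hlg h n hn) (ha0 n)
        _ = Loc_SF s (fun n => (n + sh h).Prime) a * l := Loc_SF_smul _ _ _ _
        _ ≤ _ := mul_le_mul_of_nonneg_right (Loc_SF_le _ _ _ fun n _ => ha0 n) hl0.le
    have h8 : (495 / 10000) * (M / W.totient) ≤ (∑ n ∈ s, a n) * l := by
      refine le_trans ?_ (h6.trans h7)
      have e1 : (1 : ℝ) ≤ Tj W M grp J (grp h) := hT _
      have e2 : (1 : ℝ) ≤ g1 W M (grp h) ^ 2 := one_le_pow₀ (hg1 _)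
      have e3 : (1 : ℝ) ≤ g2 W M (grp h) ^ (KK (grp h) - 1) := one_le_pow₀ (hg2 _)
      have e4 : (495 / 10000) * (M / W.totient : ℝ) ≤ (55 / 100) * (X1 M / W.totient) := by
        have : (M : ℝ) / W.totient * (9 / 100) ≤ X1 M / W.totient := by
          rw [div_mul_eq_mul_div]
          gcongr
          linarith
        linarith
      have e5 : 0 ≤ (55 / 100) * (X1 M / W.totient) := le_trans (by positivity) e4
      calc (495 / 10000) * (M / W.totient : ℝ) ≤ (55 / 100) * (X1 M / W.totient) := e4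
        _ ≤ (55 / 100) * (X1 M / W.totient) * Tj W M grp J (grp h) :=
            le_mul_of_one_le_right e5 e1
        _ ≤ (55 / 100) * (X1 M / W.totient) * Tj W M grp J (grp h) * g1 W M (grp h) ^ 2 :=
            le_mul_of_one_le_right (mul_nonneg e5 (by linarith)) e2
        _ ≤ _ := le_mul_of_one_le_right
            (mul_nonneg (mul_nonneg e5 (by linarith)) (by linarith)) e3
    have h9 : (M : ℝ) / L ^ 2 * l ≤ (495 / 10000) * (M / W.totient) := by
      rw [div_mul_eq_mul_div, mul_div_assoc', div_le_div_iff₀ (by positivity) hφ]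
      have e1 : l * W.totient ≤ (101 / 100) * L * ((1 / 21) * L) := by
        refine mul_le_mul hlL ?_ hφ.le (by positivity)
        linarith
      have e2 : (M : ℝ) * l * W.totient = M * (l * W.totient) := by ring
      have e3 : (495 / 10000) * (M : ℝ) * L ^ 2 = M * ((495 / 10000) * L ^ 2) := by ring
      rw [e2, e3]
      refine mul_le_mul_of_nonneg_left (e1.trans ?_) hMr.le
      nlinarith [sq_nonneg L]
    exact le_of_mul_le_mul_right (h9.trans h8) hl0
  · intro j hj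
    obtain ⟨hSp1, hSp2, hgS, -⟩ := hM3 j M (hM3' j hj)
    have hSp : 0 < Sp W M := lt_of_lt_of_le (by positivity) hSp1
    set G := univ.filter (fun h : ι => grp h = j) with hG
    have hGc : #G = KK j := hF.card j hj
    have hK2 : 2 ≤ KK j := by
      unfold KK LL
      calc 2 = 2 ^ 1 := by norm_num
        _ ≤ 2 ^ (300 * 2 ^ j) := Nat.pow_le_pow_right (by norm_num) (by
          have : 0 < 2 ^ j := by positivity
          omega)
    have hmem : ∀ h ∈ G, grp h = j := fun h hh => (Finset.mem_filter.1 hh).2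
    have hX0p : 0 < X0 M := lt_of_lt_of_le (by positivity) hX0'
    have hX1p : 0 < X1 M := lt_of_lt_of_le (by positivity) hX1
    have hTp : 0 < Tj W M grp J j := lt_of_lt_of_le one_pos (hT j)
    have hg1p : 0 < g1 W M j := lt_of_lt_of_le one_pos (hg1 j)
    have hg2p : 0 < g2 W M j := lt_of_lt_of_le one_pos (hg2 j)
    have hS : ∑ n ∈ s, a n ≤ (102 / 100) * (X0 M / W) * Tj W M grp J j * g2 W M j ^ KK j := by
      have h6 := hL1 j hj ∅ (by simp) (by simp)
      rw [Loc_SF_and] at h6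
      have e1 : Loc_SF ((Ioc M (4 * M)).filter (fun n => n ≡ v [MOD W]))
          (fun n => ∀ h ∈ (∅ : Finset ι), (n + sh h).Prime)
          (fun n => tent M n * WT W M sh grp J n) = ∑ n ∈ s, a n := by
        unfold Loc_SF
        refine Finset.sum_congr rfl fun n _ => ?_
        rw [if_pos (by simp)]
      rw [e1] at h6
      simpa using h6
    set d1 : ℝ := (102 / 100) * (X0 M / W) * ((Sp W M) ^ 1)⁻¹ * Tj W M grp J j *
      g1 W M j ^ 2 * g2 W M j ^ (KK j - 1) with hd1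
    set d2 : ℝ := (102 / 100) * (X0 M / W) * ((Sp W M) ^ 2)⁻¹ * Tj W M grp J j *
      g1 W M j ^ 4 * g2 W M j ^ (KK j - 2) with hd2
    have hd2p : 0 ≤ d2 := by rw [hd2]; positivity
    have hP : ∀ h ∈ G, ∀ h' ∈ G, Loc_SF s (fun n => (n + sh h).Prime ∧ (n + sh h').Prime) a ≤
        d2 + if h = h' then d1 else 0 := by
      intro h hh h' hh'
      have h6 := hL1 j hj {h, h'} (by
        intro x hx
        rcases Finset.mem_insert.1 hx with rfl | hx
        · exact hmem _ hh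
        · rw [Finset.mem_singleton.1 hx]; exact hmem _ hh') Finset.card_le_two
      rw [Loc_SF_and] at h6
      have e1 : Loc_SF ((Ioc M (4 * M)).filter (fun n => n ≡ v [MOD W]))
          (fun n => ∀ x ∈ ({h, h'} : Finset ι), (n + sh x).Prime)
          (fun n => tent M n * WT W M sh grp J n) =
          Loc_SF s (fun n => (n + sh h).Prime ∧ (n + sh h').Prime) a := by
        refine Loc_SF_congr _ _ _ _ _ (fun n _ => ?_) (fun n _ => rfl)
        simp
      rw [e1] at h6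
      by_cases hhh : h = h'
      · rw [if_pos hhh]
        subst hhh
        have e2 : #({h, h} : Finset ι) = 1 := by simp
        rw [e2] at h6
        have : Loc_SF s (fun n => (n + sh h).Prime ∧ (n + sh h).Prime) a ≤ d1 := h6
        linarith
      · rw [if_neg hhh, add_zero]
        have e2 : #({h, h'} : Finset ι) = 2 := Finset.card_pair hhh
        rw [e2] at h6
        exact h6
    have hsec := Loc_second G s a (fun h n => Real.log (n + sh h : ℕ))
      (fun h n => (n + sh h).Prime) l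
      ((55 / 100) * (X1 M / W.totient) * Tj W M grp J j * g1 W M j ^ 2 * g2 W M j ^ (KK j - 1))
      d1 d2 (fun n _ => ha0 n) hl0.le (fun h _ n hn _ => hlg0 h n hn)
      (fun h _ n hn _ => hlg h n hn) (by positivity) (by
        intro h hh
        have := hlow h
        rw [hmem h hh] at this
        exact this) (fun h hh h' hh' => by convert hP h hh h' hh')
    rw [hGc] at hsec
    have hB0 : 0 ≤ Loc_SF s (fun n => ∃ h ∈ G, (n + sh h).Prime) a := by
      unfold Loc_SF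
      refine Finset.sum_nonneg fun n _ => ?_
      split_ifs
      · exact ha0 n
      · exact le_rfl
    have hfin := Loc_final (K := KK j) (S := ∑ n ∈ s, a n) hK2 hB0 (hT j) (hg1 j) (hg2 j) hSp hMr
      hφ hWr hL0 hl0 hsec hgS hS hX1 hX0 hX0p hSp1 hlL
    rw [Loc_SF_and]
    refine hfin.trans (le_of_eq ?_)
    refine Loc_SF_congr _ _ _ _ _ (fun n _ => ?_) (fun n _ => rfl)
    constructor
    · rintro ⟨h, hh, hp⟩
      exact ⟨h, hmem h hh, hp⟩
    · rintro ⟨h, hh, hp⟩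
      exact ⟨h, Finset.mem_filter.2 ⟨Finset.mem_univ _, hh⟩, hp⟩

end Pool.Agent.Helper90.MT
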