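import Pool.Agent.Helper90.MT.LossP

/-!
Project MT, module S-LossO: loss lemma for one entry.
-/

set_option autoImplicit false

namespace Pool.Agent.Helper90.MT

open Finset

open LowAux in
theorem lossO : StLossO := by
  intro α κ _ _ _ _ pr F i h hp hinj hF0 hFA
  classical
  rw [sum_piDD_filter pr hp hinj, sum_piDD pr hp hinj]
  have := loss_gen pr F i {h} hp hF0 hFA
  rw [Finset.card_singleton, pow_one] at this
  simp only [WW_eq, dvd_xof pr hp hinj]
  refine le_trans (le_of_eq ?_) this
  refine Finset.sum_congr rfl fun ω _ => ?_
  simp only [Finset.singleton_subset_iff]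

end Pool.Agent.Helper90.MT
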