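import Pool.Agent.Helper90.MT.StS

/-!
Project MT, module S-Low: from assignments to tuples, lower bound.
-/

set_option autoImplicit false

namespace Pool.Agent.Helper90.MT

open Finset

namespace LowAux

set_option linter.unusedSectionVars false

section Bij
variable {α κ : Type} [Fintype α] [DecidableEq α] [Fintype κ] [DecidableEq κ]

lemma dvd_prod_iff (pr : α → ℕ) (hp : ∀ i, (pr i).Prime) (hinj : Function.Injective pr)
    (s : Finset α) (i : α) : pr i ∣ ∏ j ∈ s, pr j ↔ i ∈ s := by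
  rw [(hp i).prime.dvd_finsetProd_iff]
  constructor
  · rintro ⟨j, hj, hd⟩
    have := (Nat.prime_dvd_prime_iff_eq (hp i) (hp j)).1 hd
    rw [hinj this]; exact hj
  · intro h
    exact ⟨i, h, dvd_rfl⟩

/-- the tuple of a family of sets of indices -/
def xof (pr : α → ℕ) (ω : α → Finset κ) : κ → ℕ := fun k => ∏ i, if k ∈ ω i then pr i else 1

lemma xof_eq (pr : α → ℕ) (ω : α → Finset κ) (k : κ) :
    xof pr ω k = ∏ i ∈ univ.filter (fun i => k ∈ ω i), pr i := by
  rw [xof, Finset.prod_filter]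

lemma dvd_xof (pr : α → ℕ) (hp : ∀ i, (pr i).Prime) (hinj : Function.Injective pr)
    (ω : α → Finset κ) (k : κ) (i : α) : pr i ∣ xof pr ω k ↔ k ∈ ω i := by
  rw [xof_eq, dvd_prod_iff pr hp hinj]
  simp

lemma xof_mem (pr : α → ℕ) (ω : α → Finset κ) : xof pr ω ∈ piDD κ pr := by
  rw [piDD, Fintype.mem_piFinset]
  intro k
  rw [xof_eq, DD]
  exact Finset.mem_image.2 ⟨_, Finset.mem_powerset.2 (Finset.subset_univ _), rfl⟩

lemma sum_piDD (pr : α → ℕ) (hp : ∀ i, (pr i).Prime) (hinj : Function.Injective pr)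
    (f : (κ → ℕ) → ℝ) : ∑ x ∈ piDD κ pr, f x = ∑ ω : α → Finset κ, f (xof pr ω) := by
  symm
  refine Finset.sum_bij (fun ω _ => xof pr ω) ?_ ?_ ?_ ?_
  · intro ω _; exact xof_mem pr ω
  · intro ω _ ω' _ h
    funext i
    ext k
    rw [← dvd_xof pr hp hinj ω k i, ← dvd_xof pr hp hinj ω' k i, h]
  · intro x hx
    rw [piDD, Fintype.mem_piFinset] at hx
    have hx' : ∀ k, ∃ s : Finset α, ∏ i ∈ s, pr i = x k := by
      intro k
      have := hx k
      rw [DD, Finset.mem_image] at this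
      obtain ⟨s, _, hs⟩ := this
      exact ⟨s, hs⟩
    choose s hs using hx'
    refine ⟨fun i => univ.filter (fun k => i ∈ s k), Finset.mem_univ _, ?_⟩
    funext k
    rw [xof_eq, ← hs k]
    congr 1
    ext i
    simp
  · intro ω _; rfl

lemma sum_piDD_filter (pr : α → ℕ) (hp : ∀ i, (pr i).Prime) (hinj : Function.Injective pr)
    (P : (κ → ℕ) → Prop) [DecidablePred P]
    (f : (κ → ℕ) → ℝ) : ∑ x ∈ (piDD κ pr).filter P, f x =
      ∑ ω : α → Finset κ, if P (xof pr ω) then f (xof pr ω) else 0 := by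
  rw [Finset.sum_filter, sum_piDD pr hp hinj]

lemma xof_pos (pr : α → ℕ) (hp : ∀ i, (pr i).Prime) (ω : α → Finset κ) (k : κ) :
    0 < xof pr ω k := by
  rw [xof]
  refine Finset.prod_pos fun i _ => ?_
  split_ifs
  · exact (hp i).pos
  · exact one_pos

/-- weight of a family of sets -/
noncomputable def WW (pr : α → ℕ) (ω : α → Finset κ) : ℝ :=
  ∏ i, ∏ k, if k ∈ ω i then 1 / (pr i : ℝ) else 1

lemma WW_nonneg (pr : α → ℕ) (ω : α → Finset κ) : 0 ≤ WW pr ω := by
  rw [WW]
  refine Finset.prod_nonneg fun i _ => Finset.prod_nonneg fun k _ => ?_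
  split_ifs <;> positivity

lemma WW_eq (pr : α → ℕ) (ω : α → Finset κ) (f : ℝ) :
    f / ∏ k, (xof pr ω k : ℝ) = WW pr ω * f := by
  have h : (∏ k, (xof pr ω k : ℝ))⁻¹ = WW pr ω := by
    rw [WW, Finset.prod_comm, ← Finset.prod_inv_distrib]
    refine Finset.prod_congr rfl fun k _ => ?_
    rw [xof]
    push_cast
    rw [← Finset.prod_inv_distrib]
    refine Finset.prod_congr rfl fun i _ => ?_
    split_ifs <;> simp
  rw [div_eq_mul_inv, h, mul_comm]

end Bij

/-- Bernoulli -/
lemma one_sub_sum_le {α : Type} (s : Finset α) (t : α → ℝ) (h0 : ∀ i, 0 ≤ t i) (h1 : ∀ i, t i ≤ 1) :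
    1 - ∑ i ∈ s, t i ≤ ∏ i ∈ s, (1 - t i) := by
  classical
  induction s using Finset.induction_on with
  | empty => simp
  | insert a s ha ih =>
    rw [Finset.sum_insert ha, Finset.prod_insert ha]
    have hP0 : 0 ≤ ∏ i ∈ s, (1 - t i) :=
      Finset.prod_nonneg fun i _ => by linarith [h1 i]
    have hP1 : ∏ i ∈ s, (1 - t i) ≤ 1 :=
      Finset.prod_le_one (fun i _ => by linarith [h1 i]) (fun i _ => by linarith [h0 i])
    nlinarith [h0 a, h1 a]

section Main
variable {α ι : Type} [Fintype α] [DecidableEq α] [Fintype ι] [DecidableEq ι]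

/-- the function on the extended tuples -/
noncomputable def FF (m : ι) (Yn : (ι → ℕ) → ℝ) (y : Option ι → ℕ) : ℝ :=
  Yn (fun h => y (some h)) * Yn (Function.update (fun h => y (some h)) m (y none))

lemma FF_nonneg (m : ι) (Yn : (ι → ℕ) → ℝ) (h0 : ∀ x, 0 ≤ Yn x) (y : Option ι → ℕ) :
    0 ≤ FF m Yn y := mul_nonneg (h0 _) (h0 _)

lemma FF_anti (m : ι) (Yn : (ι → ℕ) → ℝ) (h0 : ∀ x, 0 ≤ Yn x) (hA : Anti Yn) :
    Anti (FF m Yn) := by
  intro x y hxy hy
  refine mul_le_mul (hA _ _ (fun h => hxy _) (fun h => hy _)) (hA _ _ ?_ ?_) (h0 _) (h0 _)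
  · intro h
    by_cases hm : h = m
    · subst hm; simpa using hxy none
    · simpa [Function.update_of_ne hm] using hxy (some h)
  · intro h
    by_cases hm : h = m
    · subst hm; simpa using hy none
    · simpa [Function.update_of_ne hm] using hy (some h)

lemma one_mem_DD (pr : α → ℕ) : 1 ∈ DD pr := by
  rw [DD, Finset.mem_image]
  exact ⟨∅, by simp, by simp⟩

/-- `Full` as a sum over extended tuples -/
lemma full_eq (pr : α → ℕ) (m : ι) (Yn : (ι → ℕ) → ℝ) :
    Full pr Yn {m} = ∑ y ∈ piDD (Option ι) pr, FF m Yn y / ∏ k, (y k : ℝ) := by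
  classical
  rw [Full]
  have h1 : ∀ x : ι → ℕ, (∏ h, (x h : ℝ))⁻¹ *
      (∑ c ∈ (piDD ι pr).filter (fun c => ∀ h, h ∉ ({m} : Finset ι) → c h = 1),
        Yn (x * c) / ∏ h, (c h : ℝ)) ^ 2 =
      ∑ c ∈ (piDD ι pr).filter (fun c => ∀ h, h ∉ ({m} : Finset ι) → c h = 1),
      ∑ c' ∈ (piDD ι pr).filter (fun c => ∀ h, h ∉ ({m} : Finset ι) → c h = 1),
        (∏ h, (x h : ℝ))⁻¹ * ((Yn (x * c) / ∏ h, (c h : ℝ)) * (Yn (x * c') / ∏ h, (c' h : ℝ))) := by
    intro x
    rw [sq, Finset.sum_mul_sum, Finset.mul_sum]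
    refine Finset.sum_congr rfl fun c _ => ?_
    rw [Finset.mul_sum]
  rw [Finset.sum_congr rfl (fun x _ => h1 x)]
  set A := (piDD ι pr).filter (fun x => ∀ h ∈ ({m} : Finset ι), x h = 1) with hA
  set B := (piDD ι pr).filter (fun c => ∀ h, h ∉ ({m} : Finset ι) → c h = 1) with hB
  have h2 : (∑ x ∈ A, ∑ c ∈ B, ∑ c' ∈ B,
        (∏ h, (x h : ℝ))⁻¹ * ((Yn (x * c) / ∏ h, (c h : ℝ)) * (Yn (x * c') / ∏ h, (c' h : ℝ)))) =
      ∑ t ∈ A ×ˢ (B ×ˢ B), (∏ h, (t.1 h : ℝ))⁻¹ * ((Yn (t.1 * t.2.1) / ∏ h, (t.2.1 h : ℝ)) *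
        (Yn (t.1 * t.2.2) / ∏ h, (t.2.2 h : ℝ))) := by
    rw [Finset.sum_product]
    refine Finset.sum_congr rfl fun x _ => ?_
    rw [Finset.sum_product]
  rw [h2]
  have hmA : ∀ x : ι → ℕ, x ∈ A ↔ (∀ h, x h ∈ DD pr) ∧ x m = 1 := by
    intro x; rw [hA, Finset.mem_filter, piDD, Fintype.mem_piFinset]; simp
  have hmB : ∀ x : ι → ℕ, x ∈ B ↔ (∀ h, x h ∈ DD pr) ∧ ∀ h, h ≠ m → x h = 1 := by
    intro x; rw [hB, Finset.mem_filter, piDD, Fintype.mem_piFinset]; simp
  refine Finset.sum_nbij'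
    (fun t k => match k with
      | none => t.2.2 m
      | some h => if h = m then t.2.1 m else t.1 h)
    (fun y => (fun h => if h = m then 1 else y (some h),
      (fun h => if h = m then y (some m) else 1), (fun h => if h = m then y none else 1)))
    ?_ ?_ ?_ ?_ ?_
  · rintro ⟨x, c, c'⟩ ht
    rw [Finset.mem_product, Finset.mem_product] at ht
    obtain ⟨hx, hc, hc'⟩ := ht
    simp only at hx hc hc'
    rw [hmA] at hx
    rw [hmB] at hc hc'
    rw [piDD, Fintype.mem_piFinset]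
    rintro (_ | h)
    · exact hc'.1 m
    · simp only
      split_ifs
      · exact hc.1 m
      · exact hx.1 h
  · intro y hy
    rw [piDD, Fintype.mem_piFinset] at hy
    rw [Finset.mem_product, Finset.mem_product]
    refine ⟨?_, ?_, ?_⟩
    · rw [hmA]
      refine ⟨fun h => ?_, by simp⟩
      simp only
      split_ifs
      · exact one_mem_DD pr
      · exact hy _
    · rw [hmB]
      refine ⟨fun h => ?_, fun h hh => by simp [hh]⟩
      simp only
      split_ifs
      · exact hy _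
      · exact one_mem_DD pr
    · rw [hmB]
      refine ⟨fun h => ?_, fun h hh => by simp [hh]⟩
      simp only
      split_ifs
      · exact hy _
      · exact one_mem_DD pr
  · rintro ⟨x, c, c'⟩ ht
    rw [Finset.mem_product, Finset.mem_product] at ht
    obtain ⟨hx, hc, hc'⟩ := ht
    simp only at hx hc hc'
    rw [hmA] at hx
    rw [hmB] at hc hc'
    ext h
    · simp only
      split_ifs with hh
      · rw [hh, hx.2]
      · rfl
    · simp only
      split_ifs with hh
      · rw [hh]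
      · rw [hc.2 h hh]
    · simp only
      split_ifs with hh
      · rw [hh]
      · rw [hc'.2 h hh]
  · intro y hy
    funext k
    rcases k with _ | h
    · simp
    · simp only
      split_ifs with hh
      · rw [hh]
      · rfl
  · rintro ⟨x, c, c'⟩ ht
    rw [Finset.mem_product, Finset.mem_product] at ht
    obtain ⟨hx, hc, hc'⟩ := ht
    simp only at hx hc hc'
    rw [hmA] at hx
    rw [hmB] at hc hc'
    simp only [FF]
    have e1 : (fun h => if h = m then c m else x h) = x * c := by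
      funext h
      by_cases hh : h = m
      · simp [hh, hx.2]
      · rw [if_neg hh, Pi.mul_apply, hc.2 h hh, mul_one]
    have e2 : Function.update (x * c) m (c' m) = x * c' := by
      funext h
      by_cases hh : h = m
      · subst hh; simp [hx.2]
      · simp [hh, hc'.2 h hh, hc.2 h hh]
    have e3 : (∏ h, (c h : ℝ)) = c m := by
      refine Finset.prod_eq_single m (fun h _ hh => by rw [hc.2 h hh]; simp) (by simp)
    have e4 : (∏ h, (c' h : ℝ)) = c' m := by
      refine Finset.prod_eq_single m (fun h _ hh => by rw [hc'.2 h hh]; simp) (by simp)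
    have e5 : (∏ h, (((x * c) h : ℕ) : ℝ)) = c m * ∏ h, (x h : ℝ) := by
      rw [← e3, ← Finset.prod_mul_distrib]
      refine Finset.prod_congr rfl fun h _ => ?_
      rw [Pi.mul_apply]; push_cast; ring
    rw [e1, e2, e3, e4, Fintype.prod_option]
    simp only at e5 ⊢
    rw [e5]
    simp only [div_eq_mul_inv, mul_inv]
    ring

/-- local goodness -/
def Gd (m : ι) (s : Finset (Option ι)) : Prop :=
  ∀ k ∈ s, ∀ k' ∈ s, k ≠ k' → (k = some m ∧ k' = none) ∨ (k = none ∧ k' = some m)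

open Classical in
noncomputable def aL (m : ι) (s : Finset (Option ι)) : Option ι :=
  if h : ∃ h, h ≠ m ∧ some h ∈ s then some h.choose else none

noncomputable def cL (m : ι) (s : Finset (Option ι)) : Option ι :=
  if some m ∈ s then some m else aL m s

noncomputable def dL (m : ι) (s : Finset (Option ι)) : Option ι :=
  if none ∈ s then some m else aL m s

lemma aL_iff {m : ι} {s : Finset (Option ι)} (hg : Gd m s) (h : ι) :
    aL m s = some h ↔ h ≠ m ∧ some h ∈ s := by
  rw [aL]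
  split_ifs with hex
  · have hc := hex.choose_spec
    constructor
    · intro e
      rw [Option.some_inj] at e
      rw [← e]; exact hc
    · rintro ⟨h1, h2⟩
      by_contra hne
      have := hg _ hc.2 _ h2 hne
      rcases this with ⟨h3, h4⟩ | ⟨h3, h4⟩
      · exact absurd h4 (by simp)
      · exact absurd h3 (by simp)
  · constructor
    · intro e; exact absurd e (by simp)
    · intro e; exact absurd ⟨h, e⟩ hex

lemma Gd.not_mem {m : ι} {s : Finset (Option ι)} (hg : Gd m s) {h : ι} (h1 : h ≠ m)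
    (h2 : some h ∈ s) : s = {some h} := by
  ext k
  rw [Finset.mem_singleton]
  constructor
  · intro hk
    by_contra hne
    rcases hg _ hk _ h2 hne with ⟨h3, h4⟩ | ⟨h3, h4⟩
    · exact absurd h4 (by simp)
    · rw [Option.some_inj] at h4; exact h1 h4
  · rintro rfl; exact h2

lemma cL_iff {m : ι} {s : Finset (Option ι)} (hg : Gd m s) (h : ι) :
    cL m s = some h ↔ some h ∈ s := by
  rw [cL]
  split_ifs with hm
  · constructor
    · intro e; rw [← e]; exact hm
    · intro e
      by_cases hh : h = m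
      · rw [hh]
      · rw [hg.not_mem hh e, Finset.mem_singleton] at hm
        exact hm
  · rw [aL_iff hg]
    constructor
    · intro e; exact e.2
    · intro e
      refine ⟨?_, e⟩
      rintro rfl
      exact hm e

lemma dL_iff_m {m : ι} {s : Finset (Option ι)} (hg : Gd m s) :
    dL m s = some m ↔ none ∈ s := by
  rw [dL]
  split_ifs with hm
  · simp [hm]
  · rw [aL_iff hg]
    simp [hm]

lemma dL_iff_ne {m : ι} {s : Finset (Option ι)} (hg : Gd m s) {h : ι} (hh : h ≠ m) :
    dL m s = some h ↔ some h ∈ s := by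
  rw [dL]
  split_ifs with hm
  · constructor
    · intro e; rw [Option.some_inj] at e; exact absurd e.symm hh
    · intro e
      rw [hg.not_mem hh e, Finset.mem_singleton] at hm
      exact absurd hm (by simp)
  · rw [aL_iff hg]
    simp [hh]

lemma cond_c {m : ι} {s : Finset (Option ι)} (hg : Gd m s) :
    (aL m s ≠ none → cL m s = aL m s) ∧
      (aL m s = none → ∀ h, cL m s = some h → h ∈ ({m} : Finset ι)) := by
  constructor
  · intro h
    obtain ⟨h0, hh0⟩ := Option.ne_none_iff_exists'.1 h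
    rw [hh0, cL_iff hg]
    exact ((aL_iff hg h0).1 hh0).2
  · intro h h0 hh0
    rw [cL_iff hg] at hh0
    rw [Finset.mem_singleton]
    by_contra hne
    have := (aL_iff hg h0).2 ⟨hne, hh0⟩
    rw [h] at this
    exact absurd this (by simp)

lemma cond_d {m : ι} {s : Finset (Option ι)} (hg : Gd m s) :
    (aL m s ≠ none → dL m s = aL m s) ∧
      (aL m s = none → ∀ h, dL m s = some h → h ∈ ({m} : Finset ι)) := by
  constructor
  · intro h
    obtain ⟨h0, hh0⟩ := Option.ne_none_iff_exists'.1 h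
    have h1 := (aL_iff hg h0).1 hh0
    rw [hh0, dL_iff_ne hg h1.1]
    exact h1.2
  · intro h h0 hh0
    rw [Finset.mem_singleton]
    by_contra hne
    rw [dL_iff_ne hg hne] at hh0
    have := (aL_iff hg h0).2 ⟨hne, hh0⟩
    rw [h] at this
    exact absurd this (by simp)

open Classical in
/-- local loss -/
noncomputable def sL (m : ι) (K p : ℕ) (s : Finset (Option ι)) : ℝ :=
  if ∃ h, h ≠ m ∧ some h ∈ s then (K : ℝ) / p else 0

lemma local_ineq {m : ι} {s : Finset (Option ι)} (hg : Gd m s) (K p : ℕ) (hp : 1 < p)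
    (hKp : K ≤ p) :
    (∏ k, if k ∈ s then 1 / (p : ℝ) else 1) * (1 - sL m K p s) ≤
      dP m K p (aL m s) * ((if aL m s = none ∧ cL m s ≠ none then 1 / (p : ℝ) else 1) *
        (if aL m s = none ∧ dL m s ≠ none then 1 / (p : ℝ) else 1)) := by
  have hp0 : (0 : ℝ) < p := by exact_mod_cast (by omega : 0 < p)
  have hp1 : (0 : ℝ) < (p : ℝ) - 1 := by
    have : (1 : ℝ) < p := by exact_mod_cast hp
    linarith
  have hKp' : (K : ℝ) ≤ p := by exact_mod_cast hKp
  by_cases hex : ∃ h, h ≠ m ∧ some h ∈ s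
  · obtain ⟨h, hh, hs⟩ := hex
    have ha : aL m s = some h := (aL_iff hg h).2 ⟨hh, hs⟩
    have hsL : sL m K p s = K / p := by rw [sL, if_pos ⟨h, hh, hs⟩]
    rw [ha, hsL, hg.not_mem hh hs]
    simp only [Finset.mem_singleton, Finset.prod_ite_eq', Finset.mem_univ, if_true,
      reduceCtorEq, false_and, if_false, mul_one, dP, if_neg hh]
    rw [div_mul_eq_mul_div, one_mul]
    have h1 : (1 - (K : ℝ) / p) / p = (p - K) / (p ^ 2) := by
      field_simp
    rw [h1]
    apply div_le_div_of_nonneg_left (by linarith) (by positivity)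
    nlinarith
  · have ha : aL m s = none := by rw [aL, dif_neg hex]
    have hsL : sL m K p s = 0 := by rw [sL, if_neg hex]
    have hc : cL m s ≠ none ↔ some m ∈ s := by
      rw [cL, ha]; split_ifs with h <;> simp [h]
    have hd : dL m s ≠ none ↔ none ∈ s := by
      rw [dL, ha]; split_ifs with h <;> simp [h]
    rw [ha, hsL, sub_zero, mul_one]
    simp only [dP, true_and, one_mul]
    rw [Fintype.prod_option, mul_comm]
    have h2 : (∏ h : ι, if some h ∈ s then 1 / (p : ℝ) else 1) =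
        if some m ∈ s then 1 / (p : ℝ) else 1 := by
      refine Finset.prod_eq_single m (fun h _ hh => ?_) (by simp)
      rw [if_neg]
      intro h3
      exact hex ⟨h, hh, h3⟩
    rw [h2]
    simp only [hc, hd]
    exact le_rfl

lemma sL_nonneg (m : ι) (K p : ℕ) (s : Finset (Option ι)) : 0 ≤ sL m K p s := by
  rw [sL]; split_ifs <;> positivity

lemma sL_le_one (m : ι) (K p : ℕ) (hp : 0 < p) (hKp : K ≤ p) (s : Finset (Option ι)) :
    sL m K p s ≤ 1 := by
  rw [sL]
  split_ifs
  · rw [div_le_one (by exact_mod_cast hp)]; exact_mod_cast hKp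
  · exact zero_le_one

lemma sL_le_sum (m : ι) (K p : ℕ) (s : Finset (Option ι)) :
    sL m K p s ≤ ∑ h : ι, if some h ∈ s then (K : ℝ) / p else 0 := by
  rw [sL]
  have h0 : ∀ h : ι, (0 : ℝ) ≤ if some h ∈ s then (K : ℝ) / p else 0 := by
    intro h; split_ifs <;> positivity
  split_ifs with hex
  · obtain ⟨h, _, hs⟩ := hex
    have := Finset.single_le_sum (f := fun h : ι => if some h ∈ s then (K : ℝ) / p else 0)
      (fun h _ => h0 h) (Finset.mem_univ h)
    simpa [hs] using this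
  · exact Finset.sum_nonneg fun h _ => h0 h

/-- global goodness -/
def GG (m : ι) (ω : α → Finset (Option ι)) : Prop := ∀ i, Gd m (ω i)

lemma prt_c (pr : α → ℕ) {m : ι} {ω : α → Finset (Option ι)} (hg : GG m ω) :
    prt pr (fun i => cL m (ω i)) = fun h => xof pr ω (some h) := by
  funext h
  rw [prt, xof]
  refine Finset.prod_congr rfl fun i _ => ?_
  simp only [cL_iff (hg i)]

lemma prt_d (pr : α → ℕ) {m : ι} {ω : α → Finset (Option ι)} (hg : GG m ω) :
    prt pr (fun i => dL m (ω i)) =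
      Function.update (fun h => xof pr ω (some h)) m (xof pr ω none) := by
  funext h
  by_cases hh : h = m
  · subst hh
    rw [Function.update_self, prt, xof]
    refine Finset.prod_congr rfl fun i _ => ?_
    simp only [dL_iff_m (hg i)]
  · rw [Function.update_of_ne hh, prt, xof]
    refine Finset.prod_congr rfl fun i _ => ?_
    simp only [dL_iff_ne (hg i) hh]

open Classical in
/-- the summand of `VV` -/
noncomputable def tt (pr : α → ℕ) (m : ι) (Yn : (ι → ℕ) → ℝ) (a c : α → Option ι) : ℝ :=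
  if ∀ i, (a i ≠ none → c i = a i) ∧ (a i = none → ∀ h, c i = some h → h ∈ ({m} : Finset ι)) then
      (∏ i, if a i = none ∧ c i ≠ none then 1 / (pr i : ℝ) else 1) * Yn (prt pr c) else 0

lemma tt_nonneg (pr : α → ℕ) (m : ι) (Yn : (ι → ℕ) → ℝ) (h0 : ∀ x, 0 ≤ Yn x)
    (a c : α → Option ι) : 0 ≤ tt pr m Yn a c := by
  rw [tt]
  split_ifs
  · refine mul_nonneg (Finset.prod_nonneg fun i _ => ?_) (h0 _)
    split_ifs <;> positivity
  · exact le_rfl

noncomputable def TTT (pr : α → ℕ) (m : ι) (Yn : (ι → ℕ) → ℝ)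
    (t : (α → Option ι) × (α → Option ι) × (α → Option ι)) : ℝ :=
  (∏ i, dP m (Fintype.card ι) (pr i) (t.1 i)) * (tt pr m Yn t.1 t.2.1 * tt pr m Yn t.1 t.2.2)

lemma dP_nonneg (m : ι) (K p : ℕ) (hKp : K ≤ p) (o : Option ι) : 0 ≤ dP m K p o := by
  rcases o with _ | h
  · simp [dP]
  · simp only [dP]
    split_ifs
    · exact le_rfl
    · have hKp' : (K : ℝ) ≤ p := by exact_mod_cast hKp
      exact div_nonneg (by linarith) (sq_nonneg _)

lemma TTT_nonneg (pr : α → ℕ) (m : ι) (Yn : (ι → ℕ) → ℝ) (h0 : ∀ x, 0 ≤ Yn x)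
    (hK : ∀ i, Fintype.card ι ≤ pr i)
    (t : (α → Option ι) × (α → Option ι) × (α → Option ι)) : 0 ≤ TTT pr m Yn t :=
  mul_nonneg (Finset.prod_nonneg fun i _ => dP_nonneg _ _ _ (hK i) _)
    (mul_nonneg (tt_nonneg _ _ _ h0 _ _) (tt_nonneg _ _ _ h0 _ _))

lemma rhs_eq (pr : α → ℕ) (m : ι) (Yn : (ι → ℕ) → ℝ) :
    ∑ a, (∏ i, dP m (Fintype.card ι) (pr i) (a i)) *
      VV pr {m} (fun a => Yn (prt pr a)) a ^ 2 = ∑ t, TTT pr m Yn t := by
  rw [Fintype.sum_prod_type]
  refine Finset.sum_congr rfl fun a _ => ?_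
  rw [Fintype.sum_prod_type]
  have hV : VV pr {m} (fun a => Yn (prt pr a)) a = ∑ c, tt pr m Yn a c := rfl
  rw [hV, sq, Finset.sum_mul_sum, Finset.mul_sum]
  refine Finset.sum_congr rfl fun c _ => ?_
  rw [Finset.mul_sum]
  rfl

/-- the section -/
noncomputable def sec (m : ι) (ω : α → Finset (Option ι)) :
    (α → Option ι) × (α → Option ι) × (α → Option ι) :=
  (fun i => aL m (ω i), fun i => cL m (ω i), fun i => dL m (ω i))

lemma sec_inj (m : ι) {ω ω' : α → Finset (Option ι)} (hg : GG m ω) (hg' : GG m ω')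
    (h : sec m ω = sec m ω') : ω = ω' := by
  funext i
  have h1 : cL m (ω i) = cL m (ω' i) := congrFun (congrArg (fun t => t.2.1) h) i
  have h2 : dL m (ω i) = dL m (ω' i) := congrFun (congrArg (fun t => t.2.2) h) i
  ext k
  rcases k with _ | k
  · rw [← dL_iff_m (hg i), ← dL_iff_m (hg' i), h2]
  · rw [← cL_iff (hg i), ← cL_iff (hg' i), h1]

lemma TTT_sec (pr : α → ℕ) (m : ι) (Yn : (ι → ℕ) → ℝ) (h0 : ∀ x, 0 ≤ Yn x)
    (hp : ∀ i, 1 < pr i) (hK : ∀ i, Fintype.card ι ≤ pr i)
    {ω : α → Finset (Option ι)} (hg : GG m ω) :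
    WW pr ω * FF m Yn (xof pr ω) * (1 - ∑ i, sL m (Fintype.card ι) (pr i) (ω i)) ≤
      TTT pr m Yn (sec m ω) := by
  have e1 : tt pr m Yn (fun i => aL m (ω i)) (fun i => cL m (ω i)) =
      (∏ i, if aL m (ω i) = none ∧ cL m (ω i) ≠ none then 1 / (pr i : ℝ) else 1) *
        Yn (fun h => xof pr ω (some h)) := by
    rw [tt, if_pos (fun i => cond_c (hg i)), prt_c pr hg]
  have e2 : tt pr m Yn (fun i => aL m (ω i)) (fun i => dL m (ω i)) =
      (∏ i, if aL m (ω i) = none ∧ dL m (ω i) ≠ none then 1 / (pr i : ℝ) else 1) *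
        Yn (Function.update (fun h => xof pr ω (some h)) m (xof pr ω none)) := by
    rw [tt, if_pos (fun i => cond_d (hg i)), prt_d pr hg]
  have e3 : TTT pr m Yn (sec m ω) = (∏ i, dP m (Fintype.card ι) (pr i) (aL m (ω i)) *
      ((if aL m (ω i) = none ∧ cL m (ω i) ≠ none then 1 / (pr i : ℝ) else 1) *
        (if aL m (ω i) = none ∧ dL m (ω i) ≠ none then 1 / (pr i : ℝ) else 1))) *
          FF m Yn (xof pr ω) := by
    rw [TTT, sec]
    simp only
    rw [e1, e2, Finset.prod_mul_distrib, Finset.prod_mul_distrib, FF]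
    ring
  rw [e3]
  have hF := FF_nonneg m Yn h0 (xof pr ω)
  have hs0 : ∀ i, 0 ≤ sL m (Fintype.card ι) (pr i) (ω i) := fun i => sL_nonneg _ _ _ _
  have hs1 : ∀ i, sL m (Fintype.card ι) (pr i) (ω i) ≤ 1 :=
    fun i => sL_le_one _ _ _ (by have := hp i; omega) (hK i) _
  have h1 := one_sub_sum_le univ (fun i => sL m (Fintype.card ι) (pr i) (ω i)) hs0 hs1
  have h2 : WW pr ω * ∏ i, (1 - sL m (Fintype.card ι) (pr i) (ω i)) ≤
      ∏ i, dP m (Fintype.card ι) (pr i) (aL m (ω i)) *
      ((if aL m (ω i) = none ∧ cL m (ω i) ≠ none then 1 / (pr i : ℝ) else 1) *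
        (if aL m (ω i) = none ∧ dL m (ω i) ≠ none then 1 / (pr i : ℝ) else 1)) := by
    rw [WW, ← Finset.prod_mul_distrib]
    refine Finset.prod_le_prod (fun i _ => ?_) (fun i _ => ?_)
    · refine mul_nonneg (Finset.prod_nonneg fun k _ => ?_) (by linarith [hs1 i])
      split_ifs <;> positivity
    · exact local_ineq (hg i) _ _ (hp i) (hK i)
  have h3 : WW pr ω * (1 - ∑ i, sL m (Fintype.card ι) (pr i) (ω i)) ≤
      WW pr ω * ∏ i, (1 - sL m (Fintype.card ι) (pr i) (ω i)) :=
    mul_le_mul_of_nonneg_left h1 (WW_nonneg pr ω)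
  calc WW pr ω * FF m Yn (xof pr ω) * (1 - ∑ i, sL m (Fintype.card ι) (pr i) (ω i))
      = (WW pr ω * (1 - ∑ i, sL m (Fintype.card ι) (pr i) (ω i))) * FF m Yn (xof pr ω) := by ring
    _ ≤ _ := mul_le_mul_of_nonneg_right (h3.trans h2) hF

open Classical in
/-- the pair loss -/
noncomputable def pL (s : Finset (Option ι)) : ℝ :=
  ∑ q ∈ (univ : Finset (Option ι × Option ι)).filter (fun q => q.1 ≠ q.2),
    if q.1 ∈ s ∧ q.2 ∈ s then 1 else 0

lemma pL_nonneg (s : Finset (Option ι)) : 0 ≤ pL s := by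
  rw [pL]
  refine Finset.sum_nonneg fun q _ => ?_
  split_ifs <;> norm_num

lemma pL_bad (m : ι) (s : Finset (Option ι)) (h : ¬ Gd m s) : 1 ≤ pL s := by
  rw [Gd] at h
  push Not at h
  obtain ⟨k, hk, k', hk', hne, _⟩ := h
  rw [pL]
  have := Finset.single_le_sum (f := fun q : Option ι × Option ι =>
    if q.1 ∈ s ∧ q.2 ∈ s then (1 : ℝ) else 0)
    (s := (univ : Finset (Option ι × Option ι)).filter (fun q => q.1 ≠ q.2))
    (fun q _ => by split_ifs <;> norm_num)
    (Finset.mem_filter.2 ⟨Finset.mem_univ (k, k'), hne⟩)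
  simpa [hk, hk'] using this

lemma low_main (pr : α → ℕ) (m : ι) (Yn : (ι → ℕ) → ℝ) (h0 : ∀ x, 0 ≤ Yn x)
    (hp : ∀ i, 1 < pr i) (hK : ∀ i, Fintype.card ι ≤ pr i) :
    ∑ ω : α → Finset (Option ι), WW pr ω * FF m Yn (xof pr ω) *
      (1 - ∑ i, sL m (Fintype.card ι) (pr i) (ω i) - ∑ i, pL (ω i)) ≤
    ∑ a, (∏ i, dP m (Fintype.card ι) (pr i) (a i)) *
      VV pr {m} (fun a => Yn (prt pr a)) a ^ 2 := by
  classical
  rw [rhs_eq]
  have hA : ∑ ω : α → Finset (Option ι), WW pr ω * FF m Yn (xof pr ω) *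
      (1 - ∑ i, sL m (Fintype.card ι) (pr i) (ω i) - ∑ i, pL (ω i)) ≤
      ∑ ω ∈ (univ : Finset (α → Finset (Option ι))).filter (fun ω => GG m ω),
        TTT pr m Yn (sec m ω) := by
    rw [Finset.sum_filter]
    refine Finset.sum_le_sum fun ω _ => ?_
    have hWF : 0 ≤ WW pr ω * FF m Yn (xof pr ω) :=
      mul_nonneg (WW_nonneg _ _) (FF_nonneg _ _ h0 _)
    have hp0 : 0 ≤ ∑ i, pL (ω i) := Finset.sum_nonneg fun i _ => pL_nonneg _
    have hs0 : 0 ≤ ∑ i, sL m (Fintype.card ι) (pr i) (ω i) :=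
      Finset.sum_nonneg fun i _ => sL_nonneg _ _ _ _
    split_ifs with hg
    · refine le_trans ?_ (TTT_sec pr m Yn h0 hp hK hg)
      exact mul_le_mul_of_nonneg_left (by linarith) hWF
    · rw [GG] at hg
      push Not at hg
      obtain ⟨i, hi⟩ := hg
      have h1 : 1 ≤ ∑ i, pL (ω i) := (pL_bad m (ω i) hi).trans
        (Finset.single_le_sum (f := fun i => pL (ω i)) (fun i _ => pL_nonneg _)
          (Finset.mem_univ i))
      exact mul_nonpos_of_nonneg_of_nonpos hWF (by linarith)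
  refine hA.trans ?_
  rw [← Finset.sum_image (f := fun t => TTT pr m Yn t) (g := sec m)]
  · exact Finset.sum_le_sum_of_subset_of_nonneg (Finset.subset_univ _)
      (fun t _ _ => TTT_nonneg pr m Yn h0 hK t)
  · intro ω hω ω' hω' h
    exact sec_inj m (Finset.mem_filter.1 hω).2 (Finset.mem_filter.1 hω').2 h

end Main

end LowAux

open LowAux in
theorem low (h1 : StLossP) (h2 : StLossO) : StLow := by
  intro α ι _ _ _ _ pr m Yn hp hinj hlarge h0 hA
  classical
  set K := Fintype.card ι with hKdef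
  have hKp : ∀ i, K ≤ pr i := fun i => by have := hlarge i; omega
  have hmain := low_main pr m Yn h0 (fun i => (hp i).one_lt) hKp
  refine le_trans ?_ hmain
  set F := FF m Yn with hF
  have hF0 : ∀ x, 0 ≤ F x := FF_nonneg m Yn h0
  have hFA : Anti F := FF_anti m Yn h0 hA
  have htot : Full pr Yn {m} = ∑ ω : α → Finset (Option ι), WW pr ω * F (xof pr ω) := by
    rw [full_eq, sum_piDD pr hp hinj]
    exact Finset.sum_congr rfl fun ω _ => WW_eq pr ω _
  set Tot := Full pr Yn {m} with hTot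
  have hTot0 : 0 ≤ Tot := by
    rw [htot]; exact Finset.sum_nonneg fun ω _ => mul_nonneg (WW_nonneg _ _) (hF0 _)
  have htot' : ∑ x ∈ piDD (Option ι) pr, F x / ∏ l, (x l : ℝ) = Tot := by
    rw [hTot, full_eq]
  -- loss of one entry
  have hone : ∀ (i : α) (k : Option ι), ∑ ω : α → Finset (Option ι),
      (if k ∈ ω i then WW pr ω * F (xof pr ω) else 0) ≤ 1 / (pr i : ℝ) * Tot := by
    intro i k
    have := h2 α (Option ι) pr F i k hp hinj hF0 hFA
    rw [htot', sum_piDD_filter pr hp hinj] at this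
    refine le_trans (le_of_eq ?_) this
    refine Finset.sum_congr rfl fun ω _ => ?_
    simp only [dvd_xof pr hp hinj, WW_eq]
  have htwo : ∀ (i : α) (k k' : Option ι), k ≠ k' → ∑ ω : α → Finset (Option ι),
      (if k ∈ ω i ∧ k' ∈ ω i then WW pr ω * F (xof pr ω) else 0) ≤ 1 / (pr i : ℝ) ^ 2 * Tot := by
    intro i k k' hne
    have := h1 α (Option ι) pr F i k k' hp hinj hF0 hFA hne
    rw [htot', sum_piDD_filter pr hp hinj] at this
    refine le_trans (le_of_eq ?_) this
    refine Finset.sum_congr rfl fun ω _ => ?_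
    simp only [dvd_xof pr hp hinj, WW_eq]
  -- total losses
  have hS : ∀ i, ∑ ω : α → Finset (Option ι), WW pr ω * F (xof pr ω) * sL m K (pr i) (ω i) ≤
      (K : ℝ) ^ 2 * (1 / (pr i : ℝ) ^ 2) * Tot := by
    intro i
    have hpi : (0 : ℝ) < pr i := by exact_mod_cast (hp i).pos
    calc ∑ ω : α → Finset (Option ι), WW pr ω * F (xof pr ω) * sL m K (pr i) (ω i)
        ≤ ∑ ω : α → Finset (Option ι), WW pr ω * F (xof pr ω) *
            ∑ h : ι, (if some h ∈ ω i then (K : ℝ) / pr i else 0) := by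
          refine Finset.sum_le_sum fun ω _ => ?_
          exact mul_le_mul_of_nonneg_left (sL_le_sum _ _ _ _)
            (mul_nonneg (WW_nonneg _ _) (hF0 _))
      _ = ∑ h : ι, (K : ℝ) / pr i * ∑ ω : α → Finset (Option ι),
            (if some h ∈ ω i then WW pr ω * F (xof pr ω) else 0) := by
          simp only [Finset.mul_sum]
          rw [Finset.sum_comm]
          refine Finset.sum_congr rfl fun h _ => Finset.sum_congr rfl fun ω _ => ?_
          split_ifs
          · ring
          · simp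
      _ ≤ ∑ h : ι, (K : ℝ) / pr i * (1 / (pr i : ℝ) * Tot) := by
          refine Finset.sum_le_sum fun h _ => ?_
          exact mul_le_mul_of_nonneg_left (hone i (some h)) (by positivity)
      _ = (K : ℝ) ^ 2 * (1 / (pr i : ℝ) ^ 2) * Tot := by
          rw [Finset.sum_const, Finset.card_univ, ← hKdef, nsmul_eq_mul]
          field_simp
  have hcard : (((univ : Finset (Option ι × Option ι)).filter (fun q => q.1 ≠ q.2)).card : ℝ) ≤
      ((K : ℝ) + 1) ^ 2 := by
    have : ((univ : Finset (Option ι × Option ι)).filter (fun q => q.1 ≠ q.2)).card ≤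
        (K + 1) ^ 2 := by
      refine (Finset.card_filter_le _ _).trans ?_
      rw [Finset.card_univ, Fintype.card_prod, Fintype.card_option, ← hKdef, sq]
    exact_mod_cast this
  have hP : ∀ i, ∑ ω : α → Finset (Option ι), WW pr ω * F (xof pr ω) * pL (ω i) ≤
      ((K : ℝ) + 1) ^ 2 * (1 / (pr i : ℝ) ^ 2) * Tot := by
    intro i
    have hpi : (0 : ℝ) < pr i := by exact_mod_cast (hp i).pos
    calc ∑ ω : α → Finset (Option ι), WW pr ω * F (xof pr ω) * pL (ω i)
        = ∑ q ∈ (univ : Finset (Option ι × Option ι)).filter (fun q => q.1 ≠ q.2),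
            ∑ ω : α → Finset (Option ι),
            (if q.1 ∈ ω i ∧ q.2 ∈ ω i then WW pr ω * F (xof pr ω) else 0) := by
          simp only [pL, Finset.mul_sum]
          rw [Finset.sum_comm]
          refine Finset.sum_congr rfl fun q _ => Finset.sum_congr rfl fun ω _ => ?_
          split_ifs <;> simp
      _ ≤ ∑ q ∈ (univ : Finset (Option ι × Option ι)).filter (fun q => q.1 ≠ q.2),
            (1 / (pr i : ℝ) ^ 2 * Tot) := by
          refine Finset.sum_le_sum fun q hq => ?_
          exact htwo i q.1 q.2 (Finset.mem_filter.1 hq).2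
      _ = (((univ : Finset (Option ι × Option ι)).filter (fun q => q.1 ≠ q.2)).card : ℝ) *
            (1 / (pr i : ℝ) ^ 2 * Tot) := by
          rw [Finset.sum_const, nsmul_eq_mul]
      _ ≤ ((K : ℝ) + 1) ^ 2 * (1 / (pr i : ℝ) ^ 2 * Tot) := by
          exact mul_le_mul_of_nonneg_right hcard (by positivity)
      _ = _ := by ring
  have hexp : ∑ ω : α → Finset (Option ι), WW pr ω * F (xof pr ω) *
      (1 - ∑ i, sL m K (pr i) (ω i) - ∑ i, pL (ω i)) =
      Tot - ∑ i, ∑ ω : α → Finset (Option ι), WW pr ω * F (xof pr ω) * sL m K (pr i) (ω i) -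
        ∑ i, ∑ ω : α → Finset (Option ι), WW pr ω * F (xof pr ω) * pL (ω i) := by
    rw [htot, Finset.sum_comm, Finset.sum_comm (s := (univ : Finset α)),
      ← Finset.sum_sub_distrib, ← Finset.sum_sub_distrib]
    refine Finset.sum_congr rfl fun ω _ => ?_
    rw [← Finset.mul_sum, ← Finset.mul_sum]
    ring
  rw [hexp]
  have hS' := Finset.sum_le_sum (fun i (_ : i ∈ (univ : Finset α)) => hS i)
  have hP' := Finset.sum_le_sum (fun i (_ : i ∈ (univ : Finset α)) => hP i)
  rw [← Finset.sum_mul, ← Finset.mul_sum] at hS' hP'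
  set S := ∑ i, 1 / (pr i : ℝ) ^ 2 with hSdef
  have hS0 : 0 ≤ S := Finset.sum_nonneg fun i _ => by positivity
  have hKK : (K : ℝ) ^ 2 * S * Tot ≤ ((K : ℝ) + 1) ^ 2 * S * Tot := by
    refine mul_le_mul_of_nonneg_right (mul_le_mul_of_nonneg_right ?_ hS0) hTot0
    have : (0 : ℝ) ≤ K := Nat.cast_nonneg K
    nlinarith
  nlinarith

end Pool.Agent.Helper90.MT
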