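import Pool.Agent.Helper90.MT.Def2

namespace Pool.Agent.Helper90.MT

open Finset

theorem exists_thin (f : ℕ → ℕ) (A : Set ℕ) (hA : A.Infinite) :
    ∃ A' ⊆ A, A'.Infinite ∧ ∀ a ∈ A', ∀ b ∈ A', a < b → a + f a < b := by
  have h : ∀ n : ℕ, ∃ a ∈ A, n + f n < a := fun n => by
    obtain ⟨a, ha, h⟩ := hA.exists_gt (n + f n)
    exact ⟨a, ha, h⟩
  choose g hgA hg using h
  let s : ℕ → ℕ := fun k => Nat.rec (g 0) (fun _ x => g x) k
  have hs : ∀ k, s (k + 1) = g (s k) := fun k => rfl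
  have hmem : ∀ k, s k ∈ A := by
    intro k
    cases k with
    | zero => exact hgA 0
    | succ k => exact hgA (s k)
  have hstep : ∀ k, s k + f (s k) < s (k + 1) := fun k => hg (s k)
  have hmono : StrictMono s := strictMono_nat_of_lt_succ fun k => by
    have := hstep k
    omega
  refine ⟨Set.range s, ?_, Set.infinite_range_of_injective hmono.injective, ?_⟩
  · rintro _ ⟨k, rfl⟩
    exact hmem k
  · rintro _ ⟨i, rfl⟩ _ ⟨j, rfl⟩ hij
    have hij' : i < j := hmono.lt_iff_lt.1 hij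
    have h1 := hstep i
    have h2 : s (i + 1) ≤ s j := hmono.monotone hij'
    omega

theorem main1 (h1 : StSeg2) (h2 : StGalvin) : StMain1 := by
  intro f A v hA hv hu
  obtain ⟨A', hA', hinf, hthin⟩ := exists_thin f A hA
  obtain ⟨B, hB, hBinf, hBF⟩ := h2 (fun F => F.Nonempty → RzF f v F) A' hinf (by
    intro C hC hCinf
    obtain ⟨Q, hQ, hQinf, hQr⟩ := h1 f C v hCinf hv
      (fun m hm a ha => hu m hm a (hA' (hC ha)))
      (fun a ha b hb hab => hthin a (hC ha) b (hC hb) hab)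
    exact ⟨Q, hQ, hQinf, hQr⟩)
  exact ⟨B, hB.trans hA', hBinf, fun F hF hFB => hBF F hFB hF⟩

end Pool.Agent.Helper90.MT
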