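import Pool.Agent.Helper90.MT.StM

/-!
Project MT, second theorem (`StMil`): the Milliken-Hindman form from the statement on initial
segments and the dichotomy.
-/

namespace Pool.Agent.Helper90.MT

open Finset Filter

theorem Mil_sum_biUnion {D : ℕ → Finset ℕ} (hD : Blk D) (x : ℕ → ℕ) (F : Finset ℕ) :
    ∑ a ∈ F.biUnion D, x a = ∑ i ∈ F, ∑ a ∈ D i, x a := by
  refine Finset.sum_biUnion ?_
  intro i _ j _ hij
  rw [Function.onFun, Finset.disjoint_left]
  intro a hi hj
  rcases lt_or_gt_of_ne hij with h | h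
  · exact lt_irrefl _ (hD.lt i j h a hi a hj)
  · exact lt_irrefl _ (hD.lt j i h a hj a hi)

theorem Mil_pos {D : ℕ → Finset ℕ} (hD : Blk D) (x : ℕ → ℕ) (L : List (Finset ℕ)) :
    pos (fun i => ∑ a ∈ D i, x a) L = pos x (L.map (fun F => F.biUnion D)) := by
  rw [pos, pos, List.length_map]
  refine Finset.image_congr fun i _ => ?_
  show _ = (((L.map (fun F => F.biUnion D)).take i).map (fun E => ∑ a ∈ E, x a)).sum
  rw [← List.map_take, List.map_map]
  congr 1
  refine List.map_congr_left fun F _ => ?_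
  exact (Mil_sum_biUnion hD x F).symm

/-- infinitely many realisations -/
theorem Mil_inf {v : ℕ → ℕ} {F : Finset ℕ} (h : Rz v F) : {n : ℕ | Rl F n}.Infinite := by
  classical
  intro hfin
  obtain ⟨x, hx, hx'⟩ := h 1 one_pos (1 / 2) (by norm_num) ((hfin.toFinset.card + 1) ^ 2)
  have h1 : ((range x).filter (fun n => n ≡ v 1 [MOD 1] ∧ Rl F n)).card ≤
      hfin.toFinset.card := by
    refine card_le_card fun n hn => ?_
    rw [mem_filter] at hn
    rw [Set.Finite.mem_toFinset]
    exact hn.2.2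
  have h2 : ((hfin.toFinset.card + 1 : ℕ) : ℝ) ≤ (x : ℝ) ^ (1 - 1 / 2 : ℝ) := by
    have h3 : (1 - 1 / 2 : ℝ) = 1 / 2 := by norm_num
    rw [h3, ← Real.sqrt_eq_rpow]
    apply Real.le_sqrt_of_sq_le
    exact_mod_cast hx
  have h3 : ((hfin.toFinset.card + 1 : ℕ) : ℝ) ≤ (hfin.toFinset.card : ℝ) := by
    refine h2.trans (hx'.trans ?_)
    have h4 : (((range x).filter (fun n => n ≡ v 1 [MOD 1] ∧ Rl F n)).card : ℝ) ≤
      (hfin.toFinset.card : ℝ) := by exact_mod_cast h1
    convert h4
  push_cast at h3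
  linarith

/-- shifting a pattern -/
theorem Mil_shift {F F' : Finset ℕ} {c n : ℕ} (hF : ∀ j, j ∈ F' ↔ c + j ∈ F)
    (_hc : ∀ f ∈ F, c ≤ f) (h : Rl F n) : Rl F' (n + c) := by
  rintro j ⟨a, ha, haj⟩ ⟨b, hb, hjb⟩
  rw [hF, add_assoc]
  exact h (c + j) ⟨c + a, (hF a).1 ha, by omega⟩ ⟨c + b, (hF b).1 hb, by omega⟩

theorem mil (h1 : StSeg) (h2 : StThin) (h3 : StGame) : StMil := by
  classical
  intro x hx
  rcases h3 (fun s => {n : ℕ | Rl (pos x s) n}.Infinite) with ⟨D, hD, h⟩ | ⟨D, hD, h⟩
  · refine ⟨D, hD, fun L hL hL' => ?_⟩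
    rw [Mil_pos hD]
    exact h L hL hL'
  exfalso
  set y : ℕ → ℕ := fun j => ∑ a ∈ D j, x a with hy
  have hy0 : ∀ j, 0 < y j := fun j => Finset.sum_pos (fun a _ => hx a) (hD.ne j)
  set b : ℕ → ℕ := fun i => ∑ j ∈ range i, y j with hb
  have hbs : StrictMono b := by
    refine strictMono_nat_of_lt_succ fun i => ?_
    simp only [hb]
    rw [Finset.sum_range_succ]
    have := hy0 i
    omega
  obtain ⟨A', hA', hA'i, v, hv, hu⟩ := h2 (Set.range b)
    (Set.infinite_range_of_injective hbs.injective)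
  obtain ⟨Q, hQ, hQi, hQz⟩ := h1 A' v hA'i hv hu
  set e : ℕ → ℕ := Nat.nth (fun n => n ∈ Q) with he
  have hQi' : (Set.ofPred fun n => n ∈ Q).Infinite := hQi
  have hes : StrictMono e := Nat.nth_strictMono hQi'
  have heQ : ∀ t, e t ∈ Q := fun t => Nat.nth_mem_of_infinite hQi' t
  have hQe : ∀ q ∈ Q, ∃ t, e t = q := by
    intro q hq
    have hr := Nat.range_nth_of_infinite hQi'
    have hq' : q ∈ Set.range (Nat.nth fun n => n ∈ Q) := by
      rw [hr]
      exact hq
    exact hq'
  have hi : ∀ t, ∃ i, b i = e t := fun t => hA' (hQ (heQ t))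
  choose i hi using hi
  have his : StrictMono i := by
    refine strictMono_nat_of_lt_succ fun t => ?_
    have h4 := hes (Nat.lt_succ_self t)
    rw [← hi, ← hi] at h4
    exact hbs.lt_iff_lt.1 h4
  obtain ⟨k, hk⟩ := h i his
  apply hk
  set Lk := (List.range k).map (fun t => (Ico (i t) (i (t + 1))).biUnion D) with hLk
  -- the positions
  have hblock : ∀ t, ∑ a ∈ (Ico (i t) (i (t + 1))).biUnion D, x a + e t = e (t + 1) := by
    intro t
    rw [Mil_sum_biUnion hD, ← hi, ← hi]
    simp only [hb]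
    rw [add_comm]
    exact Finset.sum_range_add_sum_Ico _ (his.monotone (Nat.le_succ t))
  have hsum : ∀ s, s ≤ k → ((Lk.take s).map (fun E => ∑ a ∈ E, x a)).sum + e 0 = e s := by
    intro s
    induction s with
    | zero => intro _; simp
    | succ s ih =>
      intro hs
      have h5 := ih (by omega)
      have h6 : s < Lk.length := by
        rw [hLk, List.length_map, List.length_range]
        omega
      rw [List.take_succ_eq_append_getElem h6, List.map_append, List.sum_append]
      have h7 : Lk[s] = (Ico (i s) (i (s + 1))).biUnion D := by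
        simp [hLk]
      rw [h7, List.map_singleton, List.sum_singleton, add_right_comm, h5, add_comm]
      exact hblock s
  have hpos : ∀ j, j ∈ pos x Lk ↔ e 0 + j ∈ seg Q (e k + 1) := by
    intro j
    have hlen : Lk.length = k := by rw [hLk, List.length_map, List.length_range]
    rw [pos, mem_image, seg, mem_filter, mem_range, hlen]
    constructor
    · rintro ⟨s, hs, rfl⟩
      rw [mem_range, Nat.lt_succ_iff] at hs
      have h5 := hsum s hs
      rw [add_comm] at h5
      rw [h5]
      exact ⟨Nat.lt_succ_of_le (hes.monotone hs), heQ s⟩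
    · rintro ⟨h5, h6⟩
      obtain ⟨s, hs⟩ := hQe _ h6
      have h7 : s ≤ k := by
        by_contra hno
        have h8 := hes (not_le.1 hno)
        omega
      refine ⟨s, mem_range.2 (Nat.lt_succ_of_le h7), ?_⟩
      have h8 := hsum s h7
      omega
  have hinf := Mil_inf (hQz (e k + 1))
  have hmap : (fun n => n + e 0) '' {n : ℕ | Rl (seg Q (e k + 1)) n} ⊆
      {n : ℕ | Rl (pos x Lk) n} := by
    rintro _ ⟨n, hn, rfl⟩
    refine Mil_shift hpos (fun f hf => ?_) hn
    rw [seg, mem_filter] at hf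
    obtain ⟨s, hs⟩ := hQe f hf.2
    rw [← hs]
    exact hes.monotone (Nat.zero_le s)
  exact (hinf.image (fun a _ b _ hab => Nat.add_right_cancel hab)).mono hmap

end Pool.Agent.Helper90.MT
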