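import Pool.Agent.Helper90.MT.StS

/-!
Project MT, part S12: numerics of the step profile (`StNum`).
-/

namespace Pool.Agent.Helper90.MT

open Finset

open Classical in
/-- indicator of `d ≤ exp (2 ^ i * ρ)` -/
noncomputable def nI (ρ : ℝ) (i d : ℕ) : ℝ := if (d : ℝ) ≤ Real.exp (2 ^ i * ρ) then 1 else 0

theorem nI_nonneg (ρ : ℝ) (i d : ℕ) : 0 ≤ nI ρ i d := by
  unfold nI; split_ifs <;> norm_num

/-- combination of indicators -/
noncomputable def nF (ρ : ℝ) (w : ℕ → ℝ) (w' : ℝ) (L d : ℕ) : ℝ :=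
  ∑ i ∈ range L, w i * nI ρ i d + w' * nI ρ L d

theorem gs_eq (ρ : ℝ) (L d : ℕ) :
    gs ρ L d = nF ρ (fun i => (1 / 2 : ℝ) ^ (i + 1)) ((1 / 2 : ℝ) ^ L) L d := by
  unfold gs nF nI
  rfl

theorem nI_mono (ρ : ℝ) (hρ : 0 < ρ) (i j d : ℕ) (h : i ≤ j) (h1 : nI ρ i d = 1) :
    nI ρ j d = 1 := by
  unfold nI at h1 ⊢
  split_ifs at h1 with h2
  · rw [if_pos]
    refine h2.trans (Real.exp_le_exp.2 ?_)
    have : (2 : ℝ) ^ i ≤ 2 ^ j := pow_le_pow_right₀ (by norm_num) h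
    nlinarith
  · norm_num at h1

theorem nI_cases (ρ : ℝ) (i d : ℕ) : nI ρ i d = 0 ∨ nI ρ i d = 1 := by
  unfold nI; split_ifs <;> simp

theorem gs_sq (ρ : ℝ) (hρ : 0 < ρ) (L d : ℕ) :
    gs ρ L d ^ 2 = nF ρ (fun i => 3 / 4 * (1 / 4 : ℝ) ^ i) ((1 / 4 : ℝ) ^ L) L d := by
  rw [gs_eq]
  induction L with
  | zero =>
    unfold nF
    rcases nI_cases ρ 0 d with h | h <;> simp [h]
  | succ L ih =>
    unfold nF at ih ⊢
    rw [Finset.sum_range_succ, Finset.sum_range_succ]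
    rcases nI_cases ρ L d with h | h
    · have h0 : ∀ i ∈ range L, nI ρ i d = 0 := by
        intro i hi
        rcases nI_cases ρ i d with h' | h'
        · exact h'
        · have := nI_mono ρ hρ i L d (Finset.mem_range.1 hi).le h'
          rw [h] at this
          norm_num at this
      rw [Finset.sum_eq_zero (fun i hi => by rw [h0 i hi, mul_zero]),
        Finset.sum_eq_zero (fun i hi => by rw [h0 i hi, mul_zero]), h]
      have h4 : ((1 / 4 : ℝ)) ^ (L + 1) = ((1 / 2 : ℝ) ^ (L + 1)) ^ 2 := by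
        rw [← pow_mul, mul_comm, pow_mul]
        norm_num
      rw [h4]
      rcases nI_cases ρ (L + 1) d with h' | h' <;> rw [h'] <;> ring
    · have h' := nI_mono ρ hρ L (L + 1) d (by omega) h
      rw [h, h']
      rw [h] at ih
      have e1 : ∑ i ∈ range L, (1 / 2 : ℝ) ^ (i + 1) * nI ρ i d + (1 / 2 : ℝ) ^ (L + 1) * 1 +
          (1 / 2 : ℝ) ^ (L + 1) * 1 =
          ∑ i ∈ range L, (1 / 2 : ℝ) ^ (i + 1) * nI ρ i d + (1 / 2 : ℝ) ^ L * 1 := by
        rw [pow_succ]; ring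
      rw [e1, ih]
      rw [pow_succ]
      ring

/-- sum over `DD` of an indicator -/
noncomputable def nS (pr : Finset ℕ) (ρ : ℝ) (i : ℕ) : ℝ := ∑ d ∈ pr, nI ρ i d / (d : ℝ)

theorem nF_sum (P : Finset ℕ) (ρ : ℝ) (w : ℕ → ℝ) (w' : ℝ) (L : ℕ) :
    ∑ d ∈ P, nF ρ w w' L d / (d : ℝ) =
      ∑ i ∈ range L, w i * nS P ρ i + w' * nS P ρ L := by
  unfold nF nS
  have h1 : ∀ d ∈ P, (∑ i ∈ range L, w i * nI ρ i d + w' * nI ρ L d) / (d : ℝ) =
      ∑ i ∈ range L, w i * (nI ρ i d / (d : ℝ)) + w' * (nI ρ L d / (d : ℝ)) := by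
    intro d _
    rw [add_div, Finset.sum_div]
    congr 1
    · exact Finset.sum_congr rfl fun i _ => mul_div_assoc _ _ _
    · exact mul_div_assoc _ _ _
  rw [Finset.sum_congr rfl h1, Finset.sum_add_distrib, Finset.sum_comm]
  congr 1
  · exact Finset.sum_congr rfl fun i _ => (Finset.mul_sum _ _ _).symm
  · exact (Finset.mul_sum _ _ _).symm

theorem nI_log (ρ : ℝ) (i d : ℕ) : nI ρ i d * Real.log d / d ≤ 2 ^ i * ρ * (nI ρ i d / d) := by
  unfold nI
  rcases Nat.eq_zero_or_pos d with h0 | h0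
  · subst h0
    simp
  · have hd : (0 : ℝ) < d := by exact_mod_cast h0
    split_ifs with h
    · have h1 : Real.log d ≤ 2 ^ i * ρ := by
        rw [← Real.log_exp (2 ^ i * ρ)]
        exact Real.log_le_log hd h
      rw [one_mul, div_eq_mul_one_div]
      exact mul_le_mul_of_nonneg_right h1 (by positivity)
    · simp

theorem nF_log (P : Finset ℕ) (ρ : ℝ) (w : ℕ → ℝ) (w' : ℝ) (L : ℕ) (hw : ∀ i, 0 ≤ w i)
    (hw' : 0 ≤ w') :
    ∑ d ∈ P, nF ρ w w' L d * Real.log d / (d : ℝ) ≤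
      ∑ i ∈ range L, w i * (2 ^ i * ρ * nS P ρ i) + w' * (2 ^ L * ρ * nS P ρ L) := by
  have h1 : ∀ d ∈ P, nF ρ w w' L d * Real.log d / (d : ℝ) ≤
      ∑ i ∈ range L, w i * (2 ^ i * ρ * (nI ρ i d / (d : ℝ))) +
        w' * (2 ^ L * ρ * (nI ρ L d / (d : ℝ))) := by
    intro d _
    unfold nF
    rw [add_mul, add_div, Finset.sum_mul, Finset.sum_div]
    apply add_le_add
    · apply Finset.sum_le_sum
      intro i _
      have e : w i * nI ρ i d * Real.log d / d = w i * (nI ρ i d * Real.log d / d) := by ring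
      rw [e]
      exact mul_le_mul_of_nonneg_left (nI_log ρ i d) (hw i)
    · have e : w' * nI ρ L d * Real.log d / d = w' * (nI ρ L d * Real.log d / d) := by ring
      rw [e]
      exact mul_le_mul_of_nonneg_left (nI_log ρ L d) hw'
  refine (Finset.sum_le_sum h1).trans (le_of_eq ?_)
  rw [Finset.sum_add_distrib, Finset.sum_comm]
  unfold nS
  congr 1
  · apply Finset.sum_congr rfl
    intro i _
    rw [Finset.mul_sum, Finset.mul_sum]
  · rw [Finset.mul_sum, Finset.mul_sum]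

theorem sum_pow_half (L : ℕ) : ∑ i ∈ range L, 3 / 4 * (1 / 4 : ℝ) ^ i * 2 ^ i +
    (1 / 4 : ℝ) ^ L * 2 ^ L = 3 / 2 - 1 / 2 * (1 / 2) ^ L := by
  induction L with
  | zero => norm_num
  | succ L ih =>
    rw [Finset.sum_range_succ]
    have e : (1 / 4 : ℝ) ^ L * 2 ^ L = (1 / 2) ^ L := by rw [← mul_pow]; norm_num
    have e' : (1 / 4 : ℝ) ^ (L + 1) * 2 ^ (L + 1) = (1 / 2) ^ (L + 1) := by
      rw [← mul_pow]; norm_num
    rw [e'] 
    rw [e] at ih
    have h : ∑ i ∈ range L, 3 / 4 * (1 / 4 : ℝ) ^ i * 2 ^ i = 3 / 2 - 1 / 2 * (1 / 2) ^ L -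
      (1 / 2) ^ L := by linarith
    rw [h, mul_assoc (3 / 4 : ℝ), e, pow_succ]
    ring

theorem num_final (g1 g2 e1 e2 a ρ x l : ℝ) (ha : 0 < a) (hρ : 0 < ρ) (hx : 1 ≤ x) (hl : 0 ≤ l)
    (h1 : (95 / 100) * a * (1 + l / 2) ≤ g1) (h2 : (95 / 100) * a ≤ g2)
    (h3 : e1 ≤ (1575 / 1000) * a * (ρ * x))
    (h4 : e2 ≤ (105 / 100) * a * (ρ * (1 + 3 / 4 * l))) :
    e1 / g1 + (x - 1) * (e2 / g2) ≤ (31 / 10) * ρ * x * (1 + l) := by
  have hg1 : (95 / 100) * a ≤ g1 := by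
    have : 0 ≤ a * l := by positivity
    linarith
  have hg1p : 0 < g1 := by linarith
  have hg2p : 0 < g2 := by linarith
  have hr1 : e1 / g1 ≤ (1658 / 1000) * (ρ * x) := by
    rw [div_le_iff₀ hg1p]
    calc _ ≤ (1575 / 1000) * a * (ρ * x) := h3
      _ ≤ (1658 / 1000) * (ρ * x) * ((95 / 100) * a) := by
          have : 0 ≤ a * (ρ * x) := by positivity
          linarith
      _ ≤ _ := mul_le_mul_of_nonneg_left hg1 (by positivity)
  have hr2 : e2 / g2 ≤ (1106 / 1000) * (ρ * (1 + 3 / 4 * l)) := by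
    rw [div_le_iff₀ hg2p]
    calc _ ≤ (105 / 100) * a * (ρ * (1 + 3 / 4 * l)) := h4
      _ ≤ (1106 / 1000) * (ρ * (1 + 3 / 4 * l)) * ((95 / 100) * a) := by
          have : 0 ≤ a * (ρ * (1 + 3 / 4 * l)) := by positivity
          linarith
      _ ≤ _ := mul_le_mul_of_nonneg_left h2 (by positivity)
  have hr3 : (x - 1) * (e2 / g2) ≤ x * ((1106 / 1000) * (ρ * (1 + 3 / 4 * l))) := by
    calc _ ≤ (x - 1) * ((1106 / 1000) * (ρ * (1 + 3 / 4 * l))) :=
          mul_le_mul_of_nonneg_left hr2 (by linarith)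
      _ ≤ _ := mul_le_mul_of_nonneg_right (by linarith) (by positivity)
  have h5 : 0 ≤ ρ * x := by positivity
  have h6 : 0 ≤ ρ * x * l := by positivity
  calc _ ≤ (1658 / 1000) * (ρ * x) + x * ((1106 / 1000) * (ρ * (1 + 3 / 4 * l))) :=
        add_le_add hr1 hr3
    _ ≤ _ := by linarith

theorem num (h1 : StDD) : StNum := by
  intro W M c C ρ L hW hc hρ hSW hC hM
  set P : Finset ℕ := DD (pp W M) with hP
  -- the sums S_i
  have hS : ∀ i ≤ L, nS P ρ i = SW W (Real.exp (2 ^ i * ρ)) := by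
    intro i hi
    have hz1 : (1 : ℝ) ≤ Real.exp (2 ^ i * ρ) := Real.one_le_exp (by positivity)
    have hz2 : Real.exp (2 ^ i * ρ) ^ 30 ≤ M := by
      refine le_trans (pow_le_pow_left₀ (by positivity) (Real.exp_le_exp.2 ?_) 30) hM
      have : (2 : ℝ) ^ i ≤ 2 ^ L := pow_le_pow_right₀ (by norm_num) hi
      nlinarith
    rw [← h1 W M _ hW hz1 hz2, Finset.sum_filter]
    unfold nS nI
    apply Finset.sum_congr rfl
    intro d _
    split_ifs <;> simp
  have hSb : ∀ i ≤ L, (95 / 100) * (c * (2 ^ i * ρ)) ≤ nS P ρ i ∧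
      nS P ρ i ≤ (105 / 100) * (c * (2 ^ i * ρ)) := by
    intro i hi
    have h2 := hSW (Real.exp (2 ^ i * ρ)) (Real.one_le_exp (by positivity))
    rw [Real.log_exp, ← hS i hi, abs_le] at h2
    have h3 : (1 : ℝ) ≤ 2 ^ i := one_le_pow₀ (by norm_num)
    have h4 : c * ρ ≤ c * (2 ^ i * ρ) := by
      have : ρ ≤ 2 ^ i * ρ := by nlinarith
      nlinarith
    constructor <;> linarith [h2.1, h2.2]
  have hS0 : ∀ i ≤ L, 0 ≤ nS P ρ i := by
    intro i hi
    refine le_trans ?_ (hSb i hi).1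
    positivity
  have hG1 : G1 (pp W M) (gs ρ L) =
      ∑ i ∈ range L, (1 / 2 : ℝ) ^ (i + 1) * nS P ρ i + (1 / 2 : ℝ) ^ L * nS P ρ L := by
    unfold G1
    rw [← nF_sum]
    exact Finset.sum_congr rfl fun d _ => by rw [gs_eq]
  have hG2 : G2 (pp W M) (gs ρ L) =
      ∑ i ∈ range L, (3 / 4 * (1 / 4 : ℝ) ^ i) * nS P ρ i + (1 / 4 : ℝ) ^ L * nS P ρ L := by
    unfold G2
    rw [← nF_sum]
    exact Finset.sum_congr rfl fun d _ => by rw [gs_sq ρ hρ]
  have hE1 : E1 (pp W M) (gs ρ L) ≤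
      ∑ i ∈ range L, (1 / 2 : ℝ) ^ (i + 1) * (2 ^ i * ρ * nS P ρ i) +
        (1 / 2 : ℝ) ^ L * (2 ^ L * ρ * nS P ρ L) := by
    unfold E1
    refine le_trans (le_of_eq ?_) (nF_log P ρ _ _ L (fun i => by positivity) (by positivity))
    exact Finset.sum_congr rfl fun d _ => by rw [gs_eq]
  have hE2 : E2 (pp W M) (gs ρ L) ≤
      ∑ i ∈ range L, (3 / 4 * (1 / 4 : ℝ) ^ i) * (2 ^ i * ρ * nS P ρ i) +
        (1 / 4 : ℝ) ^ L * (2 ^ L * ρ * nS P ρ L) := by
    unfold E2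
    refine le_trans (le_of_eq ?_) (nF_log P ρ _ _ L (fun i => by positivity) (by positivity))
    exact Finset.sum_congr rfl fun d _ => by rw [gs_sq ρ hρ]
  have hhalf : ∀ i : ℕ, (1 / 2 : ℝ) ^ i * 2 ^ i = 1 := by
    intro i; rw [← mul_pow]; norm_num
  -- G1 lower bound
  have hG1l : (95 / 100) * c * ρ * (1 + L / 2) ≤ G1 (pp W M) (gs ρ L) := by
    rw [hG1]
    have h2 : ∑ i ∈ range L, (95 / 200) * (c * ρ) ≤
        ∑ i ∈ range L, (1 / 2 : ℝ) ^ (i + 1) * nS P ρ i := by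
      apply Finset.sum_le_sum
      intro i hi
      have h3 := (hSb i (Finset.mem_range.1 hi).le).1
      have h4 : (1 / 2 : ℝ) ^ (i + 1) * ((95 / 100) * (c * (2 ^ i * ρ))) = (95 / 200) * (c * ρ) := by
        rw [pow_succ]
        linear_combination (95 / 200) * c * ρ * hhalf i
      rw [← h4]
      exact mul_le_mul_of_nonneg_left h3 (by positivity)
    have h5 : (95 / 100) * (c * ρ) ≤ (1 / 2 : ℝ) ^ L * nS P ρ L := by
      have h3 := (hSb L le_rfl).1
      have h4 : (1 / 2 : ℝ) ^ L * ((95 / 100) * (c * (2 ^ L * ρ))) = (95 / 100) * (c * ρ) := by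
        linear_combination (95 / 100) * c * ρ * hhalf L
      rw [← h4]
      exact mul_le_mul_of_nonneg_left h3 (by positivity)
    rw [Finset.sum_const, Finset.card_range, nsmul_eq_mul] at h2
    linarith
  have hG2u : G2 (pp W M) (gs ρ L) ≤ (158 / 100) * c * ρ := by
    rw [hG2]
    have h2 : ∑ i ∈ range L, (3 / 4 * (1 / 4 : ℝ) ^ i) * nS P ρ i ≤
        ∑ i ∈ range L, (105 / 100) * (c * ρ) * (3 / 4 * (1 / 4 : ℝ) ^ i * 2 ^ i) := by
      apply Finset.sum_le_sum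
      intro i hi
      have h3 := (hSb i (Finset.mem_range.1 hi).le).2
      calc _ ≤ (3 / 4 * (1 / 4 : ℝ) ^ i) * ((105 / 100) * (c * (2 ^ i * ρ))) :=
            mul_le_mul_of_nonneg_left h3 (by positivity)
        _ = _ := by ring
    have h5 : (1 / 4 : ℝ) ^ L * nS P ρ L ≤ (105 / 100) * (c * ρ) * ((1 / 4 : ℝ) ^ L * 2 ^ L) := by
      have h3 := (hSb L le_rfl).2
      calc _ ≤ (1 / 4 : ℝ) ^ L * ((105 / 100) * (c * (2 ^ L * ρ))) :=
            mul_le_mul_of_nonneg_left h3 (by positivity)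
        _ = _ := by ring
    rw [← Finset.mul_sum] at h2
    have h6 := sum_pow_half L
    have h7 : 0 ≤ (1 / 2 : ℝ) ^ L := by positivity
    have h8 : 0 < c * ρ := by positivity
    calc _ ≤ (105 / 100) * (c * ρ) * (∑ i ∈ range L, 3 / 4 * (1 / 4 : ℝ) ^ i * 2 ^ i +
          (1 / 4 : ℝ) ^ L * 2 ^ L) := by rw [mul_add]; exact add_le_add h2 h5
      _ = (105 / 100) * (c * ρ) * (3 / 2 - 1 / 2 * (1 / 2) ^ L) := by rw [h6]
      _ ≤ _ := by nlinarith
  have hG2l : (95 / 100) * c * ρ ≤ G2 (pp W M) (gs ρ L) := by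
    rw [hG2]
    have h2 : ∑ i ∈ range L, (95 / 100) * (c * ρ) * (3 / 4 * (1 / 4 : ℝ) ^ i * 2 ^ i) ≤
        ∑ i ∈ range L, (3 / 4 * (1 / 4 : ℝ) ^ i) * nS P ρ i := by
      apply Finset.sum_le_sum
      intro i hi
      have h3 := (hSb i (Finset.mem_range.1 hi).le).1
      calc _ = (3 / 4 * (1 / 4 : ℝ) ^ i) * ((95 / 100) * (c * (2 ^ i * ρ))) := by ring
        _ ≤ _ := mul_le_mul_of_nonneg_left h3 (by positivity)
    have h5 : (95 / 100) * (c * ρ) * ((1 / 4 : ℝ) ^ L * 2 ^ L) ≤ (1 / 4 : ℝ) ^ L * nS P ρ L := by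
      have h3 := (hSb L le_rfl).1
      calc _ = (1 / 4 : ℝ) ^ L * ((95 / 100) * (c * (2 ^ L * ρ))) := by ring
        _ ≤ _ := mul_le_mul_of_nonneg_left h3 (by positivity)
    rw [← Finset.mul_sum] at h2
    have h6 := sum_pow_half L
    have h7 : (1 / 2 : ℝ) ^ L ≤ 1 := pow_le_one₀ (by norm_num) (by norm_num)
    have h8 : 0 < c * ρ := by positivity
    calc _ ≤ (95 / 100) * (c * ρ) * (3 / 2 - 1 / 2 * (1 / 2) ^ L) := by nlinarith
      _ = (95 / 100) * (c * ρ) * (∑ i ∈ range L, 3 / 4 * (1 / 4 : ℝ) ^ i * 2 ^ i +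
          (1 / 4 : ℝ) ^ L * 2 ^ L) := by rw [h6]
      _ ≤ _ := by rw [mul_add]; exact add_le_add h2 h5
  have h2L : (1 : ℝ) ≤ 2 ^ L := one_le_pow₀ (by norm_num)
  have hL0 : (0 : ℝ) ≤ L := by positivity
  have hcρ : 0 < c * ρ := by positivity
  have hE1u : E1 (pp W M) (gs ρ L) ≤ (1575 / 1000) * (c * ρ) * (ρ * 2 ^ L) := by
    refine hE1.trans ?_
    have h2 : ∑ i ∈ range L, (1 / 2 : ℝ) ^ (i + 1) * (2 ^ i * ρ * nS P ρ i) ≤
        ∑ i ∈ range L, (105 / 200) * (c * ρ) * ρ * 2 ^ i := by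
      apply Finset.sum_le_sum
      intro i hi
      have h3 := (hSb i (Finset.mem_range.1 hi).le).2
      calc _ ≤ (1 / 2 : ℝ) ^ (i + 1) * (2 ^ i * ρ * ((105 / 100) * (c * (2 ^ i * ρ)))) := by
            apply mul_le_mul_of_nonneg_left _ (by positivity)
            exact mul_le_mul_of_nonneg_left h3 (by positivity)
        _ = _ := by
            rw [pow_succ]
            linear_combination (105 / 200) * c * ρ * ρ * 2 ^ i * hhalf i
    have h5 : (1 / 2 : ℝ) ^ L * (2 ^ L * ρ * nS P ρ L) ≤ (105 / 100) * (c * ρ) * ρ * 2 ^ L := by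
      have h3 := (hSb L le_rfl).2
      calc _ ≤ (1 / 2 : ℝ) ^ L * (2 ^ L * ρ * ((105 / 100) * (c * (2 ^ L * ρ)))) := by
            apply mul_le_mul_of_nonneg_left _ (by positivity)
            exact mul_le_mul_of_nonneg_left h3 (by positivity)
        _ = _ := by
            linear_combination (105 / 100) * c * ρ * ρ * 2 ^ L * hhalf L
    rw [← Finset.mul_sum] at h2
    have h6 : ∑ i ∈ range L, (2 : ℝ) ^ i = 2 ^ L - 1 := by
      rw [geom_sum_eq (by norm_num)]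
      norm_num
    rw [h6] at h2
    have h7 : 0 < c * ρ * ρ := by positivity
    linarith
  have hE2u : E2 (pp W M) (gs ρ L) ≤ (105 / 100) * (c * ρ) * (ρ * (1 + 3 / 4 * L)) := by
    refine hE2.trans ?_
    have hq : ∀ i : ℕ, (1 / 4 : ℝ) ^ i * (2 ^ i * 2 ^ i) = 1 := by
      intro i; rw [← mul_pow, ← mul_pow]; norm_num
    have h2 : ∑ i ∈ range L, (3 / 4 * (1 / 4 : ℝ) ^ i) * (2 ^ i * ρ * nS P ρ i) ≤
        ∑ i ∈ range L, (105 / 100) * (c * ρ) * ρ * (3 / 4) := by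
      apply Finset.sum_le_sum
      intro i hi
      have h3 := (hSb i (Finset.mem_range.1 hi).le).2
      calc _ ≤ (3 / 4 * (1 / 4 : ℝ) ^ i) * (2 ^ i * ρ * ((105 / 100) * (c * (2 ^ i * ρ)))) := by
            apply mul_le_mul_of_nonneg_left _ (by positivity)
            exact mul_le_mul_of_nonneg_left h3 (by positivity)
        _ = _ := by
            linear_combination (3 / 4) * (105 / 100) * c * ρ * ρ * hq i
    have h5 : (1 / 4 : ℝ) ^ L * (2 ^ L * ρ * nS P ρ L) ≤ (105 / 100) * (c * ρ) * ρ := by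
      have h3 := (hSb L le_rfl).2
      calc _ ≤ (1 / 4 : ℝ) ^ L * (2 ^ L * ρ * ((105 / 100) * (c * (2 ^ L * ρ)))) := by
            apply mul_le_mul_of_nonneg_left _ (by positivity)
            exact mul_le_mul_of_nonneg_left h3 (by positivity)
        _ = _ := by
            linear_combination (105 / 100) * c * ρ * ρ * hq L
    rw [Finset.sum_const, Finset.card_range, nsmul_eq_mul] at h2
    linarith
  refine ⟨hG1l, hG2u, hG2l, ?_⟩
  exact num_final _ _ _ _ (c * ρ) ρ (2 ^ L) L hcρ hρ h2L hL0 (by linarith) (by linarith)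
    hE1u hE2u

end Pool.Agent.Helper90.MT
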