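import Pool.Agent.Helper90.MT.L0m

/-!
Project MT, module S-Pt: pointwise bound of the weight.
-/

namespace Pool.Agent.Helper90.MT

open Finset

namespace Pt

section Asg
set_option linter.unusedSectionVars false
variable {α ι : Type} [Fintype α] [DecidableEq α] [Fintype ι] [DecidableEq ι]

/-- the size of an assignment is the product of its parts -/
lemma szA_eq (pr : α → ℕ) (a : α → Option ι) : szA pr a = ∏ h, prt pr a h := by
  unfold szA prt
  rw [prod_comm]
  apply prod_congr rfl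
  intro i _
  rcases h : a i with _ | h0
  · simp
  · rw [if_neg (by simp)]
    rw [prod_eq_single h0]
    · simp
    · intro h' _ hne
      rw [if_neg]
      intro e
      exact hne (Option.some.inj e).symm
    · intro hne; exact absurd (mem_univ _) hne

lemma prt_eq (pr : α → ℕ) (a : α → Option ι) (h : ι) :
    prt pr a h = ∏ i ∈ univ.filter (fun i => a i = some h), pr i := by
  unfold prt
  rw [prod_filter]

lemma dvd_prt_iff {pr : α → ℕ} (hp : ∀ i, (pr i).Prime) (hi : Function.Injective pr)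
    (a : α → Option ι) (i : α) (h : ι) : pr i ∣ prt pr a h ↔ a i = some h := by
  rw [prt_eq]
  constructor
  · intro hd
    rw [(hp i).prime.dvd_finsetProd_iff] at hd
    obtain ⟨k, hk, hd⟩ := hd
    rw [mem_filter] at hk
    have := hi ((Nat.prime_dvd_prime_iff_eq (hp i) (hp k)).1 hd)
    rw [this]; exact hk.2
  · intro he
    apply dvd_prod_of_mem
    rw [mem_filter]; exact ⟨mem_univ _, he⟩

lemma prt_dvd {pr : α → ℕ} (hp : ∀ i, (pr i).Prime) (hi : Function.Injective pr)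
    {sh : ι → ℕ} {a : α → Option ι} {n : ℕ} (hm : mat pr sh a n) (h : ι) :
    prt pr a h ∣ n + sh h := by
  rw [prt_eq]
  apply prod_dvd_of_isRelPrime
  · intro i _ k _ hne
    exact Nat.coprime_iff_isRelPrime.1 ((Nat.coprime_primes (hp i) (hp k)).2 (fun e => hne (hi e)))
  · intro i hi2
    rw [mem_filter] at hi2
    exact hm i h hi2.2

open Classical in
lemma card_mat {pr : α → ℕ} (hp : ∀ i, (pr i).Prime) (hi : Function.Injective pr)
    {sh : ι → ℕ} {n : ℕ} (hn : 0 < n) :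
    #(univ.filter (fun b : α → Option ι => mat pr sh b n)) ≤ ∏ h, #(n + sh h).divisors := by
  rw [← Fintype.card_piFinset]
  apply card_le_card_of_injOn (fun b => prt pr b)
  · intro b hb
    rw [mem_coe, mem_filter] at hb
    rw [mem_coe, Fintype.mem_piFinset]
    intro h
    rw [Nat.mem_divisors]
    exact ⟨prt_dvd hp hi hb.2 h, by omega⟩
  · intro b _ b' _ hbb
    dsimp only at hbb
    funext i
    rcases h : b i with _ | h0
    · rcases h' : b' i with _ | h0'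
      · rfl
      · have := (dvd_prt_iff hp hi b' i h0').2 h'
        rw [← hbb, dvd_prt_iff hp hi, h] at this
        exact absurd this (by simp)
    · have := (dvd_prt_iff hp hi b i h0).2 h
      rw [hbb, dvd_prt_iff hp hi] at this
      rw [this]

open Classical in
lemma wt_le {pr : α → ℕ} (hp : ∀ i, (pr i).Prime) (hi : Function.Injective pr)
    {sh : ι → ℕ} {n : ℕ} (hn : 0 < n) {Y : (α → Option ι) → ℝ} {A : ℝ} (hA : 0 ≤ A)
    (hl : ∀ b, |lam pr Y b| ≤ A) :
    wt pr sh Y n ≤ (A * ∏ h, (#(n + sh h).divisors : ℝ)) ^ 2 := by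
  unfold wt
  rw [sq_le_sq]
  rw [abs_of_nonneg (a := A * ∏ h, (#(n + sh h).divisors : ℝ)) (by positivity)]
  calc |∑ b, if mat pr sh b n then lam pr Y b else 0|
      ≤ ∑ b, |if mat pr sh b n then lam pr Y b else 0| := abs_sum_le_sum_abs _ _
    _ ≤ ∑ b, if mat pr sh b n then A else 0 := by
        apply sum_le_sum; intro b _
        split_ifs
        · exact hl b
        · simp
    _ = A * #(univ.filter (fun b : α → Option ι => mat pr sh b n)) := by
        rw [← sum_filter, sum_const, nsmul_eq_mul, mul_comm]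
    _ ≤ _ := by
        apply mul_le_mul_of_nonneg_left _ hA
        exact_mod_cast card_mat hp hi hn

end Asg

lemma one_add_log_le (δ : ℝ) (hδ : 0 < δ) :
    ∃ M₀ : ℕ, ∀ M : ℕ, M ≥ M₀ → 1 + Real.log M ≤ (M : ℝ) ^ δ := by
  have h := (tendsto_rpow_atTop (half_pos hδ)).comp (tendsto_natCast_atTop_atTop (R := ℝ))
  obtain ⟨M₀, hM₀⟩ := Filter.eventually_atTop.1 (h.eventually_ge_atTop (1 + 1 / (δ / 2)))
  refine ⟨M₀ + 1, fun M hM => ?_⟩
  have h1 : 1 + 1 / (δ / 2) ≤ (M : ℝ) ^ (δ / 2) := hM₀ M (by omega)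
  have hM' : (0 : ℝ) < M := by exact_mod_cast (by omega : 0 < M)
  have h2 : Real.log M ≤ (M : ℝ) ^ (δ / 2) / (δ / 2) := Real.log_le_rpow_div hM'.le (half_pos hδ)
  have h3 : (M : ℝ) ^ δ = (M : ℝ) ^ (δ / 2) * (M : ℝ) ^ (δ / 2) := by
    rw [← Real.rpow_add hM']; congr 1; ring
  have h4 : 0 < 1 / (δ / 2) := by positivity
  have h5 : (M : ℝ) ^ (δ / 2) / (δ / 2) = (1 / (δ / 2)) * (M : ℝ) ^ (δ / 2) := by ring
  rw [h3]
  rw [h5] at h2
  nlinarith

lemma large_rpow (ε C : ℝ) (hε : 0 < ε) : ∃ M₀ : ℕ, ∀ M : ℕ, M ≥ M₀ → C ≤ (M : ℝ) ^ ε := by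
  have h := (tendsto_rpow_atTop hε).comp (tendsto_natCast_atTop_atTop (R := ℝ))
  obtain ⟨M₀, hM₀⟩ := Filter.eventually_atTop.1 (h.eventually_ge_atTop C)
  exact ⟨M₀, fun M hM => hM₀ M hM⟩

end Pt

open Pt in
theorem pt (h0 : StL0) (h1 : StTau) (h2 : StLam) (h3 : StYg) : StPt := by
  intro ι _ _ sh grp J w W v hf ε hε
  obtain ⟨K, hK⟩ : ∃ K, K = Fintype.card ι := ⟨_, rfl⟩
  obtain ⟨δ, hδ⟩ : ∃ δ : ℝ, δ = ε / (8 * (K + 1)) := ⟨_, rfl⟩
  have hδ0 : 0 < δ := by rw [hδ]; positivity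
  have hKδ : K * δ ≤ ε / 8 := by
    rw [hδ, ← mul_div_assoc, div_le_div_iff₀ (by positivity) (by positivity)]
    have : (0 : ℝ) ≤ K := by positivity
    nlinarith
  obtain ⟨C, hC, hCτ⟩ := h1 δ hδ0
  obtain ⟨M₁, hM₁⟩ := h0 ι sh grp J w W v hf
  obtain ⟨M₂, hM₂⟩ := one_add_log_le δ hδ0
  obtain ⟨M₃, hM₃⟩ := large_rpow (ε / 8) (C ^ K * (5 : ℝ) ^ (ε / 8)) (by positivity)
  refine ⟨M₁ + M₂ + M₃ + w + 2, fun M hM n hn => ?_⟩
  obtain ⟨q1, q2, q3, -, -, -, -⟩ := hM₁ M (by omega)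
  rw [mem_Ioc] at hn
  have hM1 : (1 : ℝ) ≤ M := by exact_mod_cast (by omega : 1 ≤ M)
  have hM0 : (0 : ℝ) < M := by linarith
  obtain ⟨y1, y2, y3, y4⟩ := h3 ι grp J (Rbb M) (gg M) q1 hf.hgrp
  obtain ⟨Z, hZ⟩ : ∃ Z, Z = (M : ℝ) ^ ((1 : ℝ) / 30) := ⟨_, rfl⟩
  have hZ1 : 1 ≤ Z := by rw [hZ]; exact Real.one_le_rpow hM1 (by norm_num)
  have hZM : Z ≤ M := by
    rw [hZ]
    calc (M : ℝ) ^ ((1 : ℝ) / 30) ≤ (M : ℝ) ^ (1 : ℝ) :=
          Real.rpow_le_rpow_of_exponent_le hM1 (by norm_num)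
      _ = M := Real.rpow_one _
  obtain ⟨l1, -, -⟩ := h2 (PP W M) ι (pp W M) (fun a => Yg grp J (Rbb M) (gg M) (prt (pp W M) a))
    1 Z q2.prime q2.inj hZ1 (fun a => y1 _) (fun a => y2 _)
    (by
      intro a ha
      have h5 := y4 _ ha
      rw [szA_eq]
      push_cast
      rw [hZ]
      exact h5.trans q3)
  rw [one_mul] at l1
  have hlogZ : 0 ≤ Real.log Z := Real.log_nonneg hZ1
  have hwt := wt_le q2.prime q2.inj (sh := sh) (n := n) (by omega) (A := (1 + Real.log Z) ^ Fintype.card ι)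
    (by positivity) l1
  unfold WT
  refine hwt.trans ?_
  -- the divisor bound
  have hdiv : ∀ h : ι, (#(n + sh h).divisors : ℝ) ≤ C * (5 * M : ℝ) ^ δ := by
    intro h
    refine (hCτ (n + sh h) (by omega)).trans ?_
    apply mul_le_mul_of_nonneg_left _ hC.le
    apply Real.rpow_le_rpow (by positivity) _ hδ0.le
    have h6 := hf.lt h
    have : n + sh h ≤ 5 * M := by omega
    exact_mod_cast this
  have hprod : ∏ h, (#(n + sh h).divisors : ℝ) ≤ C ^ K * ((5 : ℝ) ^ (ε / 8) * (M : ℝ) ^ (ε / 8)) := by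
    calc ∏ h, (#(n + sh h).divisors : ℝ) ≤ ∏ _h : ι, (C * (5 * M : ℝ) ^ δ) :=
          prod_le_prod (fun _ _ => by positivity) (fun h _ => hdiv h)
      _ = C ^ K * (5 * M : ℝ) ^ (K * δ) := by
          rw [prod_const, card_univ, ← hK, mul_pow, ← Real.rpow_natCast ((5 * M : ℝ) ^ δ) K,
            ← Real.rpow_mul (by positivity), mul_comm δ]
      _ ≤ C ^ K * (5 * M : ℝ) ^ (ε / 8) := by
          apply mul_le_mul_of_nonneg_left _ (by positivity)
          apply Real.rpow_le_rpow_of_exponent_le _ hKδ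
          linarith
      _ = _ := by rw [Real.mul_rpow (by norm_num) hM0.le]
  have hlogp : (1 + Real.log Z) ^ Fintype.card ι ≤ (M : ℝ) ^ (ε / 8) := by
    calc (1 + Real.log Z) ^ Fintype.card ι ≤ ((M : ℝ) ^ δ) ^ K := by
          rw [← hK]
          apply pow_le_pow_left₀ (by positivity)
          have h7 := hM₂ M (by omega)
          have h8 : Real.log Z ≤ Real.log M := Real.log_le_log (by linarith) hZM
          linarith
      _ = (M : ℝ) ^ (K * δ) := by
          rw [← Real.rpow_natCast, ← Real.rpow_mul hM0.le, mul_comm]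
      _ ≤ _ := Real.rpow_le_rpow_of_exponent_le hM1 hKδ
  have hfin : (1 + Real.log Z) ^ Fintype.card ι * ∏ h, (#(n + sh h).divisors : ℝ) ≤
      (M : ℝ) ^ (ε / 2) := by
    calc (1 + Real.log Z) ^ Fintype.card ι * ∏ h, (#(n + sh h).divisors : ℝ)
        ≤ (M : ℝ) ^ (ε / 8) * (C ^ K * ((5 : ℝ) ^ (ε / 8) * (M : ℝ) ^ (ε / 8))) :=
          mul_le_mul hlogp hprod (by positivity) (by positivity)
      _ = (M : ℝ) ^ (ε / 8) * (M : ℝ) ^ (ε / 8) * (C ^ K * (5 : ℝ) ^ (ε / 8)) := by ring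
      _ ≤ (M : ℝ) ^ (ε / 8) * (M : ℝ) ^ (ε / 8) * (M : ℝ) ^ (ε / 8) := by
          apply mul_le_mul_of_nonneg_left _ (by positivity)
          exact hM₃ M (by omega)
      _ = (M : ℝ) ^ (3 * ε / 8) := by
          rw [← Real.rpow_add hM0, ← Real.rpow_add hM0]; congr 1; ring
      _ ≤ _ := by
          apply Real.rpow_le_rpow_of_exponent_le hM1
          linarith
  calc ((1 + Real.log Z) ^ Fintype.card ι * ∏ h, (#(n + sh h).divisors : ℝ)) ^ 2
      ≤ ((M : ℝ) ^ (ε / 2)) ^ 2 := pow_le_pow_left₀ (by positivity) hfin 2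
    _ = (M : ℝ) ^ ε := by
      rw [← Real.rpow_natCast, ← Real.rpow_mul hM0.le]
      congr 1; push_cast; ring

end Pool.Agent.Helper90.MT
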