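import Pool.Agent.Helper90.MT.FormD

/-!
Project MT: global form of the primes.
-/

namespace Pool.Agent.Helper90.MT

open Finset

/-- diagonal matrix -/
noncomputable def qP_D {κ : Type} [DecidableEq κ] (d : κ → ℝ) (x y : κ) : ℝ :=
  if x = y then d x else 0

theorem qP_Dsum {κ : Type} [Fintype κ] [DecidableEq κ] (d L : κ → ℝ) :
    ∑ x, ∑ y, qP_D d x y * L x * L y = ∑ x, d x * L x ^ 2 := by
  refine sum_congr rfl fun x _ => ?_
  rw [sum_eq_single x]
  · simp only [qP_D, if_true]
    ring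
  · intro b _ hb
    simp only [qP_D]
    rw [if_neg (fun h => hb h.symm)]
    ring
  · intro h
    exact absurd (mem_univ _) h

theorem qP_sym {κ : Type} [Fintype κ] (M T : κ → κ → ℝ) (hM : ∀ x y, M x y = M y x)
    (o o' : κ) : ∑ x, ∑ y, M x y * T x o * T y o' = ∑ x, ∑ y, M x y * T x o' * T y o := by
  rw [sum_comm]
  refine sum_congr rfl fun x _ => sum_congr rfl fun y _ => ?_
  rw [hM y x]
  ring

theorem qP_MPsym {ι : Type} [DecidableEq ι] (m : ι) (p : ℕ) (x y : Option ι) :
    MP m p x y = MP m p y x := by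
  rcases x with _ | g <;> rcases y with _ | h
  · rfl
  · rfl
  · rfl
  · simp only [MP]
    by_cases hgh : g = h
    · subst hgh
      rfl
    · rw [if_neg (fun h1 => hgh h1.1), if_neg (fun h1 => hgh h1.1.symm)]

theorem qP (h1 : StTensor) (h2 : StVar) (h3 : StFormP) : StQP := by
  intro α ι _ _ _ _ pr m Y hpr hK
  have hR : ∑ b, ∑ b', (∏ i, MP m (pr i) (b i) (b' i)) * lam pr Y b * lam pr Y b' =
      ∑ a, ∑ a', (∏ i, ∑ o, ∑ o', MP m (pr i) o o' * TT (pr i) o (a i) * TT (pr i) o' (a' i)) *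
        Y a * Y a' :=
    h2 α (Option ι) (fun i => MP m (pr i)) (fun i => TT (pr i)) Y
  have hL : ∑ b, ∑ b', (∏ i, qP_D (dP m (Fintype.card ι) (pr i)) (b i) (b' i)) *
      zz pr m Y b * zz pr m Y b' =
      ∑ a, ∑ a', (∏ i, ∑ o, ∑ o', qP_D (dP m (Fintype.card ι) (pr i)) o o' *
        TP m (pr i) o (a i) * TP m (pr i) o' (a' i)) * Y a * Y a' :=
    h2 α (Option ι) (fun i => qP_D (dP m (Fintype.card ι) (pr i))) (fun i => TP m (pr i)) Y
  have hD : ∑ b, ∑ b', (∏ i, qP_D (dP m (Fintype.card ι) (pr i)) (b i) (b' i)) *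
      zz pr m Y b * zz pr m Y b' =
      ∑ a, (∏ i, dP m (Fintype.card ι) (pr i) (a i)) * zz pr m Y a ^ 2 := by
    refine sum_congr rfl fun b _ => ?_
    rw [sum_eq_single b]
    · simp only [qP_D, if_true]
      ring
    · intro b' _ hb
      obtain ⟨i, hi⟩ : ∃ i, b i ≠ b' i := by
        by_contra hno
        push Not at hno
        exact hb (funext fun i => (hno i).symm)
      have h0 : ∏ i, qP_D (dP m (Fintype.card ι) (pr i)) (b i) (b' i) = 0 := by
        refine prod_eq_zero (mem_univ i) ?_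
        simp only [qP_D]
        rw [if_neg hi]
      rw [h0]
      ring
    · intro h
      exact absurd (mem_univ _) h
  rw [← hD, hL, hR]
  refine h1 α (Option ι)
    (fun i o o' => ∑ x, ∑ y, qP_D (dP m (Fintype.card ι) (pr i)) x y *
        TP m (pr i) x o * TP m (pr i) y o')
    (fun i o o' => ∑ x, ∑ y, MP m (pr i) x y * TT (pr i) x o * TT (pr i) y o') ?_ ?_ ?_ ?_ Y
  · intro i o o'
    refine qP_sym _ _ (fun x y => ?_) o o'
    simp only [qP_D]
    by_cases hxy : x = y
    · subst hxy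
      rfl
    · rw [if_neg hxy, if_neg (fun h => hxy h.symm)]
  · intro i o o'
    exact qP_sym _ _ (fun x y => qP_MPsym m (pr i) x y) o o'
  · intro i v
    rw [formD_swap, qP_Dsum]
    refine sum_nonneg fun x _ => mul_nonneg ?_ (sq_nonneg _)
    rcases x with _ | h
    · exact zero_le_one
    · simp only [dP]
      split_ifs
      · exact le_refl _
      · have : (Fintype.card ι : ℝ) ≤ pr i := by exact_mod_cast hK i
        exact div_nonneg (by linarith) (sq_nonneg _)
  · intro i v
    rw [formD_swap (qP_D (dP m (Fintype.card ι) (pr i))), qP_Dsum]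
    exact h3 ι m (pr i) v (hpr i) (hK i)

end Pool.Agent.Helper90.MT
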