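import Pool.Agent.Helper90.MT.S1

/-!
Project MT: the prime sum assembled.
-/

namespace Pool.Agent.Helper90.MT

open Finset

theorem s2 (h1 : StQP) (h2 : StCntP) : StS2 := by
  classical
  intro α ι _ _ _ _ pr sh W v m Y M Qm f E X hok hX hE hf hshm hEq hQ
  have hq := h1 α ι pr m Y (fun i => (hok.prime i).one_lt)
    (fun i => by have := hok.large i; omega)
  have hex := s1_expand pr sh Y (range (4 * M + 1)) (fun n => n ≡ v [MOD W])
    (fun n => f (n + sh m))
  have hle : ∀ b b' : α → Option ι,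
      X / W.totient * ((∏ i, MP m (pr i) (b i) (b' i)) * lam pr Y b * lam pr Y b') -
        |lam pr Y b| * |lam pr Y b'| * E (W * szU pr b b') ≤ lam pr Y b * lam pr Y b' *
      ∑ n ∈ (range (4 * M + 1)).filter
        (fun n => n ≡ v [MOD W] ∧ mat pr sh b n ∧ mat pr sh b' n), f (n + sh m) := by
    intro b b'
    by_cases hb : lam pr Y b = 0
    · simp [hb]
    by_cases hb' : lam pr Y b' = 0
    · simp [hb']
    have h3 := h2 α ι pr sh (Fintype.card ι) W v m b b' M Qm f E X hok hE hf hshm hEq
      (hQ b b' hb hb')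
    set S := ∑ n ∈ (range (4 * M + 1)).filter
      (fun n => n ≡ v [MOD W] ∧ mat pr sh b n ∧ mat pr sh b' n), f (n + sh m) with hS
    have h4 : lam pr Y b * lam pr Y b' * S =
        X / W.totient * ((∏ i, MP m (pr i) (b i) (b' i)) * lam pr Y b * lam pr Y b') +
        (lam pr Y b * lam pr Y b') * (S - X / W.totient * ∏ i, MP m (pr i) (b i) (b' i)) := by
      ring
    have h5 : -(|lam pr Y b| * |lam pr Y b'| * E (W * szU pr b b')) ≤
        (lam pr Y b * lam pr Y b') * (S - X / W.totient * ∏ i, MP m (pr i) (b i) (b' i)) := by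
      refine le_trans ?_ (neg_abs_le _)
      rw [abs_mul, abs_mul]
      refine neg_le_neg (mul_le_mul_of_nonneg_left ?_ (by positivity))
      rw [hS]
      convert h3 using 4
    rw [h4]
    linarith
  rw [hex]
  calc X / W.totient * ∑ a, (∏ i, dP m (Fintype.card ι) (pr i) (a i)) * zz pr m Y a ^ 2 -
        ∑ b, ∑ b', |lam pr Y b| * |lam pr Y b'| * E (W * szU pr b b')
      ≤ X / W.totient *
          (∑ b, ∑ b', (∏ i, MP m (pr i) (b i) (b' i)) * lam pr Y b * lam pr Y b') -
        ∑ b, ∑ b', |lam pr Y b| * |lam pr Y b'| * E (W * szU pr b b') := by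
        have : (0 : ℝ) ≤ X / W.totient := div_nonneg hX (Nat.cast_nonneg _)
        have := mul_le_mul_of_nonneg_left hq this
        linarith
    _ = ∑ b, ∑ b',
        (X / W.totient * ((∏ i, MP m (pr i) (b i) (b' i)) * lam pr Y b * lam pr Y b') -
        |lam pr Y b| * |lam pr Y b'| * E (W * szU pr b b')) := by
        simp only [sum_sub_distrib, mul_sum]
    _ ≤ ∑ b, ∑ b', lam pr Y b * lam pr Y b' *
        ∑ n ∈ (range (4 * M + 1)).filter
          (fun n => n ≡ v [MOD W] ∧ mat pr sh b n ∧ mat pr sh b' n), f (n + sh m) :=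
        sum_le_sum fun b _ => sum_le_sum fun b' _ => hle b b'

end Pool.Agent.Helper90.MT
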