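import Pool.Agent.Helper90.MT.StS

/-!
Project MT, part S: upper bound with primes at the positions `D`.
-/

namespace Pool.Agent.Helper90.MT

open Finset

section
variable {α ι : Type} [Fintype α] [DecidableEq α] [Fintype ι] [DecidableEq ι]

theorem S9_prt_mem (pr : α → ℕ) (a : α → Option ι) : prt pr a ∈ piDD ι pr := by
  classical
  unfold piDD
  rw [Fintype.mem_piFinset]
  intro h
  unfold DD
  refine mem_image.2 ⟨univ.filter (fun i => a i = some h), ?_, ?_⟩
  · rw [mem_powerset]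
    exact filter_subset _ _
  · unfold prt
    rw [Finset.prod_filter]

theorem S9_szA (pr : α → ℕ) (a : α → Option ι) : szA pr a = ∏ h, prt pr a h := by
  classical
  unfold szA prt
  rw [Finset.prod_comm]
  refine Finset.prod_congr rfl fun i _ => ?_
  cases hi : a i with
  | none => simp
  | some h0 =>
    rw [if_neg (by simp), Finset.prod_eq_single h0]
    · rw [if_pos rfl]
    · intro h _ hh
      rw [if_neg]
      intro e
      exact hh (Option.some.inj e).symm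
    · intro h
      exact absurd (Finset.mem_univ _) h

theorem S9_wt {pr : α → ℕ} {sh : ι → ℕ} {D : Finset ι} {R' : ℝ} (h3 : StTil1)
    (Y : (α → Option ι) → ℝ) (hpr : ∀ i, 0 < pr i) (hR : 1 ≤ R') {n : ℕ}
    (hn : ∀ h ∈ D, ∀ i, ¬ pr i ∣ n + sh h) :
    wt pr sh Y n = wt pr sh (Ytil pr D R' Y) n := by
  classical
  unfold wt
  congr 1
  refine Finset.sum_congr rfl fun b _ => ?_
  by_cases hb : mat pr sh b n
  · rw [if_pos hb, if_pos hb]
    refine (h3 α ι pr D R' Y b hpr hR ?_).symm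
    intro i h hh hbi
    exact hn h hh i (hb i h hbi)
  · rw [if_neg hb, if_neg hb]

theorem S9_full_nonneg (pr : α → ℕ) (Yn : (ι → ℕ) → ℝ) (D : Finset ι) : 0 ≤ Full pr Yn D := by
  classical
  unfold Full
  refine Finset.sum_nonneg fun x _ => mul_nonneg ?_ (sq_nonneg _)
  exact inv_nonneg.2 (Finset.prod_nonneg fun h _ => Nat.cast_nonneg _)

theorem S9_S_ge (pr : α → ℕ) {R' : ℝ} (hR : 1 ≤ R') :
    1 ≤ ∑ d ∈ (DD pr).filter (fun d : ℕ => (d : ℝ) ≤ R'), 1 / (d : ℝ) := by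
  classical
  have h1 : 1 ∈ (DD pr).filter (fun d : ℕ => (d : ℝ) ≤ R') := by
    rw [mem_filter]
    refine ⟨?_, by simpa using hR⟩
    unfold DD
    exact mem_image.2 ⟨∅, by simp, by simp⟩
  calc (1 : ℝ) = 1 / ((1 : ℕ) : ℝ) := by simp
    _ ≤ _ := Finset.single_le_sum (f := fun d : ℕ => 1 / (d : ℝ))
      (fun d _ => by positivity) h1

end

theorem s9 (h1 : StS1) (h2 : StLam) (h3 : StTil1) (h4 : StTil2) (h5 : StTil3) (h6 : StHlow)
    (h7 : StUpp) : StS9 := by
  classical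
  intro α ι _ _ _ _ pr sh W v D Yn N η X V Z R' hok hD hX hV hE hη hY0 hY1 hanti hR hZ hsupp hσ
  set σ : ℝ := ∑ i, 1 / (pr i : ℝ) ^ 2 with hσd
  set K := Fintype.card ι with hK
  set Y : (α → Option ι) → ℝ := fun a => Yn (prt pr a) with hY
  set Yt := Ytil pr D R' Y with hYt
  set S : ℝ := ∑ d ∈ (DD pr).filter (fun d : ℕ => (d : ℝ) ≤ R'), 1 / (d : ℝ) with hS
  have hpr : ∀ i, 0 < pr i := fun i => (hok.prime i).pos
  have hσ0 : 0 ≤ σ := Finset.sum_nonneg fun i _ => by positivity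
  have hS1 : 1 ≤ S := S9_S_ge pr hR
  have hW : (0 : ℝ) < W := by exact_mod_cast hok.W0
  -- step 1, 2
  have e1 : ∑ n ∈ N.filter (fun n => n ≡ v [MOD W] ∧ ∀ h ∈ D, ∀ i, ¬ pr i ∣ n + sh h),
      η n * wt pr sh Y n ≤ X / W * ∑ a, Yt a ^ 2 / szA pr a + V * (∑ b, |lam pr Yt b|) ^ 2 := by
    have e2 : ∑ n ∈ N.filter (fun n => n ≡ v [MOD W] ∧ ∀ h ∈ D, ∀ i, ¬ pr i ∣ n + sh h),
        η n * wt pr sh Y n =
        ∑ n ∈ N.filter (fun n => n ≡ v [MOD W] ∧ ∀ h ∈ D, ∀ i, ¬ pr i ∣ n + sh h),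
        η n * wt pr sh Yt n := by
      refine Finset.sum_congr rfl fun n hn => ?_
      rw [S9_wt h3 Y hpr hR (mem_filter.1 hn).2.2]
    rw [e2]
    refine le_trans ?_ (h1 α ι pr sh W v Yt N η X V hok hX hV hE)
    refine Finset.sum_le_sum_of_subset_of_nonneg ?_ fun n _ _ => ?_
    · intro n hn
      rw [mem_filter] at hn ⊢
      exact ⟨hn.1, hn.2.1⟩
    · refine mul_nonneg (hη n) ?_
      unfold wt
      exact sq_nonneg _
  -- step 3, 4, 5
  have hexp : (1 - σ)⁻¹ ≤ Real.exp (2 * σ) := by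
    have h8 : 0 < 1 - σ := by linarith
    rw [inv_le_comm₀ h8 (Real.exp_pos _), ← Real.exp_neg]
    have h9 : Real.exp (-(2 * σ)) * (1 + 2 * σ) ≤ 1 := by
      have h10 := Real.add_one_le_exp (2 * σ)
      calc Real.exp (-(2 * σ)) * (1 + 2 * σ) ≤ Real.exp (-(2 * σ)) * Real.exp (2 * σ) :=
            mul_le_mul_of_nonneg_left (by linarith) (Real.exp_pos _).le
        _ = 1 := by rw [← Real.exp_add, neg_add_cancel, Real.exp_zero]
    have h11 : 0 < 1 + 2 * σ := by linarith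
    have h12 : Real.exp (-(2 * σ)) ≤ 1 / (1 + 2 * σ) := by
      rw [le_div_iff₀ h11]
      exact h9
    refine h12.trans ?_
    rw [div_le_iff₀ h11]
    nlinarith
  have hmain : ∑ a, Yt a ^ 2 / szA pr a ≤
      Real.exp ((3 * (K : ℝ) + 8) * σ) * (S ^ #D)⁻¹ * Full pr Yn D := by
    rw [hYt, h4 α ι pr D R' Y hpr hR]
    have h8 : 0 < 1 - σ := by linarith
    have hSD : 0 < S ^ #D := pow_pos (by linarith) _
    have hterm : ∀ a ∈ univ.filter (fun a : α → Option ι => Avd D a),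
        VV pr D Y a ^ 2 / (HH pr D R' a * szA pr a) ≤
        (Real.exp (2 * σ) * (S ^ #D)⁻¹) *
          ((∏ i, (if a i = none then 1 else (1 + 1 / (pr i : ℝ)) ^ #D)) *
            (VV pr D Y a ^ 2 / szA pr a)) := by
      intro a _
      have h9 := h6 α ι pr D R' a hok.prime hok.inj hD hR
      set Pa : ℝ := ∏ i, (if a i = none then 1 else (1 + 1 / (pr i : ℝ)) ^ #D) with hPa
      have hPpos : 0 < Pa := by
        refine Finset.prod_pos fun i _ => ?_
        split_ifs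
        · norm_num
        · positivity
      have h10 : 0 < (1 - σ) * S ^ #D := mul_pos h8 hSD
      have h9' : (1 - σ) * S ^ #D ≤ HH pr D R' a * Pa := h9
      have hH : 0 < HH pr D R' a := by
        by_contra hcon
        push Not at hcon
        have := mul_nonpos_of_nonpos_of_nonneg hcon hPpos.le
        linarith
      have hinv : (HH pr D R' a)⁻¹ ≤ Real.exp (2 * σ) * (S ^ #D)⁻¹ * Pa := by
        have h11 : (HH pr D R' a)⁻¹ ≤ (1 - σ)⁻¹ * (S ^ #D)⁻¹ * Pa := by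
          rw [← mul_inv, inv_mul_eq_div, le_div_iff₀ h10, inv_mul_le_iff₀ hH]
          exact h9'
        refine h11.trans ?_
        gcongr
      have hsz : (0 : ℝ) ≤ VV pr D Y a ^ 2 / szA pr a := by positivity
      calc VV pr D Y a ^ 2 / (HH pr D R' a * szA pr a) =
            (HH pr D R' a)⁻¹ * (VV pr D Y a ^ 2 / szA pr a) := by
              rw [div_mul_eq_div_div_swap, div_eq_mul_inv (_ / _) (HH pr D R' a), mul_comm]
        _ ≤ (Real.exp (2 * σ) * (S ^ #D)⁻¹ * Pa) * (VV pr D Y a ^ 2 / szA pr a) :=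
              mul_le_mul_of_nonneg_right hinv hsz
        _ = _ := by ring
    refine (Finset.sum_le_sum hterm).trans ?_
    rw [← Finset.mul_sum]
    have h12 := h7 α ι pr D Yn hok.prime hok.inj hD hY0 hanti
    have hc : 0 ≤ Real.exp (2 * σ) * (S ^ #D)⁻¹ := by positivity
    refine (mul_le_mul_of_nonneg_left h12 hc).trans ?_
    have hF := S9_full_nonneg pr Yn D
    have h13 : Real.exp (2 * σ) * Real.exp (3 * (K : ℝ) * σ) ≤ Real.exp ((3 * (K : ℝ) + 8) * σ) := by
      rw [← Real.exp_add]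
      refine Real.exp_le_exp.2 ?_
      nlinarith
    calc Real.exp (2 * σ) * (S ^ #D)⁻¹ * (Real.exp (3 * (K : ℝ) * σ) * Full pr Yn D) =
          (Real.exp (2 * σ) * Real.exp (3 * (K : ℝ) * σ)) * (S ^ #D)⁻¹ * Full pr Yn D := by ring
      _ ≤ _ := by gcongr
  -- step 6
  have hZR : 1 ≤ Z * R' ^ 2 := one_le_mul_of_one_le_of_one_le hZ (one_le_pow₀ hR)
  have ht := h5 α ι pr D R' Z Y hok.prime hok.inj hD hR hZ (fun a => hY0 _) (fun a => hY1 _)
    (fun a ha => by
      have h14 := hsupp (prt pr a) (S9_prt_mem pr a) ha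
      rw [S9_szA, Nat.cast_prod]
      exact h14)
  have hl := (h2 α ι pr Yt ((1 + Real.log Z) ^ 2) (Z * R' ^ 2) hok.prime hok.inj hZR ht.1 ht.2.1
    ht.2.2).2.2
  have hlog0 : 0 ≤ Real.log Z := Real.log_nonneg hZ
  have hlog : Real.log Z ≤ Real.log (Z * R' ^ 2) := by
    refine Real.log_le_log (by linarith) ?_
    exact le_mul_of_one_le_right (by linarith) (one_le_pow₀ hR)
  have herr : ∑ b, |lam pr Yt b| ≤
      (Z * R' ^ 2) * (1 + Real.log (Z * R' ^ 2)) ^ (2 * K + 2) := by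
    refine hl.trans ?_
    have h15 : (1 + Real.log Z) ^ 2 ≤ (1 + Real.log (Z * R' ^ 2)) ^ 2 := by gcongr
    have h16 : 0 ≤ (Z * R' ^ 2) * (1 + Real.log (Z * R' ^ 2)) ^ (2 * K) := by
      have : 0 ≤ Real.log (Z * R' ^ 2) := hlog0.trans hlog
      positivity
    calc (1 + Real.log Z) ^ 2 * (Z * R' ^ 2) * (1 + Real.log (Z * R' ^ 2)) ^ (2 * K) =
          (1 + Real.log Z) ^ 2 * ((Z * R' ^ 2) * (1 + Real.log (Z * R' ^ 2)) ^ (2 * K)) := by ring
      _ ≤ (1 + Real.log (Z * R' ^ 2)) ^ 2 *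
          ((Z * R' ^ 2) * (1 + Real.log (Z * R' ^ 2)) ^ (2 * K)) :=
            mul_le_mul_of_nonneg_right h15 h16
      _ = _ := by ring
  have hlam0 : 0 ≤ ∑ b, |lam pr Yt b| := Finset.sum_nonneg fun b _ => abs_nonneg _
  refine e1.trans (add_le_add ?_ ?_)
  · exact mul_le_mul_of_nonneg_left hmain (div_nonneg hX hW.le)
  · refine mul_le_mul_of_nonneg_left ?_ hV
    exact pow_le_pow_left₀ hlam0 herr 2

end Pool.Agent.Helper90.MT
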