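import Pool.Agent.Helper90.MT.Def

/-!
Project MT (MP_3ec731_nt), module C-Seg: from the sieve theorem to infinite sets with realised
initial segments.
-/

namespace Pool.Agent.Helper90.MT

open Finset

namespace Seg

section blocks

variable (A : Set ℕ) (K : ℕ → ℕ)

/-- starting points of the blocks -/
def st (j : ℕ) : ℕ := ∑ i ∈ range j, K i

theorem st_succ (j : ℕ) : st K (j + 1) = st K j + K j := Finset.sum_range_succ _ _

theorem st_mono : Monotone (st K) := monotone_nat_of_le_succ fun j => by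
  rw [st_succ]; exact Nat.le_add_right _ _

theorem le_st (hK : ∀ j, 0 < K j) (j : ℕ) : j ≤ st K j := by
  induction j with
  | zero => exact Nat.zero_le _
  | succ j ih =>
    rw [st_succ]
    have := hK j
    omega

/-- consecutive blocks of `A` -/
noncomputable def blk (j : ℕ) : Finset ℕ :=
  (Ico (st K j) (st K (j + 1))).image (Nat.nth (· ∈ A))

variable {A K}

theorem blk_card (hA : A.Infinite) (j : ℕ) : (blk A K j).card = K j := by
  have hinj : Function.Injective (Nat.nth (· ∈ A)) :=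
    (Nat.nth_strictMono (p := (· ∈ A)) hA).injective
  unfold blk
  rw [Finset.card_image_of_injective _ hinj, Nat.card_Ico, st_succ]
  omega

theorem blk_sub (hA : A.Infinite) {j x : ℕ} (hx : x ∈ blk A K j) : x ∈ A := by
  unfold blk at hx
  obtain ⟨i, _, rfl⟩ := Finset.mem_image.1 hx
  exact Nat.nth_mem_of_infinite hA i

theorem blk_lt (hA : A.Infinite) {j J x : ℕ} (hj : j < J) (hx : x ∈ blk A K j) :
    x < Nat.nth (· ∈ A) (st K J) := by
  unfold blk at hx
  obtain ⟨i, hi, rfl⟩ := Finset.mem_image.1 hx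
  refine Nat.nth_strictMono hA (lt_of_lt_of_le (Finset.mem_Ico.1 hi).2 (st_mono K ?_))
  exact hj

theorem blk_disj (hA : A.Infinite) {i j : ℕ} (hij : i ≠ j) :
    Disjoint (blk A K i) (blk A K j) := by
  wlog h : i < j generalizing i j
  · exact (this hij.symm (lt_of_le_of_ne (not_lt.1 h) hij.symm)).symm
  rw [Finset.disjoint_left]
  intro x hx hx'
  have h1 := blk_lt hA h hx
  unfold blk at hx'
  obtain ⟨l, hl, rfl⟩ := Finset.mem_image.1 hx'
  have h2 := (Nat.nth_strictMono hA).lt_iff_lt.1 h1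
  exact absurd (Finset.mem_Ico.1 hl).1 (not_le.2 h2)

end blocks

/-- a numerical inequality -/
theorem num (ε c : ℝ) (hε : 0 < ε) (hc : 0 < c) : ∃ N₁ : ℕ, ∀ N ≥ N₁, ∀ e : ℝ, e ≤ ε / 2 →
    ((4 * N + 1 : ℕ) : ℝ) ^ (1 - ε) ≤ c * (N : ℝ) ^ (1 - e) := by
  have h1 : Filter.Tendsto (fun N : ℕ => (N : ℝ) ^ (ε / 2)) Filter.atTop Filter.atTop :=
    (tendsto_rpow_atTop (by positivity)).comp tendsto_natCast_atTop_atTop
  obtain ⟨N₁, hN₁⟩ := Filter.eventually_atTop.1 (h1.eventually_ge_atTop (5 / c))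
  refine ⟨max N₁ 1, fun N hN e he => ?_⟩
  have hN1 : (1 : ℝ) ≤ N := by
    exact_mod_cast (le_max_right _ _).trans hN
  have hN0 : (0 : ℝ) < N := by linarith
  have h2 : 5 / c ≤ (N : ℝ) ^ (ε / 2) := hN₁ N ((le_max_left _ _).trans hN)
  rw [div_le_iff₀ hc] at h2
  have h3 : ((4 * N + 1 : ℕ) : ℝ) ^ (1 - ε) ≤ 5 * (N : ℝ) ^ (1 - ε) := by
    push_cast
    rcases le_total ε 1 with h | h
    · calc (4 * (N : ℝ) + 1) ^ (1 - ε) ≤ (5 * (N : ℝ)) ^ (1 - ε) :=
            Real.rpow_le_rpow (by positivity) (by linarith) (by linarith)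
        _ = (5 : ℝ) ^ (1 - ε) * (N : ℝ) ^ (1 - ε) := Real.mul_rpow (by norm_num) hN0.le
        _ ≤ (5 : ℝ) ^ (1 : ℝ) * (N : ℝ) ^ (1 - ε) := by
            gcongr
            · norm_num
            · linarith
        _ = 5 * (N : ℝ) ^ (1 - ε) := by rw [Real.rpow_one]
    · calc (4 * (N : ℝ) + 1) ^ (1 - ε) ≤ (N : ℝ) ^ (1 - ε) :=
            Real.rpow_le_rpow_of_nonpos hN0 (by linarith) (by linarith)
        _ ≤ 5 * (N : ℝ) ^ (1 - ε) := by
            have : 0 ≤ (N : ℝ) ^ (1 - ε) := by positivity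
            linarith
  calc ((4 * N + 1 : ℕ) : ℝ) ^ (1 - ε) ≤ 5 * (N : ℝ) ^ (1 - ε) := h3
    _ ≤ ((N : ℝ) ^ (ε / 2) * c) * (N : ℝ) ^ (1 - ε) := by gcongr
    _ = c * (N : ℝ) ^ (1 - ε / 2) := by
        rw [show (1 - ε / 2) = (ε / 2) + (1 - ε) by ring, Real.rpow_add hN0]
        ring
    _ ≤ c * (N : ℝ) ^ (1 - e) := by
        gcongr

open Classical in
/-- limits of bounded sequences along the hyperfilter -/
theorem exists_lim (μ : ℕ → ℝ) (h0 : ∀ J, 0 ≤ μ J) (h1 : ∀ J, μ J ≤ 1) :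
    ∃ x : ℝ, Filter.Tendsto μ (Filter.hyperfilter ℕ : Filter ℕ) (nhds x) := by
  have h := (isCompact_Icc (a := (0 : ℝ)) (b := 1)).ultrafilter_le_nhds'
    ((Filter.hyperfilter ℕ).map μ) (by
      rw [Ultrafilter.mem_map]
      exact Filter.univ_mem' fun J => ⟨h0 J, h1 J⟩)
  obtain ⟨x, _, hx⟩ := h
  exact ⟨x, hx⟩

end Seg

open Classical Seg in
theorem seg_of_G (h1 : StG) (h2 : StCore) : StSeg := by
  intro A v hA hC hU
  obtain ⟨δ, hδ, K, hK, hG⟩ := h1
  -- the data for every `J`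
  let M : ℕ → ℕ := fun J => Nat.nth (· ∈ A) (st K J)
  let E : ℕ → Finset ℕ := fun J => (range (M J)).filter (· ∉ A)
  have hM : ∀ J, J ≤ M J := fun J =>
    (le_st K hK J).trans (Nat.nth_strictMono hA).le_apply
  have hex := fun J : ℕ => hG J (blk A K) (E J) (J + 1).factorial (v (J + 1).factorial) J
    (1 / ((J : ℝ) + 1)) (Nat.factorial_pos _) (by positivity)
    (fun j _ => blk_card hA j)
    (fun i _ j _ hij => blk_disj hA hij)
    (fun j _ => by
      rw [Finset.disjoint_left]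
      intro x hx hx'
      exact (Finset.mem_filter.1 hx').2 (blk_sub hA hx))
    (fun p hp => ⟨v p, fun j _ h hh hdvd => by
      have h3 := hU p hp.pos h (blk_sub hA hh)
      have h4 := (Nat.Prime.coprime_iff_not_dvd hp).1 h3.symm
      exact h4 hdvd⟩)
    (fun j _ h hh => hU _ (Nat.factorial_pos _) h (blk_sub hA hh))
  choose N hN u hu0 hub hus husum hud using hex
  -- patterns
  let pat : ℕ → ℕ → Set ℕ := fun J n => {x | x < M J ∧ (n + x).Prime}
  let μ : Set (Set ℕ) → ℕ → ℝ := fun S J =>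
    ∑ n ∈ (Ioc (N J) (4 * N J)).filter (fun n => pat J n ∈ S), u J n
  have hμ0 : ∀ S J, 0 ≤ μ S J := fun S J => Finset.sum_nonneg fun n _ => hu0 J n
  have hμ1 : ∀ S J, μ S J ≤ 1 := fun S J => by
    rw [← husum J]
    exact Finset.sum_le_sum_of_subset_of_nonneg (Finset.filter_subset _ _)
      fun n _ _ => hu0 J n
  choose ν hν using fun S => exists_lim (μ S) (hμ0 S) (hμ1 S)
  have hA1 : ∀ S J, 0 < μ S J → ∃ n, pat J n ∈ S ∧ u J n ≠ 0 := by
    intro S J h
    obtain ⟨n, hn, hne⟩ := Finset.exists_ne_zero_of_sum_ne_zero h.ne'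
    exact ⟨n, (Finset.mem_filter.1 hn).2, hne⟩
  have hA2 : ∀ S J, ∃ Z : Finset ℕ, (∀ n ∈ Z, pat J n ∈ S ∧ u J n ≠ 0) ∧
      μ S J ≤ #Z * ((N J : ℝ) ^ (1 / ((J : ℝ) + 1) - 1)) := by
    intro S J
    refine ⟨((Ioc (N J) (4 * N J)).filter (fun n => pat J n ∈ S)).filter
      (fun n => u J n ≠ 0), fun n hn => ?_, ?_⟩
    · rw [Finset.mem_filter, Finset.mem_filter] at hn
      exact ⟨hn.1.2, hn.2⟩
    · have h3 : μ S J = ∑ n ∈ ((Ioc (N J) (4 * N J)).filter (fun n => pat J n ∈ S)).filter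
          (fun n => u J n ≠ 0), u J n := by
        rw [Finset.sum_filter_ne_zero]
      rw [h3, ← nsmul_eq_mul]
      exact Finset.sum_le_card_nsmul _ _ _ fun n _ => hub J n
  have hν0 : ∀ S, 0 ≤ ν S := fun S => ge_of_tendsto' (hν S) (hμ0 S)
  have hνadd : ∀ S T, Disjoint S T → ν (S ∪ T) = ν S + ν T := by
    intro S T hST
    refine tendsto_nhds_unique (hν (S ∪ T)) ?_
    refine ((hν S).add (hν T)).congr fun J => ?_
    show μ S J + μ T J = μ (S ∪ T) J
    simp only [μ]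
    rw [← Finset.sum_union]
    · refine Finset.sum_congr ?_ fun _ _ => rfl
      ext n
      simp only [Finset.mem_union, Finset.mem_filter, Set.mem_union]
      tauto
    · rw [Finset.disjoint_left]
      intro n hn hn'
      exact Set.disjoint_left.1 hST (Finset.mem_filter.1 hn).2 (Finset.mem_filter.1 hn').2
  have hν1 : ν Set.univ = 1 := by
    refine tendsto_nhds_unique (hν Set.univ) ?_
    refine tendsto_const_nhds.congr fun J => ?_
    simp only [μ]
    rw [← husum J]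
    refine Finset.sum_congr ?_ fun _ _ => rfl
    ext n
    simp
  have hgt : ∀ j : ℕ, ∀ᶠ J in (Filter.hyperfilter ℕ : Filter ℕ), j < J := fun j =>
    Nat.hyperfilter_le_atTop (Filter.eventually_gt_atTop j)
  have hνG : ∀ j, δ ≤ ν {Q | ∃ h ∈ blk A K j, h ∈ Q} := by
    intro j
    refine ge_of_tendsto (hν _) ((hgt j).mono fun J hJ => ?_)
    refine (hud J j hJ).trans (le_of_eq ?_)
    simp only [μ]
    refine Finset.sum_congr ?_ fun _ _ => rfl
    ext n
    simp only [Finset.mem_filter, Set.mem_ofPred_eq, pat]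
    constructor
    · rintro ⟨hn, h, hh, hp⟩
      exact ⟨hn, h, hh, blk_lt hA hJ hh, hp⟩
    · rintro ⟨hn, h, hh, _, hp⟩
      exact ⟨hn, h, hh, hp⟩
  obtain ⟨Q, hQ1, hQ2⟩ := h2 ν δ (blk A K) hδ hν0 hνadd hν1 hνG
  -- for many `J` the cylinders have large measure
  have hcyl : ∀ k : ℕ, ∀ᶠ J in (Filter.hyperfilter ℕ : Filter ℕ),
      ν {T | ∀ x < k, (x ∈ T ↔ x ∈ Q)} / 2 < μ {T | ∀ x < k, (x ∈ T ↔ x ∈ Q)} J := fun k =>
    (hν _).eventually (lt_mem_nhds (by linarith [hQ1 k]))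
  refine ⟨Q, ?_, ?_, ?_⟩
  · intro x hx
    by_contra hxA
    obtain ⟨J, hJ1, hJ2⟩ := ((hcyl (x + 1)).and (hgt x)).exists
    have h3 : 0 < μ {T | ∀ y < x + 1, (y ∈ T ↔ y ∈ Q)} J :=
      lt_trans (by linarith [hQ1 (x + 1)]) hJ1
    obtain ⟨n, h4, hne⟩ := hA1 _ J h3
    have h5 := (h4 x (Nat.lt_succ_self x)).2 hx
    have h6 := (hus J n hne).2.2 x (Finset.mem_filter.2
      ⟨Finset.mem_range.2 (hJ2.trans_le (hM J)), hxA⟩)
    exact h6 h5.2
  · intro hfin
    refine hQ2 ?_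
    have hch : ∀ j ∈ {j | ∃ h ∈ blk A K j, h ∈ Q}, ∃ h, h ∈ blk A K j ∧ h ∈ Q :=
      fun j hj => hj
    choose! f hf1 hf2 using hch
    refine Set.Finite.of_injOn (f := f) (t := Q) (fun j hj => hf2 j hj) ?_ hfin
    intro i hi j hj hij
    by_contra hne
    have h7 := hf1 j hj
    rw [← hij] at h7
    exact Finset.disjoint_left.1 (blk_disj hA hne) (hf1 i hi) h7
  · intro k m hm ε hε x₀
    set c := ν {T | ∀ x < k, (x ∈ T ↔ x ∈ Q)} with hc
    have hcpos : 0 < c := hQ1 k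
    obtain ⟨N₁, hN₁⟩ := num ε (c / 2) hε (by positivity)
    obtain ⟨L, hL⟩ := exists_nat_ge (2 / ε)
    obtain ⟨J, hJ1, hJ2⟩ := ((hcyl k).and (hgt (max (max N₁ x₀) (max (max L m) k)))).exists
    have hJN₁ : N₁ ≤ J := (le_max_left _ _).trans ((le_max_left _ _).trans hJ2.le)
    have hJx : x₀ ≤ J := (le_max_right _ _).trans ((le_max_left _ _).trans hJ2.le)
    have hJL : L ≤ J := (le_max_left _ _).trans ((le_max_left _ _).trans
      ((le_max_right _ _).trans hJ2.le))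
    have hJm : m ≤ J := (le_max_right _ _).trans ((le_max_left _ _).trans
      ((le_max_right _ _).trans hJ2.le))
    have hJk : k ≤ J := (le_max_right _ _).trans ((le_max_right _ _).trans hJ2.le)
    have hJpos : 0 < J := lt_of_le_of_lt (Nat.zero_le _) hJ2
    have hNJ := hN J
    refine ⟨4 * N J + 1, by omega, ?_⟩
    have he : 1 / ((J : ℝ) + 1) ≤ ε / 2 := by
      have h8 : 2 / ε ≤ (J : ℝ) + 1 := by
        have : (L : ℝ) ≤ J := by exact_mod_cast hJL
        linarith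
      rw [div_le_iff₀ (by positivity)]
      rw [div_le_iff₀ hε] at h8
      linarith
    refine (hN₁ (N J) (hJN₁.trans hNJ) _ he).trans ?_
    -- the set of good `n`
    obtain ⟨Z, hZ, h9⟩ := hA2 {T | ∀ x < k, (x ∈ T ↔ x ∈ Q)} J
    have hNpos : (0 : ℝ) < N J := by
      exact_mod_cast lt_of_lt_of_le hJpos hNJ
    have h10 : (c / 2) * (N J : ℝ) ^ (1 - 1 / ((J : ℝ) + 1)) ≤ #Z := by
      have h11 : c / 2 ≤ #Z * ((N J : ℝ) ^ (1 / ((J : ℝ) + 1) - 1)) := by
        linarith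
      calc (c / 2) * (N J : ℝ) ^ (1 - 1 / ((J : ℝ) + 1))
          ≤ (#Z * ((N J : ℝ) ^ (1 / ((J : ℝ) + 1) - 1))) *
            (N J : ℝ) ^ (1 - 1 / ((J : ℝ) + 1)) := by gcongr
        _ = #Z := by
            rw [mul_assoc, ← Real.rpow_add hNpos]
            simp
    refine h10.trans ?_
    norm_cast
    refine Finset.card_le_card fun n hn => ?_
    obtain ⟨hn2, hn3⟩ := hZ n hn
    obtain ⟨hn1, hn4, _⟩ := hus J n hn3
    rw [Finset.mem_filter, Finset.mem_range]
    refine ⟨Nat.lt_succ_of_le (Finset.mem_Ioc.1 hn1).2, ?_, ?_⟩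
    · have hdvd : m ∣ (J + 1).factorial := Nat.dvd_factorial hm (by omega)
      exact (hn4.of_dvd hdvd).trans (hC m _ (Nat.factorial_pos _) hdvd)
    · intro j _ hj
      obtain ⟨b, hb, hjb⟩ := hj
      have hbk : b < k := Finset.mem_range.1 (Finset.mem_filter.1 hb).1
      have hjk : j < k := lt_of_le_of_lt hjb hbk
      have h12 : (j ∈ pat J n ↔ j ∈ Q) := hn2 j hjk
      have hjM : j < M J := lt_of_lt_of_le (hjk.trans_le hJk) (hM J)
      unfold seg
      rw [Finset.mem_filter, Finset.mem_range, ← h12]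
      exact ⟨fun hp => ⟨hjk, hjM, hp⟩, fun hp => hp.2.2⟩

end Pool.Agent.Helper90.MT
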