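import Pool.Agent.Helper90.MT.Def

/-!
Project MT: strengthened notion of realisation (isolated patterns).
-/

namespace Pool.Agent.Helper90.MT

open Finset

/-- `n + F` is exactly the set of primes in `[n - f (max F), n + max F + f (max F)]`. -/
def RlF (f : ℕ → ℕ) (F : Finset ℕ) (n : ℕ) : Prop :=
  ∀ k : ℕ, n ≤ k + f (F.sup id) → k ≤ n + F.sup id + f (F.sup id) →
    (k.Prime ↔ ∃ j ∈ F, k = n + j)

open Classical in
/-- `F` is realised in isolation by many `n` in each class `v m` modulo `m` -/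
def RzF (f v : ℕ → ℕ) (F : Finset ℕ) : Prop :=
  ∀ m : ℕ, 0 < m → ∀ ε : ℝ, 0 < ε → ∀ x₀ : ℕ, ∃ x ≥ x₀,
    (x : ℝ) ^ (1 - ε) ≤ #((range x).filter (fun n => n ≡ v m [MOD m] ∧ RlF f F n))

/-- strengthened form of `StSeg` -/
def StSeg2 : Prop := ∀ (f : ℕ → ℕ) (A : Set ℕ) (v : ℕ → ℕ), A.Infinite → Cpt v → Unt v A →
  (∀ a ∈ A, ∀ b ∈ A, a < b → a + f a < b) →
  ∃ Q ⊆ A, Q.Infinite ∧ ∀ k : ℕ, (seg Q k).Nonempty → RzF f v (seg Q k)

/-- final theorem, strengthened form -/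
def StMain1 : Prop := ∀ (f : ℕ → ℕ) (A : Set ℕ) (v : ℕ → ℕ), A.Infinite → Cpt v → Unt v A →
  ∃ B ⊆ A, B.Infinite ∧ ∀ F : Finset ℕ, F.Nonempty → (F : Set ℕ) ⊆ B → RzF f v F

end Pool.Agent.Helper90.MT
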