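import Pool.Agent.Helper90.MT.Seg
import Pool.Agent.Helper90.MT.Def2

/-!
Project MT (MP_3ec731_nt), module C-Seg2: from the sieve theorem to infinite sets with initial
segments realised in isolation.
-/

namespace Pool.Agent.Helper90.MT

open Finset

namespace Seg2

/-- a numerical inequality -/
theorem num (ε c : ℝ) (hε : 0 < ε) (hc : 0 < c) : ∃ N₁ : ℕ, ∀ N ≥ N₁, ∀ e : ℝ, e ≤ ε / 2 →
    ((5 * N + 1 : ℕ) : ℝ) ^ (1 - ε) ≤ c * (N : ℝ) ^ (1 - e) := by
  have h1 : Filter.Tendsto (fun N : ℕ => (N : ℝ) ^ (ε / 2)) Filter.atTop Filter.atTop :=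
    (tendsto_rpow_atTop (by positivity)).comp tendsto_natCast_atTop_atTop
  obtain ⟨N₁, hN₁⟩ := Filter.eventually_atTop.1 (h1.eventually_ge_atTop (6 / c))
  refine ⟨max N₁ 1, fun N hN e he => ?_⟩
  have hN1 : (1 : ℝ) ≤ N := by
    exact_mod_cast (le_max_right _ _).trans hN
  have hN0 : (0 : ℝ) < N := by linarith
  have h2 : 6 / c ≤ (N : ℝ) ^ (ε / 2) := hN₁ N ((le_max_left _ _).trans hN)
  rw [div_le_iff₀ hc] at h2
  have h3 : ((5 * N + 1 : ℕ) : ℝ) ^ (1 - ε) ≤ 6 * (N : ℝ) ^ (1 - ε) := by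
    push_cast
    rcases le_total ε 1 with h | h
    · calc (5 * (N : ℝ) + 1) ^ (1 - ε) ≤ (6 * (N : ℝ)) ^ (1 - ε) :=
            Real.rpow_le_rpow (by positivity) (by linarith) (by linarith)
        _ = (6 : ℝ) ^ (1 - ε) * (N : ℝ) ^ (1 - ε) := Real.mul_rpow (by norm_num) hN0.le
        _ ≤ (6 : ℝ) ^ (1 : ℝ) * (N : ℝ) ^ (1 - ε) := by
            gcongr
            · norm_num
            · linarith
        _ = 6 * (N : ℝ) ^ (1 - ε) := by rw [Real.rpow_one]
    · calc (5 * (N : ℝ) + 1) ^ (1 - ε) ≤ (N : ℝ) ^ (1 - ε) :=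
            Real.rpow_le_rpow_of_nonpos hN0 (by linarith) (by linarith)
        _ ≤ 6 * (N : ℝ) ^ (1 - ε) := by
            have : 0 ≤ (N : ℝ) ^ (1 - ε) := by positivity
            linarith
  calc ((5 * N + 1 : ℕ) : ℝ) ^ (1 - ε) ≤ 6 * (N : ℝ) ^ (1 - ε) := h3
    _ ≤ ((N : ℝ) ^ (ε / 2) * c) * (N : ℝ) ^ (1 - ε) := by gcongr
    _ = c * (N : ℝ) ^ (1 - ε / 2) := by
        rw [show (1 - ε / 2) = (ε / 2) + (1 - ε) by ring, Real.rpow_add hN0]
        ring
    _ ≤ c * (N : ℝ) ^ (1 - e) := by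
        gcongr

/-- the class of `v - T` modulo `m` -/
theorem shift_add {m T v : ℕ} (hm : 0 < m) : (v + m * T - T) + T = v + m * T :=
  Nat.sub_add_cancel (le_trans (Nat.le_mul_of_pos_left T hm) (Nat.le_add_left _ _))

theorem seg_sup_mem {Q : Set ℕ} {k : ℕ} (h : (seg Q k).Nonempty) :
    (seg Q k).sup id ∈ seg Q k := by
  obtain ⟨x, hx, hx'⟩ := Finset.exists_mem_eq_sup (seg Q k) h id
  rw [hx']
  exact hx

end Seg2

open Classical Seg in
theorem seg2_of_G (h1 : StG) (h2 : StCore) : StSeg2 := by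
  intro f A v hA hC hU hthin
  obtain ⟨δ, hδ, K, hK, hG⟩ := h1
  -- the data for every `J`
  let M : ℕ → ℕ := fun J => Nat.nth (· ∈ A) (st K (J + 1))
  let T : ℕ → ℕ := fun J => ∑ x ∈ range (M J), f x
  let H : ℕ → ℕ → Finset ℕ := fun J j => (blk A K j).image (T J + ·)
  let E : ℕ → Finset ℕ := fun J => (range (T J + M J)).filter (fun e => ¬ ∃ a ∈ A, e = T J + a)
  have hM : ∀ J, J ≤ M J := fun J =>
    le_trans (Nat.le_succ J) ((le_st K hK (J + 1)).trans (Nat.nth_strictMono hA).le_apply)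
  have hT : ∀ J x, x < M J → f x ≤ T J := fun J x hx =>
    Finset.single_le_sum (f := f) (fun _ _ => Nat.zero_le _) (Finset.mem_range.2 hx)
  have hinj : ∀ J, Function.Injective (T J + ·) := fun J => add_right_injective (T J)
  have hex := fun J : ℕ => hG (J + 1) (H J) (E J) (J + 1).factorial
    (v (J + 1).factorial + (J + 1).factorial * T J - T J) (J + T J)
    (1 / ((J : ℝ) + 1)) (Nat.factorial_pos _) (by positivity)
    (fun j _ => by
      rw [Finset.card_image_of_injective _ (hinj J)]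
      exact blk_card hA j)
    (fun i _ j _ hij => by
      rw [Finset.disjoint_image (hinj J)]
      exact blk_disj hA hij)
    (fun j _ => by
      rw [Finset.disjoint_left]
      intro x hx hx'
      obtain ⟨y, hy, rfl⟩ := Finset.mem_image.1 hx
      exact (Finset.mem_filter.1 hx').2 ⟨y, blk_sub hA hy, rfl⟩)
    (fun p hp => ⟨v p + p * T J - T J, fun j _ h hh hdvd => by
      obtain ⟨y, hy, rfl⟩ := Finset.mem_image.1 hh
      have h3 := hU p hp.pos y (blk_sub hA hy)
      have h4 := (Nat.Prime.coprime_iff_not_dvd hp).1 h3.symm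
      have h5 := Seg2.shift_add (m := p) (T := T J) (v := v p) hp.pos
      have h6 : v p + p * T J - T J + (T J + y) = p * T J + (v p + y) := by omega
      rw [h6] at hdvd
      exact h4 ((Nat.dvd_add_right (dvd_mul_right _ _)).1 hdvd)⟩)
    (fun j _ h hh => by
      obtain ⟨y, hy, rfl⟩ := Finset.mem_image.1 hh
      have h3 := hU _ (Nat.factorial_pos (J + 1)) y (blk_sub hA hy)
      have h5 := Seg2.shift_add (m := (J + 1).factorial) (T := T J) (v := v (J + 1).factorial)
        (Nat.factorial_pos _)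
      have h6 : v (J + 1).factorial + (J + 1).factorial * T J - T J + (T J + y) =
          (v (J + 1).factorial + y) + (J + 1).factorial * T J := by omega
      show (v (J + 1).factorial + (J + 1).factorial * T J - T J + (T J + y)).Coprime _
      rw [h6]
      exact (Nat.coprime_add_mul_left_left _ _ _).2 h3)
  choose N hN u hu0 hub hus husum hud using hex
  -- patterns
  let pat : ℕ → ℕ → Set ℕ := fun J n => {x | x < M J ∧ (n + (T J + x)).Prime}
  let μ : Set (Set ℕ) → ℕ → ℝ := fun S J =>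
    ∑ n ∈ (Ioc (N J) (4 * N J)).filter (fun n => pat J n ∈ S), u J n
  have hμ0 : ∀ S J, 0 ≤ μ S J := fun S J => Finset.sum_nonneg fun n _ => hu0 J n
  have hμ1 : ∀ S J, μ S J ≤ 1 := fun S J => by
    rw [← husum J]
    exact Finset.sum_le_sum_of_subset_of_nonneg (Finset.filter_subset _ _)
      fun n _ _ => hu0 J n
  choose ν hν using fun S => exists_lim (μ S) (hμ0 S) (hμ1 S)
  have hA1 : ∀ S J, 0 < μ S J → ∃ n, pat J n ∈ S ∧ u J n ≠ 0 := by
    intro S J h
    obtain ⟨n, hn, hne⟩ := Finset.exists_ne_zero_of_sum_ne_zero h.ne'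
    exact ⟨n, (Finset.mem_filter.1 hn).2, hne⟩
  have hA2 : ∀ S J, ∃ Z : Finset ℕ, (∀ n ∈ Z, pat J n ∈ S ∧ u J n ≠ 0) ∧
      μ S J ≤ #Z * ((N J : ℝ) ^ (1 / ((J : ℝ) + 1) - 1)) := by
    intro S J
    refine ⟨((Ioc (N J) (4 * N J)).filter (fun n => pat J n ∈ S)).filter
      (fun n => u J n ≠ 0), fun n hn => ?_, ?_⟩
    · rw [Finset.mem_filter, Finset.mem_filter] at hn
      exact ⟨hn.1.2, hn.2⟩
    · have h3 : μ S J = ∑ n ∈ ((Ioc (N J) (4 * N J)).filter (fun n => pat J n ∈ S)).filter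
          (fun n => u J n ≠ 0), u J n := by
        rw [Finset.sum_filter_ne_zero]
      rw [h3, ← nsmul_eq_mul]
      exact Finset.sum_le_card_nsmul _ _ _ fun n _ => hub J n
  have hν0 : ∀ S, 0 ≤ ν S := fun S => ge_of_tendsto' (hν S) (hμ0 S)
  have hνadd : ∀ S T, Disjoint S T → ν (S ∪ T) = ν S + ν T := by
    intro S T hST
    refine tendsto_nhds_unique (hν (S ∪ T)) ?_
    refine ((hν S).add (hν T)).congr fun J => ?_
    show μ S J + μ T J = μ (S ∪ T) J
    simp only [μ]
    rw [← Finset.sum_union]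
    · refine Finset.sum_congr ?_ fun _ _ => rfl
      ext n
      simp only [Finset.mem_union, Finset.mem_filter, Set.mem_union]
      tauto
    · rw [Finset.disjoint_left]
      intro n hn hn'
      exact Set.disjoint_left.1 hST (Finset.mem_filter.1 hn).2 (Finset.mem_filter.1 hn').2
  have hν1 : ν Set.univ = 1 := by
    refine tendsto_nhds_unique (hν Set.univ) ?_
    refine tendsto_const_nhds.congr fun J => ?_
    simp only [μ]
    rw [← husum J]
    refine Finset.sum_congr ?_ fun _ _ => rfl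
    ext n
    simp
  have hgt : ∀ j : ℕ, ∀ᶠ J in (Filter.hyperfilter ℕ : Filter ℕ), j < J := fun j =>
    Nat.hyperfilter_le_atTop (Filter.eventually_gt_atTop j)
  have hνG : ∀ j, δ ≤ ν {Q | ∃ h ∈ blk A K j, h ∈ Q} := by
    intro j
    refine ge_of_tendsto (hν _) ((hgt j).mono fun J hJ => ?_)
    refine (hud J j (hJ.trans (Nat.lt_succ_self J))).trans (le_of_eq ?_)
    simp only [μ]
    refine Finset.sum_congr ?_ fun _ _ => rfl
    ext n
    simp only [Finset.mem_filter, Set.mem_ofPred_eq, pat]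
    constructor
    · rintro ⟨hn, h, hh, hp⟩
      obtain ⟨y, hy, rfl⟩ := Finset.mem_image.1 hh
      exact ⟨hn, y, hy, blk_lt hA (hJ.trans (Nat.lt_succ_self J)) hy, hp⟩
    · rintro ⟨hn, h, hh, _, hp⟩
      exact ⟨hn, T J + h, Finset.mem_image.2 ⟨h, hh, rfl⟩, hp⟩
  obtain ⟨Q, hQ1, hQ2⟩ := h2 ν δ (blk A K) hδ hν0 hνadd hν1 hνG
  -- for many `J` the cylinders have large measure
  have hcyl : ∀ k : ℕ, ∀ᶠ J in (Filter.hyperfilter ℕ : Filter ℕ),
      ν {T | ∀ x < k, (x ∈ T ↔ x ∈ Q)} / 2 < μ {T | ∀ x < k, (x ∈ T ↔ x ∈ Q)} J := fun k =>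
    (hν _).eventually (lt_mem_nhds (by linarith [hQ1 k]))
  have hQA : Q ⊆ A := by
    intro x hx
    by_contra hxA
    obtain ⟨J, hJ1, hJ2⟩ := ((hcyl (x + 1)).and (hgt x)).exists
    have h3 : 0 < μ {T | ∀ y < x + 1, (y ∈ T ↔ y ∈ Q)} J :=
      lt_trans (by linarith [hQ1 (x + 1)]) hJ1
    obtain ⟨n, h4, hne⟩ := hA1 _ J h3
    have h5 := (h4 x (Nat.lt_succ_self x)).2 hx
    have hxM : x < M J := hJ2.trans_le (hM J)
    have h6 := (hus J n hne).2.2 (T J + x) (Finset.mem_filter.2
      ⟨Finset.mem_range.2 (by omega), by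
        rintro ⟨a, ha, hax⟩
        have : x = a := by omega
        exact hxA (this ▸ ha)⟩)
    exact h6 h5.2
  refine ⟨Q, hQA, ?_, ?_⟩
  · intro hfin
    refine hQ2 ?_
    have hch : ∀ j ∈ {j | ∃ h ∈ blk A K j, h ∈ Q}, ∃ h, h ∈ blk A K j ∧ h ∈ Q :=
      fun j hj => hj
    choose! f hf1 hf2 using hch
    refine Set.Finite.of_injOn (f := f) (t := Q) (fun j hj => hf2 j hj) ?_ hfin
    intro i hi j hj hij
    by_contra hne
    have h7 := hf1 j hj
    rw [← hij] at h7
    exact Finset.disjoint_left.1 (blk_disj hA hne) (hf1 i hi) h7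
  · intro k₀ hk₀ m hm ε hε x₀
    have hamem := Seg2.seg_sup_mem hk₀
    set a := (seg Q k₀).sup id with ha
    have haQ : a ∈ Q := (Finset.mem_filter.1 hamem).2
    have hak : a < k₀ := Finset.mem_range.1 (Finset.mem_filter.1 hamem).1
    obtain ⟨k, hk⟩ : ∃ k, k = a + f a + 1 := ⟨_, rfl⟩
    set c := ν {T | ∀ x < k, (x ∈ T ↔ x ∈ Q)} with hc
    have hcpos : 0 < c := hQ1 k
    obtain ⟨N₁, hN₁⟩ := Seg2.num ε (c / 2) hε (by positivity)
    obtain ⟨L, hL⟩ := exists_nat_ge (2 / ε)
    obtain ⟨J, hJ1, hJ2⟩ := ((hcyl k).and (hgt (max (max N₁ x₀) (max (max L m) k)))).exists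
    have hJN₁ : N₁ ≤ J := (le_max_left _ _).trans ((le_max_left _ _).trans hJ2.le)
    have hJx : x₀ ≤ J := (le_max_right _ _).trans ((le_max_left _ _).trans hJ2.le)
    have hJL : L ≤ J := (le_max_left _ _).trans ((le_max_left _ _).trans
      ((le_max_right _ _).trans hJ2.le))
    have hJm : m ≤ J := (le_max_right _ _).trans ((le_max_left _ _).trans
      ((le_max_right _ _).trans hJ2.le))
    have hJk : k ≤ J := (le_max_right _ _).trans ((le_max_right _ _).trans hJ2.le)
    have hJpos : 0 < J := lt_of_le_of_lt (Nat.zero_le _) hJ2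
    have hNJ : J + T J ≤ N J := hN J
    refine ⟨5 * N J + 1, by omega, ?_⟩
    have he : 1 / ((J : ℝ) + 1) ≤ ε / 2 := by
      have h8 : 2 / ε ≤ (J : ℝ) + 1 := by
        have : (L : ℝ) ≤ J := by exact_mod_cast hJL
        linarith
      rw [div_le_iff₀ (by positivity)]
      rw [div_le_iff₀ hε] at h8
      linarith
    refine (hN₁ (N J) (by omega) _ he).trans ?_
    -- the set of good `n`
    obtain ⟨Z, hZ, h9⟩ := hA2 {T | ∀ x < k, (x ∈ T ↔ x ∈ Q)} J
    have hNpos : (0 : ℝ) < N J := by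
      exact_mod_cast (by omega : 0 < N J)
    have h10 : (c / 2) * (N J : ℝ) ^ (1 - 1 / ((J : ℝ) + 1)) ≤ #Z := by
      have h11 : c / 2 ≤ #Z * ((N J : ℝ) ^ (1 / ((J : ℝ) + 1) - 1)) := by
        linarith
      calc (c / 2) * (N J : ℝ) ^ (1 - 1 / ((J : ℝ) + 1))
          ≤ (#Z * ((N J : ℝ) ^ (1 / ((J : ℝ) + 1) - 1))) *
            (N J : ℝ) ^ (1 - 1 / ((J : ℝ) + 1)) := by gcongr
        _ = #Z := by
            rw [mul_assoc, ← Real.rpow_add hNpos]
            simp
    refine h10.trans ?_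
    norm_cast
    rw [← Finset.card_image_of_injective Z (hinj J)]
    refine Finset.card_le_card fun n' hn' => ?_
    obtain ⟨n, hn, rfl⟩ := Finset.mem_image.1 hn'
    obtain ⟨hn2, hn3⟩ := hZ n hn
    obtain ⟨hn1, hn4, hn5⟩ := hus J n hn3
    have hn6 := (Finset.mem_Ioc.1 hn1).2
    have haM : a < M J := by
      have := hM J
      omega
    have hfa : f a ≤ T J := hT J a haM
    show T J + n ∈ _
    rw [Finset.mem_filter, Finset.mem_range]
    refine ⟨by omega, ?_, ?_⟩
    · have hdvd : m ∣ (J + 1).factorial := Nat.dvd_factorial hm (by omega)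
      have h13 : T J + n ≡ v (J + 1).factorial [MOD (J + 1).factorial] := by
        have h14 := hn4.add_right (T J)
        rw [Seg2.shift_add (Nat.factorial_pos _)] at h14
        rw [add_comm (T J) n]
        refine h14.trans ?_
        have h15 : v (J + 1).factorial + (J + 1).factorial * T J ≡ v (J + 1).factorial + 0
            [MOD (J + 1).factorial] :=
          Nat.ModEq.add_left _ ((Nat.modEq_zero_iff_dvd).2 (dvd_mul_right _ _))
        exact h15
      exact (h13.of_dvd hdvd).trans (hC m _ (Nat.factorial_pos _) hdvd)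
    · intro k' hk1 hk2
      rw [← ha] at hk1 hk2
      rcases lt_or_ge k' (T J + n) with hlt | hge
      · -- below `n`
        have h16 : ¬ (n + (k' - n)).Prime := by
          refine hn5 (k' - n) (Finset.mem_filter.2 ⟨Finset.mem_range.2 (by omega), ?_⟩)
          rintro ⟨b, _, hb⟩
          omega
        rw [show n + (k' - n) = k' by omega] at h16
        constructor
        · intro h; exact absurd h h16
        · rintro ⟨j, _, hj⟩
          omega
      · obtain ⟨j, rfl⟩ := Nat.exists_eq_add_of_le hge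
        have hjk : j < k := by omega
        have h12 : (j ∈ pat J n ↔ j ∈ Q) := hn2 j hjk
        have hjM : j < M J := lt_of_lt_of_le (hjk.trans_le hJk) (hM J)
        have h17 : (T J + n + j).Prime ↔ j ∈ Q := by
          rw [← h12]
          show _ ↔ (j < M J ∧ (n + (T J + j)).Prime)
          rw [show T J + n + j = n + (T J + j) by omega]
          exact ⟨fun h => ⟨hjM, h⟩, fun h => h.2⟩
        rw [h17]
        constructor
        · intro hjQ
          refine ⟨j, ?_, rfl⟩
          unfold seg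
          rw [Finset.mem_filter, Finset.mem_range]
          refine ⟨?_, hjQ⟩
          by_contra hjk0
          have := hthin a (hQA haQ) j (hQA hjQ) (by omega)
          omega
        · rintro ⟨i, hi, hij⟩
          have : i = j := by omega
          subst this
          exact (Finset.mem_filter.1 hi).2

end Pool.Agent.Helper90.MT
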