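import Pool.Agent.Helper90.MT.StS

set_option autoImplicit false

namespace Pool.Agent.Helper90.MT

open Finset

theorem Tau_step (ε : ℝ) (hε : 0 < ε) (p k : ℕ) (hp : 2 ≤ p) (B : ℕ)
    (hB : (2 : ℝ) ^ (1 / ε) ≤ B) :
    ((k : ℝ) + 1) ≤ (if p < B then 1 + 1 / (ε * Real.log 2) else 1) * ((p : ℝ) ^ k) ^ ε := by
  have hl2 : 0 < Real.log 2 := Real.log_pos one_lt_two
  have hp0 : (0 : ℝ) < p := by exact_mod_cast (by omega : 0 < p)
  have hpk : ((p : ℝ) ^ k) ^ ε = Real.exp (k * (ε * Real.log p)) := by
    rw [← Real.rpow_natCast, ← Real.rpow_mul hp0.le, Real.rpow_def_of_pos hp0]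
    congr 1
    ring
  have hlp : Real.log 2 ≤ Real.log p := Real.log_le_log two_pos (by exact_mod_cast hp)
  rw [hpk]
  split_ifs with h
  · have h1 : Real.exp (k * (ε * Real.log 2)) ≤ Real.exp (k * (ε * Real.log p)) :=
      Real.exp_le_exp.2 (by gcongr)
    have h2 : k * (ε * Real.log 2) + 1 ≤ Real.exp (k * (ε * Real.log 2)) :=
      Real.add_one_le_exp _
    have hx : 0 < ε * Real.log 2 := by positivity
    calc (k : ℝ) + 1 ≤ (1 + 1 / (ε * Real.log 2)) * (k * (ε * Real.log 2) + 1) := by
          have : (1 + 1 / (ε * Real.log 2)) * (k * (ε * Real.log 2) + 1) =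
              k + 1 + (k * (ε * Real.log 2) + 1 / (ε * Real.log 2)) := by
            field_simp
            ring
          rw [this]
          have : 0 ≤ k * (ε * Real.log 2) + 1 / (ε * Real.log 2) := by positivity
          linarith
      _ ≤ _ := by
          apply mul_le_mul_of_nonneg_left (h2.trans h1)
          positivity
  · rw [one_mul]
    have hBp : (B : ℝ) ≤ p := by exact_mod_cast (not_lt.1 h)
    have h3 : Real.log 2 ≤ ε * Real.log p := by
      have h4 : Real.log ((2 : ℝ) ^ (1 / ε)) ≤ Real.log p :=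
        Real.log_le_log (by positivity) (hB.trans hBp)
      rw [Real.log_rpow two_pos] at h4
      have h5 := mul_le_mul_of_nonneg_left h4 hε.le
      have h6 : ε * (1 / ε * Real.log 2) = Real.log 2 := by
        field_simp
      linarith
    have h7 : Real.exp (k * Real.log 2) ≤ Real.exp (k * (ε * Real.log p)) :=
      Real.exp_le_exp.2 (by gcongr)
    have h8 : Real.exp (k * Real.log 2) = (2 : ℝ) ^ k := by
      rw [mul_comm, ← Real.rpow_def_of_pos two_pos, Real.rpow_natCast]
    rw [h8] at h7
    refine le_trans ?_ h7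
    have h9 : k + 1 ≤ 2 ^ k := Nat.lt_two_pow_self
    exact_mod_cast h9

theorem tau : StTau := by
  intro ε hε
  obtain ⟨B, hB⟩ := exists_nat_ge ((2 : ℝ) ^ (1 / ε))
  have hl2 : 0 < Real.log 2 := Real.log_pos one_lt_two
  set C0 : ℝ := 1 + 1 / (ε * Real.log 2) with hC0
  have hC01 : 1 ≤ C0 := by
    have : 0 < 1 / (ε * Real.log 2) := by positivity
    linarith
  refine ⟨C0 ^ B, by positivity, fun n hn => ?_⟩
  rw [Nat.card_divisors hn.ne']
  push_cast
  have h1 : ∏ p ∈ n.primeFactors, ((n.factorization p : ℝ) + 1) ≤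
      ∏ p ∈ n.primeFactors, ((if p < B then C0 else 1) * ((p : ℝ) ^ n.factorization p) ^ ε) := by
    apply Finset.prod_le_prod
    · intro p _
      positivity
    · intro p hp
      exact Tau_step ε hε p _ (Nat.prime_of_mem_primeFactors hp).two_le B hB
  refine h1.trans ?_
  rw [Finset.prod_mul_distrib]
  have h2 : ∏ p ∈ n.primeFactors, ((p : ℝ) ^ n.factorization p) ^ ε = (n : ℝ) ^ ε := by
    rw [Real.finsetProd_rpow _ _ (fun i _ => by positivity)]
    congr 1
    have h3 := Nat.prod_factorization_pow_eq_self hn.ne'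
    conv_rhs => rw [← h3]
    rw [Finsupp.prod, Nat.support_factorization]
    push_cast
    rfl
  rw [h2]
  apply mul_le_mul_of_nonneg_right _ (by positivity)
  rw [Finset.prod_ite, Finset.prod_const_one, mul_one, Finset.prod_const]
  apply pow_le_pow_right₀ hC01
  have h4 : n.primeFactors.filter (fun p => p < B) ⊆ range B := by
    intro p hp
    rw [mem_filter] at hp
    exact mem_range.2 hp.2
  have h5 := card_le_card h4
  rwa [card_range] at h5

end Pool.Agent.Helper90.MT
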