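import Pool.Agent.Helper90.MT.StS

/-!
Project MT: facts about the tent weight (`StTent`).
-/

namespace Pool.Agent.Helper90.MT

open Finset

theorem tent_low (M n : ℕ) (hM : 0 < M) (h : n ≤ M) : tent M n = 0 := by
  have hM' : (0 : ℝ) < M := by exact_mod_cast hM
  unfold tent
  rcases Nat.eq_zero_or_pos n with h0 | h0
  · subst h0
    simp
  · have hn : (0 : ℝ) < n := by exact_mod_cast h0
    have hnM : (n : ℝ) ≤ M := by exact_mod_cast h
    have h1 : (1 : ℝ) ≤ (M : ℝ) / n := by rw [le_div_iff₀ hn]; linarith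
    have h2 : (1 : ℝ) ≤ 2 * (M : ℝ) / n := by rw [le_div_iff₀ hn]; linarith
    have h4 : (1 : ℝ) ≤ 4 * (M : ℝ) / n := by rw [le_div_iff₀ hn]; linarith
    rw [Real.posLog_eq_log (x := (M : ℝ) / n) (by rw [abs_of_nonneg (by linarith)]; exact h1),
      Real.posLog_eq_log (x := 2 * (M : ℝ) / n) (by rw [abs_of_nonneg (by linarith)]; exact h2),
      Real.posLog_eq_log (x := 4 * (M : ℝ) / n) (by rw [abs_of_nonneg (by linarith)]; exact h4),
      Real.log_div (by positivity) (by positivity), Real.log_div (by positivity) (by positivity),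
      Real.log_div (by positivity) (by positivity), Real.log_mul (by positivity) (by positivity),
      Real.log_mul (by positivity) (by positivity),
      show (4 : ℝ) = 2 * 2 by norm_num, Real.log_mul (by positivity) (by positivity)]
    ring

theorem tent_up (M n : ℕ) (hM : 0 < M) (h1 : M ≤ n) (h2 : n ≤ 2 * M) :
    tent M n = Real.log n - Real.log M := by
  have hM' : (0 : ℝ) < M := by exact_mod_cast hM
  have hn : (0 : ℝ) < n := by exact_mod_cast (by omega : 0 < n)
  have hnM : (n : ℝ) ≤ 2 * M := by exact_mod_cast h2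
  have hMn : (M : ℝ) ≤ n := by exact_mod_cast h1
  unfold tent
  have e1 : (M : ℝ) / n ≤ 1 := by rw [div_le_iff₀ hn]; linarith
  have e2 : (1 : ℝ) ≤ 2 * (M : ℝ) / n := by rw [le_div_iff₀ hn]; linarith
  have e4 : (1 : ℝ) ≤ 4 * (M : ℝ) / n := by rw [le_div_iff₀ hn]; linarith
  rw [(Real.posLog_eq_zero_iff ((M : ℝ) / n)).2 (by rw [abs_of_nonneg (by positivity)]; exact e1),
    Real.posLog_eq_log (x := 2 * (M : ℝ) / n) (by rw [abs_of_nonneg (by linarith)]; exact e2),
    Real.posLog_eq_log (x := 4 * (M : ℝ) / n) (by rw [abs_of_nonneg (by linarith)]; exact e4),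
    Real.log_div (by positivity) (by positivity), Real.log_div (by positivity) (by positivity),
    Real.log_mul (by positivity) (by positivity),
    Real.log_mul (by positivity) (by positivity),
    show (4 : ℝ) = 2 * 2 by norm_num, Real.log_mul (by positivity) (by positivity)]
  ring

theorem tent_down (M n : ℕ) (hM : 0 < M) (h1 : 2 * M ≤ n) (h2 : n ≤ 4 * M) :
    tent M n = Real.log (4 * M) - Real.log n := by
  have hM' : (0 : ℝ) < M := by exact_mod_cast hM
  have hn : (0 : ℝ) < n := by exact_mod_cast (by omega : 0 < n)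
  have hnM : (n : ℝ) ≤ 4 * M := by exact_mod_cast h2
  have hMn : 2 * (M : ℝ) ≤ n := by exact_mod_cast h1
  unfold tent
  have e1 : (M : ℝ) / n ≤ 1 := by rw [div_le_iff₀ hn]; linarith
  have e2 : 2 * (M : ℝ) / n ≤ 1 := by rw [div_le_iff₀ hn]; linarith
  have e4 : (1 : ℝ) ≤ 4 * (M : ℝ) / n := by rw [le_div_iff₀ hn]; linarith
  rw [(Real.posLog_eq_zero_iff ((M : ℝ) / n)).2 (by rw [abs_of_nonneg (by positivity)]; exact e1),
    (Real.posLog_eq_zero_iff (2 * (M : ℝ) / n)).2
      (by rw [abs_of_nonneg (by positivity)]; exact e2),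
    Real.posLog_eq_log (by rw [abs_of_nonneg (by linarith)]; exact e4),
    Real.log_div (by positivity) (by positivity)]
  ring

theorem tent_high (M n : ℕ) (hM : 0 < M) (h1 : 4 * M ≤ n) : tent M n = 0 := by
  have hM' : (0 : ℝ) < M := by exact_mod_cast hM
  have hn : (0 : ℝ) < n := by exact_mod_cast (by omega : 0 < n)
  have hMn : 4 * (M : ℝ) ≤ n := by exact_mod_cast h1
  unfold tent
  have e1 : (M : ℝ) / n ≤ 1 := by rw [div_le_iff₀ hn]; linarith
  have e2 : 2 * (M : ℝ) / n ≤ 1 := by rw [div_le_iff₀ hn]; linarith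
  have e4 : 4 * (M : ℝ) / n ≤ 1 := by rw [div_le_iff₀ hn]; linarith
  rw [(Real.posLog_eq_zero_iff ((M : ℝ) / n)).2 (by rw [abs_of_nonneg (by positivity)]; exact e1),
    (Real.posLog_eq_zero_iff (2 * (M : ℝ) / n)).2
      (by rw [abs_of_nonneg (by positivity)]; exact e2),
    (Real.posLog_eq_zero_iff (4 * (M : ℝ) / n)).2
      (by rw [abs_of_nonneg (by positivity)]; exact e4)]
  ring

theorem tent_nonneg (M n : ℕ) (hM : 0 < M) : 0 ≤ tent M n := by
  have hM' : (0 : ℝ) < M := by exact_mod_cast hM
  rcases le_total n M with h1 | h1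
  · rw [tent_low M n hM h1]
  · have hn : (0 : ℝ) < n := by exact_mod_cast (by omega : 0 < n)
    rcases le_total n (2 * M) with h2 | h2
    · rw [tent_up M n hM h1 h2, sub_nonneg]
      exact Real.log_le_log hM' (by exact_mod_cast h1)
    · rcases le_total n (4 * M) with h4 | h4
      · rw [tent_down M n hM h2 h4, sub_nonneg]
        exact Real.log_le_log hn (by exact_mod_cast h4)
      · rw [tent_high M n hM h4]

theorem tent_le (M n : ℕ) (hM : 0 < M) : tent M n ≤ Real.log 2 := by
  have hM' : (0 : ℝ) < M := by exact_mod_cast hM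
  have hlog2 : 0 ≤ Real.log 2 := Real.log_nonneg (by norm_num)
  rcases le_total n M with h1 | h1
  · rw [tent_low M n hM h1]; exact hlog2
  · have hn : (0 : ℝ) < n := by exact_mod_cast (by omega : 0 < n)
    rcases le_total n (2 * M) with h2 | h2
    · rw [tent_up M n hM h1 h2]
      have : Real.log n ≤ Real.log (2 * M) := Real.log_le_log hn (by exact_mod_cast h2)
      rw [Real.log_mul (by norm_num) (by positivity)] at this
      linarith
    · rcases le_total n (4 * M) with h4 | h4
      · rw [tent_down M n hM h2 h4]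
        have : Real.log (2 * M) ≤ Real.log n :=
          Real.log_le_log (by positivity) (by exact_mod_cast h2)
        rw [Real.log_mul (by norm_num) (by positivity)] at this
        rw [show (4 : ℝ) = 2 * 2 by norm_num, mul_assoc,
          Real.log_mul (by norm_num) (by positivity), Real.log_mul (by norm_num) (by positivity)]
        linarith
      · rw [tent_high M n hM h4]; exact hlog2

theorem log_two_le_one : Real.log 2 ≤ 1 := by
  have := Real.log_two_lt_d9
  linarith

theorem log_step (n M : ℕ) (hM : 0 < M) (h : M ≤ n) :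
    Real.log ((n + 1 : ℕ) : ℝ) - Real.log n ≤ 1 / M := by
  have hM' : (0 : ℝ) < M := by exact_mod_cast hM
  have hn : (0 : ℝ) < n := by exact_mod_cast (by omega : 0 < n)
  rw [← Real.log_div (by positivity) (by positivity)]
  have h1 : ((n + 1 : ℕ) : ℝ) / n = 1 + 1 / n := by
    push_cast
    field_simp
  rw [h1]
  have h2 := Real.log_le_sub_one_of_pos (show (0 : ℝ) < 1 + 1 / n by positivity)
  have h3 : 1 / (n : ℝ) ≤ 1 / M := one_div_le_one_div_of_le hM' (by exact_mod_cast h)
  linarith

theorem tent_mono (M n : ℕ) (hM : 0 < M) (h : n < 2 * M) : tent M n ≤ tent M (n + 1) := by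
  rcases lt_or_ge n M with h1 | h1
  · rw [tent_low M n hM h1.le]
    exact tent_nonneg M _ hM
  · rw [tent_up M n hM h1 h.le, tent_up M (n + 1) hM (by omega) (by omega)]
    have hn : (0 : ℝ) < n := by exact_mod_cast (by omega : 0 < n)
    have := Real.log_le_log hn (show (n : ℝ) ≤ ((n + 1 : ℕ) : ℝ) by push_cast; linarith)
    linarith

theorem tent_anti (M n : ℕ) (hM : 0 < M) (h : 2 * M ≤ n) : tent M (n + 1) ≤ tent M n := by
  rcases lt_or_ge n (4 * M) with h1 | h1
  · rw [tent_down M n hM h h1.le, tent_down M (n + 1) hM (by omega) (by omega)]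
    have hn : (0 : ℝ) < n := by exact_mod_cast (by omega : 0 < n)
    have := Real.log_le_log hn (show (n : ℝ) ≤ ((n + 1 : ℕ) : ℝ) by push_cast; linarith)
    linarith
  · rw [tent_high M (n + 1) hM (by omega)]
    exact tent_nonneg M _ hM

theorem tent_step (M n : ℕ) (hM : 0 < M) : |tent M (n + 1) - tent M n| ≤ 1 / M := by
  have hpos : (0 : ℝ) ≤ 1 / M := by positivity
  rcases lt_or_ge n M with h1 | h1
  · rw [tent_low M n hM h1.le, tent_low M (n + 1) hM (by omega)]
    simp
  · have hs := log_step n M hM h1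
    rcases lt_or_ge n (2 * M) with h2 | h2
    · rw [abs_of_nonneg (sub_nonneg.2 (tent_mono M n hM h2)), tent_up M n hM h1 h2.le,
        tent_up M (n + 1) hM (by omega) (by omega)]
      linarith
    · rcases lt_or_ge n (4 * M) with h4 | h4
      · rw [abs_of_nonpos (sub_nonpos.2 (tent_anti M n hM h2)), tent_down M n hM h2 h4.le,
          tent_down M (n + 1) hM (by omega) (by omega)]
        linarith
      · rw [tent_high M n hM h4, tent_high M (n + 1) hM (by omega)]
        simpa using hpos

theorem tent_lip (M n h : ℕ) (hM : 0 < M) : |tent M (n + h) - tent M n| ≤ h / M := by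
  induction h with
  | zero => simp
  | succ h ih =>
    have h1 := tent_step M (n + h) hM
    have e : tent M (n + (h + 1)) - tent M n =
        (tent M (n + h + 1) - tent M (n + h)) + (tent M (n + h) - tent M n) := by
      rw [← add_assoc]; ring
    rw [e]
    calc _ ≤ |tent M (n + h + 1) - tent M (n + h)| + |tent M (n + h) - tent M n| :=
          abs_add_le _ _
      _ ≤ 1 / M + h / M := add_le_add h1 ih
      _ = ((h + 1 : ℕ) : ℝ) / M := by push_cast; ring

/-- total variation -/
theorem tent_var (M : ℕ) (hM : 0 < M) :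
    ∑ n ∈ Ico M (4 * M), |tent M (n + 1) - tent M n| ≤ 2 := by
  have h1 : ∑ n ∈ Ico M (2 * M), |tent M (n + 1) - tent M n| = tent M (2 * M) - tent M M := by
    rw [← Finset.sum_Ico_sub (tent M) (by omega)]
    apply Finset.sum_congr rfl
    intro n hn
    rw [Finset.mem_Ico] at hn
    exact abs_of_nonneg (sub_nonneg.2 (tent_mono M n hM hn.2))
  have h2 : ∑ n ∈ Ico (2 * M) (4 * M), |tent M (n + 1) - tent M n| =
      -(tent M (4 * M) - tent M (2 * M)) := by
    rw [← Finset.sum_Ico_sub (tent M) (by omega), ← Finset.sum_neg_distrib]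
    apply Finset.sum_congr rfl
    intro n hn
    rw [Finset.mem_Ico] at hn
    exact abs_of_nonpos (sub_nonpos.2 (tent_anti M n hM hn.1))
  rw [← Finset.sum_Ico_consecutive _ (show M ≤ 2 * M by omega) (show 2 * M ≤ 4 * M by omega),
    h1, h2, tent_low M M hM le_rfl, tent_high M (4 * M) hM le_rfl]
  have := tent_le M (2 * M) hM
  have := log_two_le_one
  linarith

/-- counting in residue classes -/
noncomputable def tcA (M q c N : ℕ) : ℝ :=
  ∑ n ∈ Ioc M N, ((if n ≡ c [MOD q] then (1 : ℝ) else 0) - 1 / q)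

theorem tcA_bound (M q c N : ℕ) (hq : 1 ≤ q) (hN : M ≤ N) : |tcA M q c N| ≤ 1 := by
  have hq' : (0 : ℝ) < q := by exact_mod_cast hq
  have h1 : tcA M q c N = (#((Ioc M N).filter (fun n => n ≡ c [MOD q])) : ℝ) -
      ((N : ℝ) - M) / q := by
    unfold tcA
    rw [Finset.sum_sub_distrib, Finset.sum_boole, Finset.sum_const, Nat.card_Ioc, nsmul_eq_mul,
      Nat.cast_sub hN]
    ring
  have h2 := Nat.Ioc_filter_modEq_card M N (r := q) (by omega) c
  set A : ℤ := ⌊((N : ℚ) - c) / q⌋ with hA
  set B : ℤ := ⌊((M : ℚ) - c) / q⌋ with hB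
  have hAB : B ≤ A := by
    apply Int.floor_le_floor
    have : (M : ℚ) ≤ N := by exact_mod_cast hN
    gcongr
  rw [max_eq_left (by linarith)] at h2
  have h3 : (#((Ioc M N).filter (fun n => n ≡ c [MOD q])) : ℝ) = (A : ℝ) - B := by
    have : ((#((Ioc M N).filter (fun n => n ≡ c [MOD q])) : ℤ) : ℝ) = ((A - B : ℤ) : ℝ) := by
      rw [h2]
    push_cast at this
    exact this
  have hA1 : (A : ℝ) ≤ ((N : ℝ) - c) / q := by
    have := Int.floor_le (((N : ℚ) - c) / q)
    rw [← hA] at this
    exact_mod_cast this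
  have hA2 : ((N : ℝ) - c) / q < A + 1 := by
    have := Int.lt_floor_add_one (((N : ℚ) - c) / q)
    rw [← hA] at this
    exact_mod_cast this
  have hB1 : (B : ℝ) ≤ ((M : ℝ) - c) / q := by
    have := Int.floor_le (((M : ℚ) - c) / q)
    rw [← hB] at this
    exact_mod_cast this
  have hB2 : ((M : ℝ) - c) / q < B + 1 := by
    have := Int.lt_floor_add_one (((M : ℚ) - c) / q)
    rw [← hB] at this
    exact_mod_cast this
  rw [h1, h3, abs_le]
  have e : ((N : ℝ) - M) / q = ((N : ℝ) - c) / q - ((M : ℝ) - c) / q := by ring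
  rw [e]
  constructor <;> linarith

theorem tcA_parts (M q c N : ℕ) (hN : M ≤ N) (f : ℕ → ℝ) :
    ∑ n ∈ Ioc M N, f n * ((if n ≡ c [MOD q] then (1 : ℝ) else 0) - 1 / q) =
      f N * tcA M q c N - ∑ n ∈ Ico M N, tcA M q c n * (f (n + 1) - f n) := by
  induction N, hN using Nat.le_induction with
  | base => simp [tcA]
  | succ N hN ih =>
    have e : tcA M q c (N + 1) = tcA M q c N +
        ((if N + 1 ≡ c [MOD q] then (1 : ℝ) else 0) - 1 / q) := by
      unfold tcA
      rw [Finset.sum_Ioc_succ_top hN]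
    rw [Finset.sum_Ioc_succ_top hN, ih, Finset.sum_Ico_succ_top hN, e]
    ring

theorem tent_facts : StTent := by
  intro M hM
  refine ⟨fun n => tent_nonneg M n hM, fun n => (tent_le M n hM).trans log_two_le_one, ?_,
    fun n h => tent_lip M n h hM, ?_⟩
  · intro n hn
    rw [Finset.mem_Ioc, not_and_or, not_lt, not_le] at hn
    rcases hn with h | h
    · exact tent_low M n hM h
    · exact tent_high M n hM h.le
  · intro q c hq
    have h1 : ∑ n ∈ (Ioc M (4 * M)).filter (fun n => n ≡ c [MOD q]), tent M n - X0 M / q =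
        ∑ n ∈ Ioc M (4 * M), tent M n * ((if n ≡ c [MOD q] then (1 : ℝ) else 0) - 1 / q) := by
      unfold X0
      rw [Finset.sum_filter, Finset.sum_div, ← Finset.sum_sub_distrib]
      apply Finset.sum_congr rfl
      intro n _
      split_ifs <;> ring
    rw [h1, tcA_parts M q c (4 * M) (by omega), tent_high M (4 * M) hM le_rfl, zero_mul, zero_sub,
      abs_neg]
    calc _ ≤ ∑ n ∈ Ico M (4 * M), |tcA M q c n * (tent M (n + 1) - tent M n)| :=
          Finset.abs_sum_le_sum_abs _ _
      _ ≤ ∑ n ∈ Ico M (4 * M), |tent M (n + 1) - tent M n| := by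
          apply Finset.sum_le_sum
          intro n hn
          rw [Finset.mem_Ico] at hn
          rw [abs_mul]
          have := tcA_bound M q c n hq hn.1
          nlinarith [abs_nonneg (tent M (n + 1) - tent M n)]
      _ ≤ 2 := tent_var M hM
      _ ≤ 3 := by norm_num

end Pool.Agent.Helper90.MT
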