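import Pool.Agent.Helper90.MT.Def

/-!
Project MT, part C1: thinning out (`StThin`).
-/

namespace Pool.Agent.Helper90.MT

open Filter

/-- an infinite set has an infinite subset which misses a class modulo every prime -/
theorem thin_aux (A : Set ℕ) (hA : A.Infinite) : ∃ A' ⊆ A, A'.Infinite ∧
    ∃ r : ℕ → ℕ, ∀ p : ℕ, p.Prime → ∀ a ∈ A', ¬ p ∣ r p + a := by
  classical
  have hne : (cofinite ⊓ 𝓟 A : Filter ℕ).NeBot := hA.cofinite_inf_principal_neBot
  let U : Ultrafilter ℕ := Ultrafilter.of (cofinite ⊓ 𝓟 A)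
  have hU : (U : Filter ℕ) ≤ cofinite ⊓ 𝓟 A := Ultrafilter.of_le _
  have hUA : ∀ᶠ a in (U : Filter ℕ), a ∈ A :=
    hU.trans inf_le_right (mem_principal_self A)
  have hUc : (U : Filter ℕ) ≤ cofinite := hU.trans inf_le_left
  have hc : ∀ q : ℕ, ∃ c : ℕ, 0 < q → ∀ᶠ a in (U : Filter ℕ), a ≡ c [MOD q] := by
    intro q
    rcases Nat.eq_zero_or_pos q with h0 | h0
    · exact ⟨0, fun h => absurd h0 h.ne'⟩
    · have h1 : (⋃ c ∈ Set.Iio q, {a : ℕ | a ≡ c [MOD q]}) ∈ U := by
        have : (⋃ c ∈ Set.Iio q, {a : ℕ | a ≡ c [MOD q]}) = Set.univ := by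
          ext a
          simp only [Set.mem_iUnion, Set.mem_univ, iff_true, Set.mem_Iio, Set.mem_ofPred_eq]
          exact ⟨a % q, Nat.mod_lt _ h0, (Nat.mod_modEq a q).symm⟩
        rw [this]; exact Filter.univ_mem
      rw [Ultrafilter.finite_biUnion_mem_iff (Set.finite_Iio q)] at h1
      obtain ⟨c, -, hc⟩ := h1
      exact ⟨c, fun _ => hc⟩
  choose c hc using hc
  have hfr : ∀ n : ℕ, ∃ᶠ a in atTop, a ∈ A ∧ ∀ q ∈ Finset.Icc 1 (n + 2), a ≡ c q [MOD q] := by
    intro n
    have h1 : ∀ᶠ a in (U : Filter ℕ), a ∈ A ∧ ∀ q ∈ Finset.Icc 1 (n + 2), a ≡ c q [MOD q] := by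
      refine hUA.and ?_
      rw [Filter.eventually_all_finset]
      intro q hq
      exact hc q (Finset.mem_Icc.1 hq).1
    rw [← Nat.cofinite_eq_atTop]
    exact h1.frequently.filter_mono hUc
  obtain ⟨φ, hφ, hφA⟩ := Filter.extraction_forall_of_frequently hfr
  refine ⟨Set.range φ, ?_, Set.infinite_range_of_injective hφ.injective, ?_⟩
  · rintro _ ⟨n, rfl⟩
    exact (hφA n).1
  · have hr : ∀ p : ℕ, ∃ r : ℕ, p.Prime → ∀ n : ℕ, ¬ p ∣ r + φ n := by
      intro p
      by_cases hp : p.Prime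
      · have : Fact p.Prime := ⟨hp⟩
        let T : Finset (ZMod p) :=
          insert (c p : ZMod p) ((Finset.range (p - 2)).image (fun j => (φ j : ZMod p)))
        have hT : T.card < (Finset.univ : Finset (ZMod p)).card := by
          have h1 : T.card ≤ (p - 2) + 1 := by
            refine (Finset.card_insert_le _ _).trans ?_
            refine Nat.succ_le_succ ?_
            exact Finset.card_image_le.trans (by simp)
          have h2 := hp.two_le
          rw [Finset.card_univ, ZMod.card]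
          omega
        obtain ⟨s, -, hs⟩ := Finset.exists_mem_notMem_of_card_lt_card hT
        refine ⟨(-s).val, fun _ n hd => ?_⟩
        have h3 : (((-s).val + φ n : ℕ) : ZMod p) = 0 := (ZMod.natCast_eq_zero_iff _ _).2 hd
        rw [Nat.cast_add, ZMod.natCast_zmod_val, neg_add_eq_zero] at h3
        apply hs
        rw [h3]
        by_cases hn : n < p - 2
        · exact Finset.mem_insert_of_mem (Finset.mem_image_of_mem _ (Finset.mem_range.2 hn))
        · have h4 : φ n ≡ c p [MOD p] :=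
            (hφA n).2 p (Finset.mem_Icc.2 ⟨hp.one_lt.le, by omega⟩)
          have h5 : (φ n : ZMod p) = (c p : ZMod p) := (ZMod.natCast_eq_natCast_iff _ _ _).2 h4
          rw [h5]
          exact Finset.mem_insert_self _ _
      · exact ⟨0, fun h => absurd h hp⟩
    choose r hr using hr
    refine ⟨r, fun p hp a ha => ?_⟩
    obtain ⟨n, rfl⟩ := ha
    exact hr p hp n

/-- compatible systems of residues from residues modulo primes -/
theorem exists_cpt (r : ℕ → ℕ) : ∃ v : ℕ → ℕ, Cpt v ∧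
    ∀ m p : ℕ, 0 < m → p.Prime → p ∣ m → v m ≡ r p [MOD p] := by
  classical
  have hx : ∀ m : ℕ, ∃ x : ℕ, ∀ p : ℕ, p.Prime → p ≤ m → x ≡ r p [MOD p ^ m] := by
    intro m
    have hs : ∀ p ∈ (Finset.range (m + 1)).filter Nat.Prime, p ^ m ≠ 0 := by
      intro p hp
      exact pow_ne_zero _ (Finset.mem_filter.1 hp).2.ne_zero
    have pp : Set.Pairwise (((Finset.range (m + 1)).filter Nat.Prime : Finset ℕ) : Set ℕ)
        (Function.onFun Nat.Coprime (fun p => p ^ m)) := by
      intro p hp q hq hpq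
      have hp' := (Finset.mem_filter.1 (Finset.mem_coe.1 hp)).2
      have hq' := (Finset.mem_filter.1 (Finset.mem_coe.1 hq)).2
      exact Nat.Coprime.pow _ _ ((Nat.coprime_primes hp' hq').2 hpq)
    obtain ⟨x, hx⟩ := Nat.chineseRemainderOfFinset r (fun p => p ^ m)
      ((Finset.range (m + 1)).filter Nat.Prime) hs pp
    refine ⟨x, fun p hp hpm => hx p ?_⟩
    exact Finset.mem_filter.2 ⟨Finset.mem_range.2 (by omega), hp⟩
  choose v hv using hx
  refine ⟨v, ?_, ?_⟩
  · intro m m' hm' hmm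
    have hm : 0 < m := Nat.pos_of_dvd_of_pos hmm hm'
    have hle : m ≤ m' := Nat.le_of_dvd hm' hmm
    rw [Nat.modEq_iff_dvd, Int.natCast_dvd, Nat.dvd_iff_prime_pow_dvd_dvd]
    intro p k hp hk
    rcases Nat.eq_zero_or_pos k with h0 | h0
    · simp [h0]
    · have hpm : p ∣ m := (dvd_pow_self p h0.ne').trans hk
      have hple : p ≤ m := Nat.le_of_dvd hm hpm
      have hkm : k ≤ m := (Nat.lt_pow_self hp.one_lt).le.trans (Nat.le_of_dvd hm hk)
      have h1 : v m ≡ r p [MOD p ^ m] := hv m p hp hple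
      have h2 : v m' ≡ r p [MOD p ^ m] :=
        (hv m' p hp (hple.trans hle)).of_dvd (pow_dvd_pow p hle)
      have h3 : ((p ^ m : ℕ) : ℤ) ∣ (v m : ℤ) - v m' :=
        Nat.modEq_iff_dvd.1 (h2.trans h1.symm)
      exact (pow_dvd_pow p hkm).trans (Int.natCast_dvd.1 h3)
  · intro m p hm hp hpm
    have h1 := hv m p hp (Nat.le_of_dvd hm hpm)
    exact h1.of_dvd (dvd_pow_self p hm.ne')

theorem thin : StThin := by
  intro A hA
  obtain ⟨A', hA', hinf, r, hr⟩ := thin_aux A hA
  obtain ⟨v, hv, hvr⟩ := exists_cpt r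
  refine ⟨A', hA', hinf, v, hv, ?_⟩
  intro m hm a ha
  rw [Nat.coprime_iff_gcd_eq_one]
  by_contra hne
  obtain ⟨p, hp, hpd⟩ := Nat.exists_prime_and_dvd hne
  have h1 : p ∣ v m + a := hpd.trans (Nat.gcd_dvd_left _ _)
  have h2 : p ∣ m := hpd.trans (Nat.gcd_dvd_right _ _)
  have h3 : v m + a ≡ r p + a [MOD p] := (hvr m p hm hp h2).add_right a
  exact hr p hp a ha ((h3.dvd_iff dvd_rfl).1 h1)

end Pool.Agent.Helper90.MT
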