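import Pool.Agent.Helper90.MT.StM

/-!
Project MT, M1: an idempotent ultrafilter of finite sets going to infinity.
-/

namespace Pool.Agent.Helper90.MT

open Finset Filter

/-- the semigroup of finite sets under union -/
@[reducible] def ult_sg : Semigroup (Finset ℕ) where
  mul A B := A ∪ B
  mul_assoc A B C := Finset.union_assoc A B C

theorem ult : StUlt := by
  let : Semigroup (Finset ℕ) := ult_sg
  let : Semigroup (Ultrafilter (Finset ℕ)) := Ultrafilter.semigroup
  let A : ℕ → Set (Finset ℕ) := fun n => {D | D.Nonempty ∧ ∀ a ∈ D, n < a}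
  have hmul : ∀ (U V : Ultrafilter (Finset ℕ)) (G : Set (Finset ℕ)),
      G ∈ U * V ↔ {D : Finset ℕ | {D' : Finset ℕ | D ∪ D' ∈ G} ∈ V} ∈ U := by
    intro U V G
    exact Iff.rfl
  let s : Set (Ultrafilter (Finset ℕ)) := {U | ∀ n, A n ∈ U}
  have hne : s.Nonempty := by
    refine ⟨Ultrafilter.map (fun n : ℕ => ({n} : Finset ℕ)) (hyperfilter ℕ), ?_⟩
    intro n
    rw [Ultrafilter.mem_map]
    have h1 : {k : ℕ | n < k} ∈ hyperfilter ℕ := by
      apply mem_hyperfilter_of_finite_compl
      refine (Set.finite_Iic n).subset ?_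
      intro k hk
      by_contra h
      apply hk
      exact not_le.mp (fun h2 => h (Set.mem_Iic.mpr h2))
    refine mem_of_superset h1 ?_
    intro k hk
    refine ⟨Finset.singleton_nonempty k, ?_⟩
    intro a ha
    rw [Finset.mem_singleton] at ha
    rw [ha]
    exact hk
  have hcl : IsClosed s := by
    have : s = ⋂ n, {U : Ultrafilter (Finset ℕ) | A n ∈ U} := by
      ext U
      simp [s]
    rw [this]
    exact isClosed_iInter fun n => ultrafilter_isClosed_basic (A n)
  have hs : ∀ᵉ (x ∈ s) (y ∈ s), x * y ∈ s := by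
    intro U hU V hV n
    rw [hmul]
    refine mem_of_superset (hU n) ?_
    intro D hD
    refine mem_of_superset (hV n) ?_
    intro D' hD'
    refine ⟨hD.1.mono Finset.subset_union_left, ?_⟩
    intro a ha
    rcases Finset.mem_union.mp ha with h | h
    · exact hD.2 a h
    · exact hD'.2 a h
  obtain ⟨U, hU, hUU⟩ := exists_idempotent_in_compact_subsemigroup
    (fun V : Ultrafilter (Finset ℕ) => Ultrafilter.continuous_mul_left V) s hne hcl.isCompact hs
  refine ⟨U, fun n => hU n, ?_⟩
  intro G hG
  have h1 : G ∈ U * U := by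
    rw [hUU]
    exact hG
  rw [hmul] at h1
  exact inter_mem hG h1

end Pool.Agent.Helper90.MT
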