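import Pool.Agent.Helper90.MT.StS

set_option autoImplicit false
set_option linter.unusedSectionVars false

namespace Pool.Agent.Helper90.MT

open Finset

section UppAux
variable {α ι : Type} [Fintype α] [DecidableEq α] [Fintype ι] [DecidableEq ι]

theorem Upp_prt_mem (pr : α → ℕ) (a : α → Option ι) : prt pr a ∈ piDD ι pr := by
  unfold piDD
  rw [Fintype.mem_piFinset]
  intro h
  unfold DD prt
  rw [mem_image]
  refine ⟨univ.filter (fun i => a i = some h), by simp, ?_⟩
  rw [prod_filter]

theorem Upp_dvd (pr : α → ℕ) (hp : ∀ i, (pr i).Prime) (hi : Function.Injective pr)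
    (a : α → Option ι) (i : α) (h : ι) : pr i ∣ prt pr a h ↔ a i = some h := by
  unfold prt
  constructor
  · intro hd
    rw [(hp i).prime.dvd_finsetProd_iff] at hd
    obtain ⟨j, -, hj⟩ := hd
    split_ifs at hj with hh
    · rw [Nat.prime_dvd_prime_iff_eq (hp i) (hp j)] at hj
      rw [hi hj]
      exact hh
    · exact absurd (Nat.dvd_one.1 hj) (hp i).one_lt.ne'
  · intro hh
    have h1 : pr i = if a i = some h then pr i else 1 := by rw [if_pos hh]
    conv_lhs => rw [h1]
    exact dvd_prod_of_mem (fun i => if a i = some h then pr i else 1) (mem_univ i)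

theorem Upp_inj (pr : α → ℕ) (hp : ∀ i, (pr i).Prime) (hi : Function.Injective pr)
    (a b : α → Option ι) (h : prt pr a = prt pr b) : a = b := by
  funext i
  rcases ha : a i with _ | k
  · rcases hb : b i with _ | l
    · rfl
    · have h1 := (Upp_dvd pr hp hi b i l).2 hb
      rw [← h, Upp_dvd pr hp hi] at h1
      rw [ha] at h1
      exact h1
  · have h1 := (Upp_dvd pr hp hi a i k).2 ha
    rw [h, Upp_dvd pr hp hi] at h1
    exact h1.symm

theorem Upp_sz (pr : α → ℕ) (a : α → Option ι) : ∏ h, prt pr a h = szA pr a := by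
  unfold prt szA
  rw [prod_comm]
  apply prod_congr rfl
  intro i _
  rcases ha : a i with _ | k
  · simp
  · simp only [Option.some.injEq, reduceCtorEq, if_false]
    rw [Finset.prod_ite_eq univ k (fun _ => pr i)]
    simp

theorem Upp_pos (pr : α → ℕ) (hp : ∀ i, (pr i).Prime) (x : ι → ℕ) (hx : x ∈ piDD ι pr) (h : ι) :
    0 < x h := by
  unfold piDD at hx
  rw [Fintype.mem_piFinset] at hx
  have h1 := hx h
  unfold DD at h1
  obtain ⟨s, -, hs⟩ := mem_image.1 h1
  rw [← hs]
  exact prod_pos (fun i _ => (hp i).pos)

/-- the condition in `VV` -/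
def UppC (D : Finset ι) (a c : α → Option ι) : Prop :=
  ∀ i, (a i ≠ none → c i = a i) ∧ (a i = none → ∀ h, c i = some h → h ∈ D)

/-- the new part of `c` -/
def UppN (a c : α → Option ι) : α → Option ι := fun i => if a i = none then c i else none

theorem Upp_split (pr : α → ℕ) (D : Finset ι) (a c : α → Option ι) (hc : UppC D a c) (h : ι) :
    prt pr c h = prt pr a h * prt pr (UppN a c) h := by
  unfold prt
  rw [← prod_mul_distrib]
  apply prod_congr rfl
  intro i _
  unfold UppN
  by_cases ha : a i = none
  · simp [ha]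
  · have := (hc i).1 ha
    simp [ha, this]

theorem Upp_w (pr : α → ℕ) (D : Finset ι) (a c : α → Option ι) (hc : UppC D a c) :
    (∏ i, if a i = none ∧ c i ≠ none then 1 / (pr i : ℝ) else 1) =
      1 / ∏ h, (prt pr (UppN a c) h : ℝ) := by
  have h1 : ∏ h, (prt pr (UppN a c) h : ℝ) = ((szA pr (UppN a c) : ℕ) : ℝ) := by
    rw [← Upp_sz]
    push_cast
    rfl
  rw [h1]
  unfold szA
  push_cast
  rw [one_div, ← Finset.prod_inv_distrib]
  apply prod_congr rfl
  intro i _
  unfold UppN
  by_cases ha : a i = none <;> by_cases hc : c i = none <;> simp [ha, hc]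

theorem Upp_VV (pr : α → ℕ) (hp : ∀ i, (pr i).Prime) (hi : Function.Injective pr)
    (D : Finset ι) (Yn : (ι → ℕ) → ℝ) (hY : ∀ x, 0 ≤ Yn x) (a : α → Option ι) :
    (open Classical in
    VV pr D (fun a => Yn (prt pr a)) a ≤
      ∑ c ∈ (piDD ι pr).filter (fun c => ∀ h, h ∉ D → c h = 1),
        Yn (prt pr a * c) / ∏ h, (c h : ℝ)) := by
  classical
  unfold VV
  rw [← sum_filter]
  have h1 : ∀ c ∈ univ.filter (fun c : α → Option ι =>
      ∀ i, (a i ≠ none → c i = a i) ∧ (a i = none → ∀ h, c i = some h → h ∈ D)),
      (∏ i, if a i = none ∧ c i ≠ none then 1 / (pr i : ℝ) else 1) * Yn (prt pr c) =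
      (fun x : ι → ℕ => Yn (prt pr a * x) / ∏ h, (x h : ℝ)) (prt pr (UppN a c)) := by
    intro c hc
    rw [mem_filter] at hc
    have hc' : UppC D a c := hc.2
    dsimp only
    rw [Upp_w pr D a c hc']
    have h2 : prt pr c = prt pr a * prt pr (UppN a c) := by
      funext h
      exact Upp_split pr D a c hc' h
    rw [h2]
    ring
  rw [sum_congr rfl h1]
  have hinj : Set.InjOn (fun c : α → Option ι => prt pr (UppN a c))
      (univ.filter (fun c : α → Option ι =>
      ∀ i, (a i ≠ none → c i = a i) ∧ (a i = none → ∀ h, c i = some h → h ∈ D)) :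
        Finset (α → Option ι)) := by
    intro c hc c' hc' hcc
    rw [coe_filter, Set.mem_ofPred_eq] at hc hc'
    have h3 := Upp_inj pr hp hi _ _ hcc
    funext i
    by_cases ha : a i = none
    · have h4 := congrFun h3 i
      unfold UppN at h4
      simpa [ha] using h4
    · rw [(hc.2 i).1 ha, (hc'.2 i).1 ha]
  rw [← sum_image hinj (f := fun x : ι → ℕ => Yn (prt pr a * x) / ∏ h, (x h : ℝ))]
  apply sum_le_sum_of_subset_of_nonneg
  · intro x hx
    obtain ⟨c, hc, rfl⟩ := mem_image.1 hx
    rw [mem_filter] at hc ⊢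
    refine ⟨Upp_prt_mem pr _, ?_⟩
    intro h hh
    unfold prt
    apply prod_eq_one
    intro i _
    rw [if_neg]
    intro hi
    unfold UppN at hi
    split_ifs at hi with ha
    exact hh ((hc.2 i).2 ha h hi)
  · intro x hx _
    apply div_nonneg (hY _)
    apply prod_nonneg
    intro h _
    positivity

end UppAux

theorem upp (h1 : StGain) : StUpp := by
  classical
  intro α ι _ _ _ _ pr D Yn hp hi hD hY hAnti
  set G : (ι → ℕ) → ℝ := fun x => ∑ c ∈ (piDD ι pr).filter (fun c => ∀ h, h ∉ D → c h = 1),
      Yn (x * c) / ∏ h, (c h : ℝ) with hG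
  set F : (ι → ℕ) → ℝ := fun x => if ∀ h ∈ D, x h = 1 then G x ^ 2 else 0 with hF
  have hG0 : ∀ x, 0 ≤ G x := by
    intro x
    apply sum_nonneg
    intro c _
    apply div_nonneg (hY _)
    apply prod_nonneg
    intro h _
    positivity
  have hF0 : ∀ x, 0 ≤ F x := by
    intro x
    simp only [hF]
    split_ifs
    · positivity
    · exact le_rfl
  have hFa : Anti F := by
    intro x y hxy hy
    simp only [hF]
    by_cases h2 : ∀ h ∈ D, y h = 1
    · have h3 : ∀ h ∈ D, x h = 1 := by
        intro h hh
        have := hxy h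
        rw [h2 h hh] at this
        exact Nat.dvd_one.1 this
      rw [if_pos h2, if_pos h3]
      apply pow_le_pow_left₀ (hG0 y)
      apply sum_le_sum
      intro c hc
      rw [mem_filter] at hc
      apply div_le_div_of_nonneg_right
      · apply hAnti
        · intro h
          exact Nat.mul_dvd_mul_right (hxy h) _
        · intro h
          exact Nat.mul_pos (hy h) (Upp_pos pr hp c hc.1 h)
      · apply prod_nonneg
        intro h _
        positivity
    · rw [if_neg h2]
      exact hF0 x
  have h2 := h1 α ι pr F hp hi hF0 hFa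
  have hFull : ∑ x ∈ piDD ι pr, F x / ∏ l, (x l : ℝ) = Full pr Yn D := by
    unfold Full
    rw [sum_filter]
    apply sum_congr rfl
    intro x _
    simp only [hF, hG]
    split_ifs with h
    · rw [div_eq_mul_inv, mul_comm]
    · simp
  rw [hFull] at h2
  refine le_trans ?_ h2
  have h3 : ∀ a ∈ univ.filter (fun a : α → Option ι => Avd D a),
      (∏ i, (if a i = none then 1 else (1 + 1 / (pr i : ℝ)) ^ #D)) *
        (VV pr D (fun a => Yn (prt pr a)) a ^ 2 / szA pr a) ≤
      (fun x : ι → ℕ => (∏ l, ∏ i, if pr i ∣ x l then 1 + 3 / (pr i : ℝ) else 1) *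
        (F x / ∏ l, (x l : ℝ))) (prt pr a) := by
    intro a ha
    rw [mem_filter] at ha
    have hav : Avd D a := ha.2
    dsimp only
    have e1 : ∏ l, (prt pr a l : ℝ) = ((szA pr a : ℕ) : ℝ) := by
      rw [← Upp_sz]
      push_cast
      rfl
    have e2 : F (prt pr a) = G (prt pr a) ^ 2 := by
      simp only [hF]
      rw [if_pos]
      intro h hh
      unfold prt
      apply prod_eq_one
      intro i _
      rw [if_neg (hav i h hh)]
    have e3 : VV pr D (fun a => Yn (prt pr a)) a ≤ G (prt pr a) := Upp_VV pr hp hi D Yn hY a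
    have e4 : 0 ≤ VV pr D (fun a => Yn (prt pr a)) a := by
      unfold VV
      apply sum_nonneg
      intro c _
      split_ifs
      · apply mul_nonneg _ (hY _)
        apply prod_nonneg
        intro i _
        split_ifs
        · positivity
        · exact zero_le_one
      · exact le_rfl
    rw [e1, e2]
    apply mul_le_mul
    · rw [prod_comm]
      apply prod_le_prod
      · intro i _
        split_ifs
        · exact zero_le_one
        · positivity
      · intro i _
        have hp1 : (1 : ℝ) ≤ pr i := by exact_mod_cast (hp i).one_lt.le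
        have hge : ∀ l : ι, (1 : ℝ) ≤ if pr i ∣ prt pr a l then 1 + 3 / (pr i : ℝ) else 1 := by
          intro l
          split_ifs
          · have : 0 ≤ 3 / (pr i : ℝ) := by positivity
            linarith
          · exact le_rfl
        have hone : ∀ s : Finset ι, (1 : ℝ) ≤ ∏ l ∈ s,
            if pr i ∣ prt pr a l then 1 + 3 / (pr i : ℝ) else 1 := by
          intro s
          calc (1 : ℝ) = ∏ _l ∈ s, (1 : ℝ) := Finset.prod_const_one.symm
            _ ≤ _ := prod_le_prod (fun _ _ => zero_le_one) (fun l _ => hge l)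
        rcases hai : a i with _ | k
        · simp only [if_true]
          exact hone univ
        · simp only [reduceCtorEq, if_false]
          have h5 : (1 + 1 / (pr i : ℝ)) ^ #D ≤ 1 + 3 / (pr i : ℝ) := by
            have h6 : (1 : ℝ) ≤ 1 + 1 / (pr i : ℝ) := by
              have : 0 ≤ 1 / (pr i : ℝ) := by positivity
              linarith
            calc (1 + 1 / (pr i : ℝ)) ^ #D ≤ (1 + 1 / (pr i : ℝ)) ^ 2 := pow_le_pow_right₀ h6 hD
              _ = 1 + 2 / (pr i : ℝ) + (1 / (pr i : ℝ)) * (1 / (pr i : ℝ)) := by ring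
              _ ≤ 1 + 2 / (pr i : ℝ) + (1 / (pr i : ℝ)) * 1 := by
                  gcongr
                  rw [div_le_one (by linarith)]
                  exact hp1
              _ = 1 + 3 / (pr i : ℝ) := by ring
          refine h5.trans ?_
          rw [← mul_prod_erase univ _ (mem_univ k), if_pos ((Upp_dvd pr hp hi a i k).2 hai)]
          have h7 := hone (univ.erase k)
          have h8 : 0 ≤ 1 + 3 / (pr i : ℝ) := by positivity
          nlinarith
    · gcongr
    · positivity
    · apply prod_nonneg
      intro l _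
      apply prod_nonneg
      intro i _
      split_ifs
      · positivity
      · exact zero_le_one
  refine (sum_le_sum h3).trans ?_
  have hinj : Set.InjOn (fun a : α → Option ι => prt pr a)
      (univ.filter (fun a : α → Option ι => Avd D a) : Finset (α → Option ι)) := by
    intro a _ b _ hab
    exact Upp_inj pr hp hi a b hab
  rw [← sum_image hinj (f := fun x : ι → ℕ =>
    (∏ l, ∏ i, if pr i ∣ x l then 1 + 3 / (pr i : ℝ) else 1) * (F x / ∏ l, (x l : ℝ)))]
  apply sum_le_sum_of_subset_of_nonneg
  · intro x hx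
    obtain ⟨a, -, rfl⟩ := mem_image.1 hx
    exact Upp_prt_mem pr a
  · intro x _ _
    apply mul_nonneg
    · apply prod_nonneg
      intro l _
      apply prod_nonneg
      intro i _
      split_ifs
      · positivity
      · exact zero_le_one
    · apply div_nonneg (hF0 x)
      apply prod_nonneg
      intro l _
      positivity

end Pool.Agent.Helper90.MT
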