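import Pool.Agent.Helper90.MT.StS

/-!
Project MT: lower bound for `zz`.
-/

namespace Pool.Agent.Helper90.MT

open Finset

theorem z_push {α κ : Type} [Fintype α] [DecidableEq α] [Fintype κ] [DecidableEq κ]
    (r : α → κ → ℝ) (er : α → κ → κ) (Z : (α → κ) → ℝ) :
    ∑ c : α → κ, (∏ i, r i (c i)) * Z (fun i => er i (c i)) =
      ∑ c' : α → κ, (∏ i, ∑ o, if er i o = c' i then r i o else 0) * Z c' := by
  have h1 : ∀ c' : α → κ, (∏ i, ∑ o, if er i o = c' i then r i o else 0) =
      ∑ c : α → κ, ∏ i, if er i (c i) = c' i then r i (c i) else 0 := by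
    intro c'
    rw [prod_univ_sum, Fintype.piFinset_univ]
  simp only [h1, sum_mul]
  rw [sum_comm]
  refine sum_congr rfl fun c _ => ?_
  rw [sum_eq_single (fun i => er i (c i))]
  · simp
  · intro c' _ hne
    obtain ⟨i, hi⟩ : ∃ i, er i (c i) ≠ c' i := by
      by_contra hno
      push Not at hno
      exact hne (funext fun i => (hno i).symm)
    rw [prod_eq_zero (mem_univ i) (if_neg hi), zero_mul]
  · intro h
    exact absurd (mem_univ _) h

section
variable {ι : Type} [Fintype ι] [DecidableEq ι]

open Classical in
/-- local weights of `VV` -/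
noncomputable def z_s (m : ι) (p : ℕ) (x o : Option ι) : ℝ :=
  if (x ≠ none → o = x) ∧ (x = none → ∀ h, o = some h → h ∈ ({m} : Finset ι)) then
    (if x = none ∧ o ≠ none then 1 / (p : ℝ) else 1) else 0

/-- sign -/
noncomputable def z_e (x : Option ι) : ℝ := if x = none then 1 else -1

theorem z_loc (m : ι) (p : ℕ) (x o : Option ι) (hx : x ≠ some m) :
    z_s m p x o = 0 ∨ (z_e x * TP m p x o = z_s m p x o ∧ |TP m p x o| = z_s m p x o) := by
  rcases x with _ | g
  · rcases o with _ | h
    · right
      simp [z_s, z_e, TP]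
    · by_cases h1 : h = m
      · right
        subst h1
        have : (0 : ℝ) ≤ (p : ℝ) := Nat.cast_nonneg p
        simp [z_s, z_e, TP]
      · left
        simp [z_s, h1]
  · have hg : g ≠ m := fun h => hx (h ▸ rfl)
    by_cases h1 : o = some g
    · right
      subst h1
      simp [z_s, z_e, TP, hg]
    · left
      simp [z_s, h1]

theorem z_s_nonneg (m : ι) (p : ℕ) (x o : Option ι) : 0 ≤ z_s m p x o := by
  unfold z_s
  split_ifs <;> positivity

/-- erasing the bad values -/
noncomputable def z_er (m : ι) (x o : Option ι) : Option ι :=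
  if x = none ∧ o ≠ some m then none else o

theorem z_sum (m : ι) (p : ℕ) (x o' : Option ι) (hx : x ≠ some m) (hp : 1 < p) :
    ∑ o, (if z_er m x o = o' then |TP m p x o| else 0) ≤
      z_s m p x o' * (1 + (Fintype.card ι : ℝ) / ((p : ℝ) * ((p : ℝ) - 1))) := by
  have hp' : (1 : ℝ) < p := by exact_mod_cast hp
  have hq : 0 < (p : ℝ) * ((p : ℝ) - 1) := mul_pos (by linarith) (by linarith)
  have hK : 0 ≤ (Fintype.card ι : ℝ) / ((p : ℝ) * ((p : ℝ) - 1)) := by positivity
  rcases x with _ | g
  · rcases o' with _ | h
    · rw [Fintype.sum_option]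
      have h1 : z_s m p (none : Option ι) none = 1 := by simp [z_s]
      have h2 : (if z_er m none (none : Option ι) = none then |TP m p none none| else 0) = 1 := by
        simp [z_er, TP]
      rw [h1, h2, one_mul]
      refine add_le_add le_rfl ?_
      have h3 : ∀ h : ι, (if z_er m none (some h) = none then |TP m p none (some h)| else 0) ≤
          1 / ((p : ℝ) * ((p : ℝ) - 1)) := by
        intro h
        by_cases hm : h = m
        · subst hm
          simp only [z_er]
          simp
          positivity
        · simp only [z_er, TP, if_neg hm]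
          rw [if_pos (by simp [hm]), abs_neg, abs_of_pos (by positivity)]
      refine (sum_le_sum fun h _ => h3 h).trans ?_
      rw [sum_const, card_univ, nsmul_eq_mul, mul_one_div]
    · rw [Fintype.sum_option]
      have h2 : (if z_er m none (none : Option ι) = some h then |TP m p none none| else 0) = 0 := by
        simp [z_er]
      rw [h2, zero_add]
      by_cases hm : h = m
      · subst hm
        have h1 : z_s h p (none : Option ι) (some h) = 1 / (p : ℝ) := by simp [z_s]
        rw [h1, sum_eq_single h]
        · have h4 : (if z_er h none (some h) = some h then |TP h p none (some h)| else 0) =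
              1 / (p : ℝ) := by
            simp [z_er, TP]
          rw [h4]
          have : 0 ≤ 1 / (p : ℝ) := by positivity
          nlinarith
        · intro h' _ hne
          simp [z_er, hne]
        · intro h'
          exact absurd (mem_univ _) h'
      · have h1 : z_s m p (none : Option ι) (some h) = 0 := by simp [z_s, hm]
        rw [h1, zero_mul]
        refine (sum_eq_zero fun h' _ => ?_).le
        by_cases h'm : h' = m
        · subst h'm
          simp [z_er, Ne.symm hm]
        · simp [z_er, h'm]
  · have hg : g ≠ m := fun h => hx (h ▸ rfl)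
    rw [sum_eq_single o']
    · have h1 : z_er m (some g) o' = o' := by simp [z_er]
      rw [h1, if_pos rfl]
      by_cases h2 : o' = some g
      · subst h2
        have h3 : z_s m p (some g) (some g) = 1 := by simp [z_s]
        rw [h3]
        have h4 : TP m p (some g) (some g) = -1 := if_pos ⟨rfl, hg⟩
        rw [h4, abs_neg, abs_one, one_mul]
        linarith
      · have h3 : TP m p (some g) o' = 0 := by
          rcases o' with _ | h'
          · rfl
          · have : g ≠ h' := fun h => h2 (h ▸ rfl)
            simp [TP, this]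
        rw [h3, abs_zero]
        exact mul_nonneg (z_s_nonneg _ _ _ _) (by linarith)
    · intro o _ hne
      simp [z_er, hne]
    · intro h
      exact absurd (mem_univ _) h

end

open Classical in
theorem z : StZ := by
  intro α ι _ _ _ _ pr m Y a hpr hY hmono ham
  have hVV : VV pr {m} Y a = ∑ c, (∏ i, z_s m (pr i) (a i) (c i)) * Y c := by
    rw [VV]
    refine sum_congr rfl fun c _ => ?_
    unfold z_s
    rw [prod_ite_zero]
    simp only [mem_univ, true_implies]
    split_ifs
    · rfl
    · rw [zero_mul]
  have he : |∏ i, z_e (a i)| = 1 := by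
    rw [abs_prod]
    refine prod_eq_one fun i _ => ?_
    unfold z_e
    split_ifs <;> simp
  have h1 : (∏ i, z_e (a i)) * zz pr m Y a ≤ |zz pr m Y a| := by
    refine (le_abs_self _).trans ?_
    rw [abs_mul, he, one_mul]
  have h2 : (∏ i, z_e (a i)) * zz pr m Y a =
      ∑ c, (∏ i, z_e (a i) * TP m (pr i) (a i) (c i)) * Y c := by
    rw [zz, mul_sum]
    refine sum_congr rfl fun c _ => ?_
    rw [prod_mul_distrib, mul_assoc]
  have h3 : ∀ c : α → Option ι, 2 * (∏ i, z_s m (pr i) (a i) (c i)) -
      ∏ i, |TP m (pr i) (a i) (c i)| ≤ ∏ i, z_e (a i) * TP m (pr i) (a i) (c i) := by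
    intro c
    by_cases hz : ∃ i, z_s m (pr i) (a i) (c i) = 0
    · obtain ⟨i, hi⟩ := hz
      rw [prod_eq_zero (mem_univ i) hi, mul_zero, zero_sub, ← abs_prod]
      have h4 : |∏ i, TP m (pr i) (a i) (c i)| = |∏ i, z_e (a i) * TP m (pr i) (a i) (c i)| := by
        rw [prod_mul_distrib, abs_mul, he, one_mul]
      rw [h4]
      exact neg_abs_le _
    · push Not at hz
      have h4 : ∀ i, z_e (a i) * TP m (pr i) (a i) (c i) = z_s m (pr i) (a i) (c i) ∧
          |TP m (pr i) (a i) (c i)| = z_s m (pr i) (a i) (c i) := fun i =>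
        (z_loc m (pr i) (a i) (c i) (ham i)).resolve_left (hz i)
      rw [prod_congr rfl fun i _ => (h4 i).1, prod_congr rfl fun i _ => (h4 i).2]
      linarith
  have h5 : ∑ c, (∏ i, |TP m (pr i) (a i) (c i)|) * Y c ≤
      (∏ i, (1 + (Fintype.card ι : ℝ) / ((pr i : ℝ) * ((pr i : ℝ) - 1)))) *
        ∑ c, (∏ i, z_s m (pr i) (a i) (c i)) * Y c := by
    calc ∑ c, (∏ i, |TP m (pr i) (a i) (c i)|) * Y c
        ≤ ∑ c : α → Option ι, (∏ i, |TP m (pr i) (a i) (c i)|) *
            Y (fun i => z_er m (a i) (c i)) := by
          refine sum_le_sum fun c _ => mul_le_mul_of_nonneg_left ?_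
            (prod_nonneg fun _ _ => abs_nonneg _)
          refine hmono _ _ fun i hi => ?_
          unfold z_er at hi ⊢
          split_ifs at hi ⊢ with h
          · exact absurd rfl hi
          · rfl
      _ = ∑ c' : α → Option ι, (∏ i, ∑ o, if z_er m (a i) o = c' i then
            |TP m (pr i) (a i) o| else 0) * Y c' :=
          z_push (fun i o => |TP m (pr i) (a i) o|) (fun i => z_er m (a i)) Y
      _ ≤ ∑ c' : α → Option ι, (∏ i, z_s m (pr i) (a i) (c' i) *
            (1 + (Fintype.card ι : ℝ) / ((pr i : ℝ) * ((pr i : ℝ) - 1)))) * Y c' := by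
          refine sum_le_sum fun c' _ => mul_le_mul_of_nonneg_right ?_ (hY _)
          refine prod_le_prod (fun i _ => sum_nonneg fun o _ => ?_) fun i _ =>
            z_sum m (pr i) (a i) (c' i) (ham i) (hpr i)
          split_ifs
          · exact abs_nonneg _
          · exact le_rfl
      _ = _ := by
          rw [mul_sum]
          refine sum_congr rfl fun c' _ => ?_
          rw [prod_mul_distrib]
          ring
  have h6 : ∑ c, (2 * (∏ i, z_s m (pr i) (a i) (c i)) - ∏ i, |TP m (pr i) (a i) (c i)|) * Y c ≤
      ∑ c, (∏ i, z_e (a i) * TP m (pr i) (a i) (c i)) * Y c :=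
    sum_le_sum fun c _ => mul_le_mul_of_nonneg_right (h3 c) (hY c)
  have h7 : ∑ c, (2 * (∏ i, z_s m (pr i) (a i) (c i)) - ∏ i, |TP m (pr i) (a i) (c i)|) * Y c =
      2 * ∑ c, (∏ i, z_s m (pr i) (a i) (c i)) * Y c -
        ∑ c, (∏ i, |TP m (pr i) (a i) (c i)|) * Y c := by
    rw [mul_sum, ← sum_sub_distrib]
    exact sum_congr rfl fun c _ => by ring
  rw [hVV]
  rw [h2] at h1
  rw [h7] at h6
  linarith

end Pool.Agent.Helper90.MT
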