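import Pool.Agent.Helper90.MT.Def2
import Pool.Agent.Helper90.MT.Main1
import Pool.Agent.Helper90.MT.Thin
import Pool.Agent.Helper90.MT.Galvin
import Pool.Agent.Helper90.MT.Core
import Pool.Agent.Helper90.MT.Seg
import Pool.Agent.Helper90.MT.Tensor
import Pool.Agent.Helper90.MT.Var
import Pool.Agent.Helper90.MT.FormD
import Pool.Agent.Helper90.MT.FormP
import Pool.Agent.Helper90.MT.QD
import Pool.Agent.Helper90.MT.QP
import Pool.Agent.Helper90.MT.CntD
import Pool.Agent.Helper90.MT.CntP
import Pool.Agent.Helper90.MT.S1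
import Pool.Agent.Helper90.MT.S2
import Pool.Agent.Helper90.MT.Z
import Pool.Agent.Helper90.MT.LossP
import Pool.Agent.Helper90.MT.LossO
import Pool.Agent.Helper90.MT.Gain
import Pool.Agent.Helper90.MT.Low
import Pool.Agent.Helper90.MT.Til1
import Pool.Agent.Helper90.MT.Til2
import Pool.Agent.Helper90.MT.Til3
import Pool.Agent.Helper90.MT.Hlow
import Pool.Agent.Helper90.MT.Upp
import Pool.Agent.Helper90.MT.S9
import Pool.Agent.Helper90.MT.Lam
import Pool.Agent.Helper90.MT.Pairs
import Pool.Agent.Helper90.MT.Yg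
import Pool.Agent.Helper90.MT.Fac
import Pool.Agent.Helper90.MT.GU
import Pool.Agent.Helper90.MT.GL
import Pool.Agent.Helper90.MT.SWa
import Pool.Agent.Helper90.MT.DDm
import Pool.Agent.Helper90.MT.Num
import Pool.Agent.Helper90.MT.L0m
import Pool.Agent.Helper90.MT.L1m
import Pool.Agent.Helper90.MT.L2m
import Pool.Agent.Helper90.MT.L3m
import Pool.Agent.Helper90.MT.Loc
import Pool.Agent.Helper90.MT.Tau
import Pool.Agent.Helper90.MT.Pt
import Pool.Agent.Helper90.MT.Tent
import Pool.Agent.Helper90.MT.Mod
import Pool.Agent.Helper90.MT.Glob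
import Pool.Agent.Helper90.MT.A2
import Pool.Agent.Helper90.MT.A3i
import Pool.Agent.Helper90.MT.A3
import Pool.Agent.Helper90.MT.A4
import Pool.Agent.Helper90.MT.A5
import Pool.Agent.Helper90.MT.A6
import Pool.Agent.Helper90.MT.A7
import Pool.Agent.Helper90.MT.A8
import Pool.Agent.Helper90.MT.A9
import Pool.Agent.Helper90.MT.A11
import Pool.Agent.Helper90.MT.A12b
import Pool.Agent.Helper90.MT.A13a
import Pool.Agent.Helper90.MT.A13b
import Pool.Agent.Helper90.MT.BV
import Pool.Agent.Helper90.MT.Ult
import Pool.Agent.Helper90.MT.BS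
import Pool.Agent.Helper90.MT.Game
import Pool.Agent.Helper90.MT.Mil
import Pool.Agent.Helper90.MT.Cheb
import Pool.Agent.Helper90.MT.A0
import Pool.Agent.Helper90.MT.A1
import Pool.Agent.Helper90.MT.A10
import Pool.Agent.Helper90.MT.A12a
import Pool.Agent.Helper90.MT.Seg2

/-!
Project MT: assembly of all parts.
-/

set_option autoImplicit false

namespace Pool.Agent.Helper90.MT

theorem bv_all : StBV :=
  bv (a9 (a6 (a3 a1 (a2 a0 a1) a3i) a4 a5) (a8 (a7 a1))) a10 a11 a12a a12b a13a a13b

theorem qD_all : StQD := qD tensor var formD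

theorem qP_all : StQP := qP tensor var formP

theorem s1_all : StS1 := s1 qD_all cntD

theorem s2_all : StS2 := s2 qP_all cntP

theorem low_all : StLow := low lossP lossO

theorem s9_all : StS9 := s9 s1_all lam_bd til1 til2 til3 hlow (upp gain)

theorem l3_all : StL3 := l3 sW (num dD)

theorem l1_all : StL1 := l1 l0 yg s9_all fac gU tent_facts cheb l3_all dD

theorem l2_all : StL2 := l2 l0 yg s2_all z low_all fac gL l3_all lam_bd pairs tent_facts cheb

theorem loc_all : StLoc := loc l0 l1_all l2_all l3_all tent_facts cheb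

theorem pt_all : StPt := pt l0 tau lam_bd yg

/-- the sieve theorem -/
theorem glob_all : StG := glob bv_all loc_all pt_all mod

theorem seg_all : StSeg := seg_of_G glob_all core

theorem seg2_all : StSeg2 := seg2_of_G glob_all core

/-- Theorem 1 -/
theorem main1_all : StMain1 := main1 seg2_all galvin

/-- Theorem 2 -/
theorem mil_all : StMil := mil seg_all thin (game ult bs)

end Pool.Agent.Helper90.MT
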