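import Pool.Agent.Helper90.MT.Mil2
import Pool.Agent.Helper90.MT.All

/-!
Project MT: from exact patterns to consecutive gaps.
-/

set_option autoImplicit false

namespace Pool.Agent.Helper90.MT

open Finset

/-- from an exact pattern to consecutive gaps -/
theorem gaps_of_Rl (k : ℕ) (g : ℕ → ℕ) (hg : ∀ i < k, 0 < g i) (n : ℕ)
    (key : ∀ j ≤ ∑ j ∈ range k, g j, ((n + j).Prime ↔ ∃ i ≤ k, ∑ j ∈ range i, g j = j)) :
    n.Prime ∧ ∀ i ≤ k, Nat.nth Nat.Prime (Nat.count Nat.Prime n + i) = n + ∑ j ∈ range i, g j := by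
  classical
  have hmono : ∀ a b : ℕ, a < b → b ≤ k → ∑ j ∈ range a, g j < ∑ j ∈ range b, g j := by
    intro a b hab hb
    calc ∑ j ∈ range a, g j < ∑ j ∈ range (a + 1), g j := by
          rw [sum_range_succ]; have := hg a (by omega); omega
      _ ≤ _ := sum_le_sum_of_subset (range_subset_range.2 hab)
  have hle : ∀ a b : ℕ, a ≤ b → ∑ j ∈ range a, g j ≤ ∑ j ∈ range b, g j := fun a b hab =>
    sum_le_sum_of_subset (range_subset_range.2 hab)
  have hpr : ∀ i ≤ k, (n + ∑ j ∈ range i, g j).Prime := fun i hi =>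
    (key _ (hle i k hi)).2 ⟨i, hi, rfl⟩
  have hcount : ∀ i ≤ k, Nat.count Nat.Prime (n + ∑ j ∈ range i, g j) =
      Nat.count Nat.Prime n + i := by
    intro i
    induction i with
    | zero => intro _; simp
    | succ i ih =>
      intro hi
      rw [sum_range_succ, ← add_assoc, Nat.count_add, ih (by omega)]
      have : Nat.count (fun t => (n + ∑ j ∈ range i, g j + t).Prime) (g i) = 1 := by
        rw [Nat.count_eq_card_filter_range, card_eq_one]
        refine ⟨0, ?_⟩
        ext t
        rw [mem_filter, mem_range, mem_singleton]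
        constructor
        · rintro ⟨ht, hp⟩
          by_contra ht0
          have h1 : ∑ j ∈ range i, g j + t < ∑ j ∈ range (i + 1), g j := by
            rw [sum_range_succ]; omega
          obtain ⟨i', hi', he⟩ := (key _ (h1.le.trans (hle _ _ hi))).1 (by rwa [← add_assoc])
          rcases lt_or_ge i i' with h2 | h2
          · have := hle (i + 1) i' h2
            omega
          · have := hle i' i h2
            omega
        · rintro rfl
          exact ⟨hg i (by omega), by simpa using hpr i (by omega)⟩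
      rw [this, add_assoc]
  refine ⟨by simpa using hpr 0 (by omega), fun i hi => ?_⟩
  rw [← hcount i hi]
  exact Nat.nth_count (hpr i hi)

/-- from an isolated exact pattern to isolated consecutive gaps -/
theorem gaps_of_RlF (f : ℕ → ℕ) (k : ℕ) (g : ℕ → ℕ) (hg : ∀ i < k, 0 < g i) (n : ℕ)
    (h : RlF f ((range (k + 1)).image (fun i => ∑ j ∈ range i, g j)) n) :
    n.Prime ∧ (∀ i < k, Nat.nth Nat.Prime (Nat.count Nat.Prime n + i + 1) =
        Nat.nth Nat.Prime (Nat.count Nat.Prime n + i) + g i) ∧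
      (∀ l : ℕ, l + 1 = Nat.count Nat.Prime n →
        Nat.nth Nat.Prime l + f (∑ j ∈ range k, g j) < Nat.nth Nat.Prime (l + 1)) ∧
      Nat.nth Nat.Prime (Nat.count Nat.Prime n + k) + f (∑ j ∈ range k, g j) <
        Nat.nth Nat.Prime (Nat.count Nat.Prime n + k + 1) := by
  classical
  have hle : ∀ a b : ℕ, a ≤ b → ∑ j ∈ range a, g j ≤ ∑ j ∈ range b, g j := fun a b hab =>
    sum_le_sum_of_subset (range_subset_range.2 hab)
  have hsup : ((range (k + 1)).image (fun i => ∑ j ∈ range i, g j)).sup id =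
      ∑ j ∈ range k, g j := by
    refine le_antisymm (Finset.sup_le fun q hq => ?_)
      (le_sup (f := id) (mem_image.2 ⟨k, by simp, rfl⟩))
    obtain ⟨i, hi, rfl⟩ := mem_image.1 hq
    exact hle i k (by rw [mem_range] at hi; omega)
  unfold RlF at h
  rw [hsup] at h
  set S := ∑ j ∈ range k, g j with hS
  have h' : ∀ q : ℕ, n ≤ q + f S → q ≤ n + S + f S →
      (q.Prime ↔ ∃ i ≤ k, q = n + ∑ j ∈ range i, g j) := by
    intro q h1 h2
    rw [h q h1 h2]
    constructor
    · rintro ⟨j, hj, rfl⟩
      obtain ⟨i, hi, rfl⟩ := mem_image.1 hj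
      exact ⟨i, by rw [mem_range] at hi; omega, rfl⟩
    · rintro ⟨i, hi, rfl⟩
      exact ⟨_, mem_image.2 ⟨i, by rw [mem_range]; omega, rfl⟩, rfl⟩
  obtain ⟨h3, h4⟩ := gaps_of_Rl k g hg n fun j hj => by
    rw [h' (n + j) (by omega) (by omega)]
    constructor
    · rintro ⟨i, hi, he⟩
      exact ⟨i, hi, by omega⟩
    · rintro ⟨i, hi, he⟩
      exact ⟨i, hi, by omega⟩
  refine ⟨h3, fun i hi => ?_, fun l hl => ?_, ?_⟩
  · rw [add_assoc, h4 (i + 1) (by omega), h4 i (by omega), sum_range_succ, add_assoc]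
  · have h5 := h4 0 (Nat.zero_le k)
    rw [add_zero, range_zero, sum_empty, add_zero] at h5
    rw [hl, h5]
    have h6 : Nat.nth Nat.Prime l < n := by
      rw [← h5]
      exact Nat.nth_strictMono Nat.infinite_setOfPred_prime (by omega)
    have h7 : (Nat.nth Nat.Prime l).Prime := Nat.prime_nth_prime l
    by_contra hcon
    obtain ⟨i, hi, he⟩ := (h' _ (by omega) (by omega)).1 h7
    omega
  · have h5 := h4 k le_rfl
    have h6 : Nat.nth Nat.Prime (Nat.count Nat.Prime n + k) <
        Nat.nth Nat.Prime (Nat.count Nat.Prime n + k + 1) :=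
      Nat.nth_strictMono Nat.infinite_setOfPred_prime (Nat.lt_succ_self _)
    have h7 : (Nat.nth Nat.Prime (Nat.count Nat.Prime n + k + 1)).Prime := Nat.prime_nth_prime _
    by_contra hcon
    obtain ⟨i, hi, he⟩ := (h' _ (by omega) (by omega)).1 h7
    have := hle i k hi
    omega

/-- Theorem 2, quantitative form -/
theorem mil2_all : StMil2 := mil2 seg2_all thin (game ult bs)

end Pool.Agent.Helper90.MT
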