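import Pool.Agent.Helper90.MT.StM

/-!
Project MT, second theorem: block sequences following a strategy (`StBS`).
-/

namespace Pool.Agent.Helper90.MT

open Finset Filter

/-- Sequences constructed step by step. -/
theorem BS_rec {α : Type} (Inv : ℕ → (ℕ → α) → Prop)
    (hloc : ∀ (n : ℕ) (D D' : ℕ → α), (∀ i < n, D i = D' i) → Inv n D → Inv n D')
    (D₀ : ℕ → α) (h0 : Inv 0 D₀)
    (hstep : ∀ (n : ℕ) (D : ℕ → α), Inv n D → ∃ x, Inv (n + 1) (Function.update D n x)) :
    ∃ D : ℕ → α, ∀ n, Inv n D := by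
  classical
  have : Nonempty α := ⟨D₀ 0⟩
  choose! x hx using hstep
  let S : ∀ n : ℕ, {D : ℕ → α // Inv n D} := fun n =>
    Nat.rec (motive := fun n => {D : ℕ → α // Inv n D}) ⟨D₀, h0⟩
      (fun n D => ⟨Function.update D.1 n (x n D.1), hx n D.1 D.2⟩) n
  have hS : ∀ n, (S (n + 1)).1 = Function.update (S n).1 n (x n (S n).1) := fun n => rfl
  have h1 : ∀ n i, i < n → (S n).1 i = (S (i + 1)).1 i := by
    intro n
    induction n with
    | zero => intro i hi; exact absurd hi (Nat.not_lt_zero i)
    | succ n ih =>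
      intro i hi
      rcases Nat.lt_succ_iff_lt_or_eq.1 hi with h | h
      · rw [hS n, Function.update_of_ne h.ne]
        exact ih i h
      · rw [h]
  refine ⟨fun i => (S (i + 1)).1 i, fun n => ?_⟩
  exact hloc n (S n).1 _ (fun i hi => h1 n i hi) (S n).2

/-- The starred set. -/
def BSstar (U : Ultrafilter (Finset ℕ)) (G : Set (Finset ℕ)) : Set (Finset ℕ) :=
  {D | D ∈ G ∧ {D' : Finset ℕ | D ∪ D' ∈ G} ∈ U}

theorem BSstar_step {U : Ultrafilter (Finset ℕ)} (hU : Idem U) {G : Set (Finset ℕ)}
    {D : Finset ℕ} (hD : D ∈ BSstar U G) : {D' : Finset ℕ | D ∪ D' ∈ BSstar U G} ∈ U := by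
  have h := hU.idem _ hD.2
  refine Filter.mem_of_superset h ?_
  rintro D' ⟨h1, h2⟩
  refine ⟨h1, Filter.mem_of_superset h2 fun D'' h3 => ?_⟩
  have h4 : D ∪ (D' ∪ D'') ∈ G := h3
  rw [← Finset.union_assoc] at h4
  exact h4

/-- admissible lists with entries below `n` -/
def BSadm (n : ℕ) (L : List (Finset ℕ)) : Prop :=
  L.Pairwise Blt ∧ ∀ F ∈ L, F.Nonempty ∧ ∀ a ∈ F, a < n

theorem BSadm_finite (n : ℕ) : {L : List (Finset ℕ) | BSadm n L}.Finite := by
  classical
  have hfin : ({L : List {F : Finset ℕ // F ∈ (range n).powerset} |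
      L.length ≤ ((range n).powerset).card}).Finite := List.finite_length_le _ _
  refine (hfin.image (fun L => L.map Subtype.val)).subset ?_
  rintro L ⟨h1, h2⟩
  have hnodup : L.Nodup := by
    refine List.Pairwise.imp_of_mem ?_ h1
    rintro E F hE _ hEF rfl
    obtain ⟨a, ha⟩ := (h2 E hE).1
    exact lt_irrefl _ (hEF a ha a ha)
  have hmem : ∀ F ∈ L, F ∈ (range n).powerset := by
    intro F hF
    rw [mem_powerset]
    intro a ha
    exact mem_range.2 ((h2 F hF).2 a ha)
  refine ⟨L.attach.map (fun F => ⟨F.1, hmem F.1 F.2⟩), ?_, ?_⟩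
  · show (L.attach.map _).length ≤ _
    rw [List.length_map, List.length_attach, ← List.toFinset_card_of_nodup hnodup]
    exact card_le_card fun F hF => hmem F (List.mem_toFinset.1 hF)
  · show (L.attach.map _).map Subtype.val = L
    rw [List.map_map]
    exact List.attach_map_subtype_val L

theorem BS_biUnion_congr {F : Finset ℕ} {D D' : ℕ → Finset ℕ} (h : ∀ a ∈ F, D a = D' a) :
    F.biUnion D = F.biUnion D' :=
  Finset.biUnion_congr rfl h

/-- the invariant of the construction -/
def BSinv (U : Ultrafilter (Finset ℕ)) (τ : List (Finset ℕ) → Set (Finset ℕ)) (n : ℕ)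
    (D : ℕ → Finset ℕ) : Prop :=
  (∀ i < n, (D i).Nonempty) ∧ (∀ i j, i < j → j < n → Blt (D i) (D j)) ∧
    ∀ (L : List (Finset ℕ)) (E : Finset ℕ), BSadm n (L ++ [E]) →
      E.biUnion D ∈ BSstar U (τ (L.map (fun F => F.biUnion D)))

theorem BS_map_congr {L : List (Finset ℕ)} {D D' : ℕ → Finset ℕ}
    (h : ∀ F ∈ L, ∀ a ∈ F, D a = D' a) :
    L.map (fun F => F.biUnion D) = L.map (fun F => F.biUnion D') :=
  List.map_congr_left fun F hF => BS_biUnion_congr (h F hF)

theorem BS_loc (U : Ultrafilter (Finset ℕ)) (τ : List (Finset ℕ) → Set (Finset ℕ)) (n : ℕ)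
    (D D' : ℕ → Finset ℕ) (h : ∀ i < n, D i = D' i) (hD : BSinv U τ n D) : BSinv U τ n D' := by
  obtain ⟨h1, h2, h3⟩ := hD
  refine ⟨fun i hi => ?_, fun i j hij hj => ?_, fun L E hLE => ?_⟩
  · rw [← h i hi]
    exact h1 i hi
  · rw [← h i (hij.trans hj), ← h j hj]
    exact h2 i j hij hj
  · have h4 := h3 L E hLE
    rw [BS_map_congr (D := D) (D' := D') fun F hF a ha =>
        h a ((hLE.2 F (List.mem_append_left _ hF)).2 a ha),
      BS_biUnion_congr (D := D) (D' := D') fun a ha =>
        h a ((hLE.2 E (by simp)).2 a ha)] at h4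
    exact h4

theorem BS_step {U : Ultrafilter (Finset ℕ)} (hU : Idem U)
    {τ : List (Finset ℕ) → Set (Finset ℕ)} (hτ : ∀ s, τ s ∈ U) (n : ℕ) (D : ℕ → Finset ℕ)
    (hD : BSinv U τ n D) : ∃ x, BSinv U τ (n + 1) (Function.update D n x) := by
  classical
  obtain ⟨h1, h2, h3⟩ := hD
  set m := (range n).sup (fun i => (D i).sup id) with hm
  have hm' : ∀ i < n, ∀ a ∈ D i, a ≤ m := by
    intro i hi a ha
    have e1 : (D i).sup id ≤ m := Finset.le_sup (f := fun i => (D i).sup id) (mem_range.2 hi)
    exact (Finset.le_sup (f := id) ha).trans e1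
  -- the finitely many conditions
  have hfin : ({L : List (Finset ℕ) | BSadm n L} ×ˢ
      ((range n).powerset : Set (Finset ℕ))).Finite :=
    (BSadm_finite n).prod (Finset.finite_toSet _)
  have hall : ∀ᶠ x in (U : Filter (Finset ℕ)), ∀ p ∈ ({L : List (Finset ℕ) | BSadm n L} ×ˢ
      ((range n).powerset : Set (Finset ℕ))),
      (p.2 = ∅ ∨ BSadm n (p.1 ++ [p.2])) →
        p.2.biUnion D ∪ x ∈ BSstar U (τ (p.1.map (fun F => F.biUnion D))) := by
    rw [Filter.eventually_all_finite hfin]
    rintro ⟨L, E⟩ _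
    dsimp only
    by_cases hc : E = ∅ ∨ BSadm n (L ++ [E])
    · have h4 : {x : Finset ℕ | E.biUnion D ∪ x ∈
          BSstar U (τ (L.map (fun F => F.biUnion D)))} ∈ U := by
        rcases hc with rfl | hc
        · refine Filter.mem_of_superset (hU.idem _ (hτ (L.map (fun F => F.biUnion D)))) ?_
          intro x hx
          show (∅ : Finset ℕ).biUnion D ∪ x ∈ BSstar U (τ (L.map (fun F => F.biUnion D)))
          rw [Finset.biUnion_empty, Finset.empty_union]
          exact hx
        · exact BSstar_step hU (h3 L E hc)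
      exact Filter.mem_of_superset h4 fun x hx _ => hx
    · exact Filter.Eventually.of_forall fun x h => absurd h hc
  have hfar : ∀ᶠ x : Finset ℕ in (U : Filter (Finset ℕ)), x.Nonempty ∧ ∀ a ∈ x, m < a :=
    hU.far m
  obtain ⟨x, ⟨hx1, hx2⟩, hx3⟩ := (hfar.and hall).exists
  have hu : ∀ i < n, Function.update D n x i = D i := fun i hi => Function.update_of_ne hi.ne _ _
  refine ⟨x, fun i hi => ?_, fun i j hij hj => ?_, fun L E hLE => ?_⟩
  · rcases Nat.lt_succ_iff_lt_or_eq.1 hi with h | h
    · rw [hu i h]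
      exact h1 i h
    · rw [h, Function.update_self]
      exact hx1
  · rcases Nat.lt_succ_iff_lt_or_eq.1 hj with h | h
    · rw [hu i (hij.trans h), hu j h]
      exact h2 i j hij h
    · subst h
      rw [hu i hij, Function.update_self]
      intro a ha b hb
      exact (hm' i hij a ha).trans_lt (hx2 b hb)
  · have hE : E.Nonempty := (hLE.2 E (by simp)).1
    have hpair := List.pairwise_append.1 hLE.1
    -- the lists have entries below `n`
    have hL : ∀ F ∈ L, ∀ a ∈ F, a < n := by
      intro F hF a ha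
      obtain ⟨b, hb⟩ := hE
      have e1 := hpair.2.2 F hF E (by simp) a ha b hb
      have e2 := (hLE.2 E (by simp)).2 b hb
      omega
    have hLadm : BSadm n L :=
      ⟨hpair.1, fun F hF => ⟨(hLE.2 F (List.mem_append_left _ hF)).1, hL F hF⟩⟩
    rw [BS_map_congr (D := Function.update D n x) (D' := D) fun F hF a ha => hu a (hL F hF a ha)]
    by_cases hn : n ∈ E
    · have hE' : ∀ a ∈ E.erase n, a < n := by
        intro a ha
        rw [mem_erase] at ha
        have e2 := (hLE.2 E (by simp)).2 a ha.2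
        omega
      have e1 : E.biUnion (Function.update D n x) = (E.erase n).biUnion D ∪ x := by
        rw [← Finset.insert_erase hn, Finset.biUnion_insert, Function.update_self,
          BS_biUnion_congr (D := Function.update D n x) (D' := D) (F := E.erase n)
            fun a ha => hu a (hE' a ha), Finset.union_comm, Finset.erase_insert_eq_erase,
          Finset.erase_idem]
      rw [e1]
      refine hx3 (L, E.erase n) ⟨hLadm, ?_⟩ ?_
      · rw [mem_coe, mem_powerset]
        intro a ha
        exact mem_range.2 (hE' a ha)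
      · by_cases he : E.erase n = ∅
        · exact Or.inl he
        · right
          refine ⟨List.pairwise_append.2 ⟨hpair.1, List.pairwise_singleton _ _, ?_⟩, ?_⟩
          · intro F hF G hG
            rw [List.mem_singleton] at hG
            subst hG
            intro a ha b hb
            exact hpair.2.2 F hF E (by simp) a ha b (Finset.mem_of_mem_erase hb)
          · intro F hF
            rcases List.mem_append.1 hF with h | h
            · exact hLadm.2 F h
            · rw [List.mem_singleton] at h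
              subst h
              exact ⟨Finset.nonempty_iff_ne_empty.2 he, hE'⟩
    · have hE' : ∀ a ∈ E, a < n := by
        intro a ha
        have e2 := (hLE.2 E (by simp)).2 a ha
        have e3 : a ≠ n := fun h => hn (h ▸ ha)
        omega
      rw [BS_biUnion_congr (D := Function.update D n x) (D' := D) fun a ha => hu a (hE' a ha)]
      refine h3 L E ⟨hLE.1, fun F hF => ?_⟩
      rcases List.mem_append.1 hF with h | h
      · exact hLadm.2 F h
      · rw [List.mem_singleton] at h
        subst h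
        exact ⟨hE, hE'⟩

/-- M2: block sequences following a strategy. -/
theorem bs : StBS := by
  intro U hU τ hτ
  obtain ⟨D, hD⟩ := BS_rec (BSinv U τ) (BS_loc U τ) (fun _ => ∅)
    ⟨fun i hi => absurd hi (Nat.not_lt_zero i), fun i j _ hj => absurd hj (Nat.not_lt_zero j),
      fun L E hLE => by
        exfalso
        obtain ⟨a, ha⟩ := (hLE.2 E (by simp)).1
        exact Nat.not_lt_zero a ((hLE.2 E (by simp)).2 a ha)⟩
    (BS_step hU hτ)
  refine ⟨D, ⟨fun i => (hD (i + 1)).1 i (Nat.lt_succ_self i),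
    fun i j hij => (hD (j + 1)).2.1 i j hij (Nat.lt_succ_self j)⟩, fun L E h1 h2 => ?_⟩
  classical
  set n := ((L ++ [E]).toFinset).sup (fun F => F.sup id) with hn
  have h3 : BSadm (n + 1) (L ++ [E]) := by
    refine ⟨h1, fun F hF => ⟨h2 F hF, fun a ha => ?_⟩⟩
    have e1 : F.sup id ≤ n := Finset.le_sup (f := fun F : Finset ℕ => F.sup id)
      (List.mem_toFinset.2 hF)
    have e2 : a ≤ F.sup id := Finset.le_sup (f := id) ha
    omega
  exact ((hD (n + 1)).2.2 L E h3).1

end Pool.Agent.Helper90.MT
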