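import Mathlib

/-!
Project MT (MP_3ec731_nt): hereditary Maynard-Tao theorem.  Basic definitions and the
interface statements between the three parts A (level of distribution), S (sieve), C
(combinatorics).
-/

namespace Pool.Agent.Helper90.MT

open Finset

/-- tent weight: zero outside `(M, 4M]`, equal to `log (n/M)` on `[M, 2M]` and to `log (4M/n)` on
`[2M, 4M]` -/
noncomputable def tent (M n : ℕ) : ℝ :=
  Real.posLog (4 * (M : ℝ) / n) - 2 * Real.posLog (2 * (M : ℝ) / n) + Real.posLog ((M : ℝ) / n)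

open Classical in
/-- weighted prime indicator -/
noncomputable def fp (M n : ℕ) : ℝ := if n.Prime then Real.log n * tent M n else 0

noncomputable def X0 (M : ℕ) : ℝ := ∑ n ∈ Ioc M (4 * M), tent M n

noncomputable def X1 (M : ℕ) : ℝ := ∑ n ∈ Ioc M (4 * M), fp M n

/-- Interface A: Bombieri-Vinogradov with level `x ^ (1/13)` for arbitrarily large `x`, with
divisor weights. -/
def StBV : Prop := ∀ k B M₀ : ℕ, ∃ M ≥ M₀, ∃ E : ℕ → ℝ, (∀ q, 0 ≤ E q) ∧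
  (∀ q a : ℕ, 1 ≤ q → q ^ 13 ≤ M → a.Coprime q →
    |∑ n ∈ (Ioc M (4 * M)).filter (fun n => n ≡ a [MOD q]), fp M n - X1 M / q.totient| ≤ E q) ∧
  ∀ Q : ℕ, Q ^ 13 ≤ M →
    ∑ q ∈ Icc 1 Q, (k : ℝ) ^ q.primeFactors.card * E q ≤ M / Real.log M ^ B

open Classical in
/-- Interface S: the sieve theorem (Maynard-Tao with groups of shifts). -/
def StG : Prop := ∃ δ : ℝ, 0 < δ ∧ ∃ K : ℕ → ℕ, (∀ j, 0 < K j) ∧
  ∀ (J : ℕ) (H : ℕ → Finset ℕ) (E : Finset ℕ) (m v N₀ : ℕ) (ε : ℝ), 0 < m → 0 < ε →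
    (∀ j < J, (H j).card = K j) →
    (∀ i < J, ∀ j < J, i ≠ j → Disjoint (H i) (H j)) →
    (∀ j < J, Disjoint (H j) E) →
    (∀ p : ℕ, p.Prime → ∃ r : ℕ, ∀ j < J, ∀ h ∈ H j, ¬ p ∣ r + h) →
    (∀ j < J, ∀ h ∈ H j, (v + h).Coprime m) →
    ∃ N ≥ N₀, ∃ u : ℕ → ℝ, (∀ n, 0 ≤ u n) ∧ (∀ n, u n ≤ (N : ℝ) ^ (ε - 1)) ∧
      (∀ n, u n ≠ 0 → n ∈ Ioc N (4 * N) ∧ n ≡ v [MOD m] ∧ ∀ e ∈ E, ¬ (n + e).Prime) ∧
      ∑ n ∈ Ioc N (4 * N), u n = 1 ∧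
      ∀ j < J, δ ≤ ∑ n ∈ (Ioc N (4 * N)).filter (fun n => ∃ h ∈ H j, (n + h).Prime), u n

/-- `n` realises the finite set `F` (as an exact pattern on `[min F, max F]`) -/
def Rl (F : Finset ℕ) (n : ℕ) : Prop :=
  ∀ j : ℕ, (∃ a ∈ F, a ≤ j) → (∃ b ∈ F, j ≤ b) → ((n + j).Prime ↔ j ∈ F)

/-- a compatible system of residue classes (a profinite integer) -/
def Cpt (v : ℕ → ℕ) : Prop := ∀ m m' : ℕ, 0 < m' → m ∣ m' → v m' ≡ v m [MOD m]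

/-- `v` is compatible with `A`: all `v + a` are units -/
def Unt (v : ℕ → ℕ) (A : Set ℕ) : Prop := ∀ m : ℕ, 0 < m → ∀ a ∈ A, (v m + a).Coprime m

open Classical in
/-- `F` is realised by many `n` in each class `v m` modulo `m` -/
def Rz (v : ℕ → ℕ) (F : Finset ℕ) : Prop :=
  ∀ m : ℕ, 0 < m → ∀ ε : ℝ, 0 < ε → ∀ x₀ : ℕ, ∃ x ≥ x₀,
    (x : ℝ) ^ (1 - ε) ≤ #((range x).filter (fun n => n ≡ v m [MOD m] ∧ Rl F n))

open Classical in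
/-- initial segment of `Q` below `k` -/
noncomputable def seg (Q : Set ℕ) (k : ℕ) : Finset ℕ := (range k).filter (· ∈ Q)

/-- Interface C2: every infinite compatible set has an infinite subset with realised initial
segments (Tao-Ziegler type statement with exact patterns). -/
def StSeg : Prop := ∀ (A : Set ℕ) (v : ℕ → ℕ), A.Infinite → Cpt v → Unt v A →
  ∃ Q ⊆ A, Q.Infinite ∧ ∀ k : ℕ, Rz v (seg Q k)

/-- C1: thinning out. -/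
def StThin : Prop := ∀ A : Set ℕ, A.Infinite → ∃ A' ⊆ A, A'.Infinite ∧ ∃ v : ℕ → ℕ, Cpt v ∧ Unt v A'

/-- C3: Galvin's lemma. -/
def StGalvin : Prop := ∀ (P : Finset ℕ → Prop) (A : Set ℕ), A.Infinite →
  (∀ C : Set ℕ, C ⊆ A → C.Infinite → ∃ Q ⊆ C, Q.Infinite ∧ ∀ k : ℕ, P (seg Q k)) →
  ∃ B ⊆ A, B.Infinite ∧ ∀ F : Finset ℕ, (F : Set ℕ) ⊆ B → P F

/-- C-core: finitely additive version of Bergelson's intersectivity lemma. -/
def StCore : Prop := ∀ (ν : Set (Set ℕ) → ℝ) (δ : ℝ) (H : ℕ → Finset ℕ), 0 < δ →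
  (∀ S, 0 ≤ ν S) → (∀ S T, Disjoint S T → ν (S ∪ T) = ν S + ν T) → ν Set.univ = 1 →
  (∀ j, δ ≤ ν {Q | ∃ h ∈ H j, h ∈ Q}) →
  ∃ Q : Set ℕ, (∀ k : ℕ, 0 < ν {T | ∀ x < k, (x ∈ T ↔ x ∈ Q)}) ∧
    {j | ∃ h ∈ H j, h ∈ Q}.Infinite

end Pool.Agent.Helper90.MT
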