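import Pool.Agent.Helper90.MT.StS

/-!
Project MT, module S-Glob: the sieve theorem `StG` from the local theorem.
-/

namespace Pool.Agent.Helper90.MT

open Finset

namespace Glob

lemma tent_nonneg {M n : ℕ} (hM : 0 < M) (hn : n ∈ Ioc M (4 * M)) : 0 ≤ tent M n := by
  rw [mem_Ioc] at hn
  have hM' : (0 : ℝ) < M := by exact_mod_cast hM
  have hn1 : (M : ℝ) < n := by exact_mod_cast hn.1
  have hn2 : (n : ℝ) ≤ 4 * M := by exact_mod_cast hn.2
  have hn0 : (0 : ℝ) < n := by linarith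
  unfold tent
  have e1 : Real.posLog (4 * (M : ℝ) / n) = Real.log (4 * (M : ℝ) / n) := by
    apply Real.posLog_eq_log
    rw [abs_of_pos (by positivity)]
    rw [le_div_iff₀ hn0]; linarith
  have e3 : Real.posLog ((M : ℝ) / n) = 0 := by
    apply (Real.posLog_eq_zero_iff _).2
    rw [abs_of_pos (by positivity), div_le_iff₀ hn0]; linarith
  rw [e1, e3]
  by_cases h : (n : ℝ) ≤ 2 * M
  · have e2 : Real.posLog (2 * (M : ℝ) / n) = Real.log (2 * (M : ℝ) / n) := by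
      apply Real.posLog_eq_log
      rw [abs_of_pos (by positivity)]
      rw [le_div_iff₀ hn0]; linarith
    rw [e2]
    have : Real.log (4 * (M : ℝ) / n) = Real.log (2 * (M : ℝ) / n) + Real.log 2 := by
      rw [← Real.log_mul (by positivity) (by norm_num)]
      congr 1; ring
    rw [this]
    have h2 : Real.log (2 * (M : ℝ) / n) ≤ Real.log 2 := by
      apply Real.log_le_log (by positivity)
      rw [div_le_iff₀ hn0]; nlinarith
    linarith
  · push Not at h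
    have e2 : Real.posLog (2 * (M : ℝ) / n) = 0 := by
      apply (Real.posLog_eq_zero_iff _).2
      rw [abs_of_pos (by positivity), div_le_iff₀ hn0]; linarith
    rw [e2]
    have : 0 ≤ Real.log (4 * (M : ℝ) / n) := by
      apply Real.log_nonneg
      rw [le_div_iff₀ hn0]; linarith
    linarith

lemma tent_le_one {M n : ℕ} (hM : 0 < M) (hn : n ∈ Ioc M (4 * M)) : tent M n ≤ 1 := by
  rw [mem_Ioc] at hn
  have hM' : (0 : ℝ) < M := by exact_mod_cast hM
  have hn1 : (M : ℝ) < n := by exact_mod_cast hn.1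
  have hn2 : (n : ℝ) ≤ 4 * M := by exact_mod_cast hn.2
  have hn0 : (0 : ℝ) < n := by linarith
  have hlog2 : Real.log 2 ≤ 1 := by linarith [Real.log_two_lt_d9]
  unfold tent
  have e1 : Real.posLog (4 * (M : ℝ) / n) = Real.log (4 * (M : ℝ) / n) := by
    apply Real.posLog_eq_log
    rw [abs_of_pos (by positivity)]
    rw [le_div_iff₀ hn0]; linarith
  have e3 : Real.posLog ((M : ℝ) / n) = 0 := by
    apply (Real.posLog_eq_zero_iff _).2
    rw [abs_of_pos (by positivity), div_le_iff₀ hn0]; linarith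
  rw [e1, e3]
  by_cases h : (n : ℝ) ≤ 2 * M
  · have e2 : Real.posLog (2 * (M : ℝ) / n) = Real.log (2 * (M : ℝ) / n) := by
      apply Real.posLog_eq_log
      rw [abs_of_pos (by positivity)]
      rw [le_div_iff₀ hn0]; linarith
    rw [e2]
    have : Real.log (4 * (M : ℝ) / n) = Real.log (2 * (M : ℝ) / n) + Real.log 2 := by
      rw [← Real.log_mul (by positivity) (by norm_num)]
      congr 1; ring
    rw [this]
    have h2 : 0 ≤ Real.log (2 * (M : ℝ) / n) := by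
      apply Real.log_nonneg
      rw [le_div_iff₀ hn0]; linarith
    linarith
  · push Not at h
    have e2 : Real.posLog (2 * (M : ℝ) / n) = 0 := by
      apply (Real.posLog_eq_zero_iff _).2
      rw [abs_of_pos (by positivity), div_le_iff₀ hn0]; linarith
    rw [e2]
    have : Real.log (4 * (M : ℝ) / n) ≤ Real.log 2 := by
      apply Real.log_le_log (by positivity)
      rw [div_le_iff₀ hn0]; linarith
    linarith

lemma wt_nonneg {α ι : Type} [Fintype α] [DecidableEq α] [Fintype ι] [DecidableEq ι]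
    (pr : α → ℕ) (sh : ι → ℕ) (Y : (α → Option ι) → ℝ) (n : ℕ) : 0 ≤ wt pr sh Y n :=
  sq_nonneg _

lemma WT_nonneg {ι : Type} [Fintype ι] [DecidableEq ι] (W M : ℕ) (sh grp : ι → ℕ) (J n : ℕ) :
    0 ≤ WT W M sh grp J n := sq_nonneg _

lemma logsq_le (ε : ℝ) (hε : 0 < ε) : ∃ M₀ : ℕ, ∀ M ≥ M₀, Real.log (M : ℕ) ^ 2 ≤ (M : ℝ) ^ ε := by
  have h := (isLittleO_log_rpow_atTop (half_pos hε)).bound (one_pos)
  have h2 := (tendsto_natCast_atTop_atTop (R := ℝ)).eventually h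
  have h3 := (h2.and (Filter.eventually_ge_atTop 1))
  obtain ⟨M₀, hM₀⟩ := Filter.eventually_atTop.1 h3
  refine ⟨M₀, fun M hM => ?_⟩
  obtain ⟨h4, h5⟩ := hM₀ M hM
  have hM' : (1 : ℝ) ≤ M := by exact_mod_cast h5
  rw [one_mul, Real.norm_eq_abs, Real.norm_eq_abs] at h4
  have h6 : |Real.log (M : ℝ)| ^ 2 ≤ |(M : ℝ) ^ (ε / 2)| ^ 2 := by
    apply pow_le_pow_left₀ (abs_nonneg _) h4
  rw [sq_abs, sq_abs] at h6
  calc Real.log (M : ℝ) ^ 2 ≤ ((M : ℝ) ^ (ε / 2)) ^ 2 := h6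
    _ = (M : ℝ) ^ ε := by
      rw [← Real.rpow_natCast, ← Real.rpow_mul (by positivity)]
      congr 1; push_cast; ring

lemma large_rpow (ε C : ℝ) (hε : 0 < ε) : ∃ M₀ : ℕ, ∀ M : ℕ, M ≥ M₀ → C ≤ (M : ℝ) ^ ε := by
  have h := (tendsto_rpow_atTop hε).comp (tendsto_natCast_atTop_atTop (R := ℝ))
  obtain ⟨M₀, hM₀⟩ := Filter.eventually_atTop.1 (h.eventually_ge_atTop C)
  exact ⟨M₀, fun M hM => hM₀ M hM⟩

/-- if `q | W` and `q | v' + e`, `n ≡ v' [MOD W]`, `W ≤ M < n` then `n + e` is not prime -/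
lemma comp_of {W v' n e M : ℕ} (hW : 0 < W) (hM : W ≤ M) (hn : M < n) (hc : n ≡ v' [MOD W])
    (hq : ∃ q, q.Prime ∧ q ∣ W ∧ q ∣ v' + e) : ¬ (n + e).Prime := by
  obtain ⟨q, q1, q2, q3⟩ := hq
  intro hp
  have h1 : n ≡ v' [MOD q] := hc.of_dvd q2
  have h2 : n + e ≡ v' + e [MOD q] := h1.add_right e
  have h3 : q ∣ n + e := (h2.dvd_iff dvd_rfl).2 q3
  have h4 : q = n + e := (Nat.prime_dvd_prime_iff_eq q1 hp).1 h3
  have h5 : q ≤ W := Nat.le_of_dvd hW q2
  omega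

open Classical in
/-- the case `J = 0` -/
lemma case0 (h4 : StMod) (E : Finset ℕ) (m v N₀ : ℕ) (ε : ℝ) (hm : 0 < m) (hε : 0 < ε) :
    ∃ N ≥ N₀, ∃ u : ℕ → ℝ, (∀ n, 0 ≤ u n) ∧ (∀ n, u n ≤ (N : ℝ) ^ (ε - 1)) ∧
      (∀ n, u n ≠ 0 → n ∈ Ioc N (4 * N) ∧ n ≡ v [MOD m] ∧ ∀ e ∈ E, ¬ (n + e).Prime) ∧
      ∑ n ∈ Ioc N (4 * N), u n = 1 := by
  obtain ⟨W, v', hW, -, hmW, hv', -, hE⟩ := h4 ∅ E m v 1 hm (disjoint_empty_left _)
    (by simp) (fun p _ => ⟨0, by simp⟩)
  obtain ⟨M₁, hM₁⟩ := large_rpow ε W hε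
  obtain ⟨M, hM⟩ : ∃ M, M = N₀ + M₁ + W + 1 := ⟨_, rfl⟩
  have hM0 : 0 < M := by omega
  have hM' : (0 : ℝ) < M := by exact_mod_cast hM0
  obtain ⟨S, hS⟩ : ∃ S, S = (Ioc M (4 * M)).filter (fun n => n ≡ v' [MOD W]) := ⟨_, rfl⟩
  -- cardinality
  have hW' : (0 : ℝ) < W := by exact_mod_cast hW
  have hcard : (M : ℝ) / W ≤ #S := by
    have h1 := Nat.Ioc_filter_modEq_card M (4 * M) hW v'
    rw [hS]
    have h2 : ((#((Ioc M (4 * M)).filter (fun n => n ≡ v' [MOD W])) : ℤ) : ℝ) =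
        ((max (⌊((4 * M : ℕ) - v' : ℚ) / W⌋ - ⌊((M : ℕ) - v' : ℚ) / W⌋) 0 : ℤ) : ℝ) := by
      exact_mod_cast h1
    have h3 : (#((Ioc M (4 * M)).filter (fun n => n ≡ v' [MOD W])) : ℝ) =
        ((max (⌊((4 * M : ℕ) - v' : ℚ) / W⌋ - ⌊((M : ℕ) - v' : ℚ) / W⌋) 0 : ℤ) : ℝ) := by
      rw [← h2]; norm_cast
    rw [h3]
    have h4 : ((⌊((4 * M : ℕ) - v' : ℚ) / W⌋ - ⌊((M : ℕ) - v' : ℚ) / W⌋ : ℤ) : ℝ) ≤
      ((max (⌊((4 * M : ℕ) - v' : ℚ) / W⌋ - ⌊((M : ℕ) - v' : ℚ) / W⌋) 0 : ℤ) : ℝ) := by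
      exact_mod_cast le_max_left _ _
    refine le_trans ?_ h4
    have h5 : (((4 * M : ℕ) - v' : ℚ) / W) < ⌊((4 * M : ℕ) - v' : ℚ) / W⌋ + 1 :=
      Int.lt_floor_add_one _
    have h6 : (⌊((M : ℕ) - v' : ℚ) / W⌋ : ℚ) ≤ ((M : ℕ) - v' : ℚ) / W := Int.floor_le _
    have hWq : (0 : ℚ) < W := by exact_mod_cast hW
    have h7 : (M : ℚ) / W ≤ ((⌊((4 * M : ℕ) - v' : ℚ) / W⌋ - ⌊((M : ℕ) - v' : ℚ) / W⌋ : ℤ) : ℚ) := by
      push_cast at h5 h6 ⊢
      have h8 : (1 : ℚ) ≤ M / W := by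
        rw [le_div_iff₀ hWq, one_mul]
        have : W ≤ M := by omega
        exact_mod_cast this
      have h9 : (4 * (M : ℚ) - v') / W = 4 * (M / W) - v' / W := by ring
      have h10 : ((M : ℚ) - v') / W = (M / W) - v' / W := by ring
      rw [h9] at h5 ⊢
      rw [h10] at h6 ⊢
      linarith
    generalize (⌊((4 * M : ℕ) - v' : ℚ) / W⌋ - ⌊((M : ℕ) - v' : ℚ) / W⌋ : ℤ) = z at h7 ⊢
    have h11 := (Rat.cast_le (K := ℝ)).2 h7
    push_cast at h11
    exact h11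
  have hSpos : (0 : ℝ) < #S := lt_of_lt_of_le (by positivity) hcard
  refine ⟨M, by omega, fun n => if n ∈ S then 1 / (#S : ℝ) else 0, ?_, ?_, ?_, ?_⟩
  · intro n; dsimp only; split_ifs <;> positivity
  · intro n; dsimp only
    have hb : 1 / (#S : ℝ) ≤ (M : ℝ) ^ (ε - 1) := by
      rw [Real.rpow_sub_one hM'.ne']
      have h1 := hM₁ M (by omega)
      calc 1 / (#S : ℝ) ≤ 1 / ((M : ℝ) / W) := by
            apply one_div_le_one_div_of_le (by positivity) hcard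
        _ = W / M := by rw [one_div_div]
        _ ≤ _ := by
            apply div_le_div_of_nonneg_right h1 hM'.le
    split_ifs
    · exact hb
    · positivity
  · intro n hn
    dsimp only at hn
    have hnS : n ∈ S := by
      by_contra h; rw [if_neg h] at hn; exact hn rfl
    rw [hS, mem_filter] at hnS
    refine ⟨hnS.1, ?_, ?_⟩
    · exact (hnS.2.of_dvd hmW).trans hv'
    · intro e he
      exact comp_of hW (by omega : W ≤ M) (mem_Ioc.1 hnS.1).1 hnS.2 (hE e he)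
  · rw [← sum_filter]
    have : (Ioc M (4 * M)).filter (fun n => n ∈ S) = S := by
      ext n; rw [mem_filter]
      constructor
      · exact fun h => h.2
      · intro h
        refine ⟨?_, h⟩
        rw [hS, mem_filter] at h; exact h.1
    rw [this, sum_const, nsmul_eq_mul]
    field_simp

end Glob

open Glob in
open Classical in
theorem glob (h1 : StBV) (h2 : StLoc) (h3 : StPt) (h4 : StMod) : StG := by
  refine ⟨1 / 10 ^ 9, by positivity, KK, fun j => by unfold KK; positivity, ?_⟩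
  intro J H E m v N₀ ε hm hε hcard hdisj hdE hadm hcop
  rcases Nat.eq_zero_or_pos J with hJ | hJ
  · subst hJ
    obtain ⟨N, hN, u, u1, u2, u3, u4⟩ := case0 h4 E m v N₀ ε hm hε
    refine ⟨N, hN, u, u1, u2, u3, u4, ?_⟩
    intro j hj; exact absurd hj (Nat.not_lt_zero _)
  -- the index type
  obtain ⟨T, hT⟩ : ∃ T, T = (range J).biUnion H := ⟨_, rfl⟩
  have hTm : ∀ x, x ∈ T ↔ ∃ j < J, x ∈ H j := by
    intro x; rw [hT, mem_biUnion]; simp only [mem_range]
  have hgex : ∀ x : {x // x ∈ T}, ∃ j, j < J ∧ x.1 ∈ H j := fun x => by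
    obtain ⟨j, hj, hx⟩ := (hTm x.1).1 x.2
    exact ⟨j, hj, hx⟩
  choose grp hgrp1 hgrp2 using hgex
  have hguniq : ∀ (x : {x // x ∈ T}) (j : ℕ), j < J → x.1 ∈ H j → grp x = j := by
    intro x j hj hx
    by_contra hne
    exact (disjoint_left.1 (hdisj _ (hgrp1 x) j hj hne)) (hgrp2 x) hx
  obtain ⟨w, hw⟩ : ∃ w, w = 1000 * (Fintype.card {x // x ∈ T} + 1) ^ 2 + T.sup id + 1 := ⟨_, rfl⟩
  obtain ⟨W, v', hW, hWp, hmW, hv', hWv, hE⟩ := h4 T E m v w hm
    (by rw [hT, disjoint_biUnion_left]; intro j hj; exact hdE j (mem_range.1 hj))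
    (by intro h hh; obtain ⟨j, hj, hh2⟩ := (hTm h).1 hh; exact hcop j hj h hh2)
    (by
      intro p hp
      obtain ⟨r, hr⟩ := hadm p hp
      exact ⟨r, fun h hh => by obtain ⟨j, hj, hh2⟩ := (hTm h).1 hh; exact hr j hj h hh2⟩)
  have hfix : Fix (fun x : {x // x ∈ T} => x.1) grp J w W v' := by
    refine ⟨Subtype.val_injective, hgrp1, ?_, ?_, ?_, hW, hWp, ?_⟩
    · intro j hj
      have : #(univ.filter (fun h : {x // x ∈ T} => grp h = j)) = #(H j) := by
        apply card_bij (fun x _ => x.1)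
        · intro x hx
          rw [mem_filter] at hx
          rw [← hx.2]; exact hgrp2 x
        · intro x _ y _ hxy; exact Subtype.ext hxy
        · intro b hb
          refine ⟨⟨b, (hTm b).2 ⟨j, hj, hb⟩⟩, ?_, rfl⟩
          rw [mem_filter]
          exact ⟨mem_univ _, hguniq _ j hj hb⟩
      rw [this, hcard j hj]
    · intro h
      have : h.1 ≤ T.sup id := le_sup (f := id) h.2
      omega
    · omega
    · intro h; exact hWv h.1 h.2
  obtain ⟨M₁, hM₁⟩ := h2 _ _ grp J w W v' hfix hJ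
  obtain ⟨M₂, hM₂⟩ := h3 _ _ grp J w W v' hfix (ε / 2) (half_pos hε)
  obtain ⟨M₃, hM₃⟩ := logsq_le (ε / 2) (half_pos hε)
  obtain ⟨M, hM, Er, hE0, hE1, hE2⟩ := h1 ((Fintype.card {x // x ∈ T} + 1) ^ 2)
    (2 * Fintype.card {x // x ∈ T} + 10) (N₀ + M₁ + M₂ + M₃ + W + 3)
  obtain ⟨hL1, hL2⟩ := hM₁ M (by omega) Er hE0 hE1 hE2
  have hPt := hM₂ M (by omega)
  have hlog := hM₃ M (by omega)
  have hM0 : 0 < M := by omega
  have hM' : (0 : ℝ) < M := by exact_mod_cast hM0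
  have hM3 : (1 : ℝ) < M := by
    have : 1 < M := by omega
    exact_mod_cast this
  have hlogpos : 0 < Real.log M := Real.log_pos hM3
  obtain ⟨F, hF⟩ : ∃ F : ℕ → ℝ, F = fun n => tent M n * WT W M (fun x : {x // x ∈ T} => x.1) grp J n :=
    ⟨_, rfl⟩
  have hF' : ∀ n, tent M n * WT W M (fun x : {x // x ∈ T} => x.1) grp J n = F n := by
    intro n; rw [hF]
  simp only [hF'] at hL1 hL2
  obtain ⟨S1, hS1⟩ : ∃ S1, S1 = ∑ n ∈ (Ioc M (4 * M)).filter (fun n => n ≡ v' [MOD W]), F n :=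
    ⟨_, rfl⟩
  rw [← hS1] at hL1 hL2
  have hS1pos : 0 < S1 := lt_of_lt_of_le (by positivity) hL1
  have hF0 : ∀ n ∈ Ioc M (4 * M), 0 ≤ F n := by
    intro n hn; rw [← hF' n]
    exact mul_nonneg (tent_nonneg hM0 hn) (WT_nonneg _ _ _ _ _ _)
  refine ⟨M, by omega, fun n => if n ∈ (Ioc M (4 * M)).filter (fun n => n ≡ v' [MOD W]) then
    F n / S1 else 0, ?_, ?_, ?_, ?_, ?_⟩
  · intro n; dsimp only; split_ifs with h
    · rw [mem_filter] at h
      exact div_nonneg (hF0 n h.1) hS1pos.le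
    · exact le_refl _
  · intro n; dsimp only; split_ifs with h
    · rw [mem_filter] at h
      have hFn : F n ≤ (M : ℝ) ^ (ε / 2) := by
        rw [← hF' n]
        calc tent M n * WT W M (fun x : {x // x ∈ T} => x.1) grp J n ≤
              1 * WT W M (fun x : {x // x ∈ T} => x.1) grp J n :=
              mul_le_mul_of_nonneg_right (tent_le_one hM0 h.1) (WT_nonneg _ _ _ _ _ _)
          _ = _ := one_mul _
          _ ≤ _ := hPt n h.1
      have hsplit : (M : ℝ) ^ (ε - 1) = (M : ℝ) ^ (ε / 2) * (M : ℝ) ^ (ε / 2) / M := by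
        rw [Real.rpow_sub_one hM'.ne', ← Real.rpow_add hM']
        congr 2; ring
      rw [hsplit, div_le_div_iff₀ hS1pos hM']
      have hMS : (M : ℝ) ≤ S1 * Real.log M ^ 2 := by
        rw [div_le_iff₀ (by positivity)] at hL1
        exact hL1
      calc F n * M ≤ (M : ℝ) ^ (ε / 2) * (S1 * Real.log M ^ 2) :=
            mul_le_mul hFn hMS hM'.le (by positivity)
        _ ≤ (M : ℝ) ^ (ε / 2) * (S1 * (M : ℝ) ^ (ε / 2)) := by
            apply mul_le_mul_of_nonneg_left _ (by positivity)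
            exact mul_le_mul_of_nonneg_left hlog hS1pos.le
        _ = _ := by ring
    · positivity
  · intro n hn
    dsimp only at hn
    have hnS : n ∈ (Ioc M (4 * M)).filter (fun n => n ≡ v' [MOD W]) := by
      by_contra h; rw [if_neg h] at hn; exact hn rfl
    rw [mem_filter] at hnS
    refine ⟨hnS.1, (hnS.2.of_dvd hmW).trans hv', ?_⟩
    intro e he
    exact comp_of hW (by omega : W ≤ M) (mem_Ioc.1 hnS.1).1 hnS.2 (hE e he)
  · rw [← sum_filter, filter_mem_eq_inter, inter_eq_right.2 (filter_subset _ _), ← sum_div, ← hS1,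
      div_self hS1pos.ne']
  · intro j hj
    have h5 := hL2 j hj
    rw [← sum_filter]
    have h6 : ((Ioc M (4 * M)).filter (fun n => ∃ h ∈ H j, (n + h).Prime)).filter
        (fun n => n ∈ (Ioc M (4 * M)).filter (fun n => n ≡ v' [MOD W])) =
        (Ioc M (4 * M)).filter (fun n => n ≡ v' [MOD W] ∧
          ∃ h : {x // x ∈ T}, grp h = j ∧ (n + h.1).Prime) := by
      ext n
      simp only [mem_filter]
      constructor
      · rintro ⟨⟨a1, h, hh, hp⟩, -, a3⟩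
        exact ⟨a1, a3, ⟨h, (hTm h).2 ⟨j, hj, hh⟩⟩, hguniq _ j hj hh, hp⟩
      · rintro ⟨a1, a3, h, hh, hp⟩
        refine ⟨⟨a1, h.1, ?_, hp⟩, a1, a3⟩
        rw [← hh]; exact hgrp2 h
    rw [h6, ← sum_div, le_div_iff₀ hS1pos]
    exact h5

end Pool.Agent.Helper90.MT
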