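import Pool.Agent.Helper90.MT.Def2
import Pool.Agent.Helper90.MT.Main1
import Pool.Agent.Helper90.MT.Mil

/-!
Project MT, second theorem in quantitative form, with isolated patterns.
-/

set_option autoImplicit false

namespace Pool.Agent.Helper90.MT

open Finset Filter

open Classical in
/-- many isolated realisations -/
def RzN (f : ℕ → ℕ) (F : Finset ℕ) : Prop :=
  ∀ ε : ℝ, 0 < ε → ∀ x₀ : ℕ, ∃ x ≥ x₀,
    (x : ℝ) ^ (1 - ε) ≤ #((range x).filter (fun n => RlF f F n))

/-- the second theorem, quantitative form -/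
def StMil2 : Prop := ∀ f x : ℕ → ℕ, (∀ i, 0 < x i) → ∃ D : ℕ → Finset ℕ, Blk D ∧
  ∀ L : List (Finset ℕ), L.Pairwise Blt → (∀ F ∈ L, F.Nonempty) →
    RzN f (pos (fun i => ∑ a ∈ D i, x a) L)

/-- comparison of powers -/
theorem Mil2_pow (ε : ℝ) (hε : 0 < ε) (hε1 : ε ≤ 1) (c : ℕ) : ∃ N₁ : ℕ, ∀ N ≥ N₁,
    ((N + c : ℕ) : ℝ) ^ (1 - ε) ≤ (N : ℝ) ^ (1 - ε / 2) := by
  have h1 : Tendsto (fun N : ℕ => (N : ℝ) ^ (ε / 2)) atTop atTop :=
    (tendsto_rpow_atTop (by positivity)).comp tendsto_natCast_atTop_atTop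
  obtain ⟨N₁, hN₁⟩ := eventually_atTop.1 (h1.eventually_ge_atTop 2)
  refine ⟨max N₁ (c + 1), fun N hN => ?_⟩
  have hN1 := hN₁ N (le_trans (le_max_left _ _) hN)
  have hc : c + 1 ≤ N := le_trans (le_max_right _ _) hN
  have hN0 : (0 : ℝ) < N := by
    have : 0 < N := by omega
    exact_mod_cast this
  have h2 : ((N + c : ℕ) : ℝ) ≤ 2 * N := by
    have : N + c ≤ 2 * N := by omega
    exact_mod_cast this
  calc ((N + c : ℕ) : ℝ) ^ (1 - ε) ≤ (2 * N : ℝ) ^ (1 - ε) :=
        Real.rpow_le_rpow (by positivity) h2 (by linarith)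
    _ = 2 ^ (1 - ε) * (N : ℝ) ^ (1 - ε) := Real.mul_rpow (by norm_num) hN0.le
    _ ≤ 2 * (N : ℝ) ^ (1 - ε) := by
        refine mul_le_mul_of_nonneg_right ?_ (by positivity)
        calc (2 : ℝ) ^ (1 - ε) ≤ 2 ^ (1 : ℝ) :=
              Real.rpow_le_rpow_of_exponent_le (by norm_num) (by linarith)
          _ = 2 := Real.rpow_one 2
    _ ≤ (N : ℝ) ^ (ε / 2) * (N : ℝ) ^ (1 - ε) := by
        exact mul_le_mul_of_nonneg_right hN1 (by positivity)
    _ = (N : ℝ) ^ (1 - ε / 2) := by
        rw [← Real.rpow_add hN0]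
        congr 1
        ring

theorem mil2 (h1 : StSeg2) (h2 : StThin) (h3 : StGame) : StMil2 := by
  classical
  intro f x hx
  rcases h3 (fun s => RzN f (pos x s)) with ⟨D, hD, h⟩ | ⟨D, hD, h⟩
  · refine ⟨D, hD, fun L hL hL' => ?_⟩
    rw [Mil_pos hD]
    exact h L hL hL'
  exfalso
  set g : ℕ → ℕ := fun N => (range (N + 1)).sup f with hg
  have hgf : ∀ a b : ℕ, a ≤ b → f a ≤ g b := fun a b hab =>
    le_sup (f := f) (mem_range.2 (by omega))
  set y : ℕ → ℕ := fun j => ∑ a ∈ D j, x a with hy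
  have hy0 : ∀ j, 0 < y j := fun j => Finset.sum_pos (fun a _ => hx a) (hD.ne j)
  set b : ℕ → ℕ := fun i => ∑ j ∈ range i, y j with hb
  have hbs : StrictMono b := by
    refine strictMono_nat_of_lt_succ fun i => ?_
    simp only [hb]
    rw [Finset.sum_range_succ]
    have := hy0 i
    omega
  obtain ⟨A₁, hA₁, hA₁i, v, hv, hu₁⟩ := h2 (Set.range b)
    (Set.infinite_range_of_injective hbs.injective)
  obtain ⟨A', hA'₁, hA'i, hthin⟩ := exists_thin g A₁ hA₁i
  have hA' : A' ⊆ Set.range b := hA'₁.trans hA₁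
  have hu : Unt v A' := fun m hm a ha => hu₁ m hm a (hA'₁ ha)
  obtain ⟨Q, hQ, hQi, hQz⟩ := h1 g A' v hA'i hv hu hthin
  set e : ℕ → ℕ := Nat.nth (fun n => n ∈ Q) with he
  have hQi' : (Set.ofPred fun n => n ∈ Q).Infinite := hQi
  have hes : StrictMono e := Nat.nth_strictMono hQi'
  have heQ : ∀ t, e t ∈ Q := fun t => Nat.nth_mem_of_infinite hQi' t
  have hQe : ∀ q ∈ Q, ∃ t, e t = q := by
    intro q hq
    have hr := Nat.range_nth_of_infinite hQi'
    have hq' : q ∈ Set.range (Nat.nth fun n => n ∈ Q) := by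
      rw [hr]
      exact hq
    exact hq'
  have hi : ∀ t, ∃ i, b i = e t := fun t => hA' (hQ (heQ t))
  choose i hi using hi
  have his : StrictMono i := by
    refine strictMono_nat_of_lt_succ fun t => ?_
    have h4 := hes (Nat.lt_succ_self t)
    rw [← hi, ← hi] at h4
    exact hbs.lt_iff_lt.1 h4
  obtain ⟨k, hk⟩ := h i his
  apply hk
  set Lk := (List.range k).map (fun t => (Ico (i t) (i (t + 1))).biUnion D) with hLk
  -- the positions
  have hblock : ∀ t, ∑ a ∈ (Ico (i t) (i (t + 1))).biUnion D, x a + e t = e (t + 1) := by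
    intro t
    rw [Mil_sum_biUnion hD, ← hi, ← hi]
    simp only [hb]
    rw [add_comm]
    exact Finset.sum_range_add_sum_Ico _ (his.monotone (Nat.le_succ t))
  have hsum : ∀ s, s ≤ k → ((Lk.take s).map (fun E => ∑ a ∈ E, x a)).sum + e 0 = e s := by
    intro s
    induction s with
    | zero => intro _; simp
    | succ s ih =>
      intro hs
      have h5 := ih (by omega)
      have h6 : s < Lk.length := by
        rw [hLk, List.length_map, List.length_range]
        omega
      rw [List.take_succ_eq_append_getElem h6, List.map_append, List.sum_append]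
      have h7 : Lk[s] = (Ico (i s) (i (s + 1))).biUnion D := by
        simp [hLk]
      rw [h7, List.map_singleton, List.sum_singleton, add_right_comm, h5, add_comm]
      exact hblock s
  have hpos : ∀ j, j ∈ pos x Lk ↔ e 0 + j ∈ seg Q (e k + 1) := by
    intro j
    have hlen : Lk.length = k := by rw [hLk, List.length_map, List.length_range]
    rw [pos, mem_image, seg, mem_filter, mem_range, hlen]
    constructor
    · rintro ⟨s, hs, rfl⟩
      rw [mem_range, Nat.lt_succ_iff] at hs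
      have h5 := hsum s hs
      rw [add_comm] at h5
      rw [h5]
      exact ⟨Nat.lt_succ_of_le (hes.monotone hs), heQ s⟩
    · rintro ⟨h5, h6⟩
      obtain ⟨s, hs⟩ := hQe _ h6
      have h7 : s ≤ k := by
        by_contra hno
        have h8 := hes (not_le.1 hno)
        omega
      refine ⟨s, mem_range.2 (Nat.lt_succ_of_le h7), ?_⟩
      have h8 := hsum s h7
      omega
  have hek : e k ∈ seg Q (e k + 1) := by
    rw [seg, mem_filter, mem_range]
    exact ⟨Nat.lt_succ_self _, heQ k⟩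
  have hlow : ∀ q ∈ seg Q (e k + 1), e 0 ≤ q := by
    intro q hq
    rw [seg, mem_filter] at hq
    obtain ⟨s, hs⟩ := hQe q hq.2
    rw [← hs]
    exact hes.monotone (Nat.zero_le s)
  have hsupS : (seg Q (e k + 1)).sup id = e k := by
    refine le_antisymm (Finset.sup_le fun q hq => ?_) (le_sup (f := id) hek)
    rw [seg, mem_filter, mem_range] at hq
    exact Nat.lt_succ_iff.1 hq.1
  have he0k : e 0 ≤ e k := hes.monotone (Nat.zero_le k)
  have hsupP : (pos x Lk).sup id = e k - e 0 := by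
    refine le_antisymm (Finset.sup_le fun q hq => ?_) ?_
    · have h5 := (hpos q).1 hq
      rw [seg, mem_filter, mem_range] at h5
      simp only [id]
      omega
    · have : e k - e 0 ∈ pos x Lk := by
        rw [hpos, Nat.add_sub_cancel' he0k]
        exact hek
      exact le_sup (f := id) this
  have hz := hQz (e k + 1) ⟨_, hek⟩
  have hshift : ∀ n, RlF g (seg Q (e k + 1)) n → RlF f (pos x Lk) (n + e 0) := by
    intro n hn q hq1 hq2
    rw [hsupP] at hq1 hq2
    have h5 : f (e k - e 0) ≤ g (e k) := hgf _ _ (Nat.sub_le _ _)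
    rw [hn q (by rw [hsupS]; omega) (by rw [hsupS]; omega)]
    constructor
    · rintro ⟨j, hj, rfl⟩
      have h6 := hlow j hj
      exact ⟨j - e 0, by rw [hpos, Nat.add_sub_cancel' h6]; exact hj, by omega⟩
    · rintro ⟨j, hj, rfl⟩
      exact ⟨e 0 + j, (hpos j).1 hj, by omega⟩
  intro ε hε x₀
  obtain ⟨N₁, hN₁⟩ := Mil2_pow (min ε 1) (lt_min hε one_pos) (min_le_right _ _) (e 0)
  obtain ⟨X, hX, hX'⟩ := hz 1 one_pos (min ε 1 / 2) (half_pos (lt_min hε one_pos))
    (max x₀ (max N₁ 1))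
  refine ⟨X + e 0, by omega, ?_⟩
  have hX1 : 1 ≤ X := by omega
  have h4 : (#((range X).filter (fun n => n ≡ v 1 [MOD 1] ∧ RlF g (seg Q (e k + 1)) n)) : ℝ) ≤
      #((range (X + e 0)).filter (fun n => RlF f (pos x Lk) n)) := by
    norm_cast
    refine card_le_card_of_injOn (fun n => n + e 0) (fun n hn => ?_)
      (fun a _ b _ hab => Nat.add_right_cancel hab)
    rw [mem_coe, mem_filter, mem_range] at hn
    rw [mem_coe, mem_filter, mem_range]
    exact ⟨Nat.add_lt_add_right hn.1 _, hshift n hn.2.2⟩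
  calc ((X + e 0 : ℕ) : ℝ) ^ (1 - ε) ≤ ((X + e 0 : ℕ) : ℝ) ^ (1 - min ε 1) := by
        refine Real.rpow_le_rpow_of_exponent_le ?_ (by linarith [min_le_left ε 1])
        exact_mod_cast (by omega : 1 ≤ X + e 0)
    _ ≤ (X : ℝ) ^ (1 - min ε 1 / 2) := hN₁ X (by omega)
    _ ≤ _ := hX'
    _ ≤ _ := by convert h4

end Pool.Agent.Helper90.MT
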