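import Pool.Agent.Helper90.MT.Def

/-!
Project MT, second theorem (Milliken-Hindman form): definitions and statements.
-/

namespace Pool.Agent.Helper90.MT

open Finset Filter

/-- block order of finite sets -/
def Blt (E F : Finset ℕ) : Prop := ∀ a ∈ E, ∀ b ∈ F, a < b

/-- idempotent ultrafilter of finite sets going to infinity (union as operation) -/
structure Idem (U : Ultrafilter (Finset ℕ)) : Prop where
  far : ∀ n : ℕ, {D : Finset ℕ | D.Nonempty ∧ ∀ a ∈ D, n < a} ∈ U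
  idem : ∀ G ∈ U, {D : Finset ℕ | D ∈ G ∧ {D' : Finset ℕ | D ∪ D' ∈ G} ∈ U} ∈ U

/-- M1 -/
def StUlt : Prop := ∃ U : Ultrafilter (Finset ℕ), Idem U

/-- a block sequence -/
structure Blk (D : ℕ → Finset ℕ) : Prop where
  ne : ∀ i, (D i).Nonempty
  lt : ∀ i j, i < j → Blt (D i) (D j)

/-- M2: block sequences following a strategy -/
def StBS : Prop := ∀ U : Ultrafilter (Finset ℕ), Idem U →
  ∀ τ : List (Finset ℕ) → Set (Finset ℕ), (∀ s, τ s ∈ U) → ∃ D : ℕ → Finset ℕ, Blk D ∧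
  ∀ (L : List (Finset ℕ)) (E : Finset ℕ), (L ++ [E]).Pairwise Blt →
    (∀ F ∈ L ++ [E], F.Nonempty) → E.biUnion D ∈ τ (L.map (fun F => F.biUnion D))

/-- M3: dichotomy -/
def StGame : Prop := ∀ P : List (Finset ℕ) → Prop,
  (∃ D : ℕ → Finset ℕ, Blk D ∧ ∀ L : List (Finset ℕ), L.Pairwise Blt → (∀ F ∈ L, F.Nonempty) →
    P (L.map (fun F => F.biUnion D))) ∨
  (∃ D : ℕ → Finset ℕ, Blk D ∧ ∀ i : ℕ → ℕ, StrictMono i → ∃ k : ℕ,
    ¬ P ((List.range k).map (fun t => (Ico (i t) (i (t + 1))).biUnion D)))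

/-- positions `0, Σ_{E₁} y, Σ_{E₁} y + Σ_{E₂} y, ...` of the gap sequence of a list of finite
sets -/
def pos (y : ℕ → ℕ) (L : List (Finset ℕ)) : Finset ℕ :=
  (range (L.length + 1)).image (fun i => ((L.take i).map (fun E => ∑ a ∈ E, y a)).sum)

/-- M4: the second theorem -/
def StMil : Prop := ∀ x : ℕ → ℕ, (∀ i, 0 < x i) → ∃ D : ℕ → Finset ℕ, Blk D ∧
  ∀ L : List (Finset ℕ), L.Pairwise Blt → (∀ F ∈ L, F.Nonempty) →
    {n : ℕ | Rl (pos (fun i => ∑ a ∈ D i, x a) L) n}.Infinite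

end Pool.Agent.Helper90.MT
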