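import Pool.Agent.Helper90.MT.Def

/-!
Project MT, part S (sieve): definitions and statements.
Everything is finite; `α` is the (finite) index type of the sieving primes `pr : α → ℕ`,
`ι` the finite type of shifts `sh : ι → ℕ`, an assignment is a function `a : α → Option ι`.
-/

namespace Pool.Agent.Helper90.MT

open Finset

/-! ### local matrices -/

section Loc
variable {ι : Type} [DecidableEq ι]

/-- local matrix of the substitution `lam = T Y` -/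
noncomputable def TT (p : ℕ) : Option ι → Option ι → ℝ
  | none, none => 1
  | none, some _ => 1 / (p : ℝ)
  | some h, some h' => if h = h' then -1 else 0
  | some _, none => 0

/-- local densities of integers -/
noncomputable def MD (p : ℕ) : Option ι → Option ι → ℝ
  | none, none => 1
  | none, some _ => 1 / (p : ℝ)
  | some _, none => 1 / (p : ℝ)
  | some h, some h' => if h = h' then 1 / (p : ℝ) else 0

/-- local densities of the `n` with `n + m` prime -/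
noncomputable def MP (m : ι) (p : ℕ) : Option ι → Option ι → ℝ
  | none, none => 1
  | none, some h => if h = m then 0 else 1 / ((p : ℝ) - 1)
  | some h, none => if h = m then 0 else 1 / ((p : ℝ) - 1)
  | some h, some h' => if h = h' ∧ h ≠ m then 1 / ((p : ℝ) - 1) else 0

noncomputable def TP (m : ι) (p : ℕ) : Option ι → Option ι → ℝ
  | none, none => 1
  | none, some h => if h = m then 1 / (p : ℝ) else -(1 / ((p : ℝ) * ((p : ℝ) - 1)))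
  | some h, some h' => if h = h' ∧ h ≠ m then -1 else 0
  | some _, none => 0

/-- diagonal weights of the prime form -/
noncomputable def dP (m : ι) (K p : ℕ) : Option ι → ℝ
  | none => 1
  | some h => if h = m then 0 else ((p : ℝ) - K) / ((p : ℝ) - 1) ^ 2

end Loc

/-! ### assignments -/

section Asg
variable {α ι : Type} [Fintype α] [DecidableEq α] [Fintype ι] [DecidableEq ι]

/-- product of the assigned primes -/
def szA (pr : α → ℕ) (a : α → Option ι) : ℕ := ∏ i, if a i = none then 1 else pr i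

/-- product of the primes assigned to `h` -/
def prt (pr : α → ℕ) (a : α → Option ι) (h : ι) : ℕ := ∏ i, if a i = some h then pr i else 1

/-- product of the primes assigned in `b` or `b'` -/
def szU (pr : α → ℕ) (b b' : α → Option ι) : ℕ :=
  ∏ i, if b i = none ∧ b' i = none then 1 else pr i

noncomputable def lam (pr : α → ℕ) (Y : (α → Option ι) → ℝ) (b : α → Option ι) : ℝ :=
  ∑ a, (∏ i, TT (pr i) (b i) (a i)) * Y a

noncomputable def zz (pr : α → ℕ) (m : ι) (Y : (α → Option ι) → ℝ) (a : α → Option ι) : ℝ :=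
  ∑ c, (∏ i, TP m (pr i) (a i) (c i)) * Y c

/-- the congruence conditions of `b` hold at `n` -/
def mat (pr : α → ℕ) (sh : ι → ℕ) (b : α → Option ι) (n : ℕ) : Prop :=
  ∀ i h, b i = some h → pr i ∣ n + sh h

open Classical in
/-- the sieve weight -/
noncomputable def wt (pr : α → ℕ) (sh : ι → ℕ) (Y : (α → Option ι) → ℝ) (n : ℕ) : ℝ :=
  (∑ b, if mat pr sh b n then lam pr Y b else 0) ^ 2

open Classical in
/-- `VV D Y a = Σ_c (1/c) Y(a ∪ c)`, the new primes `c` being assigned to elements of `D` -/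
noncomputable def VV (pr : α → ℕ) (D : Finset ι) (Y : (α → Option ι) → ℝ) (a : α → Option ι) : ℝ :=
  ∑ c : α → Option ι,
    if ∀ i, (a i ≠ none → c i = a i) ∧ (a i = none → ∀ h, c i = some h → h ∈ D) then
      (∏ i, if a i = none ∧ c i ≠ none then 1 / (pr i : ℝ) else 1) * Y c else 0

/-- the squarefree products of sieving primes -/
def DD (pr : α → ℕ) : Finset ℕ := (univ : Finset α).powerset.image (fun s => ∏ i ∈ s, pr i)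

/-- all tuples of squarefree products of sieving primes (no coprimality between the entries) -/
def piDD (ι : Type) [Fintype ι] [DecidableEq ι] (pr : α → ℕ) : Finset (ι → ℕ) :=
  Fintype.piFinset (fun _ : ι => DD pr)

open Classical in
noncomputable def Full (pr : α → ℕ) (Yn : (ι → ℕ) → ℝ) (D : Finset ι) : ℝ :=
  ∑ x ∈ (piDD ι pr).filter (fun x => ∀ h ∈ D, x h = 1), (∏ h, (x h : ℝ))⁻¹ *
    (∑ c ∈ (piDD ι pr).filter (fun c => ∀ h, h ∉ D → c h = 1),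
      Yn (x * c) / ∏ h, (c h : ℝ)) ^ 2

end Asg

/-- antitone with respect to divisibility -/
def Anti {ι : Type} (Yn : (ι → ℕ) → ℝ) : Prop :=
  ∀ x y : ι → ℕ, (∀ h, x h ∣ y h) → (∀ h, 0 < y h) → Yn y ≤ Yn x

/-- equidistribution of the weight `η` -/
def EqD (N : Finset ℕ) (η : ℕ → ℝ) (X V : ℝ) : Prop :=
  ∀ q c : ℕ, 1 ≤ q → |∑ n ∈ N.filter (fun n => n ≡ c [MOD q]), η n - X / q| ≤ V

/-- standing assumptions on the sieving primes -/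
structure Ok {α ι : Type} (pr : α → ℕ) (sh : ι → ℕ) (K W v : ℕ) : Prop where
  prime : ∀ i, (pr i).Prime
  inj : Function.Injective pr
  large : ∀ i, 2 * K < pr i
  dist : ∀ i h h', h ≠ h' → ¬ sh h ≡ sh h' [MOD pr i]
  W0 : 0 < W
  cop : ∀ i, (pr i).Coprime W
  hv : ∀ h, (v + sh h).Coprime W

/-! ### statements -/

/-- S1 tensor lemma -/
def StTensor : Prop := ∀ (α κ : Type) [Fintype α] [DecidableEq α] [Fintype κ] [DecidableEq κ]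
  (A B : α → κ → κ → ℝ),
  (∀ i o o', A i o o' = A i o' o) → (∀ i o o', B i o o' = B i o' o) →
  (∀ i (v : κ → ℝ), 0 ≤ ∑ o, ∑ o', A i o o' * v o * v o') →
  (∀ i (v : κ → ℝ), ∑ o, ∑ o', A i o o' * v o * v o' ≤ ∑ o, ∑ o', B i o o' * v o * v o') →
  ∀ Y : (α → κ) → ℝ, ∑ a, ∑ b, (∏ i, A i (a i) (b i)) * Y a * Y b ≤
    ∑ a, ∑ b, (∏ i, B i (a i) (b i)) * Y a * Y b

/-- S2 change of variables -/
def StVar : Prop := ∀ (α κ : Type) [Fintype α] [DecidableEq α] [Fintype κ] [DecidableEq κ]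
  (M T : α → κ → κ → ℝ) (Y : (α → κ) → ℝ),
  ∑ b : α → κ, ∑ b' : α → κ, (∏ i, M i (b i) (b' i)) *
    (∑ a : α → κ, (∏ i, T i (b i) (a i)) * Y a) *
    (∑ a : α → κ, (∏ i, T i (b' i) (a i)) * Y a) =
  ∑ a : α → κ, ∑ a' : α → κ,
    (∏ i, ∑ o, ∑ o', M i o o' * T i o (a i) * T i o' (a' i)) * Y a * Y a'

/-- S3 local form of the integers -/
def StFormD : Prop := ∀ (ι : Type) [Fintype ι] [DecidableEq ι] (p : ℕ) (v : Option ι → ℝ),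
  0 < p → Fintype.card ι ≤ p →
  0 ≤ ∑ o, ∑ o', (∑ x, ∑ y, MD p x y * TT p x o * TT p y o') * v o * v o' ∧
  ∑ o, ∑ o', (∑ x, ∑ y, MD p x y * TT p x o * TT p y o') * v o * v o' ≤
    v none ^ 2 + (1 / (p : ℝ)) * ∑ h, v (some h) ^ 2

/-- S5 local form of the primes -/
def StFormP : Prop := ∀ (ι : Type) [Fintype ι] [DecidableEq ι] (m : ι) (p : ℕ)
  (v : Option ι → ℝ), 1 < p → Fintype.card ι ≤ p →
  ∑ o, dP m (Fintype.card ι) p o * (∑ o', TP m p o o' * v o') ^ 2 ≤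
    ∑ o, ∑ o', (∑ x, ∑ y, MP m p x y * TT p x o * TT p y o') * v o * v o'

/-- global form, integers -/
def StQD : Prop := ∀ (α ι : Type) [Fintype α] [DecidableEq α] [Fintype ι] [DecidableEq ι]
  (pr : α → ℕ) (Y : (α → Option ι) → ℝ), (∀ i, 0 < pr i) → (∀ i, Fintype.card ι ≤ pr i) →
  ∑ b, ∑ b', (∏ i, MD (pr i) (b i) (b' i)) * lam pr Y b * lam pr Y b' ≤
    ∑ a, Y a ^ 2 / szA pr a

/-- global form, primes -/
def StQP : Prop := ∀ (α ι : Type) [Fintype α] [DecidableEq α] [Fintype ι] [DecidableEq ι]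
  (pr : α → ℕ) (m : ι) (Y : (α → Option ι) → ℝ), (∀ i, 1 < pr i) →
  (∀ i, Fintype.card ι ≤ pr i) →
  ∑ a, (∏ i, dP m (Fintype.card ι) (pr i) (a i)) * zz pr m Y a ^ 2 ≤
  ∑ b, ∑ b', (∏ i, MP m (pr i) (b i) (b' i)) * lam pr Y b * lam pr Y b'

/-- S4 counting, integers -/
def StCntD : Prop := ∀ (α ι : Type) [Fintype α] [DecidableEq α] [Fintype ι] [DecidableEq ι]
  (pr : α → ℕ) (sh : ι → ℕ) (K W v : ℕ) (b b' : α → Option ι) (N : Finset ℕ) (η : ℕ → ℝ)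
  (X V : ℝ), Ok pr sh K W v → 0 ≤ V → EqD N η X V →
  (open Classical in
  |∑ n ∈ N.filter (fun n => n ≡ v [MOD W] ∧ mat pr sh b n ∧ mat pr sh b' n), η n -
    X / W * ∏ i, MD (pr i) (b i) (b' i)| ≤ V)

/-- S5 counting, primes -/
def StCntP : Prop := ∀ (α ι : Type) [Fintype α] [DecidableEq α] [Fintype ι] [DecidableEq ι]
  (pr : α → ℕ) (sh : ι → ℕ) (K W v : ℕ) (m : ι) (b b' : α → Option ι) (M Qm : ℕ)
  (f E : ℕ → ℝ) (X : ℝ), Ok pr sh K W v → (∀ q, 0 ≤ E q) →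
  (∀ n, f n ≠ 0 → n.Prime ∧ n ∈ Ioc M (4 * M) ∧ ∀ i, pr i < n) → sh m ≤ M →
  (∀ q a : ℕ, 1 ≤ q → q ≤ Qm → a.Coprime q →
    |∑ n ∈ (Ioc M (4 * M)).filter (fun n => n ≡ a [MOD q]), f n - X / q.totient| ≤ E q) →
  W * szU pr b b' ≤ Qm →
  (open Classical in
  |∑ n ∈ (range (4 * M + 1)).filter (fun n => n ≡ v [MOD W] ∧ mat pr sh b n ∧ mat pr sh b' n),
    f (n + sh m) - X / W.totient * ∏ i, MP m (pr i) (b i) (b' i)| ≤ E (W * szU pr b b'))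

/-- S4 assembled -/
def StS1 : Prop := ∀ (α ι : Type) [Fintype α] [DecidableEq α] [Fintype ι] [DecidableEq ι]
  (pr : α → ℕ) (sh : ι → ℕ) (W v : ℕ) (Y : (α → Option ι) → ℝ) (N : Finset ℕ) (η : ℕ → ℝ)
  (X V : ℝ), Ok pr sh (Fintype.card ι) W v → 0 ≤ X → 0 ≤ V → EqD N η X V →
  ∑ n ∈ N.filter (fun n => n ≡ v [MOD W]), η n * wt pr sh Y n ≤
    X / W * ∑ a, Y a ^ 2 / szA pr a + V * (∑ b, |lam pr Y b|) ^ 2

/-- S5 assembled -/
def StS2 : Prop := ∀ (α ι : Type) [Fintype α] [DecidableEq α] [Fintype ι] [DecidableEq ι]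
  (pr : α → ℕ) (sh : ι → ℕ) (W v : ℕ) (m : ι) (Y : (α → Option ι) → ℝ) (M Qm : ℕ)
  (f E : ℕ → ℝ) (X : ℝ), Ok pr sh (Fintype.card ι) W v → 0 ≤ X → (∀ q, 0 ≤ E q) →
  (∀ n, f n ≠ 0 → n.Prime ∧ n ∈ Ioc M (4 * M) ∧ ∀ i, pr i < n) → sh m ≤ M →
  (∀ q a : ℕ, 1 ≤ q → q ≤ Qm → a.Coprime q →
    |∑ n ∈ (Ioc M (4 * M)).filter (fun n => n ≡ a [MOD q]), f n - X / q.totient| ≤ E q) →
  (∀ b b', lam pr Y b ≠ 0 → lam pr Y b' ≠ 0 → W * szU pr b b' ≤ Qm) →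
  X / W.totient * ∑ a, (∏ i, dP m (Fintype.card ι) (pr i) (a i)) * zz pr m Y a ^ 2 -
    ∑ b, ∑ b', |lam pr Y b| * |lam pr Y b'| * E (W * szU pr b b') ≤
  ∑ n ∈ (range (4 * M + 1)).filter (fun n => n ≡ v [MOD W]), f (n + sh m) * wt pr sh Y n

/-- S6: lower bound for `zz` -/
def StZ : Prop := ∀ (α ι : Type) [Fintype α] [DecidableEq α] [Fintype ι] [DecidableEq ι]
  (pr : α → ℕ) (m : ι) (Y : (α → Option ι) → ℝ) (a : α → Option ι), (∀ i, 1 < pr i) →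
  (∀ c, 0 ≤ Y c) → (∀ c c', (∀ i, c i ≠ none → c' i = c i) → Y c' ≤ Y c) →
  (∀ i, a i ≠ some m) →
  (2 - ∏ i, (1 + (Fintype.card ι : ℝ) / ((pr i : ℝ) * ((pr i : ℝ) - 1)))) * VV pr {m} Y a ≤
    |zz pr m Y a|

/-- S8: from assignments to tuples, lower bound -/
def StLow : Prop := ∀ (α ι : Type) [Fintype α] [DecidableEq α] [Fintype ι] [DecidableEq ι]
  (pr : α → ℕ) (m : ι) (Yn : (ι → ℕ) → ℝ), (∀ i, (pr i).Prime) → Function.Injective pr →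
  (∀ i, 2 * Fintype.card ι < pr i) → (∀ x, 0 ≤ Yn x) → Anti Yn →
  (1 - 2 * ((Fintype.card ι : ℝ) + 1) ^ 2 * ∑ i, 1 / (pr i : ℝ) ^ 2) * Full pr Yn {m} ≤
  ∑ a, (∏ i, dP m (Fintype.card ι) (pr i) (a i)) * VV pr {m} (fun a => Yn (prt pr a)) a ^ 2

/-- S7 loss lemma, pairs -/
def StLossP : Prop := ∀ (α κ : Type) [Fintype α] [DecidableEq α] [Fintype κ] [DecidableEq κ]
  (pr : α → ℕ) (F : (κ → ℕ) → ℝ) (i : α) (h h' : κ), (∀ i, (pr i).Prime) →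
  Function.Injective pr → (∀ x, 0 ≤ F x) → Anti F → h ≠ h' →
  ∑ x ∈ (piDD κ pr).filter (fun x => pr i ∣ x h ∧ pr i ∣ x h'), F x / ∏ l, (x l : ℝ) ≤
    1 / (pr i : ℝ) ^ 2 * ∑ x ∈ piDD κ pr, F x / ∏ l, (x l : ℝ)

/-- S7 loss lemma, one entry -/
def StLossO : Prop := ∀ (α κ : Type) [Fintype α] [DecidableEq α] [Fintype κ] [DecidableEq κ]
  (pr : α → ℕ) (F : (κ → ℕ) → ℝ) (i : α) (h : κ), (∀ i, (pr i).Prime) →
  Function.Injective pr → (∀ x, 0 ≤ F x) → Anti F →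
  ∑ x ∈ (piDD κ pr).filter (fun x => pr i ∣ x h), F x / ∏ l, (x l : ℝ) ≤
    1 / (pr i : ℝ) * ∑ x ∈ piDD κ pr, F x / ∏ l, (x l : ℝ)

/-- S7 gain lemma -/
def StGain : Prop := ∀ (α κ : Type) [Fintype α] [DecidableEq α] [Fintype κ] [DecidableEq κ]
  (pr : α → ℕ) (F : (κ → ℕ) → ℝ), (∀ i, (pr i).Prime) →
  Function.Injective pr → (∀ x, 0 ≤ F x) → Anti F →
  ∑ x ∈ piDD κ pr, (∏ l, ∏ i, if pr i ∣ x l then 1 + 3 / (pr i : ℝ) else 1) *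
      (F x / ∏ l, (x l : ℝ)) ≤
    Real.exp (3 * Fintype.card κ * ∑ i, 1 / (pr i : ℝ) ^ 2) * ∑ x ∈ piDD κ pr, F x / ∏ l, (x l : ℝ)

/-- the part of an assignment with values outside `D` -/
def offD {α ι : Type} [DecidableEq ι] (D : Finset ι) (e : α → Option ι) : α → Option ι := fun i =>
  match e i with
  | none => none
  | some h => if h ∈ D then none else some h

/-- `a` has no value in `D` -/
def Avd {α ι : Type} (D : Finset ι) (a : α → Option ι) : Prop := ∀ i, ∀ h ∈ D, a i ≠ some h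

open Classical in
/-- normalising sum -/
noncomputable def HH {α ι : Type} [Fintype α] [DecidableEq α] [Fintype ι] [DecidableEq ι]
    (pr : α → ℕ) (D : Finset ι) (R' : ℝ) (a : α → Option ι) : ℝ :=
  ∑ c : α → Option ι, if (∀ i, c i ≠ none → a i = none ∧ ∃ h ∈ D, c i = some h) ∧
    (∀ h ∈ D, (prt pr c h : ℝ) ≤ R') then 1 / (szA pr c : ℝ) else 0

open Classical in
/-- the modified function for the upper bound -/
noncomputable def Ytil {α ι : Type} [Fintype α] [DecidableEq α] [Fintype ι] [DecidableEq ι]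
    (pr : α → ℕ) (D : Finset ι) (R' : ℝ) (Y : (α → Option ι) → ℝ) (e : α → Option ι) : ℝ :=
  if ∀ h ∈ D, (prt pr e h : ℝ) ≤ R' then VV pr D Y (offD D e) / HH pr D R' (offD D e) else 0

/-- S9a -/
def StTil1 : Prop := ∀ (α ι : Type) [Fintype α] [DecidableEq α] [Fintype ι] [DecidableEq ι]
  (pr : α → ℕ) (D : Finset ι) (R' : ℝ) (Y : (α → Option ι) → ℝ) (b : α → Option ι),
  (∀ i, 0 < pr i) → 1 ≤ R' → Avd D b → lam pr (Ytil pr D R' Y) b = lam pr Y b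

open Classical in
/-- S9b -/
def StTil2 : Prop := ∀ (α ι : Type) [Fintype α] [DecidableEq α] [Fintype ι] [DecidableEq ι]
  (pr : α → ℕ) (D : Finset ι) (R' : ℝ) (Y : (α → Option ι) → ℝ),
  (∀ i, 0 < pr i) → 1 ≤ R' →
  ∑ e, Ytil pr D R' Y e ^ 2 / szA pr e =
    ∑ a ∈ univ.filter (fun a : α → Option ι => Avd D a),
      VV pr D Y a ^ 2 / (HH pr D R' a * szA pr a)

/-- S9c -/
def StTil3 : Prop := ∀ (α ι : Type) [Fintype α] [DecidableEq α] [Fintype ι] [DecidableEq ι]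
  (pr : α → ℕ) (D : Finset ι) (R' Z : ℝ) (Y : (α → Option ι) → ℝ),
  (∀ i, (pr i).Prime) → Function.Injective pr → #D ≤ 2 → 1 ≤ R' → 1 ≤ Z →
  (∀ a, 0 ≤ Y a) → (∀ a, Y a ≤ 1) → (∀ a, Y a ≠ 0 → (szA pr a : ℝ) ≤ Z) →
  (∀ e, 0 ≤ Ytil pr D R' Y e) ∧ (∀ e, Ytil pr D R' Y e ≤ (1 + Real.log Z) ^ 2) ∧
  (∀ e, Ytil pr D R' Y e ≠ 0 → (szA pr e : ℝ) ≤ Z * R' ^ 2)

open Classical in
/-- S9d: lower bound of the normalising sum -/
def StHlow : Prop := ∀ (α ι : Type) [Fintype α] [DecidableEq α] [Fintype ι] [DecidableEq ι]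
  (pr : α → ℕ) (D : Finset ι) (R' : ℝ) (a : α → Option ι),
  (∀ i, (pr i).Prime) → Function.Injective pr → #D ≤ 2 → 1 ≤ R' →
  (1 - ∑ i, 1 / (pr i : ℝ) ^ 2) *
    (∑ d ∈ (DD pr).filter (fun d : ℕ => (d : ℝ) ≤ R'), 1 / (d : ℝ)) ^ #D ≤
  HH pr D R' a * ∏ i, (if a i = none then 1 else (1 + 1 / (pr i : ℝ)) ^ #D)

open Classical in
/-- S9e: from assignments to tuples, upper bound -/
def StUpp : Prop := ∀ (α ι : Type) [Fintype α] [DecidableEq α] [Fintype ι] [DecidableEq ι]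
  (pr : α → ℕ) (D : Finset ι) (Yn : (ι → ℕ) → ℝ), (∀ i, (pr i).Prime) →
  Function.Injective pr → #D ≤ 2 → (∀ x, 0 ≤ Yn x) → Anti Yn →
  ∑ a ∈ univ.filter (fun a : α → Option ι => Avd D a),
    (∏ i, (if a i = none then 1 else (1 + 1 / (pr i : ℝ)) ^ #D)) *
      (VV pr D (fun a => Yn (prt pr a)) a ^ 2 / szA pr a) ≤
  Real.exp (3 * Fintype.card ι * ∑ i, 1 / (pr i : ℝ) ^ 2) * Full pr Yn D

/-- S9: upper bound with primes at the positions `D` -/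
def StS9 : Prop := ∀ (α ι : Type) [Fintype α] [DecidableEq α] [Fintype ι] [DecidableEq ι]
  (pr : α → ℕ) (sh : ι → ℕ) (W v : ℕ) (D : Finset ι) (Yn : (ι → ℕ) → ℝ) (N : Finset ℕ)
  (η : ℕ → ℝ) (X V Z R' : ℝ), Ok pr sh (Fintype.card ι) W v → #D ≤ 2 → 0 ≤ X → 0 ≤ V →
  EqD N η X V → (∀ n, 0 ≤ η n) → (∀ x, 0 ≤ Yn x) → (∀ x, Yn x ≤ 1) → Anti Yn → 1 ≤ R' → 1 ≤ Z →
  (∀ x ∈ piDD ι pr, Yn x ≠ 0 → ∏ h, (x h : ℝ) ≤ Z) → ∑ i, 1 / (pr i : ℝ) ^ 2 ≤ 1 / 8 →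
  (open Classical in
  ∑ n ∈ N.filter (fun n => n ≡ v [MOD W] ∧ ∀ h ∈ D, ∀ i, ¬ pr i ∣ n + sh h),
      η n * wt pr sh (fun a => Yn (prt pr a)) n ≤
    X / W * (Real.exp ((3 * Fintype.card ι + 8) * ∑ i, 1 / (pr i : ℝ) ^ 2) *
      ((∑ d ∈ (DD pr).filter (fun d : ℕ => (d : ℝ) ≤ R'), 1 / (d : ℝ)) ^ #D)⁻¹ * Full pr Yn D) +
    V * ((Z * R' ^ 2) * (1 + Real.log (Z * R' ^ 2)) ^ (2 * Fintype.card ι + 2)) ^ 2)

/-- S10 -/
def StLam : Prop := ∀ (α ι : Type) [Fintype α] [DecidableEq α] [Fintype ι] [DecidableEq ι]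
  (pr : α → ℕ) (Y : (α → Option ι) → ℝ) (B Z : ℝ), (∀ i, (pr i).Prime) →
  Function.Injective pr → 1 ≤ Z → (∀ a, 0 ≤ Y a) → (∀ a, Y a ≤ B) →
  (∀ a, Y a ≠ 0 → (szA pr a : ℝ) ≤ Z) →
  (∀ b, |lam pr Y b| ≤ B * (1 + Real.log Z) ^ Fintype.card ι) ∧
  (∀ b, lam pr Y b ≠ 0 → (szA pr b : ℝ) ≤ Z) ∧
  ∑ b, |lam pr Y b| ≤ B * Z * (1 + Real.log Z) ^ (2 * Fintype.card ι)

/-- S10, pairs -/
def StPairs : Prop := ∀ (α ι : Type) [Fintype α] [DecidableEq α] [Fintype ι] [DecidableEq ι]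
  (pr : α → ℕ) (lm : (α → Option ι) → ℝ) (B Z : ℝ) (W Q : ℕ) (E : ℕ → ℝ), (∀ i, (pr i).Prime) →
  Function.Injective pr → 0 < W → (∀ b, |lm b| ≤ B) → (∀ b, lm b ≠ 0 → (szA pr b : ℝ) ≤ Z) →
  W * Z ^ 2 ≤ Q → (∀ q, 0 ≤ E q) →
  ∑ b, ∑ b', |lm b| * |lm b'| * E (W * szU pr b b') ≤
    B ^ 2 * ∑ q ∈ Icc 1 Q, (((Fintype.card ι + 1) ^ 2 : ℕ) : ℝ) ^ q.primeFactors.card * E q

/-! ### choice of `Y` -/

section Yg
variable {ι : Type} [Fintype ι] [DecidableEq ι]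

open Classical in
/-- product weight with groups -/
noncomputable def Yg (grp : ι → ℕ) (J : ℕ) (Rb : ℕ → ℝ) (g : ℕ → ℕ → ℝ) (x : ι → ℕ) : ℝ :=
  (∏ j ∈ range J, if (∏ h ∈ univ.filter (fun h => grp h = j), (x h : ℝ)) ≤ Rb j then 1 else 0) *
    ∏ h, g (grp h) (x h)

/-- admissible profile functions -/
structure OkG (J : ℕ) (Rb : ℕ → ℝ) (g : ℕ → ℕ → ℝ) : Prop where
  nonneg : ∀ j d, 0 ≤ g j d
  le_one : ∀ j d, g j d ≤ 1
  one : ∀ j, g j 1 = 1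
  anti : ∀ j a b, 0 < a → a ≤ b → g j b ≤ g j a
  hRb : ∀ j, 1 < Rb j

variable {α : Type} [Fintype α] [DecidableEq α]

open Classical in
/-- common factor of the groups other than `j` -/
noncomputable def TJ (pr : α → ℕ) (grp : ι → ℕ) (Yn : (ι → ℕ) → ℝ) (j : ℕ) : ℝ :=
  ∑ x ∈ (piDD ι pr).filter (fun x => ∀ h, grp h = j → x h = 1), (∏ h, (x h : ℝ))⁻¹ * Yn x ^ 2

open Classical in
/-- contribution of the group `j` -/
noncomputable def FG (pr : α → ℕ) (grp : ι → ℕ) (Yn : (ι → ℕ) → ℝ) (j : ℕ) (D : Finset ι) : ℝ :=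
  ∑ x ∈ (piDD ι pr).filter (fun x => (∀ h, grp h ≠ j → x h = 1) ∧ ∀ h ∈ D, x h = 1),
    (∏ h, (x h : ℝ))⁻¹ *
    (∑ c ∈ (piDD ι pr).filter (fun c => ∀ h, h ∉ D → c h = 1),
      Yn (x * c) / ∏ h, (c h : ℝ)) ^ 2

/-- sums of a profile -/
noncomputable def G1 (pr : α → ℕ) (g : ℕ → ℝ) : ℝ := ∑ d ∈ DD pr, g d / d
noncomputable def G2 (pr : α → ℕ) (g : ℕ → ℝ) : ℝ := ∑ d ∈ DD pr, g d ^ 2 / d
noncomputable def E1 (pr : α → ℕ) (g : ℕ → ℝ) : ℝ := ∑ d ∈ DD pr, g d * Real.log d / d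
noncomputable def E2 (pr : α → ℕ) (g : ℕ → ℝ) : ℝ := ∑ d ∈ DD pr, g d ^ 2 * Real.log d / d

end Yg

/-- S11 basic properties of `Yg` -/
def StYg : Prop := ∀ (ι : Type) [Fintype ι] [DecidableEq ι] (grp : ι → ℕ) (J : ℕ) (Rb : ℕ → ℝ)
  (g : ℕ → ℕ → ℝ), OkG J Rb g → (∀ h, grp h < J) →
  (∀ x, 0 ≤ Yg grp J Rb g x) ∧ (∀ x, Yg grp J Rb g x ≤ 1) ∧ Anti (Yg grp J Rb g) ∧
  (∀ x, Yg grp J Rb g x ≠ 0 → ∏ h, (x h : ℝ) ≤ ∏ j ∈ range J, Rb j)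

/-- S11 factorisation -/
def StFac : Prop := ∀ (α ι : Type) [Fintype α] [DecidableEq α] [Fintype ι] [DecidableEq ι]
  (pr : α → ℕ) (grp : ι → ℕ) (J : ℕ) (Rb : ℕ → ℝ) (g : ℕ → ℕ → ℝ) (j : ℕ) (D : Finset ι),
  (∀ i, (pr i).Prime) → Function.Injective pr → OkG J Rb g → (∀ h, grp h < J) → j < J →
  (∀ h ∈ D, grp h = j) →
  Full pr (Yg grp J Rb g) D = TJ pr grp (Yg grp J Rb g) j * FG pr grp (Yg grp J Rb g) j D

/-- S11 upper bound for a group -/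
def StGU : Prop := ∀ (α ι : Type) [Fintype α] [DecidableEq α] [Fintype ι] [DecidableEq ι]
  (pr : α → ℕ) (grp : ι → ℕ) (J : ℕ) (Rb : ℕ → ℝ) (g : ℕ → ℕ → ℝ) (j : ℕ) (D : Finset ι),
  (∀ i, (pr i).Prime) → Function.Injective pr → OkG J Rb g → (∀ h, grp h < J) → j < J →
  (∀ h ∈ D, grp h = j) →
  FG pr grp (Yg grp J Rb g) j D ≤
    G1 pr (g j) ^ (2 * #D) * G2 pr (g j) ^ (#(univ.filter (fun h => grp h = j)) - #D)

/-- S11 lower bound for a group (Markov) -/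
def StGL : Prop := ∀ (α ι : Type) [Fintype α] [DecidableEq α] [Fintype ι] [DecidableEq ι]
  (pr : α → ℕ) (grp : ι → ℕ) (J : ℕ) (Rb : ℕ → ℝ) (g : ℕ → ℕ → ℝ) (j : ℕ) (m : ι),
  (∀ i, (pr i).Prime) → Function.Injective pr → OkG J Rb g → (∀ h, grp h < J) → j < J →
  grp m = j →
  G1 pr (g j) ^ 2 * G2 pr (g j) ^ (#(univ.filter (fun h => grp h = j)) - 1) *
    (1 - 2 * (E1 pr (g j) / G1 pr (g j) +
      (#(univ.filter (fun h => grp h = j)) - 1 : ℝ) * (E2 pr (g j) / G2 pr (g j))) /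
      Real.log (Rb j)) ≤
  FG pr grp (Yg grp J Rb g) j {m}

open Classical in
/-- S12: squarefree numbers prime to `W` -/
noncomputable def SW (W : ℕ) (z : ℝ) : ℝ :=
  ∑ d ∈ (Icc 1 ⌊z⌋₊).filter (fun d => Squarefree d ∧ d.Coprime W), 1 / (d : ℝ)

def StSW : Prop := ∀ W : ℕ, 0 < W → ∃ c C : ℝ, 0 < c ∧ (W.totient : ℝ) / (2 * W) ≤ c ∧
  ∀ z : ℝ, 1 ≤ z → |SW W z - c * Real.log z| ≤ C

open Classical in
/-- the step profile -/
noncomputable def gs (ρ : ℝ) (L d : ℕ) : ℝ :=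
  ∑ i ∈ range L, (1 / 2 : ℝ) ^ (i + 1) * (if (d : ℝ) ≤ Real.exp (2 ^ i * ρ) then 1 else 0) +
    (1 / 2 : ℝ) ^ L * (if (d : ℝ) ≤ Real.exp (2 ^ L * ρ) then 1 else 0)

open Classical in
/-- the sieving primes for `W` and `M` -/
noncomputable def PP (W M : ℕ) : Finset ℕ :=
  (range (M + 1)).filter (fun p => p.Prime ∧ p ^ 30 ≤ M ∧ ¬ p ∣ W)

/-- the sieving primes as a family -/
noncomputable def pp (W M : ℕ) : PP W M → ℕ := fun i => (i : ℕ)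

/-- S12: sums over `DD` below `M^(1/30)` -/
def StDD : Prop := ∀ (W M : ℕ) (z : ℝ), 0 < W → 1 ≤ z → z ^ 30 ≤ M →
  ∑ d ∈ (DD (pp W M)).filter (fun d : ℕ => (d : ℝ) ≤ z), 1 / (d : ℝ) = SW W z

/-- S12: numerics of the step profile -/
def StNum : Prop := ∀ (W M : ℕ) (c C ρ : ℝ) (L : ℕ), 0 < W → 0 < c → 0 < ρ →
  (∀ z : ℝ, 1 ≤ z → |SW W z - c * Real.log z| ≤ C) → 20 * C ≤ c * ρ →
  Real.exp (2 ^ L * ρ) ^ 30 ≤ M →
  (95 / 100) * c * ρ * (1 + L / 2) ≤ G1 (pp W M) (gs ρ L) ∧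
  G2 (pp W M) (gs ρ L) ≤ (158 / 100) * c * ρ ∧ (95 / 100) * c * ρ ≤ G2 (pp W M) (gs ρ L) ∧
  E1 (pp W M) (gs ρ L) / G1 (pp W M) (gs ρ L) +
    (2 ^ L - 1) * (E2 (pp W M) (gs ρ L) / G2 (pp W M) (gs ρ L)) ≤ (31 / 10) * ρ * 2 ^ L * (1 + L)

/-! ### final choice -/

/-- group sizes -/
def LL (j : ℕ) : ℕ := 300 * 2 ^ j
def KK (j : ℕ) : ℕ := 2 ^ LL j

noncomputable def Rbb (M j : ℕ) : ℝ := (M : ℝ) ^ ((1 : ℝ) / (30 * 2 ^ (j + 1)))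
noncomputable def rho (M j : ℕ) : ℝ := Real.log (Rbb M j) / (16 * KK j * (1 + LL j))
noncomputable def gg (M j d : ℕ) : ℝ := gs (rho M j) (LL j) d

/-- the final sieve weight -/
noncomputable def WT {ι : Type} [Fintype ι] [DecidableEq ι] (W M : ℕ) (sh grp : ι → ℕ) (J n : ℕ) :
    ℝ :=
  wt (pp W M) sh (fun a => Yg grp J (Rbb M) (gg M) (prt (pp W M) a)) n

/-- fixed data of the sieve -/
structure Fix {ι : Type} [Fintype ι] (sh grp : ι → ℕ) (J w W v : ℕ) : Prop where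
  inj : Function.Injective sh
  hgrp : ∀ h, grp h < J
  card : ∀ j < J, #(univ.filter (fun h => grp h = j)) = KK j
  lt : ∀ h, sh h < w
  hw : 1000 * (Fintype.card ι + 1) ^ 2 ≤ w
  W0 : 0 < W
  div : ∀ p : ℕ, p.Prime → p ≤ w → p ∣ W
  hv : ∀ h, (v + sh h).Coprime W

/-! ### abbreviations for the local theorem -/

noncomputable def Tj {ι : Type} [Fintype ι] [DecidableEq ι] (W M : ℕ) (grp : ι → ℕ) (J j : ℕ) : ℝ :=
  TJ (pp W M) grp (Yg grp J (Rbb M) (gg M)) j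
noncomputable def g1 (W M j : ℕ) : ℝ := G1 (pp W M) (gg M j)
noncomputable def g2 (W M j : ℕ) : ℝ := G2 (pp W M) (gg M j)
noncomputable def Sp (W M : ℕ) : ℝ := SW W ((M : ℝ) ^ ((1 : ℝ) / 30))

/-- L0: positivity of the parameters -/
def StL0 : Prop := ∀ (ι : Type) [Fintype ι] [DecidableEq ι] (sh grp : ι → ℕ) (J w W v : ℕ),
  Fix sh grp J w W v → ∃ M₁ : ℕ, ∀ M ≥ M₁, OkG J (Rbb M) (gg M) ∧
  Ok (pp W M) sh (Fintype.card ι) W v ∧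
  (∏ j ∈ range J, Rbb M j ≤ (M : ℝ) ^ ((1 : ℝ) / 30)) ∧
  ∑ i, 1 / (pp W M i : ℝ) ^ 2 ≤ 1 / (1000 * ((Fintype.card ι : ℝ) + 1) ^ 2) ∧
  (∀ j, 1 ≤ Tj W M grp J j) ∧ (∀ j, 1 ≤ g1 W M j) ∧ (∀ j, 1 ≤ g2 W M j)

open Classical in
/-- L1: upper bounds, `D` = positions of primes (`D = ∅` gives the total mass) -/
def StL1 : Prop := ∀ (ι : Type) [Fintype ι] [DecidableEq ι] (sh grp : ι → ℕ) (J w W v : ℕ),
  Fix sh grp J w W v → ∃ M₁ : ℕ, ∀ M ≥ M₁, ∀ j < J, ∀ D : Finset ι, (∀ h ∈ D, grp h = j) →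
  #D ≤ 2 →
  ∑ n ∈ (Ioc M (4 * M)).filter (fun n => n ≡ v [MOD W] ∧ ∀ h ∈ D, (n + sh h).Prime),
    tent M n * WT W M sh grp J n ≤
  (102 / 100) * (X0 M / W) * ((Sp W M) ^ #D)⁻¹ * Tj W M grp J j * g1 W M j ^ (2 * #D) *
    g2 W M j ^ (KK j - #D)

open Classical in
/-- L2: lower bounds, one prime -/
def StL2 : Prop := ∀ (ι : Type) [Fintype ι] [DecidableEq ι] (sh grp : ι → ℕ) (J w W v : ℕ),
  Fix sh grp J w W v → ∃ M₁ : ℕ, ∀ M ≥ M₁, ∀ E : ℕ → ℝ, (∀ q, 0 ≤ E q) →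
  (∀ q a : ℕ, 1 ≤ q → q ^ 13 ≤ M → a.Coprime q →
    |∑ n ∈ (Ioc M (4 * M)).filter (fun n => n ≡ a [MOD q]), fp M n - X1 M / q.totient| ≤ E q) →
  (∀ Q : ℕ, Q ^ 13 ≤ M →
    ∑ q ∈ Icc 1 Q, (((Fintype.card ι + 1) ^ 2 : ℕ) : ℝ) ^ q.primeFactors.card * E q ≤
      M / Real.log M ^ (2 * Fintype.card ι + 10)) →
  ∀ h : ι, (55 / 100) * (X1 M / W.totient) * Tj W M grp J (grp h) * g1 W M (grp h) ^ 2 *
    g2 W M (grp h) ^ (KK (grp h) - 1) ≤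
  ∑ n ∈ (Ioc M (4 * M)).filter (fun n => n ≡ v [MOD W] ∧ (n + sh h).Prime),
    tent M n * Real.log (n + sh h : ℕ) * WT W M sh grp J n

/-- L3: numerics -/
def StL3 : Prop := ∀ W j : ℕ, 0 < W → ∃ M₁ : ℕ, ∀ M ≥ M₁,
  ((W.totient : ℝ) / (2 * W)) * (Real.log M / 32) ≤ Sp W M ∧ Sp W M ≤ Real.log M ∧
  g2 W M j * Sp W M ≤ KK j * g1 W M j ^ 2 ∧
  E1 (pp W M) (gg M j) / G1 (pp W M) (gg M j) +
    ((KK j : ℝ) - 1) * (E2 (pp W M) (gg M j) / G2 (pp W M) (gg M j)) ≤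
    (195 / 1000) * Real.log (Rbb M j)

open Classical in
/-- the local theorem: one modulus `W`, all large `M` with an equidistribution bound -/
def StLoc : Prop := ∀ (ι : Type) [Fintype ι] [DecidableEq ι] (sh grp : ι → ℕ) (J w W v : ℕ),
  Fix sh grp J w W v → 0 < J → ∃ M₁ : ℕ, ∀ M ≥ M₁, ∀ E : ℕ → ℝ, (∀ q, 0 ≤ E q) →
  (∀ q a : ℕ, 1 ≤ q → q ^ 13 ≤ M → a.Coprime q →
    |∑ n ∈ (Ioc M (4 * M)).filter (fun n => n ≡ a [MOD q]), fp M n - X1 M / q.totient| ≤ E q) →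
  (∀ Q : ℕ, Q ^ 13 ≤ M →
    ∑ q ∈ Icc 1 Q, (((Fintype.card ι + 1) ^ 2 : ℕ) : ℝ) ^ q.primeFactors.card * E q ≤
      M / Real.log M ^ (2 * Fintype.card ι + 10)) →
  (M : ℝ) / Real.log M ^ 2 ≤
    ∑ n ∈ (Ioc M (4 * M)).filter (fun n => n ≡ v [MOD W]), tent M n * WT W M sh grp J n ∧
  ∀ j < J, (1 / 10 ^ 9 : ℝ) *
    ∑ n ∈ (Ioc M (4 * M)).filter (fun n => n ≡ v [MOD W]), tent M n * WT W M sh grp J n ≤
    ∑ n ∈ (Ioc M (4 * M)).filter (fun n => n ≡ v [MOD W] ∧ ∃ h, grp h = j ∧ (n + sh h).Prime),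
      tent M n * WT W M sh grp J n

/-- S15: pointwise bound of the weight -/
def StPt : Prop := ∀ (ι : Type) [Fintype ι] [DecidableEq ι] (sh grp : ι → ℕ) (J w W v : ℕ),
  Fix sh grp J w W v → ∀ ε : ℝ, 0 < ε → ∃ M₁ : ℕ, ∀ M ≥ M₁, ∀ n ∈ Ioc M (4 * M),
    WT W M sh grp J n ≤ (M : ℝ) ^ ε

/-- divisor bound -/
def StTau : Prop := ∀ ε : ℝ, 0 < ε → ∃ C : ℝ, 0 < C ∧ ∀ n : ℕ, 0 < n →
  (#n.divisors : ℝ) ≤ C * (n : ℝ) ^ ε

/-! ### facts about the tent -/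

def StTent : Prop := ∀ M : ℕ, 0 < M →
  (∀ n, 0 ≤ tent M n) ∧ (∀ n, tent M n ≤ 1) ∧ (∀ n, n ∉ Ioc M (4 * M) → tent M n = 0) ∧
  (∀ n h : ℕ, |tent M (n + h) - tent M n| ≤ h / M) ∧
  EqD (Ioc M (4 * M)) (tent M) (X0 M) 3

def StCheb : Prop := ∃ M₁ : ℕ, ∀ M ≥ M₁, (9 / 100 : ℝ) * M ≤ X1 M ∧ X0 M ≤ 3 * M ∧
  (1 / 10 : ℝ) * M ≤ X0 M

/-- S14: choice of modulus and class -/
def StMod : Prop := ∀ (T E : Finset ℕ) (m v w : ℕ), 0 < m → Disjoint T E →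
  (∀ h ∈ T, (v + h).Coprime m) → (∀ p : ℕ, p.Prime → ∃ r : ℕ, ∀ h ∈ T, ¬ p ∣ r + h) →
  ∃ W v' : ℕ, 0 < W ∧ (∀ p, p.Prime → p ≤ w → p ∣ W) ∧ m ∣ W ∧ v' ≡ v [MOD m] ∧
    (∀ h ∈ T, (v' + h).Coprime W) ∧ ∀ e ∈ E, ∃ q, q.Prime ∧ q ∣ W ∧ q ∣ v' + e

end Pool.Agent.Helper90.MT
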