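import Pool.Agent.Helper90.MT.StS

/-!
Project MT, part S: basic properties of the weight `Yg`.
-/

namespace Pool.Agent.Helper90.MT

open Finset

theorem yg : StYg := by
  classical
  intro ι _ _ grp J Rb g hg hgrp
  have hind : ∀ (j : ℕ) (x : ι → ℕ), (0 : ℝ) ≤
      (if (∏ h ∈ univ.filter (fun h => grp h = j), (x h : ℝ)) ≤ Rb j then (1 : ℝ) else 0) := by
    intro j x
    split_ifs <;> norm_num
  have hind1 : ∀ (j : ℕ) (x : ι → ℕ),
      (if (∏ h ∈ univ.filter (fun h => grp h = j), (x h : ℝ)) ≤ Rb j then (1 : ℝ) else 0) ≤ 1 := by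
    intro j x
    split_ifs <;> norm_num
  refine ⟨fun x => ?_, fun x => ?_, fun x y hxy hy => ?_, fun x hx => ?_⟩
  · unfold Yg
    exact mul_nonneg (Finset.prod_nonneg fun j _ => hind j x)
      (Finset.prod_nonneg fun h _ => hg.nonneg _ _)
  · unfold Yg
    refine mul_le_one₀ ?_ (Finset.prod_nonneg fun h _ => hg.nonneg _ _) ?_
    · exact Finset.prod_le_one (fun j _ => hind j x) fun j _ => hind1 j x
    · exact Finset.prod_le_one (fun h _ => hg.nonneg _ _) fun h _ => hg.le_one _ _
  · have hxpos : ∀ h, 0 < x h := fun h => Nat.pos_of_dvd_of_pos (hxy h) (hy h)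
    have hle : ∀ h, x h ≤ y h := fun h => Nat.le_of_dvd (hy h) (hxy h)
    unfold Yg
    refine mul_le_mul ?_ ?_ (Finset.prod_nonneg fun h _ => hg.nonneg _ _)
      (Finset.prod_nonneg fun j _ => hind j x)
    · refine Finset.prod_le_prod (fun j _ => hind j y) fun j _ => ?_
      by_cases h1 : (∏ h ∈ univ.filter (fun h => grp h = j), (y h : ℝ)) ≤ Rb j
      · have h2 : (∏ h ∈ univ.filter (fun h => grp h = j), (x h : ℝ)) ≤ Rb j := by
          refine le_trans (Finset.prod_le_prod (fun h _ => Nat.cast_nonneg _) fun h _ => ?_) h1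
          exact_mod_cast hle h
        rw [if_pos h1, if_pos h2]
      · rw [if_neg h1]
        exact hind j x
    · exact Finset.prod_le_prod (fun h _ => hg.nonneg _ _) fun h _ =>
        hg.anti _ _ _ (hxpos h) (hle h)
  · have h1 : ∀ j ∈ range J, (∏ h ∈ univ.filter (fun h => grp h = j), (x h : ℝ)) ≤ Rb j := by
      intro j hj
      by_contra hcon
      apply hx
      unfold Yg
      rw [Finset.prod_eq_zero hj (if_neg hcon), zero_mul]
    rw [← Finset.prod_fiberwise_of_maps_to (s := univ) (t := range J) (g := grp)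
      (fun h _ => mem_range.2 (hgrp h))]
    exact Finset.prod_le_prod (fun j _ => Finset.prod_nonneg fun h _ => Nat.cast_nonneg _) h1

end Pool.Agent.Helper90.MT
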